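import Mathlib

set_option autoImplicit false

namespace MP82a8ee.Three

/-- binary trees of numbers, used as tables -/
inductive Tr
  | lf (x : ℕ)
  | nd (l r : Tr)

/-- binary trees of lists of numbers, used as tables -/
inductive TL
  | lf (x : List ℕ)
  | nd (l r : TL)

/-- case distinction on a Boolean value -/
noncomputable def ifb {α : Type} (b : Bool) (x y : α) : α := Bool.rec (motive := fun _ => α) y x b

/-- look up an index (lowest bit first) -/
noncomputable def get (t : Tr) : ℕ → ℕ :=
  Tr.rec (motive := fun _ => ℕ → ℕ) (fun x _ => x)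
    (fun _ _ gl gr i => ifb (Nat.beq (Nat.mod i 2) 0) (gl (Nat.div i 2)) (gr (Nat.div i 2))) t

/-- look up an index (lowest bit first) -/
noncomputable def getL (t : TL) : ℕ → List ℕ :=
  TL.rec (motive := fun _ => ℕ → List ℕ) (fun x _ => x)
    (fun _ _ gl gr i => ifb (Nat.beq (Nat.mod i 2) 0) (gl (Nat.div i 2)) (gr (Nat.div i 2))) t

/-- entry number `l` of a row (nine bits per entry) -/
def ent (x l : ℕ) : ℕ := Nat.land (Nat.shiftRight x (Nat.mul 9 l)) 511

/-- bit number `i` -/
def tbt (x i : ℕ) : Bool := Nat.beq (Nat.land 1 (Nat.shiftRight x i)) 1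

/-- all numbers below `n` -/
noncomputable def allLt (n : ℕ) (p : ℕ → Bool) : Bool :=
  Nat.rec (motive := fun _ => Bool) true (fun k ih => ifb (p k) ih false) n

/-- all members of a list -/
noncomputable def allL (l : List ℕ) (p : ℕ → Bool) : Bool :=
  List.rec (motive := fun _ => Bool) true (fun x _ ih => ifb (p x) ih false) l

/-- membership in a list -/
noncomputable def memL (x : ℕ) (l : List ℕ) : Bool :=
  List.rec (motive := fun _ => Bool) false (fun y _ ih => ifb (Nat.beq x y) true ih) l

/-- entry number `i` of a list is handed to `K` -/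
noncomputable def nthK (l : List ℕ) : ℕ → (ℕ → Bool) → Bool :=
  List.rec (motive := fun _ => ℕ → (ℕ → Bool) → Bool) (fun _ _ => false)
    (fun x _ ih i K => Nat.rec (motive := fun _ => Bool) (K x) (fun j _ => ih j K) i) l

/-- the letter number for robot row `r` (3: no robot), target row `t` (3: no target), blocks `c` -/
def ln (r t c : ℕ) : ℕ := Nat.add (Nat.mul 32 r) (Nat.add (Nat.mul 8 t) c)

/-! the fields of an excursion -/

def ei (e : ℕ) : ℕ := Nat.land e 3

def eJ (e : ℕ) : ℕ := Nat.land (Nat.shiftRight e 2) 7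

def ek (e : ℕ) : ℕ := Nat.land (Nat.shiftRight e 5) 7

noncomputable def outsF (n : ℕ) : ℕ → List ℕ :=
  Nat.rec (motive := fun _ => ℕ → List ℕ) (fun _ => [])
    (fun _ ih x => Nat.land x 255 :: ih (Nat.shiftRight x 8)) n

noncomputable def eo (e : ℕ) : List ℕ := outsF (Nat.land (Nat.shiftRight e 8) 31)
  (Nat.shiftRight e 13)

end MP82a8ee.Three
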