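import Pool.Agent.Lib.MP_82a8ee_lc.Three.Model
import Pool.Agent.Lib.MP_82a8ee_lc.Defs

set_option autoImplicit false

namespace MP82a8ee.Three

/-! The positions in the coordinates of the robot and the positions on the board. -/

/-- the cell in row `i` and column `j` holds a block -/
def hasB : List Lt → ℕ → Fin 3 → Bool
  | [], _, _ => false
  | l :: _, 0, i => bit l.1 i
  | _ :: v, j + 1, i => hasB v j i

theorem hasB_app_lt (u w : List Lt) (i : Fin 3) : ∀ j, j < u.length →
    hasB (u ++ w) j i = hasB u j i := by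
  induction u with
  | nil => intro j hj; simp at hj
  | cons l u ih =>
    intro j hj
    cases j with
    | zero => rfl
    | succ j => exact ih j (by simpa using hj)

theorem hasB_app_ge (u w : List Lt) (i : Fin 3) (k : ℕ) :
    hasB (u ++ w) (u.length + k) i = hasB w k i := by
  induction u with
  | nil => show hasB w (0 + k) i = _; rw [Nat.zero_add]
  | cons l u ih =>
    rw [List.length_cons, show u.length + 1 + k = (u.length + k) + 1 by omega]
    exact ih

theorem hasB_lt (w : List Lt) (i : Fin 3) : ∀ j, hasB w j i = true → j < w.length := by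
  induction w with
  | nil => intro j h; exact absurd h (by simp [hasB])
  | cons l w ih =>
    intro j h
    cases j with
    | zero => simp
    | succ j => have := ih j h; simpa using this

/-- the cell in row `i` and column `j` -/
def cell (i : Fin 3) (j : ℕ) : ℤ × ℤ := ((i.val : ℤ), (j : ℤ))

theorem cell_inj {i i' : Fin 3} {j j' : ℕ} : cell i j = cell i' j' ↔ i = i' ∧ j = j' := by
  constructor
  · intro h
    have h1 : (i.val : ℤ) = (i'.val : ℤ) := congrArg Prod.fst h
    have h2 : (j : ℤ) = (j' : ℤ) := congrArg Prod.snd h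
    exact ⟨Fin.ext (by omega), by omega⟩
  · rintro ⟨rfl, rfl⟩; rfl

/-- the set of cells that hold a block -/
def bl (w : List Lt) : Set (ℤ × ℤ) := {c | ∃ (i : Fin 3) (j : ℕ), hasB w j i = true ∧ c = cell i j}

theorem mem_bl (w : List Lt) (i : Fin 3) (j : ℕ) : cell i j ∈ bl w ↔ hasB w j i = true := by
  constructor
  · rintro ⟨i', j', h, e⟩
    obtain ⟨rfl, rfl⟩ := cell_inj.1 e
    exact h
  · intro h; exact ⟨i, j, h, rfl⟩

theorem cell_board (i : Fin 3) (j n : ℕ) : cell i j ∈ board 3 n ↔ j < n := by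
  show (0 ≤ (i.val : ℤ) ∧ (i.val : ℤ) < ((3 : ℕ) : ℤ) ∧ 0 ≤ (j : ℤ) ∧ (j : ℤ) < (n : ℤ)) ↔ _
  have := i.isLt
  omega

theorem bl_push (w w' : List Lt) (i1 i2 : Fin 3) (j1 j2 : ℕ)
    (h : ∀ j i, hasB w' j i = if i = i2 ∧ j = j2 then true else
      if i = i1 ∧ j = j1 then false else hasB w j i) :
    bl w' = insert (cell i2 j2) (bl w \ {cell i1 j1}) := by
  ext c
  constructor
  · rintro ⟨i, j, h1, rfl⟩
    rw [h] at h1
    by_cases e2 : i = i2 ∧ j = j2
    · left; rw [e2.1, e2.2]
    · right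
      rw [if_neg e2] at h1
      by_cases e1 : i = i1 ∧ j = j1
      · rw [if_pos e1] at h1; exact absurd h1 (by simp)
      · rw [if_neg e1] at h1
        refine ⟨(mem_bl w i j).2 h1, ?_⟩
        intro hh
        exact e1 (cell_inj.1 hh)
  · rintro (rfl | ⟨⟨i, j, h1, rfl⟩, h2⟩)
    · rw [mem_bl, h, if_pos ⟨rfl, rfl⟩]
    · rw [mem_bl, h]
      by_cases e2 : i = i2 ∧ j = j2
      · rw [if_pos e2]
      · rw [if_neg e2]
        have e1 : ¬ (i = i1 ∧ j = j1) := fun hh => h2 (cell_inj.2 hh)
        rw [if_neg e1]; exact h1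

/-- the word of a position -/
def wd (s : Z) : List Lt := s.y.reverse ++ s.a :: s.v

/-- the position on the board -/
def P (s : Z) : Position := ⟨bl (wd s), cell s.r s.y.length⟩

theorem wd_length (s : Z) : (wd s).length = s.y.length + 1 + s.v.length := by
  unfold wd
  rw [List.length_append, List.length_cons, List.length_reverse]
  omega

theorem wd_at (s : Z) (i : Fin 3) : hasB (wd s) s.y.length i = bit s.a.1 i := by
  have := hasB_app_ge s.y.reverse (s.a :: s.v) i 0
  rw [List.length_reverse, Nat.add_zero] at this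
  exact this

theorem wd_right (s : Z) (i : Fin 3) (k : ℕ) :
    hasB (wd s) (s.y.length + 1 + k) i = hasB s.v k i := by
  have := hasB_app_ge s.y.reverse (s.a :: s.v) i (k + 1)
  rw [List.length_reverse, show s.y.length + (k + 1) = s.y.length + 1 + k by omega] at this
  exact this

theorem wd_left (s : Z) (i : Fin 3) (j : ℕ) (hj : j < s.y.length) :
    hasB (wd s) j i = hasB s.y.reverse j i :=
  hasB_app_lt _ _ i j (by rw [List.length_reverse]; exact hj)

theorem Move.walk' {m n : ℕ} {d : Dir} {B B' : Set (ℤ × ℤ)} {p p' : ℤ × ℤ}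
    (hp : p' = p + d.vec) (hb : p' ∈ board m n) (hf : p' ∉ B) (hB : B' = B) :
    Move m n d ⟨B, p⟩ ⟨B', p'⟩ := by
  subst hB hp; exact Move.walk B' p hb hf

theorem Move.push' {m n : ℕ} {d : Dir} {B B' : Set (ℤ × ℤ)} {p p' p'' : ℤ × ℤ}
    (hp : p' = p + d.vec) (hp2 : p'' = p' + d.vec) (hb : p' ∈ board m n) (hB : p' ∈ B)
    (hb' : p'' ∈ board m n) (hf : p'' ∉ B) (hB' : B' = insert p'' (B \ {p'})) :
    Move m n d ⟨B, p⟩ ⟨B', p'⟩ := by
  subst hp hp2 hB'; exact Move.push B p hb hB hb' hf

theorem move_inv {m n : ℕ} {d : Dir} {s t : Position} (h : Move m n d s t) :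
    (s.robot + d.vec ∈ board m n ∧ s.robot + d.vec ∉ s.blocks ∧
      t = ⟨s.blocks, s.robot + d.vec⟩) ∨
    (s.robot + d.vec ∈ board m n ∧ s.robot + d.vec ∈ s.blocks ∧
      s.robot + d.vec + d.vec ∈ board m n ∧ s.robot + d.vec + d.vec ∉ s.blocks ∧
      t = ⟨insert (s.robot + d.vec + d.vec) (s.blocks \ {s.robot + d.vec}),
        s.robot + d.vec⟩) := by
  cases h with
  | walk B p hb hf => exact Or.inl ⟨hb, hf, rfl⟩
  | push B p hb hB hb' hf => exact Or.inr ⟨hb, hB, hb', hf, rfl⟩

/-- fewer blocks do not hurt -/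
theorem move_mono {m n : ℕ} {d : Dir} {s t : Position} (h : Move m n d s t)
    (C : Set (ℤ × ℤ)) (hC : C ⊆ s.blocks) :
    ∃ C' ⊆ t.blocks, Move m n d ⟨C, s.robot⟩ ⟨C', t.robot⟩ := by
  cases h with
  | walk B p hb hf => exact ⟨C, hC, Move.walk C p hb (fun hh => hf (hC hh))⟩
  | push B p hb hB hb' hf =>
    by_cases h1 : p + d.vec ∈ C
    · refine ⟨insert (p + d.vec + d.vec) (C \ {p + d.vec}), ?_,
        Move.push C p hb h1 hb' (fun hh => hf (hC hh))⟩
      rintro c (rfl | ⟨h2, h3⟩)
      · exact Or.inl rfl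
      · exact Or.inr ⟨hC h2, h3⟩
    · refine ⟨C, ?_, Move.walk C p hb h1⟩
      intro c hc
      refine Or.inr ⟨hC hc, ?_⟩
      rintro rfl
      exact h1 hc

/-! the sets of blocks after a push -/

theorem set_right (y : List Lt) (a : Lt) (r : Fin 3) (b c : Fin 8) (t t' : Fin 4) (v : List Lt)
    (hb : bit b r = true) (hc : bit c r = false) :
    bl (wd ⟨a :: y, (fl b r, t), r, (fl c r, t') :: v⟩) =
      insert (cell r (y.length + 2)) (bl (wd ⟨y, a, r, (b, t) :: (c, t') :: v⟩) \
        {cell r (y.length + 1)}) := by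
  have e1 : wd ⟨a :: y, (fl b r, t), r, (fl c r, t') :: v⟩ =
      wd ⟨y, a, r, (fl b r, t) :: (fl c r, t') :: v⟩ := by
    unfold wd; simp
  rw [e1]
  apply bl_push
  intro j i
  rcases Nat.lt_or_ge j (y.length + 1) with hj | hj
  · rw [if_neg (by omega), if_neg (by omega)]
    rcases Nat.lt_or_ge j y.length with hj' | hj'
    · rw [wd_left _ _ _ hj', wd_left _ _ _ hj']
    · have : j = y.length := by omega
      subst this
      rw [wd_at ⟨y, a, r, _⟩, wd_at ⟨y, a, r, _⟩]
  · obtain ⟨k, rfl⟩ : ∃ k, j = y.length + 1 + k := ⟨j - (y.length + 1), by omega⟩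
    rw [wd_right ⟨y, a, r, _⟩, wd_right ⟨y, a, r, _⟩]
    match k with
    | 0 =>
      rw [if_neg (by omega)]
      show bit (fl b r) i = if i = r ∧ _ then false else bit b i
      rw [bit_fl]
      by_cases h : i = r
      · subst h; rw [if_pos rfl, if_pos ⟨rfl, by omega⟩, hb]; rfl
      · rw [if_neg h, if_neg (fun hh => h hh.1)]
    | 1 =>
      show bit (fl c r) i = if i = r ∧ _ then true else if i = r ∧ _ then false else bit c i
      rw [bit_fl]
      by_cases h : i = r
      · subst h; rw [if_pos rfl, if_pos ⟨rfl, by omega⟩, hc]; rfl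
      · rw [if_neg h, if_neg (fun hh => h hh.1), if_neg (fun hh => h hh.1)]
    | k + 2 =>
      rw [if_neg (by omega), if_neg (by omega)]
      rfl

theorem hasB_rev (y : List Lt) (l : Lt) (w : List Lt) (i : Fin 3) (j : ℕ) (hj : j < y.length) :
    hasB ((l :: y).reverse ++ w) j i = hasB (y.reverse) j i := by
  rw [List.reverse_cons, List.append_assoc]
  exact hasB_app_lt _ _ i j (by rw [List.length_reverse]; exact hj)

theorem set_left (y : List Lt) (a : Lt) (r : Fin 3) (b c : Fin 8) (t t' : Fin 4) (v : List Lt)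
    (hb : bit b r = true) (hc : bit c r = false) :
    bl (wd ⟨(fl c r, t') :: y, (fl b r, t), r, a :: v⟩) =
      insert (cell r y.length) (bl (wd ⟨(b, t) :: (c, t') :: y, a, r, v⟩) \
        {cell r (y.length + 1)}) := by
  have e1 : wd ⟨(fl c r, t') :: y, (fl b r, t), r, a :: v⟩ =
      y.reverse ++ (fl c r, t') :: (fl b r, t) :: a :: v := by
    unfold wd; simp
  have e2 : wd ⟨(b, t) :: (c, t') :: y, a, r, v⟩ =
      y.reverse ++ (c, t') :: (b, t) :: a :: v := by
    unfold wd; simp
  rw [e1, e2]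
  apply bl_push
  intro j i
  rcases Nat.lt_or_ge j y.length with hj | hj
  · rw [if_neg (by omega), if_neg (by omega)]
    rw [hasB_app_lt _ _ _ _ (by rw [List.length_reverse]; exact hj),
      hasB_app_lt _ _ _ _ (by rw [List.length_reverse]; exact hj)]
  · obtain ⟨k, rfl⟩ : ∃ k, j = y.length + k := ⟨j - y.length, by omega⟩
    have key : ∀ w : List Lt, hasB (y.reverse ++ w) (y.length + k) i = hasB w k i := by
      intro w
      have := hasB_app_ge y.reverse w i k
      rw [List.length_reverse] at this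
      exact this
    rw [key, key]
    match k with
    | 0 =>
      show bit (fl c r) i = if i = r ∧ _ then true else if i = r ∧ _ then false else bit c i
      rw [bit_fl]
      by_cases h : i = r
      · subst h; rw [if_pos rfl, if_pos ⟨rfl, by omega⟩, hc]; rfl
      · rw [if_neg h, if_neg (fun hh => h hh.1), if_neg (fun hh => h hh.1)]
    | 1 =>
      rw [if_neg (by omega)]
      show bit (fl b r) i = if i = r ∧ _ then false else bit b i
      rw [bit_fl]
      by_cases h : i = r
      · subst h; rw [if_pos rfl, if_pos ⟨rfl, by omega⟩, hb]; rfl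
      · rw [if_neg h, if_neg (fun hh => h hh.1)]
    | k + 2 =>
      rw [if_neg (by omega), if_neg (by omega)]
      rfl

theorem set_vert (y : List Lt) (a : Fin 8) (t : Fin 4) (r r' r2 : Fin 3) (v : List Lt)
    (h1 : bit a r' = true) (h2 : bit a r2 = false) :
    bl (wd ⟨y, (fl (fl a r') r2, t), r', v⟩) =
      insert (cell r2 y.length) (bl (wd ⟨y, (a, t), r, v⟩) \ {cell r' y.length}) := by
  apply bl_push
  intro j i
  have hne : r' ≠ r2 := by rintro rfl; rw [h1] at h2; exact absurd h2 (by simp)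
  rcases Nat.lt_or_ge j y.length with hj | hj
  · rw [if_neg (by omega), if_neg (by omega), wd_left _ _ _ hj, wd_left _ _ _ hj]
  · rcases Nat.lt_or_ge y.length j with hj' | hj'
    · obtain ⟨k, rfl⟩ : ∃ k, j = y.length + 1 + k := ⟨j - (y.length + 1), by omega⟩
      rw [wd_right ⟨y, _, _, v⟩, wd_right ⟨y, _, _, v⟩, if_neg (by omega), if_neg (by omega)]
    · have : j = y.length := by omega
      subst this
      rw [wd_at ⟨y, _, _, v⟩, wd_at ⟨y, _, _, v⟩]
      show bit (fl (fl a r') r2) i = (if i = r2 ∧ y.length = y.length then true else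
        if i = r' ∧ y.length = y.length then false else bit a i)
      rw [bit_fl, bit_fl]
      by_cases e2 : i = r2
      · subst e2
        simp [hne.symm, h2]
      · by_cases e1 : i = r'
        · subst e1
          simp [e2, h1]
        · simp [e1, e2]

/-- every move in the coordinates of the robot is a move on the board -/
theorem move_of {s s' : Z} (h : Stp0 s s') : ∃ d, Move 3 (wd s).length d (P s) (P s') := by
  cases h with
  | ver y a a' t r r' v h =>
    have hlen : y.length < (wd ⟨y, (a, t), r, v⟩).length := by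
      rw [wd_length]; show y.length < y.length + 1 + v.length; omega
    unfold ver at h
    rcases Bool.or_eq_true_iff.1 h with h | h
    · have h' : ((r.val + 1 = r'.val ∨ r'.val + 1 = r.val) ∧ bit a r' = false) ∧ a' = a := by
        simpa using h
      obtain ⟨⟨h1, h2⟩, rfl⟩ := h'
      have hnb : cell r' y.length ∉ bl (wd ⟨y, (a', t), r, v⟩) := by
        rw [mem_bl, wd_at ⟨y, (a', t), r, v⟩]
        show ¬ bit a' r' = true
        rw [h2]; simp
      have hw : bl (wd ⟨y, (a', t), r', v⟩) = bl (wd ⟨y, (a', t), r, v⟩) := rfl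
      rcases h1 with h1 | h1
      · refine ⟨Dir.down, Move.walk' ?_ ((cell_board _ _ _).2 hlen) hnb hw⟩
        show cell r' y.length = cell r y.length + (1, 0)
        refine Prod.ext ?_ ?_
        · show ((r'.val : ℤ)) = (r.val : ℤ) + 1; omega
        · show (y.length : ℤ) = (y.length : ℤ) + 0; omega
      · refine ⟨Dir.up, Move.walk' ?_ ((cell_board _ _ _).2 hlen) hnb hw⟩
        show cell r' y.length = cell r y.length + (-1, 0)
        refine Prod.ext ?_ ?_
        · show ((r'.val : ℤ)) = (r.val : ℤ) + -1; omega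
        · show (y.length : ℤ) = (y.length : ℤ) + 0; omega
    · have h' : (((r' = 1 ∧ r ≠ 1) ∧ bit a 1 = true) ∧ bit a r.rev = false) ∧
          a' = fl (fl a 1) r.rev := by simpa using h
      obtain ⟨⟨⟨⟨rfl, h1⟩, h2⟩, h3⟩, rfl⟩ := h'
      have hB : cell 1 y.length ∈ bl (wd ⟨y, (a, t), r, v⟩) := by
        rw [mem_bl, wd_at ⟨y, (a, t), r, v⟩]; exact h2
      have hnb : cell r.rev y.length ∉ bl (wd ⟨y, (a, t), r, v⟩) := by
        rw [mem_bl, wd_at ⟨y, (a, t), r, v⟩]
        show ¬ bit a r.rev = true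
        rw [h3]; simp
      have hs := set_vert y a t r 1 r.rev v h2 h3
      have h1' : r = 0 ∨ r = 2 :=
        (by decide : ∀ r : Fin 3, r ≠ 1 → r = 0 ∨ r = 2) r h1
      rcases h1' with rfl | rfl
      · refine ⟨Dir.down, Move.push' ?_ ?_ ((cell_board _ _ _).2 hlen) hB
          ((cell_board _ _ _).2 hlen) hnb hs⟩
        · show cell 1 y.length = cell 0 y.length + (1, 0)
          refine Prod.ext ?_ ?_
          · show (((1 : Fin 3).val : ℤ)) = ((0 : Fin 3).val : ℤ) + 1; simp
          · show (y.length : ℤ) = (y.length : ℤ) + 0; omega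
        · show cell (Fin.rev 0) y.length = cell 1 y.length + (1, 0)
          refine Prod.ext ?_ ?_
          · show (((2 : Fin 3).val : ℤ)) = ((1 : Fin 3).val : ℤ) + 1; simp
          · show (y.length : ℤ) = (y.length : ℤ) + 0; omega
      · refine ⟨Dir.up, Move.push' ?_ ?_ ((cell_board _ _ _).2 hlen) hB
          ((cell_board _ _ _).2 hlen) hnb hs⟩
        · show cell 1 y.length = cell 2 y.length + (-1, 0)
          refine Prod.ext ?_ ?_
          · show (((1 : Fin 3).val : ℤ)) = ((2 : Fin 3).val : ℤ) + -1; simp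
          · show (y.length : ℤ) = (y.length : ℤ) + 0; omega
        · show cell (Fin.rev 2) y.length = cell 1 y.length + (-1, 0)
          refine Prod.ext ?_ ?_
          · show (((0 : Fin 3).val : ℤ)) = ((1 : Fin 3).val : ℤ) + -1; simp
          · show (y.length : ℤ) = (y.length : ℤ) + 0; omega
  | rw y a r b v h =>
    have e1 : wd ⟨a :: y, b, r, v⟩ = wd ⟨y, a, r, b :: v⟩ := by unfold wd; simp
    refine ⟨Dir.right, Move.walk' ?_ ((cell_board _ _ _).2 ?_) ?_ (by rw [e1])⟩
    · show cell r (y.length + 1) = cell r y.length + (0, 1)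
      refine Prod.ext ?_ ?_
      · show (r.val : ℤ) = (r.val : ℤ) + 0; omega
      · show ((y.length + 1 : ℕ) : ℤ) = (y.length : ℤ) + 1; omega
    · rw [wd_length]; show (y.length + 1) < y.length + 1 + (v.length + 1); omega
    · show cell r (y.length + 1) ∉ _
      rw [mem_bl]
      have := wd_right ⟨y, a, r, b :: v⟩ r 0
      rw [Nat.add_zero] at this
      show ¬ hasB (wd ⟨y, a, r, b :: v⟩) (y.length + 1) r = true
      rw [this]
      show ¬ bit b.1 r = true
      rw [h]; simp
  | rp y a r b c t t' v hb hc =>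
    have hlen : y.length + 2 < (wd ⟨y, a, r, (b, t) :: (c, t') :: v⟩).length := by
      rw [wd_length]; show y.length + 2 < y.length + 1 + (v.length + 1 + 1); omega
    refine ⟨Dir.right, Move.push' (p'' := cell r (y.length + 2)) ?_ ?_
      ((cell_board _ _ _).2 ?_) ?_ ((cell_board _ _ _).2 hlen) ?_
      (set_right y a r b c t t' v hb hc)⟩
    · show cell r (y.length + 1) = cell r y.length + (0, 1)
      refine Prod.ext ?_ ?_
      · show (r.val : ℤ) = (r.val : ℤ) + 0; omega
      · show ((y.length + 1 : ℕ) : ℤ) = (y.length : ℤ) + 1; omega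
    · show cell r (y.length + 2) = cell r (y.length + 1) + (0, 1)
      refine Prod.ext ?_ ?_
      · show (r.val : ℤ) = (r.val : ℤ) + 0; omega
      · show ((y.length + 2 : ℕ) : ℤ) = ((y.length + 1 : ℕ) : ℤ) + 1; omega
    · show y.length + 1 < _; omega
    · show cell r (y.length + 1) ∈ _
      rw [mem_bl]
      have := wd_right ⟨y, a, r, (b, t) :: (c, t') :: v⟩ r 0
      rw [Nat.add_zero] at this
      rw [this]; exact hb
    · rw [mem_bl]
      have := wd_right ⟨y, a, r, (b, t) :: (c, t') :: v⟩ r 1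
      show ¬ hasB (wd ⟨y, a, r, (b, t) :: (c, t') :: v⟩) (y.length + 1 + 1) r = true
      rw [this]
      show ¬ bit c r = true
      rw [hc]; simp
  | lw y a r b v h =>
    have e1 : wd ⟨y, b, r, a :: v⟩ = wd ⟨b :: y, a, r, v⟩ := by unfold wd; simp
    refine ⟨Dir.left, Move.walk' ?_ ((cell_board _ _ _).2 ?_) ?_ (by rw [e1])⟩
    · show cell r y.length = cell r (y.length + 1) + (0, -1)
      refine Prod.ext ?_ ?_
      · show (r.val : ℤ) = (r.val : ℤ) + 0; omega
      · show ((y.length : ℕ) : ℤ) = ((y.length + 1 : ℕ) : ℤ) + -1; omega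
    · rw [wd_length]; show y.length < (y.length + 1) + 1 + v.length; omega
    · show cell r y.length ∉ _
      rw [mem_bl, ← e1]
      have := wd_at ⟨y, b, r, a :: v⟩ r
      show ¬ hasB (wd ⟨y, b, r, a :: v⟩) y.length r = true
      rw [this]
      show ¬ bit b.1 r = true
      rw [h]; simp
  | lp y a r b c t t' v hb hc =>
    have hlen : (wd ⟨(b, t) :: (c, t') :: y, a, r, v⟩).length = y.length + 3 + v.length := by
      rw [wd_length]; show (y.length + 1 + 1) + 1 + v.length = _; omega
    have e2 : wd ⟨(b, t) :: (c, t') :: y, a, r, v⟩ =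
        y.reverse ++ (c, t') :: (b, t) :: a :: v := by
      unfold wd; simp
    refine ⟨Dir.left, Move.push' (p'' := cell r y.length) ?_ ?_
      ((cell_board _ _ _).2 ?_) ?_ ((cell_board _ _ _).2 ?_) ?_
      (set_left y a r b c t t' v hb hc)⟩
    · show cell r (y.length + 1) = cell r (y.length + 2) + (0, -1)
      refine Prod.ext ?_ ?_
      · show (r.val : ℤ) = (r.val : ℤ) + 0; omega
      · show ((y.length + 1 : ℕ) : ℤ) = ((y.length + 2 : ℕ) : ℤ) + -1; omega
    · show cell r y.length = cell r (y.length + 1) + (0, -1)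
      refine Prod.ext ?_ ?_
      · show (r.val : ℤ) = (r.val : ℤ) + 0; omega
      · show ((y.length : ℕ) : ℤ) = ((y.length + 1 : ℕ) : ℤ) + -1; omega
    · show y.length + 1 < _; rw [hlen]; omega
    · show cell r (y.length + 1) ∈ _
      rw [mem_bl, e2]
      have := hasB_app_ge y.reverse ((c, t') :: (b, t) :: a :: v) r 1
      rw [List.length_reverse] at this
      rw [this]; exact hb
    · rw [hlen]; omega
    · rw [mem_bl, e2]
      have := hasB_app_ge y.reverse ((c, t') :: (b, t) :: a :: v) r 0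
      rw [List.length_reverse, Nat.add_zero] at this
      rw [this]
      show ¬ bit c r = true
      rw [hc]; simp

theorem ver_walk (a : Fin 8) (r r' : Fin 3) (h : r.val + 1 = r'.val ∨ r'.val + 1 = r.val)
    (h2 : bit a r' = false) : ver a r a r' = true := by
  revert a r r'; decide +kernel

theorem ver_push (a : Fin 8) (r : Fin 3) (h : r ≠ 1)
    (h1 : bit a 1 = true) (h2 : bit a r.rev = false) : ver a r (fl (fl a 1) r.rev) 1 = true := by
  revert a r; decide +kernel

/-- every move on the board is a move in the coordinates of the robot -/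
theorem of_move {s : Z} {n : ℕ} (hn : n = (wd s).length) {d : Dir} {q : Position}
    (h : Move 3 n d (P s) q) : ∃ s', Stp0 s s' ∧ q = P s' := by
  obtain ⟨y, ⟨a, t⟩, r, v⟩ := s
  have hinv := move_inv h
  have hn' : n = y.length + 1 + v.length := by rw [hn, wd_length]
  have hr := r.isLt
  -- a helper: the move `s → s'` leads to the same position
  have fin : ∀ s', Stp0 ⟨y, (a, t), r, v⟩ s' → ∀ d', (P s').robot = (P ⟨y, (a, t), r, v⟩).robot +
      d'.vec → d' = d → ∃ s'', Stp0 ⟨y, (a, t), r, v⟩ s'' ∧ q = P s'' := by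
    intro s' hs' d' hd' hdd
    subst hdd
    refine ⟨s', hs', ?_⟩
    obtain ⟨d2, h2⟩ := move_of hs'
    rw [← hn] at h2
    have h3 := move_inv h2
    have hr2 : (P s').robot = (P ⟨y, (a, t), r, v⟩).robot + d2.vec := by
      rcases h3 with ⟨_, _, h3⟩ | ⟨_, _, _, _, h3⟩ <;> rw [h3]
    rw [hd'] at hr2
    have hv : d'.vec = d2.vec := by
      have := add_left_cancel hr2
      exact this
    have hdd : d' = d2 := by
      revert hv
      cases d' <;> cases d2 <;> simp [Dir.vec]
    subst hdd
    rcases hinv with ⟨_, k2, k3⟩ | ⟨_, k2, _, _, k3⟩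
    · rcases h3 with ⟨_, _, h3⟩ | ⟨_, h3, _, _, _⟩
      · rw [k3, h3]
      · exact absurd h3 k2
    · rcases h3 with ⟨_, h3, _⟩ | ⟨_, _, _, _, h3⟩
      · exact absurd k2 h3
      · rw [k3, h3]
  have hbd : (P ⟨y, (a, t), r, v⟩).robot + d.vec ∈ board 3 n := by
    rcases hinv with ⟨h1, _⟩ | ⟨h1, _⟩ <;> exact h1
  have at0 : ∀ i : Fin 3, cell i y.length ∈ (P ⟨y, (a, t), r, v⟩).blocks ↔ bit a i = true := by
    intro i
    show cell i y.length ∈ bl (wd ⟨y, (a, t), r, v⟩) ↔ _
    rw [mem_bl, wd_at ⟨y, (a, t), r, v⟩]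
  have ff : ∀ x : Bool, ¬ x = true → x = false := fun x hx => by cases x <;> simp_all
  cases d with
  | up =>
    have h0 : (0 : ℤ) ≤ (r.val : ℤ) + -1 := hbd.1
    have hr' : r = 1 ∨ r = 2 := (by decide : ∀ r : Fin 3, r ≠ 0 → r = 1 ∨ r = 2) r (by
      rintro rfl
      have : ((0 : Fin 3).val : ℤ) = 0 := rfl
      omega)
    rcases hr' with rfl | rfl
    · have e : (P ⟨y, (a, t), 1, v⟩).robot + Dir.up.vec = cell 0 y.length :=
        Prod.ext (by show ((1 : Fin 3).val : ℤ) + -1 = ((0 : Fin 3).val : ℤ); simp)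
          (by show (y.length : ℤ) + 0 = (y.length : ℤ); omega)
      rcases hinv with ⟨_, k2, _⟩ | ⟨_, _, k3, _⟩
      · rw [e, at0] at k2
        exact fin ⟨y, (a, t), 0, v⟩ (Stp0.ver _ _ _ _ _ _ _ (ver_walk a 1 0 (Or.inr rfl)
          (ff _ k2))) Dir.up e.symm rfl
      · exfalso
        have : (0 : ℤ) ≤ ((1 : Fin 3).val : ℤ) + -1 + -1 := k3.1
        have h1 : ((1 : Fin 3).val : ℤ) = 1 := rfl
        omega
    · have e : (P ⟨y, (a, t), 2, v⟩).robot + Dir.up.vec = cell 1 y.length :=
        Prod.ext (by show ((2 : Fin 3).val : ℤ) + -1 = ((1 : Fin 3).val : ℤ); simp)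
          (by show (y.length : ℤ) + 0 = (y.length : ℤ); omega)
      have e' : cell 1 y.length + Dir.up.vec = cell 0 y.length :=
        Prod.ext (by show ((1 : Fin 3).val : ℤ) + -1 = ((0 : Fin 3).val : ℤ); simp)
          (by show (y.length : ℤ) + 0 = (y.length : ℤ); omega)
      rcases hinv with ⟨_, k2, _⟩ | ⟨_, k2, _, k4, _⟩
      · rw [e, at0] at k2
        exact fin ⟨y, (a, t), 1, v⟩ (Stp0.ver _ _ _ _ _ _ _ (ver_walk a 2 1 (Or.inr rfl)
          (ff _ k2))) Dir.up e.symm rfl
      · rw [e, at0] at k2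
        rw [e, e', at0] at k4
        exact fin ⟨y, (fl (fl a 1) 0, t), 1, v⟩ (Stp0.ver _ _ _ _ _ _ _
          (ver_push a 2 (by decide) k2 (ff _ k4))) Dir.up e.symm rfl
  | down =>
    have h0 : (r.val : ℤ) + 1 < ((3 : ℕ) : ℤ) := hbd.2.1
    have hr' : r = 0 ∨ r = 1 := (by decide : ∀ r : Fin 3, r ≠ 2 → r = 0 ∨ r = 1) r (by
      rintro rfl
      have : ((2 : Fin 3).val : ℤ) = 2 := rfl
      omega)
    rcases hr' with rfl | rfl
    · have e : (P ⟨y, (a, t), 0, v⟩).robot + Dir.down.vec = cell 1 y.length :=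
        Prod.ext (by show ((0 : Fin 3).val : ℤ) + 1 = ((1 : Fin 3).val : ℤ); simp)
          (by show (y.length : ℤ) + 0 = (y.length : ℤ); omega)
      have e' : cell 1 y.length + Dir.down.vec = cell 2 y.length :=
        Prod.ext (by show ((1 : Fin 3).val : ℤ) + 1 = ((2 : Fin 3).val : ℤ); simp)
          (by show (y.length : ℤ) + 0 = (y.length : ℤ); omega)
      rcases hinv with ⟨_, k2, _⟩ | ⟨_, k2, _, k4, _⟩
      · rw [e, at0] at k2
        exact fin ⟨y, (a, t), 1, v⟩ (Stp0.ver _ _ _ _ _ _ _ (ver_walk a 0 1 (Or.inl rfl)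
          (ff _ k2))) Dir.down e.symm rfl
      · rw [e, at0] at k2
        rw [e, e', at0] at k4
        exact fin ⟨y, (fl (fl a 1) 2, t), 1, v⟩ (Stp0.ver _ _ _ _ _ _ _
          (ver_push a 0 (by decide) k2 (ff _ k4))) Dir.down e.symm rfl
    · have e : (P ⟨y, (a, t), 1, v⟩).robot + Dir.down.vec = cell 2 y.length :=
        Prod.ext (by show ((1 : Fin 3).val : ℤ) + 1 = ((2 : Fin 3).val : ℤ); simp)
          (by show (y.length : ℤ) + 0 = (y.length : ℤ); omega)
      rcases hinv with ⟨_, k2, _⟩ | ⟨_, _, k3, _⟩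
      · rw [e, at0] at k2
        exact fin ⟨y, (a, t), 2, v⟩ (Stp0.ver _ _ _ _ _ _ _ (ver_walk a 1 2 (Or.inl rfl)
          (ff _ k2))) Dir.down e.symm rfl
      · exfalso
        have : ((1 : Fin 3).val : ℤ) + 1 + 1 < ((3 : ℕ) : ℤ) := k3.2.1
        have h1 : ((1 : Fin 3).val : ℤ) = 1 := rfl
        omega
  | right =>
    have h0 : (y.length : ℤ) + 1 < (n : ℤ) := hbd.2.2.2
    have e : (P ⟨y, (a, t), r, v⟩).robot + Dir.right.vec = cell r (y.length + 1) :=
      Prod.ext (by show (r.val : ℤ) + 0 = (r.val : ℤ); omega)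
        (by show (y.length : ℤ) + 1 = ((y.length + 1 : ℕ) : ℤ); omega)
    have e' : cell r (y.length + 1) + Dir.right.vec = cell r (y.length + 2) :=
      Prod.ext (by show (r.val : ℤ) + 0 = (r.val : ℤ); omega)
        (by show ((y.length + 1 : ℕ) : ℤ) + 1 = ((y.length + 2 : ℕ) : ℤ); omega)
    have at1 : ∀ k, cell r (y.length + 1 + k) ∈ (P ⟨y, (a, t), r, v⟩).blocks ↔
        hasB v k r = true := by
      intro k
      show cell r (y.length + 1 + k) ∈ bl (wd ⟨y, (a, t), r, v⟩) ↔ _
      rw [mem_bl, wd_right ⟨y, (a, t), r, v⟩]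
    cases v with
    | nil => exfalso; simp only [List.length_nil] at hn'; omega
    | cons b v =>
      obtain ⟨b, tb⟩ := b
      have k0 := at1 0
      rw [Nat.add_zero] at k0
      have k0' : cell r (y.length + 1) ∈ (P ⟨y, (a, t), r, (b, tb) :: v⟩).blocks ↔
        bit b r = true := k0
      rcases hinv with ⟨_, k2, _⟩ | ⟨_, k2, k3, k4, _⟩
      · rw [e, k0'] at k2
        exact fin ⟨(a, t) :: y, (b, tb), r, v⟩ (Stp0.rw y (a, t) r (b, tb) v (ff _ k2))
          Dir.right e.symm rfl
      · rw [e, k0'] at k2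
        rw [e, e', cell_board] at k3
        cases v with
        | nil =>
          exfalso
          simp only [List.length_nil, List.length_cons] at hn'
          omega
        | cons c v =>
          obtain ⟨c, tc⟩ := c
          have k1 : cell r (y.length + 2) ∈ (P ⟨y, (a, t), r, (b, tb) :: (c, tc) :: v⟩).blocks ↔
            bit c r = true := at1 1
          rw [e, e', k1] at k4
          exact fin _ (Stp0.rp y (a, t) r b c tb tc v k2 (ff _ k4)) Dir.right e.symm rfl
  | left =>
    have h0 : (0 : ℤ) ≤ (y.length : ℤ) + -1 := hbd.2.2.1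
    cases y with
    | nil => exfalso; simp at h0
    | cons b y =>
      obtain ⟨b, tb⟩ := b
      have e : (P ⟨(b, tb) :: y, (a, t), r, v⟩).robot + Dir.left.vec = cell r y.length :=
        Prod.ext (by show (r.val : ℤ) + 0 = (r.val : ℤ); omega)
          (by show ((y.length + 1 : ℕ) : ℤ) + -1 = (y.length : ℤ); omega)
      have e1 : wd ⟨(b, tb) :: y, (a, t), r, v⟩ = wd ⟨y, (b, tb), r, (a, t) :: v⟩ := by
        unfold wd; simp
      have k0 : cell r y.length ∈ (P ⟨(b, tb) :: y, (a, t), r, v⟩).blocks ↔ bit b r = true := by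
        show cell r y.length ∈ bl (wd ⟨(b, tb) :: y, (a, t), r, v⟩) ↔ _
        rw [e1, mem_bl, wd_at ⟨y, (b, tb), r, (a, t) :: v⟩]
      rcases hinv with ⟨_, k2, _⟩ | ⟨_, k2, k3, k4, _⟩
      · rw [e, k0] at k2
        exact fin ⟨y, (b, tb), r, (a, t) :: v⟩ (Stp0.lw y (a, t) r (b, tb) v (ff _ k2))
          Dir.left e.symm rfl
      · rw [e, k0] at k2
        cases y with
        | nil =>
          exfalso
          have h5 : (0 : ℤ) ≤ ((([] : List Lt).length + 1 : ℕ) : ℤ) + -1 + -1 := k3.2.2.1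
          simp at h5
        | cons c y =>
          obtain ⟨c, tc⟩ := c
          have e' : cell r (((c, tc) :: y).length) + Dir.left.vec = cell r y.length :=
            Prod.ext (by show (r.val : ℤ) + 0 = (r.val : ℤ); omega)
              (by show ((y.length + 1 : ℕ) : ℤ) + -1 = (y.length : ℤ); omega)
          have e2 : wd ⟨(b, tb) :: (c, tc) :: y, (a, t), r, v⟩ =
              wd ⟨y, (c, tc), r, (b, tb) :: (a, t) :: v⟩ := by
            unfold wd; simp
          have k1 : cell r y.length ∈ (P ⟨(b, tb) :: (c, tc) :: y, (a, t), r, v⟩).blocks ↔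
              bit c r = true := by
            show cell r y.length ∈ bl (wd ⟨(b, tb) :: (c, tc) :: y, (a, t), r, v⟩) ↔ _
            rw [e2, mem_bl, wd_at ⟨y, (c, tc), r, (b, tb) :: (a, t) :: v⟩]
          rw [e, e', k1] at k4
          exact fin _ (Stp0.lp y (a, t) r b c tb tc v k2 (ff _ k4)) Dir.left e.symm rfl

end MP82a8ee.Three
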