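import Pool.Agent.Lib.MP_82a8ee_lc.Three.TabD
import Pool.Agent.Lib.MP_82a8ee_lc.Three.TabE

set_option autoImplicit false

namespace MP82a8ee.Three

/-- the robot leaves the right part by the excursion `e` into the column with the blocks `c` -/
noncomputable def ex (c J gJ e : ℕ) (K : ℕ → ℕ → ℕ → List ℕ → Bool) : Bool :=
  ifb (Nat.beq (Nat.land (eJ e) c) 0)
    (ifb (Nat.ble (ek e) 2)
      (ifb (tbt (Nat.lor c (eJ e)) (ek e))
        (ifb (tbt J (ek e)) false
          (ifb (tbt gJ (ek e))
            (K (Nat.xor (Nat.lor c (eJ e)) (Nat.shiftLeft 1 (ek e))) (ek e)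
              (Nat.lor J (Nat.shiftLeft 1 (ek e))) (eo e)) false))
        (K (Nat.lor c (eJ e)) (ek e) J (eo e)))
      false)
    false

/-- the end of a program -/
noncomputable def leaf (gk : ℕ) (gO : List ℕ) (t c r : ℕ) (os : List ℕ) : Bool :=
  ifb (Nat.beq gk 3) (Nat.beq t r)
    (ifb (Nat.beq r gk)
      (allL os fun q => memL (dl q (ln 3 t c)) gO) false)

/-- move up (`d` if this is not possible) -/
noncomputable def mu (d : Bool) (c r : ℕ) (K : ℕ → ℕ → Bool) : Bool :=
  Nat.rec (motive := fun _ => Bool) d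
    (fun r1 _ => ifb (tbt c r1)
      (ifb (Nat.beq r1 1) (ifb (tbt c 0) d (K (Nat.xor c 3) 1)) d) (K c r1)) r

/-- move down (`d` if this is not possible) -/
noncomputable def md (d : Bool) (c r : ℕ) (K : ℕ → ℕ → Bool) : Bool :=
  ifb (Nat.beq r 2) d
    (ifb (tbt c (Nat.succ r))
      (ifb (Nat.beq r 0) (ifb (tbt c 2) d (K (Nat.xor c 6) 1)) d) (K c (Nat.succ r)))

/-- the checker of programs -/
noncomputable def chk (gk gJ : ℕ) (gO : List ℕ) (t : ℕ) (f : ℕ) :
    ℕ → ℕ → ℕ → ℕ → List ℕ → Bool :=
  Nat.rec (motive := fun _ => ℕ → ℕ → ℕ → ℕ → List ℕ → Bool) (fun _ _ _ _ _ => false)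
    (fun _ ih n c r J os =>
      ifb (Nat.beq (Nat.land n 63) 0) (leaf gk gO t c r os)
      (ifb (Nat.beq (Nat.land n 63) 1)
        (mu false c r fun c' r' => ih (Nat.shiftRight n 6) c' r' J os)
      (ifb (Nat.beq (Nat.land n 63) 2)
        (md false c r fun c' r' => ih (Nat.shiftRight n 6) c' r' J os)
      (List.rec (motive := fun _ => Bool) true (fun q os' _ =>
        ifb (Nat.beq (Nat.land n 63) 3)
          (ifb (ih (Nat.land (Nat.shiftRight n 18)
              (Nat.sub (Nat.shiftLeft 1 (Nat.mul 6 (Nat.land (Nat.shiftRight n 6) 4095))) 1))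
              c r J [q])
            (ih (Nat.shiftRight n (Nat.add 18 (Nat.mul 6 (Nat.land (Nat.shiftRight n 6) 4095))))
              c r J os') false)
        (List.rec (motive := fun _ => Bool)
          (ifb (Nat.ble 32 (Nat.land n 63))
            (nthK (el q) (Nat.sub (Nat.land n 63) 32) fun e =>
              ifb (Nat.beq (ek e) 3) (ifb (Nat.beq (ei e) r)
                (ifb (Nat.beq (Nat.land (eJ e) c) 0) (Nat.beq gk 3) false) false) false)
            (nthK (el q) (Nat.sub (Nat.land n 63) 4) fun e =>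
              ifb (Nat.beq (ei e) r)
                (ex c J gJ e fun c' r' J' os'' => ih (Nat.shiftRight n 6) c' r' J' os'') false))
          (fun _ _ _ => false) os')) os)))) f

/-- the check for one excursion `g` of the state reached from `s` by the letter number `l` -/
noncomputable def run (s l g n : ℕ) : Bool :=
  ifb (Nat.beq (ek g) 4)
    (ifb (tbt l (ei g)) false (memL (dl s (Nat.lor l (Nat.shiftLeft 1 (ei g)))) (eo g)))
  (ifb (Nat.ble 96 l)
    (ifb (Nat.ble s 241)
      (ifb (tbt l (ei g))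
        (nthK (el s) (Nat.sub (Nat.land n 63) 4) fun e =>
          ifb (Nat.beq (ek e) 4) (ifb (Nat.beq (ei e) (ei g))
            (chk (ek g) (eJ g) (eo g) (Nat.land (Nat.shiftRight l 3) 3) 24 (Nat.shiftRight n 6)
              (Nat.xor (Nat.land l 7) (Nat.shiftLeft 1 (ei g))) (ei g) 0 (eo e)) false) false)
        (chk (ek g) (eJ g) (eo g) (Nat.land (Nat.shiftRight l 3) 3) 24 n (Nat.land l 7) (ei g) 0
          [s]))
      (ifb (Nat.ble 32 (Nat.land n 63))
        (nthK (el s) (Nat.sub (Nat.land n 63) 32) fun e =>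
          ifb (Nat.beq (ek e) 3) (ifb (Nat.beq (Nat.land (eJ e) (Nat.land l 7)) 0)
            (Nat.beq (ek g) 3) false) false)
        (nthK (el s) (Nat.sub (Nat.land n 63) 4) fun e =>
          ex (Nat.land l 7) 0 (eJ g) e fun c' r' J' os' =>
            chk (ek g) (eJ g) (eo g) (Nat.land (Nat.shiftRight l 3) 3) 24 (Nat.shiftRight n 6)
              c' r' J' os')))
    (chk (ek g) (eJ g) (eo g) (Nat.land (Nat.shiftRight l 3) 3) 24 n (Nat.land l 7)
      (Nat.shiftRight l 5) 0 [s]))

/-- the check for a list of excursions; the programs are read one after the other -/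
noncomputable def runs (s l : ℕ) (gs : List ℕ) : ℕ → Bool :=
  List.rec (motive := fun _ => ℕ → Bool) (fun _ => true)
    (fun g _ ih n =>
      ifb (run s l g (Nat.land (Nat.shiftRight n 12)
          (Nat.sub (Nat.shiftLeft 1 (Nat.mul 6 (Nat.land n 4095))) 1)))
        (ih (Nat.shiftRight n (Nat.add 12 (Nat.mul 6 (Nat.land n 4095))))) false) gs

end MP82a8ee.Three
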