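import Pool.Agent.Lib.MP_82a8ee_lc.Three.TabD
import Pool.Agent.Lib.MP_82a8ee_lc.Three.TabC
import Pool.Agent.Lib.MP_82a8ee_lc.Three.Chk

set_option autoImplicit false

namespace MP82a8ee.Three

/-! Kernel checks for the order of the states. -/

/-- all states `q` of words without the robot, target rows `t`, blocks `c`, rows `r` without a
block -/
noncomputable def qtcr (p : ℕ → ℕ → ℕ → ℕ → Bool) : Bool :=
  allLt 242 fun q => allLt 4 fun t => allLt 8 fun c => allLt 3 fun r =>
    ifb (tbt c r) true (p q t c r)

/-- all pairs of a relation, target rows `t`, blocks `c` -/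
noncomputable def pairs (R : ℕ → ℕ → ℕ) (p : ℕ → ℕ → ℕ → ℕ → ℕ → Bool) : Bool :=
  allLt 3 fun r => allLt 428 fun x => ifb (Nat.beq (R r x) 0) true
    (allLt 428 fun y => ifb (tbt (R r x) y)
      (allLt 4 fun t => allLt 8 fun c => ifb (tbt c r) true (p r x y t c)) true)

theorem ckI : qtcr (fun q t c r => tbt (relI r (dl q (ln 3 t c)))
    (dl q (ln 3 t (Nat.lor c (Nat.shiftLeft 1 r))))) = true := by
  decide +kernel

theorem ckA : qtcr (fun q t c r => tbt (relA r (dl q (ln r t c))) (dl q (ln 3 t c))) = true := by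
  decide +kernel

theorem ckI2 : pairs relI (fun r x y t c =>
    tbt (relK r (dl x (ln 3 t (Nat.lor c (Nat.shiftLeft 1 r))))) (dl y (ln r t c))) = true := by
  decide +kernel

theorem ckA2 : pairs relA (fun r x y t c =>
    ifb (Nat.beq (dl y (ln r t c)) (dl x (ln 3 t c)))
      (tbt (relB r (dl x (ln 3 t (Nat.lor c (Nat.shiftLeft 1 r))))) (dl y (ln r t c))) false) =
    true := by
  decide +kernel

theorem ckK : pairs relK (fun r x y t c => le (dl y (ln 3 t c)) (dl x (ln r t c))) = true := by
  decide +kernel

theorem ckB : pairs relB (fun r x y t c =>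
    le (dl y (ln 3 t (Nat.lor c (Nat.shiftLeft 1 r)))) (dl x (ln 3 t c))) = true := by
  decide +kernel

theorem ckL : (allLt 428 fun x => ifb (Nat.beq (get leT x) 0) true
    (allLt 428 fun y => ifb (tbt (get leT x) y)
      (allLt 32 fun l => le (dl x (Nat.add 96 l)) (dl y (Nat.add 96 l))) true)) = true := by
  decide +kernel

theorem ckV : qtcr (fun q t c r =>
    ifb (mu true c r fun c' r' => le (dl q (ln r' t c')) (dl q (ln r t c)))
      (md true c r fun c' r' => le (dl q (ln r' t c')) (dl q (ln r t c))) false) = true := by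
  decide +kernel

theorem ck_top : Nat.beq (get leT 375) 0 = true := by decide +kernel

theorem ck_base : (allLt 88 fun q => allLt 8 fun c => allLt 3 fun r =>
    ifb (tbt c r) true (Nat.beq (dl q (ln r r c)) 375)) = true := by decide +kernel

theorem ck_none : (allLt 88 fun q => allLt 8 fun c => Nat.ble (dl q (ln 3 3 c)) 87) = true := by
  decide +kernel

theorem ck_stay375 : (allLt 8 fun c => Nat.beq (dl 375 (ln 3 3 c)) 375) = true := by
  decide +kernel

end MP82a8ee.Three
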