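import Pool.Agent.Lib.MP_82a8ee_lc.Three.TabD

set_option autoImplicit false

namespace MP82a8ee.Three

/-! Kernel checks of the transition table. -/

theorem ck_lt : (allLt 428 fun q => allLt 128 fun l => Nat.ble (dl q l) 427) = true := by
  decide +kernel

theorem ck_free : (allLt 243 fun q => allLt 32 fun l => Nat.ble (dl q (Nat.add 96 l)) 242) =
    true := by decide +kernel

theorem ck_in : (allLt 243 fun q => allLt 96 fun l => Nat.ble 242 (dl q l)) = true := by
  decide +kernel

theorem ck_stay : (allLt 428 fun q => ifb (Nat.ble q 241) true
    (allLt 32 fun l => Nat.ble 242 (dl q (Nat.add 96 l)))) = true := by decide +kernel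

theorem ck_dead : (allLt 128 fun l => Nat.beq (dl 242 l) 242) = true := by decide +kernel

theorem ck_block : (allLt 243 fun q => allLt 4 fun t => allLt 8 fun c => allLt 3 fun r =>
    ifb (tbt c r) (Nat.beq (dl q (ln r t c)) 242) true) = true := by decide +kernel

end MP82a8ee.Three
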