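import Pool.Agent.Lib.MP_82a8ee_lc.Three.Base

set_option autoImplicit false

namespace MP82a8ee.Three

open Tr

/-! The programs (computer generated): for each state and each letter one number, read six bits at a
time. -/

def p0 : Tr :=
  (nd (nd (nd (nd (nd (nd (nd (lf 1) (lf 266243)) (nd (lf 4098) (lf 1170949098330128385))) (nd (nd (lf 532483) (lf 1)) (nd (lf 8194) (lf 18023196750520323)))) (nd (nd (nd (lf 8194) (lf 4098)) (nd (lf 1) (lf 18023194619289602))) (nd (nd (lf 3853582444423543304116627799571546792413165905487629174696254276551594145747304449) (lf 121417268934231870003659422702124159071501615523467168048241228660115322632935837699)) (nd (lf 926562925550275236053620033386366039898925737911127577012288441190768204320770) (lf 22311635584284490675109083734415073949523970))))) (nd (nd (nd (nd (lf 1) (lf 0)) (nd (lf 4098) (lf 1074266113))) (lf 0)) (nd (nd (nd (lf 8194) (lf 0)) (nd (lf 1) (lf 16785410))) (nd (nd (lf 2148007937) (lf 0))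 (nd (lf 16781314) (lf 68753039362)))))) (nd (nd (nd (nd (nd (lf 1) (lf 1)) (nd (lf 0) (lf 1))) (nd (nd (lf 1) (lf 1)) (nd (lf 0) (lf 1)))) (nd (nd (nd (lf 8194) (lf 4098)) (nd (lf 0) (lf 68753039362))) (nd (nd (lf 2306406030034862081) (lf 18023263372316674)) (nd (lf 0) (lf 159695171836001780323966001155))))) (nd (nd (nd (nd (lf 1) (lf 0)) (nd (lf 0) (lf 1))) (lf 0)) (nd (lf 0) (nd (nd (lf 1) (lf 0)) (lf 0)))))) (nd (nd (nd (nd (lf 0) (nd (nd (lf 0) (lf 1)) (nd (lf 8194) (lf 16785410)))) (nd (nd (nd (lf 0) (lf 4098)) (nd (lf 1) (lf 1074266113))) (nd (nd (lf 0) (lf 16781314)) (nd (lf 2148007937) (lf 68753039362))))) (nd (lf 0) (nd (nd (lf 0) (nd (lf 1) (lf 1))) (nd (lf 0) (nd (lf 1) (lf 0)))))) (nd (nd (nd (lf 0) (nd (nd (lf 0) (lf 1)) (nd (lf 0) (lf 1)))) (nd (lf 0) (nd (nd (lf 0) (lf 1)) (lf 0)))) (lf 0))))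

def p1 : Tr :=
  (nd (nd (nd (nd (nd (nd (nd (lf 1) (lf 266243)) (nd (lf 4098) (lf 1170949098330128385))) (nd (nd (lf 532483) (lf 1)) (nd (lf 8194) (lf 18023196750520323)))) (nd (nd (nd (lf 8194) (lf 4098)) (nd (lf 1) (lf 18023194619289602))) (nd (nd (lf 3853582444423543304116627799571546792413165905487629174696254276551594145747304449) (lf 121417268934231870003659422702124159071501615523467168048241228660115322632935837699)) (nd (lf 926562925550275236053620033386366039898925737911127577012288441190768204320770) (lf 22311635584284490675109083734415073949523970))))) (nd (nd (nd (nd (lf 1) (lf 0)) (nd (lf 4098) (lf 75156088174819147777))) (nd (nd (lf 20482) (lf 0)) (nd (lf 28674) (lf 885479766394079825922)))) (nd (nd (nd (lf 8194) (lf 0)) (nd (lf 1) (lf 1369107480876949506))) (nd (nd (lf 90080790788440065) (lf 0)) (nd (lf 126109585676177410) (lf 101022301316012816822404828996126646274)))))) (nd (nd (nd (nd (nd (lf 1) (lf 32770)) (nd (lf 0) (lf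 9223935067339620353))) (nd (nd (lf 20482) (lf 1)) (nd (lf 0) (lf 18023950567100418)))) (nd (nd (nd (lf 8194) (lf 4098)) (nd (lf 0) (lf 1153485210508075010))) (nd (nd (lf 305605259991891516727251622167877673435111725217626871973623370232002948340798186915485346388185106931125592067) (lf 1251759142112688231295060317223757343811839830240590532946835989693398637066689507030702943258730013707339028791300)) (nd (lf 0) (lf 15383379154218930817656284297608827390896508560637007182433519568094314843769162943285506495752708099))))) (nd (nd (nd (nd (lf 1) (lf 0)) (nd (lf 0) (lf 80531423233))) (nd (nd (lf 20482) (lf 0)) (nd (lf 0) (lf 824667295746)))) (nd (nd (nd (lf 4741694242818) (lf 0)) (nd (lf 0) (lf 5222730608642))) (nd (nd (lf 1742415901706916788191825909141086128046081) (lf 0)) (nd (lf 0) (lf 4489915762600479200120955357658583195505548081778692))))))) (nd (nd (nd (nd (nd (nd (lf 0) (lf 32770)) (nd (lf 2105347) (lf 549789409282))) (nd (nd (lf 0) (lf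 1)) (nd (lf 8194) (lf 1153484592033341444)))) (nd (nd (nd (lf 0) (lf 4098)) (nd (lf 1) (lf 1153484455634575363))) (nd (nd (lf 0) (lf 4723519967873994883074)) (nd (lf 604610484041791590916098) (lf 85112170672398586479303899908873428995))))) (nd (nd (nd (lf 0) (nd (lf 24578) (lf 1412597630935042))) (nd (lf 0) (nd (lf 28674) (lf 3377837227155460)))) (nd (nd (lf 0) (nd (lf 1) (lf 87622878776124809219))) (nd (lf 0) (nd (lf 135409137808839695187075074) (lf 4489915744067590366848108857274973896082403056721922)))))) (nd (nd (nd (nd (nd (lf 0) (lf 32770)) (nd (lf 0) (lf 549789409282))) (nd (nd (lf 0) (lf 1)) (nd (lf 0) (lf 1074311171)))) (nd (nd (nd (lf 0) (lf 39584566640643)) (nd (lf 0) (lf 48380659671043))) (nd (nd (lf 0) (lf 5444538685560347685264639742047561482244)) (nd (lf 0) (lf 386567272320563418114056345750091146246230836289540))))) (nd (nd (nd (lf 0) (nd (lf 0) (lf 40962))) (nd (lf 0) (nd (lf 0) (lf 49154)))) (nd (nd (lf 0) (nd (lf 0) (lf 45058)))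 (lf 0))))))

def p2 : Tr :=
  (nd (nd (nd (nd (nd (nd (nd (lf 1) (lf 266243)) (nd (lf 4098) (lf 1170949098330128385))) (nd (nd (lf 532483) (lf 1)) (nd (lf 8194) (lf 18023196750520323)))) (nd (nd (nd (lf 8194) (lf 4098)) (nd (lf 1) (lf 18023194619289602))) (nd (nd (lf 3853582444423543304116627799571546792413165905487629174696254276551594145747304449) (lf 121417268934231870003659422702124159071501615523467168048241228660115322632935837699)) (nd (lf 926562925550275236053620033386366039898925737911127577012288441190768204320770) (lf 22311635584284490675109083734415073949523970))))) (nd (nd (nd (nd (lf 1) (lf 0)) (nd (lf 4098) (lf 75066016182271737857))) (nd (nd (lf 1056771) (lf 0)) (nd (lf 16386) (lf 516544880455220994051)))) (nd (nd (nd (lf 8194) (lf 0)) (nd (lf 1) (lf 1279035488329539586))) (nd (nd (lf 4647728011733893121) (lf 0)) (nd (lf 72066390147731458) (lf 6040074325567457497108263890825194250242)))))) (nd (nd (nd (nd (nd (lf 1) (lf 74088972289))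 (nd (lf 0) (lf 75162714113))) (nd (nd (lf 277026177025) (lf 1)) (nd (lf 0) (lf 1153510846061617155)))) (nd (nd (nd (lf 8194) (lf 4098)) (nd (lf 0) (lf 1153484866910691330))) (nd (nd (lf 4990459952775043802363863043) (lf 19352331687823696646656003)) (nd (lf 0) (lf 197693047296345592555179588131477507464148904491056635907))))) (nd (nd (nd (nd (lf 1) (lf 0)) (nd (lf 0) (lf 75162714113))) (nd (nd (lf 1) (lf 0)) (nd (lf 0) (lf 28674)))) (nd (nd (nd (lf 1) (lf 0)) (nd (lf 0) (lf 4879133204482))) (nd (nd (lf 1) (lf 0)) (nd (lf 0) (lf 2271788370954934476107440583892995))))))) (nd (nd (nd (nd (lf 0) (nd (nd (lf 0) (lf 1)) (nd (lf 8194) (lf 16785410)))) (nd (nd (nd (lf 0) (lf 4098)) (nd (lf 1) (lf 1074266113))) (nd (nd (lf 0) (lf 16781314)) (nd (lf 2148007937) (lf 68753039362))))) (nd (nd (lf 0) (nd (lf 0) (nd (lf 16386) (lf 28674)))) (nd (nd (lf 0) (nd (lf 1) (lf 76236455937))) (nd (lf 0) (nd (lf 4612249041396039681) (lf 30788473352195)))))) (nd (nd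 (nd (lf 0) (nd (nd (lf 0) (lf 1)) (nd (lf 0) (lf 1074290691)))) (nd (nd (nd (lf 0) (lf 5369233409)) (nd (lf 0) (lf 24578))) (nd (nd (lf 0) (lf 16797698)) (nd (lf 0) (lf 548867))))) (nd (nd (lf 0) (nd (lf 0) (nd (lf 0) (lf 28674)))) (nd (nd (lf 0) (nd (lf 0) (lf 24578))) (lf 0))))))

def p3 : Tr :=
  (nd (nd (nd (nd (nd (nd (nd (lf 1) (lf 266243)) (nd (lf 4098) (lf 1170949098330128385))) (nd (nd (lf 532483) (lf 1)) (nd (lf 8194) (lf 18023196750520323)))) (nd (nd (nd (lf 8194) (lf 4098)) (nd (lf 1) (lf 18023194619289602))) (nd (nd (lf 3853582444423543304116627799571546792413165905487629174696254276551594145747304449) (lf 121417268934231870003659422702124159071501615523467168048241228660115322632935837699)) (nd (lf 926562925550275236053620033386366039898925737911127577012288441190768204320770) (lf 22311635584284490675109083734415073949523970))))) (nd (nd (nd (nd (lf 1) (lf 0)) (nd (lf 4098) (lf 75102044979290701825))) (nd (nd (lf 2148007937) (lf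 0)) (nd (lf 16781314) (lf 618508853250)))) (nd (nd (nd (lf 8194) (lf 0)) (nd (lf 1) (lf 1315064285348503554))) (nd (nd (lf 5369233409) (lf 0)) (nd (lf 16781314) (lf 5783713896787169025203699195906)))))) (nd (nd (nd (nd (nd (lf 1) (lf 1261021089820053506)) (nd (lf 0) (lf 75162714113))) (nd (nd (lf 2395928198048645121) (lf 1)) (nd (lf 0) (lf 1074286595)))) (nd (nd (nd (lf 8194) (lf 4098)) (nd (lf 0) (lf 68753039362))) (nd (nd (lf 176788297153549802122498456939724546051) (lf 554635832744652020918249611267)) (nd (lf 0) (lf 51824046334124675860139007427268930647408509592508966998646787))))) (nd (nd (nd (nd (lf 1) (lf 0)) (nd (lf 0) (lf 18053983075864579))) (nd (nd (lf 1) (lf 0)) (nd (lf 0) (lf 36866)))) (nd (nd (nd (lf 343630954498) (lf 0)) (nd (lf 0) (lf 5016572153858))) (nd (nd (lf 5369233409) (lf 0)) (nd (lf 0) (lf 2720230704435364029042691))))))) (nd (nd (nd (nd (nd (nd (lf 0) (lf 16781314)) (nd (lf 2148007937) (lf 549789372418))) (nd (nd (lf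 0) (lf 1)) (nd (lf 8194) (lf 1153484592033333252)))) (nd (nd (nd (lf 0) (lf 4098)) (nd (lf 1) (lf 1153484455634567171))) (nd (nd (lf 0) (lf 16781314)) (nd (lf 2148007937) (lf 5073078885602008753376514834435))))) (nd (nd (nd (lf 0) (nd (lf 1) (lf 35186519871491))) (nd (lf 0) (nd (lf 1) (lf 39584566640643)))) (nd (nd (lf 0) (nd (lf 1) (lf 84164114262304260099))) (nd (lf 0) (nd (lf 1) (lf 713092153641110028540102868994)))))) (nd (nd (nd (nd (nd (lf 0) (lf 1)) (nd (lf 0) (lf 32770))) (nd (nd (lf 0) (lf 1)) (nd (lf 0) (lf 18023744408682498)))) (nd (nd (nd (lf 0) (lf 412350443522)) (nd (lf 0) (lf 26390427107331))) (nd (nd (lf 0) (lf 16801794)) (nd (lf 0) (lf 642245300725606462291970))))) (nd (nd (nd (lf 0) (nd (lf 0) (lf 32770))) (nd (lf 0) (nd (lf 0) (lf 36866)))) (nd (nd (lf 0) (nd (lf 0) (lf 618508877826))) (lf 0))))))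

def p4 : Tr :=
  (nd (nd (nd (nd (nd (nd (nd (lf 1) (lf 266243)) (nd (lf 4098) (lf 1170949098330128385))) (nd (nd (lf 532483) (lf 1)) (nd (lf 8194) (lf 18023196750520323)))) (nd (nd (nd (lf 8194) (lf 4098)) (nd (lf 1) (lf 18023194619289602))) (nd (nd (lf 3853582444423543304116627799571546792413165905487629174696254276551594145747304449) (lf 121417268934231870003659422702124159071501615523467168048241228660115322632935837699)) (nd (lf 926562925550275236053620033386366039898925737911127577012288441190768204320770) (lf 22311635584284490675109083734415073949523970))))) (nd (nd (nd (nd (lf 1) (lf 0)) (nd (lf 4098) (lf 75011972986743291905))) (nd (nd (lf 2148007937) (lf 0)) (nd (lf 16781314) (lf 274911469570)))) (nd (nd (nd (lf 8194) (lf 0)) (nd (lf 1) (lf 1224992292801093634))) (nd (nd (lf 2148007937) (lf 0)) (nd (lf 16781314) (lf 5387573084210082729712945209346)))))) (nd (nd (nd (nd (nd (lf 1) (lf 1)) (nd (lf 0) (lf 1))) (nd (nd (lf 2148007937)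 (lf 1)) (nd (lf 0) (lf 16785410)))) (nd (nd (nd (lf 8194) (lf 4098)) (nd (lf 0) (lf 68753039362))) (nd (nd (lf 2306406030034862081) (lf 18023263372316674)) (nd (lf 0) (lf 159695171836001780323966001155))))) (nd (nd (nd (nd (lf 1) (lf 0)) (nd (lf 0) (lf 1))) (nd (nd (lf 1) (lf 0)) (nd (lf 0) (lf 16386)))) (nd (nd (nd (lf 1) (lf 0)) (nd (lf 0) (lf 278531))) (nd (nd (lf 1) (lf 0)) (nd (lf 0) (lf 1209073429895087328083971))))))) (nd (nd (nd (nd (lf 0) (nd (nd (lf 0) (lf 1)) (nd (lf 8194) (lf 16785410)))) (nd (nd (nd (lf 0) (lf 4098)) (nd (lf 1) (lf 1074266113))) (nd (nd (lf 0) (lf 16781314)) (nd (lf 2148007937) (lf 68753039362))))) (nd (nd (lf 0) (nd (lf 0) (nd (lf 1) (lf 16386)))) (nd (nd (lf 0) (nd (lf 1) (lf 73015230465))) (nd (lf 0) (nd (lf 1) (lf 17594333806595)))))) (nd (nd (nd (lf 0) (nd (nd (lf 0) (lf 1)) (nd (lf 0) (lf 1)))) (nd (lf 0) (nd (nd (lf 0) (lf 1)) (lf 0)))) (nd (nd (lf 0) (nd (lf 0) (nd (lf 0) (lf 16386)))) (lf 0)))))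

def p5 : Tr :=
  (nd (nd (nd (nd (nd (nd (nd (lf 1) (lf 266243)) (nd (lf 4098) (lf 1170949098330128385))) (nd (nd (lf 532483) (lf 1)) (nd (lf 8194) (lf 18023196750520323)))) (nd (nd (nd (lf 8194) (lf 4098)) (nd (lf 1) (lf 18023194619289602))) (nd (nd (lf 3853582444423543304116627799571546792413165905487629174696254276551594145747304449) (lf 121417268934231870003659422702124159071501615523467168048241228660115322632935837699)) (nd (lf 926562925550275236053620033386366039898925737911127577012288441190768204320770) (lf 22311635584284490675109083734415073949523970))))) (nd (nd (nd (nd (lf 1) (lf 0)) (nd (lf 4098) (lf 1074266113))) (lf 0)) (nd (nd (nd (lf 8194) (lf 0)) (nd (lf 1) (lf 16785410))) (nd (nd (lf 2148007937) (lf 0)) (nd (lf 16781314) (lf 68753039362)))))) (nd (nd (nd (nd (nd (lf 1) (lf 344671911937)) (nd (lf 0) (lf 76236455937))) (nd (nd (lf 141734707201) (lf 1)) (nd (lf 0) (lf 1074294787)))) (nd (nd (nd (lf 8194) (lf 4098)) (nd (lf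 0) (lf 1153484935630168066))) (nd (nd (lf 2741547955590076346496994625922015235) (lf 19352331687823696647688195)) (nd (lf 0) (lf 184115997791612146580441517136607245069996793859))))) (nd (nd (nd (nd (lf 1) (lf 0)) (nd (lf 0) (lf 76236455937))) (lf 0)) (nd (nd (nd (lf 4295491585) (lf 0)) (nd (lf 0) (lf 28674))) (nd (nd (lf 4295491585) (lf 0)) (nd (lf 0) (lf 290819))))))) (nd (nd (nd (nd (nd (nd (lf 0) (lf 1314819)) (nd (lf 20482) (lf 22059002388482))) (nd (nd (lf 0) (lf 1)) (nd (lf 8194) (lf 1153484592033325060)))) (nd (nd (nd (lf 0) (lf 4098)) (nd (lf 1) (lf 1153484455634558979))) (nd (nd (lf 0) (lf 19347537787571721806811139)) (nd (lf 604610484041722871435266) (lf 5447177954393670364934729373664275881987))))) (nd (nd (nd (lf 0) (nd (lf 20482) (lf 24578))) (lf 0)) (nd (nd (lf 0) (nd (lf 1) (lf 1074290691))) (nd (lf 0) (nd (lf 16797698) (lf 9208460238850)))))) (nd (nd (nd (nd (nd (lf 0) (lf 1)) (nd (lf 0) (lf 24578))) (nd (nd (lf 0) (lf 1))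 (nd (lf 0) (lf 1074294787)))) (nd (nd (nd (lf 0) (lf 1)) (nd (lf 0) (lf 30788473610243))) (nd (nd (lf 0) (lf 1)) (nd (lf 0) (lf 684535038576162302107078023995396))))) (nd (nd (nd (lf 0) (nd (lf 0) (lf 24578))) (lf 0)) (nd (nd (lf 0) (nd (lf 0) (lf 28674))) (lf 0))))))

def p6 : Tr :=
  (nd (nd (nd (nd (nd (nd (nd (lf 1) (lf 266243)) (nd (lf 4098) (lf 1170949098330128385))) (nd (nd (lf 532483) (lf 1)) (nd (lf 8194) (lf 18023196750520323)))) (nd (nd (nd (lf 8194) (lf 4098)) (nd (lf 1) (lf 18023194619289602))) (nd (nd (lf 3853582444423543304116627799571546792413165905487629174696254276551594145747304449) (lf 121417268934231870003659422702124159071501615523467168048241228660115322632935837699)) (nd (lf 926562925550275236053620033386366039898925737911127577012288441190768204320770) (lf 22311635584284490675109083734415073949523970))))) (nd (nd (nd (nd (lf 1) (lf 0)) (nd (lf 4098) (lf 1074266113))) (lf 0)) (nd (nd (nd (lf 8194) (lf 0)) (nd (lf 1)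 (lf 16785410))) (nd (nd (lf 2148007937) (lf 0)) (nd (lf 16781314) (lf 68753039362)))))) (nd (nd (nd (nd (nd (lf 1) (lf 1)) (nd (lf 0) (lf 73015230465))) (nd (nd (lf 1) (lf 1)) (nd (lf 0) (lf 1074282499)))) (nd (nd (nd (lf 8194) (lf 4098)) (nd (lf 0) (lf 1153484729471737858))) (nd (nd (lf 2306405960241127427) (lf 18023263372316674)) (nd (lf 0) (lf 184115997791612146342757029372453303404850323459))))) (nd (nd (nd (nd (lf 1) (lf 0)) (nd (lf 0) (lf 73015230465))) (lf 0)) (nd (nd (nd (lf 1) (lf 0)) (nd (lf 0) (lf 16386))) (nd (nd (lf 1) (lf 0)) (nd (lf 0) (lf 278531))))))) (nd (nd (nd (nd (lf 0) (nd (nd (lf 0) (lf 1)) (nd (lf 8194) (lf 16785410)))) (nd (nd (nd (lf 0) (lf 4098)) (nd (lf 1) (lf 1074266113))) (nd (nd (lf 0) (lf 16781314)) (nd (lf 2148007937) (lf 68753039362))))) (nd (lf 0) (nd (nd (lf 0) (nd (lf 1) (lf 1))) (nd (lf 0) (nd (lf 1) (lf 0)))))) (nd (nd (nd (lf 0) (nd (nd (lf 0) (lf 1)) (nd (lf 0) (lf 1074282499)))) (nd (nd (nd (lf 0) (lf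 1)) (nd (lf 0) (lf 16386))) (nd (nd (lf 0) (lf 1)) (nd (lf 0) (lf 540675))))) (nd (lf 0) (nd (nd (lf 0) (nd (lf 0) (lf 16386))) (lf 0))))))

def p7 : Tr :=
  (nd (nd (nd (nd (nd (nd (nd (lf 1) (lf 266243)) (nd (lf 4098) (lf 1170949098330128385))) (nd (nd (lf 532483) (lf 1)) (nd (lf 8194) (lf 18023196750520323)))) (nd (nd (nd (lf 8194) (lf 4098)) (nd (lf 1) (lf 18023194619289602))) (nd (nd (lf 3853582444423543304116627799571546792413165905487629174696254276551594145747304449) (lf 121417268934231870003659422702124159071501615523467168048241228660115322632935837699)) (nd (lf 926562925550275236053620033386366039898925737911127577012288441190768204320770) (lf 22311635584284490675109083734415073949523970))))) (nd (nd (nd (nd (lf 1) (lf 0)) (nd (lf 4098) (lf 1074266113))) (lf 0)) (nd (nd (nd (lf 8194) (lf 0)) (nd (lf 1) (lf 16785410))) (nd (nd (lf 2148007937) (lf 0)) (nd (lf 16781314) (lf 68753039362)))))) (nd (nd (nd (nd (nd (lf 1) (lf 16781314))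 (nd (lf 0) (lf 16781314))) (nd (nd (lf 1) (lf 1)) (nd (lf 0) (lf 1)))) (nd (nd (nd (lf 8194) (lf 4098)) (nd (lf 0) (lf 68753039362))) (nd (nd (lf 2306406030034862081) (lf 18023263372316674)) (nd (lf 0) (lf 159695171836001780323966001155))))) (nd (nd (nd (nd (lf 1) (lf 0)) (nd (lf 0) (lf 1))) (lf 0)) (nd (lf 0) (nd (nd (lf 1) (lf 0)) (lf 0)))))) (nd (nd (nd (nd (nd (nd (lf 0) (lf 16781314)) (nd (lf 2148007937) (lf 274911465474))) (nd (nd (lf 0) (lf 1)) (nd (lf 8194) (lf 1153484592033316868)))) (nd (nd (nd (lf 0) (lf 4098)) (nd (lf 1) (lf 1153484455634550787))) (nd (nd (lf 0) (lf 16781314)) (nd (lf 2148007937) (lf 5073078885602008735784328773635))))) (nd (nd (nd (lf 0) (nd (lf 1) (lf 16386))) (lf 0)) (nd (nd (lf 0) (nd (lf 1) (lf 1074282499))) (nd (lf 0) (nd (lf 1) (lf 9071021277186)))))) (nd (nd (nd (nd (nd (lf 0) (lf 1)) (nd (lf 0) (lf 16386))) (nd (nd (lf 0) (lf 1)) (nd (lf 0) (lf 1)))) (nd (nd (nd (lf 0) (lf 1)) (nd (lf 0) (lf 540675))) (nd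 (nd (lf 0) (lf 1)) (nd (lf 0) (lf 623355834793853003513858))))) (nd (nd (nd (lf 0) (nd (lf 0) (lf 16386))) (lf 0)) (lf 0)))))

def p8 : Tr :=
  (nd (nd (nd (nd (nd (nd (nd (lf 1) (lf 266243)) (nd (lf 4098) (lf 1170949098330128385))) (nd (nd (lf 532483) (lf 1)) (nd (lf 8194) (lf 18023196750520323)))) (nd (nd (nd (lf 8194) (lf 4098)) (nd (lf 1) (lf 18023194619289602))) (nd (nd (lf 3853582444423543304116627799571546792413165905487629174696254276551594145747304449) (lf 121417268934231870003659422702124159071501615523467168048241228660115322632935837699)) (nd (lf 926562925550275236053620033386366039898925737911127577012288441190768204320770) (lf 22311635584284490675109083734415073949523970))))) (nd (nd (nd (nd (lf 1) (lf 0)) (nd (lf 4098) (lf 75156088174819147777))) (nd (nd (lf 20482) (lf 0)) (nd (lf 28674) (lf 885479766394079825922)))) (nd (nd (nd (lf 8194) (lf 0)) (nd (lf 1) (lf 1369107480876949506))) (nd (nd (lf 90080790788440065) (lf 0)) (nd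 (lf 126109585676177410) (lf 101022301316012816822404828996126646274)))))) (nd (nd (nd (nd (nd (lf 1) (lf 32770)) (nd (lf 0) (lf 9223935067339620353))) (nd (nd (lf 20482) (lf 1)) (nd (lf 0) (lf 18023950567100418)))) (nd (nd (nd (lf 8194) (lf 4098)) (nd (lf 0) (lf 1153485210508075010))) (nd (nd (lf 305605259991891516727251622167877673435111725217626871973623370232002948340798186915485346388185106931125592067) (lf 1251759142112688231295060317223757343811839830240590532946835989693398637066689507030702943258730013707339028791300)) (nd (lf 0) (lf 916920849932368446448822912970058245464084731710877170044424326017659887968769477523561259011))))) (nd (nd (nd (nd (lf 1) (lf 0)) (nd (lf 0) (lf 475504384457314068588263112705))) (nd (nd (lf 20482) (lf 0)) (nd (lf 0) (lf 824667295746)))) (nd (nd (nd (lf 4741694242818) (lf 0)) (nd (lf 0) (lf 5222730608642))) (nd (nd (lf 1742415901706916788191825909141086128046081) (lf 0)) (nd (lf 0) (lf 33496636608850821359700980028501464123218067450152361883137044336335109654887437801211904454111437705424752444962853309995904457421769484778862134683631397486954030113090165998479882421951013513613314)))))))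 (nd (nd (nd (nd (nd (nd (lf 0) (lf 32770)) (nd (lf 2105347) (lf 549789409282))) (nd (nd (lf 0) (lf 1)) (nd (lf 8194) (lf 1153484592033341444)))) (nd (nd (nd (lf 0) (lf 4098)) (nd (lf 1) (lf 1153484455634575363))) (nd (nd (lf 0) (lf 4723519967873994883074)) (nd (lf 604610484041791590916098) (lf 85112170672398586479303899908873428995))))) (nd (nd (nd (lf 0) (nd (lf 24578) (lf 28342269924718980145154))) (nd (lf 0) (nd (lf 28674) (lf 56670705045163471577096)))) (nd (nd (lf 0) (nd (lf 1) (lf 87622878776124809219))) (nd (lf 0) (nd (lf 135409137808839695187075074) (lf 5176520415208377154775417309976146047284063266228361134871951620218882)))))) (nd (nd (nd (nd (nd (lf 0) (lf 32770)) (nd (lf 0) (lf 549789409282))) (nd (nd (lf 0) (lf 1)) (nd (lf 0) (lf 1238596451686671387919687688)))) (nd (nd (nd (lf 0) (lf 39584566640643)) (nd (lf 0) (lf 48380659671043))) (nd (nd (lf 0) (lf 5444538685560347685264639742047561482244)) (nd (lf 0) (lf 1386419484657826651618376476452737151822879731509876050748404039829157880598800980324659626181561889143730229957957721228994977812)))))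 (nd (nd (nd (lf 0) (nd (lf 0) (lf 28342269924718980145154))) (nd (lf 0) (nd (lf 0) (lf 56670705045163471577096)))) (nd (nd (lf 0) (nd (lf 0) (lf 45058))) (nd (lf 0) (nd (lf 0) (lf 410126210521230237472443397212398073869991140137348119617943272078060580719958518265416387892649986))))))))

def p9 : Tr :=
  (nd (nd (nd (nd (nd (nd (nd (lf 1) (lf 266243)) (nd (lf 4098) (lf 1170949098330128385))) (nd (nd (lf 532483) (lf 1)) (nd (lf 8194) (lf 18023196750520323)))) (nd (nd (nd (lf 8194) (lf 4098)) (nd (lf 1) (lf 18023194619289602))) (nd (nd (lf 3853582444423543304116627799571546792413165905487629174696254276551594145747304449) (lf 121417268934231870003659422702124159071501615523467168048241228660115322632935837699)) (nd (lf 926562925550275236053620033386366039898925737911127577012288441190768204320770) (lf 22311635584284490675109083734415073949523970))))) (nd (nd (nd (nd (lf 1) (lf 0)) (nd (lf 4098) (lf 75120059377800183809))) (nd (nd (lf 1581059)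 (lf 0)) (nd (lf 24578) (lf 737905813804403412994)))) (nd (nd (nd (lf 8194) (lf 0)) (nd (lf 1) (lf 1333078683857985538))) (nd (nd (lf 6953571020947587073) (lf 0)) (nd (lf 108095187166695426) (lf 6295286100761875164823650996019810803714)))))) (nd (nd (nd (nd (nd (lf 1) (lf 4947852685314)) (nd (lf 0) (lf 78383939585))) (nd (nd (lf 20482) (lf 1)) (nd (lf 0) (lf 18023813128146946)))) (nd (nd (nd (lf 8194) (lf 4098)) (nd (lf 0) (lf 1153485073069121538))) (nd (nd (lf 25997923476628668523461969037567207635976928823984148205154502552680977551460056542580796173308498433713323429427438049478981205961786857464669675523) (lf 1646314308042931873703120545559486159627558084298180341808001028)) (nd (lf 0) (lf 3403973673542423793415436627770165927919837407994553381566006884185017555579093308764934850285144832900360134425478499795007485551553899890315750876838686308041057816561770398956224777382405055534642007786608398594047109354920040801249293646014498166948215617948306270814785993684752036564307055131872981236704019692500784134359015121033868954361941981761693201098221531238946501279317503513702830995067700174521638915)))))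 (nd (nd (nd (nd (lf 1) (lf 0)) (nd (lf 0) (lf 78383939585))) (nd (nd (lf 20482) (lf 0)) (nd (lf 0) (lf 687228342274)))) (nd (nd (nd (lf 4741694242818) (lf 0)) (nd (lf 0) (lf 5085291646978))) (nd (nd (lf 1742415901706916788191825909141086128046081) (lf 0)) (nd (lf 0) (lf 3741626924276167870249057487665747733826181120937988))))))) (nd (nd (nd (nd (lf 0) (nd (nd (lf 0) (lf 1)) (nd (lf 8194) (lf 16785410)))) (nd (nd (nd (lf 0) (lf 4098)) (nd (lf 1) (lf 1074266113))) (nd (nd (lf 0) (lf 16781314)) (nd (lf 2148007937) (lf 68753039362))))) (nd (nd (lf 0) (nd (lf 0) (nd (lf 24578) (lf 40962)))) (nd (nd (lf 0) (nd (lf 1) (lf 79457681409))) (nd (lf 0) (nd (lf 6918092052757217281) (lf 43982612897795)))))) (nd (nd (nd (lf 0) (nd (nd (lf 0) (lf 1)) (nd (lf 0) (lf 1074302979)))) (nd (nd (nd (lf 0) (lf 8590458881)) (nd (lf 0) (lf 36866))) (nd (nd (lf 0) (lf 16809986)) (nd (lf 0) (lf 561155))))) (nd (nd (lf 0) (nd (lf 0) (nd (lf 0) (lf 40962)))) (nd (nd (lf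 0) (nd (lf 0) (lf 36866))) (lf 0))))))

def p10 : Tr :=
  (nd (nd (nd (nd (nd (nd (nd (lf 1) (lf 266243)) (nd (lf 4098) (lf 1170949098330128385))) (nd (nd (lf 532483) (lf 1)) (nd (lf 8194) (lf 18023196750520323)))) (nd (nd (nd (lf 8194) (lf 4098)) (nd (lf 1) (lf 18023194619289602))) (nd (nd (lf 3853582444423543304116627799571546792413165905487629174696254276551594145747304449) (lf 121417268934231870003659422702124159071501615523467168048241228660115322632935837699)) (nd (lf 926562925550275236053620033386366039898925737911127577012288441190768204320770) (lf 22311635584284490675109083734415073949523970))))) (nd (nd (nd (nd (lf 1) (lf 0)) (nd (lf 4098) (lf 75228145768857075713))) (nd (nd (lf 24578) (lf 0)) (nd (lf 36866) (lf 1180627675971479166978)))) (nd (nd (nd (lf 8194) (lf 0)) (nd (lf 1) (lf 1441165074914877442))) (nd (nd (lf 108095189297922049) (lf 0)) (nd (lf 162138382695141378) (lf 106339213299229851566475393573148696578)))))) (nd (nd (nd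 (nd (nd (lf 1) (lf 40962)) (nd (lf 0) (lf 10737942529))) (nd (nd (lf 24578) (lf 1)) (nd (lf 0) (lf 16801794)))) (nd (nd (nd (lf 8194) (lf 4098)) (nd (lf 0) (lf 68753039362))) (nd (nd (lf 1252059759524132079514615440226525463593095767240175947826857661400238031395368338585741880265444081983371956461571) (lf 80131824356050130047965806781668725843593717913779797737261701997553379295872617196625910104248702994280268880715780)) (nd (lf 0) (lf 5179689821098932625894196652748150485369530061264415343372640727518717539342282696825328697796477757693955))))) (nd (nd (nd (nd (lf 1) (lf 0)) (nd (lf 0) (lf 4896263766017))) (nd (nd (lf 24578) (lf 0)) (nd (lf 0) (lf 1099545206786)))) (nd (nd (nd (lf 4810413723650) (lf 0)) (nd (lf 0) (lf 5497608491010))) (nd (nd (lf 133815362908422334693733892839065903117631489) (lf 0)) (nd (lf 0) (lf 3094923000823705344332849624216068972542017063293841412))))))) (nd (nd (nd (nd (nd (nd (lf 0) (lf 40962)) (nd (lf 2629635) (lf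 687228383234))) (nd (nd (lf 0) (lf 1)) (nd (lf 8194) (lf 1153484592033361924)))) (nd (nd (nd (lf 0) (lf 4098)) (nd (lf 1) (lf 1153484455634595843))) (nd (nd (lf 0) (lf 4723519968011433844738)) (nd (lf 604610484041929029877762) (lf 85112180813603388305139133872731648003))))) (nd (nd (nd (lf 0) (nd (lf 32770) (lf 1694347485573122))) (nd (lf 0) (nd (lf 36866) (lf 4503737184350212)))) (nd (nd (lf 0) (nd (lf 1) (lf 92234564794552217603))) (nd (lf 0) (nd (lf 174094764072536625796644866) (lf 5986493422088231550786315916972455584389322812485634)))))) (nd (nd (nd (nd (nd (lf 0) (lf 40962)) (nd (lf 0) (lf 687228383234))) (nd (nd (lf 0) (lf 1)) (nd (lf 0) (lf 68754665476)))) (nd (nd (nd (lf 0) (lf 52778706182147)) (nd (lf 0) (lf 52778706202627))) (nd (nd (lf 0) (lf 312221321836005301754213830854772128408444932)) (nd (lf 0) (lf 16858199332784467815674018118047057965420107980289404932))))) (nd (nd (nd (lf 0) (nd (lf 0) (lf 61442))) (nd (lf 0) (nd (lf 0)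 (lf 65538)))) (nd (nd (lf 0) (nd (lf 0) (lf 2040696804012035))) (lf 0))))))

def p11 : Tr :=
  (nd (nd (nd (nd (nd (nd (nd (lf 1) (lf 266243)) (nd (lf 4098) (lf 1170949098330128385))) (nd (nd (lf 532483) (lf 1)) (nd (lf 8194) (lf 18023196750520323)))) (nd (nd (nd (lf 8194) (lf 4098)) (nd (lf 1) (lf 18023194619289602))) (nd (nd (lf 3853582444423543304116627799571546792413165905487629174696254276551594145747304449) (lf 121417268934231870003659422702124159071501615523467168048241228660115322632935837699)) (nd (lf 926562925550275236053620033386366039898925737911127577012288441190768204320770) (lf 22311635584284490675109083734415073949523970))))) (nd (nd (nd (nd (lf 1) (lf 0)) (nd (lf 4098) (lf 75120059377800183809))) (nd (nd (lf 1843203) (lf 0)) (nd (lf 28674) (lf 737905822533875933187)))) (nd (nd (nd (lf 8194) (lf 0)) (nd (lf 1) (lf 1333078683857985538))) (nd (nd (lf 8106492525554434049) (lf 0)) (nd (lf 126109585676177410) (lf 6295286100761875164823651000417857314818))))))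 (nd (nd (nd (nd (nd (lf 1) (lf 36866)) (nd (lf 0) (lf 9664200705))) (nd (nd (lf 33204193385081181589506) (lf 1)) (nd (lf 0) (lf 1074290691)))) (nd (nd (nd (lf 8194) (lf 4098)) (nd (lf 0) (lf 68753039362))) (nd (nd (lf 2824700379193998101474691780533024587100671503403550251425795) (lf 437316984170136846693553588885680328708)) (nd (lf 0) (lf 197693047296345592310540616968218264215523706489278832643))))) (nd (nd (nd (nd (lf 1) (lf 0)) (nd (lf 0) (lf 1))) (nd (nd (lf 1) (lf 0)) (nd (lf 0) (lf 40962)))) (nd (nd (nd (lf 412350431234) (lf 0)) (nd (lf 0) (lf 5085291634690))) (nd (nd (lf 6442975233) (lf 0)) (nd (lf 0) (lf 3022462159343419369234435))))))) (nd (nd (nd (nd (lf 0) (nd (nd (lf 0) (lf 1)) (nd (lf 8194) (lf 16785410)))) (nd (nd (nd (lf 0) (lf 4098)) (nd (lf 1) (lf 1074266113))) (nd (nd (lf 0) (lf 16781314)) (nd (lf 2148007937) (lf 68753039362))))) (nd (nd (lf 0) (nd (lf 0) (nd (lf 28674) (lf 40962)))) (nd (nd (lf 0) (nd (lf 1) (lf 79457681409)))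 (nd (lf 0) (nd (lf 8071013558437806081) (lf 43982612897795)))))) (nd (nd (nd (lf 0) (nd (nd (lf 0) (lf 1)) (nd (lf 0) (lf 1)))) (nd (lf 0) (nd (nd (lf 0) (lf 1)) (lf 0)))) (nd (nd (lf 0) (nd (lf 0) (nd (lf 0) (lf 40962)))) (lf 0)))))

def p12 : Tr :=
  (nd (nd (nd (nd (nd (nd (nd (lf 1) (lf 266243)) (nd (lf 4098) (lf 1170949098330128385))) (nd (nd (lf 532483) (lf 1)) (nd (lf 8194) (lf 18023196750520323)))) (nd (nd (nd (lf 8194) (lf 4098)) (nd (lf 1) (lf 18023194619289602))) (nd (nd (lf 3853582444423543304116627799571546792413165905487629174696254276551594145747304449) (lf 121417268934231870003659422702124159071501615523467168048241228660115322632935837699)) (nd (lf 926562925550275236053620033386366039898925737911127577012288441190768204320770) (lf 22311635584284490675109083734415073949523970))))) (nd (nd (nd (nd (lf 1) (lf 0)) (nd (lf 4098) (lf 1074266113))) (lf 0)) (nd (nd (nd (lf 8194) (lf 0)) (nd (lf 1) (lf 16785410))) (nd (nd (lf 2148007937)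 (lf 0)) (nd (lf 16781314) (lf 68753039362)))))) (nd (nd (nd (nd (nd (lf 1) (lf 28674)) (nd (lf 0) (lf 8071013561659031553))) (nd (nd (lf 21992380579843) (lf 1)) (nd (lf 0) (lf 1074307075)))) (nd (nd (nd (lf 8194) (lf 4098)) (nd (lf 0) (lf 1153485141788598274))) (nd (nd (lf 12659947159859182226702969986442391289169334773770476593155) (lf 114326772638531999957356352206799986466057311749397124089250087780358970655847122939321933405226554409549667041743162060646675585555560832256864197841187108319236)) (nd (lf 0) (lf 55839014090189057864587081941218082576280950436840533268876941113911750262081316127549502642595336422824640543106767608471840764332726333827004295330603413347616889406401934431192895104926473471387369340340395517883175793804276372670800198616284068992507685726906850032412312599432195831933383972760678597545588563946092902241041992810484178609656122523053581754492537800718453854770043253431065451312647547116835172816307794607798831292419)))))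 (nd (nd (nd (nd (lf 1) (lf 0)) (nd (lf 0) (lf 79457681409))) (lf 0)) (nd (nd (nd (lf 4295491585) (lf 0)) (nd (lf 0) (lf 40962))) (nd (nd (lf 4295491585) (lf 0)) (nd (lf 0) (lf 303107))))))) (nd (nd (nd (nd (nd (nd (lf 0) (lf 1576963)) (nd (lf 1843203) (lf 481069928450))) (nd (nd (lf 0) (lf 1)) (nd (lf 8194) (lf 1153484592033337348)))) (nd (nd (nd (lf 0) (lf 4098)) (nd (lf 1) (lf 1153484455634571267))) (nd (nd (lf 0) (lf 19347537787853196783783939)) (nd (lf 604610484041791590916098) (lf 5447178278912224023361456170014436003843))))) (nd (nd (nd (lf 0) (nd (lf 24578) (lf 36866))) (lf 0)) (nd (nd (lf 0) (nd (lf 1) (lf 1074302979))) (nd (lf 0) (nd (lf 16801794) (lf 9414618681346)))))) (nd (nd (nd (nd (nd (lf 0) (lf 28674)) (nd (lf 0) (lf 481069928450))) (nd (nd (lf 0) (lf 1)) (nd (lf 0) (lf 1074307075)))) (nd (nd (nd (lf 0) (lf 35186520125443)) (nd (lf 0) (lf 43982613155843))) (nd (nd (lf 0) (lf 5444538680489745279629355371716126732292)) (nd (lf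 0) (lf 386475928462785718805862997626997100468262614372356))))) (nd (nd (nd (lf 0) (nd (lf 0) (lf 36866))) (lf 0)) (nd (nd (lf 0) (nd (lf 0) (lf 40962))) (lf 0))))))

def p13 : Tr :=
  (nd (nd (nd (nd (nd (nd (nd (lf 1) (lf 266243)) (nd (lf 4098) (lf 1170949098330128385))) (nd (nd (lf 532483) (lf 1)) (nd (lf 8194) (lf 18023196750520323)))) (nd (nd (nd (lf 8194) (lf 4098)) (nd (lf 1) (lf 18023194619289602))) (nd (nd (lf 3853582444423543304116627799571546792413165905487629174696254276551594145747304449) (lf 121417268934231870003659422702124159071501615523467168048241228660115322632935837699)) (nd (lf 926562925550275236053620033386366039898925737911127577012288441190768204320770) (lf 22311635584284490675109083734415073949523970))))) (nd (nd (nd (nd (lf 1) (lf 0)) (nd (lf 4098) (lf 1074266113))) (lf 0)) (nd (nd (nd (lf 8194) (lf 0)) (nd (lf 1) (lf 16785410))) (nd (nd (lf 2148007937) (lf 0)) (nd (lf 16781314) (lf 68753039362)))))) (nd (nd (nd (nd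 (nd (lf 1) (lf 4947852685314)) (nd (lf 0) (lf 79457681409))) (nd (nd (lf 26390427095043) (lf 1)) (nd (lf 0) (lf 1074307075)))) (nd (nd (nd (lf 8194) (lf 4098)) (nd (lf 0) (lf 1153485141788598274))) (nd (nd (lf 810334697945694423248343265366168627212573423159537125564419) (lf 60663171819954303675916642035522285852348185244666219842688279670788)) (nd (lf 0) (lf 184115997791612146818126004900761186735143264259))))) (nd (nd (nd (nd (lf 1) (lf 0)) (nd (lf 0) (lf 79457681409))) (lf 0)) (nd (nd (nd (lf 5369233409) (lf 0)) (nd (lf 0) (lf 40962))) (nd (nd (lf 5369233409) (lf 0)) (nd (lf 0) (lf 303107))))))) (nd (nd (nd (nd (lf 0) (nd (nd (lf 0) (lf 1)) (nd (lf 8194) (lf 16785410)))) (nd (nd (nd (lf 0) (lf 4098)) (nd (lf 1) (lf 1074266113))) (nd (nd (lf 0) (lf 16781314)) (nd (lf 2148007937) (lf 68753039362))))) (nd (lf 0) (nd (nd (lf 0) (nd (lf 1) (lf 1))) (nd (lf 0) (nd (lf 1) (lf 0)))))) (nd (nd (nd (lf 0) (nd (nd (lf 0) (lf 1)) (nd (lf 0) (lf 1074307075))))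 (nd (nd (nd (lf 0) (lf 8590458881)) (nd (lf 0) (lf 40962))) (nd (nd (lf 0) (lf 16809986)) (nd (lf 0) (lf 565251))))) (nd (lf 0) (nd (nd (lf 0) (nd (lf 0) (lf 40962))) (lf 0))))))

def p14 : Tr :=
  (nd (nd (nd (nd (nd (nd (nd (lf 1) (lf 266243)) (nd (lf 4098) (lf 1170949098330128385))) (nd (nd (lf 532483) (lf 1)) (nd (lf 8194) (lf 18023196750520323)))) (nd (nd (nd (lf 8194) (lf 4098)) (nd (lf 1) (lf 18023194619289602))) (nd (nd (lf 3853582444423543304116627799571546792413165905487629174696254276551594145747304449) (lf 121417268934231870003659422702124159071501615523467168048241228660115322632935837699)) (nd (lf 926562925550275236053620033386366039898925737911127577012288441190768204320770) (lf 22311635584284490675109083734415073949523970))))) (nd (nd (nd (nd (lf 1) (lf 0)) (nd (lf 4098) (lf 1074266113))) (lf 0)) (nd (nd (nd (lf 8194) (lf 0)) (nd (lf 1) (lf 16785410))) (nd (nd (lf 2148007937) (lf 0)) (nd (lf 16781314) (lf 68753039362)))))) (nd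 (nd (nd (nd (nd (lf 1) (lf 5238929386586090016770)) (nd (lf 0) (lf 76236455937))) (nd (nd (lf 16386) (lf 1)) (nd (lf 0) (lf 16793602)))) (nd (nd (nd (lf 8194) (lf 4098)) (nd (lf 0) (lf 68753039362))) (nd (nd (lf 159771655212041729237783937025) (lf 842549768018228808238279498676849030360235416098397980372808241155)) (nd (lf 0) (lf 197693047935752558464693154023537040235953986036817993731))))) (nd (nd (nd (nd (lf 1) (lf 0)) (nd (lf 0) (lf 1))) (lf 0)) (nd (lf 0) (nd (nd (lf 1) (lf 0)) (lf 0)))))) (nd (nd (nd (nd (nd (nd (lf 0) (lf 1576963)) (nd (lf 24578) (lf 26457048915970))) (nd (nd (lf 0) (lf 1)) (nd (lf 8194) (lf 1153484592033341444)))) (nd (nd (nd (lf 0) (lf 4098)) (nd (lf 1) (lf 1153484455634575363))) (nd (nd (lf 0) (lf 19347537787853196783783939)) (nd (lf 604610484041791590916098) (lf 5447178278912224023361456174412482519043))))) (nd (nd (nd (lf 0) (nd (lf 24578) (lf 40962))) (lf 0)) (nd (nd (lf 0) (nd (lf 1) (lf 1074307075))) (nd (lf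 0) (nd (lf 16801794) (lf 9483338162178)))))) (nd (nd (nd (nd (nd (lf 0) (lf 1)) (nd (lf 0) (lf 40962))) (nd (nd (lf 0) (lf 1)) (nd (lf 0) (lf 1)))) (nd (nd (nd (lf 0) (lf 481069924354)) (nd (lf 0) (lf 30788473626627))) (nd (nd (lf 0) (lf 16805890)) (nd (lf 0) (lf 651690033691483191681026))))) (nd (nd (nd (lf 0) (nd (lf 0) (lf 40962))) (lf 0)) (lf 0)))))

def p15 : Tr :=
  (nd (nd (nd (nd (nd (nd (nd (lf 1) (lf 266243)) (nd (lf 4098) (lf 1170949098330128385))) (nd (nd (lf 532483) (lf 1)) (nd (lf 8194) (lf 18023196750520323)))) (nd (nd (nd (lf 8194) (lf 4098)) (nd (lf 1) (lf 18023194619289602))) (nd (nd (lf 3853582444423543304116627799571546792413165905487629174696254276551594145747304449) (lf 121417268934231870003659422702124159071501615523467168048241228660115322632935837699)) (nd (lf 926562925550275236053620033386366039898925737911127577012288441190768204320770) (lf 22311635584284490675109083734415073949523970))))) (nd (nd (nd (nd (lf 1) (lf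 0)) (nd (lf 4098) (lf 75156088174819147777))) (nd (nd (lf 20482) (lf 0)) (nd (lf 28674) (lf 885479766394079825922)))) (nd (nd (nd (lf 8194) (lf 0)) (nd (lf 1) (lf 1369107480876949506))) (nd (nd (lf 90080790788440065) (lf 0)) (nd (lf 126109585676177410) (lf 101022301316012816822404828996126646274)))))) (nd (nd (nd (nd (nd (lf 1) (lf 32770)) (nd (lf 0) (lf 9223935067339620353))) (nd (nd (lf 20482) (lf 1)) (nd (lf 0) (lf 18023950567100418)))) (nd (nd (nd (lf 8194) (lf 4098)) (nd (lf 0) (lf 1153485210508075010))) (nd (nd (lf 305605259991891516727251622167877673435111725217626871973623370232002948340798186915485346388185106931125592067) (lf 1251759142112688231295060317223757343811839830240590532946835989693398637066689507030702943258730013707339028791300)) (nd (lf 0) (lf 15383379154218930817656284297611832792999816291593681410751090672222320302682517538855277607120019459))))) (nd (nd (nd (nd (lf 1) (lf 0)) (nd (lf 0) (lf 475504384457314068588263112705)))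 (nd (nd (lf 20482) (lf 0)) (nd (lf 0) (lf 824667295746)))) (nd (nd (nd (lf 4741694242818) (lf 0)) (nd (lf 0) (lf 5222730608642))) (nd (nd (lf 1742415901706916788191825909141086128046081) (lf 0)) (nd (lf 0) (lf 422786993233877473279196268349946579028581632402458995060648623555920562184544452602586400219218653639084431136036521027974235645207098630636329743298948643817227852992516))))))) (nd (nd (nd (nd (nd (nd (lf 0) (lf 32770)) (nd (lf 2105347) (lf 549789409282))) (nd (nd (lf 0) (lf 1)) (nd (lf 8194) (lf 1153484592033341444)))) (nd (nd (nd (lf 0) (lf 4098)) (nd (lf 1) (lf 1153484455634575363))) (nd (nd (lf 0) (lf 4723519967873994883074)) (nd (lf 604610484041791590916098) (lf 85112170672398586479303899908873428995))))) (nd (nd (nd (lf 0) (nd (lf 24578) (lf 28342269924718980145154))) (nd (lf 0) (nd (lf 28674) (lf 3377837227155460)))) (nd (nd (lf 0) (nd (lf 1) (lf 87622878776124809219))) (nd (lf 0) (nd (lf 135409137808839695187075074) (lf 4821010320641451659403198687337474940945845389871226929848322))))))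 (nd (nd (nd (nd (nd (lf 0) (lf 32770)) (nd (lf 0) (lf 549789409282))) (nd (nd (lf 0) (lf 1)) (nd (lf 0) (lf 1074311171)))) (nd (nd (nd (lf 0) (lf 39584566640643)) (nd (lf 0) (lf 48380659671043))) (nd (nd (lf 0) (lf 5444538685560347685264639742047561482244)) (nd (lf 0) (lf 2993338063999560485913307823901253632869340858064900))))) (nd (nd (nd (lf 0) (nd (lf 0) (lf 28342269924718980145154))) (nd (lf 0) (nd (lf 0) (lf 49154)))) (nd (nd (lf 0) (nd (lf 0) (lf 45058))) (nd (lf 0) (nd (lf 0) (lf 548219230375679157528775602960223142718019248130))))))))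

def p16 : Tr :=
  (nd (nd (nd (nd (nd (nd (nd (lf 1) (lf 266243)) (nd (lf 4098) (lf 1170949098330128385))) (nd (nd (lf 532483) (lf 1)) (nd (lf 8194) (lf 18023196750520323)))) (nd (nd (nd (lf 8194) (lf 4098)) (nd (lf 1) (lf 18023194619289602))) (nd (nd (lf 3853582444423543304116627799571546792413165905487629174696254276551594145747304449) (lf 121417268934231870003659422702124159071501615523467168048241228660115322632935837699)) (nd (lf 926562925550275236053620033386366039898925737911127577012288441190768204320770) (lf 22311635584284490675109083734415073949523970))))) (nd (nd (nd (nd (lf 1) (lf 0)) (nd (lf 4098) (lf 75156088174819147777))) (nd (nd (lf 1843203) (lf 0)) (nd (lf 28674) (lf 885479775123552346115)))) (nd (nd (nd (lf 8194) (lf 0)) (nd (lf 1) (lf 1369107480876949506))) (nd (nd (lf 8106492525554434049) (lf 0)) (nd (lf 126109585676177410) (lf 6465427284224820276633909064683539668994)))))) (nd (nd (nd (nd (nd (lf 1) (lf 84164114674621349889))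 (nd (lf 0) (lf 78383939585))) (nd (nd (lf 518815521640819720193) (lf 1)) (nd (lf 0) (lf 1074286595)))) (nd (nd (nd (lf 8194) (lf 4098)) (nd (lf 0) (lf 68753039362))) (nd (nd (lf 2824700379188152094919923650989474832354392377606018229870595) (lf 72373590336915395839601827028364185406900929161766379171385361246530835058694)) (nd (lf 0) (lf 212271294078813816169380051560449796722431179327876741679903154179))))) (nd (nd (nd (nd (lf 1) (lf 0)) (nd (lf 0) (lf 4754529845249))) (nd (nd (lf 1) (lf 0)) (nd (lf 0) (lf 49154)))) (nd (nd (nd (lf 343630954498) (lf 0)) (nd (lf 0) (lf 5222730584066))) (nd (nd (lf 5369233409) (lf 0)) (nd (lf 0) (lf 2683119718680206111624653829517393924))))))) (nd (nd (nd (nd (nd (nd (lf 0) (lf 32770)) (nd (lf 2105347) (lf 549789413378))) (nd (nd (lf 0) (lf 1)) (nd (lf 8194) (lf 1153484592033345540)))) (nd (nd (nd (lf 0) (lf 4098)) (nd (lf 1) (lf 1153484455634579459))) (nd (nd (lf 0) (lf 19347537787853196783783939)) (nd (lf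 604610484041791590916098) (lf 5447178278912224023361456178810529034243))))) (nd (nd (nd (lf 0) (nd (lf 24578) (lf 1131122654228482))) (nd (lf 0) (nd (lf 28674) (lf 3377837227159556)))) (nd (nd (lf 0) (nd (lf 1) (lf 87622878776124813315))) (nd (lf 0) (nd (lf 135409137808839695187075074) (lf 4489915744067590346078921423135737168936781297528834)))))) (nd (nd (nd (nd (nd (lf 0) (lf 1)) (nd (lf 0) (lf 45058))) (nd (nd (lf 0) (lf 1)) (nd (lf 0) (lf 68787154948)))) (nd (nd (nd (lf 0) (lf 618508886018)) (nd (lf 0) (lf 39584566652931))) (nd (nd (lf 0) (lf 16814082)) (nd (lf 0) (lf 83781568422700707148220964551569412))))) (nd (nd (nd (lf 0) (nd (lf 0) (lf 45058))) (nd (lf 0) (nd (lf 0) (lf 49154)))) (nd (nd (lf 0) (nd (lf 0) (lf 1359875))) (lf 0))))))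

def p17 : Tr :=
  (nd (nd (nd (nd (nd (nd (nd (lf 1) (lf 266243)) (nd (lf 4098) (lf 1170949098330128385))) (nd (nd (lf 532483) (lf 1)) (nd (lf 8194) (lf 18023196750520323)))) (nd (nd (nd (lf 8194) (lf 4098)) (nd (lf 1) (lf 18023194619289602))) (nd (nd (lf 3853582444423543304116627799571546792413165905487629174696254276551594145747304449) (lf 121417268934231870003659422702124159071501615523467168048241228660115322632935837699)) (nd (lf 926562925550275236053620033386366039898925737911127577012288441190768204320770) (lf 22311635584284490675109083734415073949523970))))) (nd (nd (nd (nd (lf 1) (lf 0)) (nd (lf 4098) (lf 75029987385252773889))) (nd (nd (lf 1056771) (lf 0)) (nd (lf 16386) (lf 368970927865544581123)))) (nd (nd (nd (lf 8194) (lf 0)) (nd (lf 1) (lf 1243006691310575618))) (nd (nd (lf 4647728011733893121) (lf 0)) (nd (lf 72066390147731458) (lf 5869933142104512385298005826559511896066)))))) (nd (nd (nd (nd (nd (lf 1) (lf 1)) (nd (lf 0)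 (lf 1))) (nd (nd (lf 277026177025) (lf 1)) (nd (lf 0) (lf 1074798595)))) (nd (nd (nd (lf 8194) (lf 4098)) (nd (lf 0) (lf 68753039362))) (nd (nd (lf 4990459952775043872157597697) (lf 18023263372316674)) (nd (lf 0) (lf 159695171836001780323966001155))))) (nd (nd (nd (nd (lf 1) (lf 0)) (nd (lf 0) (lf 1))) (nd (nd (lf 1) (lf 0)) (nd (lf 0) (lf 20482)))) (nd (nd (nd (lf 1) (lf 0)) (nd (lf 0) (lf 282627))) (nd (nd (lf 1) (lf 0)) (nd (lf 0) (lf 1511304884803142668275715))))))) (nd (nd (nd (nd (lf 0) (nd (nd (lf 0) (lf 1)) (nd (lf 8194) (lf 16785410)))) (nd (nd (nd (lf 0) (lf 4098)) (nd (lf 1) (lf 1074266113))) (nd (nd (lf 0) (lf 16781314)) (nd (lf 2148007937) (lf 68753039362))))) (nd (nd (lf 0) (nd (lf 0) (nd (lf 16386) (lf 20482)))) (nd (nd (lf 0) (nd (lf 1) (lf 74088972289))) (nd (lf 0) (nd (lf 4612249041396039681) (lf 21992380321795)))))) (nd (nd (nd (lf 0) (nd (nd (lf 0) (lf 1)) (nd (lf 0) (lf 1)))) (nd (lf 0) (nd (nd (lf 0) (lf 1)) (lf 0))))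 (nd (nd (lf 0) (nd (lf 0) (nd (lf 0) (lf 20482)))) (lf 0)))))

def p18 : Tr :=
  (nd (nd (nd (nd (nd (nd (nd (lf 1) (lf 266243)) (nd (lf 4098) (lf 1170949098330128385))) (nd (nd (lf 532483) (lf 1)) (nd (lf 8194) (lf 18023196750520323)))) (nd (nd (nd (lf 8194) (lf 4098)) (nd (lf 1) (lf 18023194619289602))) (nd (nd (lf 3853582444423543304116627799571546792413165905487629174696254276551594145747304449) (lf 121417268934231870003659422702124159071501615523467168048241228660115322632935837699)) (nd (lf 926562925550275236053620033386366039898925737911127577012288441190768204320770) (lf 22311635584284490675109083734415073949523970))))) (nd (nd (nd (nd (lf 1) (lf 0)) (nd (lf 4098) (lf 1074266113))) (lf 0)) (nd (nd (nd (lf 8194) (lf 0)) (nd (lf 1) (lf 16785410))) (nd (nd (lf 2148007937) (lf 0)) (nd (lf 16781314) (lf 68753039362)))))) (nd (nd (nd (nd (nd (lf 1) (lf 73015230465)) (nd (lf 0) (lf 75162714113))) (nd (nd (lf 1) (lf 1)) (nd (lf 0) (lf 1074290691))))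 (nd (nd (nd (lf 8194) (lf 4098)) (nd (lf 0) (lf 1153484866910691330))) (nd (nd (lf 2306405960241127427) (lf 396179507716123345731161702403)) (nd (lf 0) (lf 184115997791612146501213354548555931181614637059))))) (nd (nd (nd (nd (lf 1) (lf 0)) (nd (lf 0) (lf 75162714113))) (lf 0)) (nd (nd (nd (lf 1) (lf 0)) (nd (lf 0) (lf 24578))) (nd (nd (lf 1) (lf 0)) (nd (lf 0) (lf 286723))))))) (nd (nd (nd (nd (lf 0) (nd (nd (lf 0) (lf 1)) (nd (lf 8194) (lf 16785410)))) (nd (nd (nd (lf 0) (lf 4098)) (nd (lf 1) (lf 1074266113))) (nd (nd (lf 0) (lf 16781314)) (nd (lf 2148007937) (lf 68753039362))))) (nd (lf 0) (nd (nd (lf 0) (nd (lf 1) (lf 1))) (nd (lf 0) (nd (lf 1) (lf 0)))))) (nd (nd (nd (lf 0) (nd (nd (lf 0) (lf 1)) (nd (lf 0) (lf 1074290691)))) (nd (nd (nd (lf 0) (lf 4295491585)) (nd (lf 0) (lf 24578))) (nd (nd (lf 0) (lf 16793602)) (nd (lf 0) (lf 548867))))) (nd (lf 0) (nd (nd (lf 0) (nd (lf 0) (lf 24578))) (lf 0))))))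

def p19 : Tr :=
  (nd (nd (nd (nd (nd (nd (nd (lf 1) (lf 266243)) (nd (lf 4098) (lf 1170949098330128385))) (nd (nd (lf 532483) (lf 1)) (nd (lf 8194) (lf 18023196750520323)))) (nd (nd (nd (lf 8194) (lf 4098)) (nd (lf 1) (lf 18023194619289602))) (nd (nd (lf 3853582444423543304116627799571546792413165905487629174696254276551594145747304449) (lf 121417268934231870003659422702124159071501615523467168048241228660115322632935837699)) (nd (lf 926562925550275236053620033386366039898925737911127577012288441190768204320770) (lf 22311635584284490675109083734415073949523970))))) (nd (nd (nd (nd (lf 1) (lf 0)) (nd (lf 4098) (lf 1074266113))) (lf 0)) (nd (nd (nd (lf 8194) (lf 0)) (nd (lf 1) (lf 16785410))) (nd (nd (lf 2148007937) (lf 0)) (nd (lf 16781314) (lf 68753039362)))))) (nd (nd (nd (nd (nd (lf 1) (lf 5091355425200320573442)) (nd (lf 0) (lf 74088972289))) (nd (nd (lf 1) (lf 1)) (nd (lf 0) (lf 1)))) (nd (nd (nd (lf 8194) (lf 4098)) (nd (lf 0) (lf 68753039362)))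 (nd (nd (lf 2306406030034862081) (lf 631925184681114434842443432420471775215307068171125225046317993987)) (nd (lf 0) (lf 2876812472140079681388019221876626097608859651))))) (nd (nd (nd (nd (lf 1) (lf 0)) (nd (lf 0) (lf 1))) (lf 0)) (nd (lf 0) (nd (nd (lf 1) (lf 0)) (lf 0)))))) (nd (nd (nd (nd (nd (nd (lf 0) (lf 1052675)) (nd (lf 16386) (lf 17660955885570))) (nd (nd (lf 0) (lf 1)) (nd (lf 8194) (lf 1153484592033333252)))) (nd (nd (nd (lf 0) (lf 4098)) (nd (lf 1) (lf 1153484455634567171))) (nd (nd (lf 0) (lf 19347537787290246829838339)) (nd (lf 604610484041654151954434) (lf 5447177629875116706508002599304348336131))))) (nd (nd (nd (lf 0) (nd (lf 16386) (lf 32770))) (lf 0)) (nd (nd (lf 0) (nd (lf 1) (lf 1074298883))) (nd (lf 0) (nd (lf 16793602) (lf 9345899200514)))))) (nd (nd (nd (nd (nd (lf 0) (lf 1)) (nd (lf 0) (lf 32770))) (nd (nd (lf 0) (lf 1)) (nd (lf 0) (lf 1)))) (nd (nd (nd (lf 0) (lf 343630962690)) (nd (lf 0) (lf 21992380596227))) (nd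 (nd (lf 0) (lf 16797698)) (nd (lf 0) (lf 642245300725606462291970))))) (nd (nd (nd (lf 0) (nd (lf 0) (lf 32770))) (lf 0)) (lf 0)))))

def p20 : Tr :=
  (nd (nd (nd (nd (nd (nd (nd (lf 1) (lf 266243)) (nd (lf 4098) (lf 1170949098330128385))) (nd (nd (lf 532483) (lf 1)) (nd (lf 8194) (lf 18023196750520323)))) (nd (nd (nd (lf 8194) (lf 4098)) (nd (lf 1) (lf 18023194619289602))) (nd (nd (lf 3853582444423543304116627799571546792413165905487629174696254276551594145747304449) (lf 121417268934231870003659422702124159071501615523467168048241228660115322632935837699)) (nd (lf 926562925550275236053620033386366039898925737911127577012288441190768204320770) (lf 22311635584284490675109083734415073949523970))))) (nd (nd (nd (nd (lf 1) (lf 0)) (nd (lf 4098) (lf 75102044979290701825))) (nd (nd (lf 1581059) (lf 0)) (nd (lf 24578) (lf 664118837509565206530)))) (nd (nd (nd (lf 8194) (lf 0)) (nd (lf 1) (lf 1315064285348503554))) (nd (nd (lf 6953571020947587073)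 (lf 0)) (nd (lf 108095187166695426) (lf 6210215509030402608918521963886969626626)))))) (nd (nd (nd (nd (nd (lf 1) (lf 76236455937)) (nd (lf 0) (lf 77310197761))) (nd (nd (lf 20482) (lf 1)) (nd (lf 0) (lf 18023744408670210)))) (nd (nd (nd (lf 8194) (lf 4098)) (nd (lf 0) (lf 1153485004349644802))) (nd (nd (lf 468336953927006165744667918718167163909438994370397866928869472588166083714035901637886113489100782257197333060610548171269158408329381814855696032204683221307498499) (lf 19352331687823696646664195)) (nd (lf 0) (lf 20819507857718618401212462438516586799147106267360806535501431774274710034812801772517945564383165749940774806958681366531))))) (nd (nd (nd (nd (lf 1) (lf 0)) (nd (lf 0) (lf 77310197761))) (nd (nd (lf 20482) (lf 0)) (nd (lf 0) (lf 618508865538)))) (nd (nd (nd (lf 4741694242818) (lf 0)) (nd (lf 0) (lf 5016572166146))) (nd (nd (lf 1742415901706916788191825909141086128046081) (lf 0)) (nd (lf 0) (lf 3367482505114012205313108552669330002986497640517636)))))))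 (nd (nd (nd (nd (lf 0) (nd (nd (lf 0) (lf 1)) (nd (lf 8194) (lf 16785410)))) (nd (nd (nd (lf 0) (lf 4098)) (nd (lf 1) (lf 1074266113))) (nd (nd (lf 0) (lf 16781314)) (nd (lf 2148007937) (lf 68753039362))))) (nd (nd (lf 0) (nd (lf 0) (nd (lf 24578) (lf 36866)))) (nd (nd (lf 0) (nd (lf 1) (lf 78383939585))) (nd (lf 0) (nd (lf 6918092052757217281) (lf 39584566382595)))))) (nd (nd (nd (lf 0) (nd (nd (lf 0) (lf 1)) (nd (lf 0) (lf 1074298883)))) (nd (nd (nd (lf 0) (lf 7516717057)) (nd (lf 0) (lf 32770))) (nd (nd (lf 0) (lf 16805890)) (nd (lf 0) (lf 557059))))) (nd (nd (lf 0) (nd (lf 0) (nd (lf 0) (lf 36866)))) (nd (nd (lf 0) (nd (lf 0) (lf 32770))) (lf 0))))))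

def p21 : Tr :=
  (nd (nd (nd (nd (nd (nd (nd (lf 1) (lf 266243)) (nd (lf 4098) (lf 1170949098330128385))) (nd (nd (lf 532483) (lf 1)) (nd (lf 8194) (lf 18023196750520323)))) (nd (nd (nd (lf 8194) (lf 4098)) (nd (lf 1) (lf 18023194619289602))) (nd (nd (lf 3853582444423543304116627799571546792413165905487629174696254276551594145747304449) (lf 121417268934231870003659422702124159071501615523467168048241228660115322632935837699)) (nd (lf 926562925550275236053620033386366039898925737911127577012288441190768204320770) (lf 22311635584284490675109083734415073949523970))))) (nd (nd (nd (nd (lf 1) (lf 0)) (nd (lf 4098) (lf 75174102573328629761))) (nd (nd (lf 28674) (lf 0)) (nd (lf 1839107) (lf 959266751485011062786)))) (nd (nd (nd (lf 8194) (lf 0)) (nd (lf 1) (lf 1387121879386431490))) (nd (nd (lf 148852992478183686145) (lf 0)) (nd (lf 9526608428955135381506) (lf 419231864061202741282498438196588816900098)))))) (nd (nd (nd (nd (nd (lf 1) (lf 5386503348041603350529))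 (nd (lf 0) (lf 78383939585))) (nd (nd (lf 33132659325435357429761) (lf 1)) (nd (lf 0) (lf 1074290691)))) (nd (nd (nd (lf 8194) (lf 4098)) (nd (lf 0) (lf 68753039362))) (nd (nd (lf 13596830672211384222984803368189279213848996486826840877688181497859) (lf 113133857791700194584198427744005125847120758025665777051452957842869850118)) (nd (lf 0) (lf 22408390630884305258721816819951134947524223913921243838053448351036438274212704225400725507))))) (nd (nd (nd (nd (lf 1) (lf 0)) (nd (lf 0) (lf 325844512310518423748609))) (nd (nd (lf 1) (lf 0)) (nd (lf 0) (lf 53250)))) (nd (nd (nd (lf 412350431234) (lf 0)) (nd (lf 0) (lf 5291450064898))) (nd (nd (lf 6442975233) (lf 0)) (nd (lf 0) (lf 198003236321029472273380798943296171463486067634988699658))))))) (nd (nd (nd (nd (nd (nd (lf 0) (lf 32770)) (nd (lf 2105347) (lf 549789417474))) (nd (nd (lf 0) (lf 1)) (nd (lf 8194) (lf 1153484592033349636)))) (nd (nd (nd (lf 0) (lf 4098)) (nd (lf 1) (lf 1153484455634583555)))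 (nd (nd (lf 0) (lf 19347537788411883007811588)) (nd (lf 10143680686636031869427544236037) (lf 348619409900855590686413934814314269032451))))) (nd (nd (nd (lf 0) (nd (lf 1) (lf 52778705932291))) (nd (lf 0) (nd (lf 1) (lf 57176752701443)))) (nd (nd (lf 0) (nd (lf 1) (lf 88775800280731664387))) (nd (lf 0) (nd (lf 1) (lf 1030004803993315284368509419522)))))) (nd (nd (nd (nd (nd (lf 0) (lf 1)) (nd (lf 0) (lf 49154))) (nd (nd (lf 0) (lf 1)) (nd (lf 0) (lf 4724780421478376849418)))) (nd (nd (nd (lf 0) (lf 618508890114)) (nd (lf 0) (lf 39584566657027))) (nd (nd (lf 0) (lf 16814082)) (nd (lf 0) (lf 205355185845259543938172204955270490352582318286470430724))))) (nd (nd (nd (lf 0) (nd (lf 0) (lf 49154))) (nd (lf 0) (nd (lf 0) (lf 53250)))) (nd (nd (lf 0) (nd (lf 0) (lf 1622909720595911272983864204378120))) (lf 0))))))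

def p22 : Tr :=
  (nd (nd (nd (nd (nd (nd (nd (lf 1) (lf 266243)) (nd (lf 4098) (lf 1170949098330128385))) (nd (nd (lf 532483) (lf 1)) (nd (lf 8194) (lf 18023196750520323)))) (nd (nd (nd (lf 8194) (lf 4098)) (nd (lf 1) (lf 18023194619289602))) (nd (nd (lf 3853582444423543304116627799571546792413165905487629174696254276551594145747304449) (lf 121417268934231870003659422702124159071501615523467168048241228660115322632935837699)) (nd (lf 926562925550275236053620033386366039898925737911127577012288441190768204320770) (lf 22311635584284490675109083734415073949523970))))) (nd (nd (nd (nd (lf 1) (lf 0)) (nd (lf 4098) (lf 75066016182271737857))) (nd (nd (lf 2148007937) (lf 0)) (nd (lf 16781314) (lf 481069899778)))) (nd (nd (nd (lf 8194) (lf 0)) (nd (lf 1) (lf 1279035488329539586))) (nd (nd (lf 2148007937) (lf 0)) (nd (lf 16781314) (lf 5625257571756334507007397601282)))))) (nd (nd (nd (nd (nd (lf 1) (lf 1)) (nd (lf 0) (lf 1))) (nd (nd (lf 154492326179720151042)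 (lf 1)) (nd (lf 0) (lf 1074290691)))) (nd (nd (nd (lf 8194) (lf 4098)) (nd (lf 0) (lf 68753039362))) (nd (nd (lf 178117525149334718069189244692889608195) (lf 18023263372316674)) (nd (lf 0) (lf 2876812465493939789081458731725839918906482691))))) (nd (nd (nd (nd (lf 1) (lf 0)) (nd (lf 0) (lf 1))) (nd (nd (lf 1) (lf 0)) (nd (lf 0) (lf 28674)))) (nd (nd (nd (lf 412350435330) (lf 0)) (nd (lf 0) (lf 4879133204482))) (nd (nd (lf 6442975233) (lf 0)) (nd (lf 0) (lf 2115767794619253348659203))))))) (nd (nd (nd (nd (lf 0) (nd (nd (lf 0) (lf 1)) (nd (lf 8194) (lf 16785410)))) (nd (nd (nd (lf 0) (lf 4098)) (nd (lf 1) (lf 1074266113))) (nd (nd (lf 0) (lf 16781314)) (nd (lf 2148007937) (lf 68753039362))))) (nd (nd (lf 0) (nd (lf 0) (nd (lf 1) (lf 28674)))) (nd (nd (lf 0) (nd (lf 1) (lf 76236455937))) (nd (lf 0) (nd (lf 1) (lf 30788473352195)))))) (nd (nd (nd (lf 0) (nd (nd (lf 0) (lf 1)) (nd (lf 0) (lf 1)))) (nd (lf 0) (nd (nd (lf 0) (lf 1)) (lf 0)))) (nd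 (nd (lf 0) (nd (lf 0) (nd (lf 0) (lf 28674)))) (lf 0)))))

def p23 : Tr :=
  (nd (nd (nd (nd (nd (nd (nd (lf 1) (lf 266243)) (nd (lf 4098) (lf 1170949098330128385))) (nd (nd (lf 532483) (lf 1)) (nd (lf 8194) (lf 18023196750520323)))) (nd (nd (nd (lf 8194) (lf 4098)) (nd (lf 1) (lf 18023194619289602))) (nd (nd (lf 3853582444423543304116627799571546792413165905487629174696254276551594145747304449) (lf 121417268934231870003659422702124159071501615523467168048241228660115322632935837699)) (nd (lf 926562925550275236053620033386366039898925737911127577012288441190768204320770) (lf 22311635584284490675109083734415073949523970))))) (nd (nd (nd (nd (lf 1) (lf 0)) (nd (lf 4098) (lf 1074266113))) (lf 0)) (nd (nd (nd (lf 8194) (lf 0)) (nd (lf 1) (lf 16785410))) (nd (nd (lf 2148007937) (lf 0)) (nd (lf 16781314) (lf 68753039362)))))) (nd (nd (nd (nd (nd (lf 1) (lf 24578)) (nd (lf 0) (lf 6918092055978442753))) (nd (nd (lf 141734707201) (lf 1)) (nd (lf 0)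 (lf 1074302979)))) (nd (nd (nd (lf 8194) (lf 4098)) (nd (lf 0) (lf 1153485073069121538))) (nd (nd (lf 2741547955590076346496994625922015235) (lf 114313043043211738737926385497846926497195208159773209357166491853016590411016681559347701067320414015190971471658270170842321179735146920597895364953502822981636)) (nd (lf 0) (lf 5336322083170342115104004472523470620573367369920947973572107092474336234876716039259222360101461051379352544964251102068506096459166790197251))))) (nd (nd (nd (nd (lf 1) (lf 0)) (nd (lf 0) (lf 78383939585))) (lf 0)) (nd (nd (nd (lf 4295491585) (lf 0)) (nd (lf 0) (lf 36866))) (nd (nd (lf 4295491585) (lf 0)) (nd (lf 0) (lf 299011))))))) (nd (nd (nd (nd (nd (nd (lf 0) (lf 1314819)) (nd (lf 1581059) (lf 412350447618))) (nd (nd (lf 0) (lf 1)) (nd (lf 8194) (lf 1153484592033333252)))) (nd (nd (nd (lf 0) (lf 4098)) (nd (lf 1) (lf 1153484455634567171))) (nd (nd (lf 0) (lf 19347537787571721806811139)) (nd (lf 604610484041722871435266)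 (lf 5447177954393670364934729382460368912387))))) (nd (nd (nd (lf 0) (nd (lf 20482) (lf 32770))) (lf 0)) (nd (nd (lf 0) (nd (lf 1) (lf 1074298883))) (nd (lf 0) (nd (lf 16797698) (lf 9345899200514)))))) (nd (nd (nd (nd (nd (lf 0) (lf 24578)) (nd (lf 0) (lf 412350447618))) (nd (nd (lf 0) (lf 1)) (nd (lf 0) (lf 1074302979)))) (nd (nd (nd (lf 0) (lf 30788473610243)) (nd (lf 0) (lf 39584566640643))) (nd (nd (lf 0) (lf 5444538675419142873994071001384691982340)) (nd (lf 0) (lf 386384584605008019497669649503903054690294392455172))))) (nd (nd (nd (lf 0) (nd (lf 0) (lf 32770))) (lf 0)) (nd (nd (lf 0) (nd (lf 0) (lf 36866))) (lf 0))))))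

def p24 : Tr :=
  (nd (nd (nd (nd (nd (nd (nd (lf 1) (lf 266243)) (nd (lf 4098) (lf 1170949098330128385))) (nd (nd (lf 532483) (lf 1)) (nd (lf 8194) (lf 18023196750520323)))) (nd (nd (nd (lf 8194) (lf 4098)) (nd (lf 1) (lf 18023194619289602))) (nd (nd (lf 3853582444423543304116627799571546792413165905487629174696254276551594145747304449) (lf 121417268934231870003659422702124159071501615523467168048241228660115322632935837699)) (nd (lf 926562925550275236053620033386366039898925737911127577012288441190768204320770) (lf 22311635584284490675109083734415073949523970))))) (nd (nd (nd (nd (lf 1) (lf 0)) (nd (lf 4098) (lf 1074266113))) (lf 0)) (nd (nd (nd (lf 8194) (lf 0)) (nd (lf 1) (lf 16785410))) (nd (nd (lf 2148007937) (lf 0)) (nd (lf 16781314) (lf 68753039362)))))) (nd (nd (nd (nd (nd (lf 1) (lf 75162714113)) (nd (lf 0) (lf 77310197761))) (nd (nd (lf 142808449025) (lf 1)) (nd (lf 0) (lf 1074298883)))) (nd (nd (nd (lf 8194) (lf 4098)) (nd (lf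 0) (lf 1153485004349644802))) (nd (nd (lf 176788297153549802122498456939724546051) (lf 554635832744652020918249611267)) (nd (lf 0) (lf 184115997791612146659669679724658558958378950659))))) (nd (nd (nd (nd (lf 1) (lf 0)) (nd (lf 0) (lf 77310197761))) (lf 0)) (nd (nd (nd (lf 5369233409) (lf 0)) (nd (lf 0) (lf 32770))) (nd (nd (lf 5369233409) (lf 0)) (nd (lf 0) (lf 294915))))))) (nd (nd (nd (nd (lf 0) (nd (nd (lf 0) (lf 1)) (nd (lf 8194) (lf 16785410)))) (nd (nd (nd (lf 0) (lf 4098)) (nd (lf 1) (lf 1074266113))) (nd (nd (lf 0) (lf 16781314)) (nd (lf 2148007937) (lf 68753039362))))) (nd (lf 0) (nd (nd (lf 0) (nd (lf 1) (lf 1))) (nd (lf 0) (nd (lf 1) (lf 0)))))) (nd (nd (nd (lf 0) (nd (nd (lf 0) (lf 1)) (nd (lf 0) (lf 1074298883)))) (nd (nd (nd (lf 0) (lf 6442975233)) (nd (lf 0) (lf 32770))) (nd (nd (lf 0) (lf 16801794)) (nd (lf 0) (lf 557059))))) (nd (lf 0) (nd (nd (lf 0) (nd (lf 0) (lf 32770))) (lf 0))))))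

def p25 : Tr :=
  (nd (nd (nd (nd (nd (nd (nd (lf 1) (lf 266243)) (nd (lf 4098) (lf 1170949098330128385))) (nd (nd (lf 532483) (lf 1)) (nd (lf 8194) (lf 18023196750520323)))) (nd (nd (nd (lf 8194) (lf 4098)) (nd (lf 1) (lf 18023194619289602))) (nd (nd (lf 3853582444423543304116627799571546792413165905487629174696254276551594145747304449) (lf 121417268934231870003659422702124159071501615523467168048241228660115322632935837699)) (nd (lf 926562925550275236053620033386366039898925737911127577012288441190768204320770) (lf 22311635584284490675109083734415073949523970))))) (nd (nd (nd (nd (lf 1) (lf 0)) (nd (lf 4098) (lf 1074266113))) (lf 0)) (nd (nd (nd (lf 8194) (lf 0)) (nd (lf 1) (lf 16785410))) (nd (nd (lf 2148007937) (lf 0)) (nd (lf 16781314) (lf 68753039362)))))) (nd (nd (nd (nd (nd (lf 1) (lf 78399507150546145282)) (nd (lf 0) (lf 73015230465))) (nd (nd (lf 1) (lf 1)) (nd (lf 0) (lf 1)))) (nd (nd (nd (lf 8194) (lf 4098)) (nd (lf 0) (lf 68753039362)))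 (nd (nd (lf 2306406030034862081) (lf 396179507716123345731161702403)) (nd (lf 0) (lf 2876812470810851685603103275185842742490308611))))) (nd (nd (nd (nd (lf 1) (lf 0)) (nd (lf 0) (lf 1))) (lf 0)) (nd (lf 0) (nd (nd (lf 1) (lf 0)) (lf 0)))))) (nd (nd (nd (nd (nd (nd (lf 0) (lf 16781314)) (nd (lf 2148007937) (lf 481069895682))) (nd (nd (lf 0) (lf 1)) (nd (lf 8194) (lf 1153484592033329156)))) (nd (nd (nd (lf 0) (lf 4098)) (nd (lf 1) (lf 1153484455634563075))) (nd (nd (lf 0) (lf 16781314)) (nd (lf 2148007937) (lf 5073078885602008748978468319235))))) (nd (nd (nd (lf 0) (nd (lf 1) (lf 28674))) (lf 0)) (nd (nd (lf 0) (nd (lf 1) (lf 1074294787))) (nd (lf 0) (nd (lf 1) (lf 9277179719682)))))) (nd (nd (nd (nd (nd (lf 0) (lf 1)) (nd (lf 0) (lf 28674))) (nd (nd (lf 0) (lf 1)) (nd (lf 0) (lf 1)))) (nd (nd (nd (lf 0) (lf 274911481858)) (nd (lf 0) (lf 17594334081027))) (nd (nd (lf 0) (lf 16793602)) (nd (lf 0) (lf 637522934242668097597442))))) (nd (nd (nd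 (lf 0) (nd (lf 0) (lf 28674))) (lf 0)) (lf 0)))))

def p26 : Tr :=
  (nd (nd (nd (nd (nd (nd (nd (lf 1) (lf 266243)) (nd (lf 4098) (lf 1170949098330128385))) (nd (nd (lf 532483) (lf 1)) (nd (lf 8194) (lf 18023196750520323)))) (nd (nd (nd (lf 8194) (lf 4098)) (nd (lf 1) (lf 18023194619289602))) (nd (nd (lf 3853582444423543304116627799571546792413165905487629174696254276551594145747304449) (lf 121417268934231870003659422702124159071501615523467168048241228660115322632935837699)) (nd (lf 926562925550275236053620033386366039898925737911127577012288441190768204320770) (lf 22311635584284490675109083734415073949523970))))) (nd (nd (nd (nd (lf 1) (lf 0)) (nd (lf 4098) (lf 75102044979290701825))) (nd (nd (lf 2148007937) (lf 0)) (nd (lf 16781314) (lf 618508853250)))) (nd (nd (nd (lf 8194) (lf 0)) (nd (lf 1) (lf 1315064285348503554))) (nd (nd (lf 2148007937) (lf 0)) (nd (lf 16781314) (lf 5783713896787169025203699195906)))))) (nd (nd (nd (nd (nd (lf 1)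 (lf 1261021089820053506)) (nd (lf 0) (lf 75162714113))) (nd (nd (lf 2395928198048645121) (lf 1)) (nd (lf 0) (lf 1074286595)))) (nd (nd (nd (lf 8194) (lf 4098)) (nd (lf 0) (lf 68753039362))) (nd (nd (lf 176788297153549802122498456939724546051) (lf 554635832744652020918249611267)) (nd (lf 0) (lf 212271293784574672323129374422093550233923168918180067508964564995))))) (nd (nd (nd (nd (lf 1) (lf 0)) (nd (lf 0) (lf 4682589143041))) (nd (nd (lf 1) (lf 0)) (nd (lf 0) (lf 36866)))) (nd (nd (nd (lf 343630954498) (lf 0)) (nd (lf 0) (lf 5016572153858))) (nd (nd (lf 5369233409) (lf 0)) (nd (lf 0) (lf 2682146162998981323964914897848930308))))))) (nd (nd (nd (nd (nd (nd (lf 0) (lf 16781314)) (nd (lf 2148007937) (lf 549789372418))) (nd (nd (lf 0) (lf 1)) (nd (lf 8194) (lf 1153484592033333252)))) (nd (nd (nd (lf 0) (lf 4098)) (nd (lf 1) (lf 1153484455634567171))) (nd (nd (lf 0) (lf 16781314)) (nd (lf 2148007937) (lf 5073078885602008753376514834435))))) (nd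 (nd (nd (lf 0) (nd (lf 1) (lf 35186519871491))) (nd (lf 0) (nd (lf 1) (lf 39584566640643)))) (nd (nd (lf 0) (nd (lf 1) (lf 84164114262304260099))) (nd (lf 0) (nd (lf 1) (lf 713092153641110028540102868994)))))) (nd (nd (nd (nd (nd (lf 0) (lf 1)) (nd (lf 0) (lf 32770))) (nd (nd (lf 0) (lf 1)) (nd (lf 0) (lf 18023744408682498)))) (nd (nd (nd (lf 0) (lf 412350443522)) (nd (lf 0) (lf 26390427107331))) (nd (nd (lf 0) (lf 16801794)) (nd (lf 0) (lf 642245300725606462291970))))) (nd (nd (nd (lf 0) (nd (lf 0) (lf 32770))) (nd (lf 0) (nd (lf 0) (lf 36866)))) (nd (nd (lf 0) (nd (lf 0) (lf 1085443))) (lf 0))))))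

def p27 : Tr :=
  (nd (nd (nd (nd (nd (nd (nd (lf 1) (lf 266243)) (nd (lf 4098) (lf 1170949098330128385))) (nd (nd (lf 532483) (lf 1)) (nd (lf 8194) (lf 18023196750520323)))) (nd (nd (nd (lf 8194) (lf 4098)) (nd (lf 1) (lf 18023194619289602))) (nd (nd (lf 3853582444423543304116627799571546792413165905487629174696254276551594145747304449) (lf 121417268934231870003659422702124159071501615523467168048241228660115322632935837699)) (nd (lf 926562925550275236053620033386366039898925737911127577012288441190768204320770) (lf 22311635584284490675109083734415073949523970))))) (nd (nd (nd (nd (lf 1) (lf 0)) (nd (lf 4098) (lf 75156088174819147777))) (nd (nd (lf 20482) (lf 0)) (nd (lf 28674) (lf 885479766394079825922)))) (nd (nd (nd (lf 8194) (lf 0)) (nd (lf 1) (lf 1369107480876949506))) (nd (nd (lf 90080790788440065) (lf 0)) (nd (lf 126109585676177410) (lf 101022301316012816822404828996126646274)))))) (nd (nd (nd (nd (nd (lf 1) (lf 32770)) (nd (lf 0)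 (lf 9223935067339620353))) (nd (nd (lf 20482) (lf 1)) (nd (lf 0) (lf 18023950567100418)))) (nd (nd (nd (lf 8194) (lf 4098)) (nd (lf 0) (lf 1153485210508075010))) (nd (nd (lf 305605259991891516727251622167877673435111725217626871973623370232002948340798186915485346388185106931125592067) (lf 1251759142112688231295060317223757343811839830240590532946835989693398637066689507030702943258730013707339028791300)) (nd (lf 0) (lf 15383379154218930817656284297611832792999816291593681410751090672222320302682517538855277607120019459))))) (nd (nd (nd (nd (lf 1) (lf 0)) (nd (lf 0) (lf 80531423233))) (nd (nd (lf 20482) (lf 0)) (nd (lf 0) (lf 824667295746)))) (nd (nd (nd (lf 4741694242818) (lf 0)) (nd (lf 0) (lf 5222730608642))) (nd (nd (lf 1742415901706916788191825909141086128046081) (lf 0)) (nd (lf 0) (lf 4489915762600479200120955357658583195505548081778692))))))) (nd (nd (nd (nd (nd (nd (lf 0) (lf 32770)) (nd (lf 2105347) (lf 549789409282))) (nd (nd (lf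 0) (lf 1)) (nd (lf 8194) (lf 1153484592033341444)))) (nd (nd (nd (lf 0) (lf 4098)) (nd (lf 1) (lf 1153484455634575363))) (nd (nd (lf 0) (lf 4723519967873994883074)) (nd (lf 604610484041791590916098) (lf 85112170672398586479303899908873428995))))) (nd (nd (nd (lf 0) (nd (lf 24578) (lf 1412597630935042))) (nd (lf 0) (nd (lf 28674) (lf 56670705045163471577096)))) (nd (nd (lf 0) (nd (lf 1) (lf 87622878776124809219))) (nd (lf 0) (nd (lf 135409137808839695187075074) (lf 4821010320641451659784317535999565092817944718526466301665282)))))) (nd (nd (nd (nd (nd (lf 0) (lf 32770)) (nd (lf 0) (lf 549789409282))) (nd (nd (lf 0) (lf 1)) (nd (lf 0) (lf 1238596451686671387919687688)))) (nd (nd (nd (lf 0) (lf 39584566640643)) (nd (lf 0) (lf 48380659671043))) (nd (nd (lf 0) (lf 5444538685560347685264639742047561482244)) (nd (lf 0) (lf 17499073926481090871961750817233945386525839740510752425129490005293893382894955876875460965275574276))))) (nd (nd (nd (lf 0)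 (nd (lf 0) (lf 40962))) (nd (lf 0) (nd (lf 0) (lf 56670705045163471577096)))) (nd (nd (lf 0) (nd (lf 0) (lf 45058))) (nd (lf 0) (nd (lf 0) (lf 1096170856717810408594399249172290741298929639436))))))))

def p28 : Tr :=
  (nd (nd (nd (nd (nd (nd (nd (lf 1) (lf 266243)) (nd (lf 4098) (lf 1170949098330128385))) (nd (nd (lf 532483) (lf 1)) (nd (lf 8194) (lf 18023196750520323)))) (nd (nd (nd (lf 8194) (lf 4098)) (nd (lf 1) (lf 18023194619289602))) (nd (nd (lf 3853582444423543304116627799571546792413165905487629174696254276551594145747304449) (lf 121417268934231870003659422702124159071501615523467168048241228660115322632935837699)) (nd (lf 926562925550275236053620033386366039898925737911127577012288441190768204320770) (lf 22311635584284490675109083734415073949523970))))) (nd (nd (nd (nd (lf 1) (lf 0)) (nd (lf 4098) (lf 75138073776309665793))) (nd (nd (lf 1843203) (lf 0)) (nd (lf 28674) (lf 3324693669653868558426116)))) (nd (nd (nd (lf 8194) (lf 0))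 (nd (lf 1) (lf 1351093082367467522))) (nd (nd (lf 8106492525554434049) (lf 0)) (nd (lf 126109585676177410) (lf 6380356692493347720728780032550698491906)))))) (nd (nd (nd (nd (nd (lf 1) (lf 83011193170014502913)) (nd (lf 0) (lf 77310197761))) (nd (nd (lf 518815521640819720193) (lf 1)) (nd (lf 0) (lf 1074286595)))) (nd (nd (nd (lf 8194) (lf 4098)) (nd (lf 0) (lf 68753039362))) (nd (nd (lf 2824700379188152094919923650989474832354392377606018229870595) (lf 947862059686785994936197531805037333414145931635307293405055815683)) (nd (lf 0) (lf 947862059686785994936197510118682252755020177805277637098791510019))))) (nd (nd (nd (nd (lf 1) (lf 0)) (nd (lf 0) (lf 17672717729793))) (nd (nd (lf 1) (lf 0)) (nd (lf 0) (lf 45058)))) (nd (nd (nd (lf 343630954498) (lf 0)) (nd (lf 0) (lf 5154011107330))) (nd (nd (lf 5369233409) (lf 0)) (nd (lf 0) (lf 228471205478881974348104667767287812))))))) (nd (nd (nd (nd (nd (nd (lf 0) (lf 1576963)) (nd (lf 24578) (lf 26457048915970)))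 (nd (nd (lf 0) (lf 1)) (nd (lf 8194) (lf 1153484592033341444)))) (nd (nd (nd (lf 0) (lf 4098)) (nd (lf 1) (lf 1153484455634575363))) (nd (nd (lf 0) (lf 19347537787853196783783939)) (nd (lf 604610484041791590916098) (lf 5447178278912224023361456174412482519043))))) (nd (nd (nd (lf 0) (nd (lf 24578) (lf 1131053934747650))) (nd (lf 0) (nd (lf 28674) (lf 3096362300776452)))) (nd (nd (lf 0) (nd (lf 1) (lf 86469957271517962243))) (nd (lf 0) (nd (lf 135409137808839695187075074) (lf 4115771324562430055286666517879580778023353428516866)))))) (nd (nd (nd (nd (nd (lf 0) (lf 1)) (nd (lf 0) (lf 40962))) (nd (nd (lf 0) (lf 1)) (nd (lf 0) (lf 68754644996)))) (nd (nd (nd (lf 0) (lf 549789405186)) (nd (lf 0) (lf 35186520137731))) (nd (nd (lf 0) (lf 16809986)) (nd (lf 0) (lf 2786316618665610095430034107866324996))))) (nd (nd (nd (lf 0) (nd (lf 0) (lf 40962))) (nd (lf 0) (nd (lf 0) (lf 45058)))) (nd (nd (lf 0) (nd (lf 0) (lf 1613827))) (lf 0))))))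

def p29 : Tr :=
  (nd (nd (nd (nd (nd (nd (nd (lf 1) (lf 266243)) (nd (lf 4098) (lf 1170949098330128385))) (nd (nd (lf 532483) (lf 1)) (nd (lf 8194) (lf 18023196750520323)))) (nd (nd (nd (lf 8194) (lf 4098)) (nd (lf 1) (lf 18023194619289602))) (nd (nd (lf 3853582444423543304116627799571546792413165905487629174696254276551594145747304449) (lf 121417268934231870003659422702124159071501615523467168048241228660115322632935837699)) (nd (lf 926562925550275236053620033386366039898925737911127577012288441190768204320770) (lf 22311635584284490675109083734415073949523970))))) (nd (nd (nd (nd (lf 1) (lf 0)) (nd (lf 4098) (lf 75084030580781219841))) (nd (nd (lf 1843203) (lf 0)) (nd (lf 28674) (lf 590331869944199520259)))) (nd (nd (nd (lf 8194) (lf 0)) (nd (lf 1) (lf 1297049886839021570))) (nd (nd (lf 8106492525554434049) (lf 0)) (nd (lf 126109585676177410) (lf 6125144917298930053013392936152174960642)))))) (nd (nd (nd (nd (nd (lf 1) (lf 1)) (nd (lf 0)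 (lf 1))) (nd (nd (lf 33204193385081181589506) (lf 1)) (nd (lf 0) (lf 1074290691)))) (nd (nd (nd (lf 8194) (lf 4098)) (nd (lf 0) (lf 68753039362))) (nd (nd (lf 2824700379193998101474691780533024587100671503403550251425795) (lf 18023263372316674)) (nd (lf 0) (lf 2876812465493939789081458731725835520859971587))))) (nd (nd (nd (nd (lf 1) (lf 0)) (nd (lf 0) (lf 1))) (nd (nd (lf 1) (lf 0)) (nd (lf 0) (lf 32770)))) (nd (nd (nd (lf 412350431234) (lf 0)) (nd (lf 0) (lf 4947852681218))) (nd (nd (lf 6442975233) (lf 0)) (nd (lf 0) (lf 2417999249527308688850947))))))) (nd (nd (nd (nd (lf 0) (nd (nd (lf 0) (lf 1)) (nd (lf 8194) (lf 16785410)))) (nd (nd (nd (lf 0) (lf 4098)) (nd (lf 1) (lf 1074266113))) (nd (nd (lf 0) (lf 16781314)) (nd (lf 2148007937) (lf 68753039362))))) (nd (nd (lf 0) (nd (lf 0) (nd (lf 28674) (lf 32770)))) (nd (nd (lf 0) (nd (lf 1) (lf 77310197761))) (nd (lf 0) (nd (lf 8071013558437806081) (lf 35186519867395)))))) (nd (nd (nd (lf 0) (nd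 (nd (lf 0) (lf 1)) (nd (lf 0) (lf 1)))) (nd (lf 0) (nd (nd (lf 0) (lf 1)) (lf 0)))) (nd (nd (lf 0) (nd (lf 0) (nd (lf 0) (lf 32770)))) (lf 0)))))

def p30 : Tr :=
  (nd (nd (nd (nd (nd (nd (nd (lf 1) (lf 266243)) (nd (lf 4098) (lf 1170949098330128385))) (nd (nd (lf 532483) (lf 1)) (nd (lf 8194) (lf 18023196750520323)))) (nd (nd (nd (lf 8194) (lf 4098)) (nd (lf 1) (lf 18023194619289602))) (nd (nd (lf 3853582444423543304116627799571546792413165905487629174696254276551594145747304449) (lf 121417268934231870003659422702124159071501615523467168048241228660115322632935837699)) (nd (lf 926562925550275236053620033386366039898925737911127577012288441190768204320770) (lf 22311635584284490675109083734415073949523970))))) (nd (nd (nd (nd (lf 1) (lf 0)) (nd (lf 4098) (lf 1074266113))) (lf 0)) (nd (nd (nd (lf 8194) (lf 0)) (nd (lf 1) (lf 16785410))) (nd (nd (lf 2148007937) (lf 0)) (nd (lf 16781314) (lf 68753039362)))))) (nd (nd (nd (nd (nd (lf 1) (lf 1))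 (nd (lf 0) (lf 75162714113))) (nd (nd (lf 142808449025) (lf 1)) (nd (lf 0) (lf 1074290691)))) (nd (nd (nd (lf 8194) (lf 4098)) (nd (lf 0) (lf 1153484866910691330))) (nd (nd (lf 176788297153549802122498456939724546051) (lf 18023263372316674)) (nd (lf 0) (lf 184115997791612146501213354548555931181614637059))))) (nd (nd (nd (nd (lf 1) (lf 0)) (nd (lf 0) (lf 75162714113))) (lf 0)) (nd (nd (nd (lf 5369233409) (lf 0)) (nd (lf 0) (lf 24578))) (nd (nd (lf 5369233409) (lf 0)) (nd (lf 0) (lf 286723))))))) (nd (nd (nd (nd (lf 0) (nd (nd (lf 0) (lf 1)) (nd (lf 8194) (lf 16785410)))) (nd (nd (nd (lf 0) (lf 4098)) (nd (lf 1) (lf 1074266113))) (nd (nd (lf 0) (lf 16781314)) (nd (lf 2148007937) (lf 68753039362))))) (nd (lf 0) (nd (nd (lf 0) (nd (lf 1) (lf 1))) (nd (lf 0) (nd (lf 1) (lf 0)))))) (nd (nd (nd (lf 0) (nd (nd (lf 0) (lf 1)) (nd (lf 0) (lf 1074290691)))) (nd (nd (nd (lf 0) (lf 1)) (nd (lf 0) (lf 24578))) (nd (nd (lf 0) (lf 1)) (nd (lf 0) (lf 548867)))))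 (nd (lf 0) (nd (nd (lf 0) (nd (lf 0) (lf 24578))) (lf 0))))))

def p31 : Tr :=
  (nd (nd (nd (nd (nd (nd (nd (lf 1) (lf 266243)) (nd (lf 4098) (lf 1170949098330128385))) (nd (nd (lf 532483) (lf 1)) (nd (lf 8194) (lf 18023196750520323)))) (nd (nd (nd (lf 8194) (lf 4098)) (nd (lf 1) (lf 18023194619289602))) (nd (nd (lf 3853582444423543304116627799571546792413165905487629174696254276551594145747304449) (lf 121417268934231870003659422702124159071501615523467168048241228660115322632935837699)) (nd (lf 926562925550275236053620033386366039898925737911127577012288441190768204320770) (lf 22311635584284490675109083734415073949523970))))) (nd (nd (nd (nd (lf 1) (lf 0)) (nd (lf 4098) (lf 1074266113))) (lf 0)) (nd (nd (nd (lf 8194) (lf 0)) (nd (lf 1) (lf 16785410))) (nd (nd (lf 2148007937) (lf 0)) (nd (lf 16781314) (lf 68753039362)))))) (nd (nd (nd (nd (nd (lf 1) (lf 275952435201)) (nd (lf 0) (lf 275952435201))) (nd (nd (lf 1) (lf 1)) (nd (lf 0) (lf 1))))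 (nd (nd (nd (lf 8194) (lf 4098)) (nd (lf 0) (lf 68753039362))) (nd (nd (lf 2306406030034862081) (lf 11064514631454105222258079945389616664579)) (nd (lf 0) (lf 159695171836001780323966001155))))) (nd (nd (nd (nd (lf 1) (lf 0)) (nd (lf 0) (lf 1))) (lf 0)) (nd (lf 0) (nd (nd (lf 1) (lf 0)) (lf 0)))))) (nd (nd (nd (nd (nd (nd (lf 0) (lf 1052675)) (nd (lf 16386) (lf 17660955873282))) (nd (nd (lf 0) (lf 1)) (nd (lf 8194) (lf 1153484592033320964)))) (nd (nd (nd (lf 0) (lf 4098)) (nd (lf 1) (lf 1153484455634554883))) (nd (nd (lf 0) (lf 19347537787290246829838339)) (nd (lf 604610484041654151954434) (lf 5447177629875116706508002586110208790531))))) (nd (nd (nd (lf 0) (nd (lf 16386) (lf 20482))) (lf 0)) (nd (nd (lf 0) (nd (lf 1) (lf 1074286595))) (nd (lf 0) (nd (lf 16793602) (lf 9139740758018)))))) (nd (nd (nd (nd (nd (lf 0) (lf 1)) (nd (lf 0) (lf 20482))) (nd (nd (lf 0) (lf 1)) (nd (lf 0) (lf 1)))) (nd (nd (nd (lf 0) (lf 1)) (nd (lf 0) (lf 544771)))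 (nd (nd (lf 0) (lf 1)) (nd (lf 0) (lf 628078201276791368208386))))) (nd (nd (nd (lf 0) (nd (lf 0) (lf 20482))) (lf 0)) (lf 0)))))

def p32 : Tr :=
  (nd (nd (nd (nd (nd (nd (nd (lf 1) (lf 266243)) (nd (lf 4098) (lf 1170949098330128385))) (nd (nd (lf 532483) (lf 1)) (nd (lf 8194) (lf 18023196750520323)))) (nd (nd (nd (lf 8194) (lf 4098)) (nd (lf 1) (lf 18023194619289602))) (nd (nd (lf 3853582444423543304116627799571546792413165905487629174696254276551594145747304449) (lf 121417268934231870003659422702124159071501615523467168048241228660115322632935837699)) (nd (lf 926562925550275236053620033386366039898925737911127577012288441190768204320770) (lf 22311635584284490675109083734415073949523970))))) (nd (nd (nd (nd (lf 1) (lf 0)) (nd (lf 4098) (lf 75138073776309665793))) (nd (nd (lf 1843203) (lf 0)) (nd (lf 28674) (lf 3324693669653868558426116)))) (nd (nd (nd (lf 8194) (lf 0)) (nd (lf 1) (lf 1351093082367467522))) (nd (nd (lf 8106492525554434049)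 (lf 0)) (nd (lf 126109585676177410) (lf 6380356692493347720728780032550698491906)))))) (nd (nd (nd (nd (nd (lf 1) (lf 83011193170014502913)) (nd (lf 0) (lf 77310197761))) (nd (nd (lf 518815521640819720193) (lf 1)) (nd (lf 0) (lf 1074286595)))) (nd (nd (nd (lf 8194) (lf 4098)) (nd (lf 0) (lf 68753039362))) (nd (nd (lf 2824700379188152094919923650989474832354392377606018229870595) (lf 947862059686785994936197531805037333414145931635307293405055815683)) (nd (lf 0) (lf 51824046382015161512198036909423266815687417388208685127573507))))) (nd (nd (nd (nd (lf 1) (lf 0)) (nd (lf 0) (lf 17672717729793))) (nd (nd (lf 1) (lf 0)) (nd (lf 0) (lf 45058)))) (nd (nd (nd (lf 343630954498) (lf 0)) (nd (lf 0) (lf 5154011107330))) (nd (nd (lf 5369233409) (lf 0)) (nd (lf 0) (lf 228471205478881974348104667767287812))))))) (nd (nd (nd (nd (nd (nd (lf 0) (lf 1576963)) (nd (lf 24578) (lf 26457048915970))) (nd (nd (lf 0) (lf 1)) (nd (lf 8194) (lf 1153484592033341444))))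 (nd (nd (nd (lf 0) (lf 4098)) (nd (lf 1) (lf 1153484455634575363))) (nd (nd (lf 0) (lf 19347537787853196783783939)) (nd (lf 604610484041791590916098) (lf 5447178278912224023361456174412482519043))))) (nd (nd (nd (lf 0) (nd (lf 24578) (lf 1131053934747650))) (nd (lf 0) (nd (lf 28674) (lf 3096362250444804)))) (nd (nd (lf 0) (nd (lf 1) (lf 86469957271517962243))) (nd (lf 0) (nd (lf 135409137808839695187075074) (lf 4115771324562430055286666516972886413312381547487234)))))) (nd (nd (nd (nd (nd (lf 0) (lf 1)) (nd (lf 0) (lf 40962))) (nd (nd (lf 0) (lf 1)) (nd (lf 0) (lf 68787150852)))) (nd (nd (nd (lf 0) (lf 549789405186)) (nd (lf 0) (lf 35186520137731))) (nd (nd (lf 0) (lf 16809986)) (nd (lf 0) (lf 83776497820295071863850633116819460))))) (nd (nd (nd (lf 0) (nd (lf 0) (lf 40962))) (nd (lf 0) (nd (lf 0) (lf 45058)))) (nd (nd (lf 0) (nd (lf 0) (lf 755947839490))) (lf 0))))))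

def p33 : Tr :=
  (nd (nd (nd (nd (nd (nd (nd (lf 1) (lf 266243)) (nd (lf 4098) (lf 1170949098330128385))) (nd (nd (lf 532483) (lf 1)) (nd (lf 8194) (lf 18023196750520323)))) (nd (nd (nd (lf 8194) (lf 4098)) (nd (lf 1) (lf 18023194619289602))) (nd (nd (lf 3853582444423543304116627799571546792413165905487629174696254276551594145747304449) (lf 121417268934231870003659422702124159071501615523467168048241228660115322632935837699)) (nd (lf 926562925550275236053620033386366039898925737911127577012288441190768204320770) (lf 22311635584284490675109083734415073949523970))))) (nd (nd (nd (nd (lf 1) (lf 0)) (nd (lf 4098) (lf 75102044979290701825))) (nd (nd (lf 2148007937) (lf 0)) (nd (lf 16781314) (lf 618508853250)))) (nd (nd (nd (lf 8194) (lf 0)) (nd (lf 1) (lf 1315064285348503554))) (nd (nd (lf 2148007937) (lf 0)) (nd (lf 16781314) (lf 5783713896787169025203699195906)))))) (nd (nd (nd (nd (nd (lf 1) (lf 1261021089820053506)) (nd (lf 0) (lf 75162714113)))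 (nd (nd (lf 2395928198048645121) (lf 1)) (nd (lf 0) (lf 1074286595)))) (nd (nd (nd (lf 8194) (lf 4098)) (nd (lf 0) (lf 68753039362))) (nd (nd (lf 176788297153549802122498456939724546051) (lf 554635832744652020918249611267)) (nd (lf 0) (lf 737237476349671621540361454748682932125660155258371800469608865795))))) (nd (nd (nd (nd (lf 1) (lf 0)) (nd (lf 0) (lf 18053983075864579))) (nd (nd (lf 1) (lf 0)) (nd (lf 0) (lf 36866)))) (nd (nd (nd (lf 343630954498) (lf 0)) (nd (lf 0) (lf 5016572153858))) (nd (nd (lf 5369233409) (lf 0)) (nd (lf 0) (lf 2720230704435364029042691))))))) (nd (nd (nd (nd (nd (nd (lf 0) (lf 16781314)) (nd (lf 2148007937) (lf 549789372418))) (nd (nd (lf 0) (lf 1)) (nd (lf 8194) (lf 1153484592033333252)))) (nd (nd (nd (lf 0) (lf 4098)) (nd (lf 1) (lf 1153484455634567171))) (nd (nd (lf 0) (lf 16781314)) (nd (lf 2148007937) (lf 5073078885602008753376514834435))))) (nd (nd (nd (lf 0) (nd (lf 1) (lf 35186519871491))) (nd (lf 0) (nd (lf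 1) (lf 39584566640643)))) (nd (nd (lf 0) (nd (lf 1) (lf 84164114262304260099))) (nd (lf 0) (nd (lf 1) (lf 713092153641110028540102868994)))))) (nd (nd (nd (nd (nd (lf 0) (lf 1)) (nd (lf 0) (lf 32770))) (nd (nd (lf 0) (lf 1)) (nd (lf 0) (lf 68754636804)))) (nd (nd (nd (lf 0) (lf 412350443522)) (nd (lf 0) (lf 26390427107331))) (nd (nd (lf 0) (lf 16801794)) (nd (lf 0) (lf 2785667581557688779084111929793871876))))) (nd (nd (nd (lf 0) (nd (lf 0) (lf 32770))) (nd (lf 0) (nd (lf 0) (lf 36866)))) (nd (nd (lf 0) (nd (lf 0) (lf 1605635))) (lf 0))))))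

def p34 : Tr :=
  (nd (nd (nd (nd (nd (nd (nd (lf 1) (lf 266243)) (nd (lf 4098) (lf 1170949098330128385))) (nd (nd (lf 532483) (lf 1)) (nd (lf 8194) (lf 18023196750520323)))) (nd (nd (nd (lf 8194) (lf 4098)) (nd (lf 1) (lf 18023194619289602))) (nd (nd (lf 3853582444423543304116627799571546792413165905487629174696254276551594145747304449) (lf 121417268934231870003659422702124159071501615523467168048241228660115322632935837699)) (nd (lf 926562925550275236053620033386366039898925737911127577012288441190768204320770) (lf 22311635584284490675109083734415073949523970))))) (nd (nd (nd (nd (lf 1) (lf 0)) (nd (lf 4098) (lf 75210131370347593729))) (nd (nd (lf 24578) (lf 0)) (nd (lf 36866) (lf 1106840699676640960514)))) (nd (nd (nd (lf 8194) (lf 0)) (nd (lf 1) (lf 1423150676405395458))) (nd (nd (lf 108095189297922049) (lf 0)) (nd (lf 162138382695141378) (lf 105009985303425592880457752446073053186)))))) (nd (nd (nd (nd (nd (lf 1) (lf 40962)) (nd (lf 0)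 (lf 10737942529))) (nd (nd (lf 24578) (lf 1)) (nd (lf 0) (lf 16801794)))) (nd (nd (nd (lf 8194) (lf 4098)) (nd (lf 0) (lf 68753039362))) (nd (nd (lf 1252059759524132079514615440226525463593095767240175947826857661400238031395368338585741880265370295007077118255107) (lf 5128436758787208323070345630785778681510596703675296509637288490878508981026227403888684312130387322819737451259015172)) (nd (lf 0) (lf 1021541307242989370616935192220472293505682526660901424417536435518685061123))))) (nd (nd (nd (nd (lf 1) (lf 0)) (nd (lf 0) (lf 497143250945))) (nd (nd (lf 24578) (lf 0)) (nd (lf 0) (lf 1030825730050)))) (nd (nd (nd (lf 4810413723650) (lf 0)) (nd (lf 0) (lf 5428889014274))) (nd (nd (lf 133815362908422334693733892839065903117631489) (lf 0)) (nd (lf 0) (lf 92983692427184672577463407133215858895374485393418033090447985268418737146726482432875072043955135104146840066371466063876))))))) (nd (nd (nd (nd (nd (nd (lf 0) (lf 40962)) (nd (lf 2629635) (lf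 687228379138))) (nd (nd (lf 0) (lf 1)) (nd (lf 8194) (lf 1153484592033357828)))) (nd (nd (nd (lf 0) (lf 4098)) (nd (lf 1) (lf 1153484455634591747))) (nd (nd (lf 0) (lf 4723519968011433844738)) (nd (lf 604610484041929029877762) (lf 85112180813603388305139129474685132803))))) (nd (nd (nd (lf 0) (nd (lf 32770) (lf 31817168117762))) (nd (lf 0) (nd (lf 36866) (lf 65972847042563)))) (nd (nd (lf 0) (nd (lf 1) (lf 91081643289945366531))) (nd (lf 0) (nd (lf 174094764072536625796644866) (lf 1370202393208757637995771980074618399564052357122)))))) (nd (nd (nd (nd (nd (lf 0) (lf 40962)) (nd (lf 0) (lf 687228379138))) (nd (nd (lf 0) (lf 1)) (nd (lf 0) (lf 1075634179)))) (nd (nd (nd (lf 0) (lf 52778706182147)) (nd (lf 0) (lf 52778706198531))) (nd (nd (lf 0) (lf 289920576637469608010281922030719174758150148)) (nd (lf 0) (lf 5095078111410054350595304769880388571822830191435714407331662256057684599562244))))) (nd (nd (nd (lf 0) (nd (lf 0) (lf 31817168117762)))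 (nd (lf 0) (nd (lf 0) (lf 65972847042563)))) (nd (nd (lf 0) (nd (lf 0) (lf 2317773734207491))) (nd (lf 0) (nd (lf 0) (lf 64242284951118809569043687698390067732356204639664617873411))))))))

def p35 : Tr :=
  (nd (nd (nd (nd (nd (nd (nd (lf 1) (lf 266243)) (nd (lf 4098) (lf 1170949098330128385))) (nd (nd (lf 532483) (lf 1)) (nd (lf 8194) (lf 18023196750520323)))) (nd (nd (nd (lf 8194) (lf 4098)) (nd (lf 1) (lf 18023194619289602))) (nd (nd (lf 3853582444423543304116627799571546792413165905487629174696254276551594145747304449) (lf 121417268934231870003659422702124159071501615523467168048241228660115322632935837699)) (nd (lf 926562925550275236053620033386366039898925737911127577012288441190768204320770) (lf 22311635584284490675109083734415073949523970))))) (nd (nd (nd (nd (lf 1) (lf 0)) (nd (lf 4098) (lf 75138073776309665793))) (nd (nd (lf 28674) (lf 0)) (nd (lf 36866) (lf 811692798895334649858)))) (nd (nd (nd (lf 8194) (lf 0)) (nd (lf 1) (lf 1351093082367467522)))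 (nd (nd (lf 126109587807404033) (lf 0)) (nd (lf 162138382695141378) (lf 99693073320208558136387188006489956354)))))) (nd (nd (nd (nd (nd (lf 1) (lf 40962)) (nd (lf 0) (lf 10737942529))) (nd (nd (lf 28674) (lf 1)) (nd (lf 0) (lf 16805890)))) (nd (nd (nd (lf 8194) (lf 4098)) (nd (lf 0) (lf 68753039362))) (nd (nd (lf 26004166974101441934772206016216714204391561676227328001705807819994019775612068894502728941158097031424651702253902280173547966889205821231704842243) (lf 4568801282540809283398834549032045016293381)) (nd (lf 0) (lf 933579020448625958590532047841680047701529410027634285878095069890498699468803))))) (nd (nd (nd (nd (lf 1) (lf 0)) (nd (lf 0) (lf 492848283649))) (nd (nd (lf 28674) (lf 0)) (nd (lf 0) (lf 755947827202)))) (nd (nd (nd (lf 4879133204482) (lf 0)) (nd (lf 0) (lf 5154011111426))) (nd (nd (lf 156116108106952957835571842584632321500512257) (lf 0)) (nd (lf 0) (lf 899576005105894512325672734088967208001779974758558105604)))))))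 (nd (nd (nd (nd (lf 0) (nd (nd (lf 0) (lf 1)) (nd (lf 8194) (lf 16785410)))) (nd (nd (nd (lf 0) (lf 4098)) (nd (lf 1) (lf 1074266113))) (nd (nd (lf 0) (lf 16781314)) (nd (lf 2148007937) (lf 68753039362))))) (nd (nd (lf 0) (nd (lf 0) (nd (lf 36866) (lf 45058)))) (nd (nd (lf 0) (nd (lf 1) (lf 80531423233))) (nd (lf 0) (nd (lf 10376856569798983681) (lf 48380659412995)))))) (nd (nd (nd (lf 0) (nd (nd (lf 0) (lf 1)) (nd (lf 0) (lf 1)))) (nd (lf 0) (nd (nd (lf 0) (lf 1)) (lf 0)))) (nd (nd (lf 0) (nd (lf 0) (nd (lf 0) (lf 45058)))) (lf 0)))))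

def p36 : Tr :=
  (nd (nd (nd (nd (nd (nd (nd (lf 1) (lf 266243)) (nd (lf 4098) (lf 1170949098330128385))) (nd (nd (lf 532483) (lf 1)) (nd (lf 8194) (lf 18023196750520323)))) (nd (nd (nd (lf 8194) (lf 4098)) (nd (lf 1) (lf 18023194619289602))) (nd (nd (lf 3853582444423543304116627799571546792413165905487629174696254276551594145747304449) (lf 121417268934231870003659422702124159071501615523467168048241228660115322632935837699)) (nd (lf 926562925550275236053620033386366039898925737911127577012288441190768204320770) (lf 22311635584284490675109083734415073949523970))))) (nd (nd (nd (nd (lf 1) (lf 0)) (nd (lf 4098) (lf 1074266113))) (lf 0)) (nd (nd (nd (lf 8194) (lf 0)) (nd (lf 1) (lf 16785410))) (nd (nd (lf 2148007937) (lf 0)) (nd (lf 16781314) (lf 68753039362)))))) (nd (nd (nd (nd (nd (lf 1) (lf 28674)) (nd (lf 0) (lf 7516717057))) (nd (nd (lf 16386) (lf 1)) (nd (lf 0) (lf 16793602)))) (nd (nd (nd (lf 8194) (lf 4098)) (nd (lf 0) (lf 68753039362)))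 (nd (nd (lf 159771655212041729237783937025) (lf 114326772638532399638725431943825636692913538540201712827000324698610499742529065033088910815071189429752588190186205344452132125284429586371286572077708304998404)) (nd (lf 0) (lf 354704637249695309481954336483253982914113444415351410443697584175950914310808079589631453110937212964161499764629507))))) (nd (nd (nd (nd (lf 1) (lf 0)) (nd (lf 0) (lf 1))) (lf 0)) (nd (lf 0) (nd (nd (lf 1) (lf 0)) (lf 0)))))) (nd (nd (nd (nd (nd (nd (lf 0) (lf 28674)) (nd (lf 1843203) (lf 481069940738))) (nd (nd (lf 0) (lf 1)) (nd (lf 8194) (lf 1153484592033349636)))) (nd (nd (nd (lf 0) (lf 4098)) (nd (lf 1) (lf 1153484455634583555))) (nd (nd (lf 0) (lf 4723519967805275402242)) (nd (lf 604610484041722871435266) (lf 85112165601796185566386302718153637891))))) (nd (nd (nd (lf 0) (nd (lf 20482) (lf 49154))) (lf 0)) (nd (nd (lf 0) (nd (lf 1) (lf 1074315267))) (nd (lf 0) (nd (lf 16797698) (lf 9620777123842)))))) (nd (nd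 (nd (nd (nd (lf 0) (lf 28674)) (nd (lf 0) (lf 481069940738))) (nd (nd (lf 0) (lf 1)) (nd (lf 0) (lf 1075101699)))) (nd (nd (nd (lf 0) (lf 35186520125443)) (nd (lf 0) (lf 35186520145923))) (nd (nd (lf 0) (lf 245319086240393149919984134899345718151503876)) (nd (lf 0) (lf 686605898830829401685747292748118967961781484691030327300))))) (nd (nd (nd (lf 0) (nd (lf 0) (lf 49154))) (lf 0)) (lf 0)))))

def p37 : Tr :=
  (nd (nd (nd (nd (nd (nd (nd (lf 1) (lf 266243)) (nd (lf 4098) (lf 1170949098330128385))) (nd (nd (lf 532483) (lf 1)) (nd (lf 8194) (lf 18023196750520323)))) (nd (nd (nd (lf 8194) (lf 4098)) (nd (lf 1) (lf 18023194619289602))) (nd (nd (lf 3853582444423543304116627799571546792413165905487629174696254276551594145747304449) (lf 121417268934231870003659422702124159071501615523467168048241228660115322632935837699)) (nd (lf 926562925550275236053620033386366039898925737911127577012288441190768204320770) (lf 22311635584284490675109083734415073949523970)))))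 (nd (nd (nd (nd (lf 1) (lf 0)) (nd (lf 4098) (lf 1074266113))) (lf 0)) (nd (nd (nd (lf 8194) (lf 0)) (nd (lf 1) (lf 16785410))) (nd (nd (lf 2148007937) (lf 0)) (nd (lf 16781314) (lf 68753039362)))))) (nd (nd (nd (nd (nd (lf 1) (lf 28674)) (nd (lf 0) (lf 7516717057))) (nd (nd (lf 20482) (lf 1)) (nd (lf 0) (lf 16797698)))) (nd (nd (nd (lf 8194) (lf 4098)) (nd (lf 0) (lf 68753039362))) (nd (nd (lf 159790998025155563304579235841) (lf 434658528178567014947745974765119631364)) (nd (lf 0) (lf 754139126954443330042040317390990192213353870663683))))) (nd (nd (nd (nd (lf 1) (lf 0)) (nd (lf 0) (lf 1))) (lf 0)) (nd (lf 0) (nd (nd (lf 1) (lf 0)) (lf 0)))))) (nd (nd (nd (nd (lf 0) (nd (nd (lf 0) (lf 1)) (nd (lf 8194) (lf 16785410)))) (nd (nd (nd (lf 0) (lf 4098)) (nd (lf 1) (lf 1074266113))) (nd (nd (lf 0) (lf 16781314)) (nd (lf 2148007937) (lf 68753039362))))) (nd (lf 0) (nd (nd (lf 0) (nd (lf 1) (lf 1))) (nd (lf 0) (nd (lf 1) (lf 0)))))) (nd (nd (nd (lf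 0) (nd (nd (lf 0) (lf 1)) (nd (lf 0) (lf 1)))) (nd (lf 0) (nd (nd (lf 0) (lf 1)) (lf 0)))) (lf 0))))

def p38 : Tr :=
  (nd (nd (nd (nd (nd (nd (nd (lf 1) (lf 266243)) (nd (lf 4098) (lf 1170949098330128385))) (nd (nd (lf 532483) (lf 1)) (nd (lf 8194) (lf 18023196750520323)))) (nd (nd (nd (lf 8194) (lf 4098)) (nd (lf 1) (lf 18023194619289602))) (nd (nd (lf 3853582444423543304116627799571546792413165905487629174696254276551594145747304449) (lf 121417268934231870003659422702124159071501615523467168048241228660115322632935837699)) (nd (lf 926562925550275236053620033386366039898925737911127577012288441190768204320770) (lf 22311635584284490675109083734415073949523970))))) (nd (nd (nd (nd (lf 1) (lf 0)) (nd (lf 4098) (lf 75174102573328629761))) (nd (nd (lf 24578) (lf 0)) (nd (lf 36866) (lf 959266747086964547586)))) (nd (nd (nd (lf 8194) (lf 0)) (nd (lf 1) (lf 1387121879386431490))) (nd (nd (lf 108095189297922049) (lf 0)) (nd (lf 162138382695141378)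 (lf 102351529311817075508422470191921766402)))))) (nd (nd (nd (nd (nd (lf 1) (lf 85317036316667150337)) (nd (lf 0) (lf 79457681409))) (nd (nd (lf 24578) (lf 1)) (nd (lf 0) (lf 16801794)))) (nd (nd (nd (lf 8194) (lf 4098)) (nd (lf 0) (lf 68753039362))) (nd (nd (lf 26004166974101441934769498330807158719130192425090525875324686842172619751496781644651283433613587784063143607630285586268194353180764557268528406531) (lf 1158486643023900368332033598061414588559074279562580048731546062851)) (nd (lf 0) (lf 244732139867266724523132641172513739874661454429506664052066399707263142441810927619))))) (nd (nd (nd (nd (lf 1) (lf 0)) (nd (lf 0) (lf 4893042540545))) (nd (nd (lf 24578) (lf 0)) (nd (lf 0) (lf 893386776578)))) (nd (nd (nd (lf 4810413723650) (lf 0)) (nd (lf 0) (lf 5291450060802))) (nd (nd (lf 133815362908097816140075466112282747097055233) (lf 0)) (nd (lf 0) (lf 3093800567565189863459514515643793933109092838157873156))))))) (nd (nd (nd (nd (nd (nd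 (lf 0) (lf 2101251)) (nd (lf 32770) (lf 35253141946370))) (nd (nd (lf 0) (lf 1)) (nd (lf 8194) (lf 1153484592033349636)))) (nd (nd (nd (lf 0) (lf 4098)) (nd (lf 1) (lf 1153484455634583555))) (nd (nd (lf 0) (lf 19347537788416146737729539)) (nd (lf 604610484041929029877762) (lf 5447178927949331340214909749520616701955))))) (nd (nd (nd (lf 0) (nd (lf 32770) (lf 1694141327130626))) (nd (lf 0) (nd (lf 36866) (lf 3659312203874308)))) (nd (nd (lf 0) (nd (lf 1) (lf 88775800280731664387))) (nd (lf 0) (nd (lf 174094764072536625796644866) (lf 4864060163572750678409551197577208952805151681331202)))))) (nd (nd (nd (nd (nd (lf 0) (lf 1)) (nd (lf 0) (lf 49154))) (nd (nd (lf 0) (lf 1)) (nd (lf 0) (lf 68787159044)))) (nd (nd (nd (lf 0) (lf 687228366850)) (nd (lf 0) (lf 43982613168131))) (nd (nd (lf 0) (lf 16818178)) (nd (lf 0) (lf 83786639025106342432591295986319364))))) (nd (nd (nd (lf 0) (nd (lf 0) (lf 49154))) (nd (lf 0) (nd (lf 0) (lf 53250)))) (nd (nd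 (lf 0) (nd (lf 0) (lf 1888259))) (lf 0))))))

def p39 : Tr :=
  (nd (nd (nd (nd (nd (nd (nd (lf 1) (lf 266243)) (nd (lf 4098) (lf 1170949098330128385))) (nd (nd (lf 532483) (lf 1)) (nd (lf 8194) (lf 18023196750520323)))) (nd (nd (nd (lf 8194) (lf 4098)) (nd (lf 1) (lf 18023194619289602))) (nd (nd (lf 3853582444423543304116627799571546792413165905487629174696254276551594145747304449) (lf 121417268934231870003659422702124159071501615523467168048241228660115322632935837699)) (nd (lf 926562925550275236053620033386366039898925737911127577012288441190768204320770) (lf 22311635584284490675109083734415073949523970))))) (nd (nd (nd (nd (lf 1) (lf 0)) (nd (lf 4098) (lf 75246160167366557697))) (nd (nd (lf 24578) (lf 0)) (nd (lf 1576963) (lf 1254414652266317373442)))) (nd (nd (nd (lf 8194) (lf 0)) (nd (lf 1) (lf 1459179473424359426))) (nd (nd (lf 108095189297922049) (lf 0)) (nd (lf 6935556620306878466) (lf 107668441295034110252493034700224339970))))))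 (nd (nd (nd (nd (nd (lf 1) (lf 36866)) (nd (lf 0) (lf 9664200705))) (nd (nd (lf 24578) (lf 1)) (nd (lf 0) (lf 16801794)))) (nd (nd (nd (lf 8194) (lf 4098)) (nd (lf 0) (lf 68753039362))) (nd (nd (lf 305604739684079603859215966975993841036149853341161881227981178069953095362937551097191883402276979192784756739) (lf 305641955282711366391194012603931873643720037057125879282047427430260021729904315176451289426826415669460381700)) (nd (lf 0) (lf 4033080497150282982851703241270889171357500640636334055087247174528711253692301925925987532259983091834883))))) (nd (nd (nd (nd (lf 1) (lf 0)) (nd (lf 0) (lf 4897337507841))) (nd (nd (lf 24578) (lf 0)) (nd (lf 0) (lf 1168264683522)))) (nd (nd (nd (lf 4810413723650) (lf 0)) (nd (lf 0) (lf 5566327967746))) (nd (nd (lf 133815362908097816140075466112282747097055233) (lf 0)) (nd (lf 0) (lf 3095297145265511249822491950215029703958973499845144580))))))) (nd (nd (nd (nd (nd (nd (lf 0) (lf 36866)) (nd (lf 2367491)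 (lf 618508910594))) (nd (nd (lf 0) (lf 1)) (nd (lf 8194) (lf 1153484592033366020)))) (nd (nd (nd (lf 0) (lf 4098)) (nd (lf 1) (lf 1153484455634599939))) (nd (nd (lf 0) (lf 4723519967942714363906)) (nd (lf 2476484542636031443099459587) (lf 85112175743000987392221532283965341699))))) (nd (nd (nd (lf 0) (nd (lf 1) (lf 27556560568322))) (nd (lf 0) (nd (lf 1) (lf 74768940072963)))) (nd (nd (lf 0) (nd (lf 1) (lf 93387486299159068675))) (nd (lf 0) (nd (lf 1) (lf 30037262952812957554721770862319066003264746812582771854959645191965835266)))))) (nd (nd (nd (nd (nd (lf 0) (lf 36866)) (nd (lf 0) (lf 618508910594))) (nd (nd (lf 0) (lf 1)) (nd (lf 0) (lf 68754669572)))) (nd (nd (nd (lf 0) (lf 52778706178051)) (nd (lf 0) (lf 52778706206723))) (nd (nd (lf 0) (lf 334522067034535924895754271493340409606221828)) (nd (lf 0) (lf 13793208251074990844156179205441935974637246385719148548))))) (nd (nd (nd (lf 0) (nd (lf 0) (lf 65538))) (nd (lf 0) (nd (lf 0) (lf 69634))))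 (nd (nd (lf 0) (nd (lf 0) (lf 2045094850527235))) (lf 0))))))

def p40 : Tr :=
  (nd (nd (nd (nd (nd (nd (nd (lf 1) (lf 266243)) (nd (lf 4098) (lf 1170949098330128385))) (nd (nd (lf 532483) (lf 1)) (nd (lf 8194) (lf 18023196750520323)))) (nd (nd (nd (lf 8194) (lf 4098)) (nd (lf 1) (lf 18023194619289602))) (nd (nd (lf 3853582444423543304116627799571546792413165905487629174696254276551594145747304449) (lf 121417268934231870003659422702124159071501615523467168048241228660115322632935837699)) (nd (lf 926562925550275236053620033386366039898925737911127577012288441190768204320770) (lf 22311635584284490675109083734415073949523970))))) (nd (nd (nd (nd (lf 1) (lf 0)) (nd (lf 4098) (lf 75120059377800183809))) (nd (nd (lf 28674) (lf 0)) (nd (lf 1839107) (lf 737905822600496443394)))) (nd (nd (nd (lf 8194) (lf 0)) (nd (lf 1) (lf 1333078683857985538))) (nd (nd (lf 148852992478183686145) (lf 0)) (nd (lf 9526608428955135381506) (lf 432608766747769832264835050456866425447688133681154))))))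 (nd (nd (nd (nd (nd (lf 1) (lf 32770)) (nd (lf 0) (lf 8590458881))) (nd (nd (lf 2120490196827862875525122) (lf 1)) (nd (lf 0) (lf 1074290691)))) (nd (nd (nd (lf 8194) (lf 4098)) (nd (lf 0) (lf 68753039362))) (nd (nd (lf 870197163021528590271027415564113869686335775156917816189569212882947) (lf 435987756174351930820649781825399980036)) (nd (lf 0) (lf 197693047296345592311869844964003180088427513549559177219))))) (nd (nd (nd (nd (lf 1) (lf 0)) (nd (lf 0) (lf 1))) (nd (nd (lf 1) (lf 0)) (nd (lf 0) (lf 40962)))) (nd (nd (nd (lf 412350431234) (lf 0)) (nd (lf 0) (lf 5085291634690))) (nd (nd (lf 6442975233) (lf 0)) (nd (lf 0) (lf 3022462159343419369234435))))))) (nd (nd (nd (nd (lf 0) (nd (nd (lf 0) (lf 1)) (nd (lf 8194) (lf 16785410)))) (nd (nd (nd (lf 0) (lf 4098)) (nd (lf 1) (lf 1074266113))) (nd (nd (lf 0) (lf 16781314)) (nd (lf 2148007937) (lf 68753039362))))) (nd (nd (lf 0) (nd (lf 0) (nd (lf 1) (lf 40962)))) (nd (nd (lf 0) (nd (lf 1) (lf 79457681409)))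 (nd (lf 0) (nd (lf 1) (lf 43982612897795)))))) (nd (nd (nd (lf 0) (nd (nd (lf 0) (lf 1)) (nd (lf 0) (lf 1)))) (nd (lf 0) (nd (nd (lf 0) (lf 1)) (lf 0)))) (nd (nd (lf 0) (nd (lf 0) (nd (lf 0) (lf 40962)))) (lf 0)))))

def p41 : Tr :=
  (nd (nd (nd (nd (nd (nd (nd (lf 1) (lf 266243)) (nd (lf 4098) (lf 1170949098330128385))) (nd (nd (lf 532483) (lf 1)) (nd (lf 8194) (lf 18023196750520323)))) (nd (nd (nd (lf 8194) (lf 4098)) (nd (lf 1) (lf 18023194619289602))) (nd (nd (lf 3853582444423543304116627799571546792413165905487629174696254276551594145747304449) (lf 121417268934231870003659422702124159071501615523467168048241228660115322632935837699)) (nd (lf 926562925550275236053620033386366039898925737911127577012288441190768204320770) (lf 22311635584284490675109083734415073949523970))))) (nd (nd (nd (nd (lf 1) (lf 0)) (nd (lf 4098) (lf 1074266113))) (lf 0)) (nd (nd (nd (lf 8194) (lf 0)) (nd (lf 1) (lf 16785410))) (nd (nd (lf 2148007937) (lf 0)) (nd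 (lf 16781314) (lf 68753039362)))))) (nd (nd (nd (nd (nd (lf 1) (lf 335291480745973370617858)) (nd (lf 0) (lf 76236455937))) (nd (nd (lf 16386) (lf 1)) (nd (lf 0) (lf 16793602)))) (nd (nd (nd (lf 8194) (lf 4098)) (nd (lf 0) (lf 68753039362))) (nd (nd (lf 159771655212041729237783937025) (lf 4168741424613320552040232941890070581872654416537900982865725957941305654382598)) (nd (lf 0) (lf 197693048027096410797874586411267342280721674765313777667))))) (nd (nd (nd (nd (lf 1) (lf 0)) (nd (lf 0) (lf 1))) (lf 0)) (nd (lf 0) (nd (nd (lf 1) (lf 0)) (lf 0)))))) (nd (nd (nd (nd (nd (nd (lf 0) (lf 24578)) (nd (lf 1581059) (lf 412350455810))) (nd (nd (lf 0) (lf 1)) (nd (lf 8194) (lf 1153484592033341444)))) (nd (nd (nd (lf 0) (lf 4098)) (nd (lf 1) (lf 1153484455634575363))) (nd (nd (lf 0) (lf 19347537787848932970749956)) (nd (lf 10143680686633726026412977561605) (lf 374327285300008926522962389738059638338954642104323))))) (nd (nd (nd (lf 0) (nd (lf 1) (lf 40962)))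 (lf 0)) (nd (nd (lf 0) (nd (lf 1) (lf 1074307075))) (nd (lf 0) (nd (lf 1) (lf 9483338162178)))))) (nd (nd (nd (nd (nd (lf 0) (lf 1)) (nd (lf 0) (lf 40962))) (nd (nd (lf 0) (lf 1)) (nd (lf 0) (lf 1)))) (nd (nd (nd (lf 0) (lf 481069928450)) (nd (lf 0) (lf 30788473626627))) (nd (nd (lf 0) (lf 16805890)) (nd (lf 0) (lf 651690033691483191681026))))) (nd (nd (nd (lf 0) (nd (lf 0) (lf 40962))) (lf 0)) (lf 0)))))

def p42 : Tr :=
  (nd (nd (nd (nd (nd (nd (nd (lf 1) (lf 266243)) (nd (lf 4098) (lf 1170949098330128385))) (nd (nd (lf 532483) (lf 1)) (nd (lf 8194) (lf 18023196750520323)))) (nd (nd (nd (lf 8194) (lf 4098)) (nd (lf 1) (lf 18023194619289602))) (nd (nd (lf 3853582444423543304116627799571546792413165905487629174696254276551594145747304449) (lf 121417268934231870003659422702124159071501615523467168048241228660115322632935837699)) (nd (lf 926562925550275236053620033386366039898925737911127577012288441190768204320770) (lf 22311635584284490675109083734415073949523970)))))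 (nd (nd (nd (nd (lf 1) (lf 0)) (nd (lf 4098) (lf 75156088174819147777))) (nd (nd (lf 28674) (lf 0)) (nd (lf 1839107) (lf 885479775190172856322)))) (nd (nd (nd (lf 8194) (lf 0)) (nd (lf 1) (lf 1369107480876949506))) (nd (nd (lf 148852992478183686145) (lf 0)) (nd (lf 9526608428955135381506) (lf 444300779846587196793924998350328376908651478130690)))))) (nd (nd (nd (nd (nd (lf 1) (lf 1315064293922177025)) (nd (lf 0) (lf 78383939585))) (nd (nd (lf 33132659325435357429761) (lf 1)) (nd (lf 0) (lf 1074290691)))) (nd (nd (nd (lf 8194) (lf 4098)) (nd (lf 0) (lf 68753039362))) (nd (nd (lf 13596830672211384222984803368189279213848996486826840877688181497859) (lf 1214227357777942369726501206049504065232770991553429477503297433235017607445704376324)) (nd (lf 0) (lf 14587172255169660590727093088750809943980178190300130808656099751550758690819))))) (nd (nd (nd (nd (lf 1) (lf 0)) (nd (lf 0) (lf 325844512310517350006785))) (nd (nd (lf 1) (lf 0)) (nd (lf 0) (lf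 49154)))) (nd (nd (nd (lf 412350431234) (lf 0)) (nd (lf 0) (lf 5222730588162))) (nd (nd (lf 6442975233) (lf 0)) (nd (lf 0) (lf 197979291078203442759948180583543465758864068784092397578))))))) (nd (nd (nd (nd (nd (nd (lf 0) (lf 16781314)) (nd (lf 2148007937) (lf 755947802626))) (nd (nd (lf 0) (lf 1)) (nd (lf 8194) (lf 1153484592033345540)))) (nd (nd (nd (lf 0) (lf 4098)) (nd (lf 1) (lf 1153484455634579459))) (nd (nd (lf 0) (lf 16781314)) (nd (lf 2148007937) (lf 5073078885602008766570654380035))))) (nd (nd (nd (lf 0) (nd (lf 1) (lf 48380659417091))) (nd (lf 0) (nd (lf 1) (lf 52778706186243)))) (nd (nd (lf 0) (nd (lf 1) (lf 87622878776124813315))) (nd (lf 0) (nd (lf 1) (lf 950776641405263970411407781890)))))) (nd (nd (nd (nd (nd (lf 0) (lf 1)) (nd (lf 0) (lf 45058))) (nd (nd (lf 0) (lf 1)) (nd (lf 0) (lf 18023950567124994)))) (nd (nd (nd (lf 0) (lf 618508886018)) (nd (lf 0) (lf 39584566652931))) (nd (nd (lf 0) (lf 16814082)) (nd (lf 0) (lf 656412400174421556375554)))))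 (nd (nd (nd (lf 0) (nd (lf 0) (lf 45058))) (nd (lf 0) (nd (lf 0) (lf 49154)))) (nd (nd (lf 0) (nd (lf 0) (lf 1407649795850248))) (lf 0))))))

def p43 : Tr :=
  (nd (nd (nd (nd (nd (nd (nd (lf 1) (lf 266243)) (nd (lf 4098) (lf 1170949098330128385))) (nd (nd (lf 532483) (lf 1)) (nd (lf 8194) (lf 18023196750520323)))) (nd (nd (nd (lf 8194) (lf 4098)) (nd (lf 1) (lf 18023194619289602))) (nd (nd (lf 3853582444423543304116627799571546792413165905487629174696254276551594145747304449) (lf 121417268934231870003659422702124159071501615523467168048241228660115322632935837699)) (nd (lf 926562925550275236053620033386366039898925737911127577012288441190768204320770) (lf 22311635584284490675109083734415073949523970))))) (nd (nd (nd (nd (lf 1) (lf 0)) (nd (lf 4098) (lf 75192116971838111745))) (nd (nd (lf 1843203) (lf 0)) (nd (lf 28674) (lf 1033053727713228759043)))) (nd (nd (nd (lf 8194) (lf 0)) (nd (lf 1) (lf 1405136277895913474))) (nd (nd (lf 8106492525554434049)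 (lf 0)) (nd (lf 126109585676177410) (lf 6635568467687765388444167128949222023170)))))) (nd (nd (nd (nd (nd (lf 1) (lf 36866)) (nd (lf 0) (lf 9664200705))) (nd (nd (lf 518815521640819720193) (lf 1)) (nd (lf 0) (lf 1074286595)))) (nd (nd (nd (lf 8194) (lf 4098)) (nd (lf 0) (lf 68753039362))) (nd (nd (lf 2824700379188152094919923650989474832354392377606018229870595) (lf 114354231829172922077585365361731756630637745719449542291167516553295260232189947793037375490883470218469979330355989124060840936925257409689224237853076875673604)) (nd (lf 0) (lf 5542259957026769178748308733077163163318093625387349287218752622361704437011010637142946623138927974630736624099331))))) (nd (nd (nd (nd (lf 1) (lf 0)) (nd (lf 0) (lf 17675938955265))) (nd (nd (lf 1) (lf 0)) (nd (lf 0) (lf 57346)))) (nd (nd (nd (lf 343630954498) (lf 0)) (nd (lf 0) (lf 5360169537538))) (nd (nd (lf 5369233409) (lf 0)) (nd (lf 0) (lf 290778767782206600256026020529102852))))))) (nd (nd (nd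 (nd (nd (nd (lf 0) (lf 36866)) (nd (lf 2367491) (lf 618508898306))) (nd (nd (lf 0) (lf 1)) (nd (lf 8194) (lf 1153484592033353732)))) (nd (nd (nd (lf 0) (lf 4098)) (nd (lf 1) (lf 1153484455634587651))) (nd (nd (lf 0) (lf 4723519967942714363906)) (nd (lf 604610484041791590916098) (lf 85112175743000987392221519089825796099))))) (nd (nd (nd (lf 0) (nd (lf 24578) (lf 1131260093190146))) (nd (lf 0) (nd (lf 28674) (lf 3940787230920708)))) (nd (nd (lf 0) (nd (lf 1) (lf 89928721785338515459))) (nd (lf 0) (nd (lf 135409137808839695187075074) (lf 5238204583077910927663431236368133044896552678641666)))))) (nd (nd (nd (nd (nd (lf 0) (lf 36866)) (nd (lf 0) (lf 618508898306))) (nd (nd (lf 0) (lf 1)) (nd (lf 0) (lf 68754657284)))) (nd (nd (nd (lf 0) (lf 43982613155843)) (nd (lf 0) (lf 43982613172227))) (nd (nd (lf 0) (lf 267619831438933914266331123740734742526984196)) (nd (lf 0) (lf 13793208251008088608559613780355446845273396436328304644))))) (nd (nd (nd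 (lf 0) (nd (lf 0) (lf 53250))) (nd (lf 0) (nd (lf 0) (lf 57346)))) (nd (nd (lf 0) (nd (lf 0) (lf 1626115))) (lf 0))))))

def p44 : Tr :=
  (nd (nd (nd (nd (nd (nd (nd (lf 1) (lf 266243)) (nd (lf 4098) (lf 1170949098330128385))) (nd (nd (lf 532483) (lf 1)) (nd (lf 8194) (lf 18023196750520323)))) (nd (nd (nd (lf 8194) (lf 4098)) (nd (lf 1) (lf 18023194619289602))) (nd (nd (lf 3853582444423543304116627799571546792413165905487629174696254276551594145747304449) (lf 121417268934231870003659422702124159071501615523467168048241228660115322632935837699)) (nd (lf 926562925550275236053620033386366039898925737911127577012288441190768204320770) (lf 22311635584284490675109083734415073949523970))))) (nd (nd (nd (nd (lf 1) (lf 0)) (nd (lf 4098) (lf 75156088174819147777))) (nd (nd (lf 2148007937) (lf 0)) (nd (lf 16781314) (lf 824667283458)))) (nd (nd (nd (lf 8194) (lf 0)) (nd (lf 1) (lf 1369107480876949506))) (nd (nd (lf 2148007937) (lf 0)) (nd (lf 16781314)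 (lf 6021398384333420802498151587842)))))) (nd (nd (nd (nd (nd (lf 1) (lf 5312716367348718632961)) (nd (lf 0) (lf 77310197761))) (nd (nd (lf 6918092120402952193) (lf 1)) (nd (lf 0) (lf 1074286595)))) (nd (nd (nd (lf 8194) (lf 4098)) (nd (lf 0) (lf 68753039362))) (nd (nd (lf 810334697945694423248343265366168625427592679611106072993795) (lf 113133857791700194584174482501178747884565181733151809246373732942898270214)) (nd (lf 0) (lf 72373590336915395839601825157465088929855246305448638297477689562302937047043))))) (nd (nd (nd (nd (lf 1) (lf 0)) (nd (lf 0) (lf 18067177215410179))) (nd (nd (lf 1) (lf 0)) (nd (lf 0) (lf 49154)))) (nd (nd (nd (lf 343630954498) (lf 0)) (nd (lf 0) (lf 5222730584066))) (nd (nd (lf 5369233409) (lf 0)) (nd (lf 0) (lf 3626925069159530049617923))))))) (nd (nd (nd (nd (nd (nd (lf 0) (lf 28674)) (nd (lf 1843203) (lf 481069936642))) (nd (nd (lf 0) (lf 1)) (nd (lf 8194) (lf 1153484592033345540)))) (nd (nd (nd (lf 0) (lf 4098))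 (nd (lf 1) (lf 1153484455634579459))) (nd (nd (lf 0) (lf 19347537788130407947464708)) (nd (lf 10143680686634878947917584670725) (lf 374327285300008926528032992138972555949339501441027))))) (nd (nd (nd (lf 0) (nd (lf 1) (lf 48380659417091))) (nd (lf 0) (nd (lf 1) (lf 52778706186243)))) (nd (nd (lf 0) (nd (lf 1) (lf 87622878776124813315))) (nd (lf 0) (nd (lf 1) (lf 950776641405263970411407781890)))))) (nd (nd (nd (nd (nd (lf 0) (lf 1)) (nd (lf 0) (lf 45058))) (nd (nd (lf 0) (lf 1)) (nd (lf 0) (lf 4724780421478376845322)))) (nd (nd (nd (lf 0) (lf 549789409282)) (nd (lf 0) (lf 35186520141827))) (nd (nd (lf 0) (lf 16809986)) (nd (lf 0) (lf 205355185845259195489028153395730245430257243524824608772))))) (nd (nd (nd (lf 0) (nd (lf 0) (lf 45058))) (nd (lf 0) (nd (lf 0) (lf 49154)))) (nd (nd (lf 0) (nd (lf 0) (lf 1689262211510280))) (lf 0))))))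

def p45 : Tr :=
  (nd (nd (nd (nd (nd (nd (nd (lf 1) (lf 266243)) (nd (lf 4098) (lf 1170949098330128385))) (nd (nd (lf 532483) (lf 1)) (nd (lf 8194) (lf 18023196750520323)))) (nd (nd (nd (lf 8194) (lf 4098)) (nd (lf 1) (lf 18023194619289602))) (nd (nd (lf 3853582444423543304116627799571546792413165905487629174696254276551594145747304449) (lf 121417268934231870003659422702124159071501615523467168048241228660115322632935837699)) (nd (lf 926562925550275236053620033386366039898925737911127577012288441190768204320770) (lf 22311635584284490675109083734415073949523970))))) (nd (nd (nd (nd (lf 1) (lf 0)) (nd (lf 4098) (lf 75228145768857075713))) (nd (nd (lf 24578) (lf 0)) (nd (lf 36866) (lf 1180627675971479166978)))) (nd (nd (nd (lf 8194) (lf 0)) (nd (lf 1) (lf 1441165074914877442))) (nd (nd (lf 108095189297922049) (lf 0)) (nd (lf 162138382695141378) (lf 106339213299229851566475393573148696578)))))) (nd (nd (nd (nd (nd (lf 1) (lf 40962)) (nd (lf 0)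 (lf 10737942529))) (nd (nd (lf 24578) (lf 1)) (nd (lf 0) (lf 16801794)))) (nd (nd (nd (lf 8194) (lf 4098)) (nd (lf 0) (lf 68753039362))) (nd (nd (lf 1252059759524132079514615440226525463593095767240175947826857661400238031395368338585741880265370295007077118255107) (lf 80131824356050130047974150481027791898603073494926507963082632669976702828534803185761233413700471220054041609940996)) (nd (lf 0) (lf 17138619164537997156544312206870758353370208528359252459783677809400006035145760771))))) (nd (nd (nd (nd (lf 1) (lf 0)) (nd (lf 0) (lf 566936469505))) (nd (nd (lf 24578) (lf 0)) (nd (lf 0) (lf 1099545206786)))) (nd (nd (nd (lf 4810413723650) (lf 0)) (nd (lf 0) (lf 5497608491010))) (nd (nd (lf 133815362908097816140075466112282747097055233) (lf 0)) (nd (lf 0) (lf 86597811828541623257106234189242193037640918084815241093523662190682581224252935398521077464434663526712868106244))))))) (nd (nd (nd (nd (nd (nd (lf 0) (lf 40962)) (nd (lf 2629635) (lf 687228383234)))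 (nd (nd (lf 0) (lf 1)) (nd (lf 8194) (lf 1153484592033361924)))) (nd (nd (nd (lf 0) (lf 4098)) (nd (lf 1) (lf 1153484455634595843))) (nd (nd (lf 0) (lf 4723519968011433844738)) (nd (lf 604610484041929029877762) (lf 85112180813603388305139133872731648003))))) (nd (nd (nd (lf 0) (nd (lf 32770) (lf 36283934109698))) (nd (lf 0) (nd (lf 36866) (lf 4503737184350212)))) (nd (nd (lf 0) (nd (lf 1) (lf 92234564794552217603))) (nd (lf 0) (nd (lf 174094764072536625796644866) (lf 93538959720128618704868317474829367287142359822338)))))) (nd (nd (nd (nd (nd (lf 0) (lf 40962)) (nd (lf 0) (lf 687228383234))) (nd (nd (lf 0) (lf 1)) (nd (lf 0) (lf 68754665476)))) (nd (nd (nd (lf 0) (lf 52778706182147)) (nd (lf 0) (lf 52778706202627))) (nd (nd (lf 0) (lf 312221321836005301754218553220973523076952068)) (nd (lf 0) (lf 16858199332806768560872548741188593683692756341795385348))))) (nd (nd (nd (lf 0) (nd (lf 0) (lf 36283934109698))) (nd (lf 0) (nd (lf 0) (lf 65538))))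 (nd (nd (lf 0) (nd (lf 0) (lf 2603646757433347))) (nd (lf 0) (nd (lf 0) (lf 10213019492394826877430198275))))))))

def p46 : Tr :=
  (nd (nd (nd (nd (nd (nd (nd (lf 1) (lf 266243)) (nd (lf 4098) (lf 1170949098330128385))) (nd (nd (lf 532483) (lf 1)) (nd (lf 8194) (lf 18023196750520323)))) (nd (nd (nd (lf 8194) (lf 4098)) (nd (lf 1) (lf 18023194619289602))) (nd (nd (lf 3853582444423543304116627799571546792413165905487629174696254276551594145747304449) (lf 121417268934231870003659422702124159071501615523467168048241228660115322632935837699)) (nd (lf 926562925550275236053620033386366039898925737911127577012288441190768204320770) (lf 22311635584284490675109083734415073949523970))))) (nd (nd (nd (nd (lf 1) (lf 0)) (nd (lf 4098) (lf 75120059377800183809))) (nd (nd (lf 1843203) (lf 0)) (nd (lf 28674) (lf 737905822533875933187)))) (nd (nd (nd (lf 8194) (lf 0)) (nd (lf 1) (lf 1333078683857985538))) (nd (nd (lf 8106492525554434049) (lf 0)) (nd (lf 126109585676177410)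 (lf 6295286100761875164823651000417857314818)))))) (nd (nd (nd (nd (nd (lf 1) (lf 32770)) (nd (lf 0) (lf 8590458881))) (nd (nd (lf 33204193385081181589506) (lf 1)) (nd (lf 0) (lf 1074290691)))) (nd (nd (nd (lf 8194) (lf 4098)) (nd (lf 0) (lf 68753039362))) (nd (nd (lf 44135943424906220335542059070828510991483065993728404758531) (lf 435987756174351930820649781825399980036)) (nd (lf 0) (lf 197693047296345592311869844964003180088427513549559177219))))) (nd (nd (nd (nd (lf 1) (lf 0)) (nd (lf 0) (lf 354335588353))) (nd (nd (lf 1) (lf 0)) (nd (lf 0) (lf 40962)))) (nd (nd (nd (lf 412350431234) (lf 0)) (nd (lf 0) (lf 5085291634690))) (nd (nd (lf 6442975233) (lf 0)) (nd (lf 0) (lf 13292929154844187672243043208315576325))))))) (nd (nd (nd (nd (lf 0) (nd (nd (lf 0) (lf 1)) (nd (lf 8194) (lf 16785410)))) (nd (nd (nd (lf 0) (lf 4098)) (nd (lf 1) (lf 1074266113))) (nd (nd (lf 0) (lf 16781314)) (nd (lf 2148007937) (lf 68753039362))))) (nd (nd (lf 0) (nd (lf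 0) (nd (lf 28674) (lf 40962)))) (nd (nd (lf 0) (nd (lf 1) (lf 79457681409))) (nd (lf 0) (nd (lf 8071013558437806081) (lf 43982612897795)))))) (nd (nd (nd (lf 0) (nd (nd (lf 0) (lf 1)) (nd (lf 0) (lf 1)))) (nd (lf 0) (nd (nd (lf 0) (lf 1)) (lf 0)))) (nd (nd (lf 0) (nd (lf 0) (nd (lf 0) (lf 40962)))) (lf 0)))))

def p47 : Tr :=
  (nd (nd (nd (nd (nd (nd (nd (lf 1) (lf 266243)) (nd (lf 4098) (lf 1170949098330128385))) (nd (nd (lf 532483) (lf 1)) (nd (lf 8194) (lf 18023196750520323)))) (nd (nd (nd (lf 8194) (lf 4098)) (nd (lf 1) (lf 18023194619289602))) (nd (nd (lf 3853582444423543304116627799571546792413165905487629174696254276551594145747304449) (lf 121417268934231870003659422702124159071501615523467168048241228660115322632935837699)) (nd (lf 926562925550275236053620033386366039898925737911127577012288441190768204320770) (lf 22311635584284490675109083734415073949523970))))) (nd (nd (nd (nd (lf 1) (lf 0)) (nd (lf 4098) (lf 1074266113))) (lf 0))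 (nd (nd (nd (lf 8194) (lf 0)) (nd (lf 1) (lf 16785410))) (nd (nd (lf 2148007937) (lf 0)) (nd (lf 16781314) (lf 68753039362)))))) (nd (nd (nd (nd (nd (lf 1) (lf 32770)) (nd (lf 0) (lf 8590458881))) (nd (nd (lf 16386) (lf 1)) (nd (lf 0) (lf 16793602)))) (nd (nd (nd (lf 8194) (lf 4098)) (nd (lf 0) (lf 68753039362))) (nd (nd (lf 159771655212041729237783937025) (lf 114340502233852660858155398652778696661775642129825627559083920625952879987359506413063143152977329824111283760271097234256486531104843498030255404965392590336004)) (nd (lf 0) (lf 354704637249704268460923047700096212683235718220070882412848876003549999139756380183399962839535751974401266162081795))))) (nd (nd (nd (nd (lf 1) (lf 0)) (nd (lf 0) (lf 1))) (lf 0)) (nd (lf 0) (nd (nd (lf 1) (lf 0)) (lf 0)))))) (nd (nd (nd (nd (nd (nd (lf 0) (lf 32770)) (nd (lf 2105347) (lf 549789417474))) (nd (nd (lf 0) (lf 1)) (nd (lf 8194) (lf 1153484592033349636)))) (nd (nd (nd (lf 0) (lf 4098)) (nd (lf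 1) (lf 1153484455634583555))) (nd (nd (lf 0) (lf 4723519967873994883074)) (nd (lf 2476484542635749968122486787) (lf 85112170672398586479303908704966459395))))) (nd (nd (nd (lf 0) (nd (lf 24578) (lf 49154))) (lf 0)) (nd (nd (lf 0) (nd (lf 1) (lf 1074315267))) (nd (lf 0) (nd (lf 16801794) (lf 9620777123842)))))) (nd (nd (nd (nd (nd (lf 0) (lf 32770)) (nd (lf 0) (lf 549789417474))) (nd (nd (lf 0) (lf 1)) (nd (lf 0) (lf 1)))) (nd (nd (nd (lf 0) (lf 39584566640643)) (nd (lf 0) (lf 39584566657027))) (nd (nd (lf 0) (lf 245319086240398220522389770183716049586253828)) (nd (lf 0) (lf 2596306905572779544263652312924163))))) (nd (nd (nd (lf 0) (nd (lf 0) (lf 49154))) (lf 0)) (lf 0)))))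

def p48 : Tr :=
  (nd (nd (nd (nd (nd (nd (nd (lf 1) (lf 266243)) (nd (lf 4098) (lf 1170949098330128385))) (nd (nd (lf 532483) (lf 1)) (nd (lf 8194) (lf 18023196750520323)))) (nd (nd (nd (lf 8194) (lf 4098)) (nd (lf 1) (lf 18023194619289602))) (nd (nd (lf 3853582444423543304116627799571546792413165905487629174696254276551594145747304449) (lf 121417268934231870003659422702124159071501615523467168048241228660115322632935837699)) (nd (lf 926562925550275236053620033386366039898925737911127577012288441190768204320770) (lf 22311635584284490675109083734415073949523970))))) (nd (nd (nd (nd (lf 1) (lf 0)) (nd (lf 4098) (lf 1074266113))) (lf 0)) (nd (nd (nd (lf 8194) (lf 0)) (nd (lf 1) (lf 16785410))) (nd (nd (lf 2148007937) (lf 0)) (nd (lf 16781314) (lf 68753039362)))))) (nd (nd (nd (nd (nd (lf 1) (lf 20482)) (nd (lf 0) (lf 5369233409))) (nd (nd (lf 1) (lf 1)) (nd (lf 0) (lf 1)))) (nd (nd (nd (lf 8194) (lf 4098)) (nd (lf 0) (lf 68753039362))) (nd (nd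 (lf 2306406030034862081) (lf 432000072186997183201938360644558934020)) (nd (lf 0) (lf 10974168645835646457735843615724978577411))))) (nd (nd (nd (nd (lf 1) (lf 0)) (nd (lf 0) (lf 1))) (lf 0)) (nd (lf 0) (nd (nd (lf 1) (lf 0)) (lf 0)))))) (nd (nd (nd (nd (lf 0) (nd (nd (lf 0) (lf 1)) (nd (lf 8194) (lf 16785410)))) (nd (nd (nd (lf 0) (lf 4098)) (nd (lf 1) (lf 1074266113))) (nd (nd (lf 0) (lf 16781314)) (nd (lf 2148007937) (lf 68753039362))))) (nd (lf 0) (nd (nd (lf 0) (nd (lf 1) (lf 1))) (nd (lf 0) (nd (lf 1) (lf 0)))))) (nd (nd (nd (lf 0) (nd (nd (lf 0) (lf 1)) (nd (lf 0) (lf 1)))) (nd (lf 0) (nd (nd (lf 0) (lf 1)) (lf 0)))) (lf 0))))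

def p49 : Tr :=
  (nd (nd (nd (nd (nd (nd (nd (lf 1) (lf 266243)) (nd (lf 4098) (lf 1170949098330128385))) (nd (nd (lf 532483) (lf 1)) (nd (lf 8194) (lf 18023196750520323)))) (nd (nd (nd (lf 8194) (lf 4098)) (nd (lf 1) (lf 18023194619289602))) (nd (nd (lf 3853582444423543304116627799571546792413165905487629174696254276551594145747304449) (lf 121417268934231870003659422702124159071501615523467168048241228660115322632935837699)) (nd (lf 926562925550275236053620033386366039898925737911127577012288441190768204320770) (lf 22311635584284490675109083734415073949523970))))) (nd (nd (nd (nd (lf 1) (lf 0)) (nd (lf 4098) (lf 75174102573328629761))) (nd (nd (lf 28674) (lf 0)) (nd (lf 1839107) (lf 959266751485011062786)))) (nd (nd (nd (lf 8194) (lf 0)) (nd (lf 1) (lf 1387121879386431490))) (nd (nd (lf 148852992478183686145) (lf 0)) (nd (lf 9526608428955135381506) (lf 419231864061202741282498438196588816900098)))))) (nd (nd (nd (nd (nd (lf 1) (lf 5386503348041603350529))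 (nd (lf 0) (lf 78383939585))) (nd (nd (lf 33132659325435357429761) (lf 1)) (nd (lf 0) (lf 1074290691)))) (nd (nd (nd (lf 8194) (lf 4098)) (nd (lf 0) (lf 68753039362))) (nd (nd (lf 13596830672211384222984803368189279213848996486826840877688181497859) (lf 6743303405743848954689409002728447307933246123456955496464774373380)) (nd (lf 0) (lf 22408390630884305258721816819951134947524223913921243838053448351036438274212704225400725507))))) (nd (nd (nd (nd (lf 1) (lf 0)) (nd (lf 0) (lf 4755603587073))) (nd (nd (lf 1) (lf 0)) (nd (lf 0) (lf 53250)))) (nd (nd (nd (lf 412350431234) (lf 0)) (nd (lf 0) (lf 5291450064898))) (nd (nd (lf 6442975233) (lf 0)) (nd (lf 0) (lf 2683444237253509582920456184603660292))))))) (nd (nd (nd (nd (nd (nd (lf 0) (lf 32770)) (nd (lf 2105347) (lf 549789417474))) (nd (nd (lf 0) (lf 1)) (nd (lf 8194) (lf 1153484592033349636)))) (nd (nd (nd (lf 0) (lf 4098)) (nd (lf 1) (lf 1153484455634583555))) (nd (nd (lf 0) (lf 19347537788411882924179460))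 (nd (lf 10143680686636031869422191779845) (lf 348619409900855590686413934814314269032451))))) (nd (nd (nd (lf 0) (nd (lf 1) (lf 18485589622786))) (nd (lf 0) (nd (lf 1) (lf 57176752701443)))) (nd (nd (lf 0) (nd (lf 1) (lf 88775800280731664387))) (nd (lf 0) (nd (lf 1) (lf 4864060163572750719587910876651642598048901787336706)))))) (nd (nd (nd (nd (nd (lf 0) (lf 1)) (nd (lf 0) (lf 49154))) (nd (nd (lf 0) (lf 1)) (nd (lf 0) (lf 4724780421478376849418)))) (nd (nd (nd (lf 0) (lf 618508890114)) (nd (lf 0) (lf 39584566657027))) (nd (nd (lf 0) (lf 16814082)) (nd (lf 0) (lf 205355185845259543938172204955270490352582318286470430724))))) (nd (nd (nd (lf 0) (nd (lf 0) (lf 49154))) (nd (lf 0) (nd (lf 0) (lf 53250)))) (nd (nd (lf 0) (nd (lf 0) (lf 1572551499249367888216072))) (lf 0))))))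

def p50 : Tr :=
  (nd (nd (nd (nd (nd (nd (nd (lf 1) (lf 266243)) (nd (lf 4098) (lf 1170949098330128385))) (nd (nd (lf 532483) (lf 1)) (nd (lf 8194) (lf 18023196750520323)))) (nd (nd (nd (lf 8194) (lf 4098)) (nd (lf 1) (lf 18023194619289602))) (nd (nd (lf 3853582444423543304116627799571546792413165905487629174696254276551594145747304449) (lf 121417268934231870003659422702124159071501615523467168048241228660115322632935837699)) (nd (lf 926562925550275236053620033386366039898925737911127577012288441190768204320770) (lf 22311635584284490675109083734415073949523970))))) (nd (nd (nd (nd (lf 1) (lf 0)) (nd (lf 4098) (lf 75084030580781219841))) (nd (nd (lf 2148007937) (lf 0)) (nd (lf 16781314) (lf 549789376514)))) (nd (nd (nd (lf 8194) (lf 0)) (nd (lf 1) (lf 1297049886839021570))) (nd (nd (lf 2148007937) (lf 0)) (nd (lf 16781314) (lf 5704485734271751766105548398594)))))) (nd (nd (nd (nd (nd (lf 1) (lf 1)) (nd (lf 0) (lf 1))) (nd (nd (lf 516544872069346643970)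 (lf 1)) (nd (lf 0) (lf 1074290691)))) (nd (nd (nd (lf 8194) (lf 4098)) (nd (lf 0) (lf 68753039362))) (nd (nd (lf 3564321050273651178974039169021287275776067092529135170903013640414437379) (lf 18023263372316674)) (nd (lf 0) (lf 2876812465493939789081458731725835520859971587))))) (nd (nd (nd (nd (lf 1) (lf 0)) (nd (lf 0) (lf 1))) (nd (nd (lf 1) (lf 0)) (nd (lf 0) (lf 32770)))) (nd (nd (nd (lf 412350431234) (lf 0)) (nd (lf 0) (lf 4947852681218))) (nd (nd (lf 6442975233) (lf 0)) (nd (lf 0) (lf 2417999249527308688850947))))))) (nd (nd (nd (nd (lf 0) (nd (nd (lf 0) (lf 1)) (nd (lf 8194) (lf 16785410)))) (nd (nd (nd (lf 0) (lf 4098)) (nd (lf 1) (lf 1074266113))) (nd (nd (lf 0) (lf 16781314)) (nd (lf 2148007937) (lf 68753039362))))) (nd (nd (lf 0) (nd (lf 0) (nd (lf 1) (lf 32770)))) (nd (nd (lf 0) (nd (lf 1) (lf 77310197761))) (nd (lf 0) (nd (lf 1) (lf 35186519867395)))))) (nd (nd (nd (lf 0) (nd (nd (lf 0) (lf 1)) (nd (lf 0) (lf 1)))) (nd (lf 0) (nd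 (nd (lf 0) (lf 1)) (lf 0)))) (nd (nd (lf 0) (nd (lf 0) (nd (lf 0) (lf 32770)))) (lf 0)))))

def p51 : Tr :=
  (nd (nd (nd (nd (nd (nd (nd (lf 1) (lf 266243)) (nd (lf 4098) (lf 1170949098330128385))) (nd (nd (lf 532483) (lf 1)) (nd (lf 8194) (lf 18023196750520323)))) (nd (nd (nd (lf 8194) (lf 4098)) (nd (lf 1) (lf 18023194619289602))) (nd (nd (lf 3853582444423543304116627799571546792413165905487629174696254276551594145747304449) (lf 121417268934231870003659422702124159071501615523467168048241228660115322632935837699)) (nd (lf 926562925550275236053620033386366039898925737911127577012288441190768204320770) (lf 22311635584284490675109083734415073949523970))))) (nd (nd (nd (nd (lf 1) (lf 0)) (nd (lf 4098) (lf 1074266113))) (lf 0)) (nd (nd (nd (lf 8194) (lf 0)) (nd (lf 1) (lf 16785410))) (nd (nd (lf 2148007937) (lf 0)) (nd (lf 16781314) (lf 68753039362)))))) (nd (nd (nd (nd (nd (lf 1) (lf 325846747217284126760962)) (nd (lf 0) (lf 74088972289))) (nd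 (nd (lf 1) (lf 1)) (nd (lf 0) (lf 1)))) (nd (nd (nd (lf 8194) (lf 4098)) (nd (lf 0) (lf 68753039362))) (nd (nd (lf 2306406030034862081) (lf 3242404710714790988651665013930081666290569428060191442595438840131215340081158)) (nd (lf 0) (lf 2876812473469307677172935094780433157889204227))))) (nd (nd (nd (nd (lf 1) (lf 0)) (nd (lf 0) (lf 1))) (lf 0)) (nd (lf 0) (nd (nd (lf 1) (lf 0)) (lf 0)))))) (nd (nd (nd (nd (nd (nd (lf 0) (lf 16386)) (nd (lf 1056771) (lf 274911494146))) (nd (nd (lf 0) (lf 1)) (nd (lf 8194) (lf 1153484592033333252)))) (nd (nd (nd (lf 0) (lf 4098)) (nd (lf 1) (lf 1153484455634567171))) (nd (nd (lf 0) (lf 19347537787285983017320452)) (nd (lf 10143680686631420183403763343365) (lf 374327285300008926512821184936233803118184923430915))))) (nd (nd (nd (lf 0) (nd (lf 1) (lf 32770))) (lf 0)) (nd (nd (lf 0) (nd (lf 1) (lf 1074298883))) (nd (lf 0) (nd (lf 1) (lf 9345899200514)))))) (nd (nd (nd (nd (nd (lf 0) (lf 1)) (nd (lf 0) (lf 32770)))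 (nd (nd (lf 0) (lf 1)) (nd (lf 0) (lf 1)))) (nd (nd (nd (lf 0) (lf 343630966786)) (nd (lf 0) (lf 21992380596227))) (nd (nd (lf 0) (lf 16797698)) (nd (lf 0) (lf 642245300725606462291970))))) (nd (nd (nd (lf 0) (nd (lf 0) (lf 32770))) (lf 0)) (lf 0)))))

def p52 : Tr :=
  (nd (nd (nd (nd (nd (nd (nd (lf 1) (lf 266243)) (nd (lf 4098) (lf 1170949098330128385))) (nd (nd (lf 532483) (lf 1)) (nd (lf 8194) (lf 18023196750520323)))) (nd (nd (nd (lf 8194) (lf 4098)) (nd (lf 1) (lf 18023194619289602))) (nd (nd (lf 3853582444423543304116627799571546792413165905487629174696254276551594145747304449) (lf 121417268934231870003659422702124159071501615523467168048241228660115322632935837699)) (nd (lf 926562925550275236053620033386366039898925737911127577012288441190768204320770) (lf 22311635584284490675109083734415073949523970))))) (nd (nd (nd (nd (lf 1) (lf 0)) (nd (lf 4098) (lf 75102044979290701825))) (nd (nd (lf 2148007937) (lf 0)) (nd (lf 16781314) (lf 618508853250))))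 (nd (nd (nd (lf 8194) (lf 0)) (nd (lf 1) (lf 1315064285348503554))) (nd (nd (lf 2148007937) (lf 0)) (nd (lf 16781314) (lf 5783713896787169025203699195906)))))) (nd (nd (nd (nd (nd (lf 1) (lf 1261021089820053506)) (nd (lf 0) (lf 75162714113))) (nd (nd (lf 373547412060357001217) (lf 1)) (nd (lf 0) (lf 1074286595)))) (nd (nd (nd (lf 8194) (lf 4098)) (nd (lf 0) (lf 68753039362))) (nd (nd (lf 810242654291034287297134787473759515353203213952479679225859) (lf 554635832744652020918249611267)) (nd (lf 0) (lf 212271293784574672323129374422093555304525569831097673495777386499))))) (nd (nd (nd (nd (lf 1) (lf 0)) (nd (lf 0) (lf 4682589143041))) (nd (nd (lf 1) (lf 0)) (nd (lf 0) (lf 36866)))) (nd (nd (nd (lf 343630954498) (lf 0)) (nd (lf 0) (lf 5016572153858))) (nd (nd (lf 5369233409) (lf 0)) (nd (lf 0) (lf 2682146162998981323964914897848930308))))))) (nd (nd (nd (nd (nd (nd (lf 0) (lf 16781314)) (nd (lf 2148007937) (lf 549789372418))) (nd (nd (lf 0) (lf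 1)) (nd (lf 8194) (lf 1153484592033333252)))) (nd (nd (nd (lf 0) (lf 4098)) (nd (lf 1) (lf 1153484455634567171))) (nd (nd (lf 0) (lf 16781314)) (nd (lf 2148007937) (lf 5073078885602008753376514834435))))) (nd (nd (nd (lf 0) (nd (lf 1) (lf 35186519871491))) (nd (lf 0) (nd (lf 1) (lf 39584566640643)))) (nd (nd (lf 0) (nd (lf 1) (lf 84164114262304260099))) (nd (lf 0) (nd (lf 1) (lf 713092153641110028540102868994)))))) (nd (nd (nd (nd (nd (lf 0) (lf 1)) (nd (lf 0) (lf 32770))) (nd (nd (lf 0) (lf 1)) (nd (lf 0) (lf 18023744408682498)))) (nd (nd (nd (lf 0) (lf 412350443522)) (nd (lf 0) (lf 26390427107331))) (nd (nd (lf 0) (lf 16801794)) (nd (lf 0) (lf 642245300725606462291970))))) (nd (nd (nd (lf 0) (nd (lf 0) (lf 32770))) (nd (lf 0) (nd (lf 0) (lf 36866)))) (nd (nd (lf 0) (nd (lf 0) (lf 1085443))) (lf 0))))))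

def p53 : Tr :=
  (nd (nd (nd (nd (nd (nd (nd (lf 1) (lf 266243)) (nd (lf 4098) (lf 1170949098330128385))) (nd (nd (lf 532483) (lf 1)) (nd (lf 8194) (lf 18023196750520323)))) (nd (nd (nd (lf 8194) (lf 4098)) (nd (lf 1) (lf 18023194619289602))) (nd (nd (lf 3853582444423543304116627799571546792413165905487629174696254276551594145747304449) (lf 121417268934231870003659422702124159071501615523467168048241228660115322632935837699)) (nd (lf 926562925550275236053620033386366039898925737911127577012288441190768204320770) (lf 22311635584284490675109083734415073949523970))))) (nd (nd (nd (nd (lf 1) (lf 0)) (nd (lf 4098) (lf 75138073776309665793))) (nd (nd (lf 2148007937) (lf 0)) (nd (lf 16781314) (lf 755947806722)))) (nd (nd (nd (lf 8194) (lf 0)) (nd (lf 1) (lf 1351093082367467522))) (nd (nd (lf 2148007937) (lf 0)) (nd (lf 16781314) (lf 5942170221818003543400000790530)))))) (nd (nd (nd (nd (nd (lf 1) (lf 5238929386655833915393)) (nd (lf 0) (lf 76236455937)))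 (nd (nd (lf 2395928198048645121) (lf 1)) (nd (lf 0) (lf 1074286595)))) (nd (nd (nd (lf 8194) (lf 4098)) (nd (lf 0) (lf 68753039362))) (nd (nd (lf 176788297153549802122498456939724546051) (lf 113133857791700194584150537258352369922009605440637831933150859550259679238)) (nd (lf 0) (lf 65136584759583133625628638594422094689024543035850318129138686754748086099971))))) (nd (nd (nd (nd (lf 1) (lf 0)) (nd (lf 0) (lf 18062779168894979))) (nd (nd (lf 1) (lf 0)) (nd (lf 0) (lf 45058)))) (nd (nd (nd (lf 343630954498) (lf 0)) (nd (lf 0) (lf 5154011107330))) (nd (nd (lf 5369233409) (lf 0)) (nd (lf 0) (lf 3324693614251474709426179))))))) (nd (nd (nd (nd (nd (nd (lf 0) (lf 24578)) (nd (lf 1581059) (lf 412350455810))) (nd (nd (lf 0) (lf 1)) (nd (lf 8194) (lf 1153484592033341444)))) (nd (nd (nd (lf 0) (lf 4098)) (nd (lf 1) (lf 1153484455634575363))) (nd (nd (lf 0) (lf 19347537787848932970749956)) (nd (lf 10143680686633726026412977561605) (lf 374327285300008926522962389738059638338954642104323)))))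 (nd (nd (nd (lf 0) (nd (lf 1) (lf 43982612901891))) (nd (lf 0) (nd (lf 1) (lf 48380659671043)))) (nd (nd (lf 0) (nd (lf 1) (lf 86469957271517962243))) (nd (lf 0) (nd (lf 1) (lf 871548478817212656454306144258)))))) (nd (nd (nd (nd (nd (lf 0) (lf 1)) (nd (lf 0) (lf 40962))) (nd (nd (lf 0) (lf 1)) (nd (lf 0) (lf 68754644996)))) (nd (nd (nd (lf 0) (lf 481069928450)) (nd (lf 0) (lf 30788473626627))) (nd (nd (lf 0) (lf 16805890)) (nd (lf 0) (lf 2786316618665610095448048506375806980))))) (nd (nd (nd (lf 0) (nd (lf 0) (lf 40962))) (nd (lf 0) (nd (lf 0) (lf 45058)))) (nd (nd (lf 0) (nd (lf 0) (lf 1613827))) (lf 0))))))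

def p54 : Tr :=
  (nd (nd (nd (nd (nd (nd (nd (lf 1) (lf 266243)) (nd (lf 4098) (lf 1170949098330128385))) (nd (nd (lf 532483) (lf 1)) (nd (lf 8194) (lf 18023196750520323)))) (nd (nd (nd (lf 8194) (lf 4098)) (nd (lf 1) (lf 18023194619289602))) (nd (nd (lf 3853582444423543304116627799571546792413165905487629174696254276551594145747304449) (lf 121417268934231870003659422702124159071501615523467168048241228660115322632935837699)) (nd (lf 926562925550275236053620033386366039898925737911127577012288441190768204320770) (lf 22311635584284490675109083734415073949523970))))) (nd (nd (nd (nd (lf 1) (lf 0)) (nd (lf 4098) (lf 75174102573328629761))) (nd (nd (lf 28674) (lf 0)) (nd (lf 1839107) (lf 959266751485011062786)))) (nd (nd (nd (lf 8194) (lf 0)) (nd (lf 1) (lf 1387121879386431490))) (nd (nd (lf 148852992478183686145) (lf 0)) (nd (lf 9526608428955135381506) (lf 419231864061202741282498438196588816900098)))))) (nd (nd (nd (nd (nd (lf 1) (lf 5386503348041603350529))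 (nd (lf 0) (lf 78383939585))) (nd (nd (lf 33132659325435357429761) (lf 1)) (nd (lf 0) (lf 1074290691)))) (nd (nd (nd (lf 8194) (lf 4098)) (nd (lf 0) (lf 68753039362))) (nd (nd (lf 51867792786450898067416394684559933524537600723785033038700547) (lf 6743303405743848954689409002898609260581149494499156922166008918020)) (nd (lf 0) (lf 4313802143151485671973337242843881115948865952721059821298160299679747))))) (nd (nd (nd (nd (lf 1) (lf 0)) (nd (lf 0) (lf 4755603587073))) (nd (nd (lf 1) (lf 0)) (nd (lf 0) (lf 53250)))) (nd (nd (nd (lf 412350431234) (lf 0)) (nd (lf 0) (lf 5291450064898))) (nd (nd (lf 6442975233) (lf 0)) (nd (lf 0) (lf 2683444237253509582920456184603660292))))))) (nd (nd (nd (nd (nd (nd (lf 0) (lf 32770)) (nd (lf 2105347) (lf 549789417474))) (nd (nd (lf 0) (lf 1)) (nd (lf 8194) (lf 1153484592033349636)))) (nd (nd (nd (lf 0) (lf 4098)) (nd (lf 1) (lf 1153484455634583555))) (nd (nd (lf 0) (lf 19347537788411882924179460)) (nd (lf 10143680686636031869422191779845)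 (lf 348619451444301061365947880664271715614723))))) (nd (nd (nd (lf 0) (nd (lf 1) (lf 18485589622786))) (nd (lf 0) (nd (lf 1) (lf 57176754012163)))) (nd (nd (lf 0) (nd (lf 1) (lf 88775800280731664387))) (nd (lf 0) (nd (lf 1) (lf 22969874687117402007103756690681519922753439794919934845853658233564086274)))))) (nd (nd (nd (nd (nd (lf 0) (lf 1)) (nd (lf 0) (lf 49154))) (nd (nd (lf 0) (lf 1)) (nd (lf 0) (lf 68754653188)))) (nd (nd (nd (lf 0) (lf 618508886018)) (nd (lf 0) (lf 39584566657027))) (nd (nd (lf 0) (lf 16814082)) (nd (lf 0) (lf 2786965655773531411793970684448260100))))) (nd (nd (nd (lf 0) (nd (lf 0) (lf 49154))) (nd (lf 0) (nd (lf 0) (lf 53250)))) (nd (nd (lf 0) (nd (lf 0) (lf 1464552711045123))) (lf 0))))))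

def p55 : Tr :=
  (nd (nd (nd (nd (nd (nd (nd (lf 1) (lf 266243)) (nd (lf 4098) (lf 1170949098330128385))) (nd (nd (lf 532483) (lf 1)) (nd (lf 8194) (lf 18023196750520323)))) (nd (nd (nd (lf 8194) (lf 4098)) (nd (lf 1) (lf 18023194619289602))) (nd (nd (lf 3853582444423543304116627799571546792413165905487629174696254276551594145747304449) (lf 121417268934231870003659422702124159071501615523467168048241228660115322632935837699)) (nd (lf 926562925550275236053620033386366039898925737911127577012288441190768204320770) (lf 22311635584284490675109083734415073949523970))))) (nd (nd (nd (nd (lf 1) (lf 0)) (nd (lf 4098) (lf 75084030580781219841))) (nd (nd (lf 28674) (lf 0)) (nd (lf 1839107) (lf 590331870010820030466)))) (nd (nd (nd (lf 8194) (lf 0)) (nd (lf 1) (lf 1297049886839021570))) (nd (nd (lf 148852992478183686145) (lf 0)) (nd (lf 9526608428955135381506) (lf 420916753648952467735745102563404473986724789231618)))))) (nd (nd (nd (nd (nd (lf 1) (lf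 1)) (nd (lf 0) (lf 1))) (nd (nd (lf 2120490196827862875525122) (lf 1)) (nd (lf 0) (lf 1074290691)))) (nd (nd (nd (lf 8194) (lf 4098)) (nd (lf 0) (lf 68753039362))) (nd (nd (lf 870197163021528590271027415564113869686335775156917816189569212882947) (lf 18023263372316674)) (nd (lf 0) (lf 2876812465493939789081458731725835520859971587))))) (nd (nd (nd (nd (lf 1) (lf 0)) (nd (lf 0) (lf 1))) (nd (nd (lf 1) (lf 0)) (nd (lf 0) (lf 32770)))) (nd (nd (nd (lf 412350431234) (lf 0)) (nd (lf 0) (lf 4947852681218))) (nd (nd (lf 6442975233) (lf 0)) (nd (lf 0) (lf 2417999249527308688850947))))))) (nd (nd (nd (nd (lf 0) (nd (nd (lf 0) (lf 1)) (nd (lf 8194) (lf 16785410)))) (nd (nd (nd (lf 0) (lf 4098)) (nd (lf 1) (lf 1074266113))) (nd (nd (lf 0) (lf 16781314)) (nd (lf 2148007937) (lf 68753039362))))) (nd (nd (lf 0) (nd (lf 0) (nd (lf 1) (lf 32770)))) (nd (nd (lf 0) (nd (lf 1) (lf 77310197761))) (nd (lf 0) (nd (lf 1) (lf 35186519867395)))))) (nd (nd (nd (lf 0)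 (nd (nd (lf 0) (lf 1)) (nd (lf 0) (lf 1)))) (nd (lf 0) (nd (nd (lf 0) (lf 1)) (lf 0)))) (nd (nd (lf 0) (nd (lf 0) (nd (lf 0) (lf 32770)))) (lf 0)))))

def p56 : Tr :=
  (nd (nd (nd (nd (nd (nd (nd (lf 1) (lf 266243)) (nd (lf 4098) (lf 1170949098330128385))) (nd (nd (lf 532483) (lf 1)) (nd (lf 8194) (lf 18023196750520323)))) (nd (nd (nd (lf 8194) (lf 4098)) (nd (lf 1) (lf 18023194619289602))) (nd (nd (lf 3853582444423543304116627799571546792413165905487629174696254276551594145747304449) (lf 121417268934231870003659422702124159071501615523467168048241228660115322632935837699)) (nd (lf 926562925550275236053620033386366039898925737911127577012288441190768204320770) (lf 22311635584284490675109083734415073949523970))))) (nd (nd (nd (nd (lf 1) (lf 0)) (nd (lf 4098) (lf 75138073776309665793))) (nd (nd (lf 28674) (lf 0)) (nd (lf 1839107) (lf 811692798895334649858)))) (nd (nd (nd (lf 8194) (lf 0)) (nd (lf 1) (lf 1351093082367467522))) (nd (nd (lf 148852992478183686145)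 (lf 0)) (nd (lf 9526608428955135381506) (lf 438454773297178514529380024403597401178169805905922)))))) (nd (nd (nd (nd (nd (lf 1) (lf 1297049886839017474)) (nd (lf 0) (lf 77310197761))) (nd (nd (lf 33132659325435357429761) (lf 1)) (nd (lf 0) (lf 1074290691)))) (nd (nd (nd (lf 8194) (lf 4098)) (nd (lf 0) (lf 68753039362))) (nd (nd (lf 13596830672211384222984803368189279213848996486826840877688181497859) (lf 713092157773180696105337520131)) (nd (lf 0) (lf 14587172248429673923939432765939637015514123461747527527652503599356125126659))))) (nd (nd (nd (nd (lf 1) (lf 0)) (nd (lf 0) (lf 4684736626689))) (nd (nd (lf 1) (lf 0)) (nd (lf 0) (lf 45058)))) (nd (nd (nd (lf 412350431234) (lf 0)) (nd (lf 0) (lf 5154011111426))) (nd (nd (lf 6442975233) (lf 0)) (nd (lf 0) (lf 2682795200106902640328851474430865412))))))) (nd (nd (nd (nd (nd (nd (lf 0) (lf 16781314)) (nd (lf 2148007937) (lf 687228325890))) (nd (nd (lf 0) (lf 1)) (nd (lf 8194) (lf 1153484592033341444))))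 (nd (nd (nd (lf 0) (lf 4098)) (nd (lf 1) (lf 1153484455634575363))) (nd (nd (lf 0) (lf 16781314)) (nd (lf 2148007937) (lf 5073078885602008762172607864835))))) (nd (nd (nd (lf 0) (nd (lf 1) (lf 43982612901891))) (nd (lf 0) (nd (lf 1) (lf 48380659671043)))) (nd (nd (lf 0) (nd (lf 1) (lf 86469957271517962243))) (nd (lf 0) (nd (lf 1) (lf 871548478817212656454306144258)))))) (nd (nd (nd (nd (nd (lf 0) (lf 1)) (nd (lf 0) (lf 40962))) (nd (nd (lf 0) (lf 1)) (nd (lf 0) (lf 18023881847644162)))) (nd (nd (nd (lf 0) (lf 549789405186)) (nd (lf 0) (lf 35186520137731))) (nd (nd (lf 0) (lf 16809986)) (nd (lf 0) (lf 651690033691483191681026))))) (nd (nd (nd (lf 0) (nd (lf 0) (lf 40962))) (nd (lf 0) (nd (lf 0) (lf 45058)))) (nd (nd (lf 0) (nd (lf 0) (lf 1093635))) (lf 0))))))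

def p57 : Tr :=
  (nd (nd (nd (nd (nd (nd (nd (lf 1) (lf 266243)) (nd (lf 4098) (lf 1170949098330128385))) (nd (nd (lf 532483) (lf 1)) (nd (lf 8194) (lf 18023196750520323)))) (nd (nd (nd (lf 8194) (lf 4098)) (nd (lf 1) (lf 18023194619289602))) (nd (nd (lf 3853582444423543304116627799571546792413165905487629174696254276551594145747304449) (lf 121417268934231870003659422702124159071501615523467168048241228660115322632935837699)) (nd (lf 926562925550275236053620033386366039898925737911127577012288441190768204320770) (lf 22311635584284490675109083734415073949523970))))) (nd (nd (nd (nd (lf 1) (lf 0)) (nd (lf 4098) (lf 75228145768857075713))) (nd (nd (lf 24578) (lf 0)) (nd (lf 36866) (lf 1180627675971479166978)))) (nd (nd (nd (lf 8194) (lf 0)) (nd (lf 1) (lf 1441165074914877442))) (nd (nd (lf 108095189297922049) (lf 0)) (nd (lf 162138382695141378) (lf 106339213299229851566475393573148696578)))))) (nd (nd (nd (nd (nd (lf 1) (lf 40962)) (nd (lf 0)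 (lf 10737942529))) (nd (nd (lf 24578) (lf 1)) (nd (lf 0) (lf 16801794)))) (nd (nd (nd (lf 8194) (lf 4098)) (nd (lf 0) (lf 68753039362))) (nd (nd (lf 1252059759524132079514615440226525463593095767240175947826857661400238031395368338585741880265370295007077118255107) (lf 80131824356050130047974150481027791898603073494926507963082632669976702828534803185761233413700471220054041609940996)) (nd (lf 0) (lf 17138619164537997156544312206870758353370208528359252459783677809400006035145760771))))) (nd (nd (nd (nd (lf 1) (lf 0)) (nd (lf 0) (lf 4896263766017))) (nd (nd (lf 24578) (lf 0)) (nd (lf 0) (lf 1099545206786)))) (nd (nd (nd (lf 4810413723650) (lf 0)) (nd (lf 0) (lf 5497608491010))) (nd (nd (lf 133815362908097816140075466112282747097055233) (lf 0)) (nd (lf 0) (lf 12643105753045602709509793102188694087076449110810980356))))))) (nd (nd (nd (nd (nd (nd (lf 0) (lf 40962)) (nd (lf 2629635) (lf 687228383234))) (nd (nd (lf 0) (lf 1)) (nd (lf 8194) (lf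 1153484592033361924)))) (nd (nd (nd (lf 0) (lf 4098)) (nd (lf 1) (lf 1153484455634595843))) (nd (nd (lf 0) (lf 4723519968011433844738)) (nd (lf 604610484041929029877762) (lf 85112180813603388305139133872731648003))))) (nd (nd (nd (lf 0) (nd (lf 32770) (lf 1694347485573122))) (nd (lf 0) (nd (lf 36866) (lf 70370893295619)))) (nd (nd (lf 0) (nd (lf 1) (lf 92234564794552217603))) (nd (lf 0) (nd (lf 174094764072536625796644866) (lf 93538959720128617981036186198914241819446329012226)))))) (nd (nd (nd (nd (nd (lf 0) (lf 40962)) (nd (lf 0) (lf 687228383234))) (nd (nd (lf 0) (lf 1)) (nd (lf 0) (lf 1075376131)))) (nd (nd (nd (lf 0) (lf 52778706182147)) (nd (lf 0) (lf 52778706202627))) (nd (nd (lf 0) (lf 312221321836005301754218553220973523076952068)) (nd (lf 0) (lf 5095078111410054350199847360550937767096533673842316400324576137444859815981060))))) (nd (nd (nd (lf 0) (nd (lf 0) (lf 61442))) (nd (lf 0) (nd (lf 0) (lf 70370893295619)))) (nd (nd (lf 0)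 (nd (lf 0) (lf 2040696803749891))) (nd (lf 0) (nd (lf 0) (lf 10213019498391594078442418181))))))))

def p58 : Tr :=
  (nd (nd (nd (nd (nd (nd (nd (lf 1) (lf 266243)) (nd (lf 4098) (lf 1170949098330128385))) (nd (nd (lf 532483) (lf 1)) (nd (lf 8194) (lf 18023196750520323)))) (nd (nd (nd (lf 8194) (lf 4098)) (nd (lf 1) (lf 18023194619289602))) (nd (nd (lf 3853582444423543304116627799571546792413165905487629174696254276551594145747304449) (lf 121417268934231870003659422702124159071501615523467168048241228660115322632935837699)) (nd (lf 926562925550275236053620033386366039898925737911127577012288441190768204320770) (lf 22311635584284490675109083734415073949523970))))) (nd (nd (nd (nd (lf 1) (lf 0)) (nd (lf 4098) (lf 75138073776309665793))) (nd (nd (lf 24578) (lf 0)) (nd (lf 1576963) (lf 811692794497288134658)))) (nd (nd (nd (lf 8194) (lf 0)) (nd (lf 1) (lf 1351093082367467522))) (nd (nd (lf 108095189297922049) (lf 0)) (nd (lf 6935556620306878466)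 (lf 99693073320208558136387187937770479618)))))) (nd (nd (nd (nd (nd (lf 1) (lf 36866)) (nd (lf 0) (lf 9664200705))) (nd (nd (lf 24578) (lf 1)) (nd (lf 0) (lf 16801794)))) (nd (nd (nd (lf 8194) (lf 4098)) (nd (lf 0) (lf 68753039362))) (nd (nd (lf 26004166974101441934769498330807158719130192425090525875324686842172619751496781644651283433613587784063143607630285586268194353180764557268528406531) (lf 437316984170136846693553588885680328708)) (nd (lf 0) (lf 933579020448625958590532047467535628539373745091685350886399705529286817751043))))) (nd (nd (nd (nd (lf 1) (lf 0)) (nd (lf 0) (lf 1))) (nd (nd (lf 24578) (lf 0)) (nd (lf 0) (lf 755947823106)))) (nd (nd (nd (lf 4810413723650) (lf 0)) (nd (lf 0) (lf 5154011107330))) (nd (nd (lf 133815362908097816140075466112282747097055233) (lf 0)) (nd (lf 0) (lf 137637667025875055405974786681839985732382724))))))) (nd (nd (nd (nd (lf 0) (nd (nd (lf 0) (lf 1)) (nd (lf 8194) (lf 16785410)))) (nd (nd (nd (lf 0)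 (lf 4098)) (nd (lf 1) (lf 1074266113))) (nd (nd (lf 0) (lf 16781314)) (nd (lf 2148007937) (lf 68753039362))))) (nd (nd (lf 0) (nd (lf 0) (nd (lf 32770) (lf 45058)))) (nd (nd (lf 0) (nd (lf 1) (lf 80531423233))) (nd (lf 0) (nd (lf 9223935064118394881) (lf 48380659412995)))))) (nd (nd (nd (lf 0) (nd (nd (lf 0) (lf 1)) (nd (lf 0) (lf 1)))) (nd (lf 0) (nd (nd (lf 0) (lf 1)) (lf 0)))) (nd (nd (lf 0) (nd (lf 0) (nd (lf 0) (lf 45058)))) (lf 0)))))

def p59 : Tr :=
  (nd (nd (nd (nd (nd (nd (nd (lf 1) (lf 266243)) (nd (lf 4098) (lf 1170949098330128385))) (nd (nd (lf 532483) (lf 1)) (nd (lf 8194) (lf 18023196750520323)))) (nd (nd (nd (lf 8194) (lf 4098)) (nd (lf 1) (lf 18023194619289602))) (nd (nd (lf 3853582444423543304116627799571546792413165905487629174696254276551594145747304449) (lf 121417268934231870003659422702124159071501615523467168048241228660115322632935837699)) (nd (lf 926562925550275236053620033386366039898925737911127577012288441190768204320770)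 (lf 22311635584284490675109083734415073949523970))))) (nd (nd (nd (nd (lf 1) (lf 0)) (nd (lf 4098) (lf 1074266113))) (lf 0)) (nd (nd (nd (lf 8194) (lf 0)) (nd (lf 1) (lf 16785410))) (nd (nd (lf 2148007937) (lf 0)) (nd (lf 16781314) (lf 68753039362)))))) (nd (nd (nd (nd (nd (lf 1) (lf 5238929386586090016770)) (nd (lf 0) (lf 76236455937))) (nd (nd (lf 16386) (lf 1)) (nd (lf 0) (lf 16793602)))) (nd (nd (nd (lf 8194) (lf 4098)) (nd (lf 0) (lf 68753039362))) (nd (nd (lf 159771655212041729237783937025) (lf 842549768018228808238279498676849030360235416098397980372808241155)) (nd (lf 0) (lf 197693047935752558464693154023537040235953986036817993731))))) (nd (nd (nd (nd (lf 1) (lf 0)) (nd (lf 0) (lf 1))) (lf 0)) (nd (lf 0) (nd (nd (lf 1) (lf 0)) (lf 0)))))) (nd (nd (nd (nd (nd (nd (lf 0) (lf 1576963)) (nd (lf 24578) (lf 26457048915970))) (nd (nd (lf 0) (lf 1)) (nd (lf 8194) (lf 1153484592033341444)))) (nd (nd (nd (lf 0) (lf 4098)) (nd (lf 1) (lf 1153484455634575363)))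 (nd (nd (lf 0) (lf 19347537787853196783783939)) (nd (lf 604610484041791590916098) (lf 5447178278912224023361456174412482519043))))) (nd (nd (nd (lf 0) (nd (lf 24578) (lf 40962))) (lf 0)) (nd (nd (lf 0) (nd (lf 1) (lf 1074307075))) (nd (lf 0) (nd (lf 16801794) (lf 9483338162178)))))) (nd (nd (nd (nd (nd (lf 0) (lf 1)) (nd (lf 0) (lf 40962))) (nd (nd (lf 0) (lf 1)) (nd (lf 0) (lf 1074831363)))) (nd (nd (nd (lf 0) (lf 481069924354)) (nd (lf 0) (lf 30788473626627))) (nd (nd (lf 0) (lf 16805890)) (nd (lf 0) (lf 2680898483986624205594828540687720452))))) (nd (nd (nd (lf 0) (nd (lf 0) (lf 40962))) (lf 0)) (lf 0)))))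

def p60 : Tr :=
  (nd (nd (nd (nd (nd (nd (nd (lf 1) (lf 266243)) (nd (lf 4098) (lf 1170949098330128385))) (nd (nd (lf 532483) (lf 1)) (nd (lf 8194) (lf 18023196750520323)))) (nd (nd (nd (lf 8194) (lf 4098)) (nd (lf 1) (lf 18023194619289602))) (nd (nd (lf 3853582444423543304116627799571546792413165905487629174696254276551594145747304449) (lf 121417268934231870003659422702124159071501615523467168048241228660115322632935837699)) (nd (lf 926562925550275236053620033386366039898925737911127577012288441190768204320770) (lf 22311635584284490675109083734415073949523970))))) (nd (nd (nd (nd (lf 1) (lf 0)) (nd (lf 4098) (lf 1074266113))) (lf 0)) (nd (nd (nd (lf 8194) (lf 0)) (nd (lf 1) (lf 16785410))) (nd (nd (lf 2148007937) (lf 0)) (nd (lf 16781314) (lf 68753039362)))))) (nd (nd (nd (nd (nd (lf 1) (lf 1)) (nd (lf 0) (lf 1))) (nd (nd (lf 16386) (lf 1)) (nd (lf 0) (lf 16793602)))) (nd (nd (nd (lf 8194) (lf 4098)) (nd (lf 0) (lf 68753039362))) (nd (nd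 (lf 159771655212041729237783937025) (lf 18023263372316674)) (nd (lf 0) (lf 10974168645835646755171145060217788833795))))) (nd (nd (nd (nd (lf 1) (lf 0)) (nd (lf 0) (lf 1))) (lf 0)) (nd (lf 0) (nd (nd (lf 1) (lf 0)) (lf 0)))))) (nd (nd (nd (nd (lf 0) (nd (nd (lf 0) (lf 1)) (nd (lf 8194) (lf 16785410)))) (nd (nd (nd (lf 0) (lf 4098)) (nd (lf 1) (lf 1074266113))) (nd (nd (lf 0) (lf 16781314)) (nd (lf 2148007937) (lf 68753039362))))) (nd (lf 0) (nd (nd (lf 0) (nd (lf 1) (lf 1))) (nd (lf 0) (nd (lf 1) (lf 0)))))) (nd (nd (nd (lf 0) (nd (nd (lf 0) (lf 1)) (nd (lf 0) (lf 1)))) (nd (lf 0) (nd (nd (lf 0) (lf 1)) (lf 0)))) (lf 0))))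

def p61 : Tr :=
  (nd (nd (nd (nd (nd (nd (nd (lf 1) (lf 266243)) (nd (lf 4098) (lf 1170949098330128385))) (nd (nd (lf 532483) (lf 1)) (nd (lf 8194) (lf 18023196750520323)))) (nd (nd (nd (lf 8194) (lf 4098)) (nd (lf 1) (lf 18023194619289602))) (nd (nd (lf 3853582444423543304116627799571546792413165905487629174696254276551594145747304449) (lf 121417268934231870003659422702124159071501615523467168048241228660115322632935837699)) (nd (lf 926562925550275236053620033386366039898925737911127577012288441190768204320770) (lf 22311635584284490675109083734415073949523970))))) (nd (nd (nd (nd (lf 1) (lf 0)) (nd (lf 4098) (lf 75174102573328629761))) (nd (nd (lf 28674) (lf 0)) (nd (lf 1839107) (lf 959266751485011062786)))) (nd (nd (nd (lf 8194) (lf 0)) (nd (lf 1) (lf 1387121879386431490))) (nd (nd (lf 148852992478183686145) (lf 0)) (nd (lf 9526608428955135381506) (lf 419231864061202741282498438196588816900098)))))) (nd (nd (nd (nd (nd (lf 1) (lf 5386503348041603350529))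 (nd (lf 0) (lf 78383939585))) (nd (nd (lf 33132659325435357429761) (lf 1)) (nd (lf 0) (lf 1074290691)))) (nd (nd (nd (lf 8194) (lf 4098)) (nd (lf 0) (lf 68753039362))) (nd (nd (lf 13596830672211384222984803368189279213848996486826840877688181497859) (lf 6743303405743848954689409002898609260581149494499156922166008918020)) (nd (lf 0) (lf 20371354654549819172453371131541756786472755520255307587417307901682056974449367519217328131))))) (nd (nd (nd (nd (lf 1) (lf 0)) (nd (lf 0) (lf 325844512310518423748609))) (nd (nd (lf 1) (lf 0)) (nd (lf 0) (lf 53250)))) (nd (nd (nd (lf 412350431234) (lf 0)) (nd (lf 0) (lf 5291450064898))) (nd (nd (lf 6442975233) (lf 0)) (nd (lf 0) (lf 198003236321029472273380798943296171463486067634988699658))))))) (nd (nd (nd (nd (nd (nd (lf 0) (lf 32770)) (nd (lf 2105347) (lf 549789417474))) (nd (nd (lf 0) (lf 1)) (nd (lf 8194) (lf 1153484592033349636)))) (nd (nd (nd (lf 0) (lf 4098)) (nd (lf 1) (lf 1153484455634583555)))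 (nd (nd (lf 0) (lf 19347537788411882924179460)) (nd (lf 10143680686636031869422191779845) (lf 348619451444301061365947880664271715614723))))) (nd (nd (nd (lf 0) (nd (lf 1) (lf 52778705932291))) (nd (lf 0) (nd (lf 1) (lf 57176754012163)))) (nd (nd (lf 0) (nd (lf 1) (lf 88775800280731664387))) (nd (lf 0) (nd (lf 1) (lf 4864060163572750698823794045210680302977396093534210)))))) (nd (nd (nd (nd (nd (lf 0) (lf 1)) (nd (lf 0) (lf 49154))) (nd (nd (lf 0) (lf 1)) (nd (lf 0) (lf 68754653188)))) (nd (nd (nd (lf 0) (lf 618508886018)) (nd (lf 0) (lf 39584566657027))) (nd (nd (lf 0) (lf 16814082)) (nd (lf 0) (lf 2786965655773531411793970684448260100))))) (nd (nd (nd (lf 0) (nd (lf 0) (lf 49154))) (nd (lf 0) (nd (lf 0) (lf 53250)))) (nd (nd (lf 0) (nd (lf 0) (lf 1511452459353870966505475))) (lf 0))))))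

def p62 : Tr :=
  (nd (nd (nd (nd (nd (nd (nd (lf 1) (lf 266243)) (nd (lf 4098) (lf 1170949098330128385))) (nd (nd (lf 532483) (lf 1)) (nd (lf 8194) (lf 18023196750520323)))) (nd (nd (nd (lf 8194) (lf 4098)) (nd (lf 1) (lf 18023194619289602))) (nd (nd (lf 3853582444423543304116627799571546792413165905487629174696254276551594145747304449) (lf 121417268934231870003659422702124159071501615523467168048241228660115322632935837699)) (nd (lf 926562925550275236053620033386366039898925737911127577012288441190768204320770) (lf 22311635584284490675109083734415073949523970))))) (nd (nd (nd (nd (lf 1) (lf 0)) (nd (lf 4098) (lf 1074266113))) (lf 0)) (nd (nd (nd (lf 8194) (lf 0)) (nd (lf 1) (lf 16785410))) (nd (nd (lf 2148007937) (lf 0)) (nd (lf 16781314) (lf 68753039362)))))) (nd (nd (nd (nd (nd (lf 1) (lf 79552428517714063362)) (nd (lf 0) (lf 74088972289))) (nd (nd (lf 1) (lf 1)) (nd (lf 0) (lf 1)))) (nd (nd (nd (lf 8194) (lf 4098)) (nd (lf 0) (lf 68753039362)))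 (nd (nd (lf 2306406030034862081) (lf 50066271228771839292946794427458998536675566569394666170375293335020206728121856859441847615492)) (nd (lf 0) (lf 2876812472140079681388019221876626097608859651))))) (nd (nd (nd (nd (lf 1) (lf 0)) (nd (lf 0) (lf 1))) (lf 0)) (nd (lf 0) (nd (nd (lf 1) (lf 0)) (lf 0)))))) (nd (nd (nd (nd (nd (nd (lf 0) (lf 16781314)) (nd (lf 2148007937) (lf 549789372418))) (nd (nd (lf 0) (lf 1)) (nd (lf 8194) (lf 1153484592033333252)))) (nd (nd (nd (lf 0) (lf 4098)) (nd (lf 1) (lf 1153484455634567171))) (nd (nd (lf 0) (lf 16781314)) (nd (lf 2148007937) (lf 5073078885602008753376514834435))))) (nd (nd (nd (lf 0) (nd (lf 1) (lf 32770))) (lf 0)) (nd (nd (lf 0) (nd (lf 1) (lf 1074298883))) (nd (lf 0) (nd (lf 1) (lf 9345899200514)))))) (nd (nd (nd (nd (nd (lf 0) (lf 1)) (nd (lf 0) (lf 32770))) (nd (nd (lf 0) (lf 1)) (nd (lf 0) (lf 1)))) (nd (nd (nd (lf 0) (lf 343630962690)) (nd (lf 0) (lf 21992380596227))) (nd (nd (lf 0) (lf 16797698))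 (nd (lf 0) (lf 642245300725606462291970))))) (nd (nd (nd (lf 0) (nd (lf 0) (lf 32770))) (lf 0)) (lf 0)))))

def p63 : Tr :=
  (nd (nd (nd (nd (nd (nd (nd (lf 1) (lf 266243)) (nd (lf 4098) (lf 1170949098330128385))) (nd (nd (lf 532483) (lf 1)) (nd (lf 8194) (lf 18023196750520323)))) (nd (nd (nd (lf 8194) (lf 4098)) (nd (lf 1) (lf 18023194619289602))) (nd (nd (lf 3853582444423543304116627799571546792413165905487629174696254276551594145747304449) (lf 121417268934231870003659422702124159071501615523467168048241228660115322632935837699)) (nd (lf 926562925550275236053620033386366039898925737911127577012288441190768204320770) (lf 22311635584284490675109083734415073949523970))))) (nd (nd (nd (nd (lf 1) (lf 0)) (nd (lf 4098) (lf 75102044979290701825))) (nd (nd (lf 2148007937) (lf 0)) (nd (lf 16781314) (lf 618508853250)))) (nd (nd (nd (lf 8194) (lf 0)) (nd (lf 1) (lf 1315064285348503554))) (nd (nd (lf 2148007937) (lf 0)) (nd (lf 16781314) (lf 5783713896787169025203699195906))))))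 (nd (nd (nd (nd (nd (lf 1) (lf 80705350235962736641)) (nd (lf 0) (lf 75162714113))) (nd (nd (lf 2395928198048645121) (lf 1)) (nd (lf 0) (lf 1074286595)))) (nd (nd (nd (lf 8194) (lf 4098)) (nd (lf 0) (lf 68753039362))) (nd (nd (lf 176788297153549802122498456939724546051) (lf 431571417967606333099848144590479721076134183613257739336299992346629)) (nd (lf 0) (lf 737237476349671621540361454748682932125660155258371800469608865795))))) (nd (nd (nd (nd (lf 1) (lf 0)) (nd (lf 0) (lf 18053983075864579))) (nd (nd (lf 1) (lf 0)) (nd (lf 0) (lf 36866)))) (nd (nd (nd (lf 343630954498) (lf 0)) (nd (lf 0) (lf 5016572153858))) (nd (nd (lf 5369233409) (lf 0)) (nd (lf 0) (lf 2720230704435364029042691))))))) (nd (nd (nd (nd (nd (nd (lf 0) (lf 16781314)) (nd (lf 2148007937) (lf 549789372418))) (nd (nd (lf 0) (lf 1)) (nd (lf 8194) (lf 1153484592033333252)))) (nd (nd (nd (lf 0) (lf 4098)) (nd (lf 1) (lf 1153484455634567171))) (nd (nd (lf 0) (lf 16781314)) (nd (lf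 2148007937) (lf 5073078885602008753376514834435))))) (nd (nd (nd (lf 0) (nd (lf 1) (lf 35186519871491))) (nd (lf 0) (nd (lf 1) (lf 39584566640643)))) (nd (nd (lf 0) (nd (lf 1) (lf 84164114262304260099))) (nd (lf 0) (nd (lf 1) (lf 713092153641110028540102868994)))))) (nd (nd (nd (nd (nd (lf 0) (lf 1)) (nd (lf 0) (lf 32770))) (nd (nd (lf 0) (lf 1)) (nd (lf 0) (lf 68754636804)))) (nd (nd (nd (lf 0) (lf 412350443522)) (nd (lf 0) (lf 26390427107331))) (nd (nd (lf 0) (lf 16801794)) (nd (lf 0) (lf 2785667581557688779084111929793871876))))) (nd (nd (nd (lf 0) (nd (lf 0) (lf 32770))) (nd (lf 0) (nd (lf 0) (lf 36866)))) (nd (nd (lf 0) (nd (lf 0) (lf 1605635))) (lf 0))))))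

def p64 : Tr :=
  (nd (nd (nd (nd (nd (nd (nd (lf 1) (lf 266243)) (nd (lf 4098) (lf 1170949098330128385))) (nd (nd (lf 532483) (lf 1)) (nd (lf 8194) (lf 18023196750520323)))) (nd (nd (nd (lf 8194) (lf 4098)) (nd (lf 1) (lf 18023194619289602))) (nd (nd (lf 3853582444423543304116627799571546792413165905487629174696254276551594145747304449) (lf 121417268934231870003659422702124159071501615523467168048241228660115322632935837699)) (nd (lf 926562925550275236053620033386366039898925737911127577012288441190768204320770) (lf 22311635584284490675109083734415073949523970))))) (nd (nd (nd (nd (lf 1) (lf 0)) (nd (lf 4098) (lf 75174102573328629761))) (nd (nd (lf 24578) (lf 0)) (nd (lf 1576963) (lf 959266747086964547586)))) (nd (nd (nd (lf 8194) (lf 0)) (nd (lf 1) (lf 1387121879386431490))) (nd (nd (lf 108095189297922049) (lf 0)) (nd (lf 6935556620306878466) (lf 102351529311817075508422470191921766402)))))) (nd (nd (nd (nd (nd (lf 1) (lf 32770)) (nd (lf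 0) (lf 8590458881))) (nd (nd (lf 24578) (lf 1)) (nd (lf 0) (lf 16801794)))) (nd (nd (nd (lf 8194) (lf 4098)) (nd (lf 0) (lf 68753039362))) (nd (nd (lf 1251759146073537028861445586710136428453591679873915682883407128155881908640153668704978526793429470660499354165251) (lf 5127205446093570995593893917264688738537990447436315555523835980639440890040108309447756074243156900170936940893868036)) (nd (lf 0) (lf 3249657564426972963493715511998807755554352266681607536668886318920421756641283))))) (nd (nd (nd (nd (lf 1) (lf 0)) (nd (lf 0) (lf 426276290561))) (nd (nd (lf 24578) (lf 0)) (nd (lf 0) (lf 893386776578)))) (nd (nd (nd (lf 4810413723650) (lf 0)) (nd (lf 0) (lf 5291450060802))) (nd (nd (lf 133815362908097816140075466112282747097055233) (lf 0)) (nd (lf 0) (lf 984543175103059907654922199873801370246707759107726497426793272592607481052310750031146208332572028932))))))) (nd (nd (nd (nd (nd (nd (lf 0) (lf 32770)) (nd (lf 2105347) (lf 549789417474)))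 (nd (nd (lf 0) (lf 1)) (nd (lf 8194) (lf 1153484592033349636)))) (nd (nd (nd (lf 0) (lf 4098)) (nd (lf 1) (lf 1153484455634583555))) (nd (nd (lf 0) (lf 4723519967873994883074)) (nd (lf 2476484542635749968122486787) (lf 85112170672398586479303908704966459395))))) (nd (nd (nd (lf 0) (nd (lf 1) (lf 27281682644994))) (nd (lf 0) (nd (lf 1) (lf 57176754012163)))) (nd (nd (lf 0) (nd (lf 1) (lf 88775800280731664387))) (nd (lf 0) (nd (lf 1) (lf 1187514688372253584530783418164375484490160586754)))))) (nd (nd (nd (nd (nd (lf 0) (lf 32770)) (nd (lf 0) (lf 549789417474))) (nd (nd (lf 0) (lf 1)) (nd (lf 0) (lf 1075625987)))) (nd (nd (nd (lf 0) (lf 43982613151747)) (nd (lf 0) (lf 43982613168131))) (nd (nd (lf 0) (lf 245319086240398220522399214916681788876689412)) (nd (lf 0) (lf 60663171425375109740134319384273484835722825176624054534290784436228))))) (nd (nd (nd (lf 0) (nd (lf 0) (lf 27281682644994))) (nd (lf 0) (nd (lf 0) (lf 57176754012163)))) (nd (nd (lf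 0) (nd (lf 0) (lf 2590452617887747))) (nd (lf 0) (nd (lf 0) (lf 76600328986632643068858040505356623921601601158092707643395))))))))

def p65 : Tr :=
  (nd (nd (nd (nd (nd (nd (nd (lf 1) (lf 266243)) (nd (lf 4098) (lf 1170949098330128385))) (nd (nd (lf 532483) (lf 1)) (nd (lf 8194) (lf 18023196750520323)))) (nd (nd (nd (lf 8194) (lf 4098)) (nd (lf 1) (lf 18023194619289602))) (nd (nd (lf 3853582444423543304116627799571546792413165905487629174696254276551594145747304449) (lf 121417268934231870003659422702124159071501615523467168048241228660115322632935837699)) (nd (lf 926562925550275236053620033386366039898925737911127577012288441190768204320770) (lf 22311635584284490675109083734415073949523970))))) (nd (nd (nd (nd (lf 1) (lf 0)) (nd (lf 4098) (lf 75138073776309665793))) (nd (nd (lf 28674) (lf 0)) (nd (lf 1839107) (lf 811692798895334649858)))) (nd (nd (nd (lf 8194) (lf 0)) (nd (lf 1) (lf 1351093082367467522))) (nd (nd (lf 126109587807404033) (lf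 0)) (nd (lf 8088478124913725442) (lf 99693073320208558136387188006489956354)))))) (nd (nd (nd (nd (nd (lf 1) (lf 36866)) (nd (lf 0) (lf 9664200705))) (nd (nd (lf 28674) (lf 1)) (nd (lf 0) (lf 16805890)))) (nd (nd (nd (lf 8194) (lf 4098)) (nd (lf 0) (lf 68753039362))) (nd (nd (lf 1549600172199878792545027094911812692225810952893395389036386598021558080378729410317715291237614976720855485054729452648586993552909362536451) (lf 437316984170136846693553588885680328708)) (nd (lf 0) (lf 13585362764550168628783024146711687320225310541393035732677032157187))))) (nd (nd (nd (nd (lf 1) (lf 0)) (nd (lf 0) (lf 492848283649))) (nd (nd (lf 28674) (lf 0)) (nd (lf 0) (lf 755947827202)))) (nd (nd (nd (lf 4879133204482) (lf 0)) (nd (lf 0) (lf 5154011111426))) (nd (nd (lf 156116108106952957835571842584632320426770433) (lf 0)) (nd (lf 0) (lf 899576005105894512325672734088967208001779974758558105604))))))) (nd (nd (nd (nd (lf 0) (nd (nd (lf 0) (lf 1)) (nd (lf 8194)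 (lf 16785410)))) (nd (nd (nd (lf 0) (lf 4098)) (nd (lf 1) (lf 1074266113))) (nd (nd (lf 0) (lf 16781314)) (nd (lf 2148007937) (lf 68753039362))))) (nd (nd (lf 0) (nd (lf 0) (nd (lf 1) (lf 45058)))) (nd (nd (lf 0) (nd (lf 1) (lf 80531423233))) (nd (lf 0) (nd (lf 1) (lf 48380659412995)))))) (nd (nd (nd (lf 0) (nd (nd (lf 0) (lf 1)) (nd (lf 0) (lf 1)))) (nd (lf 0) (nd (nd (lf 0) (lf 1)) (lf 0)))) (nd (nd (lf 0) (nd (lf 0) (nd (lf 0) (lf 45058)))) (lf 0)))))

def p66 : Tr :=
  (nd (nd (nd (nd (nd (nd (nd (lf 1) (lf 266243)) (nd (lf 4098) (lf 1170949098330128385))) (nd (nd (lf 532483) (lf 1)) (nd (lf 8194) (lf 18023196750520323)))) (nd (nd (nd (lf 8194) (lf 4098)) (nd (lf 1) (lf 18023194619289602))) (nd (nd (lf 3853582444423543304116627799571546792413165905487629174696254276551594145747304449) (lf 121417268934231870003659422702124159071501615523467168048241228660115322632935837699)) (nd (lf 926562925550275236053620033386366039898925737911127577012288441190768204320770)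 (lf 22311635584284490675109083734415073949523970))))) (nd (nd (nd (nd (lf 1) (lf 0)) (nd (lf 4098) (lf 1074266113))) (lf 0)) (nd (nd (nd (lf 8194) (lf 0)) (nd (lf 1) (lf 16785410))) (nd (nd (lf 2148007937) (lf 0)) (nd (lf 16781314) (lf 68753039362)))))) (nd (nd (nd (nd (nd (lf 1) (lf 24578)) (nd (lf 0) (lf 6442975233))) (nd (nd (lf 16386) (lf 1)) (nd (lf 0) (lf 16793602)))) (nd (nd (nd (lf 8194) (lf 4098)) (nd (lf 0) (lf 68753039362))) (nd (nd (lf 159771655212041729237783937025) (lf 1549230620135994744916613423088239634920375591715664228373139966651933680080157620361014986868618094780493132226880266616489686883374849359876)) (nd (lf 0) (lf 3755707801330019388871475711385680412683821106245041913223091855005399175673526388009030874570755))))) (nd (nd (nd (nd (lf 1) (lf 0)) (nd (lf 0) (lf 1))) (lf 0)) (nd (lf 0) (nd (nd (lf 1) (lf 0)) (lf 0)))))) (nd (nd (nd (nd (nd (nd (lf 0) (lf 24578)) (nd (lf 1581059) (lf 412350472194))) (nd (nd (lf 0) (lf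 1)) (nd (lf 8194) (lf 1153484592033357828)))) (nd (nd (nd (lf 0) (lf 4098)) (nd (lf 1) (lf 1153484455634591747))) (nd (nd (lf 0) (lf 4723519967736555921410)) (nd (lf 2476484542635187018168541187) (lf 85112160531193784653468705527433846787))))) (nd (nd (nd (lf 0) (nd (lf 1) (lf 57346))) (lf 0)) (nd (nd (lf 0) (nd (lf 1) (lf 1074323459))) (nd (lf 0) (nd (lf 1) (lf 9758216085506)))))) (nd (nd (nd (nd (nd (lf 0) (lf 24578)) (nd (lf 0) (lf 412350472194))) (nd (nd (lf 0) (lf 1)) (nd (lf 0) (lf 1075109891)))) (nd (nd (nd (lf 0) (lf 39584566632451)) (nd (lf 0) (lf 39584566665219))) (nd (nd (lf 0) (lf 289920576637459466805465929094932692290011140)) (nd (lf 0) (lf 588526184218267010136225651809723673465445107720627216388))))) (nd (nd (nd (lf 0) (nd (lf 0) (lf 57346))) (lf 0)) (lf 0)))))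

def p67 : Tr :=
  (nd (nd (nd (nd (nd (nd (nd (lf 1) (lf 266243)) (nd (lf 4098) (lf 1170949098330128385))) (nd (nd (lf 532483) (lf 1)) (nd (lf 8194) (lf 18023196750520323)))) (nd (nd (nd (lf 8194) (lf 4098)) (nd (lf 1) (lf 18023194619289602))) (nd (nd (lf 3853582444423543304116627799571546792413165905487629174696254276551594145747304449) (lf 121417268934231870003659422702124159071501615523467168048241228660115322632935837699)) (nd (lf 926562925550275236053620033386366039898925737911127577012288441190768204320770) (lf 22311635584284490675109083734415073949523970))))) (nd (nd (nd (nd (lf 1) (lf 0)) (nd (lf 4098) (lf 75174102573328629761))) (nd (nd (lf 28674) (lf 0)) (nd (lf 1839107) (lf 959266751485011062786)))) (nd (nd (nd (lf 8194) (lf 0)) (nd (lf 1) (lf 1387121879386431490))) (nd (nd (lf 126109587807404033) (lf 0)) (nd (lf 8088478124913725442) (lf 102351529311817075508422470260641243138)))))) (nd (nd (nd (nd (nd (lf 1) (lf 1333078693505400833))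 (nd (lf 0) (lf 79457681409))) (nd (nd (lf 28674) (lf 1)) (nd (lf 0) (lf 16805890)))) (nd (nd (nd (lf 8194) (lf 4098)) (nd (lf 0) (lf 68753039362))) (nd (nd (lf 1549600172199878792545027094911812692225810952893395389036386598021558080378729410317715291237614976720855485054729452648586993552909362536451) (lf 1335644163542050436658967581503075732284602182829977625859804530581338940066499170308)) (nd (lf 0) (lf 3561321353005284974979187844619651354428506115584919461995007840211968003))))) (nd (nd (nd (nd (lf 1) (lf 0)) (nd (lf 0) (lf 330566932836583597408257))) (nd (nd (lf 28674) (lf 0)) (nd (lf 0) (lf 893386780674)))) (nd (nd (nd (lf 4879133204482) (lf 0)) (nd (lf 0) (lf 5291450064898))) (nd (nd (lf 156116108106952957835571842584632320426770433) (lf 0)) (nd (lf 0) (lf 228282189137913100962236990623265241510474891107824163566318031999863128068))))))) (nd (nd (nd (nd (nd (nd (lf 0) (lf 16781314)) (nd (lf 2148007937) (lf 824667279362))) (nd (nd (lf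 0) (lf 1)) (nd (lf 8194) (lf 1153484592033349636)))) (nd (nd (nd (lf 0) (lf 4098)) (nd (lf 1) (lf 1153484455634583555))) (nd (nd (lf 0) (lf 16781314)) (nd (lf 2148007937) (lf 5073078885602008770968700895235))))) (nd (nd (nd (lf 0) (nd (lf 1) (lf 52778705932291))) (nd (lf 0) (nd (lf 1) (lf 57176752701443)))) (nd (nd (lf 0) (nd (lf 1) (lf 88775800280731664387))) (nd (lf 0) (nd (lf 1) (lf 1030004803993315284368509419522)))))) (nd (nd (nd (nd (nd (lf 0) (lf 1)) (nd (lf 0) (lf 49154))) (nd (nd (lf 0) (lf 1)) (nd (lf 0) (lf 18024019286605826)))) (nd (nd (nd (lf 0) (lf 687228366850)) (nd (lf 0) (lf 43982613168131))) (nd (nd (lf 0) (lf 16818178)) (nd (lf 0) (lf 661134766657359921070082))))) (nd (nd (nd (lf 0) (nd (lf 0) (lf 49154))) (nd (lf 0) (nd (lf 0) (lf 53250)))) (nd (nd (lf 0) (nd (lf 0) (lf 1689330930995208))) (lf 0))))))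

def p68 : Tr :=
  (nd (nd (nd (nd (nd (nd (nd (lf 1) (lf 266243)) (nd (lf 4098) (lf 1170949098330128385))) (nd (nd (lf 532483) (lf 1)) (nd (lf 8194) (lf 18023196750520323)))) (nd (nd (nd (lf 8194) (lf 4098)) (nd (lf 1) (lf 18023194619289602))) (nd (nd (lf 3853582444423543304116627799571546792413165905487629174696254276551594145747304449) (lf 121417268934231870003659422702124159071501615523467168048241228660115322632935837699)) (nd (lf 926562925550275236053620033386366039898925737911127577012288441190768204320770) (lf 22311635584284490675109083734415073949523970))))) (nd (nd (nd (nd (lf 1) (lf 0)) (nd (lf 4098) (lf 1074266113))) (lf 0)) (nd (nd (nd (lf 8194) (lf 0)) (nd (lf 1) (lf 16785410))) (nd (nd (lf 2148007937) (lf 0)) (nd (lf 16781314) (lf 68753039362)))))) (nd (nd (nd (nd (nd (lf 1) (lf 81858271664366718978)) (nd (lf 0) (lf 76236455937))) (nd (nd (lf 16386) (lf 1)) (nd (lf 0) (lf 16793602)))) (nd (nd (nd (lf 8194) (lf 4098)) (nd (lf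 0) (lf 68753039362))) (nd (nd (lf 159771655212041729237783937025) (lf 971393746249726235861568455142360731129108609000333180790283238542374942204114788356)) (nd (lf 0) (lf 197693047935752558464693154023537040235953986036817993731))))) (nd (nd (nd (nd (lf 1) (lf 0)) (nd (lf 0) (lf 1))) (lf 0)) (nd (lf 0) (nd (nd (lf 1) (lf 0)) (lf 0)))))) (nd (nd (nd (nd (nd (nd (lf 0) (lf 16781314)) (nd (lf 2148007937) (lf 687228325890))) (nd (nd (lf 0) (lf 1)) (nd (lf 8194) (lf 1153484592033341444)))) (nd (nd (nd (lf 0) (lf 4098)) (nd (lf 1) (lf 1153484455634575363))) (nd (nd (lf 0) (lf 16781314)) (nd (lf 2148007937) (lf 5073078885602008762172607864835))))) (nd (nd (nd (lf 0) (nd (lf 1) (lf 40962))) (lf 0)) (nd (nd (lf 0) (nd (lf 1) (lf 1074307075))) (nd (lf 0) (nd (lf 1) (lf 9483338162178)))))) (nd (nd (nd (nd (nd (lf 0) (lf 1)) (nd (lf 0) (lf 40962))) (nd (nd (lf 0) (lf 1)) (nd (lf 0) (lf 1)))) (nd (nd (nd (lf 0) (lf 481069924354)) (nd (lf 0) (lf 30788473626627)))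 (nd (nd (lf 0) (lf 16805890)) (nd (lf 0) (lf 651690033691483191681026))))) (nd (nd (nd (lf 0) (nd (lf 0) (lf 40962))) (lf 0)) (lf 0)))))

def p69 : Tr :=
  (nd (nd (nd (nd (nd (nd (nd (lf 1) (lf 266243)) (nd (lf 4098) (lf 1170949098330128385))) (nd (nd (lf 532483) (lf 1)) (nd (lf 8194) (lf 18023196750520323)))) (nd (nd (nd (lf 8194) (lf 4098)) (nd (lf 1) (lf 18023194619289602))) (nd (nd (lf 3853582444423543304116627799571546792413165905487629174696254276551594145747304449) (lf 121417268934231870003659422702124159071501615523467168048241228660115322632935837699)) (nd (lf 926562925550275236053620033386366039898925737911127577012288441190768204320770) (lf 22311635584284490675109083734415073949523970))))) (nd (nd (nd (nd (lf 1) (lf 0)) (nd (lf 4098) (lf 75228145768857075713))) (nd (nd (lf 2148007937) (lf 0)) (nd (lf 16781314) (lf 1099545190402)))) (nd (nd (nd (lf 8194) (lf 0)) (nd (lf 1) (lf 1441165074914877442))) (nd (nd (lf 2148007937) (lf 0))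 (nd (lf 16781314) (lf 6338311034395089838890754777090)))))) (nd (nd (nd (nd (nd (lf 1) (lf 32770)) (nd (lf 0) (lf 8590458881))) (nd (nd (lf 6918092120402952193) (lf 1)) (nd (lf 0) (lf 1074286595)))) (nd (nd (nd (lf 8194) (lf 4098)) (nd (lf 0) (lf 68753039362))) (nd (nd (lf 810334697945694423248343265366168625427592679611106072993795) (lf 1549602761562834095644574676877878293241964724443925358761079395246781302575434460292914310595099132459672334140461456991293549801912010317828)) (nd (lf 0) (lf 58687008467734221923289345744496368553330346142475014033626002086336490882344371606009562800131))))) (nd (nd (nd (nd (lf 1) (lf 0)) (nd (lf 0) (lf 18084769401470979))) (nd (nd (lf 1) (lf 0)) (nd (lf 0) (lf 65538)))) (nd (nd (nd (lf 343630954498) (lf 0)) (nd (lf 0) (lf 5497608491010))) (nd (nd (lf 5369233409) (lf 0)) (nd (lf 0) (lf 4835850888791751410384899))))))) (nd (nd (nd (nd (nd (nd (lf 0) (lf 32770)) (nd (lf 2105347) (lf 549789429762))) (nd (nd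 (lf 0) (lf 1)) (nd (lf 8194) (lf 1153484592033361924)))) (nd (nd (nd (lf 0) (lf 4098)) (nd (lf 1) (lf 1153484455634595843))) (nd (nd (lf 0) (lf 4723519967873994883074)) (nd (lf 2476484542635749968122486787) (lf 85112170672398586479303921899106004995))))) (nd (nd (nd (lf 0) (nd (lf 1) (lf 65972845477891))) (nd (lf 0) (nd (lf 1) (lf 70370892247043)))) (nd (nd (lf 0) (nd (lf 1) (lf 92234564794552217603))) (nd (lf 0) (nd (lf 1) (lf 1267689291757469226239814332418)))))) (nd (nd (nd (nd (nd (lf 0) (lf 32770)) (nd (lf 0) (lf 549789429762))) (nd (nd (lf 0) (lf 1)) (nd (lf 0) (lf 4724762407079867379722)))) (nd (nd (nd (lf 0) (lf 48380659662851)) (nd (lf 0) (lf 48380659691523))) (nd (nd (lf 0) (lf 312221321836000231151812917936321716665491460)) (nd (lf 0) (lf 62169199305176719313850029959215376589900260601679198812492031401592324529617902301188))))) (nd (nd (nd (lf 0) (nd (lf 0) (lf 61442))) (nd (lf 0) (nd (lf 0) (lf 65538)))) (nd (nd (lf 0) (nd (lf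 0) (lf 1407787234816008))) (lf 0))))))

def p70 : Tr :=
  (nd (nd (nd (nd (nd (nd (nd (lf 1) (lf 266243)) (nd (lf 4098) (lf 1170949098330128385))) (nd (nd (lf 532483) (lf 1)) (nd (lf 8194) (lf 18023196750520323)))) (nd (nd (nd (lf 8194) (lf 4098)) (nd (lf 1) (lf 18023194619289602))) (nd (nd (lf 3853582444423543304116627799571546792413165905487629174696254276551594145747304449) (lf 121417268934231870003659422702124159071501615523467168048241228660115322632935837699)) (nd (lf 926562925550275236053620033386366039898925737911127577012288441190768204320770) (lf 22311635584284490675109083734415073949523970))))) (nd (nd (nd (nd (lf 1) (lf 0)) (nd (lf 4098) (lf 75120059377800183809))) (nd (nd (lf 2148007937) (lf 0)) (nd (lf 16781314) (lf 687228329986)))) (nd (nd (nd (lf 8194) (lf 0)) (nd (lf 1) (lf 1333078683857985538))) (nd (nd (lf 2148007937) (lf 0)) (nd (lf 16781314) (lf 5862942059302586284301849993218)))))) (nd (nd (nd (nd (nd (lf 1) (lf 32770))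 (nd (lf 0) (lf 8590458881))) (nd (nd (lf 516544872069346643970) (lf 1)) (nd (lf 0) (lf 1074290691)))) (nd (nd (nd (lf 8194) (lf 4098)) (nd (lf 0) (lf 68753039362))) (nd (nd (lf 810432777660401183987696451600024210133328677231807099576323) (lf 435987756174351930820649781825399980036)) (nd (lf 0) (lf 197693047296345592311869844964003180088427513549559177219))))) (nd (nd (nd (nd (lf 1) (lf 0)) (nd (lf 0) (lf 1))) (nd (nd (lf 1) (lf 0)) (nd (lf 0) (lf 40962)))) (nd (nd (nd (lf 412350431234) (lf 0)) (nd (lf 0) (lf 5085291634690))) (nd (nd (lf 6442975233) (lf 0)) (nd (lf 0) (lf 3022462159343419369234435))))))) (nd (nd (nd (nd (lf 0) (nd (nd (lf 0) (lf 1)) (nd (lf 8194) (lf 16785410)))) (nd (nd (nd (lf 0) (lf 4098)) (nd (lf 1) (lf 1074266113))) (nd (nd (lf 0) (lf 16781314)) (nd (lf 2148007937) (lf 68753039362))))) (nd (nd (lf 0) (nd (lf 0) (nd (lf 1) (lf 40962)))) (nd (nd (lf 0) (nd (lf 1) (lf 79457681409))) (nd (lf 0) (nd (lf 1) (lf 43982612897795))))))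 (nd (nd (nd (lf 0) (nd (nd (lf 0) (lf 1)) (nd (lf 0) (lf 1)))) (nd (lf 0) (nd (nd (lf 0) (lf 1)) (lf 0)))) (nd (nd (lf 0) (nd (lf 0) (nd (lf 0) (lf 40962)))) (lf 0)))))

def p71 : Tr :=
  (nd (nd (nd (nd (nd (nd (nd (lf 1) (lf 266243)) (nd (lf 4098) (lf 1170949098330128385))) (nd (nd (lf 532483) (lf 1)) (nd (lf 8194) (lf 18023196750520323)))) (nd (nd (nd (lf 8194) (lf 4098)) (nd (lf 1) (lf 18023194619289602))) (nd (nd (lf 3853582444423543304116627799571546792413165905487629174696254276551594145747304449) (lf 121417268934231870003659422702124159071501615523467168048241228660115322632935837699)) (nd (lf 926562925550275236053620033386366039898925737911127577012288441190768204320770) (lf 22311635584284490675109083734415073949523970))))) (nd (nd (nd (nd (lf 1) (lf 0)) (nd (lf 4098) (lf 75138073776309665793))) (nd (nd (lf 2148007937) (lf 0)) (nd (lf 16781314) (lf 755947806722)))) (nd (nd (nd (lf 8194) (lf 0)) (nd (lf 1) (lf 1351093082367467522)))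 (nd (nd (lf 2148007937) (lf 0)) (nd (lf 16781314) (lf 5942170221818003543400000790530)))))) (nd (nd (nd (nd (nd (lf 1) (lf 1297049894338953217)) (nd (lf 0) (lf 77310197761))) (nd (nd (lf 6918092120402952193) (lf 1)) (nd (lf 0) (lf 1074286595)))) (nd (nd (nd (lf 8194) (lf 4098)) (nd (lf 0) (lf 68753039362))) (nd (nd (lf 810334697945694423248343265366168625427592679611106072993795) (lf 1092810552013834302794034830595932398180939800276881329146790335888696274824909582340)) (nd (lf 0) (lf 51824046382015161512198036909423266815687417388208685127573507))))) (nd (nd (nd (nd (lf 1) (lf 0)) (nd (lf 0) (lf 18062779168894979))) (nd (nd (lf 1) (lf 0)) (nd (lf 0) (lf 45058)))) (nd (nd (nd (lf 343630954498) (lf 0)) (nd (lf 0) (lf 5154011107330))) (nd (nd (lf 5369233409) (lf 0)) (nd (lf 0) (lf 3324693614251474709426179))))))) (nd (nd (nd (nd (nd (nd (lf 0) (lf 16781314)) (nd (lf 2148007937) (lf 687228325890))) (nd (nd (lf 0) (lf 1)) (nd (lf 8194) (lf 1153484592033341444))))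 (nd (nd (nd (lf 0) (lf 4098)) (nd (lf 1) (lf 1153484455634575363))) (nd (nd (lf 0) (lf 16781314)) (nd (lf 2148007937) (lf 5073078885602008762172607864835))))) (nd (nd (nd (lf 0) (nd (lf 1) (lf 43982612901891))) (nd (lf 0) (nd (lf 1) (lf 48380659671043)))) (nd (nd (lf 0) (nd (lf 1) (lf 86469957271517962243))) (nd (lf 0) (nd (lf 1) (lf 871548478817212656454306144258)))))) (nd (nd (nd (nd (nd (lf 0) (lf 1)) (nd (lf 0) (lf 40962))) (nd (nd (lf 0) (lf 1)) (nd (lf 0) (lf 18023881847644162)))) (nd (nd (nd (lf 0) (lf 549789405186)) (nd (lf 0) (lf 35186520137731))) (nd (nd (lf 0) (lf 16809986)) (nd (lf 0) (lf 651690033691483191681026))))) (nd (nd (nd (lf 0) (nd (lf 0) (lf 40962))) (nd (lf 0) (nd (lf 0) (lf 45058)))) (nd (nd (lf 0) (nd (lf 0) (lf 755947839490))) (lf 0))))))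

def p72 : Tr :=
  (nd (nd (nd (nd (nd (nd (nd (lf 1) (lf 266243)) (nd (lf 4098) (lf 1170949098330128385))) (nd (nd (lf 532483) (lf 1)) (nd (lf 8194) (lf 18023196750520323)))) (nd (nd (nd (lf 8194) (lf 4098)) (nd (lf 1) (lf 18023194619289602))) (nd (nd (lf 3853582444423543304116627799571546792413165905487629174696254276551594145747304449) (lf 121417268934231870003659422702124159071501615523467168048241228660115322632935837699)) (nd (lf 926562925550275236053620033386366039898925737911127577012288441190768204320770) (lf 22311635584284490675109083734415073949523970))))) (nd (nd (nd (nd (lf 1) (lf 0)) (nd (lf 4098) (lf 75192116971838111745))) (nd (nd (lf 28674) (lf 0)) (nd (lf 1839107) (lf 1033053727779849269250)))) (nd (nd (nd (lf 8194) (lf 0)) (nd (lf 1) (lf 1405136277895913474))) (nd (nd (lf 126109587807404033) (lf 0)) (nd (lf 8088478124913725442) (lf 103680757307621334194440111387716886530)))))) (nd (nd (nd (nd (nd (lf 1) (lf 5460290328734488068097))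 (nd (lf 0) (lf 79457681409))) (nd (nd (lf 28674) (lf 1)) (nd (lf 0) (lf 16805890)))) (nd (nd (nd (lf 8194) (lf 4098)) (nd (lf 0) (lf 68753039362))) (nd (nd (lf 1549600172199878792545027094911812692225810952893395389036386598021558080378729410317715291237614976720855485054729452648586993552909362536451) (lf 6743303405743848954690836250421174037001757891551185869157876150276)) (nd (lf 0) (lf 5968121730278025230710513307705203395648453723660989280460151251661138089425117825474563))))) (nd (nd (nd (nd (lf 1) (lf 0)) (nd (lf 0) (lf 4894116282369))) (nd (nd (lf 28674) (lf 0)) (nd (lf 0) (lf 962106257410)))) (nd (nd (nd (lf 4879133204482) (lf 0)) (nd (lf 0) (lf 5360169541634))) (nd (nd (lf 156116108106952957835571842584632320426770433) (lf 0)) (nd (lf 0) (lf 3094174712006995768949156841642754664526330749685891076))))))) (nd (nd (nd (nd (nd (nd (lf 0) (lf 36866)) (nd (lf 2367491) (lf 618508898306))) (nd (nd (lf 0) (lf 1)) (nd (lf 8194) (lf 1153484592033353732))))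 (nd (nd (nd (lf 0) (lf 4098)) (nd (lf 1) (lf 1153484455634587651))) (nd (nd (lf 0) (lf 19347537788693357900894212)) (nd (lf 10143680686637184790926798888965) (lf 348619409905926193087326852424699128369155))))) (nd (nd (nd (lf 0) (nd (lf 1) (lf 27350402125826))) (nd (lf 0) (nd (lf 1) (lf 61574799216643)))) (nd (nd (lf 0) (nd (lf 1) (lf 89928721785338515459))) (nd (lf 0) (nd (lf 1) (lf 5238204583077911010375095180423025169033054014984194)))))) (nd (nd (nd (nd (nd (lf 0) (lf 1)) (nd (lf 0) (lf 53250))) (nd (nd (lf 0) (lf 1)) (nd (lf 0) (lf 4724780421478376853514)))) (nd (nd (nd (lf 0) (lf 687228370946)) (nd (lf 0) (lf 43982613172227))) (nd (nd (lf 0) (lf 16818178)) (nd (lf 0) (lf 205355185845259892387316256514810735274907393048116252676))))) (nd (nd (nd (lf 0) (nd (lf 0) (lf 53250))) (nd (lf 0) (nd (lf 0) (lf 57346)))) (nd (nd (lf 0) (nd (lf 0) (lf 2181736775539552120786952))) (lf 0))))))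

def p73 : Tr :=
  (nd (nd (nd (nd (nd (nd (nd (lf 1) (lf 266243)) (nd (lf 4098) (lf 1170949098330128385))) (nd (nd (lf 532483) (lf 1)) (nd (lf 8194) (lf 18023196750520323)))) (nd (nd (nd (lf 8194) (lf 4098)) (nd (lf 1) (lf 18023194619289602))) (nd (nd (lf 3853582444423543304116627799571546792413165905487629174696254276551594145747304449) (lf 121417268934231870003659422702124159071501615523467168048241228660115322632935837699)) (nd (lf 926562925550275236053620033386366039898925737911127577012288441190768204320770) (lf 22311635584284490675109083734415073949523970))))) (nd (nd (nd (nd (lf 1) (lf 0)) (nd (lf 4098) (lf 75228145768857075713))) (nd (nd (lf 28674) (lf 0)) (nd (lf 1839107) (lf 1180627680369525682178)))) (nd (nd (nd (lf 8194) (lf 0)) (nd (lf 1) (lf 1441165074914877442))) (nd (nd (lf 148852992478183686145) (lf 0)) (nd (lf 9526608428955135381506) (lf 435565417673645472016283212366094322900994)))))) (nd (nd (nd (nd (nd (lf 1) (lf 32770))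 (nd (lf 0) (lf 8590458881))) (nd (nd (lf 33132659325435357429761) (lf 1)) (nd (lf 0) (lf 1074290691)))) (nd (nd (nd (lf 8194) (lf 4098)) (nd (lf 0) (lf 68753039362))) (nd (nd (lf 13596830672211384222984803368189279213848996486826840877688181497859) (lf 1549602761562834095644574676877878293241964724443925358761079395246781302575434460292914310595099132459672334140461456991293549801912010317828)) (nd (lf 0) (lf 16518924341673561579882673649604930760036625191160377623941265703308730661509772816367851835340138157560832003))))) (nd (nd (nd (nd (lf 1) (lf 0)) (nd (lf 0) (lf 325844512310521644974081))) (nd (nd (lf 1) (lf 0)) (nd (lf 0) (lf 65538)))) (nd (nd (nd (lf 412350431234) (lf 0)) (nd (lf 0) (lf 5497608495106))) (nd (nd (lf 6442975233) (lf 0)) (nd (lf 0) (lf 198075072049507560813678654022554288577352064187677605898))))))) (nd (nd (nd (nd (nd (nd (lf 0) (lf 32770)) (nd (lf 2105347) (lf 549789429762))) (nd (nd (lf 0) (lf 1)) (nd (lf 8194) (lf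 1153484592033361924)))) (nd (nd (nd (lf 0) (lf 4098)) (nd (lf 1) (lf 1153484455634595843))) (nd (nd (lf 0) (lf 4723519967873994883074)) (nd (lf 2476484542635749968122486787) (lf 85112170672398586479303921899106004995))))) (nd (nd (nd (lf 0) (nd (lf 1) (lf 65972845477891))) (nd (lf 0) (nd (lf 1) (lf 70370893557763)))) (nd (nd (lf 0) (nd (lf 1) (lf 92234564794552217603))) (nd (lf 0) (nd (lf 1) (lf 5986493422088231571185346956496493817032634905194498)))))) (nd (nd (nd (nd (nd (lf 0) (lf 32770)) (nd (lf 0) (lf 549789429762))) (nd (nd (lf 0) (lf 1)) (nd (lf 0) (lf 68754665476)))) (nd (nd (nd (lf 0) (lf 48380659662851)) (nd (lf 0) (lf 48380659691523))) (nd (nd (lf 0) (lf 312221321836000231151812917936321716665491460)) (nd (lf 0) (lf 12260712710186801240598977036596130414563890613738598404))))) (nd (nd (nd (lf 0) (nd (lf 0) (lf 61442))) (nd (lf 0) (nd (lf 0) (lf 65538)))) (nd (nd (lf 0) (nd (lf 0) (lf 1511452459367065106051075))) (lf 0))))))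

def p74 : Tr :=
  (nd (nd (nd (nd (nd (nd (nd (lf 1) (lf 266243)) (nd (lf 4098) (lf 1170949098330128385))) (nd (nd (lf 532483) (lf 1)) (nd (lf 8194) (lf 18023196750520323)))) (nd (nd (nd (lf 8194) (lf 4098)) (nd (lf 1) (lf 18023194619289602))) (nd (nd (lf 3853582444423543304116627799571546792413165905487629174696254276551594145747304449) (lf 121417268934231870003659422702124159071501615523467168048241228660115322632935837699)) (nd (lf 926562925550275236053620033386366039898925737911127577012288441190768204320770) (lf 22311635584284490675109083734415073949523970))))) (nd (nd (nd (nd (lf 1) (lf 0)) (nd (lf 4098) (lf 75192116971838111745))) (nd (nd (lf 24578) (lf 0)) (nd (lf 1576963) (lf 1033053723381802754050)))) (nd (nd (nd (lf 8194) (lf 0)) (nd (lf 1) (lf 1405136277895913474))) (nd (nd (lf 108095189297922049) (lf 0)) (nd (lf 6935556620306878466) (lf 103680757307621334194440111318997409794)))))) (nd (nd (nd (nd (nd (lf 1) (lf 32770)) (nd (lf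 0) (lf 8590458881))) (nd (nd (lf 24578) (lf 1)) (nd (lf 0) (lf 16801794)))) (nd (nd (nd (lf 8194) (lf 4098)) (nd (lf 0) (lf 68753039362))) (nd (nd (lf 5911243414772950137254925814064863197218082156545308761531273758325652585435512900834733746856830062405464630284639754947264653532864515) (lf 25998020244935847836054962150043239017446957110737150727884020476561981092070833868507787366070262507417647152539982685398723978241655008124765507588)) (nd (lf 0) (lf 4014602536269526139332051587197129807156639641293587330136063850425967193764329379615453129661125098741763))))) (nd (nd (nd (nd (lf 1) (lf 0)) (nd (lf 0) (lf 427350032385))) (nd (nd (lf 24578) (lf 0)) (nd (lf 0) (lf 962106253314)))) (nd (nd (nd (lf 4810413723650) (lf 0)) (nd (lf 0) (lf 5360169537538))) (nd (nd (lf 133815362908097816140075466112282747097055233) (lf 0)) (nd (lf 0) (lf 916927781980014165458307030339902295194545380677811436774852994519071751069380197537206792196))))))) (nd (nd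 (nd (nd (nd (nd (lf 0) (lf 32770)) (nd (lf 2105347) (lf 549789421570))) (nd (nd (lf 0) (lf 1)) (nd (lf 8194) (lf 1153484592033353732)))) (nd (nd (nd (lf 0) (lf 4098)) (nd (lf 1) (lf 1153484455634587651))) (nd (nd (lf 0) (lf 4723519967873994883074)) (nd (lf 2476484542635749968122486787) (lf 85112170672398586479303913103012974595))))) (nd (nd (nd (lf 0) (nd (lf 1) (lf 27350402125826))) (nd (lf 0) (nd (lf 1) (lf 61574800527363)))) (nd (nd (lf 0) (nd (lf 1) (lf 89928721785338515459))) (nd (lf 0) (nd (lf 1) (lf 5238204583077910973349791735223607966112605779578882)))))) (nd (nd (nd (nd (nd (lf 0) (lf 32770)) (nd (lf 0) (lf 549789421570))) (nd (nd (lf 0) (lf 1)) (nd (lf 0) (lf 68754657284)))) (nd (nd (nd (lf 0) (lf 43982613151747)) (nd (lf 0) (lf 43982613172227))) (nd (nd (lf 0) (lf 267619831438933914266335846106936137195487236)) (nd (lf 0) (lf 13793208251030389353758144403496982563546044797834285060))))) (nd (nd (nd (lf 0) (nd (lf 0) (lf 27350402125826)))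 (nd (lf 0) (nd (lf 0) (lf 57346)))) (nd (nd (lf 0) (nd (lf 0) (lf 2594850664402947))) (nd (lf 0) (nd (lf 0) (lf 7698453787596670872925032451))))))))

def p75 : Tr :=
  (nd (nd (nd (nd (nd (nd (nd (lf 1) (lf 266243)) (nd (lf 4098) (lf 1170949098330128385))) (nd (nd (lf 532483) (lf 1)) (nd (lf 8194) (lf 18023196750520323)))) (nd (nd (nd (lf 8194) (lf 4098)) (nd (lf 1) (lf 18023194619289602))) (nd (nd (lf 3853582444423543304116627799571546792413165905487629174696254276551594145747304449) (lf 121417268934231870003659422702124159071501615523467168048241228660115322632935837699)) (nd (lf 926562925550275236053620033386366039898925737911127577012288441190768204320770) (lf 22311635584284490675109083734415073949523970))))) (nd (nd (nd (nd (lf 1) (lf 0)) (nd (lf 4098) (lf 75120059377800183809))) (nd (nd (lf 28674) (lf 0)) (nd (lf 1839107) (lf 737905822600496443394)))) (nd (nd (nd (lf 8194) (lf 0)) (nd (lf 1) (lf 1333078683857985538))) (nd (nd (lf 148852992478183686145)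 (lf 0)) (nd (lf 9526608428955135381506) (lf 402898310448760010548713664027083310899202)))))) (nd (nd (nd (nd (nd (lf 1) (lf 32770)) (nd (lf 0) (lf 8590458881))) (nd (nd (lf 2120490196827862875525122) (lf 1)) (nd (lf 0) (lf 1074290691)))) (nd (nd (nd (lf 8194) (lf 4098)) (nd (lf 0) (lf 68753039362))) (nd (nd (lf 3319538738332857476314649259811835745570406446322259640073854979) (lf 435987756174351930820649781825399980036)) (nd (lf 0) (lf 197693047296345592311869844964003180088427513549559177219))))) (nd (nd (nd (nd (lf 1) (lf 0)) (nd (lf 0) (lf 354335588353))) (nd (nd (lf 1) (lf 0)) (nd (lf 0) (lf 40962)))) (nd (nd (nd (lf 412350431234) (lf 0)) (nd (lf 0) (lf 5085291634690))) (nd (nd (lf 6442975233) (lf 0)) (nd (lf 0) (lf 13292929154844187672243043208315576325))))))) (nd (nd (nd (nd (lf 0) (nd (nd (lf 0) (lf 1)) (nd (lf 8194) (lf 16785410)))) (nd (nd (nd (lf 0) (lf 4098)) (nd (lf 1) (lf 1074266113))) (nd (nd (lf 0) (lf 16781314)) (nd (lf 2148007937)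 (lf 68753039362))))) (nd (nd (lf 0) (nd (lf 0) (nd (lf 1) (lf 40962)))) (nd (nd (lf 0) (nd (lf 1) (lf 79457681409))) (nd (lf 0) (nd (lf 1) (lf 43982612897795)))))) (nd (nd (nd (lf 0) (nd (nd (lf 0) (lf 1)) (nd (lf 0) (lf 1)))) (nd (lf 0) (nd (nd (lf 0) (lf 1)) (lf 0)))) (nd (nd (lf 0) (nd (lf 0) (nd (lf 0) (lf 40962)))) (lf 0)))))

def p76 : Tr :=
  (nd (nd (nd (nd (nd (nd (nd (lf 1) (lf 266243)) (nd (lf 4098) (lf 1170949098330128385))) (nd (nd (lf 532483) (lf 1)) (nd (lf 8194) (lf 18023196750520323)))) (nd (nd (nd (lf 8194) (lf 4098)) (nd (lf 1) (lf 18023194619289602))) (nd (nd (lf 3853582444423543304116627799571546792413165905487629174696254276551594145747304449) (lf 121417268934231870003659422702124159071501615523467168048241228660115322632935837699)) (nd (lf 926562925550275236053620033386366039898925737911127577012288441190768204320770) (lf 22311635584284490675109083734415073949523970))))) (nd (nd (nd (nd (lf 1) (lf 0)) (nd (lf 4098) (lf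 1074266113))) (lf 0)) (nd (nd (nd (lf 8194) (lf 0)) (nd (lf 1) (lf 16785410))) (nd (nd (lf 2148007937) (lf 0)) (nd (lf 16781314) (lf 68753039362)))))) (nd (nd (nd (nd (nd (lf 1) (lf 24578)) (nd (lf 0) (lf 6442975233))) (nd (nd (lf 16386) (lf 1)) (nd (lf 0) (lf 16793602)))) (nd (nd (nd (lf 8194) (lf 4098)) (nd (lf 0) (lf 68753039362))) (nd (nd (lf 159771655212041729237783937025) (lf 1549230620135994744916613423088239634920375591715664228373139966651933680080157620361014986868618094780493132226880266616489686883374849359876)) (nd (lf 0) (lf 3755707801330019388871475711385680412683821106245041913223091855005399175673526388009030874570755))))) (nd (nd (nd (nd (lf 1) (lf 0)) (nd (lf 0) (lf 1))) (lf 0)) (nd (lf 0) (nd (nd (lf 1) (lf 0)) (lf 0)))))) (nd (nd (nd (nd (nd (nd (lf 0) (lf 24578)) (nd (lf 1581059) (lf 412350468098))) (nd (nd (lf 0) (lf 1)) (nd (lf 8194) (lf 1153484592033353732)))) (nd (nd (nd (lf 0) (lf 4098)) (nd (lf 1) (lf 1153484455634587651)))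 (nd (nd (lf 0) (lf 4723519967736555921410)) (nd (lf 2476484542635187018168541187) (lf 85112160531193784653468701129387331587))))) (nd (nd (nd (lf 0) (nd (lf 1) (lf 53250))) (lf 0)) (nd (nd (lf 0) (nd (lf 1) (lf 1074319363))) (nd (lf 0) (nd (lf 1) (lf 9689496604674)))))) (nd (nd (nd (nd (nd (lf 0) (lf 24578)) (nd (lf 0) (lf 412350468098))) (nd (nd (lf 0) (lf 1)) (nd (lf 0) (lf 1)))) (nd (nd (nd (lf 0) (lf 39584566632451)) (nd (lf 0) (lf 39584566661123))) (nd (nd (lf 0) (lf 267619831438928843663930210822284330784022532)) (nd (lf 0) (lf 1947269798260648457184607963500547))))) (nd (nd (nd (lf 0) (nd (lf 0) (lf 53250))) (lf 0)) (lf 0)))))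

def p77 : Tr :=
  (nd (nd (nd (nd (nd (nd (nd (lf 1) (lf 266243)) (nd (lf 4098) (lf 1170949098330128385))) (nd (nd (lf 532483) (lf 1)) (nd (lf 8194) (lf 18023196750520323)))) (nd (nd (nd (lf 8194) (lf 4098)) (nd (lf 1) (lf 18023194619289602))) (nd (nd (lf 3853582444423543304116627799571546792413165905487629174696254276551594145747304449) (lf 121417268934231870003659422702124159071501615523467168048241228660115322632935837699)) (nd (lf 926562925550275236053620033386366039898925737911127577012288441190768204320770) (lf 22311635584284490675109083734415073949523970))))) (nd (nd (nd (nd (lf 1) (lf 0)) (nd (lf 4098) (lf 75084030580781219841))) (nd (nd (lf 2148007937) (lf 0)) (nd (lf 16781314) (lf 549789376514)))) (nd (nd (nd (lf 8194) (lf 0)) (nd (lf 1) (lf 1297049886839021570))) (nd (nd (lf 2148007937) (lf 0)) (nd (lf 16781314) (lf 5704485734271751766105548398594)))))) (nd (nd (nd (nd (nd (lf 1) (lf 24578)) (nd (lf 0) (lf 6442975233))) (nd (nd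 (lf 153339404675113304066) (lf 1)) (nd (lf 0) (lf 1074286595)))) (nd (nd (nd (lf 8194) (lf 4098)) (nd (lf 0) (lf 68753039362))) (nd (nd (lf 12148799273440420646774436134012890962457635594243) (lf 433329300182782099074842167704839282692)) (nd (lf 0) (lf 13585362764550168628508992562912309835011017720383469898499218481155))))) (nd (nd (nd (nd (lf 1) (lf 0)) (nd (lf 0) (lf 1))) (nd (nd (lf 1) (lf 0)) (nd (lf 0) (lf 32770)))) (nd (nd (nd (lf 23614139383532258869256) (lf 0)) (nd (lf 0) (lf 4947852677122))) (nd (nd (lf 5369233409) (lf 0)) (nd (lf 0) (lf 2417999249527308688850947))))))) (nd (nd (nd (nd (lf 0) (nd (nd (lf 0) (lf 1)) (nd (lf 8194) (lf 16785410)))) (nd (nd (nd (lf 0) (lf 4098)) (nd (lf 1) (lf 1074266113))) (nd (nd (lf 0) (lf 16781314)) (nd (lf 2148007937) (lf 68753039362))))) (nd (nd (lf 0) (nd (lf 0) (nd (lf 1) (lf 32770)))) (nd (nd (lf 0) (nd (lf 1) (lf 77310197761))) (nd (lf 0) (nd (lf 1) (lf 35186519867395)))))) (nd (nd (nd (lf 0)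 (nd (nd (lf 0) (lf 1)) (nd (lf 0) (lf 1)))) (nd (lf 0) (nd (nd (lf 0) (lf 1)) (lf 0)))) (nd (nd (lf 0) (nd (lf 0) (nd (lf 0) (lf 32770)))) (lf 0)))))

def p78 : Tr :=
  (nd (nd (nd (nd (nd (nd (nd (lf 1) (lf 266243)) (nd (lf 4098) (lf 1170949098330128385))) (nd (nd (lf 532483) (lf 1)) (nd (lf 8194) (lf 18023196750520323)))) (nd (nd (nd (lf 8194) (lf 4098)) (nd (lf 1) (lf 18023194619289602))) (nd (nd (lf 3853582444423543304116627799571546792413165905487629174696254276551594145747304449) (lf 121417268934231870003659422702124159071501615523467168048241228660115322632935837699)) (nd (lf 926562925550275236053620033386366039898925737911127577012288441190768204320770) (lf 22311635584284490675109083734415073949523970))))) (nd (nd (nd (nd (lf 1) (lf 0)) (nd (lf 4098) (lf 75120059377800183809))) (nd (nd (lf 2148007937) (lf 0)) (nd (lf 16781314) (lf 687228329986)))) (nd (nd (nd (lf 8194) (lf 0)) (nd (lf 1) (lf 1333078683857985538))) (nd (nd (lf 2148007937)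 (lf 0)) (nd (lf 16781314) (lf 5862942059302586284301849993218)))))) (nd (nd (nd (nd (nd (lf 1) (lf 1279035494755729409)) (nd (lf 0) (lf 76236455937))) (nd (nd (lf 2395928198048645121) (lf 1)) (nd (lf 0) (lf 1074286595)))) (nd (nd (nd (lf 8194) (lf 4098)) (nd (lf 0) (lf 68753039362))) (nd (nd (lf 176788297153549802122498456939724546051) (lf 971393746249726235861568455142360731129108609000333180790283238542374942204114788356)) (nd (lf 0) (lf 51824046358069918686168522168346098731547963490358826063110147))))) (nd (nd (nd (nd (lf 1) (lf 0)) (nd (lf 0) (lf 18058381122379779))) (nd (nd (lf 1) (lf 0)) (nd (lf 0) (lf 40962)))) (nd (nd (nd (lf 343630954498) (lf 0)) (nd (lf 0) (lf 5085291630594))) (nd (nd (lf 5369233409) (lf 0)) (nd (lf 0) (lf 3022462159343419369234435))))))) (nd (nd (nd (nd (nd (nd (lf 0) (lf 16781314)) (nd (lf 2148007937) (lf 618508849154))) (nd (nd (lf 0) (lf 1)) (nd (lf 8194) (lf 1153484592033337348)))) (nd (nd (nd (lf 0) (lf 4098))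 (nd (lf 1) (lf 1153484455634571267))) (nd (nd (lf 0) (lf 16781314)) (nd (lf 2148007937) (lf 5073078885602008757774561349635))))) (nd (nd (nd (lf 0) (nd (lf 1) (lf 39584566386691))) (nd (lf 0) (nd (lf 1) (lf 43982613155843)))) (nd (nd (lf 0) (nd (lf 1) (lf 85317035766911111171))) (nd (lf 0) (nd (lf 1) (lf 792320316229161342497204506626)))))) (nd (nd (nd (nd (nd (lf 0) (lf 1)) (nd (lf 0) (lf 36866))) (nd (nd (lf 0) (lf 1)) (nd (lf 0) (lf 18023813128163330)))) (nd (nd (nd (lf 0) (lf 481069924354)) (nd (lf 0) (lf 30788473622531))) (nd (nd (lf 0) (lf 16805890)) (nd (lf 0) (lf 646967667208544826986498))))) (nd (nd (nd (lf 0) (nd (lf 0) (lf 36866))) (nd (lf 0) (nd (lf 0) (lf 40962)))) (nd (nd (lf 0) (nd (lf 0) (lf 687228358658))) (lf 0))))))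

def p79 : Tr :=
  (nd (nd (nd (nd (nd (nd (nd (lf 1) (lf 266243)) (nd (lf 4098) (lf 1170949098330128385))) (nd (nd (lf 532483) (lf 1)) (nd (lf 8194) (lf 18023196750520323)))) (nd (nd (nd (lf 8194) (lf 4098)) (nd (lf 1) (lf 18023194619289602))) (nd (nd (lf 3853582444423543304116627799571546792413165905487629174696254276551594145747304449) (lf 121417268934231870003659422702124159071501615523467168048241228660115322632935837699)) (nd (lf 926562925550275236053620033386366039898925737911127577012288441190768204320770) (lf 22311635584284490675109083734415073949523970))))) (nd (nd (nd (nd (lf 1) (lf 0)) (nd (lf 4098) (lf 1074266113))) (lf 0)) (nd (nd (nd (lf 8194) (lf 0)) (nd (lf 1) (lf 16785410))) (nd (nd (lf 2148007937) (lf 0)) (nd (lf 16781314) (lf 68753039362)))))) (nd (nd (nd (nd (nd (lf 1) (lf 4879133204482)) (nd (lf 0) (lf 78383939585))) (nd (nd (lf 142808449025) (lf 1)) (nd (lf 0) (lf 1074302979)))) (nd (nd (nd (lf 8194) (lf 4098)) (nd (lf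 0) (lf 1153485073069121538))) (nd (nd (lf 176788297153549802122498456939724546051) (lf 53923185153166643727249887915318234451827310146900194341950293827588)) (nd (lf 0) (lf 184115997791612146738897842312709872846761107459))))) (nd (nd (nd (nd (lf 1) (lf 0)) (nd (lf 0) (lf 78383939585))) (lf 0)) (nd (nd (nd (lf 5369233409) (lf 0)) (nd (lf 0) (lf 36866))) (nd (nd (lf 5369233409) (lf 0)) (nd (lf 0) (lf 299011))))))) (nd (nd (nd (nd (lf 0) (nd (nd (lf 0) (lf 1)) (nd (lf 8194) (lf 16785410)))) (nd (nd (nd (lf 0) (lf 4098)) (nd (lf 1) (lf 1074266113))) (nd (nd (lf 0) (lf 16781314)) (nd (lf 2148007937) (lf 68753039362))))) (nd (lf 0) (nd (nd (lf 0) (nd (lf 1) (lf 1))) (nd (lf 0) (nd (lf 1) (lf 0)))))) (nd (nd (nd (lf 0) (nd (nd (lf 0) (lf 1)) (nd (lf 0) (lf 1074302979)))) (nd (nd (nd (lf 0) (lf 7516717057)) (nd (lf 0) (lf 36866))) (nd (nd (lf 0) (lf 16805890)) (nd (lf 0) (lf 561155))))) (nd (lf 0) (nd (nd (lf 0) (nd (lf 0) (lf 36866))) (lf 0))))))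

def p80 : Tr :=
  (nd (nd (nd (nd (nd (nd (nd (lf 1) (lf 266243)) (nd (lf 4098) (lf 1170949098330128385))) (nd (nd (lf 532483) (lf 1)) (nd (lf 8194) (lf 18023196750520323)))) (nd (nd (nd (lf 8194) (lf 4098)) (nd (lf 1) (lf 18023194619289602))) (nd (nd (lf 3853582444423543304116627799571546792413165905487629174696254276551594145747304449) (lf 121417268934231870003659422702124159071501615523467168048241228660115322632935837699)) (nd (lf 926562925550275236053620033386366039898925737911127577012288441190768204320770) (lf 22311635584284490675109083734415073949523970))))) (nd (nd (nd (nd (lf 1) (lf 0)) (nd (lf 4098) (lf 75192116971838111745))) (nd (nd (lf 24578) (lf 0)) (nd (lf 1576963) (lf 1033053723381802754050)))) (nd (nd (nd (lf 8194) (lf 0)) (nd (lf 1) (lf 1405136277895913474))) (nd (nd (lf 108095189297922049) (lf 0)) (nd (lf 6935556620306878466) (lf 103680757307621334194440111318997409794)))))) (nd (nd (nd (nd (nd (lf 1) (lf 32770)) (nd (lf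 0) (lf 8590458881))) (nd (nd (lf 24578) (lf 1)) (nd (lf 0) (lf 16801794)))) (nd (nd (nd (lf 8194) (lf 4098)) (nd (lf 0) (lf 68753039362))) (nd (nd (lf 5911243414772950137254925814064863197218082156545308761531273758325652585435512900834733746856830062405464630284639754947264653532864515) (lf 25998020244935847836054962150043239017446957110737150727884020476561981092070833868507787366070262507417647152539982685398723978241655008124765507588)) (nd (lf 0) (lf 4014602536269526139332051587197129807156639641293587330136063850425967193764329379615453129661125098741763))))) (nd (nd (nd (nd (lf 1) (lf 0)) (nd (lf 0) (lf 4894116282369))) (nd (nd (lf 24578) (lf 0)) (nd (lf 0) (lf 962106253314)))) (nd (nd (nd (lf 4810413723650) (lf 0)) (nd (lf 0) (lf 5360169537538))) (nd (nd (lf 133815362908097816140075466112282747097055233) (lf 0)) (nd (lf 0) (lf 12595215267392846784397991638509747635705811200614100996))))))) (nd (nd (nd (nd (nd (nd (lf 0) (lf 32770))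 (nd (lf 2105347) (lf 549789421570))) (nd (nd (lf 0) (lf 1)) (nd (lf 8194) (lf 1153484592033353732)))) (nd (nd (nd (lf 0) (lf 4098)) (nd (lf 1) (lf 1153484455634587651))) (nd (nd (lf 0) (lf 4723519967873994883074)) (nd (lf 2476484542635749968122486787) (lf 85112170672398586479303913103012974595))))) (nd (nd (nd (lf 0) (nd (lf 1) (lf 27350402125826))) (nd (lf 0) (nd (lf 1) (lf 61574800527363)))) (nd (nd (lf 0) (nd (lf 1) (lf 89928721785338515459))) (nd (lf 0) (nd (lf 1) (lf 5238204583077911010715932298057910271804452538208258)))))) (nd (nd (nd (nd (nd (lf 0) (lf 32770)) (nd (lf 0) (lf 549789421570))) (nd (nd (lf 0) (lf 1)) (nd (lf 0) (lf 1075630083)))) (nd (nd (nd (lf 0) (lf 43982613151747)) (nd (lf 0) (lf 43982613172227))) (nd (nd (lf 0) (lf 267619831438933914266335846106936137195487236)) (nd (lf 0) (lf 60663171425375109740225663236606687037297989920210791530136867491844))))) (nd (nd (nd (lf 0) (nd (lf 0) (lf 53250))) (nd (lf 0) (nd (lf 0) (lf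 61574800527363)))) (nd (nd (lf 0) (nd (lf 0) (lf 2031900710981635))) (nd (lf 0) (nd (lf 0) (lf 10174333873280818652439957509))))))))

def p81 : Tr :=
  (nd (nd (nd (nd (nd (nd (nd (lf 1) (lf 266243)) (nd (lf 4098) (lf 1170949098330128385))) (nd (nd (lf 532483) (lf 1)) (nd (lf 8194) (lf 18023196750520323)))) (nd (nd (nd (lf 8194) (lf 4098)) (nd (lf 1) (lf 18023194619289602))) (nd (nd (lf 3853582444423543304116627799571546792413165905487629174696254276551594145747304449) (lf 121417268934231870003659422702124159071501615523467168048241228660115322632935837699)) (nd (lf 926562925550275236053620033386366039898925737911127577012288441190768204320770) (lf 22311635584284490675109083734415073949523970))))) (nd (nd (nd (nd (lf 1) (lf 0)) (nd (lf 4098) (lf 75138073776309665793))) (nd (nd (lf 28674) (lf 0)) (nd (lf 1839107) (lf 811692798895334649858)))) (nd (nd (nd (lf 8194) (lf 0)) (nd (lf 1) (lf 1351093082367467522))) (nd (nd (lf 126109587807404033)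 (lf 0)) (nd (lf 8088478124913725442) (lf 99693073320208558136387188006489956354)))))) (nd (nd (nd (nd (nd (lf 1) (lf 36866)) (nd (lf 0) (lf 9664200705))) (nd (nd (lf 28674) (lf 1)) (nd (lf 0) (lf 16805890)))) (nd (nd (nd (lf 8194) (lf 4098)) (nd (lf 0) (lf 68753039362))) (nd (nd (lf 1549600172199878792545027094911812692225810952893395389036386598021558080378729410317715291237614976720855485054729452648586993552909362536451) (lf 437316984170136846693553588885680328708)) (nd (lf 0) (lf 13585362764550168628783024146711687320225310541393035732677032157187))))) (nd (nd (nd (nd (lf 1) (lf 0)) (nd (lf 0) (lf 1))) (nd (nd (lf 28674) (lf 0)) (nd (lf 0) (lf 755947827202)))) (nd (nd (nd (lf 4879133204482) (lf 0)) (nd (lf 0) (lf 5154011111426))) (nd (nd (lf 156116108106952957835571842584632320426770433) (lf 0)) (nd (lf 0) (lf 137637667025875055405974786682121460709097476))))))) (nd (nd (nd (nd (lf 0) (nd (nd (lf 0) (lf 1)) (nd (lf 8194) (lf 16785410))))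 (nd (nd (nd (lf 0) (lf 4098)) (nd (lf 1) (lf 1074266113))) (nd (nd (lf 0) (lf 16781314)) (nd (lf 2148007937) (lf 68753039362))))) (nd (nd (lf 0) (nd (lf 0) (nd (lf 1) (lf 45058)))) (nd (nd (lf 0) (nd (lf 1) (lf 80531423233))) (nd (lf 0) (nd (lf 1) (lf 48380659412995)))))) (nd (nd (nd (lf 0) (nd (nd (lf 0) (lf 1)) (nd (lf 0) (lf 1)))) (nd (lf 0) (nd (nd (lf 0) (lf 1)) (lf 0)))) (nd (nd (lf 0) (nd (lf 0) (nd (lf 0) (lf 45058)))) (lf 0)))))

def p82 : Tr :=
  (nd (nd (nd (nd (nd (nd (nd (lf 1) (lf 266243)) (nd (lf 4098) (lf 1170949098330128385))) (nd (nd (lf 532483) (lf 1)) (nd (lf 8194) (lf 18023196750520323)))) (nd (nd (nd (lf 8194) (lf 4098)) (nd (lf 1) (lf 18023194619289602))) (nd (nd (lf 3853582444423543304116627799571546792413165905487629174696254276551594145747304449) (lf 121417268934231870003659422702124159071501615523467168048241228660115322632935837699)) (nd (lf 926562925550275236053620033386366039898925737911127577012288441190768204320770)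 (lf 22311635584284490675109083734415073949523970))))) (nd (nd (nd (nd (lf 1) (lf 0)) (nd (lf 4098) (lf 1074266113))) (lf 0)) (nd (nd (nd (lf 8194) (lf 0)) (nd (lf 1) (lf 16785410))) (nd (nd (lf 2148007937) (lf 0)) (nd (lf 16781314) (lf 68753039362)))))) (nd (nd (nd (nd (nd (lf 1) (lf 335291480745973370621954)) (nd (lf 0) (lf 76236455937))) (nd (nd (lf 16386) (lf 1)) (nd (lf 0) (lf 16793602)))) (nd (nd (nd (lf 8194) (lf 4098)) (nd (lf 0) (lf 68753039362))) (nd (nd (lf 159771655212041729237783937025) (lf 220869366387370572706815540901144082541906340521516315604497830869504004)) (nd (lf 0) (lf 197693047935752558464693154023537040235953986036817993731))))) (nd (nd (nd (nd (lf 1) (lf 0)) (nd (lf 0) (lf 1))) (lf 0)) (nd (lf 0) (nd (nd (lf 1) (lf 0)) (lf 0)))))) (nd (nd (nd (nd (nd (nd (lf 0) (lf 24578)) (nd (lf 1581059) (lf 412350455810))) (nd (nd (lf 0) (lf 1)) (nd (lf 8194) (lf 1153484592033341444)))) (nd (nd (nd (lf 0) (lf 4098)) (nd (lf 1) (lf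 1153484455634575363))) (nd (nd (lf 0) (lf 19347537787848932970749956)) (nd (lf 10143680686633726026412977561605) (lf 348619451434159856564122045443501996941315))))) (nd (nd (nd (lf 0) (nd (lf 1) (lf 40962))) (lf 0)) (nd (nd (lf 0) (nd (lf 1) (lf 1074307075))) (nd (lf 0) (nd (lf 1) (lf 9483338162178)))))) (nd (nd (nd (nd (nd (lf 0) (lf 1)) (nd (lf 0) (lf 40962))) (nd (nd (lf 0) (lf 1)) (nd (lf 0) (lf 1074831363)))) (nd (nd (nd (lf 0) (lf 481069924354)) (nd (lf 0) (lf 30788473626627))) (nd (nd (lf 0) (lf 16805890)) (nd (lf 0) (lf 2680898483986624205594828540687720452))))) (nd (nd (nd (lf 0) (nd (lf 0) (lf 40962))) (lf 0)) (lf 0)))))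

def p83 : Tr :=
  (nd (nd (nd (nd (nd (nd (nd (lf 1) (lf 266243)) (nd (lf 4098) (lf 1170949098330128385))) (nd (nd (lf 532483) (lf 1)) (nd (lf 8194) (lf 18023196750520323)))) (nd (nd (nd (lf 8194) (lf 4098)) (nd (lf 1) (lf 18023194619289602))) (nd (nd (lf 3853582444423543304116627799571546792413165905487629174696254276551594145747304449) (lf 121417268934231870003659422702124159071501615523467168048241228660115322632935837699)) (nd (lf 926562925550275236053620033386366039898925737911127577012288441190768204320770) (lf 22311635584284490675109083734415073949523970))))) (nd (nd (nd (nd (lf 1) (lf 0)) (nd (lf 4098) (lf 1074266113))) (lf 0)) (nd (nd (nd (lf 8194) (lf 0)) (nd (lf 1) (lf 16785410))) (nd (nd (lf 2148007937) (lf 0)) (nd (lf 16781314) (lf 68753039362)))))) (nd (nd (nd (nd (nd (lf 1) (lf 80705350297198792706)) (nd (lf 0) (lf 75162714113))) (nd (nd (lf 16386) (lf 1)) (nd (lf 0) (lf 16793602)))) (nd (nd (nd (lf 8194) (lf 4098)) (nd (lf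 0) (lf 68753039362))) (nd (nd (lf 159771655212041729237783937025) (lf 554635832744652020918249611267)) (nd (lf 0) (lf 197693047844408706131511716565204337278268691321509388291))))) (nd (nd (nd (nd (lf 1) (lf 0)) (nd (lf 0) (lf 1))) (lf 0)) (nd (lf 0) (nd (nd (lf 1) (lf 0)) (lf 0)))))) (nd (nd (nd (nd (nd (nd (lf 0) (lf 16781314)) (nd (lf 2148007937) (lf 618508849154))) (nd (nd (lf 0) (lf 1)) (nd (lf 8194) (lf 1153484592033337348)))) (nd (nd (nd (lf 0) (lf 4098)) (nd (lf 1) (lf 1153484455634571267))) (nd (nd (lf 0) (lf 16781314)) (nd (lf 2148007937) (lf 5073078885602008757774561349635))))) (nd (nd (nd (lf 0) (nd (lf 1) (lf 36866))) (lf 0)) (nd (nd (lf 0) (nd (lf 1) (lf 1074302979))) (nd (lf 0) (nd (lf 1) (lf 9414618681346)))))) (nd (nd (nd (nd (nd (lf 0) (lf 1)) (nd (lf 0) (lf 36866))) (nd (nd (lf 0) (lf 1)) (nd (lf 0) (lf 1)))) (nd (nd (nd (lf 0) (lf 412350443522)) (nd (lf 0) (lf 26390427111427))) (nd (nd (lf 0) (lf 16801794)) (nd (lf 0) (lf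 646967667208544826986498))))) (nd (nd (nd (lf 0) (nd (lf 0) (lf 36866))) (lf 0)) (lf 0)))))

def p84 : Tr :=
  (nd (nd (nd (nd (nd (nd (nd (lf 1) (lf 266243)) (nd (lf 4098) (lf 1170949098330128385))) (nd (nd (lf 532483) (lf 1)) (nd (lf 8194) (lf 18023196750520323)))) (nd (nd (nd (lf 8194) (lf 4098)) (nd (lf 1) (lf 18023194619289602))) (nd (nd (lf 3853582444423543304116627799571546792413165905487629174696254276551594145747304449) (lf 121417268934231870003659422702124159071501615523467168048241228660115322632935837699)) (nd (lf 926562925550275236053620033386366039898925737911127577012288441190768204320770) (lf 22311635584284490675109083734415073949523970))))) (nd (nd (nd (nd (lf 1) (lf 0)) (nd (lf 4098) (lf 75120059377800183809))) (nd (nd (lf 2148007937) (lf 0)) (nd (lf 16781314) (lf 687228329986)))) (nd (nd (nd (lf 8194) (lf 0)) (nd (lf 1) (lf 1333078683857985538))) (nd (nd (lf 2148007937) (lf 0)) (nd (lf 16781314) (lf 5862942059302586284301849993218))))))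 (nd (nd (nd (nd (nd (lf 1) (lf 1279035488329535490)) (nd (lf 0) (lf 76236455937))) (nd (nd (lf 6918092120402952193) (lf 1)) (nd (lf 0) (lf 1074286595)))) (nd (nd (nd (lf 8194) (lf 4098)) (nd (lf 0) (lf 68753039362))) (nd (nd (lf 810334697945694423248343265366168625427592679611106072993795) (lf 633863995258916358511793565699)) (nd (lf 0) (lf 51824046358069918686168522168346098731547963490358826063110147))))) (nd (nd (nd (nd (lf 1) (lf 0)) (nd (lf 0) (lf 18058381122379779))) (nd (nd (lf 1) (lf 0)) (nd (lf 0) (lf 40962)))) (nd (nd (nd (lf 343630954498) (lf 0)) (nd (lf 0) (lf 5085291630594))) (nd (nd (lf 5369233409) (lf 0)) (nd (lf 0) (lf 3022462159343419369234435))))))) (nd (nd (nd (nd (nd (nd (lf 0) (lf 16781314)) (nd (lf 2148007937) (lf 618508849154))) (nd (nd (lf 0) (lf 1)) (nd (lf 8194) (lf 1153484592033337348)))) (nd (nd (nd (lf 0) (lf 4098)) (nd (lf 1) (lf 1153484455634571267))) (nd (nd (lf 0) (lf 16781314)) (nd (lf 2148007937) (lf 5073078885602008757774561349635)))))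 (nd (nd (nd (lf 0) (nd (lf 1) (lf 39584566386691))) (nd (lf 0) (nd (lf 1) (lf 43982613155843)))) (nd (nd (lf 0) (nd (lf 1) (lf 85317035766911111171))) (nd (lf 0) (nd (lf 1) (lf 792320316229161342497204506626)))))) (nd (nd (nd (nd (nd (lf 0) (lf 1)) (nd (lf 0) (lf 36866))) (nd (nd (lf 0) (lf 1)) (nd (lf 0) (lf 18023813128163330)))) (nd (nd (nd (lf 0) (lf 481069924354)) (nd (lf 0) (lf 30788473622531))) (nd (nd (lf 0) (lf 16805890)) (nd (lf 0) (lf 646967667208544826986498))))) (nd (nd (nd (lf 0) (nd (lf 0) (lf 36866))) (nd (lf 0) (nd (lf 0) (lf 40962)))) (nd (nd (lf 0) (nd (lf 0) (lf 687228358658))) (lf 0))))))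

def p85 : Tr :=
  (nd (nd (nd (nd (nd (nd (nd (lf 1) (lf 266243)) (nd (lf 4098) (lf 1170949098330128385))) (nd (nd (lf 532483) (lf 1)) (nd (lf 8194) (lf 18023196750520323)))) (nd (nd (nd (lf 8194) (lf 4098)) (nd (lf 1) (lf 18023194619289602))) (nd (nd (lf 3853582444423543304116627799571546792413165905487629174696254276551594145747304449) (lf 121417268934231870003659422702124159071501615523467168048241228660115322632935837699)) (nd (lf 926562925550275236053620033386366039898925737911127577012288441190768204320770) (lf 22311635584284490675109083734415073949523970))))) (nd (nd (nd (nd (lf 1) (lf 0)) (nd (lf 4098) (lf 1074266113))) (lf 0)) (nd (nd (nd (lf 8194) (lf 0)) (nd (lf 1) (lf 16785410))) (nd (nd (lf 2148007937) (lf 0)) (nd (lf 16781314) (lf 68753039362)))))) (nd (nd (nd (nd (nd (lf 1) (lf 76236455937)) (nd (lf 0) (lf 78383939585))) (nd (nd (lf 26390427095043) (lf 1)) (nd (lf 0) (lf 1074302979)))) (nd (nd (nd (lf 8194) (lf 4098)) (nd (lf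 0) (lf 1153485073069121538))) (nd (nd (lf 810334697945694423248343265366168627212573423159537125564419) (lf 633863995258916358511793565699)) (nd (lf 0) (lf 184115997791612146738897842312709872846761107459))))) (nd (nd (nd (nd (lf 1) (lf 0)) (nd (lf 0) (lf 78383939585))) (lf 0)) (nd (nd (nd (lf 5369233409) (lf 0)) (nd (lf 0) (lf 36866))) (nd (nd (lf 5369233409) (lf 0)) (nd (lf 0) (lf 299011))))))) (nd (nd (nd (nd (lf 0) (nd (nd (lf 0) (lf 1)) (nd (lf 8194) (lf 16785410)))) (nd (nd (nd (lf 0) (lf 4098)) (nd (lf 1) (lf 1074266113))) (nd (nd (lf 0) (lf 16781314)) (nd (lf 2148007937) (lf 68753039362))))) (nd (lf 0) (nd (nd (lf 0) (nd (lf 1) (lf 1))) (nd (lf 0) (nd (lf 1) (lf 0)))))) (nd (nd (nd (lf 0) (nd (nd (lf 0) (lf 1)) (nd (lf 0) (lf 1074302979)))) (nd (nd (nd (lf 0) (lf 7516717057)) (nd (lf 0) (lf 36866))) (nd (nd (lf 0) (lf 16805890)) (nd (lf 0) (lf 561155))))) (nd (lf 0) (nd (nd (lf 0) (nd (lf 0) (lf 36866))) (lf 0))))))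

def p86 : Tr :=
  (nd (nd (nd (nd (nd (nd (nd (lf 1) (lf 266243)) (nd (lf 4098) (lf 1170949098330128385))) (nd (nd (lf 532483) (lf 1)) (nd (lf 8194) (lf 18023196750520323)))) (nd (nd (nd (lf 8194) (lf 4098)) (nd (lf 1) (lf 18023194619289602))) (nd (nd (lf 3853582444423543304116627799571546792413165905487629174696254276551594145747304449) (lf 121417268934231870003659422702124159071501615523467168048241228660115322632935837699)) (nd (lf 926562925550275236053620033386366039898925737911127577012288441190768204320770) (lf 22311635584284490675109083734415073949523970))))) (nd (nd (nd (nd (lf 1) (lf 0)) (nd (lf 4098) (lf 75192116971838111745))) (nd (nd (lf 28674) (lf 0)) (nd (lf 1839107) (lf 1033053727779849269250)))) (nd (nd (nd (lf 8194) (lf 0)) (nd (lf 1) (lf 1405136277895913474))) (nd (nd (lf 126109587807404033) (lf 0)) (nd (lf 8088478124913725442) (lf 103680757307621334194440111387716886530)))))) (nd (nd (nd (nd (nd (lf 1) (lf 5460290328734488068097))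 (nd (lf 0) (lf 79457681409))) (nd (nd (lf 28674) (lf 1)) (nd (lf 0) (lf 16805890)))) (nd (nd (nd (lf 8194) (lf 4098)) (nd (lf 0) (lf 68753039362))) (nd (nd (lf 1549600172199878792545027094911812692225810952893395389036386598021558080378729410317715291237614976720855485054729452648586993552909362536451) (lf 6743303405743848954690836250591335989649661262593387294859110694916)) (nd (lf 0) (lf 79610595914247658053575011727170585880299625151931993144676042118761220939779))))) (nd (nd (nd (nd (lf 1) (lf 0)) (nd (lf 0) (lf 4894116282369))) (nd (nd (lf 28674) (lf 0)) (nd (lf 0) (lf 962106257410)))) (nd (nd (nd (lf 4879133204482) (lf 0)) (nd (lf 0) (lf 5360169541634))) (nd (nd (lf 156116108106952957835571842584632320426770433) (lf 0)) (nd (lf 0) (lf 3094174712006995768949156841642754664526330749685891076))))))) (nd (nd (nd (nd (nd (nd (lf 0) (lf 36866)) (nd (lf 2367491) (lf 618508898306))) (nd (nd (lf 0) (lf 1)) (nd (lf 8194) (lf 1153484592033353732))))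 (nd (nd (nd (lf 0) (lf 4098)) (nd (lf 1) (lf 1153484455634587651))) (nd (nd (lf 0) (lf 19347537788693357900894212)) (nd (lf 10143680686637184790926798888965) (lf 348619451449371663766860798274656574951427))))) (nd (nd (nd (lf 0) (nd (lf 1) (lf 27350402125826))) (nd (lf 0) (nd (lf 1) (lf 61574800527363)))) (nd (nd (lf 0) (nd (lf 1) (lf 89928721785338515459))) (nd (lf 0) (nd (lf 1) (lf 24736721753541290894008260233624357560679062484047947675539127515423494146)))))) (nd (nd (nd (nd (nd (lf 0) (lf 1)) (nd (lf 0) (lf 53250))) (nd (nd (lf 0) (lf 1)) (nd (lf 0) (lf 68754657284)))) (nd (nd (nd (lf 0) (lf 687228366850)) (nd (lf 0) (lf 43982613172227))) (nd (nd (lf 0) (lf 16818178)) (nd (lf 0) (lf 2787290174327492069975938972739227652))))) (nd (nd (nd (lf 0) (nd (lf 0) (lf 53250))) (nd (lf 0) (nd (lf 0) (lf 57346)))) (nd (nd (lf 0) (nd (lf 0) (lf 2031900710981635))) (lf 0))))))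

def p87 : Tr :=
  (nd (nd (nd (nd (nd (nd (nd (lf 1) (lf 266243)) (nd (lf 4098) (lf 1170949098330128385))) (nd (nd (lf 532483) (lf 1)) (nd (lf 8194) (lf 18023196750520323)))) (nd (nd (nd (lf 8194) (lf 4098)) (nd (lf 1) (lf 18023194619289602))) (nd (nd (lf 3853582444423543304116627799571546792413165905487629174696254276551594145747304449) (lf 121417268934231870003659422702124159071501615523467168048241228660115322632935837699)) (nd (lf 926562925550275236053620033386366039898925737911127577012288441190768204320770) (lf 22311635584284490675109083734415073949523970))))) (nd (nd (nd (nd (lf 1) (lf 0)) (nd (lf 4098) (lf 75228145768857075713))) (nd (nd (lf 28674) (lf 0)) (nd (lf 1839107) (lf 1180627680369525682178)))) (nd (nd (nd (lf 8194) (lf 0)) (nd (lf 1) (lf 1441165074914877442))) (nd (nd (lf 148852992478183686145) (lf 0)) (nd (lf 9526608428955135381506) (lf 435565417673645472016283212366094322900994)))))) (nd (nd (nd (nd (nd (lf 1) (lf 32770))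 (nd (lf 0) (lf 8590458881))) (nd (nd (lf 33132659325435357429761) (lf 1)) (nd (lf 0) (lf 1074290691)))) (nd (nd (nd (lf 8194) (lf 4098)) (nd (lf 0) (lf 68753039362))) (nd (nd (lf 51867792786450898067416394684559933524537600723785033038700547) (lf 1549602761562834095644574676877878293241964724443925358761079395246781302575434460292914310595099132459672334140461456991293549801912010317828)) (nd (lf 0) (lf 240381986683839372997793160169457125594441097799577657481732104545649640632337125564540113448607747))))) (nd (nd (nd (nd (lf 1) (lf 0)) (nd (lf 0) (lf 4758824812545))) (nd (nd (lf 1) (lf 0)) (nd (lf 0) (lf 65538)))) (nd (nd (nd (lf 412350431234) (lf 0)) (nd (lf 0) (lf 5497608495106))) (nd (nd (lf 6442975233) (lf 0)) (nd (lf 0) (lf 2684417792915391557466361049476562948))))))) (nd (nd (nd (nd (nd (nd (lf 0) (lf 32770)) (nd (lf 2105347) (lf 549789429762))) (nd (nd (lf 0) (lf 1)) (nd (lf 8194) (lf 1153484592033361924)))) (nd (nd (nd (lf 0) (lf 4098))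 (nd (lf 1) (lf 1153484455634595843))) (nd (nd (lf 0) (lf 4723519967873994883074)) (nd (lf 2476484542635749968122486787) (lf 85112170672398586479303921899106004995))))) (nd (nd (nd (lf 0) (nd (lf 1) (lf 18691748065282))) (nd (lf 0) (nd (lf 1) (lf 70370893557763)))) (nd (nd (lf 0) (nd (lf 1) (lf 92234564794552217603))) (nd (lf 0) (nd (lf 1) (lf 28270415886389068667817267319376228365339124123454759025274175910106427394)))))) (nd (nd (nd (nd (nd (lf 0) (lf 32770)) (nd (lf 0) (lf 549789429762))) (nd (nd (lf 0) (lf 1)) (nd (lf 0) (lf 68754665476)))) (nd (nd (nd (lf 0) (lf 48380659662851)) (nd (lf 0) (lf 48380659691523))) (nd (nd (lf 0) (lf 312221321836000231151812917936321716665483268)) (nd (lf 0) (lf 12260712710186801240598977036596130414563890613738598404))))) (nd (nd (nd (lf 0) (nd (lf 0) (lf 61442))) (nd (lf 0) (nd (lf 0) (lf 65538)))) (nd (nd (lf 0) (nd (lf 0) (lf 1477746850590723))) (lf 0))))))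

def p88 : Tr :=
  (nd (nd (nd (nd (lf 0) (nd (lf 0) (nd (nd (lf 131073) (lf 8654850)) (nd (lf 8392706) (lf 9570253361512449))))) (nd (lf 0) (nd (lf 0) (nd (nd (lf 131073) (lf 0)) (nd (lf 135169) (lf 648286548034352418388312065)))))) (nd (nd (lf 0) (nd (lf 0) (nd (nd (lf 131073) (lf 8654850)) (nd (lf 0) (lf 11033750285605280371018479398944769))))) (nd (lf 0) (nd (lf 0) (nd (nd (lf 131073) (lf 0)) (nd (lf 0) (lf 747423502376144564510997123861607249326505985))))))) (nd (nd (nd (lf 0) (nd (lf 0) (nd (nd (lf 0) (lf 8654850)) (nd (lf 135169) (lf 36507619329))))) (nd (lf 0) (nd (lf 0) (nd (lf 0) (nd (lf 135169) (lf 2473016922128114388993)))))) (nd (nd (lf 0) (nd (lf 0) (nd (nd (lf 0) (lf 139265)) (nd (lf 0) (lf 139265))))) (lf 0))))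

def p89 : Tr :=
  (nd (nd (nd (nd (lf 0) (nd (lf 0) (nd (nd (lf 131073) (lf 8654850)) (nd (lf 8392706) (lf 9570253361512449))))) (nd (lf 0) (nd (lf 0) (nd (nd (lf 131073) (lf 0)) (nd (lf 135169) (lf 648286548034633893365022721)))))) (nd (nd (lf 0) (nd (lf 0) (nd (nd (lf 131073) (lf 8654850)) (nd (lf 0) (lf 185115611831661479525172783577668685529089))))) (nd (lf 0) (nd (lf 0) (nd (nd (lf 131073) (lf 0)) (nd (lf 0) (lf 12539685542846535123897668137820388537545575850967041))))))) (nd (nd (nd (lf 0) (nd (lf 0) (nd (nd (lf 0) (lf 8654850)) (nd (lf 135169) (lf 657662803234221206723391495))))) (nd (lf 0) (nd (lf 0) (nd (lf 0) (nd (lf 135169) (lf 44549912355927770357374924301764423687)))))) (nd (nd (lf 0) (nd (lf 0) (nd (nd (lf 0) (lf 139265)) (nd (lf 0) (lf 12721049430284706624176030640350763341243622638514183))))) (nd (lf 0) (nd (lf 0) (nd (lf 0) (nd (lf 0) (lf 618508873730))))))))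

def p90 : Tr :=
  (nd (nd (nd (nd (lf 0) (nd (lf 0) (nd (nd (lf 131073) (lf 8654850)) (nd (lf 8392706) (lf 9570253361512449))))) (nd (lf 0) (nd (lf 0) (nd (nd (lf 131073) (lf 0)) (nd (lf 135169) (lf 35433873409)))))) (nd (nd (lf 0) (nd (lf 0) (nd (nd (lf 131073) (lf 8654850)) (nd (lf 0) (lf 45194238753398566419467209886557143041))))) (nd (lf 0) (nd (lf 0) (nd (nd (lf 131073) (lf 0)) (nd (lf 0) (lf 131073))))))) (nd (nd (nd (lf 0) (nd (lf 0) (nd (nd (lf 0) (lf 8654850)) (nd (lf 135169) (lf 657662803234221206723391495))))) (nd (lf 0) (nd (lf 0) (nd (lf 0) (nd (lf 135169) (lf 2434997380066038018055)))))) (nd (nd (lf 0) (nd (lf 0) (nd (nd (lf 0) (lf 139265)) (nd (lf 0) (lf 758233631133077150369582505679132008563372039))))) (lf 0))))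

def p91 : Tr :=
  (lf 0)

def p92 : Tr :=
  (nd (nd (nd (nd (lf 0) (nd (lf 0) (nd (nd (lf 8396802) (lf 8392706)) (nd (lf 131073) (lf 594481747907846146))))) (nd (lf 0) (nd (lf 0) (nd (nd (lf 8396802) (lf 0)) (nd (lf 131073) (lf 2362444264723674308610)))))) (nd (nd (lf 0) (nd (lf 0) (nd (nd (lf 8396802) (lf 8392706)) (nd (lf 0) (lf 2267767906306))))) (nd (lf 0) (nd (lf 0) (nd (nd (lf 1) (lf 0)) (nd (lf 0) (lf 537157635))))))) (nd (nd (nd (lf 0) (nd (lf 0) (nd (nd (lf 0) (lf 8392706)) (nd (lf 131073) (lf 35433873409))))) (nd (lf 0) (nd (lf 0) (nd (lf 0) (nd (lf 131073) (lf 140812651200513)))))) (nd (nd (lf 0) (nd (lf 0) (nd (nd (lf 0) (lf 135169)) (nd (lf 0) (lf 135169))))) (lf 0))))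

def p93 : Tr :=
  (nd (nd (nd (nd (lf 0) (nd (lf 0) (nd (nd (lf 8396802) (lf 8392706)) (nd (lf 131073) (lf 594481747907846146))))) (nd (lf 0) (nd (lf 0) (nd (nd (lf 8396802) (lf 0)) (nd (lf 131073) (lf 2199048429570)))))) (nd (nd (lf 0) (nd (lf 0) (nd (nd (lf 8396802) (lf 8392706)) (nd (lf 0) (lf 2434997248535893647362))))) (lf 0))) (nd (nd (nd (lf 0) (nd (lf 0) (nd (nd (lf 0) (lf 8392706)) (nd (lf 131073) (lf 35433873409))))) (nd (lf 0) (nd (lf 0) (nd (lf 0) (nd (lf 131073) (lf 131073)))))) (nd (nd (lf 0) (nd (lf 0) (nd (nd (lf 0) (lf 135169)) (nd (lf 0) (lf 145137146028035))))) (lf 0))))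

def p94 : Tr :=
  (nd (nd (nd (nd (lf 0) (nd (lf 0) (nd (nd (lf 131073) (lf 537137155)) (nd (lf 8392706) (lf 2362354192732176121857))))) (nd (lf 0) (nd (lf 0) (nd (nd (lf 131073) (lf 0)) (nd (lf 8392706) (lf 151190757441412922998785)))))) (nd (nd (lf 0) (nd (lf 0) (nd (nd (lf 131073) (lf 1)) (nd (lf 0) (lf 131073))))) (nd (lf 0) (nd (lf 0) (nd (nd (lf 131073) (lf 0)) (nd (lf 0) (lf 131073))))))) (lf 0))

def p95 : Tr :=
  (nd (nd (nd (nd (lf 0) (nd (lf 0) (nd (nd (lf 131073) (lf 135169)) (nd (lf 8392706) (lf 594481748957069313))))) (nd (lf 0) (nd (lf 0) (nd (nd (lf 131073) (lf 0)) (nd (lf 8392706) (lf 2200097652737)))))) (nd (nd (lf 0) (nd (lf 0) (nd (nd (lf 131073) (lf 135169)) (nd (lf 0) (lf 35433873409))))) (nd (lf 0) (nd (lf 0) (nd (nd (lf 131073) (lf 0)) (nd (lf 0) (lf 131073))))))) (nd (nd (nd (lf 0) (nd (lf 0) (nd (nd (lf 0) (lf 135169)) (nd (lf 8658946) (lf 2267768168450))))) (lf 0)) (nd (nd (lf 0) (nd (lf 0) (nd (nd (lf 0) (lf 135169))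 (nd (lf 0) (lf 135169))))) (lf 0))))

def p96 : Tr :=
  (nd (nd (nd (nd (lf 0) (nd (lf 0) (nd (nd (lf 537403395) (lf 131073)) (nd (lf 8396802) (lf 2361210271831364739075))))) (lf 0)) (nd (nd (lf 0) (nd (lf 0) (nd (nd (lf 1) (lf 131073)) (nd (lf 0) (lf 131073))))) (lf 0))) (nd (nd (nd (lf 0) (nd (lf 0) (nd (nd (lf 0) (lf 131073)) (nd (lf 8396802) (lf 151117457397207343321092))))) (lf 0)) (nd (nd (lf 0) (nd (lf 0) (nd (nd (lf 0) (lf 131073)) (nd (lf 0) (lf 131073))))) (lf 0))))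

def p97 : Tr :=
  (nd (nd (nd (nd (lf 0) (nd (lf 0) (nd (nd (lf 537403395) (lf 131073)) (nd (lf 8396802) (lf 2361210271831364739075))))) (lf 0)) (nd (nd (lf 0) (nd (lf 0) (nd (nd (lf 1) (lf 131073)) (nd (lf 0) (lf 131073))))) (lf 0))) (nd (nd (nd (lf 0) (nd (lf 0) (nd (nd (lf 0) (lf 131073)) (nd (lf 8396802) (lf 2199048429570))))) (lf 0)) (nd (nd (lf 0) (nd (lf 0) (nd (nd (lf 0) (lf 131073)) (nd (lf 0) (lf 131073))))) (lf 0))))

def p98 : Tr :=
  (nd (nd (nd (nd (lf 0) (nd (lf 0) (nd (nd (lf 131073) (lf 8654850)) (nd (lf 8392706) (lf 594756798662443009))))) (nd (lf 0) (nd (lf 0) (nd (nd (lf 131073) (lf 0)) (nd (lf 135169) (lf 35433873409)))))) (nd (nd (lf 0) (nd (lf 0) (nd (nd (lf 131073) (lf 8654850)) (nd (lf 0) (lf 2436123842996872282113))))) (nd (lf 0) (nd (lf 0) (nd (nd (lf 131073) (lf 0)) (nd (lf 0) (lf 140812651200513))))))) (nd (nd (nd (lf 0) (nd (lf 0) (nd (nd (lf 0) (lf 8654850)) (nd (lf 135169) (lf 2268817133569))))) (nd (lf 0) (nd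 (lf 0) (nd (lf 0) (nd (lf 135169) (lf 135169)))))) (lf 0)))

def p99 : Tr :=
  (nd (nd (nd (nd (lf 0) (nd (lf 0) (nd (nd (lf 131073) (lf 8654850)) (nd (lf 8392706) (lf 594756798662443009))))) (nd (lf 0) (nd (lf 0) (nd (nd (lf 131073) (lf 0)) (nd (lf 135169) (lf 35433873409)))))) (nd (nd (lf 0) (nd (lf 0) (nd (nd (lf 131073) (lf 8654850)) (nd (lf 0) (lf 2268817129473))))) (nd (lf 0) (nd (lf 0) (nd (nd (lf 131073) (lf 0)) (nd (lf 0) (lf 131073))))))) (nd (nd (nd (lf 0) (nd (lf 0) (nd (nd (lf 0) (lf 8654850)) (nd (lf 135169) (lf 2436123847321367109635))))) (nd (lf 0) (nd (lf 0) (nd (lf 0) (nd (lf 135169) (lf 145137146028035)))))) (nd (nd (lf 0) (nd (lf 0) (nd (nd (lf 0) (lf 1)) (nd (lf 0) (lf 537419779))))) (lf 0))))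

def p100 : Tr :=
  (nd (nd (nd (nd (lf 0) (nd (lf 0) (nd (nd (lf 8396802) (lf 8392706)) (nd (lf 131073) (lf 36911513541070036994))))) (nd (lf 0) (nd (lf 0) (nd (nd (lf 8396802) (lf 0)) (nd (lf 131073) (lf 2199048429570)))))) (nd (nd (lf 0) (nd (lf 0) (nd (nd (lf 8396802) (lf 8392706)) (nd (lf 0) (lf 140806249783298))))) (lf 0))) (nd (nd (nd (lf 0) (nd (lf 0) (nd (nd (lf 0) (lf 8392706)) (nd (lf 131073) (lf 2200097652737))))) (nd (lf 0) (nd (lf 0) (nd (lf 0) (nd (lf 131073) (lf 131073)))))) (lf 0)))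

def p101 : Tr :=
  (nd (nd (nd (nd (lf 0) (nd (lf 0) (nd (nd (lf 131073) (lf 537137155)) (nd (lf 8392706) (lf 2362354192732176121857))))) (nd (lf 0) (nd (lf 0) (nd (nd (lf 131073) (lf 0)) (nd (lf 8392706) (lf 2200097652737)))))) (nd (nd (lf 0) (nd (lf 0) (nd (nd (lf 131073) (lf 1)) (nd (lf 0) (lf 131073))))) (nd (lf 0) (nd (lf 0) (nd (nd (lf 131073) (lf 0)) (nd (lf 0) (lf 131073))))))) (lf 0))

def p102 : Tr :=
  (nd (nd (nd (nd (lf 0) (nd (lf 0) (nd (nd (lf 131073) (lf 8654850)) (nd (lf 8392706) (lf 9570253361512449))))) (nd (lf 0) (nd (lf 0) (nd (nd (lf 131073) (lf 0)) (nd (lf 135169) (lf 175094259566593334543036298166273)))))) (nd (nd (lf 0) (nd (lf 0) (nd (nd (lf 131073) (lf 8654850)) (nd (lf 0) (lf 172402367857627092549293740523521))))) (nd (lf 0) (nd (lf 0) (nd (nd (lf 131073) (lf 0)) (nd (lf 0) (lf 3154217768555290583604366174408062874982313230337))))))) (nd (nd (nd (lf 0) (nd (lf 0) (nd (nd (lf 0) (lf 8654850)) (nd (lf 135169) (lf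 172402357891031684017350823931914))))) (nd (lf 0) (nd (lf 0) (nd (lf 0) (nd (lf 135169) (lf 3154217768555290583604356207812654343039396638730)))))) (nd (nd (lf 0) (nd (lf 0) (nd (nd (lf 0) (lf 139265)) (nd (lf 0) (lf 3105724958565602203167492704902104146679744458762))))) (nd (lf 0) (nd (lf 0) (nd (lf 0) (nd (lf 0) (lf 56821335868444016270303587034794608638865532671565072244610461706))))))))

def p103 : Tr :=
  (nd (nd (nd (nd (lf 0) (nd (lf 0) (nd (nd (lf 131073) (lf 8654850)) (nd (lf 8392706) (lf 9570253361512449))))) (nd (lf 0) (nd (lf 0) (nd (nd (lf 131073) (lf 0)) (nd (lf 135169) (lf 2937594213108802875837029144095560695809)))))) (nd (nd (lf 0) (nd (lf 0) (nd (nd (lf 131073) (lf 8654850)) (nd (lf 0) (lf 814147163538221223947265960991780309970672247442636801))))) (nd (lf 0) (nd (lf 0) (nd (nd (lf 131073) (lf 0)) (nd (lf 0) (lf 249902877972478789729187611275109906671496651899278312439477621396510191779841))))))) (nd (nd (nd (lf 0) (nd (lf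 0) (nd (nd (lf 0) (lf 8654850)) (nd (lf 135169) (lf 185115622223817153638581921446497740156943))))) (nd (lf 0) (nd (lf 0) (nd (lf 0) (nd (lf 135169) (lf 56821335868444018553688604532695271872260281731195369620115058703)))))) (nd (nd (lf 0) (nd (lf 0) (nd (nd (lf 0) (lf 139265)) (nd (lf 0) (lf 15747896431477914082856030885848865147267959243139720395260498709178934834524175))))) (nd (lf 0) (nd (lf 0) (nd (lf 0) (nd (lf 0) (lf 953303825273432883183241314983787180601107223126519441373739705644646422))))))))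

def p104 : Tr :=
  (nd (nd (nd (nd (lf 0) (nd (lf 0) (nd (nd (lf 131073) (lf 8654850)) (nd (lf 8392706) (lf 9570253361512449))))) (nd (lf 0) (nd (lf 0) (nd (nd (lf 131073) (lf 0)) (nd (lf 135169) (lf 182476441171427531319145513697018066108417)))))) (nd (nd (lf 0) (nd (lf 0) (nd (nd (lf 131073) (lf 8654850)) (nd (lf 0) (lf 814147163538221223947265960991780309970672247442636801))))) (nd (lf 0) (nd (lf 0) (nd (nd (lf 131073) (lf 0)) (nd (lf 0) (lf 15523378827280686326374319000350378348346827835288250426242417317603569059889153))))))) (nd (nd (nd (lf 0) (nd (lf 0) (nd (nd (lf 0) (lf 8654850)) (nd (lf 135169) (lf 2892431597247143025602842522601527209998))))) (nd (lf 0) (nd (lf 0) (nd (lf 0) (nd (lf 135169) (lf 55150120300882173034915179955640707314155414527389524502325784590)))))) (nd (nd (lf 0) (nd (lf 0) (nd (nd (lf 0) (lf 139265)) (nd (lf 0) (lf 246060881741842407544625482591388517926061863174058131175945292330920856809486))))) (nd (lf 0) (nd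 (lf 0) (nd (lf 0) (nd (lf 0) (lf 925265480713885207556150425970819347318275675056973139804707904163704846))))))))

def p105 : Tr :=
  (nd (nd (nd (nd (lf 0) (nd (lf 0) (nd (nd (lf 131073) (lf 537137155)) (nd (lf 8392706) (lf 594481748957069313))))) (nd (lf 0) (nd (lf 0) (nd (nd (lf 131073) (lf 0)) (nd (lf 8392706) (lf 38172521437782999041)))))) (nd (nd (lf 0) (nd (lf 0) (nd (nd (lf 131073) (lf 135169)) (nd (lf 0) (lf 10709231731946853644235322304626689))))) (nd (lf 0) (nd (lf 0) (nd (nd (lf 131073) (lf 0)) (nd (lf 0) (lf 687655013891587519978236374770647041))))))) (lf 0))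

def p106 : Tr :=
  (nd (nd (nd (nd (lf 0) (nd (lf 0) (nd (nd (lf 131073) (lf 8654850)) (nd (lf 8392706) (lf 9570253361512449))))) (nd (lf 0) (nd (lf 0) (nd (nd (lf 131073) (lf 0)) (nd (lf 135169) (lf 13872396452256840467209163863093788089186570888004397535985665)))))) (nd (nd (lf 0) (nd (lf 0) (nd (nd (lf 131073) (lf 8654850)) (nd (lf 0) (lf 814147163538221223947265960991478078515768589075218433))))) (nd (lf 0) (nd (lf 0) (nd (nd (lf 131073) (lf 0)) (nd (lf 0) (lf 1180132974909896796790665874381357769459499845007038767760697245795478768994017860545882109899309057))))))) (nd (nd (nd (lf 0) (nd (lf 0) (nd (nd (lf 0) (lf 8654850)) (nd (lf 135169) (lf 36507619329))))) (nd (lf 0) (nd (lf 0) (nd (lf 0) (nd (lf 135169) (lf 52918992814090120190464644863486435276743205596940603393)))))) (nd (nd (lf 0) (nd (lf 0) (nd (nd (lf 0) (lf 139265)) (nd (lf 0) (lf 3105724958565602203167976230588829340041231495190))))) (nd (lf 0) (nd (lf 0) (nd (lf 0) (nd (lf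 0) (lf 4501850032462680041468299386525565221632003192928462096255101187879481388069220964606789054486))))))))

def p107 : Tr :=
  (nd (nd (nd (nd (lf 0) (nd (lf 0) (nd (nd (lf 8396802) (lf 8392706)) (nd (lf 131073) (lf 594481747907846146))))) (nd (lf 0) (nd (lf 0) (nd (nd (lf 8396802) (lf 0)) (nd (lf 131073) (lf 10551924902241975548649501196558338)))))) (nd (nd (lf 0) (nd (lf 0) (nd (nd (lf 8396802) (lf 8392706)) (nd (lf 0) (lf 40852477004802014024409554946))))) (nd (lf 0) (nd (lf 0) (nd (nd (lf 1) (lf 0)) (nd (lf 0) (lf 2399229948023725125642))))))) (nd (nd (nd (lf 0) (nd (lf 0) (nd (nd (lf 0) (lf 8392706)) (nd (lf 131073) (lf 35433873409))))) (nd (lf 0) (nd (lf 0) (nd (lf 0) (nd (lf 131073) (lf 628943735494731399336427521)))))) (nd (nd (lf 0) (nd (lf 0) (nd (nd (lf 0) (lf 135169)) (nd (lf 0) (lf 2434997380066038013959))))) (nd (lf 0) (nd (lf 0) (nd (lf 0) (nd (lf 0) (lf 2399229948023725125642))))))))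

def p108 : Tr :=
  (nd (nd (nd (nd (lf 0) (nd (lf 0) (nd (nd (lf 131073) (lf 8654850)) (nd (lf 8392706) (lf 9570253361512449))))) (nd (lf 0) (nd (lf 0) (nd (nd (lf 131073) (lf 0)) (nd (lf 135169) (lf 182476441166356928918232595809556276576257)))))) (nd (nd (lf 0) (nd (lf 0) (nd (nd (lf 131073) (lf 8654850)) (nd (lf 0) (lf 48526952392516942694265012737124820950798958593))))) (nd (lf 0) (nd (lf 0) (nd (nd (lf 131073) (lf 0)) (nd (lf 0) (lf 925265480688174198848003669958738199095565535229504272816909387473485825))))))) (nd (nd (nd (lf 0) (nd (lf 0) (nd (nd (lf 0) (lf 8654850)) (nd (lf 135169) (lf 36507619329))))) (nd (lf 0) (nd (lf 0) (nd (lf 0) (nd (lf 135169) (lf 696092381158282962487154372442460161)))))) (nd (nd (lf 0) (nd (lf 0) (nd (nd (lf 0) (lf 139265)) (nd (lf 0) (lf 185115632600848933007297564457415851405330))))) (nd (lf 0) (nd (lf 0) (nd (lf 0) (nd (lf 0) (lf 695767862623967348874207473664028690))))))))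

def p109 : Tr :=
  (nd (nd (nd (nd (lf 0) (nd (lf 0) (nd (nd (lf 131073) (lf 8654850)) (nd (lf 8392706) (lf 9570253361512449))))) (nd (lf 0) (nd (lf 0) (nd (nd (lf 131073) (lf 0)) (nd (lf 135169) (lf 177031923300692515903731519696634798014465)))))) (nd (nd (lf 0) (nd (lf 0) (nd (nd (lf 131073) (lf 8654850)) (nd (lf 0) (lf 36507615233))))) (nd (lf 0) (nd (lf 0) (nd (nd (lf 131073) (lf 0)) (nd (lf 0) (lf 675323193743486465086866453920874497))))))) (nd (nd (nd (lf 0) (nd (lf 0) (nd (nd (lf 0) (lf 8654850)) (nd (lf 135169) (lf 3844701054953782915368094199038065738794645335966525103049067821717028368418))))) (nd (lf 0) (nd (lf 0) (nd (lf 0) (nd (lf 135169) (lf 71119833150055600486787768627507657042523288717109160306099966959554794659097234624198301632676261922)))))) (nd (nd (lf 0) (nd (lf 0) (nd (nd (lf 0) (lf 139265)) (nd (lf 0) (lf 14666369778126349925813070267332566321350123600329279391775265156526114))))) (nd (lf 0) (nd (lf 0) (nd (lf 0) (nd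 (lf 0) (lf 53478904733320327516141966203564459198139371807412943646869975074))))))))

def p110 : Tr :=
  (nd (nd (nd (nd (lf 0) (nd (lf 0) (nd (nd (lf 131073) (lf 8654850)) (nd (lf 8392706) (lf 9570253361512449))))) (nd (lf 0) (nd (lf 0) (nd (nd (lf 131073) (lf 0)) (nd (lf 135169) (lf 13464384839456706217559838879813206328893276423583702029041665)))))) (nd (nd (lf 0) (nd (lf 0) (nd (nd (lf 131073) (lf 8654850)) (nd (lf 0) (lf 36507615233))))) (nd (lf 0) (nd (lf 0) (nd (nd (lf 131073) (lf 0)) (nd (lf 0) (lf 51362552030398201818694453734639001193593126005492023297))))))) (nd (nd (nd (lf 0) (nd (lf 0) (nd (nd (lf 0) (lf 8654850)) (nd (lf 135169) (lf 13659122028833020988855985674483640006807566663718933963239450))))) (nd (lf 0) (nd (lf 0) (nd (lf 0) (nd (lf 135169) (lf 19217012195819690002720175062514587145165004325558526309688650817164001084687537815580408161706415808606234)))))) (nd (nd (lf 0) (nd (lf 0) (nd (nd (lf 0) (lf 139265)) (nd (lf 0)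 (lf 52105412529095751231313721047415890273236000497296240666))))) (nd (lf 0) (nd (lf 0) (nd (lf 0) (nd (lf 0) (lf 73307083876875648508911800622995709019336716940149404689342141872747495652991061968078688096430616602))))))))

def p111 : Tr :=
  (nd (nd (nd (nd (lf 0) (nd (lf 0) (nd (nd (lf 131073) (lf 8654850)) (nd (lf 8392706) (lf 9570253361512449))))) (nd (lf 0) (nd (lf 0) (nd (nd (lf 131073) (lf 0)) (nd (lf 135169) (lf 3791654256174164486148132628975159293592248121834015762953205020594411012097)))))) (nd (nd (lf 0) (nd (lf 0) (nd (nd (lf 131073) (lf 8654850)) (nd (lf 0) (lf 36507615233))))) (nd (lf 0) (nd (lf 0) (nd (nd (lf 131073) (lf 0)) (nd (lf 0) (lf 14464013123222978539078264728451382803315155494056761791050739366887425))))))) (nd (nd (nd (lf 0) (nd (lf 0) (nd (nd (lf 0) (lf 8654850)) (nd (lf 135169) (lf 185115622223817153638581921446497740156943))))) (nd (lf 0) (nd (lf 0) (nd (lf 0) (nd (lf 135169) (lf 73341259669450382948813307969181208947537029492441413336396881941890821119624224730942318533186973711))))))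 (nd (nd (lf 0) (nd (lf 0) (nd (nd (lf 0) (lf 139265)) (nd (lf 0) (lf 706160018278737943745318540869660687))))) (nd (lf 0) (nd (lf 0) (nd (lf 0) (nd (lf 0) (lf 55175831311122812420189913667493373120556470848300025142863233058))))))))

def p112 : Tr :=
  (nd (nd (nd (nd (lf 0) (nd (lf 0) (nd (nd (lf 131073) (lf 8654850)) (nd (lf 8392706) (lf 9570253361512449))))) (nd (lf 0) (nd (lf 0) (nd (nd (lf 131073) (lf 0)) (nd (lf 135169) (lf 614741522008899585)))))) (nd (nd (lf 0) (nd (lf 0) (nd (nd (lf 131073) (lf 8654850)) (nd (lf 0) (lf 36507615233))))) (nd (lf 0) (nd (lf 0) (nd (nd (lf 131073) (lf 0)) (nd (lf 0) (lf 2345052798977))))))) (nd (nd (nd (lf 0) (nd (lf 0) (nd (nd (lf 0) (lf 8654850)) (nd (lf 135169) (lf 2508784497200353275908))))) (nd (lf 0) (nd (lf 0) (nd (lf 0) (nd (lf 135169) (lf 2345052803073)))))) (nd (nd (lf 0) (nd (lf 0) (nd (nd (lf 0) (lf 139265)) (nd (lf 0) (lf 139265))))) (nd (lf 0) (nd (lf 0) (nd (lf 0) (nd (lf 0) (lf 8945666))))))))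

def p113 : Tr :=
  (nd (nd (nd (nd (lf 0) (nd (lf 0) (nd (nd (lf 131073) (lf 8654850)) (nd (lf 8392706) (lf 9570253361512449))))) (nd (lf 0) (nd (lf 0) (nd (nd (lf 131073) (lf 0)) (nd (lf 135169) (lf 2362356429448064401409)))))) (nd (nd (lf 0) (nd (lf 0) (nd (nd (lf 131073) (lf 8654850)) (nd (lf 0) (lf 36507615233))))) (nd (lf 0) (nd (lf 0) (nd (nd (lf 131073) (lf 0)) (nd (lf 0) (lf 131073))))))) (nd (nd (nd (lf 0) (nd (lf 0) (nd (nd (lf 0) (lf 8654850)) (nd (lf 135169) (lf 612496215136825346))))) (nd (lf 0) (nd (lf 0) (nd (lf 0) (nd (lf 135169) (lf 2267767926786)))))) (nd (nd (lf 0) (nd (lf 0) (nd (nd (lf 0) (lf 139265)) (nd (lf 0) (lf 2336487403522))))) (nd (lf 0) (nd (lf 0) (nd (lf 0) (nd (lf 0) (lf 8417282))))))))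

def p114 : Tr :=
  (nd (nd (nd (nd (lf 0) (nd (lf 0) (nd (nd (lf 131073) (lf 537137155)) (nd (lf 8392706) (lf 594481748957069313))))) (nd (lf 0) (nd (lf 0) (nd (nd (lf 131073) (lf 0)) (nd (lf 8392706) (lf 151190775455811432480769)))))) (nd (nd (lf 0) (nd (lf 0) (nd (nd (lf 131073) (lf 135169)) (nd (lf 0) (lf 35433873409))))) (nd (lf 0) (nd (lf 0) (nd (nd (lf 131073) (lf 0)) (nd (lf 0) (lf 131073))))))) (lf 0))

def p115 : Tr :=
  (nd (nd (nd (nd (lf 0) (nd (lf 0) (nd (nd (lf 131073) (lf 8654850)) (nd (lf 8392706) (lf 594756798662443009))))) (nd (lf 0) (nd (lf 0) (nd (nd (lf 131073) (lf 0)) (nd (lf 135169) (lf 647984316578885811141214209)))))) (nd (nd (lf 0) (nd (lf 0) (nd (nd (lf 131073) (lf 8654850)) (nd (lf 0) (lf 2268817129473))))) (nd (lf 0) (nd (lf 0) (nd (nd (lf 131073) (lf 0)) (nd (lf 0) (lf 2471864000621360054273))))))) (nd (nd (nd (lf 0) (nd (lf 0) (nd (nd (lf 0) (lf 8654850)) (nd (lf 135169) (lf 2268817133569))))) (nd (lf 0) (nd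 (lf 0) (nd (lf 0) (nd (lf 135169) (lf 2471864000621360058369)))))) (lf 0)))

def p116 : Tr :=
  (nd (nd (nd (nd (lf 0) (nd (lf 0) (nd (nd (lf 8396802) (lf 8392706)) (nd (lf 131073) (lf 594481747907846146))))) (nd (lf 0) (nd (lf 0) (nd (nd (lf 8396802) (lf 0)) (nd (lf 131073) (lf 647984316667297024685645826)))))) (nd (nd (lf 0) (nd (lf 0) (nd (nd (lf 8396802) (lf 8392706)) (nd (lf 0) (lf 2267767906306))))) (nd (lf 0) (nd (lf 0) (nd (nd (lf 1) (lf 0)) (nd (lf 0) (lf 147334575710214))))))) (nd (nd (nd (lf 0) (nd (lf 0) (nd (nd (lf 0) (lf 8392706)) (nd (lf 131073) (lf 35433873409))))) (nd (lf 0) (nd (lf 0) (nd (lf 0) (nd (lf 131073) (lf 38622875014978469889)))))) (nd (nd (lf 0) (nd (lf 0) (nd (nd (lf 0) (lf 135169)) (nd (lf 0) (lf 135169))))) (nd (lf 0) (nd (lf 0) (nd (lf 0) (nd (lf 0) (lf 147334575710214))))))))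

def p117 : Tr :=
  (nd (nd (nd (nd (lf 0) (nd (lf 0) (nd (nd (lf 131073) (lf 8654850)) (nd (lf 8392706) (lf 9570253361512449))))) (nd (lf 0) (nd (lf 0) (nd (nd (lf 131073) (lf 0)) (nd (lf 135169) (lf 57422536713877602043459664418399621788078557419860405189862001699996434433)))))) (nd (nd (lf 0) (nd (lf 0) (nd (nd (lf 131073) (lf 8654850)) (nd (lf 0) (lf 36507615233))))) (nd (lf 0) (nd (lf 0) (nd (nd (lf 131073) (lf 0)) (nd (lf 0) (lf 131073))))))) (nd (nd (nd (lf 0) (nd (lf 0) (nd (nd (lf 0) (lf 8654850)) (nd (lf 135169) (lf 36507619329))))) (nd (lf 0) (nd (lf 0) (nd (lf 0) (nd (lf 135169) (lf 135169)))))) (nd (nd (lf 0) (nd (lf 0) (nd (nd (lf 0) (lf 139265)) (nd (lf 0) (lf 139265))))) (lf 0))))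

def p118 : Tr :=
  (nd (nd (nd (nd (lf 0) (nd (lf 0) (nd (nd (lf 131073) (lf 8654850)) (nd (lf 8392706) (lf 9570253361512449))))) (nd (lf 0) (nd (lf 0) (nd (nd (lf 131073) (lf 0)) (nd (lf 135169) (lf 35433873409)))))) (nd (nd (lf 0) (nd (lf 0) (nd (nd (lf 131073) (lf 8654850)) (nd (lf 0) (lf 36507615233))))) (nd (lf 0) (nd (lf 0) (nd (nd (lf 131073) (lf 0)) (nd (lf 0) (lf 131073))))))) (nd (nd (nd (lf 0) (nd (lf 0) (nd (nd (lf 0) (lf 8654850)) (nd (lf 135169) (lf 36507619329))))) (nd (lf 0) (nd (lf 0) (nd (lf 0) (nd (lf 135169) (lf 135169)))))) (nd (nd (lf 0) (nd (lf 0) (nd (nd (lf 0) (lf 139265)) (nd (lf 0) (lf 139265))))) (lf 0))))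

def p119 : Tr :=
  (nd (nd (nd (nd (lf 0) (nd (lf 0) (nd (nd (lf 131073) (lf 8654850)) (nd (lf 8392706) (lf 9570253361512449))))) (nd (lf 0) (nd (lf 0) (nd (nd (lf 131073) (lf 0)) (nd (lf 135169) (lf 35433873409)))))) (nd (nd (lf 0) (nd (lf 0) (nd (nd (lf 131073) (lf 8654850)) (nd (lf 0) (lf 814147163538221223947260890389379397053066260629815297))))) (nd (lf 0) (nd (lf 0) (nd (nd (lf 131073) (lf 0)) (nd (lf 0) (lf 3061446668444332716217476446778123532478239604737))))))) (nd (nd (nd (lf 0) (nd (lf 0) (nd (nd (lf 0) (lf 8654850)) (nd (lf 135169) (lf 13659122028833020988855985674483640006807566663718933963239450))))) (nd (lf 0) (nd (lf 0) (nd (lf 0) (nd (lf 135169) (lf 50572916988229862372955374020265581089617261375112638490)))))) (nd (nd (lf 0) (nd (lf 0) (nd (nd (lf 0) (lf 139265)) (nd (lf 0) (lf 1161989660683028030399526786440971257095951919246250003318322160125222047864023733754088639244824602))))) (nd (lf 0) (nd (lf 0) (nd (lf 0) (nd (lf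 0) (lf 4369442693879521625622731195181939132992269690440792248919838653961493551443914448736755675162))))))))

def p120 : Tr :=
  (nd (nd (nd (nd (lf 0) (nd (lf 0) (nd (nd (lf 131073) (lf 8654850)) (nd (lf 8392706) (lf 9570253361512449))))) (lf 0)) (nd (nd (lf 0) (nd (lf 0) (nd (nd (lf 131073) (lf 8654850)) (nd (lf 0) (lf 706160018278735693259579794115395585))))) (lf 0))) (nd (nd (nd (lf 0) (nd (lf 0) (nd (nd (lf 0) (lf 8654850)) (nd (lf 135169) (lf 612496215136825346))))) (lf 0)) (nd (nd (lf 0) (nd (lf 0) (nd (nd (lf 0) (lf 139265)) (nd (lf 0) (lf 706160098744840497294905016741556226))))) (lf 0))))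

def p121 : Tr :=
  (nd (nd (nd (nd (lf 0) (nd (lf 0) (nd (nd (lf 131073) (lf 8654850)) (nd (lf 8392706) (lf 9570253361512449))))) (nd (lf 0) (nd (lf 0) (nd (nd (lf 131073) (lf 0)) (nd (lf 135169) (lf 35433873409)))))) (nd (nd (lf 0) (nd (lf 0) (nd (nd (lf 131073) (lf 8654850)) (nd (lf 0) (lf 48526952477587529353897227690050866823001931777))))) (nd (lf 0) (nd (lf 0) (nd (nd (lf 131073) (lf 0)) (nd (lf 0) (lf 182476441166356928918233170022055340015617))))))) (nd (nd (nd (lf 0) (nd (lf 0) (nd (nd (lf 0) (lf 8654850)) (nd (lf 135169) (lf 185115622223817153638581921446497740156943))))) (nd (lf 0) (nd (lf 0) (nd (lf 0) (nd (lf 135169) (lf 685390830844598633231196555552780303)))))) (nd (nd (lf 0) (nd (lf 0) (nd (nd (lf 0) (lf 139265)) (nd (lf 0) (lf 938647772757882621130435083189178883051218589463007488912561183042072591))))) (nd (lf 0) (nd (lf 0) (nd (lf 0) (nd (lf 0) (lf 696092381158282962487156562889310226))))))))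

def p122 : Tr :=
  (nd (nd (nd (nd (lf 0) (nd (lf 0) (nd (nd (lf 131073) (lf 8654850)) (nd (lf 8392706) (lf 594756798662443009))))) (nd (lf 0) (nd (lf 0) (nd (nd (lf 131073) (lf 0)) (nd (lf 135169) (lf 35433873409)))))) (nd (nd (lf 0) (nd (lf 0) (nd (nd (lf 131073) (lf 8654850)) (nd (lf 0) (lf 40871375952341373205352415233))))) (nd (lf 0) (nd (lf 0) (nd (nd (lf 131073) (lf 0)) (nd (lf 0) (lf 2398077024327595589633))))))) (nd (nd (nd (lf 0) (nd (lf 0) (nd (nd (lf 0) (lf 8654850)) (nd (lf 135169) (lf 10714185987329026672244209578958858))))) (nd (lf 0) (nd (lf 0) (nd (lf 0) (nd (lf 135169) (lf 638319953200033524288872458)))))) (nd (nd (lf 0) (nd (lf 0) (nd (nd (lf 0) (lf 1)) (nd (lf 0) (lf 2398077026450398797834))))) (nd (lf 0) (nd (lf 0) (nd (lf 0) (nd (lf 0) (lf 2398077026450398797834))))))))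

def p123 : Tr :=
  (nd (nd (nd (nd (lf 0) (nd (lf 0) (nd (nd (lf 131073) (lf 537137155)) (nd (lf 8392706) (lf 594481748957069313))))) (nd (lf 0) (nd (lf 0) (nd (nd (lf 131073) (lf 0)) (nd (lf 8392706) (lf 2200097652737)))))) (nd (nd (lf 0) (nd (lf 0) (nd (nd (lf 131073) (lf 135169)) (nd (lf 0) (lf 638319953200031400411922433))))) (nd (lf 0) (nd (lf 0) (nd (nd (lf 131073) (lf 0)) (nd (lf 0) (lf 2398077024326521847809))))))) (lf 0))

def p124 : Tr :=
  (nd (nd (nd (nd (lf 0) (nd (lf 0) (nd (nd (lf 131073) (lf 8654850)) (nd (lf 8392706) (lf 9570253361512449))))) (nd (lf 0) (nd (lf 0) (nd (nd (lf 131073) (lf 0)) (nd (lf 135169) (lf 35433873409)))))) (nd (nd (lf 0) (nd (lf 0) (nd (nd (lf 131073) (lf 8654850)) (nd (lf 0) (lf 2892431759388264578239006430220699435009))))) (nd (lf 0) (nd (lf 0) (nd (nd (lf 131073) (lf 0)) (nd (lf 0) (lf 10871372853499489808145065352757249))))))) (nd (nd (nd (lf 0) (nd (lf 0) (nd (nd (lf 0) (lf 8654850)) (nd (lf 135169)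 (lf 36507619329))))) (nd (lf 0) (nd (lf 0) (nd (lf 0) (nd (lf 135169) (lf 135169)))))) (nd (nd (lf 0) (nd (lf 0) (nd (nd (lf 0) (lf 139265)) (nd (lf 0) (lf 11033751523545320809322381707079694))))) (nd (lf 0) (nd (lf 0) (nd (lf 0) (nd (lf 0) (lf 41470996297834357483463536654))))))))

def p125 : Tr :=
  (nd (nd (nd (nd (lf 0) (nd (lf 0) (nd (nd (lf 131073) (lf 135169)) (nd (lf 8392706) (lf 594481748957069313))))) (lf 0)) (nd (nd (lf 0) (nd (lf 0) (nd (nd (lf 131073) (lf 135169)) (nd (lf 0) (lf 40852474754316406805584019457))))) (lf 0))) (nd (nd (nd (lf 0) (nd (lf 0) (nd (nd (lf 0) (lf 135169)) (nd (lf 8658946) (lf 2267768168450))))) (lf 0)) (nd (nd (lf 0) (nd (lf 0) (nd (nd (lf 0) (lf 135169)) (nd (lf 0) (lf 2434997661541014724615))))) (lf 0))))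

def p126 : Tr :=
  (nd (nd (nd (nd (lf 0) (nd (lf 0) (nd (nd (lf 8396802) (lf 8392706)) (nd (lf 131073) (lf 594481747907846146))))) (nd (lf 0) (nd (lf 0) (nd (nd (lf 8396802) (lf 0)) (nd (lf 131073) (lf 2199048429570)))))) (nd (nd (lf 0) (nd (lf 0) (nd (nd (lf 8396802) (lf 8392706)) (nd (lf 0) (lf 2267767906306))))) (lf 0))) (nd (nd (nd (lf 0) (nd (lf 0) (nd (nd (lf 0) (lf 8392706)) (nd (lf 131073) (lf 35433873409))))) (nd (lf 0) (nd (lf 0) (nd (lf 0) (nd (lf 131073) (lf 131073)))))) (nd (nd (lf 0) (nd (lf 0) (nd (nd (lf 0) (lf 135169)) (nd (lf 0) (lf 135169))))) (lf 0))))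

def p127 : Tr :=
  (nd (nd (nd (nd (lf 0) (nd (lf 0) (nd (nd (lf 131073) (lf 8654850)) (nd (lf 8392706) (lf 9570253361512449))))) (nd (lf 0) (nd (lf 0) (nd (nd (lf 131073) (lf 0)) (nd (lf 135169) (lf 35433873409)))))) (nd (nd (lf 0) (nd (lf 0) (nd (nd (lf 131073) (lf 8654850)) (nd (lf 0) (lf 55947760689263724997761040753680182342760641319237663580105080833))))) (nd (lf 0) (nd (lf 0) (nd (nd (lf 131073) (lf 0)) (nd (lf 0) (lf 131073))))))) (nd (nd (nd (lf 0) (nd (lf 0) (nd (nd (lf 0) (lf 8654850)) (nd (lf 135169) (lf 36507619329))))) (nd (lf 0) (nd (lf 0) (nd (lf 0) (nd (lf 135169) (lf 135169)))))) (nd (nd (lf 0) (nd (lf 0) (nd (nd (lf 0) (lf 139265)) (nd (lf 0) (lf 139265))))) (lf 0))))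

def p128 : Tr :=
  (nd (nd (nd (nd (lf 0) (nd (lf 0) (nd (nd (lf 131073) (lf 8654850)) (nd (lf 8392706) (lf 594756798662443009))))) (nd (lf 0) (nd (lf 0) (nd (nd (lf 131073) (lf 0)) (nd (lf 135169) (lf 35433873409)))))) (nd (nd (lf 0) (nd (lf 0) (nd (nd (lf 131073) (lf 8654850)) (nd (lf 0) (lf 2268817129473))))) (nd (lf 0) (nd (lf 0) (nd (nd (lf 131073) (lf 0)) (nd (lf 0) (lf 131073))))))) (nd (nd (nd (lf 0) (nd (lf 0) (nd (nd (lf 0) (lf 8654850)) (nd (lf 135169) (lf 2268817133569))))) (nd (lf 0) (nd (lf 0) (nd (lf 0) (nd (lf 135169) (lf 135169)))))) (lf 0)))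

def p129 : Tr :=
  (nd (nd (nd (nd (lf 0) (nd (lf 0) (nd (nd (lf 131073) (lf 8654850)) (nd (lf 8392706) (lf 594756798662443009))))) (nd (lf 0) (nd (lf 0) (nd (nd (lf 131073) (lf 0)) (nd (lf 135169) (lf 35433873409)))))) (nd (nd (lf 0) (nd (lf 0) (nd (nd (lf 131073) (lf 8654850)) (nd (lf 0) (lf 2268817129473))))) (nd (lf 0) (nd (lf 0) (nd (nd (lf 131073) (lf 0)) (nd (lf 0) (lf 131073))))))) (nd (nd (nd (lf 0) (nd (lf 0) (nd (nd (lf 0) (lf 8654850)) (nd (lf 135169) (lf 638615249832214514746810374))))) (nd (lf 0) (nd (lf 0) (nd (lf 0) (nd (lf 135169) (lf 38046834063531859974)))))) (nd (nd (lf 0) (nd (lf 0) (nd (nd (lf 0) (lf 1)) (nd (lf 0) (lf 142936529199110))))) (nd (lf 0) (nd (lf 0) (nd (lf 0) (nd (lf 0) (lf 142936529199110))))))))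

def p130 : Tr :=
  (nd (nd (nd (nd (lf 0) (nd (lf 0) (nd (nd (lf 8396802) (lf 8392706)) (nd (lf 131073) (lf 594481747907846146))))) (nd (lf 0) (nd (lf 0) (nd (nd (lf 8396802) (lf 0)) (nd (lf 131073) (lf 2199048429570)))))) (nd (nd (lf 0) (nd (lf 0) (nd (nd (lf 8396802) (lf 8392706)) (nd (lf 0) (lf 2267767906306))))) (lf 0))) (nd (nd (nd (lf 0) (nd (lf 0) (nd (nd (lf 0) (lf 8392706)) (nd (lf 131073) (lf 638319916333410845089882119))))) (nd (lf 0) (nd (lf 0) (nd (lf 0) (nd (lf 131073) (lf 2361210403771199807495)))))) (nd (nd (lf 0) (nd (lf 0) (nd (nd (lf 0) (lf 135169)) (nd (lf 0) (lf 2434997380066038013959))))) (lf 0))))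

def p131 : Tr :=
  (nd (nd (nd (nd (lf 0) (nd (lf 0) (nd (nd (lf 131073) (lf 135169)) (nd (lf 8392706) (lf 594481748957069313))))) (lf 0)) (nd (nd (lf 0) (nd (lf 0) (nd (nd (lf 131073) (lf 135169)) (nd (lf 0) (lf 35433873409))))) (lf 0))) (nd (nd (nd (lf 0) (nd (lf 0) (nd (nd (lf 0) (lf 135169)) (nd (lf 8658946) (lf 155839841894475498020868))))) (lf 0)) (nd (nd (lf 0) (nd (lf 0) (nd (nd (lf 0) (lf 135169)) (nd (lf 0) (lf 135169))))) (lf 0))))

def p132 : Tr :=
  (nd (nd (nd (nd (lf 0) (nd (lf 0) (nd (nd (lf 131073) (lf 8654850)) (nd (lf 8392706) (lf 9570253361512449))))) (nd (lf 0) (nd (lf 0) (nd (nd (lf 131073) (lf 0)) (nd (lf 135169) (lf 35433873409)))))) (nd (nd (lf 0) (nd (lf 0) (nd (nd (lf 131073) (lf 8654850)) (nd (lf 0) (lf 36507615233))))) (nd (lf 0) (nd (lf 0) (nd (nd (lf 131073) (lf 0)) (nd (lf 0) (lf 131073))))))) (nd (nd (nd (lf 0) (nd (lf 0) (nd (nd (lf 0) (lf 8654850)) (nd (lf 135169) (lf 60073453983652858052626471859969777171344438226382543187629916177155518497)))))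 (nd (lf 0) (nd (lf 0) (nd (lf 0) (nd (lf 135169) (lf 135169)))))) (nd (nd (lf 0) (nd (lf 0) (nd (nd (lf 0) (lf 139265)) (nd (lf 0) (lf 139265))))) (lf 0))))

def p133 : Tr :=
  (nd (nd (nd (nd (lf 0) (nd (lf 0) (nd (nd (lf 189995236373335982861980988811592289238550651355162) (lf 778220488185184185802674130172282016721103467950903324)) (nd (lf 12159695127893502903166783283941906511267241686732827) (lf 6972060986671241127977937776691868036298620843682619552735348355220677415187123622241514896322553589823800240469410969809467002318552452505454959425569439770))))) (lf 0)) (nd (nd (lf 0) (nd (lf 0) (nd (nd (lf 16386) (lf 20482)) (nd (lf 0) (lf 343630954498))))) (lf 0))) (lf 0))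

def p134 : Tr :=
  (nd (nd (nd (nd (lf 0) (nd (lf 0) (nd (nd (lf 131073) (lf 8654850)) (nd (lf 8392706) (lf 9570253361512449))))) (nd (lf 0) (nd (lf 0) (nd (nd (lf 131073) (lf 0)) (nd (lf 135169) (lf 232740191717146699995909081611262780333137720829959122866215542194177)))))) (nd (nd (lf 0) (nd (lf 0) (nd (nd (lf 131073) (lf 8654850)) (nd (lf 0) (lf 52105412529095751231313721047415890273235998375570964481))))) (nd (lf 0) (nd (lf 0) (nd (nd (lf 131073) (lf 0)) (nd (lf 0) (lf 1267158133042298822237767043549592490078504458578056622325495553688437233113265190035537697563409789002579969))))))) (nd (nd (nd (lf 0) (nd (lf 0) (nd (nd (lf 0) (lf 8654850)) (nd (lf 135169) (lf 3105724779023380731099674829802925161586138574867))))) (nd (lf 0) (nd (lf 0) (nd (lf 0) (nd (lf 135169) (lf 75528510394233394994602623197412043218523529683235682387679724622977589231533187150154131179628425235)))))) (nd (nd (lf 0) (nd (lf 0) (nd (nd (lf 0) (lf 139265)) (nd (lf 0)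 (lf 16909175038498186483041121732771696251557527043349080458484935543223352424432225852354579))))) (nd (lf 0) (nd (lf 0) (nd (lf 0) (nd (lf 0) (lf 3386815540101767692189737595781666173325178109079703031838))))))))

def p135 : Tr :=
  (nd (nd (nd (nd (lf 0) (nd (lf 0) (nd (nd (lf 131073) (lf 8654850)) (nd (lf 8392706) (lf 9570253361512449))))) (nd (lf 0) (nd (lf 0) (nd (nd (lf 131073) (lf 0)) (nd (lf 135169) (lf 3061446668444332721288078847690467207715842555905)))))) (nd (nd (lf 0) (nd (lf 0) (nd (nd (lf 131073) (lf 8654850)) (nd (lf 0) (lf 13659122818468061729947653637006672484924922410816184695521281))))) (nd (lf 0) (nd (lf 0) (nd (nd (lf 131073) (lf 0)) (nd (lf 0) (lf 4369442693879521632859736772513382205628663098180404423888632656223218463065867992247476813825))))))) (nd (nd (nd (lf 0) (nd (lf 0) (nd (nd (lf 0) (lf 8654850)) (nd (lf 135169) (lf 3105724779023380731099674829802925161586138574867))))) (nd (lf 0) (nd (lf 0) (nd (lf 0) (nd (lf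 135169) (lf 993496244945963924887959540800098285587381147511146839911059517633189067436355603)))))) (nd (nd (lf 0) (nd (lf 0) (nd (nd (lf 0) (lf 139265)) (nd (lf 0) (lf 4432638781292068597410331815515703542168296549748126256113932756073521246634980082365372067859))))) (nd (lf 0) (nd (lf 0) (nd (lf 0) (nd (lf 0) (lf 195932586780437294162437046252226632863480982306842))))))))

def p136 : Tr :=
  (nd (nd (nd (nd (lf 0) (nd (lf 0) (nd (nd (lf 8396802) (lf 8392706)) (nd (lf 131073) (lf 594481747907846146))))) (nd (lf 0) (nd (lf 0) (nd (nd (lf 8396802) (lf 0)) (nd (lf 131073) (lf 177031923300692515903731625593931514781698)))))) (nd (nd (lf 0) (nd (lf 0) (nd (nd (lf 8396802) (lf 8392706)) (nd (lf 0) (lf 179671093960926464109758789859095640809474))))) (nd (lf 0) (nd (lf 0) (nd (nd (lf 1) (lf 0)) (nd (lf 0) (lf 3189123615238724171683802765221428824667268948943373623310))))))) (nd (nd (nd (lf 0) (nd (lf 0) (nd (nd (lf 0) (lf 8392706)) (nd (lf 131073)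 (lf 35433873409))))) (nd (lf 0) (nd (lf 0) (nd (lf 0) (nd (lf 131073) (lf 10551924902241976016982294654484481)))))) (nd (nd (lf 0) (nd (lf 0) (nd (nd (lf 0) (lf 135169)) (nd (lf 0) (lf 10709231731946853644237446180528142))))) (nd (lf 0) (nd (lf 0) (nd (lf 0) (nd (lf 0) (lf 3189123615238724171683802765221428824667268948943373623310))))))))

def p137 : Tr :=
  (nd (nd (nd (nd (lf 0) (nd (lf 0) (nd (nd (lf 8396802) (lf 8392706)) (nd (lf 131073) (lf 594481747907846146))))) (nd (lf 0) (nd (lf 0) (nd (nd (lf 8396802) (lf 0)) (nd (lf 131073) (lf 40233056221781325967928598530)))))) (nd (nd (lf 0) (nd (lf 0) (nd (nd (lf 8396802) (lf 8392706)) (nd (lf 0) (lf 10709231731946853644235659632713730))))) (nd (lf 0) (nd (lf 0) (nd (nd (lf 1) (lf 0)) (nd (lf 0) (lf 43199915172670029510808973506937380874))))))) (nd (nd (nd (lf 0) (nd (lf 0) (nd (nd (lf 0) (lf 8392706)) (nd (lf 131073) (lf 35433873409))))) (nd (lf 0) (nd (lf 0) (nd (lf 0) (nd (lf 131073) (lf 2398077024327595589633))))))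 (nd (nd (lf 0) (nd (lf 0) (nd (nd (lf 0) (lf 135169)) (nd (lf 0) (lf 638319953200033524288872458))))) (nd (lf 0) (nd (lf 0) (nd (lf 0) (nd (lf 0) (lf 2398077026450398797834))))))))

def p138 : Tr :=
  (nd (nd (nd (nd (lf 0) (nd (lf 0) (nd (nd (lf 131073) (lf 8654850)) (nd (lf 135169) (lf 9570253361512449))))) (nd (lf 0) (nd (lf 0) (nd (nd (lf 8658946) (lf 0)) (nd (lf 135169) (lf 37037614399356149762)))))) (nd (nd (lf 0) (nd (lf 0) (nd (nd (lf 131073) (lf 8654850)) (nd (lf 0) (lf 36507615233))))) (nd (lf 0) (nd (lf 0) (nd (nd (lf 1) (lf 0)) (nd (lf 0) (lf 8421378))))))) (nd (nd (nd (lf 0) (nd (lf 0) (nd (nd (lf 0) (lf 8654850)) (nd (lf 135169) (lf 39199757768755539971))))) (nd (lf 0) (nd (lf 0) (nd (lf 0) (nd (lf 135169) (lf 2370407321558776836099)))))) (nd (nd (lf 0) (nd (lf 0) (nd (nd (lf 0) (lf 139265)) (nd (lf 0) (lf 149535192543235))))) (nd (lf 0) (nd (lf 0) (nd (lf 0) (nd (lf 0) (lf 8421378))))))))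

def p139 : Tr :=
  (nd (nd (nd (nd (lf 0) (nd (lf 0) (nd (nd (lf 131073) (lf 135169)) (nd (lf 8392706) (lf 594481748957069313))))) (nd (lf 0) (nd (lf 0) (nd (nd (lf 131073) (lf 0)) (nd (lf 8392706) (lf 628943735026381014742728705)))))) (nd (nd (lf 0) (nd (lf 0) (nd (nd (lf 131073) (lf 135169)) (nd (lf 0) (lf 35433873409))))) (nd (lf 0) (nd (lf 0) (nd (nd (lf 131073) (lf 0)) (nd (lf 0) (lf 37487967909954846721))))))) (nd (nd (nd (lf 0) (nd (lf 0) (nd (nd (lf 0) (lf 135169)) (nd (lf 8658946) (lf 155839841894475498020868))))) (nd (lf 0) (nd (lf 0) (nd (lf 0) (nd (lf 1) (lf 143005248679942)))))) (nd (nd (lf 0) (nd (lf 0) (nd (nd (lf 0) (lf 135169)) (nd (lf 0) (lf 135169))))) (nd (lf 0) (nd (lf 0) (nd (lf 0) (nd (lf 0) (lf 143005248679942))))))))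

def p140 : Tr :=
  (nd (nd (nd (nd (lf 0) (nd (lf 0) (nd (nd (lf 131073) (lf 8654850)) (nd (lf 8392706) (lf 9570253361512449))))) (nd (lf 0) (nd (lf 0) (nd (nd (lf 131073) (lf 0)) (nd (lf 135169) (lf 35433873409)))))) (nd (nd (lf 0) (nd (lf 0) (nd (nd (lf 131073) (lf 8654850)) (nd (lf 0) (lf 36507615233))))) (nd (lf 0) (nd (lf 0) (nd (nd (lf 131073) (lf 0)) (nd (lf 0) (lf 131073))))))) (nd (nd (nd (lf 0) (nd (lf 0) (nd (nd (lf 0) (lf 8654850)) (nd (lf 135169) (lf 657662803234221206723391495))))) (nd (lf 0) (nd (lf 0) (nd (lf 0) (nd (lf 135169) (lf 2434997380066038018055)))))) (nd (nd (lf 0) (nd (lf 0) (nd (nd (lf 0) (lf 139265)) (nd (lf 0) (lf 2508784356360876224519))))) (lf 0))))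

def p141 : Tr :=
  (nd (nd (nd (nd (lf 0) (nd (lf 0) (nd (nd (lf 8396802) (lf 8392706)) (nd (lf 131073) (lf 36911513541070036994))))) (nd (lf 0) (nd (lf 0) (nd (nd (lf 8396802) (lf 0)) (nd (lf 131073) (lf 2362426250325164826626)))))) (nd (nd (lf 0) (nd (lf 0) (nd (nd (lf 8396802) (lf 8392706)) (nd (lf 0) (lf 140806249783298))))) (nd (lf 0) (nd (lf 0) (nd (nd (lf 1) (lf 0)) (nd (lf 0) (lf 537153539))))))) (nd (nd (nd (lf 0) (nd (lf 0) (nd (nd (lf 0) (lf 8392706)) (nd (lf 131073) (lf 2200097652737))))) (nd (lf 0) (nd (lf 0) (nd (lf 0) (nd (lf 131073) (lf 140811577458689)))))) (lf 0)))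

def p142 : Tr :=
  (nd (nd (nd (nd (lf 0) (nd (lf 0) (nd (nd (lf 131073) (lf 8654850)) (nd (lf 8392706) (lf 9570253361512449))))) (lf 0)) (nd (nd (lf 0) (nd (lf 0) (nd (nd (lf 131073) (lf 8654850)) (nd (lf 0) (lf 42090414793601787082630627329))))) (lf 0))) (nd (nd (nd (lf 0) (nd (lf 0) (nd (nd (lf 0) (lf 8654850)) (nd (lf 135169) (lf 42090419407008171628805255176))))) (lf 0)) (nd (nd (lf 0) (nd (lf 0) (nd (nd (lf 0) (lf 139265)) (nd (lf 0) (lf 2508784637835852939271))))) (lf 0))))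

def p143 : Tr :=
  (nd (nd (nd (nd (lf 0) (nd (lf 0) (nd (nd (lf 8396802) (lf 8392706)) (nd (lf 131073) (lf 594481747907846146))))) (nd (lf 0) (nd (lf 0) (nd (nd (lf 8396802) (lf 0)) (nd (lf 131073) (lf 2199048429570)))))) (nd (nd (lf 0) (nd (lf 0) (nd (nd (lf 8396802) (lf 8392706)) (nd (lf 0) (lf 638319953200031737673949186))))) (nd (lf 0) (nd (lf 0) (nd (nd (lf 1) (lf 0)) (nd (lf 0) (lf 142936529199110))))))) (nd (nd (nd (lf 0) (nd (lf 0) (nd (nd (lf 0) (lf 8392706)) (nd (lf 131073) (lf 35433873409))))) (nd (lf 0) (nd (lf 0) (nd (lf 0) (nd (lf 131073) (lf 131073)))))) (nd (nd (lf 0) (nd (lf 0) (nd (nd (lf 0) (lf 135169)) (nd (lf 0) (lf 38046834063531859974))))) (nd (lf 0) (nd (lf 0) (nd (lf 0) (nd (lf 0) (lf 142936529199110))))))))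

def p144 : Tr :=
  (nd (nd (nd (nd (lf 0) (nd (lf 0) (nd (nd (lf 537403395) (lf 131073)) (nd (lf 8396802) (lf 2361210271831364739075))))) (lf 0)) (nd (nd (lf 0) (nd (lf 0) (nd (nd (lf 1) (lf 131073)) (nd (lf 0) (lf 140739099512835))))) (lf 0))) (nd (nd (nd (lf 0) (nd (lf 0) (nd (nd (lf 0) (lf 131073)) (nd (lf 8396802) (lf 2199048429570))))) (lf 0)) (nd (nd (lf 0) (nd (lf 0) (nd (nd (lf 0) (lf 131073)) (nd (lf 0) (lf 140739099512835))))) (lf 0))))

def p145 : Tr :=
  (nd (nd (nd (nd (lf 0) (nd (lf 0) (nd (nd (lf 131073) (lf 8654850)) (nd (lf 8392706) (lf 9570253361512449))))) (nd (lf 0) (nd (lf 0) (nd (nd (lf 131073) (lf 0)) (nd (lf 135169) (lf 1099084480581708994499096635225753463142952091340494875776043668944968768417239341610696705)))))) (nd (nd (lf 0) (nd (lf 0) (nd (nd (lf 131073) (lf 8654850)) (nd (lf 0) (lf 25913232393436945194627055615438018659924898195708634035148607793979323793455771441556578594106035391523884736507159375183268235795993517228033)))))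 (nd (lf 0) (nd (lf 0) (nd (nd (lf 131073) (lf 0)) (nd (lf 0) (lf 2975974834558029059532374427887943107845685833467484560598783150523423137495516813930136245465444413745217836119540880902281591429240203381766094279085079035659307445780423720593693698593484401159461096756568978751489))))))) (nd (nd (nd (lf 0) (nd (lf 0) (nd (nd (lf 0) (lf 8654850)) (nd (lf 135169) (lf 1082187139902550600121679897343807128025240710538537066060760755591954022629510621069865002))))) (nd (lf 0) (nd (lf 0) (nd (lf 0) (nd (lf 135169) (lf 124282508061393131878791766821503047831035782318965777593673129402615645447045655933359509536040452799671516075987923005386679645318521588506532711062917672170450986)))))) (nd (nd (lf 0) (nd (lf 0) (nd (nd (lf 0) (lf 139265)) (nd (lf 0) (lf 2930222323864255283959471740021918271102809053043617107428242284704750673913904193664045342487020442998130515492581023561480872327981140057925327994691108508903265746371160532848640842655955860281208410640219238068266)))))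 (nd (lf 0) (nd (lf 0) (nd (lf 0) (nd (lf 0) (lf 474100143666813399806181971822750274013655785823691473364536779032194692409689544191768262495357247654477217474686016144362920467917576166989660436966218166314))))))))

def p146 : Tr :=
  (nd (nd (nd (nd (lf 0) (nd (lf 0) (nd (nd (lf 131073) (lf 8654850)) (nd (lf 8392706) (lf 9570253361512449))))) (nd (lf 0) (nd (lf 0) (nd (nd (lf 131073) (lf 0)) (nd (lf 135169) (lf 10134199681455206328303617)))))) (nd (nd (lf 0) (nd (lf 0) (nd (nd (lf 131073) (lf 8654850)) (nd (lf 0) (lf 11033750285605280371018479398944769))))) (nd (lf 0) (nd (lf 0) (nd (nd (lf 131073) (lf 0)) (nd (lf 0) (lf 11683936744729565200110991763294600123252737))))))) (nd (nd (nd (lf 0) (nd (lf 0) (nd (nd (lf 0) (lf 8654850)) (nd (lf 135169) (lf 36507619329))))) (nd (lf 0) (nd (lf 0) (nd (lf 0) (nd (lf 135169) (lf 38658903814144921601)))))) (nd (nd (lf 0) (nd (lf 0) (nd (nd (lf 0) (lf 139265)) (nd (lf 0) (lf 139265))))) (nd (lf 0) (nd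 (lf 0) (nd (lf 0) (nd (lf 0) (lf 147472014671878))))))))

def p147 : Tr :=
  (nd (nd (nd (nd (lf 0) (nd (lf 0) (nd (nd (lf 131073) (lf 8654850)) (nd (lf 8392706) (lf 9570253361512449))))) (nd (lf 0) (nd (lf 0) (nd (nd (lf 131073) (lf 0)) (nd (lf 135169) (lf 648286548034633893365022721)))))) (nd (nd (lf 0) (nd (lf 0) (nd (nd (lf 131073) (lf 8654850)) (nd (lf 0) (lf 185115611831661479525172783577668685529089))))) (nd (lf 0) (nd (lf 0) (nd (nd (lf 131073) (lf 0)) (nd (lf 0) (lf 12539685542846535123897668137820388537545575850967041))))))) (nd (nd (nd (lf 0) (nd (lf 0) (nd (nd (lf 0) (lf 8654850)) (nd (lf 135169) (lf 657662803234221206723391495))))) (nd (lf 0) (nd (lf 0) (nd (lf 0) (nd (lf 135169) (lf 44549912355927770357374924301764423687)))))) (nd (nd (lf 0) (nd (lf 0) (nd (nd (lf 0) (lf 139265)) (nd (lf 0) (lf 12721049430284706624176030640350763341243622638514183))))) (lf 0))))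

def p148 : Tr :=
  (nd (nd (nd (nd (lf 0) (nd (lf 0) (nd (nd (lf 131073) (lf 8654850)) (nd (lf 8392706) (lf 9570253361512449))))) (nd (lf 0) (nd (lf 0) (nd (nd (lf 131073) (lf 0)) (nd (lf 135169) (lf 35433873409)))))) (nd (nd (lf 0) (nd (lf 0) (nd (nd (lf 131073) (lf 8654850)) (nd (lf 0) (lf 706160018278735693259579794115395585))))) (nd (lf 0) (nd (lf 0) (nd (nd (lf 131073) (lf 0)) (nd (lf 0) (lf 131073))))))) (nd (nd (nd (lf 0) (nd (lf 0) (nd (nd (lf 0) (lf 8654850)) (nd (lf 135169) (lf 10275981300534706355073030))))) (nd (lf 0) (nd (lf 0) (nd (lf 0) (nd (lf 135169) (lf 38046834063531864070)))))) (nd (nd (lf 0) (nd (lf 0) (nd (nd (lf 0) (lf 139265)) (nd (lf 0) (lf 11847400507223517908664037165358422950703110))))) (nd (lf 0) (nd (lf 0) (nd (lf 0) (nd (lf 0) (lf 142936529203206))))))))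

def p149 : Tr :=
  (nd (nd (nd (nd (lf 0) (nd (lf 0) (nd (nd (lf 135169) (lf 553914371)) (nd (lf 8654850) (lf 2436141169095733809153))))) (nd (lf 0) (nd (lf 0) (nd (nd (lf 135169) (lf 0)) (nd (lf 8654850) (lf 2576153538226496740373507477505)))))) (nd (nd (lf 0) (nd (lf 0) (nd (nd (lf 135169) (lf 145208550096897)) (nd (lf 0) (lf 140812651204609))))) (nd (lf 0) (nd (lf 0) (nd (nd (lf 135169) (lf 0)) (nd (lf 0) (lf 140812651204609))))))) (lf 0))

def p150 : Tr :=
  (nd (nd (nd (nd (lf 0) (nd (lf 0) (nd (nd (lf 131073) (lf 8654850)) (nd (lf 8392706) (lf 9570253361512449))))) (nd (lf 0) (nd (lf 0) (nd (nd (lf 131073) (lf 0)) (nd (lf 135169) (lf 63583759676541691298141702279775771195813836210427660277949119749015232931099443201)))))) (nd (nd (lf 0) (nd (lf 0) (nd (nd (lf 131073) (lf 8654850)) (nd (lf 0) (lf 52105412529095751231313721047415890273235998374497222657))))) (nd (lf 0) (nd (lf 0) (nd (nd (lf 131073) (lf 0)) (nd (lf 0) (lf 346182915847451701604992829979426991092907943141620610252126671583708057018440187491062647311710425426019996521277234741249)))))))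 (nd (nd (nd (lf 0) (nd (lf 0) (nd (nd (lf 0) (lf 8654850)) (nd (lf 135169) (lf 36507619329))))) (nd (lf 0) (nd (lf 0) (nd (lf 0) (nd (lf 135169) (lf 242552794176260724251334008330443463118796677438460007774158934589444095348737)))))) (nd (nd (lf 0) (nd (lf 0) (nd (nd (lf 0) (lf 139265)) (nd (lf 0) (lf 198766397348198541002750478757758864738933652615191))))) (nd (lf 0) (nd (lf 0) (nd (lf 0) (nd (lf 0) (lf 925265480713885209088645966836713650202929219964828520867000330312515622))))))))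

def p151 : Tr :=
  (nd (nd (nd (nd (lf 0) (nd (lf 0) (nd (nd (lf 131073) (lf 8654850)) (nd (lf 8392706) (lf 9570253361512449))))) (nd (lf 0) (nd (lf 0) (nd (nd (lf 131073) (lf 0)) (nd (lf 135169) (lf 47812803449244168146984696276892833752902139905)))))) (nd (nd (lf 0) (nd (lf 0) (nd (nd (lf 131073) (lf 8654850)) (nd (lf 0) (lf 48526944353365662908699751158055814402966945793))))) (nd (lf 0) (nd (lf 0) (nd (nd (lf 131073) (lf 0)) (nd (lf 0) (lf 182391370579697296703280243976184210784257))))))) (nd (nd (nd (lf 0) (nd (lf 0) (nd (nd (lf 0) (lf 8654850)) (nd (lf 135169) (lf 36507619329))))) (nd (lf 0) (nd (lf 0) (nd (lf 0) (nd (lf 135169) (lf 182391370579697296703280243976184210788353)))))) (nd (nd (lf 0) (nd (lf 0) (nd (nd (lf 0) (lf 139265)) (nd (lf 0) (lf 706160097506900605583608724090023951))))) (nd (lf 0) (nd (lf 0) (nd (lf 0) (nd (lf 0) (lf 695767862623967348874207473664032786))))))))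

def p152 : Tr :=
  (nd (nd (nd (nd (lf 0) (nd (lf 0) (nd (nd (lf 131073) (lf 8654850)) (nd (lf 8392706) (lf 9570253361512449))))) (nd (lf 0) (nd (lf 0) (nd (nd (lf 131073) (lf 0)) (nd (lf 135169) (lf 35433873409)))))) (nd (nd (lf 0) (nd (lf 0) (nd (nd (lf 131073) (lf 8654850)) (nd (lf 0) (lf 45194238832607386120617713412232052737))))) (nd (lf 0) (nd (lf 0) (nd (nd (lf 131073) (lf 0)) (nd (lf 0) (lf 131073))))))) (nd (nd (nd (lf 0) (nd (lf 0) (nd (nd (lf 0) (lf 8654850)) (nd (lf 135169) (lf 36507619329))))) (nd (lf 0) (nd (lf 0) (nd (lf 0) (nd (lf 135169) (lf 135169)))))) (nd (nd (lf 0) (nd (lf 0) (nd (nd (lf 0) (lf 139265)) (nd (lf 0) (lf 42090417117874502124224147467))))) (lf 0))))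

def p153 : Tr :=
  (nd (nd (nd (nd (lf 0) (nd (lf 0) (nd (nd (lf 131073) (lf 135169)) (nd (lf 8392706) (lf 594481748957069313))))) (nd (lf 0) (nd (lf 0) (nd (nd (lf 131073) (lf 0)) (nd (lf 8392706) (lf 160635526435949232390145)))))) (nd (nd (lf 0) (nd (lf 0) (nd (nd (lf 131073) (lf 554176515)) (nd (lf 0) (lf 145274048479233))))) (nd (lf 0) (nd (lf 0) (nd (nd (lf 131073) (lf 0)) (nd (lf 0) (lf 9293354673242113))))))) (nd (nd (nd (lf 0) (nd (lf 0) (nd (nd (lf 0) (lf 135169)) (nd (lf 8658946) (lf 38046836400018448386))))) (nd (lf 0) (nd (lf 0) (nd (lf 0) (nd (lf 1) (lf 9033589681582083)))))) (nd (nd (lf 0) (nd (lf 0) (nd (nd (lf 0) (lf 1)) (nd (lf 0) (lf 8413186))))) (nd (lf 0) (nd (lf 0) (nd (lf 0) (nd (lf 0) (lf 8413186))))))))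

def p154 : Tr :=
  (nd (nd (nd (nd (lf 0) (nd (lf 0) (nd (nd (lf 131073) (lf 135169)) (nd (lf 8392706) (lf 594481748957069313))))) (nd (lf 0) (nd (lf 0) (nd (nd (lf 131073) (lf 0)) (nd (lf 8392706) (lf 861720629701283953670552397119639350854341130431643026463522817)))))) (nd (nd (lf 0) (nd (lf 0) (nd (nd (lf 131073) (lf 135169)) (nd (lf 0) (lf 35433873409))))) (nd (lf 0) (nd (lf 0) (nd (nd (lf 131073) (lf 0)) (nd (lf 0) (lf 51362552028970954040917897052743396213909454967477501953))))))) (nd (nd (nd (lf 0) (nd (lf 0) (nd (nd (lf 0) (lf 135169)) (nd (lf 8658946) (lf 848472804166993926730653148368154725174306851739165638993403930))))) (nd (lf 0) (nd (lf 0) (nd (lf 0) (nd (lf 1) (lf 73307083874838612411160501535613187707026370208964087530015584786052009699761727512855871605038669850)))))) (nd (nd (lf 0) (nd (lf 0) (nd (nd (lf 0) (lf 135169)) (nd (lf 0) (lf 50572916988229862372955374020265581089617261375112634394))))) (nd (lf 0) (nd (lf 0) (nd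 (lf 0) (nd (lf 0) (lf 73307083874838612411160501535613187707026370208964087530015584786052009699761727512855871605038669850))))))))

def p155 : Tr :=
  (nd (nd (nd (nd (lf 0) (nd (lf 0) (nd (nd (lf 131073) (lf 135169)) (nd (lf 8392706) (lf 594481748957069313))))) (nd (lf 0) (nd (lf 0) (nd (nd (lf 131073) (lf 0)) (nd (lf 8392706) (lf 37019599933176152065)))))) (nd (nd (lf 0) (nd (lf 0) (nd (nd (lf 537141251) (lf 135169)) (nd (lf 0) (lf 145137145749507))))) (nd (lf 0) (nd (lf 0) (nd (nd (lf 1) (lf 0)) (nd (lf 0) (lf 8417282))))))) (nd (nd (nd (lf 0) (nd (lf 0) (nd (nd (lf 0) (lf 135169)) (nd (lf 8658946) (lf 155839841894477645504516))))) (nd (lf 0) (nd (lf 0) (nd (lf 0) (nd (lf 1) (lf 9037987728351235)))))) (nd (nd (lf 0) (nd (lf 0) (nd (nd (lf 0) (lf 135169)) (nd (lf 0) (lf 9288778419298308))))) (nd (lf 0) (nd (lf 0) (nd (lf 0) (nd (lf 0) (lf 8417282))))))))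

def p156 : Tr :=
  (nd (nd (nd (nd (lf 0) (nd (lf 0) (nd (nd (lf 131073) (lf 135169)) (nd (lf 8392706) (lf 594481748957069313))))) (nd (lf 0) (nd (lf 0) (nd (nd (lf 131073) (lf 0)) (nd (lf 8392706) (lf 151190793470209941962753)))))) (nd (nd (lf 0) (nd (lf 0) (nd (nd (lf 131073) (lf 135169)) (nd (lf 0) (lf 35433873409))))) (nd (lf 0) (nd (lf 0) (nd (nd (lf 131073) (lf 0)) (nd (lf 0) (lf 131073))))))) (nd (nd (nd (lf 0) (nd (lf 0) (nd (nd (lf 0) (lf 135169)) (nd (lf 8658946) (lf 155839841894475498020868))))) (lf 0)) (nd (nd (lf 0) (nd (lf 0) (nd (nd (lf 0) (lf 135169)) (nd (lf 0) (lf 135169))))) (lf 0))))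

def p157 : Tr :=
  (nd (nd (nd (nd (lf 0) (nd (lf 0) (nd (nd (lf 131073) (lf 135169)) (nd (lf 8392706) (lf 594481748957069313))))) (nd (lf 0) (nd (lf 0) (nd (nd (lf 131073) (lf 0)) (nd (lf 8392706) (lf 3675925325380008709030052945939896742202765578220516928718343566749248126977)))))) (nd (nd (lf 0) (nd (lf 0) (nd (nd (lf 131073) (lf 554176515)) (nd (lf 0) (lf 145274048479233))))) (nd (lf 0) (nd (lf 0) (nd (nd (lf 131073) (lf 0)) (nd (lf 0) (lf 131073))))))) (nd (nd (nd (lf 0) (nd (lf 0) (nd (nd (lf 0) (lf 135169)) (nd (lf 8658946) (lf 2267768168450))))) (lf 0)) (lf 0)))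

def p158 : Tr :=
  (nd (nd (nd (nd (lf 0) (nd (lf 0) (nd (nd (lf 570957827) (lf 139265)) (nd (lf 8921090) (lf 2508784787371028127747))))) (nd (lf 0) (nd (lf 0) (nd (nd (lf 2148007937) (lf 0)) (nd (lf 16781314) (lf 141218558255106)))))) (nd (nd (lf 0) (nd (lf 0) (nd (nd (lf 155991433339373405356034) (lf 139265)) (nd (lf 0) (lf 149535209312259))))) (nd (lf 0) (nd (lf 0) (nd (nd (lf 1) (lf 0)) (nd (lf 0) (lf 8417282))))))) (nd (nd (nd (lf 0) (nd (lf 0) (nd (nd (lf 0) (lf 139265)) (nd (lf 8921090) (lf 2336487907330))))) (nd (lf 0) (nd (lf 0) (nd (lf 0) (nd (lf 1) (lf 8417282)))))) (nd (nd (lf 0) (nd (lf 0) (nd (nd (lf 0) (lf 139265)) (nd (lf 0) (lf 139265))))) (nd (lf 0) (nd (lf 0) (nd (lf 0) (nd (lf 0) (lf 8417282))))))))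

def p159 : Tr :=
  (nd (nd (nd (nd (lf 0) (nd (lf 0) (nd (nd (lf 131073) (lf 8654850)) (nd (lf 8392706) (lf 9570253361512449))))) (nd (lf 0) (nd (lf 0) (nd (nd (lf 131073) (lf 0)) (nd (lf 135169) (lf 35433873409)))))) (nd (nd (lf 0) (nd (lf 0) (nd (nd (lf 131073) (lf 8654850)) (nd (lf 0) (lf 185115611831661518210799011245802276126721))))) (nd (lf 0) (nd (lf 0) (nd (nd (lf 131073) (lf 0)) (nd (lf 0) (lf 674998675209170850320995860088750081))))))) (nd (nd (nd (lf 0) (nd (lf 0) (nd (nd (lf 0) (lf 8654850)) (nd (lf 135169) (lf 48526949672240648441986077642397488805804011538))))) (nd (lf 0) (nd (lf 0) (nd (lf 0) (nd (lf 135169) (lf 179671094285445017768185516644038142095378)))))) (nd (nd (lf 0) (nd (lf 0) (nd (nd (lf 0) (lf 139265)) (nd (lf 0) (lf 185115612156180033183599510362946433478674))))) (nd (lf 0) (nd (lf 0) (nd (lf 0) (nd (lf 0) (lf 675323193724143650820113004246102034))))))))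

def p160 : Tr :=
  (nd (nd (nd (nd (lf 0) (nd (lf 0) (nd (nd (lf 131073) (lf 8654850)) (nd (lf 8392706) (lf 9570253361512449))))) (nd (lf 0) (nd (lf 0) (nd (nd (lf 131073) (lf 0)) (nd (lf 135169) (lf 35433873409)))))) (nd (nd (lf 0) (nd (lf 0) (nd (nd (lf 131073) (lf 8654850)) (nd (lf 0) (lf 52105412529095751231313721047415890273235998375570964481))))) (nd (lf 0) (nd (lf 0) (nd (nd (lf 131073) (lf 0)) (nd (lf 0) (lf 189995236373335982861980988202661745836302597488641))))))) (nd (nd (nd (lf 0) (nd (lf 0) (nd (nd (lf 0) (lf 8654850)) (nd (lf 135169) (lf 64503380054387485988240235885608621213301196778084392811006771488363766261006233638))))) (nd (lf 0) (nd (lf 0) (nd (lf 0) (nd (lf 135169) (lf 238823848126165585782976668935264558619120242660207186529740915678263783485478)))))) (nd (nd (lf 0) (nd (lf 0) (nd (nd (lf 0) (lf 139265)) (nd (lf 0) (lf 351189825731238626803358142819823611331096376530549545365484880104006012227315424809340225536175436770353782362746236203046)))))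 (nd (lf 0) (nd (lf 0) (nd (lf 0) (nd (lf 0) (lf 897227136154337531929057345005753235071803426647579401527055741660983334))))))))

def p161 : Tr :=
  (nd (nd (nd (nd (lf 0) (nd (lf 0) (nd (nd (lf 554180611) (lf 135169)) (nd (lf 8658946) (lf 2434997529601196433411))))) (lf 0)) (nd (nd (lf 0) (nd (lf 0) (nd (nd (lf 145277269573633) (lf 135169)) (nd (lf 0) (lf 145137146032131))))) (lf 0))) (nd (nd (nd (lf 0) (nd (lf 0) (nd (nd (lf 0) (lf 135169)) (nd (lf 8658946) (lf 2614558688869491086514983559176))))) (lf 0)) (nd (nd (lf 0) (nd (lf 0) (nd (nd (lf 0) (lf 135169)) (nd (lf 0) (lf 145137146032131))))) (lf 0))))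

def p162 : Tr :=
  (nd (nd (nd (nd (lf 0) (nd (lf 0) (nd (nd (lf 131073) (lf 8654850)) (nd (lf 8392706) (lf 9570253361512449))))) (nd (lf 0) (nd (lf 0) (nd (nd (lf 131073) (lf 0)) (nd (lf 135169) (lf 35433873409)))))) (nd (nd (lf 0) (nd (lf 0) (nd (nd (lf 131073) (lf 8654850)) (nd (lf 0) (lf 11033750285605280371018479398944769))))) (nd (lf 0) (nd (lf 0) (nd (nd (lf 131073) (lf 0)) (nd (lf 0) (lf 40233056257396053581155401729))))))) (nd (nd (nd (lf 0) (nd (lf 0) (nd (nd (lf 0) (lf 8654850)) (nd (lf 135169) (lf 36507619329))))) (nd (lf 0) (nd (lf 0) (nd (lf 0) (nd (lf 135169) (lf 135169)))))) (nd (nd (lf 0) (nd (lf 0) (nd (nd (lf 0) (lf 139265)) (nd (lf 0) (lf 139265))))) (lf 0))))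

def p163 : Tr :=
  (nd (nd (nd (nd (lf 0) (nd (lf 0) (nd (nd (lf 135169) (lf 553914371)) (nd (lf 8654850) (lf 2436141169095733809153))))) (nd (lf 0) (nd (lf 0) (nd (nd (lf 135169) (lf 0)) (nd (lf 8654850) (lf 2268817133569)))))) (nd (nd (lf 0) (nd (lf 0) (nd (nd (lf 135169) (lf 145208550096897)) (nd (lf 0) (lf 140812651204609))))) (nd (lf 0) (nd (lf 0) (nd (nd (lf 135169) (lf 0)) (nd (lf 0) (lf 140812651204609))))))) (lf 0))

def p164 : Tr :=
  (nd (nd (nd (nd (lf 0) (nd (lf 0) (nd (nd (lf 554180611) (lf 135169)) (nd (lf 8658946) (lf 2434997529601196433411))))) (lf 0)) (nd (nd (lf 0) (nd (lf 0) (nd (nd (lf 145277269573633) (lf 135169)) (nd (lf 0) (lf 145137146028035))))) (lf 0))) (nd (nd (nd (lf 0) (nd (lf 0) (nd (nd (lf 0) (lf 135169)) (nd (lf 8658946) (lf 2267768168450))))) (lf 0)) (nd (nd (lf 0) (nd (lf 0) (nd (nd (lf 0) (lf 135169)) (nd (lf 0) (lf 145137146028035))))) (lf 0))))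

def p165 : Tr :=
  (nd (nd (nd (nd (lf 0) (nd (lf 0) (nd (nd (lf 139265) (lf 570691587)) (nd (lf 8916994) (lf 2509928145459291496449))))) (nd (lf 0) (nd (lf 0) (nd (nd (lf 139265) (lf 0)) (nd (lf 8916994) (lf 2337536614401)))))) (nd (nd (lf 0) (nd (lf 0) (nd (nd (lf 139265) (lf 155916493441780118720514)) (nd (lf 0) (lf 145208550236161))))) (nd (lf 0) (nd (lf 0) (nd (nd (lf 139265) (lf 0)) (nd (lf 0) (lf 139265))))))) (nd (nd (nd (lf 0) (nd (lf 0) (nd (nd (lf 0) (lf 16781314)) (nd (lf 2148007937) (lf 141218558251010))))) (nd (lf 0) (nd (lf 0) (nd (lf 0) (nd (lf 1) (lf 8417282)))))) (nd (nd (lf 0) (nd (lf 0) (nd (nd (lf 0) (lf 1)) (nd (lf 0) (lf 8417282))))) (nd (lf 0) (nd (lf 0) (nd (lf 0) (nd (lf 0) (lf 8417282))))))))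

def p166 : Tr :=
  (nd (nd (nd (nd (lf 0) (nd (lf 0) (nd (nd (lf 131073) (lf 135169)) (nd (lf 8392706) (lf 594481748957069313))))) (nd (lf 0) (nd (lf 0) (nd (nd (lf 131073) (lf 0)) (nd (lf 8392706) (lf 2200097652737)))))) (nd (nd (lf 0) (nd (lf 0) (nd (nd (lf 537141251) (lf 135169)) (nd (lf 0) (lf 145137145749507))))) (lf 0))) (nd (nd (nd (lf 0) (nd (lf 0) (nd (nd (lf 0) (lf 135169)) (nd (lf 8658946) (lf 3731622856133263036052325277090367650061038442312781307251540745194029473825))))) (lf 0)) (nd (nd (lf 0) (nd (lf 0) (nd (nd (lf 0) (lf 135169)) (nd (lf 0) (lf 135169))))) (lf 0))))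

def p167 : Tr :=
  (nd (nd (nd (nd (lf 0) (nd (lf 0) (nd (nd (lf 131073) (lf 8654850)) (nd (lf 8392706) (lf 9570253361512449))))) (nd (lf 0) (nd (lf 0) (nd (nd (lf 131073) (lf 0)) (nd (lf 135169) (lf 10134199681736681305014273)))))) (nd (nd (lf 0) (nd (lf 0) (nd (nd (lf 131073) (lf 8654850)) (nd (lf 0) (lf 42090414794754708587237474305))))) (nd (lf 0) (nd (lf 0) (nd (nd (lf 131073) (lf 0)) (nd (lf 0) (lf 38658903815218659329))))))) (nd (nd (nd (lf 0) (nd (lf 0) (nd (nd (lf 0) (lf 8654850)) (nd (lf 135169) (lf 39199757768755539971))))) (nd (lf 0) (nd (lf 0) (nd (lf 0) (nd (lf 135169) (lf 41509681896393446625339011075)))))) (nd (nd (lf 0) (nd (lf 0) (nd (nd (lf 0) (lf 139265)) (nd (lf 0) (lf 2693786997775414630478787407875))))) (nd (lf 0) (nd (lf 0) (nd (lf 0) (nd (lf 0) (lf 147472014675974))))))))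

def p168 : Tr :=
  (nd (nd (nd (nd (lf 0) (nd (lf 0) (nd (nd (lf 131073) (lf 135169)) (nd (lf 8392706) (lf 594481748957069313))))) (nd (lf 0) (nd (lf 0) (nd (nd (lf 131073) (lf 0)) (nd (lf 8392706) (lf 182476441166356928918232683692455533084673)))))) (nd (nd (lf 0) (nd (lf 0) (nd (nd (lf 131073) (lf 135169)) (nd (lf 0) (lf 35433873409))))) (nd (lf 0) (nd (lf 0) (nd (nd (lf 131073) (lf 0)) (nd (lf 0) (lf 10876443455598171288861792307642369))))))) (nd (nd (nd (lf 0) (nd (lf 0) (nd (nd (lf 0) (lf 135169)) (nd (lf 8658946) (lf 2267768168450))))) (nd (lf 0) (nd (lf 0) (nd (lf 0) (nd (lf 1) (lf 41490339109795270114371461134)))))) (nd (nd (lf 0) (nd (lf 0) (nd (nd (lf 0) (lf 135169)) (nd (lf 0) (lf 135169))))) (nd (lf 0) (nd (lf 0) (nd (lf 0) (nd (lf 0) (lf 41490339109795270114371461134))))))))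

def p169 : Tr :=
  (nd (nd (nd (nd (lf 0) (nd (lf 0) (nd (nd (lf 554180611) (lf 135169)) (nd (lf 8658946) (lf 2434997529601196433411))))) (nd (lf 0) (nd (lf 0) (nd (nd (lf 2148007937) (lf 0)) (nd (lf 16781314) (lf 141218558255106)))))) (nd (nd (lf 0) (nd (lf 0) (nd (nd (lf 2437348131529199976449) (lf 135169)) (nd (lf 0) (lf 145137162797059))))) (nd (lf 0) (nd (lf 0) (nd (nd (lf 1) (lf 0)) (nd (lf 0) (lf 8417282))))))) (nd (nd (nd (lf 0) (nd (lf 0) (nd (nd (lf 0) (lf 135169)) (nd (lf 8658946) (lf 155839841894475498020868))))) (nd (lf 0) (nd (lf 0) (nd (lf 0) (nd (lf 1) (lf 9037987728351235)))))) (nd (nd (lf 0) (nd (lf 0) (nd (nd (lf 0) (lf 135169)) (nd (lf 0) (lf 2434988241336630534146))))) (nd (lf 0) (nd (lf 0) (nd (lf 0) (nd (lf 0) (lf 8417282))))))))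

def p170 : Tr :=
  (nd (nd (nd (nd (lf 0) (nd (lf 0) (nd (nd (lf 537403395) (lf 131073)) (nd (lf 8396802) (lf 2361210271831364739075))))) (nd (lf 0) (nd (lf 0) (nd (nd (lf 2148007937) (lf 0)) (nd (lf 16781314) (lf 141081119301634)))))) (nd (nd (lf 0) (nd (lf 0) (nd (nd (lf 2148007937) (lf 131073)) (nd (lf 0) (lf 2199040040962))))) (nd (lf 0) (nd (lf 0) (nd (nd (lf 1) (lf 0)) (nd (lf 0) (lf 8409090))))))) (nd (nd (nd (lf 0) (nd (lf 0) (nd (nd (lf 0) (lf 131073)) (nd (lf 8396802) (lf 2199048429570))))) (nd (lf 0) (nd (lf 0) (nd (lf 0) (nd (lf 1) (lf 8409090)))))) (nd (nd (lf 0) (nd (lf 0) (nd (nd (lf 0) (lf 131073)) (nd (lf 0) (lf 131073))))) (nd (lf 0) (nd (lf 0) (nd (lf 0) (nd (lf 0) (lf 8409090))))))))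

def p171 : Tr :=
  (nd (nd (nd (nd (lf 0) (nd (lf 0) (nd (nd (lf 131073) (lf 8654850)) (nd (lf 8392706) (lf 9570253361512449))))) (nd (lf 0) (nd (lf 0) (nd (nd (lf 131073) (lf 0)) (nd (lf 135169) (lf 3061446668444332721288078847690467207715842555905)))))) (nd (nd (lf 0) (nd (lf 0) (nd (nd (lf 131073) (lf 8654850)) (nd (lf 0) (lf 52105412529095751231313721047415890273235998375570964481))))) (nd (lf 0) (nd (lf 0) (nd (nd (lf 131073) (lf 0)) (nd (lf 0) (lf 16668101096647345096053073015264061758526255254346028357464164365165227223667203299475457))))))) (nd (nd (nd (lf 0) (nd (lf 0) (nd (nd (lf 0) (lf 8654850)) (nd (lf 135169) (lf 229162040648089821062570464553717716860452016351613071314226487521310))))) (nd (lf 0) (nd (lf 0) (nd (lf 0) (nd (lf 135169) (lf 73307083874838612411160501535599876154375248711762169891945942489289819979893371642626625532257398814)))))) (nd (nd (lf 0) (nd (lf 0) (nd (nd (lf 0) (lf 139265)) (nd (lf 0) (lf 1247676897730935603204323111085555848842064024959162599392516597532697674307741241353422781046966818957979678)))))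 (nd (lf 0) (nd (lf 0) (nd (lf 0) (nd (lf 0) (lf 3187591119606514425047753226969507884869498885901378154526))))))))

def p172 : Tr :=
  (nd (nd (nd (nd (lf 0) (nd (lf 0) (nd (nd (lf 131073) (lf 537137155)) (nd (lf 8392706) (lf 594481748957069313))))) (nd (lf 0) (nd (lf 0) (nd (nd (lf 131073) (lf 0)) (nd (lf 8392706) (lf 2576153538226496740304787996673)))))) (nd (nd (lf 0) (nd (lf 0) (nd (nd (lf 131073) (lf 135169)) (nd (lf 0) (lf 638319953200031400411922433))))) (nd (lf 0) (nd (lf 0) (nd (nd (lf 131073) (lf 0)) (nd (lf 0) (lf 2398077024326521847809))))))) (lf 0))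

def p173 : Tr :=
  (nd (nd (nd (nd (lf 0) (nd (lf 0) (nd (nd (lf 131073) (lf 8654850)) (nd (lf 8392706) (lf 594756798662443009))))) (nd (lf 0) (nd (lf 0) (nd (nd (lf 131073) (lf 0)) (nd (lf 135169) (lf 38066394616964710401)))))) (nd (nd (lf 0) (nd (lf 0) (nd (nd (lf 131073) (lf 8654850)) (nd (lf 0) (lf 2268817129473))))) (nd (lf 0) (nd (lf 0) (nd (nd (lf 131073) (lf 0)) (nd (lf 0) (lf 145211771453441))))))) (nd (nd (nd (lf 0) (nd (lf 0) (nd (nd (lf 0) (lf 8654850)) (nd (lf 135169) (lf 38064435114396377090))))) (nd (lf 0) (nd (lf 0) (nd (lf 0) (nd (lf 135169) (lf 2436249255485741490178)))))) (nd (nd (lf 0) (nd (lf 0) (nd (nd (lf 0) (lf 1)) (nd (lf 0) (lf 8413186))))) (nd (lf 0) (nd (lf 0) (nd (lf 0) (nd (lf 0) (lf 8413186))))))))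

def p174 : Tr :=
  (nd (nd (nd (nd (lf 0) (nd (lf 0) (nd (nd (lf 131073) (lf 8654850)) (nd (lf 8392706) (lf 9570253361512449))))) (nd (lf 0) (nd (lf 0) (nd (nd (lf 131073) (lf 0)) (nd (lf 135169) (lf 647984316579167286117924865)))))) (nd (nd (lf 0) (nd (lf 0) (nd (nd (lf 131073) (lf 8654850)) (nd (lf 0) (lf 36507615233))))) (nd (lf 0) (nd (lf 0) (nd (nd (lf 131073) (lf 0)) (nd (lf 0) (lf 2471864000622433796097))))))) (nd (nd (nd (lf 0) (nd (lf 0) (nd (nd (lf 0) (lf 8654850)) (nd (lf 135169) (lf 36507619329))))) (nd (lf 0) (nd (lf 0) (nd (lf 0) (nd (lf 135169) (lf 2471864000622433800193)))))) (nd (nd (lf 0) (nd (lf 0) (nd (nd (lf 0) (lf 139265)) (nd (lf 0) (lf 139265))))) (lf 0))))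

def p175 : Tr :=
  (nd (nd (nd (nd (lf 0) (nd (lf 0) (nd (nd (lf 131073) (lf 135169)) (nd (lf 8392706) (lf 594481748957069313))))) (nd (lf 0) (nd (lf 0) (nd (nd (lf 131073) (lf 0)) (nd (lf 8392706) (lf 151190793470209941962753)))))) (nd (nd (lf 0) (nd (lf 0) (nd (nd (lf 131073) (lf 135169)) (nd (lf 0) (lf 35433873409))))) (nd (lf 0) (nd (lf 0) (nd (nd (lf 131073) (lf 0)) (nd (lf 0) (lf 131073))))))) (nd (nd (nd (lf 0) (nd (lf 0) (nd (nd (lf 0) (lf 135169)) (nd (lf 8658946) (lf 638319992399773699247202310))))) (nd (lf 0) (nd (lf 0) (nd (lf 0) (nd (lf 1) (lf 142936529199110)))))) (nd (nd (lf 0) (nd (lf 0) (nd (nd (lf 0) (lf 135169)) (nd (lf 0) (lf 38046834063531859974))))) (nd (lf 0) (nd (lf 0) (nd (lf 0) (nd (lf 0) (lf 142936529199110))))))))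

def p176 : Tr :=
  (nd (nd (nd (nd (lf 0) (nd (lf 0) (nd (nd (lf 131073) (lf 8654850)) (nd (lf 8392706) (lf 594756798662443009))))) (nd (lf 0) (nd (lf 0) (nd (nd (lf 131073) (lf 0)) (nd (lf 135169) (lf 35433873409)))))) (nd (nd (lf 0) (nd (lf 0) (nd (nd (lf 131073) (lf 8654850)) (nd (lf 0) (lf 179754212416285513845124681602096845946881))))) (nd (lf 0) (nd (lf 0) (nd (nd (lf 131073) (lf 0)) (nd (lf 0) (lf 10551924902241976016982294654484481))))))) (nd (nd (nd (lf 0) (nd (lf 0) (nd (nd (lf 0) (lf 8654850)) (nd (lf 135169) (lf 179754212573592343550002308857248371990542))))) (nd (lf 0) (nd (lf 0) (nd (lf 0) (nd (lf 135169) (lf 10709231731946853644237446180528142)))))) (nd (nd (lf 0) (nd (lf 0) (nd (nd (lf 0) (lf 1)) (nd (lf 0) (lf 3189123615238724171683802765221428824667268948943373623310))))) (nd (lf 0) (nd (lf 0) (nd (lf 0) (nd (lf 0) (lf 3189123615238724171683802765221428824667268948943373623310))))))))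

def p177 : Tr :=
  (nd (nd (nd (nd (lf 0) (nd (lf 0) (nd (nd (lf 131073) (lf 8654850)) (nd (lf 8392706) (lf 594756798662443009))))) (nd (lf 0) (nd (lf 0) (nd (nd (lf 131073) (lf 0)) (nd (lf 135169) (lf 35433873409)))))) (nd (nd (lf 0) (nd (lf 0) (nd (nd (lf 131073) (lf 8654850)) (nd (lf 0) (lf 10714185977952808966942084626513921))))) (nd (lf 0) (nd (lf 0) (nd (nd (lf 131073) (lf 0)) (nd (lf 0) (lf 628943735494731399336427521))))))) (nd (nd (nd (lf 0) (nd (lf 0) (nd (nd (lf 0) (lf 8654850)) (nd (lf 135169) (lf 40871375989261728943794839559))))) (nd (lf 0) (nd (lf 0) (nd (lf 0) (nd (lf 135169) (lf 2434997380066038013959)))))) (nd (nd (lf 0) (nd (lf 0) (nd (nd (lf 0) (lf 1)) (nd (lf 0) (lf 43220684399583131847268497536603152391))))) (nd (lf 0) (nd (lf 0) (nd (lf 0) (nd (lf 0) (lf 2399229948023725125642))))))))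

def p178 : Tr :=
  (nd (nd (nd (nd (lf 0) (nd (lf 0) (nd (nd (lf 131073) (lf 537137155)) (nd (lf 8392706) (lf 2362354192732176121857))))) (nd (lf 0) (nd (lf 0) (nd (nd (lf 131073) (lf 0)) (nd (lf 8392706) (lf 2200097652737)))))) (nd (nd (lf 0) (nd (lf 0) (nd (nd (lf 131073) (lf 1)) (nd (lf 0) (lf 140811577458689))))) (nd (lf 0) (nd (lf 0) (nd (nd (lf 131073) (lf 0)) (nd (lf 0) (lf 140811577458689))))))) (lf 0))

def p179 : Tr :=
  (nd (nd (nd (nd (lf 0) (nd (lf 0) (nd (nd (lf 131073) (lf 8654850)) (nd (lf 8392706) (lf 594756798662443009))))) (nd (lf 0) (nd (lf 0) (nd (nd (lf 131073) (lf 0)) (nd (lf 135169) (lf 35433873409)))))) (nd (nd (lf 0) (nd (lf 0) (nd (nd (lf 131073) (lf 8654850)) (nd (lf 0) (lf 638615250408255466193420289))))) (nd (lf 0) (nd (lf 0) (nd (nd (lf 131073) (lf 0)) (nd (lf 0) (lf 38622875014978469889))))))) (nd (nd (nd (lf 0) (nd (lf 0) (nd (nd (lf 0) (lf 8654850)) (nd (lf 135169) (lf 2268817133569))))) (nd (lf 0) (nd (lf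 0) (nd (lf 0) (nd (lf 135169) (lf 135169)))))) (nd (nd (lf 0) (nd (lf 0) (nd (nd (lf 0) (lf 1)) (nd (lf 0) (lf 147334575710214))))) (nd (lf 0) (nd (lf 0) (nd (lf 0) (nd (lf 0) (lf 147334575710214))))))))

def p180 : Tr :=
  (nd (nd (nd (nd (lf 0) (nd (lf 0) (nd (nd (lf 8396802) (lf 8392706)) (nd (lf 131073) (lf 36911513541070036994))))) (nd (lf 0) (nd (lf 0) (nd (nd (lf 8396802) (lf 0)) (nd (lf 131073) (lf 2199048429570)))))) (nd (nd (lf 0) (nd (lf 0) (nd (nd (lf 8396802) (lf 8392706)) (nd (lf 0) (lf 140806249783298))))) (lf 0))) (nd (nd (nd (lf 0) (nd (lf 0) (nd (nd (lf 0) (lf 8392706)) (nd (lf 131073) (lf 2362336866628482387971))))) (nd (lf 0) (nd (lf 0) (nd (lf 0) (nd (lf 131073) (lf 140739099512835)))))) (nd (nd (lf 0) (nd (lf 0) (nd (nd (lf 0) (lf 1)) (nd (lf 0) (lf 537415683))))) (lf 0))))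

def p181 : Tr :=
  (nd (nd (nd (nd (lf 0) (nd (lf 0) (nd (nd (lf 131073) (lf 8654850)) (nd (lf 8392706) (lf 9570253361512449))))) (nd (lf 0) (nd (lf 0) (nd (nd (lf 131073) (lf 0)) (nd (lf 135169) (lf 628943734920518351593013249)))))) (nd (nd (lf 0) (nd (lf 0) (nd (nd (lf 131073) (lf 8654850)) (nd (lf 0) (lf 36507615233))))) (nd (lf 0) (nd (lf 0) (nd (nd (lf 131073) (lf 0)) (nd (lf 0) (lf 2399229945833276178433))))))) (nd (nd (nd (lf 0) (nd (lf 0) (nd (nd (lf 0) (lf 8654850)) (nd (lf 135169) (lf 657662803234221206723391495))))) (nd (lf 0) (nd (lf 0) (nd (lf 0) (nd (lf 135169) (lf 43220684360123511671357283174688780295)))))) (nd (nd (lf 0) (nd (lf 0) (nd (nd (lf 0) (lf 139265)) (nd (lf 0) (lf 2508784356360876224519))))) (nd (lf 0) (nd (lf 0) (nd (lf 0) (nd (lf 0) (lf 549789396994))))))))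

def p182 : Tr :=
  (nd (nd (nd (nd (lf 0) (nd (lf 0) (nd (nd (lf 8396802) (lf 8392706)) (nd (lf 131073) (lf 36911513541070036994))))) (nd (lf 0) (nd (lf 0) (nd (nd (lf 8396802) (lf 0)) (nd (lf 131073) (lf 2199048429570)))))) (nd (nd (lf 0) (nd (lf 0) (nd (nd (lf 8396802) (lf 8392706)) (nd (lf 0) (lf 2362336866970510565378))))) (nd (lf 0) (nd (lf 0) (nd (nd (lf 1) (lf 0)) (nd (lf 0) (lf 8409090))))))) (nd (nd (nd (lf 0) (nd (lf 0) (nd (nd (lf 0) (lf 8392706)) (nd (lf 131073) (lf 2200097652737))))) (nd (lf 0) (nd (lf 0) (nd (lf 0) (nd (lf 131073) (lf 131073)))))) (nd (nd (lf 0) (nd (lf 0) (nd (nd (lf 0) (lf 1)) (nd (lf 0) (lf 8409090))))) (nd (lf 0) (nd (lf 0) (nd (lf 0) (nd (lf 0) (lf 8409090))))))))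

def p183 : Tr :=
  (nd (nd (nd (nd (lf 0) (nd (lf 0) (nd (nd (lf 131073) (lf 8654850)) (nd (lf 8392706) (lf 9570253361512449))))) (nd (lf 0) (nd (lf 0) (nd (nd (lf 131073) (lf 0)) (nd (lf 135169) (lf 38066957566918131713)))))) (nd (nd (lf 0) (nd (lf 0) (nd (nd (lf 131073) (lf 8654850)) (nd (lf 0) (lf 657662767466786973961551873))))) (nd (lf 0) (nd (lf 0) (nd (nd (lf 131073) (lf 0)) (nd (lf 0) (lf 2615941404894362421905218994177))))))) (nd (nd (nd (lf 0) (nd (lf 0) (nd (nd (lf 0) (lf 8654850)) (nd (lf 135169) (lf 10275981300534775074549766))))) (nd (lf 0) (nd (lf 0) (nd (lf 0) (nd (lf 135169) (lf 40874084452033279070875447302)))))) (nd (nd (lf 0) (nd (lf 0) (nd (nd (lf 0) (lf 139265)) (nd (lf 0) (lf 39199755636858187782))))) (nd (lf 0) (nd (lf 0) (nd (lf 0) (nd (lf 0) (lf 143005248679942))))))))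

def p184 : Tr :=
  (nd (nd (nd (nd (lf 0) (nd (lf 0) (nd (nd (lf 135169) (lf 553914371)) (nd (lf 8654850) (lf 2436141169095733809153))))) (nd (lf 0) (nd (lf 0) (nd (nd (lf 135169) (lf 0)) (nd (lf 8654850) (lf 151190793470278661443585)))))) (nd (nd (lf 0) (nd (lf 0) (nd (nd (lf 135169) (lf 2436195210022461902850)) (nd (lf 0) (lf 145208550232065))))) (nd (lf 0) (nd (lf 0) (nd (nd (lf 135169) (lf 0)) (nd (lf 0) (lf 2434988262916643647491))))))) (nd (nd (nd (lf 0) (nd (lf 0) (nd (nd (lf 0) (lf 16781314)) (nd (lf 2148007937) (lf 141149838774274))))) (nd (lf 0) (nd (lf 0) (nd (lf 0) (nd (lf 1) (lf 9033589681582083)))))) (nd (nd (lf 0) (nd (lf 0) (nd (nd (lf 0) (lf 1)) (nd (lf 0) (lf 8413186))))) (nd (lf 0) (nd (lf 0) (nd (lf 0) (nd (lf 0) (lf 8413186))))))))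

def p185 : Tr :=
  (nd (nd (nd (nd (lf 0) (nd (lf 0) (nd (nd (lf 131073) (lf 135169)) (nd (lf 8392706) (lf 594481748957069313))))) (nd (lf 0) (nd (lf 0) (nd (nd (lf 131073) (lf 0)) (nd (lf 8392706) (lf 2200097652737)))))) (nd (nd (lf 0) (nd (lf 0) (nd (nd (lf 131073) (lf 135169)) (nd (lf 0) (lf 35433873409))))) (nd (lf 0) (nd (lf 0) (nd (nd (lf 131073) (lf 0)) (nd (lf 0) (lf 131073))))))) (nd (nd (nd (lf 0) (nd (lf 0) (nd (nd (lf 0) (lf 135169)) (nd (lf 8658946) (lf 179671104994672416919921040853752439660558))))) (nd (lf 0) (nd (lf 0) (nd (lf 0) (nd (lf 1) (lf 40233056257396055703957561358)))))) (nd (nd (lf 0) (nd (lf 0) (nd (nd (lf 0) (lf 135169)) (nd (lf 0) (lf 10709231731946853644237446180528142))))) (nd (lf 0) (nd (lf 0) (nd (lf 0) (nd (lf 0) (lf 40233056257396055703957561358))))))))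

def p186 : Tr :=
  (nd (nd (nd (nd (lf 0) (nd (lf 0) (nd (nd (lf 131073) (lf 537137155)) (nd (lf 8392706) (lf 2362354192732176121857))))) (nd (lf 0) (nd (lf 0) (nd (nd (lf 131073) (lf 0)) (nd (lf 8392706) (lf 2200097652737)))))) (nd (nd (lf 0) (nd (lf 0) (nd (nd (lf 131073) (lf 16781314)) (nd (lf 0) (lf 2199040036866))))) (nd (lf 0) (nd (lf 0) (nd (nd (lf 131073) (lf 0)) (nd (lf 0) (lf 131073))))))) (nd (nd (nd (lf 0) (nd (lf 0) (nd (nd (lf 0) (lf 16781314)) (nd (lf 2148007937) (lf 141081119297538))))) (nd (lf 0) (nd (lf 0) (nd (lf 0) (nd (lf 1) (lf 8409090)))))) (nd (nd (lf 0) (nd (lf 0) (nd (nd (lf 0) (lf 1)) (nd (lf 0) (lf 8409090))))) (nd (lf 0) (nd (lf 0) (nd (lf 0) (nd (lf 0) (lf 8409090))))))))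

def p187 : Tr :=
  (nd (nd (nd (nd (lf 0) (nd (lf 0) (nd (nd (lf 131073) (lf 537137155)) (nd (lf 8392706) (lf 594481748957069313))))) (nd (lf 0) (nd (lf 0) (nd (nd (lf 131073) (lf 0)) (nd (lf 8392706) (lf 38154507039273517057)))))) (nd (nd (lf 0) (nd (lf 0) (nd (nd (lf 131073) (lf 135169)) (nd (lf 0) (lf 35433873409))))) (nd (lf 0) (nd (lf 0) (nd (nd (lf 131073) (lf 0)) (nd (lf 0) (lf 2274185838593))))))) (lf 0))

def p188 : Tr :=
  (nd (nd (nd (nd (lf 0) (nd (lf 0) (nd (nd (lf 131073) (lf 8654850)) (nd (lf 8392706) (lf 9570253361512449))))) (nd (lf 0) (nd (lf 0) (nd (nd (lf 131073) (lf 0)) (nd (lf 135169) (lf 47835104195771926686682985353804670106167803905)))))) (nd (nd (lf 0) (nd (lf 0) (nd (nd (lf 131073) (lf 8654850)) (nd (lf 0) (lf 36507615233))))) (nd (lf 0) (nd (lf 0) (nd (nd (lf 131073) (lf 0)) (nd (lf 0) (lf 182476441176498133417827550330370598240257))))))) (nd (nd (nd (lf 0) (nd (lf 0) (nd (nd (lf 0) (lf 8654850)) (nd (lf 135169)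 (lf 36507619329))))) (nd (lf 0) (nd (lf 0) (nd (lf 0) (nd (lf 135169) (lf 182476441176498133417827550330370598244353)))))) (nd (nd (lf 0) (nd (lf 0) (nd (nd (lf 0) (lf 139265)) (nd (lf 0) (lf 139265))))) (nd (lf 0) (nd (lf 0) (nd (lf 0) (nd (lf 0) (lf 696092381196968587561903191873056786))))))))

def p189 : Tr :=
  (nd (nd (nd (nd (lf 0) (nd (lf 0) (nd (nd (lf 131073) (lf 8654850)) (nd (lf 8392706) (lf 9570253361512449))))) (nd (lf 0) (nd (lf 0) (nd (nd (lf 131073) (lf 0)) (nd (lf 135169) (lf 35433873409)))))) (nd (nd (lf 0) (nd (lf 0) (nd (nd (lf 131073) (lf 8654850)) (nd (lf 0) (lf 36507615233))))) (nd (lf 0) (nd (lf 0) (nd (nd (lf 131073) (lf 0)) (nd (lf 0) (lf 131073))))))) (nd (nd (nd (lf 0) (nd (lf 0) (nd (nd (lf 0) (lf 8654850)) (nd (lf 135169) (lf 48526949672240323923432419215670705649783435282))))) (nd (lf 0) (nd (lf 0) (nd (lf 0) (nd (lf 135169) (lf 179671093960926464109758789860882121519122)))))) (nd (nd (lf 0) (nd (lf 0) (nd (nd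 (lf 0) (lf 139265)) (nd (lf 0) (lf 185115611831661479525172783579790412902418))))) (nd (lf 0) (nd (lf 0) (nd (lf 0) (nd (lf 0) (lf 674998675170485224093329848225525778))))))))

def p190 : Tr :=
  (nd (nd (nd (nd (lf 0) (nd (lf 0) (nd (nd (lf 131073) (lf 135169)) (nd (lf 8392706) (lf 594481748957069313))))) (lf 0)) (nd (nd (lf 0) (nd (lf 0) (nd (nd (lf 131073) (lf 135169)) (nd (lf 0) (lf 35433873409))))) (lf 0))) (nd (nd (nd (lf 0) (nd (lf 0) (nd (nd (lf 0) (lf 135169)) (nd (lf 8658946) (lf 38046836400018448386))))) (lf 0)) (nd (nd (lf 0) (nd (lf 0) (nd (nd (lf 0) (lf 135169)) (nd (lf 0) (lf 2267767922690))))) (lf 0))))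

def p191 : Tr :=
  (nd (nd (nd (nd (lf 0) (nd (lf 0) (nd (nd (lf 131073) (lf 537137155)) (nd (lf 8392706) (lf 594481748957069313))))) (nd (lf 0) (nd (lf 0) (nd (nd (lf 131073) (lf 0)) (nd (lf 8392706) (lf 2200097652737)))))) (nd (nd (lf 0) (nd (lf 0) (nd (nd (lf 131073) (lf 135169)) (nd (lf 0) (lf 35433873409))))) (nd (lf 0) (nd (lf 0) (nd (nd (lf 131073) (lf 0)) (nd (lf 0) (lf 131073))))))) (lf 0))

def p192 : Tr :=
  (nd (nd (nd (nd (lf 0) (nd (lf 0) (nd (nd (lf 131073) (lf 135169)) (nd (lf 8392706) (lf 594481748957069313))))) (lf 0)) (nd (nd (lf 0) (nd (lf 0) (nd (nd (lf 131073) (lf 135169)) (nd (lf 0) (lf 35433873409))))) (lf 0))) (nd (nd (nd (lf 0) (nd (lf 0) (nd (nd (lf 0) (lf 135169)) (nd (lf 8658946) (lf 2267768168450))))) (lf 0)) (nd (nd (lf 0) (nd (lf 0) (nd (nd (lf 0) (lf 135169)) (nd (lf 0) (lf 135169))))) (lf 0))))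

def p193 : Tr :=
  (nd (nd (nd (nd (lf 0) (nd (lf 0) (nd (nd (lf 131073) (lf 8654850)) (nd (lf 8392706) (lf 9570253361512449))))) (nd (lf 0) (nd (lf 0) (nd (nd (lf 131073) (lf 0)) (nd (lf 135169) (lf 648286548034352418388312065)))))) (nd (nd (lf 0) (nd (lf 0) (nd (nd (lf 131073) (lf 8654850)) (nd (lf 0) (lf 11033750285605280371018479398944769))))) (nd (lf 0) (nd (lf 0) (nd (nd (lf 131073) (lf 0)) (nd (lf 0) (lf 747423502376144564510997123861607249326505985))))))) (nd (nd (nd (lf 0) (nd (lf 0) (nd (nd (lf 0) (lf 8654850)) (nd (lf 135169) (lf 36507619329))))) (nd (lf 0) (nd (lf 0) (nd (lf 0) (nd (lf 135169) (lf 2473016922128114388993)))))) (nd (nd (lf 0) (nd (lf 0) (nd (nd (lf 0) (lf 139265)) (nd (lf 0) (lf 42090421840240989391915872267))))) (lf 0))))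

def p194 : Tr :=
  (nd (nd (nd (nd (lf 0) (nd (lf 0) (nd (nd (lf 131073) (lf 135169)) (nd (lf 8392706) (lf 594481748957069313))))) (nd (lf 0) (nd (lf 0) (nd (nd (lf 131073) (lf 0)) (nd (lf 8392706) (lf 38172521437782999041)))))) (nd (nd (lf 0) (nd (lf 0) (nd (nd (lf 131073) (lf 135169)) (nd (lf 0) (lf 35433873409))))) (nd (lf 0) (nd (lf 0) (nd (nd (lf 131073) (lf 0)) (nd (lf 0) (lf 9297546561323009))))))) (nd (nd (nd (lf 0) (nd (lf 0) (nd (nd (lf 0) (lf 135169)) (nd (lf 8658946) (lf 10709232389609361703391137173889034))))) (nd (lf 0) (nd (lf 0) (nd (lf 0) (nd (lf 1) (lf 40987432831024379728927416330)))))) (nd (nd (lf 0) (nd (lf 0) (nd (nd (lf 0) (lf 135169)) (nd (lf 0) (lf 638319953200033524288872458))))) (nd (lf 0) (nd (lf 0) (nd (lf 0) (nd (lf 0) (lf 2398077026450398797834))))))))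

def p195 : Tr :=
  (nd (nd (nd (nd (lf 0) (nd (lf 0) (nd (nd (lf 131073) (lf 135169)) (nd (lf 8392706) (lf 594481748957069313))))) (nd (lf 0) (nd (lf 0) (nd (nd (lf 131073) (lf 0)) (nd (lf 8392706) (lf 10876443455598170820529000972681217)))))) (nd (nd (lf 0) (nd (lf 0) (nd (nd (lf 131073) (lf 135169)) (nd (lf 0) (lf 35433873409))))) (nd (lf 0) (nd (lf 0) (nd (nd (lf 131073) (lf 0)) (nd (lf 0) (lf 648286548590551067622244353))))))) (nd (nd (nd (lf 0) (nd (lf 0) (nd (nd (lf 0) (lf 135169)) (nd (lf 8658946) (lf 38046836400018448386))))) (nd (lf 0) (nd (lf 0) (nd (lf 0) (nd (lf 1) (lf 41490339109795268327823663106)))))) (nd (nd (lf 0) (nd (lf 0) (nd (nd (lf 0) (lf 135169)) (nd (lf 0) (lf 9288777327992836))))) (nd (lf 0) (nd (lf 0) (nd (lf 0) (nd (lf 0) (lf 2473016924249843855370))))))))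

def p196 : Tr :=
  (nd (nd (nd (nd (lf 0) (nd (lf 0) (nd (nd (lf 131073) (lf 135169)) (nd (lf 8392706) (lf 594481748957069313))))) (nd (lf 0) (nd (lf 0) (nd (nd (lf 131073) (lf 0)) (nd (lf 8392706) (lf 10876443455598170820529000972681217)))))) (nd (nd (lf 0) (nd (lf 0) (nd (nd (lf 131073) (lf 135169)) (nd (lf 0) (lf 35433873409))))) (nd (lf 0) (nd (lf 0) (nd (nd (lf 131073) (lf 0)) (nd (lf 0) (lf 648286548590551067622244353))))))) (nd (nd (nd (lf 0) (nd (lf 0) (nd (nd (lf 0) (lf 135169)) (nd (lf 8658946) (lf 155839841894475498020868))))) (nd (lf 0) (nd (lf 0) (nd (lf 0) (nd (lf 1) (lf 2655381703026897172980176543747)))))) (nd (nd (lf 0) (nd (lf 0) (nd (nd (lf 0) (lf 135169)) (nd (lf 0) (lf 2434988241336630534146))))) (nd (lf 0) (nd (lf 0) (nd (lf 0) (nd (lf 0) (lf 2473016924249843855370))))))))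

def p197 : Tr :=
  (nd (nd (nd (nd (lf 0) (nd (lf 0) (nd (nd (lf 131073) (lf 135169)) (nd (lf 8392706) (lf 594481748957069313))))) (nd (lf 0) (nd (lf 0) (nd (nd (lf 131073) (lf 0)) (nd (lf 8392706) (lf 151190793470209941962753)))))) (nd (nd (lf 0) (nd (lf 0) (nd (nd (lf 131073) (lf 135169)) (nd (lf 0) (lf 35433873409))))) (nd (lf 0) (nd (lf 0) (nd (nd (lf 131073) (lf 0)) (nd (lf 0) (lf 2361201286621805441027))))))) (nd (nd (nd (lf 0) (nd (lf 0) (nd (nd (lf 0) (lf 135169)) (nd (lf 8658946) (lf 10709232389609361703391137173889034))))) (nd (lf 0) (nd (lf 0) (nd (lf 0) (nd (lf 1) (lf 2574915600473347450713686700035)))))) (nd (nd (lf 0) (nd (lf 0) (nd (nd (lf 0) (lf 135169)) (nd (lf 0) (lf 638319953200033524288872458))))) (nd (lf 0) (nd (lf 0) (nd (lf 0) (nd (lf 0) (lf 2398077026450398797834))))))))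

def p198 : Tr :=
  (nd (nd (nd (nd (lf 0) (nd (lf 0) (nd (nd (lf 131073) (lf 135169)) (nd (lf 8392706) (lf 594481748957069313))))) (nd (lf 0) (nd (lf 0) (nd (nd (lf 131073) (lf 0)) (nd (lf 8392706) (lf 628943735008366616233246721)))))) (nd (nd (lf 0) (nd (lf 0) (nd (nd (lf 131073) (lf 554176515)) (nd (lf 0) (lf 145274048479233))))) (nd (lf 0) (nd (lf 0) (nd (nd (lf 131073) (lf 0)) (nd (lf 0) (lf 153550716537253004443649))))))) (nd (nd (nd (lf 0) (nd (lf 0) (nd (nd (lf 0) (lf 135169)) (nd (lf 8658946) (lf 2267768168450))))) (nd (lf 0) (nd (lf 0) (nd (lf 0) (nd (lf 1) (lf 143005248675846)))))) (lf 0)))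

def p199 : Tr :=
  (nd (nd (nd (nd (lf 0) (nd (lf 0) (nd (nd (lf 131073) (lf 135169)) (nd (lf 8392706) (lf 594481748957069313))))) (nd (lf 0) (nd (lf 0) (nd (nd (lf 131073) (lf 0)) (nd (lf 8392706) (lf 37001585534666670081)))))) (nd (nd (lf 0) (nd (lf 0) (nd (nd (lf 537141251) (lf 135169)) (nd (lf 0) (lf 145137145749507))))) (nd (lf 0) (nd (lf 0) (nd (nd (lf 1) (lf 0)) (nd (lf 0) (lf 8413186))))))) (nd (nd (nd (lf 0) (nd (lf 0) (nd (nd (lf 0) (lf 135169)) (nd (lf 8658946) (lf 2267768168450))))) (nd (lf 0) (nd (lf 0) (nd (lf 0) (nd (lf 1) (lf 8413186)))))) (nd (nd (lf 0) (nd (lf 0) (nd (nd (lf 0) (lf 135169)) (nd (lf 0) (lf 135169))))) (nd (lf 0) (nd (lf 0) (nd (lf 0) (nd (lf 0) (lf 8413186))))))))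

def p200 : Tr :=
  (nd (nd (nd (nd (lf 0) (nd (lf 0) (nd (nd (lf 131073) (lf 135169)) (nd (lf 8392706) (lf 594481748957069313))))) (nd (lf 0) (nd (lf 0) (nd (nd (lf 131073) (lf 0)) (nd (lf 8392706) (lf 3675042349688166530781418522777575794437027674871065932151150094333592076289)))))) (nd (nd (lf 0) (nd (lf 0) (nd (nd (lf 131073) (lf 135169)) (nd (lf 0) (lf 35433873409))))) (nd (lf 0) (nd (lf 0) (nd (nd (lf 131073) (lf 0)) (nd (lf 0) (lf 131073))))))) (nd (nd (nd (lf 0) (nd (lf 0) (nd (nd (lf 0) (lf 135169)) (nd (lf 8658946) (lf 2267768168450))))) (lf 0)) (nd (nd (lf 0) (nd (lf 0) (nd (nd (lf 0) (lf 135169)) (nd (lf 0) (lf 135169))))) (lf 0))))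

def p201 : Tr :=
  (nd (nd (nd (nd (lf 0) (nd (lf 0) (nd (nd (lf 131073) (lf 8654850)) (nd (lf 8392706) (lf 9570253361512449))))) (nd (lf 0) (nd (lf 0) (nd (nd (lf 131073) (lf 0)) (nd (lf 135169) (lf 35433873409)))))) (nd (nd (lf 0) (nd (lf 0) (nd (nd (lf 131073) (lf 8654850)) (nd (lf 0) (lf 11033750285605280371018480472686593))))) (nd (lf 0) (nd (lf 0) (nd (nd (lf 131073) (lf 0)) (nd (lf 0) (lf 40233056257396053582229143553))))))) (nd (nd (nd (lf 0) (nd (lf 0) (nd (nd (lf 0) (lf 8654850)) (nd (lf 135169) (lf 657662803234221206723391495))))) (nd (lf 0) (nd (lf 0) (nd (lf 0) (nd (lf 135169) (lf 2434997380066038018055)))))) (nd (nd (lf 0) (nd (lf 0) (nd (nd (lf 0) (lf 139265)) (nd (lf 0) (lf 758233632462305225382660892847276662387666951))))) (lf 0))))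

def p202 : Tr :=
  (nd (nd (nd (nd (lf 0) (nd (lf 0) (nd (nd (lf 131073) (lf 8654850)) (nd (lf 8392706) (lf 9570253361512449))))) (nd (lf 0) (nd (lf 0) (nd (nd (lf 131073) (lf 0)) (nd (lf 135169) (lf 35433873409)))))) (nd (nd (lf 0) (nd (lf 0) (nd (nd (lf 131073) (lf 8654850)) (nd (lf 0) (lf 657662766313865468280963073))))) (nd (lf 0) (nd (lf 0) (nd (nd (lf 131073) (lf 0)) (nd (lf 0) (lf 2398077024327595589633))))))) (nd (nd (nd (lf 0) (nd (lf 0) (nd (nd (lf 0) (lf 8654850)) (nd (lf 135169) (lf 36507619329))))) (nd (lf 0) (nd (lf 0) (nd (lf 0) (nd (lf 135169) (lf 135169)))))) (nd (nd (lf 0) (nd (lf 0) (nd (nd (lf 0) (lf 139265)) (nd (lf 0) (lf 2508784642233899446279))))) (lf 0))))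

def p203 : Tr :=
  (nd (nd (nd (nd (lf 0) (nd (lf 0) (nd (nd (lf 131073) (lf 135169)) (nd (lf 8392706) (lf 594481748957069313))))) (nd (lf 0) (nd (lf 0) (nd (nd (lf 131073) (lf 0)) (nd (lf 8392706) (lf 2200097652737)))))) (nd (nd (lf 0) (nd (lf 0) (nd (nd (lf 131073) (lf 554176515)) (nd (lf 0) (lf 145274048479233))))) (nd (lf 0) (nd (lf 0) (nd (nd (lf 131073) (lf 0)) (nd (lf 0) (lf 131073))))))) (nd (nd (nd (lf 0) (nd (lf 0) (nd (nd (lf 0) (lf 135169)) (nd (lf 8658946) (lf 38046836400018448386))))) (nd (lf 0) (nd (lf 0) (nd (lf 0) (nd (lf 1) (lf 8413186)))))) (nd (nd (lf 0) (nd (lf 0) (nd (nd (lf 0) (lf 1)) (nd (lf 0) (lf 8413186))))) (nd (lf 0) (nd (lf 0) (nd (lf 0) (nd (lf 0) (lf 8413186))))))))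

def p204 : Tr :=
  (nd (nd (nd (nd (lf 0) (nd (lf 0) (nd (nd (lf 131073) (lf 135169)) (nd (lf 8392706) (lf 594481748957069313))))) (nd (lf 0) (nd (lf 0) (nd (nd (lf 131073) (lf 0)) (nd (lf 8392706) (lf 2200097652737)))))) (nd (nd (lf 0) (nd (lf 0) (nd (nd (lf 537141251) (lf 135169)) (nd (lf 0) (lf 145137145749507))))) (lf 0))) (nd (nd (nd (lf 0) (nd (lf 0) (nd (nd (lf 0) (lf 135169)) (nd (lf 8658946) (lf 638319992399773699247202310))))) (nd (lf 0) (nd (lf 0) (nd (lf 0) (nd (lf 1) (lf 142936529199110)))))) (nd (nd (lf 0) (nd (lf 0) (nd (nd (lf 0) (lf 135169)) (nd (lf 0) (lf 155839832324226415091720))))) (lf 0))))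

def p205 : Tr :=
  (nd (nd (nd (nd (lf 0) (nd (lf 0) (nd (nd (lf 131073) (lf 135169)) (nd (lf 8392706) (lf 594481748957069313))))) (nd (lf 0) (nd (lf 0) (nd (nd (lf 131073) (lf 0)) (nd (lf 8392706) (lf 2200097652737)))))) (nd (nd (lf 0) (nd (lf 0) (nd (nd (lf 131073) (lf 135169)) (nd (lf 0) (lf 35433873409))))) (nd (lf 0) (nd (lf 0) (nd (nd (lf 131073) (lf 0)) (nd (lf 0) (lf 131073))))))) (nd (nd (nd (lf 0) (nd (lf 0) (nd (nd (lf 0) (lf 135169)) (nd (lf 8658946) (lf 3731622856133275072449306084311716159993990312404865221659855428918931382305))))) (lf 0)) (nd (nd (lf 0) (nd (lf 0) (nd (nd (lf 0) (lf 135169)) (nd (lf 0) (lf 135169))))) (lf 0))))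

def p206 : Tr :=
  (nd (nd (nd (nd (lf 0) (nd (lf 0) (nd (nd (lf 131073) (lf 135169)) (nd (lf 8392706) (lf 594481748957069313))))) (nd (lf 0) (nd (lf 0) (nd (nd (lf 131073) (lf 0)) (nd (lf 8392706) (lf 2200097652737)))))) (nd (nd (lf 0) (nd (lf 0) (nd (nd (lf 537141251) (lf 554176515)) (nd (lf 0) (lf 595042502571204611))))) (lf 0))) (nd (nd (nd (lf 0) (nd (lf 0) (nd (nd (lf 0) (lf 135169)) (nd (lf 8658946) (lf 2267768168450))))) (lf 0)) (lf 0)))

def p207 : Tr :=
  (nd (nd (nd (nd (lf 0) (nd (lf 0) (nd (nd (lf 8396802) (lf 8392706)) (nd (lf 131073) (lf 594481747907846146))))) (nd (lf 0) (nd (lf 0) (nd (nd (lf 8396802) (lf 0)) (nd (lf 131073) (lf 2362462279122183790594)))))) (nd (nd (lf 0) (nd (lf 0) (nd (nd (lf 8396802) (lf 8392706)) (nd (lf 0) (lf 2434997248535893647362))))) (nd (lf 0) (nd (lf 0) (nd (nd (lf 1) (lf 0)) (nd (lf 0) (lf 537161731))))))) (nd (nd (nd (lf 0) (nd (lf 0) (nd (nd (lf 0) (lf 8392706)) (nd (lf 131073) (lf 35433873409)))))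 (nd (lf 0) (nd (lf 0) (nd (lf 0) (nd (lf 131073) (lf 140813724942337)))))) (nd (nd (lf 0) (nd (lf 0) (nd (nd (lf 0) (lf 135169)) (nd (lf 0) (lf 145137146028035))))) (lf 0))))

def p208 : Tr :=
  (nd (nd (nd (nd (lf 0) (nd (lf 0) (nd (nd (lf 131073) (lf 135169)) (nd (lf 8392706) (lf 594481748957069313))))) (nd (lf 0) (nd (lf 0) (nd (nd (lf 131073) (lf 0)) (nd (lf 8392706) (lf 37019599933176152065)))))) (nd (nd (lf 0) (nd (lf 0) (nd (nd (lf 537141251) (lf 135169)) (nd (lf 0) (lf 145137145749507))))) (nd (lf 0) (nd (lf 0) (nd (nd (lf 1) (lf 0)) (nd (lf 0) (lf 8417282))))))) (nd (nd (nd (lf 0) (nd (lf 0) (nd (nd (lf 0) (lf 135169)) (nd (lf 8658946) (lf 155839841894475498020868))))) (nd (lf 0) (nd (lf 0) (nd (lf 0) (nd (lf 1) (lf 9037987728351235)))))) (nd (nd (lf 0) (nd (lf 0) (nd (nd (lf 0) (lf 135169)) (nd (lf 0) (lf 2434988241336630534146))))) (nd (lf 0) (nd (lf 0) (nd (lf 0) (nd (lf 0) (lf 8417282))))))))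

def p209 : Tr :=
  (nd (nd (nd (nd (lf 0) (nd (lf 0) (nd (nd (lf 131073) (lf 8654850)) (nd (lf 8392706) (lf 9570253361512449))))) (nd (lf 0) (nd (lf 0) (nd (nd (lf 131073) (lf 0)) (nd (lf 135169) (lf 35433873409)))))) (nd (nd (lf 0) (nd (lf 0) (nd (nd (lf 131073) (lf 8654850)) (nd (lf 0) (lf 39199753446408192001))))) (nd (lf 0) (nd (lf 0) (nd (nd (lf 131073) (lf 0)) (nd (lf 0) (lf 140814798684161))))))) (nd (nd (nd (lf 0) (nd (lf 0) (nd (nd (lf 0) (lf 8654850)) (nd (lf 135169) (lf 39199757768755539971))))) (nd (lf 0) (nd (lf 0) (nd (lf 0) (nd (lf 135169) (lf 145137146032131)))))) (nd (nd (lf 0) (nd (lf 0) (nd (nd (lf 0) (lf 139265)) (nd (lf 0) (lf 149535192543235))))) (lf 0))))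

def p210 : Tr :=
  (nd (nd (nd (nd (lf 0) (nd (lf 0) (nd (nd (lf 131073) (lf 8654850)) (nd (lf 8392706) (lf 594756798662443009))))) (nd (lf 0) (nd (lf 0) (nd (nd (lf 131073) (lf 0)) (nd (lf 135169) (lf 35433873409)))))) (nd (nd (lf 0) (nd (lf 0) (nd (nd (lf 131073) (lf 8654850)) (nd (lf 0) (lf 2436123842997946023937))))) (nd (lf 0) (nd (lf 0) (nd (nd (lf 131073) (lf 0)) (nd (lf 0) (lf 140813724942337))))))) (nd (nd (nd (lf 0) (nd (lf 0) (nd (nd (lf 0) (lf 8654850)) (nd (lf 135169) (lf 2436123847321367109635))))) (nd (lf 0) (nd (lf 0) (nd (lf 0) (nd (lf 135169) (lf 145137146028035)))))) (nd (nd (lf 0) (nd (lf 0) (nd (nd (lf 0) (lf 1)) (nd (lf 0) (lf 537419779))))) (lf 0))))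

def p211 : Tr :=
  (nd (nd (nd (nd (lf 0) (nd (lf 0) (nd (nd (lf 131073) (lf 135169)) (nd (lf 8392706) (lf 594481748957069313))))) (nd (lf 0) (nd (lf 0) (nd (nd (lf 131073) (lf 0)) (nd (lf 8392706) (lf 2200097652737)))))) (nd (nd (lf 0) (nd (lf 0) (nd (nd (lf 537141251) (lf 135169)) (nd (lf 0) (lf 145137145749507))))) (lf 0))) (nd (nd (nd (lf 0) (nd (lf 0) (nd (nd (lf 0) (lf 135169)) (nd (lf 8658946) (lf 2267768168450))))) (lf 0)) (nd (nd (lf 0) (nd (lf 0) (nd (nd (lf 0) (lf 135169)) (nd (lf 0) (lf 135169))))) (lf 0))))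

def p212 : Tr :=
  (nd (nd (nd (nd (lf 0) (nd (lf 0) (nd (nd (lf 131073) (lf 8654850)) (nd (lf 8392706) (lf 9570253361512449))))) (nd (lf 0) (nd (lf 0) (nd (nd (lf 131073) (lf 0)) (nd (lf 135169) (lf 2362356429448064401409)))))) (nd (nd (lf 0) (nd (lf 0) (nd (nd (lf 131073) (lf 8654850)) (nd (lf 0) (lf 36507615233))))) (nd (lf 0) (nd (lf 0) (nd (nd (lf 131073) (lf 0)) (nd (lf 0) (lf 131073))))))) (nd (nd (nd (lf 0) (nd (lf 0) (nd (nd (lf 0) (lf 8654850)) (nd (lf 135169) (lf 2508784497200353275908))))) (nd (lf 0) (nd (lf 0) (nd (lf 0) (nd (lf 135169) (lf 135169)))))) (nd (nd (lf 0) (nd (lf 0) (nd (nd (lf 0) (lf 139265)) (nd (lf 0) (lf 139265))))) (lf 0))))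

def p213 : Tr :=
  (nd (nd (nd (nd (lf 0) (nd (lf 0) (nd (nd (lf 131073) (lf 8654850)) (nd (lf 8392706) (lf 9570253361512449))))) (nd (lf 0) (nd (lf 0) (nd (nd (lf 131073) (lf 0)) (nd (lf 135169) (lf 36913754587334574081)))))) (nd (nd (lf 0) (nd (lf 0) (nd (nd (lf 131073) (lf 8654850)) (nd (lf 0) (lf 39199753514053926913))))) (nd (lf 0) (nd (lf 0) (nd (nd (lf 131073) (lf 0)) (nd (lf 0) (lf 140814798684161))))))) (nd (nd (nd (lf 0) (nd (lf 0) (nd (nd (lf 0) (lf 8654850)) (nd (lf 135169) (lf 36507619329))))) (nd (lf 0) (nd (lf 0) (nd (lf 0) (nd (lf 135169) (lf 140814798688257)))))) (nd (nd (lf 0) (nd (lf 0) (nd (nd (lf 0) (lf 139265)) (nd (lf 0) (lf 149535192543235))))) (lf 0))))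

def p214 : Tr :=
  (nd (nd (nd (nd (lf 0) (nd (lf 0) (nd (nd (lf 131073) (lf 135169)) (nd (lf 8392706) (lf 594481748957069313))))) (nd (lf 0) (nd (lf 0) (nd (nd (lf 131073) (lf 0)) (nd (lf 8392706) (lf 151190793470209941962753)))))) (nd (nd (lf 0) (nd (lf 0) (nd (nd (lf 131073) (lf 554176515)) (nd (lf 0) (lf 145274048479233))))) (nd (lf 0) (nd (lf 0) (nd (nd (lf 131073) (lf 0)) (nd (lf 0) (lf 2361201286621805441027))))))) (nd (nd (nd (lf 0) (nd (lf 0) (nd (nd (lf 0) (lf 135169)) (nd (lf 8658946) (lf 38046836400018448386))))) (nd (lf 0) (nd (lf 0) (nd (lf 0) (nd (lf 1) (lf 9033589681582083)))))) (nd (nd (lf 0) (nd (lf 0) (nd (nd (lf 0) (lf 1)) (nd (lf 0) (lf 8413186))))) (nd (lf 0) (nd (lf 0) (nd (lf 0) (nd (lf 0) (lf 8413186))))))))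

def p215 : Tr :=
  (nd (nd (nd (nd (lf 0) (nd (lf 0) (nd (nd (lf 131073) (lf 135169)) (nd (lf 8392706) (lf 594481748957069313))))) (nd (lf 0) (nd (lf 0) (nd (nd (lf 131073) (lf 0)) (nd (lf 8392706) (lf 2200097652737)))))) (nd (nd (lf 0) (nd (lf 0) (nd (nd (lf 131073) (lf 554176515)) (nd (lf 0) (lf 145274048479233))))) (nd (lf 0) (nd (lf 0) (nd (nd (lf 131073) (lf 0)) (nd (lf 0) (lf 131073))))))) (nd (nd (nd (lf 0) (nd (lf 0) (nd (nd (lf 0) (lf 135169)) (nd (lf 8658946) (lf 2267768168450))))) (lf 0)) (lf 0)))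

def p216 : Tr :=
  (nd (nd (nd (nd (lf 0) (nd (lf 0) (nd (nd (lf 131073) (lf 135169)) (nd (lf 8392706) (lf 594481748957069313))))) (nd (lf 0) (nd (lf 0) (nd (nd (lf 131073) (lf 0)) (nd (lf 8392706) (lf 38172521437782999041)))))) (nd (nd (lf 0) (nd (lf 0) (nd (nd (lf 131073) (lf 554176515)) (nd (lf 0) (lf 145274048479233))))) (nd (lf 0) (nd (lf 0) (nd (nd (lf 131073) (lf 0)) (nd (lf 0) (lf 9297546561323009))))))) (nd (nd (nd (lf 0) (nd (lf 0) (nd (nd (lf 0) (lf 135169)) (nd (lf 8658946) (lf 38046836400018448386))))) (nd (lf 0) (nd (lf 0) (nd (lf 0) (nd (lf 1) (lf 145616613171202)))))) (nd (nd (lf 0) (nd (lf 0) (nd (nd (lf 0) (lf 1)) (nd (lf 0) (lf 8413186))))) (nd (lf 0) (nd (lf 0) (nd (lf 0) (nd (lf 0) (lf 8413186))))))))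

def p217 : Tr :=
  (nd (nd (nd (nd (lf 0) (nd (lf 0) (nd (nd (lf 131073) (lf 135169)) (nd (lf 8392706) (lf 594481748957069313))))) (nd (lf 0) (nd (lf 0) (nd (nd (lf 131073) (lf 0)) (nd (lf 8392706) (lf 37019599933176152065)))))) (nd (nd (lf 0) (nd (lf 0) (nd (nd (lf 537141251) (lf 135169)) (nd (lf 0) (lf 145137145749507))))) (nd (lf 0) (nd (lf 0) (nd (nd (lf 1) (lf 0)) (nd (lf 0) (lf 8417282))))))) (nd (nd (nd (lf 0) (nd (lf 0) (nd (nd (lf 0) (lf 135169)) (nd (lf 8658946) (lf 38046836400018448386))))) (nd (lf 0) (nd (lf 0) (nd (lf 0) (nd (lf 1) (lf 9037987728351235)))))) (nd (nd (lf 0) (nd (lf 0) (nd (nd (lf 0) (lf 135169)) (nd (lf 0) (lf 2267767922690))))) (nd (lf 0) (nd (lf 0) (nd (lf 0) (nd (lf 0) (lf 8417282))))))))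

def p218 : Tr :=
  (nd (nd (nd (nd (lf 0) (nd (lf 0) (nd (nd (lf 131073) (lf 135169)) (nd (lf 8392706) (lf 594481748957069313))))) (nd (lf 0) (nd (lf 0) (nd (nd (lf 2148007937) (lf 0)) (nd (lf 16781314) (lf 141149838778370)))))) (nd (nd (lf 0) (nd (lf 0) (nd (nd (lf 131073) (lf 135169)) (nd (lf 0) (lf 35433873409))))) (nd (lf 0) (nd (lf 0) (nd (nd (lf 1) (lf 0)) (nd (lf 0) (lf 8413186))))))) (nd (nd (nd (lf 0) (nd (lf 0) (nd (nd (lf 0) (lf 135169)) (nd (lf 8658946) (lf 2267768168450))))) (nd (lf 0) (nd (lf 0) (nd (lf 0) (nd (lf 1) (lf 8413186)))))) (nd (nd (lf 0) (nd (lf 0) (nd (nd (lf 0) (lf 135169)) (nd (lf 0) (lf 135169))))) (nd (lf 0) (nd (lf 0) (nd (lf 0) (nd (lf 0) (lf 8413186))))))))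

def p219 : Tr :=
  (nd (nd (nd (nd (lf 0) (nd (lf 0) (nd (nd (lf 131073) (lf 8654850)) (nd (lf 8392706) (lf 9570253361512449))))) (nd (lf 0) (nd (lf 0) (nd (nd (lf 131073) (lf 0)) (nd (lf 135169) (lf 35433873409)))))) (nd (nd (lf 0) (nd (lf 0) (nd (nd (lf 131073) (lf 8654850)) (nd (lf 0) (lf 657662766313865469354704897))))) (nd (lf 0) (nd (lf 0) (nd (nd (lf 131073) (lf 0)) (nd (lf 0) (lf 2398077024328669331457))))))) (nd (nd (nd (lf 0) (nd (lf 0) (nd (nd (lf 0) (lf 8654850)) (nd (lf 135169) (lf 706160057921968009189972632035422220))))) (nd (lf 0) (nd (lf 0) (nd (lf 0) (nd (lf 135169) (lf 135169)))))) (nd (nd (lf 0) (nd (lf 0) (nd (nd (lf 0) (lf 139265)) (nd (lf 0) (lf 2508784642233899450375))))) (lf 0))))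

def p220 : Tr :=
  (nd (nd (nd (nd (lf 0) (nd (lf 0) (nd (nd (lf 537403395) (lf 131073)) (nd (lf 8396802) (lf 2361210271831364739075))))) (lf 0)) (nd (nd (lf 0) (nd (lf 0) (nd (nd (lf 1) (lf 537399299)) (nd (lf 0) (lf 537399299))))) (lf 0))) (nd (nd (nd (lf 0) (nd (lf 0) (nd (nd (lf 0) (lf 131073)) (nd (lf 8396802) (lf 2199048429570))))) (lf 0)) (lf 0)))

def p221 : Tr :=
  (nd (nd (nd (nd (lf 0) (nd (lf 0) (nd (nd (lf 131073) (lf 135169)) (nd (lf 8392706) (lf 594481748957069313))))) (nd (lf 0) (nd (lf 0) (nd (nd (lf 2148007937) (lf 0)) (nd (lf 16781314) (lf 141218558255106)))))) (nd (nd (lf 0) (nd (lf 0) (nd (nd (lf 131073) (lf 135169)) (nd (lf 0) (lf 35433873409))))) (nd (lf 0) (nd (lf 0) (nd (nd (lf 1) (lf 0)) (nd (lf 0) (lf 8417282))))))) (nd (nd (nd (lf 0) (nd (lf 0) (nd (nd (lf 0) (lf 135169)) (nd (lf 8658946) (lf 155839841894475498020868))))) (nd (lf 0) (nd (lf 0) (nd (lf 0) (nd (lf 1) (lf 9037987728351235)))))) (nd (nd (lf 0) (nd (lf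 0) (nd (nd (lf 0) (lf 135169)) (nd (lf 0) (lf 2434988241336630534146))))) (nd (lf 0) (nd (lf 0) (nd (lf 0) (nd (lf 0) (lf 8417282))))))))

def p222 : Tr :=
  (nd (nd (nd (nd (lf 0) (nd (lf 0) (nd (nd (lf 131073) (lf 8654850)) (nd (lf 8392706) (lf 9570253361512449))))) (nd (lf 0) (nd (lf 0) (nd (nd (lf 131073) (lf 0)) (nd (lf 135169) (lf 614741522008899585)))))) (nd (nd (lf 0) (nd (lf 0) (nd (nd (lf 131073) (lf 8654850)) (nd (lf 0) (lf 36507615233))))) (nd (lf 0) (nd (lf 0) (nd (nd (lf 131073) (lf 0)) (nd (lf 0) (lf 2345052798977))))))) (nd (nd (nd (lf 0) (nd (lf 0) (nd (nd (lf 0) (lf 8654850)) (nd (lf 135169) (lf 2508784497200353275908))))) (nd (lf 0) (nd (lf 0) (nd (lf 0) (nd (lf 135169) (lf 2345052803073)))))) (nd (nd (lf 0) (nd (lf 0) (nd (nd (lf 0) (lf 139265)) (nd (lf 0) (lf 2508775217700188221442))))) (nd (lf 0) (nd (lf 0) (nd (lf 0) (nd (lf 0) (lf 8945666))))))))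

def p223 : Tr :=
  (nd (nd (nd (nd (lf 0) (nd (lf 0) (nd (nd (lf 131073) (lf 8654850)) (nd (lf 8392706) (lf 9570253361512449))))) (nd (lf 0) (nd (lf 0) (nd (nd (lf 131073) (lf 0)) (nd (lf 135169) (lf 2362356429448064401409)))))) (nd (nd (lf 0) (nd (lf 0) (nd (nd (lf 131073) (lf 8654850)) (nd (lf 0) (lf 36507615233))))) (nd (lf 0) (nd (lf 0) (nd (nd (lf 131073) (lf 0)) (nd (lf 0) (lf 2361201291019851956227))))))) (nd (nd (nd (lf 0) (nd (lf 0) (nd (nd (lf 0) (lf 8654850)) (nd (lf 135169) (lf 612496215136825346))))) (nd (lf 0) (nd (lf 0) (nd (lf 0) (nd (lf 135169) (lf 2267767926786)))))) (nd (nd (lf 0) (nd (lf 0) (nd (nd (lf 0) (lf 139265)) (nd (lf 0) (lf 2336487403522))))) (nd (lf 0) (nd (lf 0) (nd (lf 0) (nd (lf 0) (lf 8417282))))))))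

def p224 : Tr :=
  (nd (nd (nd (nd (lf 0) (nd (lf 0) (nd (nd (lf 131073) (lf 8654850)) (nd (lf 8392706) (lf 9570253361512449))))) (nd (lf 0) (nd (lf 0) (nd (nd (lf 131073) (lf 0)) (nd (lf 135169) (lf 2362356429448064401409)))))) (nd (nd (lf 0) (nd (lf 0) (nd (nd (lf 131073) (lf 8654850)) (nd (lf 0) (lf 36507615233))))) (nd (lf 0) (nd (lf 0) (nd (nd (lf 131073) (lf 0)) (nd (lf 0) (lf 131073))))))) (nd (nd (nd (lf 0) (nd (lf 0) (nd (nd (lf 0) (lf 8654850)) (nd (lf 135169) (lf 39199757768755539971))))) (nd (lf 0) (nd (lf 0) (nd (lf 0) (nd (lf 135169) (lf 145137146032131)))))) (nd (nd (lf 0) (nd (lf 0) (nd (nd (lf 0) (lf 139265)) (nd (lf 0) (lf 149535192543235))))) (lf 0))))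

def p225 : Tr :=
  (nd (nd (nd (nd (lf 0) (nd (lf 0) (nd (nd (lf 131073) (lf 8654850)) (nd (lf 8392706) (lf 9570253361512449))))) (nd (lf 0) (nd (lf 0) (nd (nd (lf 131073) (lf 0)) (nd (lf 135169) (lf 40252399034789293043296370689)))))) (nd (nd (lf 0) (nd (lf 0) (nd (nd (lf 131073) (lf 8654850)) (nd (lf 0) (lf 39199753445334450177))))) (nd (lf 0) (nd (lf 0) (nd (nd (lf 131073) (lf 0)) (nd (lf 0) (lf 140813724942337))))))) (nd (nd (nd (lf 0) (nd (lf 0) (nd (nd (lf 0) (lf 8654850)) (nd (lf 135169) (lf 36507619329))))) (nd (lf 0) (nd (lf 0) (nd (lf 0) (nd (lf 135169) (lf 135169)))))) (nd (nd (lf 0) (nd (lf 0) (nd (nd (lf 0) (lf 139265)) (nd (lf 0) (lf 139265))))) (lf 0))))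

def p226 : Tr :=
  (nd (nd (nd (nd (lf 0) (nd (lf 0) (nd (nd (lf 131073) (lf 135169)) (nd (lf 8392706) (lf 594481748957069313))))) (nd (lf 0) (nd (lf 0) (nd (nd (lf 131073) (lf 0)) (nd (lf 8392706) (lf 37019599933176152065)))))) (nd (nd (lf 0) (nd (lf 0) (nd (nd (lf 537141251) (lf 135169)) (nd (lf 0) (lf 145137145749507))))) (nd (lf 0) (nd (lf 0) (nd (nd (lf 1) (lf 0)) (nd (lf 0) (lf 8417282))))))) (nd (nd (nd (lf 0) (nd (lf 0) (nd (nd (lf 0) (lf 135169)) (nd (lf 8658946) (lf 38046836400018448386))))) (nd (lf 0) (nd (lf 0) (nd (lf 0) (nd (lf 1) (lf 141218566660098)))))) (nd (nd (lf 0) (nd (lf 0) (nd (nd (lf 0) (lf 135169)) (nd (lf 0) (lf 9288777327992836))))) (nd (lf 0) (nd (lf 0) (nd (lf 0) (nd (lf 0) (lf 8417282))))))))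

def p227 : Tr :=
  (nd (nd (nd (nd (lf 0) (nd (lf 0) (nd (nd (lf 131073) (lf 8654850)) (nd (lf 8392706) (lf 9570253361512449))))) (nd (lf 0) (nd (lf 0) (nd (nd (lf 131073) (lf 0)) (nd (lf 135169) (lf 35433873409)))))) (nd (nd (lf 0) (nd (lf 0) (nd (nd (lf 131073) (lf 8654850)) (nd (lf 0) (lf 39199753515127668737))))) (nd (lf 0) (nd (lf 0) (nd (nd (lf 131073) (lf 0)) (nd (lf 0) (lf 131073))))))) (nd (nd (nd (lf 0) (nd (lf 0) (nd (nd (lf 0) (lf 8654850)) (nd (lf 135169) (lf 42090419407008171628805255176))))) (nd (lf 0) (nd (lf 0) (nd (lf 0) (nd (lf 135169) (lf 135169)))))) (nd (nd (lf 0) (nd (lf 0) (nd (nd (lf 0) (lf 139265)) (nd (lf 0) (lf 149535192547331))))) (lf 0))))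

def p228 : Tr :=
  (nd (nd (nd (nd (lf 0) (nd (lf 0) (nd (nd (lf 131073) (lf 135169)) (nd (lf 8392706) (lf 594481748957069313))))) (nd (lf 0) (nd (lf 0) (nd (nd (lf 131073) (lf 0)) (nd (lf 8392706) (lf 2200097652737)))))) (nd (nd (lf 0) (nd (lf 0) (nd (nd (lf 131073) (lf 135169)) (nd (lf 0) (lf 38046831939653861377))))) (nd (lf 0) (nd (lf 0) (nd (nd (lf 131073) (lf 0)) (nd (lf 0) (lf 140812651200513))))))) (nd (nd (nd (lf 0) (nd (lf 0) (nd (nd (lf 0) (lf 135169)) (nd (lf 8658946) (lf 2267768168450))))) (lf 0)) (nd (nd (lf 0) (nd (lf 0) (nd (nd (lf 0) (lf 135169)) (nd (lf 0) (lf 145137162805251))))) (lf 0))))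

def p229 : Tr :=
  (nd (nd (nd (nd (lf 0) (nd (lf 0) (nd (nd (lf 131073) (lf 8654850)) (nd (lf 8392706) (lf 9570253361512449))))) (nd (lf 0) (nd (lf 0) (nd (nd (lf 131073) (lf 0)) (nd (lf 135169) (lf 38066676091941421057)))))) (nd (nd (lf 0) (nd (lf 0) (nd (nd (lf 131073) (lf 8654850)) (nd (lf 0) (lf 36507615233))))) (nd (lf 0) (nd (lf 0) (nd (nd (lf 131073) (lf 0)) (nd (lf 0) (lf 145212845195265))))))) (nd (nd (nd (lf 0) (nd (lf 0) (nd (nd (lf 0) (lf 8654850)) (nd (lf 135169) (lf 2508784497200353275908))))) (nd (lf 0) (nd (lf 0) (nd (lf 0) (nd (lf 135169) (lf 145212845199361)))))) (nd (nd (lf 0) (nd (lf 0) (nd (nd (lf 0) (lf 139265)) (nd (lf 0) (lf 139265))))) (lf 0))))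

def p230 : Tr :=
  (nd (nd (nd (nd (lf 0) (nd (lf 0) (nd (nd (lf 131073) (lf 8654850)) (nd (lf 8392706) (lf 9570253361512449))))) (nd (lf 0) (nd (lf 0) (nd (nd (lf 131073) (lf 0)) (nd (lf 135169) (lf 675323193724143615099516551667515393)))))) (nd (nd (lf 0) (nd (lf 0) (nd (nd (lf 131073) (lf 8654850)) (nd (lf 0) (lf 657662766313865468280963073))))) (nd (lf 0) (nd (lf 0) (nd (nd (lf 131073) (lf 0)) (nd (lf 0) (lf 2398077024327595589633))))))) (nd (nd (nd (lf 0) (nd (lf 0) (nd (nd (lf 0) (lf 8654850)) (nd (lf 135169) (lf 36507619329))))) (nd (lf 0) (nd (lf 0) (nd (lf 0) (nd (lf 135169) (lf 135169)))))) (nd (nd (lf 0) (nd (lf 0) (nd (nd (lf 0) (lf 139265)) (nd (lf 0) (lf 2508784642233899446279))))) (lf 0))))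

def p231 : Tr :=
  (nd (nd (nd (nd (lf 0) (nd (lf 0) (nd (nd (lf 131073) (lf 135169)) (nd (lf 8392706) (lf 594481748957069313))))) (nd (lf 0) (nd (lf 0) (nd (nd (lf 131073) (lf 0)) (nd (lf 8392706) (lf 38172521437782999041)))))) (nd (nd (lf 0) (nd (lf 0) (nd (nd (lf 131073) (lf 554176515)) (nd (lf 0) (lf 145274048479233))))) (nd (lf 0) (nd (lf 0) (nd (nd (lf 131073) (lf 0)) (nd (lf 0) (lf 2275259580417))))))) (nd (nd (nd (lf 0) (nd (lf 0) (nd (nd (lf 0) (lf 135169)) (nd (lf 8658946) (lf 38046836400018448386))))) (nd (lf 0) (nd (lf 0) (nd (lf 0) (nd (lf 1) (lf 9033589681582083)))))) (nd (nd (lf 0) (nd (lf 0) (nd (nd (lf 0) (lf 1)) (nd (lf 0) (lf 8413186))))) (nd (lf 0) (nd (lf 0) (nd (lf 0) (nd (lf 0) (lf 8413186))))))))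

def p232 : Tr :=
  (nd (nd (nd (nd (lf 0) (nd (lf 0) (nd (nd (lf 131073) (lf 537137155)) (nd (lf 8392706) (lf 594481748957069313))))) (nd (lf 0) (nd (lf 0) (nd (nd (lf 131073) (lf 0)) (nd (lf 8392706) (lf 2200097652737)))))) (nd (nd (lf 0) (nd (lf 0) (nd (nd (lf 131073) (lf 135169)) (nd (lf 0) (lf 35433873409))))) (nd (lf 0) (nd (lf 0) (nd (nd (lf 131073) (lf 0)) (nd (lf 0) (lf 131073))))))) (nd (nd (nd (lf 0) (nd (lf 0) (nd (nd (lf 0) (lf 16781314)) (nd (lf 2148007937) (lf 141149838774274))))) (nd (lf 0) (nd (lf 0) (nd (lf 0) (nd (lf 1) (lf 8413186)))))) (nd (nd (lf 0) (nd (lf 0) (nd (nd (lf 0) (lf 1)) (nd (lf 0) (lf 8413186))))) (nd (lf 0) (nd (lf 0) (nd (lf 0) (nd (lf 0) (lf 8413186))))))))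

def p233 : Tr :=
  (nd (nd (nd (nd (lf 0) (nd (lf 0) (nd (nd (lf 131073) (lf 537137155)) (nd (lf 8392706) (lf 2362354192732176121857))))) (nd (lf 0) (nd (lf 0) (nd (nd (lf 131073) (lf 0)) (nd (lf 8392706) (lf 2200097652737)))))) (nd (nd (lf 0) (nd (lf 0) (nd (nd (lf 537141251) (lf 1)) (nd (lf 0) (lf 537141251))))) (lf 0))) (lf 0))

def p234 : Tr :=
  (nd (nd (nd (nd (lf 0) (nd (lf 0) (nd (nd (lf 131073) (lf 537137155)) (nd (lf 8392706) (lf 594481748957069313))))) (nd (lf 0) (nd (lf 0) (nd (nd (lf 131073) (lf 0)) (nd (lf 8392706) (lf 151190793470209941962753)))))) (nd (nd (lf 0) (nd (lf 0) (nd (nd (lf 131073) (lf 135169)) (nd (lf 0) (lf 35433873409))))) (nd (lf 0) (nd (lf 0) (nd (nd (lf 131073) (lf 0)) (nd (lf 0) (lf 2361201286621805441027))))))) (nd (nd (nd (lf 0) (nd (lf 0) (nd (nd (lf 0) (lf 16781314)) (nd (lf 2148007937) (lf 141149838774274))))) (nd (lf 0) (nd (lf 0) (nd (lf 0) (nd (lf 1) (lf 9033589681582083)))))) (nd (nd (lf 0) (nd (lf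 0) (nd (nd (lf 0) (lf 1)) (nd (lf 0) (lf 8413186))))) (nd (lf 0) (nd (lf 0) (nd (lf 0) (nd (lf 0) (lf 8413186))))))))

def p235 : Tr :=
  (nd (nd (nd (nd (lf 0) (nd (lf 0) (nd (nd (lf 131073) (lf 135169)) (nd (lf 8392706) (lf 594481748957069313))))) (nd (lf 0) (nd (lf 0) (nd (nd (lf 131073) (lf 0)) (nd (lf 8392706) (lf 38172521437782999041)))))) (nd (nd (lf 0) (nd (lf 0) (nd (nd (lf 131073) (lf 135169)) (nd (lf 0) (lf 35433873409))))) (nd (lf 0) (nd (lf 0) (nd (nd (lf 131073) (lf 0)) (nd (lf 0) (lf 2275259580417))))))) (nd (nd (nd (lf 0) (nd (lf 0) (nd (nd (lf 0) (lf 135169)) (nd (lf 8658946) (lf 38046836400018448386))))) (nd (lf 0) (nd (lf 0) (nd (lf 0) (nd (lf 1) (lf 9319462705061891)))))) (nd (nd (lf 0) (nd (lf 0) (nd (nd (lf 0) (lf 135169)) (nd (lf 0) (lf 2267767922690))))) (nd (lf 0) (nd (lf 0) (nd (lf 0) (nd (lf 0) (lf 8679426))))))))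

def p236 : Tr :=
  (nd (nd (nd (nd (lf 0) (nd (lf 0) (nd (nd (lf 131073) (lf 135169)) (nd (lf 8392706) (lf 594481748957069313))))) (nd (lf 0) (nd (lf 0) (nd (nd (lf 131073) (lf 0)) (nd (lf 8392706) (lf 10876443455598170820529000972681217)))))) (nd (nd (lf 0) (nd (lf 0) (nd (nd (lf 131073) (lf 135169)) (nd (lf 0) (lf 35433873409))))) (nd (lf 0) (nd (lf 0) (nd (nd (lf 131073) (lf 0)) (nd (lf 0) (lf 648286548590551067622244353))))))) (nd (nd (nd (lf 0) (nd (lf 0) (nd (nd (lf 0) (lf 135169)) (nd (lf 8658946) (lf 155839841894477645504516))))) (nd (lf 0) (nd (lf 0) (nd (lf 0) (nd (lf 1) (lf 2655381703026897172980176543747)))))) (nd (nd (lf 0) (nd (lf 0) (nd (nd (lf 0) (lf 135169)) (nd (lf 0) (lf 9288778419298308))))) (nd (lf 0) (nd (lf 0) (nd (lf 0) (nd (lf 0) (lf 2473016924249843855370))))))))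

def p237 : Tr :=
  (nd (nd (nd (nd (lf 0) (nd (lf 0) (nd (nd (lf 131073) (lf 135169)) (nd (lf 8392706) (lf 594481748957069313))))) (nd (lf 0) (nd (lf 0) (nd (nd (lf 131073) (lf 0)) (nd (lf 8392706) (lf 160635526435949232390145)))))) (nd (nd (lf 0) (nd (lf 0) (nd (nd (lf 131073) (lf 135169)) (nd (lf 0) (lf 35433873409))))) (nd (lf 0) (nd (lf 0) (nd (nd (lf 131073) (lf 0)) (nd (lf 0) (lf 9293354673242113))))))) (nd (nd (nd (lf 0) (nd (lf 0) (nd (nd (lf 0) (lf 135169)) (nd (lf 8658946) (lf 10709232389609361703391137173889034))))) (nd (lf 0) (nd (lf 0) (nd (lf 0) (nd (lf 1) (lf 2574915600473347450713686700035)))))) (nd (nd (lf 0) (nd (lf 0) (nd (nd (lf 0) (lf 135169)) (nd (lf 0) (lf 638319953200033524288872458))))) (nd (lf 0) (nd (lf 0) (nd (lf 0) (nd (lf 0) (lf 2398077026450398797834))))))))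

def p238 : Tr :=
  (nd (nd (nd (nd (lf 0) (nd (lf 0) (nd (nd (lf 131073) (lf 135169)) (nd (lf 8392706) (lf 594481748957069313))))) (nd (lf 0) (nd (lf 0) (nd (nd (lf 131073) (lf 0)) (nd (lf 8392706) (lf 2200097652737)))))) (nd (nd (lf 0) (nd (lf 0) (nd (nd (lf 131073) (lf 135169)) (nd (lf 0) (lf 38046831939653861377))))) (nd (lf 0) (nd (lf 0) (nd (nd (lf 131073) (lf 0)) (nd (lf 0) (lf 140812651200513))))))) (nd (nd (nd (lf 0) (nd (lf 0) (nd (nd (lf 0) (lf 135169)) (nd (lf 8658946) (lf 2267768168450))))) (lf 0)) (nd (nd (lf 0) (nd (lf 0) (nd (nd (lf 0) (lf 135169)) (nd (lf 0) (lf 135169))))) (lf 0))))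

def p239 : Tr :=
  (nd (nd (nd (nd (lf 0) (nd (lf 0) (nd (nd (lf 131073) (lf 135169)) (nd (lf 8392706) (lf 594481748957069313))))) (nd (lf 0) (nd (lf 0) (nd (nd (lf 131073) (lf 0)) (nd (lf 8392706) (lf 2200097652737)))))) (nd (nd (lf 0) (nd (lf 0) (nd (nd (lf 131073) (lf 135169)) (nd (lf 0) (lf 38046832008373338113))))) (nd (lf 0) (nd (lf 0) (nd (nd (lf 131073) (lf 0)) (nd (lf 0) (lf 131073))))))) (nd (nd (nd (lf 0) (nd (lf 0) (nd (nd (lf 0) (lf 135169)) (nd (lf 8658946) (lf 2267768168450))))) (lf 0)) (nd (nd (lf 0) (nd (lf 0) (nd (nd (lf 0) (lf 135169)) (nd (lf 0) (lf 145137146028035))))) (lf 0))))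

def p240 : Tr :=
  (nd (nd (nd (nd (lf 0) (nd (lf 0) (nd (nd (lf 131073) (lf 8654850)) (nd (lf 8392706) (lf 9570253361512449))))) (nd (lf 0) (nd (lf 0) (nd (nd (lf 131073) (lf 0)) (nd (lf 135169) (lf 38066676091941421057)))))) (nd (nd (lf 0) (nd (lf 0) (nd (nd (lf 131073) (lf 8654850)) (nd (lf 0) (lf 36507615233))))) (nd (lf 0) (nd (lf 0) (nd (nd (lf 131073) (lf 0)) (nd (lf 0) (lf 145212845195265))))))) (nd (nd (nd (lf 0) (nd (lf 0) (nd (nd (lf 0) (lf 8654850)) (nd (lf 135169) (lf 39199757768755539971))))) (nd (lf 0) (nd (lf 0) (nd (lf 0) (nd (lf 135169) (lf 155921105272592061198339)))))) (nd (nd (lf 0) (nd (lf 0) (nd (nd (lf 0) (lf 139265)) (nd (lf 0) (lf 149535192543235))))) (lf 0))))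

def p241 : Tr :=
  (nd (nd (nd (nd (lf 0) (nd (lf 0) (nd (nd (lf 131073) (lf 135169)) (nd (lf 8392706) (lf 594481748957069313))))) (nd (lf 0) (nd (lf 0) (nd (nd (lf 131073) (lf 0)) (nd (lf 8392706) (lf 38172521437782999041)))))) (nd (nd (lf 0) (nd (lf 0) (nd (nd (lf 131073) (lf 135169)) (nd (lf 0) (lf 35433873409))))) (nd (lf 0) (nd (lf 0) (nd (nd (lf 131073) (lf 0)) (nd (lf 0) (lf 2275259580417))))))) (nd (nd (nd (lf 0) (nd (lf 0) (nd (nd (lf 0) (lf 135169)) (nd (lf 8658946) (lf 38046836400018448386))))) (nd (lf 0) (nd (lf 0) (nd (lf 0) (nd (lf 1) (lf 9033589681582083)))))) (nd (nd (lf 0) (nd (lf 0) (nd (nd (lf 0) (lf 135169)) (nd (lf 0) (lf 2267767922690))))) (nd (lf 0) (nd (lf 0) (nd (lf 0) (nd (lf 0) (lf 8413186))))))))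

def p242 : Tr :=
  (lf 0)

def p243 : Tr :=
  (nd (nd (nd (nd (nd (nd (lf 0) (nd (lf 0) (lf 28674))) (nd (lf 0) (nd (lf 0) (lf 561155)))) (nd (nd (lf 0) (nd (lf 0) (lf 552963))) (nd (lf 0) (nd (lf 0) (lf 1457061041566592107719126988757942766771725431521800496223039693841765634123721900034))))) (nd (nd (nd (lf 0) (nd (lf 0) (lf 28674))) (nd (lf 0) (nd (lf 0) (lf 61442)))) (nd (nd (lf 0) (nd (lf 0) (lf 540675))) (nd (lf 0) (nd (lf 0) (lf 17294386137564987394)))))) (nd (nd (nd (nd (lf 0) (nd (lf 0) (lf 32770))) (nd (lf 0) (nd (lf 0) (lf 61442)))) (nd (nd (lf 0) (nd (lf 0) (lf 540675))) (nd (lf 0) (nd (lf 0) (lf 66432210768362444972461544318338234862560076247640054161587966277204030593947482140765317306781788172224829301964450472086510711355745327106860497557807294573080657854719304880339701552684943657876585374021475770102014079448162559104860201711919179081859831602753974304983427322872304502923308680487766266347412638213569636737216517127957463566796936400676512545293971630077994331824050344118812630119672510465874143683249015345819879024910340)))))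 (nd (nd (nd (lf 0) (nd (lf 0) (lf 16386))) (nd (lf 0) (nd (lf 0) (lf 61442)))) (nd (nd (lf 0) (nd (lf 0) (lf 5222730600450))) (nd (lf 0) (nd (lf 0) (lf 17127669382478634644016095581148654896813195266))))))) (nd (nd (nd (nd (nd (lf 0) (nd (lf 0) (lf 28674))) (nd (lf 0) (nd (lf 0) (lf 561155)))) (nd (nd (lf 0) (nd (lf 0) (lf 45058))) (nd (lf 0) (nd (lf 0) (lf 232123212475831307160551426))))) (nd (nd (nd (lf 0) (nd (lf 0) (lf 28674))) (nd (lf 0) (nd (lf 0) (lf 49154)))) (nd (nd (lf 0) (nd (lf 0) (lf 36866))) (nd (lf 0) (nd (lf 0) (lf 14855885021957250006936207362)))))) (nd (nd (nd (nd (lf 0) (nd (lf 0) (lf 32770))) (nd (lf 0) (nd (lf 0) (lf 49154)))) (nd (nd (lf 0) (nd (lf 0) (lf 48380659646467))) (nd (lf 0) (nd (lf 0) (lf 17127670231647667571459187112242083912919564292))))) (nd (nd (nd (lf 0) (nd (lf 0) (lf 16386))) (nd (lf 0) (nd (lf 0) (lf 49154)))) (nd (nd (lf 0) (nd (lf 0) (lf 49686430458626531486801005972116010668374358283055132163090812267374215494351762342021076740139688416251162714550429823768859871580162)))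 (nd (lf 0) (nd (lf 0) (lf 3003453738991873952387819569774053712788689227811251590508973069739706369561194511581505549821905173843804551398541095514795118305909131920515838839164522498))))))))

def p244 : Tr :=
  (nd (nd (nd (nd (nd (nd (lf 0) (nd (lf 0) (lf 278531))) (nd (lf 0) (nd (lf 0) (lf 20482)))) (nd (nd (lf 0) (nd (lf 0) (lf 16386))) (nd (lf 0) (nd (lf 0) (lf 651915208658470436058887523728675147659250134875036429445085028520977213246138964938068344835))))) (nd (nd (nd (lf 0) (nd (lf 0) (lf 278531))) (nd (lf 0) (nd (lf 0) (lf 20482)))) (nd (nd (lf 0) (nd (lf 0) (lf 16386))) (nd (lf 0) (nd (lf 0) (lf 368970927865543802883)))))) (nd (nd (nd (nd (lf 0) (nd (lf 0) (lf 4672974770178))) (nd (lf 0) (nd (lf 0) (lf 20482)))) (nd (nd (lf 0) (nd (lf 0) (lf 282627))) (nd (lf 0) (nd (lf 0) (lf 1622751263628636289566593159282691))))) (nd (nd (nd (lf 0) (nd (lf 0) (lf 4672974770178))) (nd (lf 0) (nd (lf 0) (lf 20482)))) (nd (nd (lf 0) (nd (lf 0) (lf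 4741694242818))) (nd (lf 0) (nd (lf 0) (lf 396179503288904781235008847875))))))) (nd (nd (nd (nd (lf 0) (nd (lf 0) (nd (lf 0) (lf 20482)))) (nd (nd (lf 0) (nd (lf 0) (lf 16386))) (nd (lf 0) (nd (lf 0) (lf 343630954498))))) (nd (nd (lf 0) (nd (lf 0) (nd (lf 0) (lf 20482)))) (nd (nd (lf 0) (nd (lf 0) (lf 16386))) (nd (lf 0) (nd (lf 0) (lf 368970915012904239106)))))) (nd (nd (nd (lf 0) (nd (lf 0) (nd (lf 0) (lf 20482)))) (nd (nd (lf 0) (nd (lf 0) (lf 274911481858))) (nd (lf 0) (nd (lf 0) (lf 343630954498))))) (nd (nd (lf 0) (nd (lf 0) (nd (lf 0) (lf 20482)))) (nd (nd (lf 0) (nd (lf 0) (lf 274911481858))) (nd (lf 0) (nd (lf 0) (lf 343630954498))))))))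

def p245 : Tr :=
  (nd (nd (nd (nd (nd (nd (lf 0) (nd (lf 0) (lf 20482))) (nd (lf 0) (nd (lf 0) (lf 548867)))) (nd (nd (lf 0) (nd (lf 0) (lf 544771))) (nd (lf 0) (nd (lf 0) (lf 4265067391449190495786392223531874956663189313488872564817615858933213149838230308543025154))))) (nd (nd (nd (lf 0) (nd (lf 0) (lf 20482))) (nd (lf 0) (nd (lf 0) (lf 9071021277186)))) (nd (nd (lf 0) (nd (lf 0) (lf 24578))) (nd (lf 0) (nd (lf 0) (lf 412350435330)))))) (nd (nd (nd (nd (lf 0) (nd (lf 0) (lf 20482))) (nd (lf 0) (nd (lf 0) (lf 9887508875774869389314)))) (nd (nd (lf 0) (nd (lf 0) (lf 544771))) (nd (lf 0) (nd (lf 0) (lf 729569383036873253885198881464864014356484))))) (nd (nd (nd (lf 0) (nd (lf 0) (lf 20482))) (nd (lf 0) (nd (lf 0) (lf 16386)))) (nd (nd (lf 0) (nd (lf 0) (lf 412350435330))) (nd (lf 0) (nd (lf 0) (lf 412350435330))))))) (nd (nd (nd (nd (nd (lf 0) (nd (lf 0) (lf 20482))) (nd (lf 0) (nd (lf 0) (lf 548867)))) (nd (nd (lf 0) (nd (lf 0) (lf 24578)))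 (nd (lf 0) (nd (lf 0) (lf 2591951131271305880731144194))))) (nd (nd (nd (lf 0) (nd (lf 0) (lf 20482))) (nd (lf 0) (nd (lf 0) (lf 9071021277186)))) (nd (nd (lf 0) (nd (lf 0) (lf 24578))) (nd (lf 0) (nd (lf 0) (lf 412350435330)))))) (nd (nd (nd (nd (lf 0) (nd (lf 0) (lf 20482))) (nd (lf 0) (nd (lf 0) (lf 9887508875774869389314)))) (nd (nd (lf 0) (nd (lf 0) (lf 26390427095043))) (nd (lf 0) (nd (lf 0) (lf 165884872401363563514152636418))))) (nd (nd (nd (lf 0) (nd (lf 0) (lf 20482))) (nd (lf 0) (nd (lf 0) (lf 16386)))) (nd (nd (lf 0) (nd (lf 0) (lf 412350435330))) (nd (lf 0) (nd (lf 0) (lf 412350435330))))))))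

def p246 : Tr :=
  (nd (nd (nd (nd (nd (nd (lf 0) (nd (lf 0) (lf 278531))) (nd (lf 0) (nd (lf 0) (lf 20482)))) (nd (nd (lf 0) (nd (lf 0) (lf 16386))) (nd (lf 0) (nd (lf 0) (lf 651915208658470436058887523728675147659250134875036429445085028520977213246138964938068344835))))) (nd (nd (nd (lf 0) (nd (lf 0) (lf 278531))) (nd (lf 0) (nd (lf 0) (lf 20482)))) (nd (nd (lf 0) (nd (lf 0) (lf 16386))) (nd (lf 0) (nd (lf 0) (lf 368970927865543802883)))))) (nd (nd (nd (nd (lf 0) (nd (lf 0) (lf 5017568457634953322499))) (nd (lf 0) (nd (lf 0) (lf 20482)))) (nd (nd (lf 0) (nd (lf 0) (lf 282627))) (nd (lf 0) (nd (lf 0) (lf 1622751263628636289566593159282691))))) (nd (nd (nd (lf 0) (nd (lf 0) (lf 5017568457634953322499))) (nd (lf 0) (nd (lf 0) (lf 20482)))) (nd (nd (lf 0) (nd (lf 0) (lf 4741694242818))) (nd (lf 0) (nd (lf 0) (lf 396179503288904781235008847875))))))) (nd (nd (nd (nd (nd (lf 0) (nd (lf 0) (lf 26390426836995))) (nd (lf 0) (nd (lf 0) (lf 20482))))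 (nd (nd (lf 0) (nd (lf 0) (lf 16386))) (nd (lf 0) (nd (lf 0) (lf 343630954498))))) (nd (nd (nd (lf 0) (nd (lf 0) (lf 26390426836995))) (nd (lf 0) (nd (lf 0) (lf 20482)))) (nd (nd (lf 0) (nd (lf 0) (lf 16386))) (nd (lf 0) (nd (lf 0) (lf 368970915012904239106)))))) (nd (nd (nd (nd (lf 0) (nd (lf 0) (lf 24578))) (nd (lf 0) (nd (lf 0) (lf 20482)))) (nd (nd (lf 0) (nd (lf 0) (lf 274911481858))) (nd (lf 0) (nd (lf 0) (lf 343630954498))))) (nd (nd (nd (lf 0) (nd (lf 0) (lf 24578))) (nd (lf 0) (nd (lf 0) (lf 20482)))) (nd (nd (lf 0) (nd (lf 0) (lf 274911481858))) (nd (lf 0) (nd (lf 0) (lf 343630954498))))))))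

def p247 : Tr :=
  (nd (nd (nd (nd (nd (nd (lf 0) (nd (lf 0) (lf 17055748))) (nd (lf 0) (nd (lf 0) (lf 16386)))) (nd (nd (lf 0) (nd (lf 0) (lf 278531))) (nd (lf 0) (nd (lf 0) (lf 146801838131373413371683551754718219480530445730397700517651930887193201540600847758193665365169909352644612))))) (nd (nd (nd (lf 0) (nd (lf 0) (lf 17055748))) (nd (lf 0) (nd (lf 0) (lf 16386)))) (nd (nd (lf 0) (nd (lf 0) (lf 278531))) (nd (lf 0) (nd (lf 0) (lf 1209073412707723442929668)))))) (nd (nd (nd (nd (lf 0) (nd (lf 0) (lf 16386))) (nd (lf 0) (nd (lf 0) (lf 16386)))) (nd (nd (lf 0) (nd (lf 0) (lf 278531))) (nd (lf 0) (nd (lf 0) (lf 1209073429895087328083971))))) (nd (nd (nd (lf 0) (nd (lf 0) (lf 16386))) (nd (lf 0) (nd (lf 0) (lf 16386)))) (nd (nd (lf 0) (nd (lf 0) (lf 278531))) (nd (lf 0) (nd (lf 0) (lf 1209073429895087328083971))))))) (nd (nd (nd (nd (lf 0) (nd (lf 0) (nd (lf 0) (lf 16386)))) (nd (nd (lf 0) (nd (lf 0) (lf 278531))) (nd (lf 0) (nd (lf 0) (lf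 17594333806595))))) (nd (nd (lf 0) (nd (lf 0) (nd (lf 0) (lf 16386)))) (nd (nd (lf 0) (nd (lf 0) (lf 278531))) (nd (lf 0) (nd (lf 0) (lf 17594333806595)))))) (nd (nd (nd (lf 0) (nd (lf 0) (nd (lf 0) (lf 16386)))) (nd (lf 0) (nd (lf 0) (nd (lf 0) (lf 16386))))) (nd (nd (lf 0) (nd (lf 0) (nd (lf 0) (lf 16386)))) (nd (lf 0) (nd (lf 0) (nd (lf 0) (lf 16386))))))))

def p248 : Tr :=
  (nd (nd (nd (nd (nd (nd (lf 0) (nd (lf 0) (lf 16386))) (nd (lf 0) (nd (lf 0) (lf 544771)))) (nd (nd (lf 0) (nd (lf 0) (lf 540675))) (nd (lf 0) (nd (lf 0) (lf 4233238704289321375816087828209170985344157515359879063481784474019885123028542073948094466))))) (nd (nd (nd (lf 0) (nd (lf 0) (lf 16386))) (lf 0)) (nd (nd (lf 0) (nd (lf 0) (lf 20482))) (nd (lf 0) (nd (lf 0) (lf 343630954498)))))) (nd (nd (nd (nd (lf 0) (nd (lf 0) (lf 16386))) (nd (lf 0) (nd (lf 0) (lf 9139740753922)))) (nd (nd (lf 0) (nd (lf 0) (lf 540675))) (nd (lf 0) (nd (lf 0) (lf 724124865161067636064149603375624288223236)))))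 (nd (nd (nd (lf 0) (nd (lf 0) (lf 16386))) (lf 0)) (nd (nd (lf 0) (nd (lf 0) (lf 343630954498))) (nd (lf 0) (nd (lf 0) (lf 343630954498))))))) (nd (nd (nd (nd (nd (lf 0) (nd (lf 0) (lf 16386))) (nd (lf 0) (nd (lf 0) (lf 544771)))) (nd (nd (lf 0) (nd (lf 0) (lf 20482))) (nd (lf 0) (nd (lf 0) (lf 2572608317004550240609517570))))) (nd (nd (nd (lf 0) (nd (lf 0) (lf 16386))) (lf 0)) (nd (nd (lf 0) (nd (lf 0) (lf 20482))) (nd (lf 0) (nd (lf 0) (lf 343630954498)))))) (nd (nd (nd (nd (lf 0) (nd (lf 0) (lf 16386))) (nd (lf 0) (nd (lf 0) (lf 9139740753922)))) (nd (nd (lf 0) (nd (lf 0) (lf 21992380579843))) (nd (lf 0) (nd (lf 0) (lf 164646932288291206875695824898))))) (nd (nd (nd (lf 0) (nd (lf 0) (lf 16386))) (lf 0)) (nd (nd (lf 0) (nd (lf 0) (lf 343630954498))) (nd (lf 0) (nd (lf 0) (lf 343630954498))))))))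

def p249 : Tr :=
  (nd (nd (nd (nd (nd (nd (lf 0) (nd (lf 0) (lf 278531))) (nd (lf 0) (nd (lf 0) (lf 540675)))) (nd (nd (lf 0) (nd (lf 0) (lf 16386))) (nd (lf 0) (nd (lf 0) (lf 4511229655164449309312766165936496676555172069448799292633185737684265629283938937552191593352806403))))) (nd (nd (nd (lf 0) (nd (lf 0) (lf 278531))) (lf 0)) (nd (nd (lf 0) (nd (lf 0) (lf 16386))) (nd (lf 0) (nd (lf 0) (lf 17594333806595)))))) (nd (nd (nd (nd (lf 0) (nd (lf 0) (lf 278531))) (nd (lf 0) (nd (lf 0) (lf 540675)))) (nd (nd (lf 0) (nd (lf 0) (lf 16386))) (nd (lf 0) (nd (lf 0) (lf 9739934931708505505795))))) (nd (nd (nd (lf 0) (nd (lf 0) (lf 278531))) (lf 0)) (nd (nd (lf 0) (nd (lf 0) (lf 16386))) (nd (lf 0) (nd (lf 0) (lf 17594333806595))))))) (nd (nd (nd (nd (lf 0) (nd (lf 0) (nd (lf 0) (lf 540675)))) (nd (nd (lf 0) (nd (lf 0) (lf 16386))) (nd (lf 0) (nd (lf 0) (lf 9071021277186))))) (nd (lf 0) (nd (nd (lf 0) (nd (lf 0) (lf 16386))) (nd (lf 0) (nd (lf 0)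 (lf 16386)))))) (nd (nd (nd (lf 0) (nd (lf 0) (nd (lf 0) (lf 540675)))) (nd (nd (lf 0) (nd (lf 0) (lf 16386))) (nd (lf 0) (nd (lf 0) (lf 9071021277186))))) (nd (lf 0) (nd (nd (lf 0) (nd (lf 0) (lf 16386))) (nd (lf 0) (nd (lf 0) (lf 16386))))))))

def p250 : Tr :=
  (nd (nd (nd (nd (nd (nd (lf 0) (nd (lf 0) (lf 16386))) (nd (lf 0) (nd (lf 0) (lf 34095108)))) (nd (nd (lf 0) (nd (lf 0) (lf 540675))) (nd (lf 0) (nd (lf 0) (lf 18206677169345769202145352719611355899093718996890580080029260780648061746440696529436813837791901270018))))) (nd (nd (nd (lf 0) (nd (lf 0) (lf 16386))) (lf 0)) (nd (nd (lf 0) (nd (lf 0) (lf 540675))) (nd (lf 0) (nd (lf 0) (lf 9071021277186)))))) (nd (nd (nd (nd (lf 0) (nd (lf 0) (lf 16386))) (nd (lf 0) (nd (lf 0) (lf 16386)))) (nd (nd (lf 0) (nd (lf 0) (lf 540675))) (nd (lf 0) (nd (lf 0) (lf 623355834793853003513858))))) (nd (nd (nd (lf 0) (nd (lf 0) (lf 16386))) (lf 0)) (nd (lf 0) (nd (lf 0) (nd (lf 0) (lf 16386))))))) (nd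 (nd (nd (nd (nd (lf 0) (nd (lf 0) (lf 16386))) (nd (lf 0) (nd (lf 0) (lf 34095108)))) (nd (nd (lf 0) (nd (lf 0) (lf 540675))) (nd (lf 0) (nd (lf 0) (lf 614202862744898289811458))))) (nd (nd (nd (lf 0) (nd (lf 0) (lf 16386))) (lf 0)) (nd (nd (lf 0) (nd (lf 0) (lf 540675))) (nd (lf 0) (nd (lf 0) (lf 9071021277186)))))) (nd (nd (nd (nd (lf 0) (nd (lf 0) (lf 16386))) (nd (lf 0) (nd (lf 0) (lf 16386)))) (nd (nd (lf 0) (nd (lf 0) (lf 540675))) (nd (lf 0) (nd (lf 0) (lf 623355835629344351862788))))) (nd (nd (nd (lf 0) (nd (lf 0) (lf 16386))) (lf 0)) (nd (lf 0) (nd (lf 0) (nd (lf 0) (lf 16386))))))))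

def p251 : Tr :=
  (nd (nd (nd (nd (nd (nd (lf 0) (nd (lf 0) (lf 286723))) (nd (lf 0) (nd (lf 0) (lf 28674)))) (nd (nd (lf 0) (nd (lf 0) (lf 24578))) (nd (lf 0) (nd (lf 0) (lf 912655829170636719243850251704399529250970742960848846078366327775046327343479257409289216003))))) (nd (nd (nd (lf 0) (nd (lf 0) (lf 286723))) (nd (lf 0) (nd (lf 0) (lf 28674)))) (nd (nd (lf 0) (nd (lf 0) (lf 24578))) (nd (lf 0) (nd (lf 0) (lf 516544889251313246211)))))) (nd (nd (nd (nd (lf 0) (nd (lf 0) (lf 4810413719554))) (nd (lf 0) (nd (lf 0) (lf 28674)))) (nd (nd (lf 0) (nd (lf 0) (lf 290819))) (nd (lf 0) (nd (lf 0) (lf 16440945111119435053071146125821870549252895178726453641734076766346140125446029917695260279483646913192411140))))) (nd (nd (nd (lf 0) (nd (lf 0) (lf 4810413719554))) (nd (lf 0) (nd (lf 0) (lf 28674)))) (nd (nd (lf 0) (nd (lf 0) (lf 4879133204482))) (nd (lf 0) (nd (lf 0) (lf 639451578806079315293264327187368591409232756738))))))) (nd (nd (nd (nd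 (lf 0) (nd (lf 0) (nd (lf 0) (lf 28674)))) (nd (nd (lf 0) (nd (lf 0) (lf 24578))) (nd (lf 0) (nd (lf 0) (lf 481069916162))))) (nd (nd (lf 0) (nd (lf 0) (nd (lf 0) (lf 28674)))) (nd (nd (lf 0) (nd (lf 0) (lf 24578))) (nd (lf 0) (nd (lf 0) (lf 516544867740019613698)))))) (nd (nd (nd (lf 0) (nd (lf 0) (nd (lf 0) (lf 28674)))) (nd (nd (lf 0) (nd (lf 0) (lf 412350443522))) (nd (lf 0) (nd (lf 0) (lf 481069916162))))) (nd (nd (lf 0) (nd (lf 0) (nd (lf 0) (lf 28674)))) (nd (nd (lf 0) (nd (lf 0) (lf 412350443522))) (nd (lf 0) (nd (lf 0) (lf 481069916162))))))))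

def p252 : Tr :=
  (nd (nd (nd (nd (nd (nd (lf 0) (nd (lf 0) (lf 17072132))) (nd (lf 0) (nd (lf 0) (lf 548867)))) (nd (nd (lf 0) (nd (lf 0) (lf 24578))) (nd (lf 0) (nd (lf 0) (lf 4587277473495959542625295494005700519029146186540683692446223684501029622450165326419987749650881285750788))))) (nd (nd (nd (lf 0) (nd (lf 0) (lf 307544189259358815666178))) (nd (lf 0) (nd (lf 0) (lf 32770)))) (nd (nd (lf 0) (nd (lf 0) (lf 24578))) (nd (lf 0) (nd (lf 0) (lf 730795431470299558457722408983700525442712752130)))))) (nd (nd (nd (nd (lf 0) (nd (lf 0) (lf 16386))) (nd (lf 0) (nd (lf 0) (lf 32770)))) (nd (nd (lf 0) (nd (lf 0) (lf 294915))) (nd (lf 0) (nd (lf 0) (lf 16447888044089976100588260323548372924979586602568673620642340890180422396067064530116759422213009142519971844))))) (nd (nd (nd (lf 0) (nd (lf 0) (lf 16386))) (nd (lf 0) (nd (lf 0) (lf 32770)))) (nd (nd (lf 0) (nd (lf 0) (lf 4947852681218))) (nd (lf 0) (nd (lf 0) (lf 680606282447082899210990858398681022466)))))))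 (nd (nd (nd (nd (lf 0) (nd (lf 0) (nd (lf 0) (lf 32770)))) (nd (nd (lf 0) (nd (lf 0) (lf 294915))) (nd (lf 0) (nd (lf 0) (lf 35186519867395))))) (nd (nd (lf 0) (nd (lf 0) (nd (lf 0) (lf 32770)))) (nd (nd (lf 0) (nd (lf 0) (lf 4947852685314))) (nd (lf 0) (nd (lf 0) (lf 590331844103577300994)))))) (nd (nd (nd (lf 0) (nd (lf 0) (nd (lf 0) (lf 32770)))) (nd (lf 0) (nd (lf 0) (nd (lf 0) (lf 32770))))) (nd (nd (lf 0) (nd (lf 0) (nd (lf 0) (lf 32770)))) (nd (lf 0) (nd (lf 0) (nd (lf 0) (lf 32770))))))))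

def p253 : Tr :=
  (nd (nd (nd (nd (nd (nd (lf 0) (nd (lf 0) (lf 16386))) (nd (lf 0) (nd (lf 0) (lf 544771)))) (nd (nd (lf 0) (nd (lf 0) (lf 540675))) (nd (lf 0) (nd (lf 0) (lf 4233238704289321375816087828209170985344157515359879063481784474019885123028542073948094466))))) (nd (nd (nd (lf 0) (nd (lf 0) (lf 16386))) (lf 0)) (nd (nd (lf 0) (nd (lf 0) (lf 20482))) (nd (lf 0) (nd (lf 0) (lf 343630954498)))))) (nd (nd (nd (nd (lf 0) (nd (lf 0) (lf 16386))) (nd (lf 0) (nd (lf 0) (lf 26390427095043)))) (nd (nd (lf 0) (nd (lf 0) (lf 540675))) (nd (lf 0) (nd (lf 0) (lf 4411881744241994071569876065312001138655726487472730901228179435430810525839332365997798009082494980))))) (nd (nd (nd (lf 0) (nd (lf 0) (lf 16386))) (lf 0)) (nd (nd (lf 0) (nd (lf 0) (lf 343630954498))) (nd (lf 0) (nd (lf 0) (lf 343630954498))))))) (nd (nd (nd (nd (nd (lf 0) (nd (lf 0) (lf 16386))) (nd (lf 0) (nd (lf 0) (lf 544771)))) (nd (nd (lf 0) (nd (lf 0) (lf 20482))) (nd (lf 0)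 (nd (lf 0) (lf 2572608317004550240609517570))))) (nd (nd (nd (lf 0) (nd (lf 0) (lf 16386))) (lf 0)) (nd (nd (lf 0) (nd (lf 0) (lf 20482))) (nd (lf 0) (nd (lf 0) (lf 343630954498)))))) (nd (nd (nd (nd (lf 0) (nd (lf 0) (lf 16386))) (nd (lf 0) (nd (lf 0) (lf 26390427095043)))) (nd (nd (lf 0) (nd (lf 0) (lf 21992380579843))) (nd (lf 0) (nd (lf 0) (lf 548107726803936688611659719792893911984444555268))))) (nd (nd (nd (lf 0) (nd (lf 0) (lf 16386))) (lf 0)) (nd (nd (lf 0) (nd (lf 0) (lf 343630954498))) (nd (lf 0) (nd (lf 0) (lf 343630954498))))))))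

def p254 : Tr :=
  (nd (nd (nd (nd (nd (nd (lf 0) (nd (lf 0) (lf 286723))) (nd (lf 0) (nd (lf 0) (lf 544771)))) (nd (nd (lf 0) (nd (lf 0) (lf 24578))) (nd (lf 0) (nd (lf 0) (lf 4545405447771012557790955633205513907331313056365539177458211695765137860279837365130115270236725251))))) (nd (nd (nd (lf 0) (nd (lf 0) (lf 282627))) (lf 0)) (nd (nd (lf 0) (nd (lf 0) (lf 20482))) (nd (lf 0) (nd (lf 0) (lf 21992380321795)))))) (nd (nd (nd (nd (lf 0) (nd (lf 0) (lf 4810413719554))) (nd (lf 0) (nd (lf 0) (lf 30788473606147)))) (nd (nd (lf 0) (nd (lf 0) (lf 5238929386519468195843))) (nd (lf 0) (nd (lf 0) (lf 50662573605650961180839012682641147454583176557456716190232361538511249620996))))) (nd (nd (nd (lf 0) (nd (lf 0) (lf 4741694242818))) (lf 0)) (nd (nd (lf 0) (nd (lf 0) (lf 343630954498))) (nd (lf 0) (nd (lf 0) (lf 368970915012904239106))))))) (nd (nd (nd (nd (lf 0) (nd (lf 0) (nd (lf 0) (lf 544771)))) (nd (nd (lf 0) (nd (lf 0) (lf 24578))) (nd (lf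 0) (nd (lf 0) (lf 9139740758018))))) (nd (lf 0) (nd (nd (lf 0) (nd (lf 0) (lf 20482))) (nd (lf 0) (nd (lf 0) (lf 20482)))))) (nd (nd (nd (lf 0) (nd (lf 0) (nd (lf 0) (lf 30788473606147)))) (nd (nd (lf 0) (nd (lf 0) (lf 412350443522))) (nd (lf 0) (nd (lf 0) (lf 516544872000627167234))))) (nd (lf 0) (nd (nd (lf 0) (nd (lf 0) (lf 20482))) (nd (lf 0) (nd (lf 0) (lf 20482))))))))

def p255 : Tr :=
  (nd (nd (nd (nd (nd (nd (lf 0) (nd (lf 0) (lf 290819))) (nd (lf 0) (nd (lf 0) (lf 34095108)))) (nd (nd (lf 0) (nd (lf 0) (lf 28674))) (nd (lf 0) (nd (lf 0) (lf 5125339688566851356071681123385513657298694973867921863726107963555835677360940426828245683551131815906934029881208835))))) (nd (nd (nd (lf 0) (nd (lf 0) (lf 16386))) (lf 0)) (nd (nd (lf 0) (nd (lf 0) (lf 540675))) (nd (lf 0) (nd (lf 0) (lf 9071021277186)))))) (nd (nd (nd (nd (lf 0) (nd (lf 0) (lf 16386))) (nd (lf 0) (nd (lf 0) (lf 32770)))) (nd (nd (lf 0) (nd (lf 0) (lf 540675))) (nd (lf 0) (nd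 (lf 0) (lf 41903463193527864072189973756919810))))) (nd (nd (nd (lf 0) (nd (lf 0) (lf 16386))) (lf 0)) (nd (lf 0) (nd (lf 0) (nd (lf 0) (lf 16386))))))) (nd (nd (nd (nd (nd (lf 0) (nd (lf 0) (lf 16386))) (nd (lf 0) (nd (lf 0) (lf 2417999250899701097578500)))) (nd (nd (lf 0) (nd (lf 0) (lf 28674))) (nd (lf 0) (nd (lf 0) (lf 822139283888551562454210829815535347831444357122))))) (nd (nd (nd (lf 0) (nd (lf 0) (lf 16386))) (lf 0)) (nd (nd (lf 0) (nd (lf 0) (lf 26390427090947))) (nd (lf 0) (nd (lf 0) (lf 442757895637069479938)))))) (nd (nd (nd (nd (lf 0) (nd (lf 0) (lf 16386))) (nd (lf 0) (nd (lf 0) (lf 32770)))) (nd (nd (lf 0) (nd (lf 0) (lf 30788473602051))) (nd (lf 0) (nd (lf 0) (lf 680606307713438515372607090636010045444))))) (nd (nd (nd (lf 0) (nd (lf 0) (lf 16386))) (lf 0)) (nd (lf 0) (nd (lf 0) (nd (lf 0) (lf 16386))))))))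

def p256 : Tr :=
  (nd (nd (nd (nd (nd (nd (lf 0) (nd (lf 0) (lf 16386))) (nd (lf 0) (nd (lf 0) (lf 548867)))) (nd (nd (lf 0) (nd (lf 0) (lf 540675))) (nd (lf 0) (nd (lf 0) (lf 4265067391449190495786392223531874956663189313488872564817291340360211908844691512400822274))))) (nd (nd (nd (lf 0) (nd (lf 0) (lf 16386))) (nd (lf 0) (nd (lf 0) (lf 117985284)))) (nd (nd (lf 0) (nd (lf 0) (lf 24578))) (nd (lf 0) (nd (lf 0) (lf 33209905066512484417538)))))) (nd (nd (nd (nd (lf 0) (nd (lf 0) (lf 16386))) (nd (lf 0) (nd (lf 0) (lf 23907034371931567575042)))) (nd (nd (lf 0) (nd (lf 0) (lf 540675))) (nd (lf 0) (nd (lf 0) (lf 3319532657297003249613604665754987334141667719724420385861025796))))) (nd (nd (nd (lf 0) (nd (lf 0) (lf 16386))) (nd (lf 0) (nd (lf 0) (lf 20482)))) (nd (nd (lf 0) (nd (lf 0) (lf 412350431234))) (nd (lf 0) (nd (lf 0) (lf 412350431234))))))) (nd (nd (nd (nd (nd (lf 0) (nd (lf 0) (lf 16386))) (nd (lf 0) (nd (lf 0) (lf 548867)))) (nd (nd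 (lf 0) (nd (lf 0) (lf 24578))) (nd (lf 0) (nd (lf 0) (lf 2591951131271305812011663362))))) (nd (nd (nd (lf 0) (nd (lf 0) (lf 16386))) (nd (lf 0) (nd (lf 0) (lf 117985284)))) (nd (nd (lf 0) (nd (lf 0) (lf 24578))) (nd (lf 0) (nd (lf 0) (lf 33209905066512484421634)))))) (nd (nd (nd (nd (lf 0) (nd (lf 0) (lf 16386))) (nd (lf 0) (nd (lf 0) (lf 516544872069346643970)))) (nd (nd (lf 0) (nd (lf 0) (lf 26390427090947))) (nd (lf 0) (nd (lf 0) (lf 639451579222188717800227038616422858557695213572))))) (nd (nd (nd (lf 0) (nd (lf 0) (lf 16386))) (nd (lf 0) (nd (lf 0) (lf 20482)))) (nd (nd (lf 0) (nd (lf 0) (lf 412350431234))) (nd (lf 0) (nd (lf 0) (lf 412350431234))))))))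

def p257 : Tr :=
  (nd (nd (nd (nd (nd (nd (lf 0) (nd (lf 0) (lf 16386))) (nd (lf 0) (nd (lf 0) (lf 24578)))) (nd (nd (lf 0) (nd (lf 0) (lf 540675))) (nd (lf 0) (nd (lf 0) (lf 50066273210531428969687608813858389642685086746024780470017272719391282623767074905265854234628))))) (nd (nd (nd (lf 0) (nd (lf 0) (lf 16386))) (nd (lf 0) (nd (lf 0) (lf 24578)))) (nd (nd (lf 0) (nd (lf 0) (lf 20482))) (nd (lf 0) (nd (lf 0) (lf 442757908558428524547)))))) (nd (nd (nd (nd (lf 0) (nd (lf 0) (lf 349875281901403568919043343675394))) (nd (lf 0) (nd (lf 0) (lf 24578)))) (nd (nd (lf 0) (nd (lf 0) (lf 286723))) (nd (lf 0) (nd (lf 0) (lf 839972646731819273982948200735708717522090630259692158475995029561293007181981818572344675185981681673))))) (nd (nd (nd (lf 0) (nd (lf 0) (lf 2596623837840059030121176692191234))) (nd (lf 0) (nd (lf 0) (lf 24578)))) (nd (nd (lf 0) (nd (lf 0) (lf 4810413723650))) (nd (lf 0) (nd (lf 0) (lf 2410603274123274073525151841367859296071287750753121357549571)))))))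 (nd (nd (nd (nd (nd (lf 0) (nd (lf 0) (lf 16386))) (nd (lf 0) (nd (lf 0) (lf 24578)))) (nd (nd (lf 0) (nd (lf 0) (lf 20482))) (nd (lf 0) (nd (lf 0) (lf 475407684325953077089657176068))))) (nd (nd (nd (lf 0) (nd (lf 0) (lf 16386))) (nd (lf 0) (nd (lf 0) (lf 24578)))) (nd (nd (lf 0) (nd (lf 0) (lf 20482))) (nd (lf 0) (nd (lf 0) (lf 6918092321225457666)))))) (nd (nd (nd (nd (lf 0) (nd (lf 0) (lf 28674))) (nd (lf 0) (nd (lf 0) (lf 24578)))) (nd (nd (lf 0) (nd (lf 0) (lf 343630962690))) (nd (lf 0) (nd (lf 0) (lf 412350435330))))) (nd (nd (nd (lf 0) (nd (lf 0) (lf 28674))) (nd (lf 0) (nd (lf 0) (lf 24578)))) (nd (nd (lf 0) (nd (lf 0) (lf 343630962690))) (nd (lf 0) (nd (lf 0) (lf 412350435330))))))))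

def p258 : Tr :=
  (nd (nd (nd (nd (nd (nd (lf 0) (nd (lf 0) (lf 17059844))) (nd (lf 0) (nd (lf 0) (lf 20482)))) (nd (nd (lf 0) (nd (lf 0) (lf 282627))) (nd (lf 0) (nd (lf 0) (lf 183497818174465412710778866534739498753288659206976268708516740763059577820836972839066960292311678987816964))))) (nd (nd (nd (lf 0) (nd (lf 0) (lf 18317868013993987))) (nd (lf 0) (nd (lf 0) (lf 20482)))) (nd (nd (lf 0) (nd (lf 0) (lf 4741694242818))) (nd (lf 0) (nd (lf 0) (lf 27225248159541927600998359047663664775171)))))) (nd (nd (nd (nd (lf 0) (nd (lf 0) (lf 20482))) (nd (lf 0) (nd (lf 0) (lf 20482)))) (nd (nd (lf 0) (nd (lf 0) (lf 282627))) (nd (lf 0) (nd (lf 0) (lf 1511304884803142668275715))))) (nd (nd (nd (lf 0) (nd (lf 0) (lf 20482))) (nd (lf 0) (nd (lf 0) (lf 20482)))) (nd (nd (lf 0) (nd (lf 0) (lf 282627))) (nd (lf 0) (nd (lf 0) (lf 1511304884803142668275715))))))) (nd (nd (nd (nd (lf 0) (nd (lf 0) (nd (lf 0) (lf 20482)))) (nd (nd (lf 0) (nd (lf 0) (lf 282627)))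 (nd (lf 0) (nd (lf 0) (lf 21992380321795))))) (nd (nd (lf 0) (nd (lf 0) (nd (lf 0) (lf 20482)))) (nd (nd (lf 0) (nd (lf 0) (lf 4741694242818))) (nd (lf 0) (nd (lf 0) (lf 368970915012904239106)))))) (nd (nd (nd (lf 0) (nd (lf 0) (nd (lf 0) (lf 20482)))) (nd (lf 0) (nd (lf 0) (nd (lf 0) (lf 20482))))) (nd (nd (lf 0) (nd (lf 0) (nd (lf 0) (lf 20482)))) (nd (lf 0) (nd (lf 0) (nd (lf 0) (lf 20482))))))))

def p259 : Tr :=
  (nd (nd (nd (nd (nd (nd (lf 0) (nd (lf 0) (lf 282627))) (nd (lf 0) (nd (lf 0) (lf 540675)))) (nd (nd (lf 0) (nd (lf 0) (lf 20482))) (nd (lf 0) (nd (lf 0) (lf 4511229655164449309312766165936496676555172167528513908050072672618475366903726689151495413103349763))))) (nd (nd (nd (lf 0) (nd (lf 0) (lf 278531))) (lf 0)) (nd (nd (lf 0) (nd (lf 0) (lf 16386))) (nd (lf 0) (nd (lf 0) (lf 17594333806595)))))) (nd (nd (nd (nd (lf 0) (nd (lf 0) (lf 4741694251010))) (nd (lf 0) (nd (lf 0) (lf 26390427090947)))) (nd (nd (lf 0) (nd (lf 0) (lf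 4810413723650))) (nd (lf 0) (nd (lf 0) (lf 510465099214451459303466621095010123779))))) (nd (nd (nd (lf 0) (nd (lf 0) (lf 278531))) (lf 0)) (nd (nd (lf 0) (nd (lf 0) (lf 16386))) (nd (lf 0) (nd (lf 0) (lf 17594333806595))))))) (nd (nd (nd (nd (lf 0) (nd (lf 0) (nd (lf 0) (lf 540675)))) (nd (nd (lf 0) (nd (lf 0) (lf 20482))) (nd (lf 0) (nd (lf 0) (lf 9071021277186))))) (nd (lf 0) (nd (nd (lf 0) (nd (lf 0) (lf 16386))) (nd (lf 0) (nd (lf 0) (lf 16386)))))) (nd (nd (nd (lf 0) (nd (lf 0) (nd (lf 0) (lf 26390427090947)))) (nd (nd (lf 0) (nd (lf 0) (lf 343630962690))) (nd (lf 0) (nd (lf 0) (lf 442757895637069479938))))) (nd (lf 0) (nd (nd (lf 0) (nd (lf 0) (lf 16386))) (nd (lf 0) (nd (lf 0) (lf 16386))))))))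

def p260 : Tr :=
  (nd (nd (nd (nd (nd (nd (lf 0) (nd (lf 0) (lf 24578))) (nd (lf 0) (nd (lf 0) (lf 1335299)))) (nd (nd (lf 0) (nd (lf 0) (lf 548867))) (nd (lf 0) (nd (lf 0) (lf 67139001402895175919995092315574252135999814847952290642487262714545558635611857837113346))))) (nd (nd (nd (lf 0) (nd (lf 0) (lf 24578))) (nd (lf 0) (nd (lf 0) (lf 1335299)))) (nd (nd (lf 0) (nd (lf 0) (lf 28674))) (nd (lf 0) (nd (lf 0) (lf 9527744440451960160258)))))) (nd (nd (nd (nd (lf 0) (nd (lf 0) (lf 16386))) (nd (lf 0) (nd (lf 0) (lf 2272184512348721360210429669822466)))) (nd (nd (lf 0) (nd (lf 0) (lf 540675))) (nd (lf 0) (nd (lf 0) (lf 222855208524732778406551598845338167597533885507751543151754243707441895754347246447509508))))) (nd (nd (nd (lf 0) (nd (lf 0) (lf 16386))) (nd (lf 0) (nd (lf 0) (lf 20482)))) (nd (nd (lf 0) (nd (lf 0) (lf 481069907970))) (nd (lf 0) (nd (lf 0) (lf 481069907970))))))) (nd (nd (nd (nd (nd (lf 0) (nd (lf 0) (lf 24578))) (nd (lf 0)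 (nd (lf 0) (lf 552963)))) (nd (nd (lf 0) (nd (lf 0) (lf 28674))) (nd (lf 0) (nd (lf 0) (lf 2611293945538061383413809154))))) (nd (nd (nd (lf 0) (nd (lf 0) (lf 24578))) (nd (lf 0) (nd (lf 0) (lf 32770)))) (nd (nd (lf 0) (nd (lf 0) (lf 28674))) (nd (lf 0) (nd (lf 0) (lf 9223935467878105090)))))) (nd (nd (nd (nd (lf 0) (nd (lf 0) (lf 16386))) (nd (lf 0) (nd (lf 0) (lf 2272184512348721360210429669822466)))) (nd (nd (lf 0) (nd (lf 0) (lf 30788473602051))) (nd (lf 0) (nd (lf 0) (lf 2812828184480608743014642975453789515769169969345572582739972))))) (nd (nd (nd (lf 0) (nd (lf 0) (lf 16386))) (nd (lf 0) (nd (lf 0) (lf 20482)))) (nd (nd (lf 0) (nd (lf 0) (lf 481069907970))) (nd (lf 0) (nd (lf 0) (lf 481069907970))))))))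

def p261 : Tr :=
  (nd (nd (nd (nd (nd (nd (lf 0) (nd (lf 0) (lf 16386))) (nd (lf 0) (nd (lf 0) (lf 34095108)))) (nd (nd (lf 0) (nd (lf 0) (lf 540675))) (nd (lf 0) (nd (lf 0) (lf 18206677169345769202145352719611355899093718996890580080029260780648061746440696529436813837791901270018))))) (nd (nd (nd (lf 0) (nd (lf 0) (lf 16386))) (lf 0)) (nd (nd (lf 0) (nd (lf 0) (lf 540675))) (nd (lf 0) (nd (lf 0) (lf 9071021277186)))))) (nd (nd (nd (nd (lf 0) (nd (lf 0) (lf 16386))) (nd (lf 0) (nd (lf 0) (lf 16386)))) (nd (nd (lf 0) (nd (lf 0) (lf 540675))) (nd (lf 0) (nd (lf 0) (lf 623355834793853003513858))))) (nd (nd (nd (lf 0) (nd (lf 0) (lf 16386))) (lf 0)) (nd (lf 0) (nd (lf 0) (nd (lf 0) (lf 16386))))))) (nd (nd (nd (nd (nd (lf 0) (nd (lf 0) (lf 16386))) (nd (lf 0) (nd (lf 0) (lf 37436378095042564)))) (nd (nd (lf 0) (nd (lf 0) (lf 21992380579843))) (nd (lf 0) (nd (lf 0) (lf 11314451017988120424395044005293959692290))))) (nd (nd (nd (lf 0) (nd (lf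 0) (lf 16386))) (lf 0)) (nd (nd (lf 0) (nd (lf 0) (lf 21992380579843))) (nd (lf 0) (nd (lf 0) (lf 368970919342231273474)))))) (nd (nd (nd (nd (lf 0) (nd (lf 0) (lf 16386))) (nd (lf 0) (nd (lf 0) (lf 16386)))) (nd (nd (lf 0) (nd (lf 0) (lf 540675))) (nd (lf 0) (nd (lf 0) (lf 623355835629344351862788))))) (nd (nd (nd (lf 0) (nd (lf 0) (lf 16386))) (lf 0)) (nd (lf 0) (nd (lf 0) (nd (lf 0) (lf 16386))))))))

def p262 : Tr :=
  (nd (nd (nd (nd (nd (nd (lf 0) (nd (lf 0) (lf 282627))) (nd (lf 0) (nd (lf 0) (lf 24578)))) (nd (nd (lf 0) (nd (lf 0) (lf 20482))) (nd (lf 0) (nd (lf 0) (lf 782285518914553577651368887716537338455110438917942637761725678148011770294809111173678780419))))) (nd (nd (nd (lf 0) (nd (lf 0) (lf 282627))) (nd (lf 0) (nd (lf 0) (lf 24578)))) (nd (nd (lf 0) (nd (lf 0) (lf 20482))) (nd (lf 0) (nd (lf 0) (lf 442757908558428524547)))))) (nd (nd (nd (nd (lf 0) (nd (lf 0) (lf 5091355438738057490434))) (nd (lf 0) (nd (lf 0) (lf 24578))))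 (nd (nd (lf 0) (nd (lf 0) (lf 286723))) (nd (lf 0) (nd (lf 0) (lf 165655395615438028980324733398232588130560465967705377001511999634948100))))) (nd (nd (nd (lf 0) (nd (lf 0) (lf 79552428517714063362))) (nd (lf 0) (nd (lf 0) (lf 24578)))) (nd (nd (lf 0) (nd (lf 0) (lf 4810413723650))) (nd (lf 0) (nd (lf 0) (lf 548107726471568654908511169156624738981999820802))))))) (nd (nd (nd (nd (nd (lf 0) (nd (lf 0) (lf 100954116))) (nd (lf 0) (nd (lf 0) (lf 24578)))) (nd (nd (lf 0) (nd (lf 0) (lf 20482))) (nd (lf 0) (nd (lf 0) (lf 1947269874999106129024222444679172))))) (nd (nd (nd (lf 0) (nd (lf 0) (lf 100954116))) (nd (lf 0) (nd (lf 0) (lf 24578)))) (nd (nd (lf 0) (nd (lf 0) (lf 20482))) (nd (lf 0) (nd (lf 0) (lf 33058872630609153650692)))))) (nd (nd (nd (nd (lf 0) (nd (lf 0) (lf 28674))) (nd (lf 0) (nd (lf 0) (lf 24578)))) (nd (nd (lf 0) (nd (lf 0) (lf 343630962690))) (nd (lf 0) (nd (lf 0) (lf 412350435330))))) (nd (nd (nd (lf 0) (nd (lf 0) (lf 28674)))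 (nd (lf 0) (nd (lf 0) (lf 24578)))) (nd (nd (lf 0) (nd (lf 0) (lf 343630962690))) (nd (lf 0) (nd (lf 0) (lf 412350435330))))))))

def p263 : Tr :=
  (nd (nd (nd (nd (nd (nd (lf 0) (nd (lf 0) (lf 282627))) (nd (lf 0) (nd (lf 0) (lf 544771)))) (nd (nd (lf 0) (nd (lf 0) (lf 20482))) (nd (lf 0) (nd (lf 0) (lf 4545405447771012557790955633205513907331312958285824562041324760830928122660049613530811450486181891))))) (nd (nd (nd (lf 0) (nd (lf 0) (lf 282627))) (lf 0)) (nd (nd (lf 0) (nd (lf 0) (lf 20482))) (nd (lf 0) (nd (lf 0) (lf 21992380321795)))))) (nd (nd (nd (nd (lf 0) (nd (lf 0) (lf 4741694242818))) (nd (lf 0) (nd (lf 0) (lf 9139740753922)))) (nd (nd (lf 0) (nd (lf 0) (lf 21992380579843))) (nd (lf 0) (nd (lf 0) (lf 176788297391234294313870963442523848706))))) (nd (nd (nd (lf 0) (nd (lf 0) (lf 4741694242818))) (lf 0)) (nd (nd (lf 0) (nd (lf 0) (lf 343630954498))) (nd (lf 0) (nd (lf 0) (lf 368970915012904239106))))))) (nd (nd (nd (nd (lf 0) (nd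 (lf 0) (nd (lf 0) (lf 544771)))) (nd (nd (lf 0) (nd (lf 0) (lf 20482))) (nd (lf 0) (nd (lf 0) (lf 9139740758018))))) (nd (lf 0) (nd (nd (lf 0) (nd (lf 0) (lf 20482))) (nd (lf 0) (nd (lf 0) (lf 20482)))))) (nd (nd (nd (lf 0) (nd (lf 0) (nd (lf 0) (lf 544771)))) (nd (nd (lf 0) (nd (lf 0) (lf 20482))) (nd (lf 0) (nd (lf 0) (lf 9139740758018))))) (nd (lf 0) (nd (nd (lf 0) (nd (lf 0) (lf 20482))) (nd (lf 0) (nd (lf 0) (lf 20482))))))))

def p264 : Tr :=
  (nd (nd (nd (nd (nd (nd (lf 0) (nd (lf 0) (lf 16386))) (nd (lf 0) (nd (lf 0) (lf 548867)))) (nd (nd (lf 0) (nd (lf 0) (lf 540675))) (nd (lf 0) (nd (lf 0) (lf 4265067391449190495786392223531874956663189313488872564817291340360211908844691512400822274))))) (nd (nd (nd (lf 0) (nd (lf 0) (lf 16386))) (nd (lf 0) (nd (lf 0) (lf 117985284)))) (nd (nd (lf 0) (nd (lf 0) (lf 24578))) (nd (lf 0) (nd (lf 0) (lf 33209905066512484417538)))))) (nd (nd (nd (nd (lf 0) (nd (lf 0) (lf 16386))) (nd (lf 0) (nd (lf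 0) (lf 2125433924239617035358210)))) (nd (nd (lf 0) (nd (lf 0) (lf 540675))) (nd (lf 0) (nd (lf 0) (lf 47398760380780739828364701659025522193523044168712048577834442571780))))) (nd (nd (nd (lf 0) (nd (lf 0) (lf 16386))) (nd (lf 0) (nd (lf 0) (lf 20482)))) (nd (nd (lf 0) (nd (lf 0) (lf 412350431234))) (nd (lf 0) (nd (lf 0) (lf 412350431234))))))) (nd (nd (nd (nd (nd (lf 0) (nd (lf 0) (lf 16386))) (nd (lf 0) (nd (lf 0) (lf 548867)))) (nd (nd (lf 0) (nd (lf 0) (lf 24578))) (nd (lf 0) (nd (lf 0) (lf 2591951131271305812011663362))))) (nd (nd (nd (lf 0) (nd (lf 0) (lf 16386))) (nd (lf 0) (nd (lf 0) (lf 117985284)))) (nd (nd (lf 0) (nd (lf 0) (lf 24578))) (nd (lf 0) (nd (lf 0) (lf 33209905066512484421634)))))) (nd (nd (nd (nd (lf 0) (nd (lf 0) (lf 16386))) (nd (lf 0) (nd (lf 0) (lf 2125433924239617035358210)))) (nd (nd (lf 0) (nd (lf 0) (lf 26390427090947))) (nd (lf 0) (nd (lf 0) (lf 2631159755671671475680903748399995234641371938181124))))) (nd (nd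 (nd (lf 0) (nd (lf 0) (lf 16386))) (nd (lf 0) (nd (lf 0) (lf 20482)))) (nd (nd (lf 0) (nd (lf 0) (lf 412350431234))) (nd (lf 0) (nd (lf 0) (lf 412350431234))))))))

def p265 : Tr :=
  (nd (nd (nd (nd (nd (nd (lf 0) (nd (lf 0) (lf 278531))) (nd (lf 0) (nd (lf 0) (lf 20482)))) (nd (nd (lf 0) (nd (lf 0) (lf 16386))) (nd (lf 0) (nd (lf 0) (lf 651915208658470436058887523728675147659250134875036429445085028520977213246138964938068344835))))) (nd (nd (nd (lf 0) (nd (lf 0) (lf 278531))) (nd (lf 0) (nd (lf 0) (lf 20482)))) (nd (nd (lf 0) (nd (lf 0) (lf 16386))) (nd (lf 0) (nd (lf 0) (lf 368970927865543802883)))))) (nd (nd (nd (nd (lf 0) (nd (lf 0) (lf 321124381293309985841154))) (nd (lf 0) (nd (lf 0) (lf 20482)))) (nd (nd (lf 0) (nd (lf 0) (lf 282627))) (nd (lf 0) (nd (lf 0) (lf 565446288293372065051225366367165790660260310820727379126262385145047965700))))) (nd (nd (nd (lf 0) (nd (lf 0) (lf 1818553889824849449213954))) (nd (lf 0) (nd (lf 0) (lf 20482))))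 (nd (nd (lf 0) (nd (lf 0) (lf 4741694242818))) (nd (lf 0) (nd (lf 0) (lf 1870904828470834063445118431387935111906974230659075))))))) (nd (nd (nd (nd (nd (lf 0) (nd (lf 0) (lf 100950020))) (nd (lf 0) (nd (lf 0) (lf 20482)))) (nd (nd (lf 0) (nd (lf 0) (lf 16386))) (nd (lf 0) (nd (lf 0) (lf 1622751301997866288125524652089348))))) (nd (nd (nd (lf 0) (nd (lf 0) (lf 100950020))) (nd (lf 0) (nd (lf 0) (lf 20482)))) (nd (nd (lf 0) (nd (lf 0) (lf 16386))) (nd (lf 0) (nd (lf 0) (lf 28336505866264531722244)))))) (nd (nd (nd (nd (lf 0) (nd (lf 0) (lf 24578))) (nd (lf 0) (nd (lf 0) (lf 20482)))) (nd (nd (lf 0) (nd (lf 0) (lf 274911481858))) (nd (lf 0) (nd (lf 0) (lf 343630954498))))) (nd (nd (nd (lf 0) (nd (lf 0) (lf 24578))) (nd (lf 0) (nd (lf 0) (lf 20482)))) (nd (nd (lf 0) (nd (lf 0) (lf 274911481858))) (nd (lf 0) (nd (lf 0) (lf 343630954498))))))))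

def p266 : Tr :=
  (nd (nd (nd (nd (nd (nd (lf 0) (nd (lf 0) (lf 32770))) (nd (lf 0) (nd (lf 0) (lf 40962)))) (nd (nd (lf 0) (nd (lf 0) (lf 548867))) (nd (lf 0) (nd (lf 0) (lf 20371355624045096000332724119812282838102369610774491734817004322752366676400020054226538499))))) (nd (nd (nd (lf 0) (nd (lf 0) (lf 24578))) (nd (lf 0) (nd (lf 0) (lf 40962)))) (nd (nd (lf 0) (nd (lf 0) (lf 36866))) (nd (lf 0) (nd (lf 0) (lf 737905831329967411203)))))) (nd (nd (nd (nd (lf 0) (nd (lf 0) (lf 84164114742299897858))) (nd (lf 0) (nd (lf 0) (lf 40962)))) (nd (nd (lf 0) (nd (lf 0) (lf 303107))) (nd (lf 0) (nd (lf 0) (lf 276083337165693987625036395148227598625273179942421023465600842962845700))))) (nd (nd (nd (lf 0) (nd (lf 0) (lf 84164114536141467650))) (nd (lf 0) (nd (lf 0) (lf 40962)))) (nd (nd (lf 0) (nd (lf 0) (lf 5085291646978))) (nd (lf 0) (nd (lf 0) (lf 913483135809611296447523801279600148690931564546))))))) (nd (nd (nd (nd (nd (lf 0) (nd (lf 0) (lf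 32770))) (nd (lf 0) (nd (lf 0) (lf 40962)))) (nd (nd (lf 0) (nd (lf 0) (lf 36866))) (nd (lf 0) (nd (lf 0) (lf 792320353272476921892367261700))))) (nd (nd (nd (lf 0) (nd (lf 0) (lf 24578))) (nd (lf 0) (nd (lf 0) (lf 40962)))) (nd (nd (lf 0) (nd (lf 0) (lf 36866))) (nd (lf 0) (nd (lf 0) (lf 11529778614530760706)))))) (nd (nd (nd (nd (lf 0) (nd (lf 0) (lf 45058))) (nd (lf 0) (nd (lf 0) (lf 40962)))) (nd (nd (lf 0) (nd (lf 0) (lf 618508886018))) (nd (lf 0) (nd (lf 0) (lf 687228358658))))) (nd (nd (nd (lf 0) (nd (lf 0) (lf 45058))) (nd (lf 0) (nd (lf 0) (lf 40962)))) (nd (nd (lf 0) (nd (lf 0) (lf 618508886018))) (nd (lf 0) (nd (lf 0) (lf 687228358658))))))))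

def p267 : Tr :=
  (nd (nd (nd (nd (nd (nd (lf 0) (nd (lf 0) (lf 24578))) (nd (lf 0) (nd (lf 0) (lf 552963)))) (nd (nd (lf 0) (nd (lf 0) (lf 540675))) (nd (lf 0) (nd (lf 0) (lf 67139001228266556658833950419084588871820579354524413600416932932200679698877517947486210))))) (nd (nd (nd (lf 0) (nd (lf 0) (lf 16386))) (nd (lf 0) (nd (lf 0) (lf 36866)))) (nd (nd (lf 0) (nd (lf 0) (lf 28674))) (nd (lf 0) (nd (lf 0) (lf 9527744440451960160258)))))) (nd (nd (nd (nd (lf 0) (nd (lf 0) (lf 16386))) (nd (lf 0) (nd (lf 0) (lf 737905801022580740098)))) (nd (nd (lf 0) (nd (lf 0) (lf 540675))) (nd (lf 0) (nd (lf 0) (lf 4414017731278909628126016997016379984830011401555357969562547332350838798031233875679840821538471940))))) (nd (nd (nd (lf 0) (nd (lf 0) (lf 16386))) (nd (lf 0) (nd (lf 0) (lf 20482)))) (nd (nd (lf 0) (nd (lf 0) (lf 481069907970))) (nd (lf 0) (nd (lf 0) (lf 481069907970))))))) (nd (nd (nd (nd (nd (lf 0) (nd (lf 0) (lf 24578))) (nd (lf 0) (nd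 (lf 0) (lf 552963)))) (nd (nd (lf 0) (nd (lf 0) (lf 28674))) (nd (lf 0) (nd (lf 0) (lf 2611293945538061383413809154))))) (nd (nd (nd (lf 0) (nd (lf 0) (lf 16386))) (nd (lf 0) (nd (lf 0) (lf 32770)))) (nd (nd (lf 0) (nd (lf 0) (lf 28674))) (nd (lf 0) (nd (lf 0) (lf 9223935467878105090)))))) (nd (nd (nd (nd (lf 0) (nd (lf 0) (lf 16386))) (nd (lf 0) (nd (lf 0) (lf 737905801022580740098)))) (nd (nd (lf 0) (nd (lf 0) (lf 30788473602051))) (nd (lf 0) (nd (lf 0) (lf 913483136306803611764254961529487182587937439748))))) (nd (nd (nd (lf 0) (nd (lf 0) (lf 16386))) (nd (lf 0) (nd (lf 0) (lf 20482)))) (nd (nd (lf 0) (nd (lf 0) (lf 481069907970))) (nd (lf 0) (nd (lf 0) (lf 481069907970))))))))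

def p268 : Tr :=
  (nd (nd (nd (nd (nd (nd (lf 0) (nd (lf 0) (lf 282627))) (nd (lf 0) (nd (lf 0) (lf 24578)))) (nd (nd (lf 0) (nd (lf 0) (lf 20482))) (nd (lf 0) (nd (lf 0) (lf 782285518914553577651368887716537338455110438917942637761725678148011770294809111173678780419))))) (nd (nd (nd (lf 0) (nd (lf 0) (lf 282627))) (nd (lf 0) (nd (lf 0) (lf 24578)))) (nd (nd (lf 0) (nd (lf 0) (lf 20482))) (nd (lf 0) (nd (lf 0) (lf 442757908558428524547)))))) (nd (nd (nd (nd (lf 0) (nd (lf 0) (lf 79552428517714063362))) (nd (lf 0) (nd (lf 0) (lf 24578)))) (nd (nd (lf 0) (nd (lf 0) (lf 286723))) (nd (lf 0) (nd (lf 0) (lf 17445549339523239054430265393689098196895171959364768977167826187364882489500636431749120427758868301740309114225178692235447743499747332))))) (nd (nd (nd (lf 0) (nd (lf 0) (lf 79552428517714063362))) (nd (lf 0) (nd (lf 0) (lf 24578)))) (nd (nd (lf 0) (nd (lf 0) (lf 4810413723650))) (nd (lf 0) (nd (lf 0) (lf 548107726471568654908511169156624738981999820802)))))))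 (nd (nd (nd (nd (nd (lf 0) (nd (lf 0) (lf 30788473352195))) (nd (lf 0) (nd (lf 0) (lf 24578)))) (nd (nd (lf 0) (nd (lf 0) (lf 20482))) (nd (lf 0) (nd (lf 0) (lf 412350435330))))) (nd (nd (nd (lf 0) (nd (lf 0) (lf 30788473352195))) (nd (lf 0) (nd (lf 0) (lf 24578)))) (nd (nd (lf 0) (nd (lf 0) (lf 20482))) (nd (lf 0) (nd (lf 0) (lf 442757891376461926402)))))) (nd (nd (nd (nd (lf 0) (nd (lf 0) (lf 28674))) (nd (lf 0) (nd (lf 0) (lf 24578)))) (nd (nd (lf 0) (nd (lf 0) (lf 343630962690))) (nd (lf 0) (nd (lf 0) (lf 412350435330))))) (nd (nd (nd (lf 0) (nd (lf 0) (lf 28674))) (nd (lf 0) (nd (lf 0) (lf 24578)))) (nd (nd (lf 0) (nd (lf 0) (lf 343630962690))) (nd (lf 0) (nd (lf 0) (lf 412350435330))))))))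

def p269 : Tr :=
  (nd (nd (nd (nd (nd (nd (lf 0) (nd (lf 0) (lf 20482))) (nd (lf 0) (nd (lf 0) (lf 548867)))) (nd (nd (lf 0) (nd (lf 0) (lf 544771))) (nd (lf 0) (nd (lf 0) (lf 4265067391449190495786392223531874956663189313488872564817615858933213149838230308543025154))))) (nd (nd (nd (lf 0) (nd (lf 0) (lf 20482))) (nd (lf 0) (nd (lf 0) (lf 9071021277186)))) (nd (nd (lf 0) (nd (lf 0) (lf 24578))) (nd (lf 0) (nd (lf 0) (lf 412350435330)))))) (nd (nd (nd (nd (lf 0) (nd (lf 0) (lf 20482))) (nd (lf 0) (nd (lf 0) (lf 516544872069346639874)))) (nd (nd (lf 0) (nd (lf 0) (lf 544771))) (nd (lf 0) (nd (lf 0) (lf 1003267184615076899337361231968788964163853206314381610455842311363565646948310266171396))))) (nd (nd (nd (lf 0) (nd (lf 0) (lf 20482))) (nd (lf 0) (nd (lf 0) (lf 16386)))) (nd (nd (lf 0) (nd (lf 0) (lf 412350435330))) (nd (lf 0) (nd (lf 0) (lf 412350435330))))))) (nd (nd (nd (nd (nd (lf 0) (nd (lf 0) (lf 20482))) (nd (lf 0) (nd (lf 0) (lf 548867))))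 (nd (nd (lf 0) (nd (lf 0) (lf 24578))) (nd (lf 0) (nd (lf 0) (lf 2591951131271305880731144194))))) (nd (nd (nd (lf 0) (nd (lf 0) (lf 20482))) (nd (lf 0) (nd (lf 0) (lf 9071021277186)))) (nd (nd (lf 0) (nd (lf 0) (lf 24578))) (nd (lf 0) (nd (lf 0) (lf 412350435330)))))) (nd (nd (nd (nd (lf 0) (nd (lf 0) (lf 20482))) (nd (lf 0) (nd (lf 0) (lf 516544872069346639874)))) (nd (nd (lf 0) (nd (lf 0) (lf 26390427095043))) (nd (lf 0) (nd (lf 0) (lf 639451579222188717800227043338789622902317142020))))) (nd (nd (nd (lf 0) (nd (lf 0) (lf 20482))) (nd (lf 0) (nd (lf 0) (lf 16386)))) (nd (nd (lf 0) (nd (lf 0) (lf 412350435330))) (nd (lf 0) (nd (lf 0) (lf 412350435330))))))))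

def p270 : Tr :=
  (nd (nd (nd (nd (nd (nd (lf 0) (nd (lf 0) (lf 307544189259221376712706))) (nd (lf 0) (nd (lf 0) (lf 118172720265695264437190660)))) (nd (nd (lf 0) (nd (lf 0) (lf 28674))) (nd (lf 0) (nd (lf 0) (lf 60198848264040354123092179889549422797268502898069811866914684389092771583329099154232155356088945621175255816245621437171801873277189105778298992835191272488182627962858881647074936489493704123538920104495071801930483957193136590871459074311574195518949747188123011867878191941541318078984433929006371515800277658545402589419898976808210690701148774791254090119989016812115538643139764953311250938859657092203741329395330204140082276217074863439121367132371328112337984661312755030654591167944743196012750042414526911776631453839609060192766284535642851810892388009760032376772152627425032990016801698496560))))) (nd (nd (nd (lf 0) (nd (lf 0) (lf 4741694242818))) (lf 0)) (nd (nd (lf 0) (nd (lf 0) (lf 21992380579843))) (nd (lf 0) (nd (lf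 0) (lf 396179507937484274957176291330)))))) (nd (nd (nd (nd (lf 0) (nd (lf 0) (lf 16386))) (nd (lf 0) (nd (lf 0) (lf 32770)))) (nd (nd (lf 0) (nd (lf 0) (lf 5312716367212352913411))) (nd (lf 0) (nd (lf 0) (lf 50219879629040862778920328402047302258116466211221443985412))))) (nd (nd (nd (lf 0) (nd (lf 0) (lf 16386))) (lf 0)) (nd (lf 0) (nd (lf 0) (nd (lf 0) (lf 16386))))))) (nd (nd (nd (nd (lf 0) (nd (lf 0) (nd (lf 0) (lf 35186520117251)))) (nd (nd (lf 0) (nd (lf 0) (lf 4947852677122))) (nd (lf 0) (nd (lf 0) (lf 633863995554064264238804783106))))) (nd (lf 0) (nd (nd (lf 0) (nd (lf 0) (lf 20482))) (nd (lf 0) (nd (lf 0) (lf 20482)))))) (nd (nd (nd (lf 0) (nd (lf 0) (nd (lf 0) (lf 32770)))) (nd (lf 0) (nd (lf 0) (nd (lf 0) (lf 32770))))) (lf 0))))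

def p271 : Tr :=
  (nd (nd (nd (nd (nd (nd (lf 0) (nd (lf 0) (lf 16386))) (nd (lf 0) (nd (lf 0) (lf 1970462310547460)))) (nd (nd (lf 0) (nd (lf 0) (lf 540675))) (nd (lf 0) (nd (lf 0) (lf 43942777916311650651810579459525674331700252558523256561667))))) (nd (nd (nd (lf 0) (nd (lf 0) (lf 16386))) (lf 0)) (nd (nd (lf 0) (nd (lf 0) (lf 343630954498))) (nd (lf 0) (nd (lf 0) (lf 343630954498)))))) (nd (nd (nd (nd (lf 0) (nd (lf 0) (lf 2596623837840059030121245411667970))) (nd (lf 0) (nd (lf 0) (lf 28674)))) (nd (nd (lf 0) (nd (lf 0) (lf 4879133204482))) (nd (lf 0) (nd (lf 0) (lf 303744242496407750276935257157591466501645796742177609648892501754667011))))) (lf 0))) (nd (nd (nd (nd (nd (lf 0) (nd (lf 0) (lf 16386))) (nd (lf 0) (nd (lf 0) (lf 30788473606147)))) (nd (nd (lf 0) (nd (lf 0) (lf 24578))) (nd (lf 0) (nd (lf 0) (lf 595535691023914260854938075382407512068))))) (nd (nd (nd (lf 0) (nd (lf 0) (lf 16386))) (lf 0)) (nd (nd (lf 0) (nd (lf 0) (lf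 343630954498))) (nd (lf 0) (nd (lf 0) (lf 343630954498)))))) (nd (nd (nd (nd (lf 0) (nd (lf 0) (lf 28674))) (nd (lf 0) (nd (lf 0) (lf 28674)))) (nd (nd (lf 0) (nd (lf 0) (lf 28336507837139057930248))) (nd (lf 0) (nd (lf 0) (lf 51957561103237429354498))))) (lf 0))))

def p272 : Tr :=
  (nd (nd (nd (nd (nd (nd (lf 0) (nd (lf 0) (lf 18317868013993987))) (nd (lf 0) (nd (lf 0) (lf 21992380579843)))) (nd (nd (lf 0) (nd (lf 0) (lf 4741694242818))) (nd (lf 0) (nd (lf 0) (lf 29232887960683817254720483500713024539468367151107))))) (nd (nd (nd (lf 0) (nd (lf 0) (lf 278531))) (lf 0)) (nd (nd (lf 0) (nd (lf 0) (lf 16386))) (nd (lf 0) (nd (lf 0) (lf 17594333806595)))))) (nd (nd (nd (nd (lf 0) (nd (lf 0) (lf 20482))) (nd (lf 0) (nd (lf 0) (lf 20482)))) (nd (nd (lf 0) (nd (lf 0) (lf 282627))) (nd (lf 0) (nd (lf 0) (lf 1511304884803142668275715))))) (lf 0))) (nd (nd (nd (nd (lf 0) (nd (lf 0) (nd (lf 0) (lf 21992380579843)))) (nd (nd (lf 0) (nd (lf 0) (lf 4741694242818)))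 (nd (lf 0) (nd (lf 0) (lf 396179507937484274957176291330))))) (nd (lf 0) (nd (nd (lf 0) (nd (lf 0) (lf 16386))) (nd (lf 0) (nd (lf 0) (lf 16386)))))) (nd (nd (nd (lf 0) (nd (lf 0) (nd (lf 0) (lf 20482)))) (nd (lf 0) (nd (lf 0) (nd (lf 0) (lf 20482))))) (lf 0))))

def p273 : Tr :=
  (nd (nd (nd (nd (nd (nd (lf 0) (nd (lf 0) (lf 4810413719554))) (nd (lf 0) (nd (lf 0) (lf 544771)))) (nd (nd (lf 0) (nd (lf 0) (lf 20482))) (nd (lf 0) (nd (lf 0) (lf 11519335574093601615407112844741681280610369509962694073016926210))))) (nd (nd (nd (lf 0) (nd (lf 0) (lf 4810413719554))) (nd (lf 0) (nd (lf 0) (lf 28674)))) (nd (nd (lf 0) (nd (lf 0) (lf 20482))) (nd (lf 0) (nd (lf 0) (lf 595535690715610343591821548178490015746)))))) (nd (nd (nd (nd (lf 0) (nd (lf 0) (lf 16386))) (nd (lf 0) (nd (lf 0) (lf 2272184512348647573233997392658434)))) (nd (nd (lf 0) (nd (lf 0) (lf 21992380579843))) (nd (lf 0) (nd (lf 0) (lf 193296080985774031656965881764483126371392743182573103605414254504067076)))))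 (nd (nd (nd (lf 0) (nd (lf 0) (lf 16386))) (nd (lf 0) (nd (lf 0) (lf 16386)))) (nd (nd (lf 0) (nd (lf 0) (lf 23614139383532258869256))) (nd (lf 0) (nd (lf 0) (lf 23614139383532258869256))))))) (nd (nd (nd (nd (lf 0) (nd (lf 0) (nd (lf 0) (lf 28674)))) (nd (nd (lf 0) (nd (lf 0) (lf 412350443522))) (nd (lf 0) (nd (lf 0) (lf 481069916162))))) (nd (nd (lf 0) (nd (lf 0) (nd (lf 0) (lf 28674)))) (nd (nd (lf 0) (nd (lf 0) (lf 412350443522))) (nd (lf 0) (nd (lf 0) (lf 481069916162)))))) (lf 0)))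

def p274 : Tr :=
  (nd (nd (nd (nd (nd (nd (lf 0) (nd (lf 0) (lf 4741694242818))) (nd (lf 0) (nd (lf 0) (lf 37436378095042564)))) (nd (nd (lf 0) (nd (lf 0) (lf 21992380579843))) (nd (lf 0) (nd (lf 0) (lf 12148799273613221234821588646804601923329304051714))))) (nd (nd (nd (lf 0) (nd (lf 0) (lf 4741694242818))) (lf 0)) (nd (nd (lf 0) (nd (lf 0) (lf 21992380579843))) (nd (lf 0) (nd (lf 0) (lf 396179507937484274957176291330)))))) (nd (nd (nd (nd (lf 0) (nd (lf 0) (lf 16386))) (nd (lf 0) (nd (lf 0) (lf 16386)))) (nd (nd (lf 0) (nd (lf 0) (lf 540675))) (nd (lf 0) (nd (lf 0) (lf 623355835629344351862788))))) (nd (nd (nd (lf 0) (nd (lf 0) (lf 16386))) (lf 0)) (nd (lf 0) (nd (lf 0) (nd (lf 0) (lf 16386))))))) (nd (nd (nd (nd (lf 0) (nd (lf 0) (nd (lf 0) (lf 544771)))) (nd (nd (lf 0) (nd (lf 0) (lf 20482))) (nd (lf 0) (nd (lf 0) (lf 9139740758018))))) (nd (lf 0) (nd (nd (lf 0) (nd (lf 0) (lf 20482))) (nd (lf 0) (nd (lf 0) (lf 20482)))))) (lf 0)))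

def p275 : Tr :=
  (nd (nd (nd (nd (nd (nd (lf 0) (nd (lf 0) (lf 16386))) (nd (lf 0) (nd (lf 0) (lf 1327107)))) (nd (nd (lf 0) (nd (lf 0) (lf 540675))) (nd (lf 0) (nd (lf 0) (lf 6918092321225457666))))) (lf 0)) (nd (nd (nd (nd (lf 0) (nd (lf 0) (lf 16386))) (nd (lf 0) (nd (lf 0) (lf 1327107)))) (nd (nd (lf 0) (nd (lf 0) (lf 4810413723650))) (nd (lf 0) (nd (lf 0) (lf 548107726471568654907349712201690171215976611842))))) (lf 0))) (nd (nd (nd (nd (nd (lf 0) (nd (lf 0) (lf 16386))) (nd (lf 0) (nd (lf 0) (lf 1855491)))) (nd (nd (lf 0) (nd (lf 0) (lf 20482))) (nd (lf 0) (nd (lf 0) (lf 475407665956454744394938990594))))) (lf 0)) (nd (nd (nd (nd (lf 0) (nd (lf 0) (lf 16386))) (nd (lf 0) (nd (lf 0) (lf 24578)))) (nd (nd (lf 0) (nd (lf 0) (lf 303740154302466))) (nd (lf 0) (nd (lf 0) (lf 7976017097312064949254086204143452162))))) (lf 0))))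

def p276 : Tr :=
  (nd (nd (nd (nd (nd (nd (lf 0) (nd (lf 0) (lf 278531))) (nd (lf 0) (nd (lf 0) (lf 20482)))) (nd (nd (lf 0) (nd (lf 0) (lf 16386))) (nd (lf 0) (nd (lf 0) (lf 368970927865543802883))))) (lf 0)) (nd (nd (nd (nd (lf 0) (nd (lf 0) (lf 4672974770178))) (nd (lf 0) (nd (lf 0) (lf 20482)))) (nd (nd (lf 0) (nd (lf 0) (lf 4741694242818))) (nd (lf 0) (nd (lf 0) (lf 396179503288904781235008847875))))) (lf 0))) (nd (nd (nd (nd (lf 0) (nd (lf 0) (nd (lf 0) (lf 20482)))) (nd (nd (lf 0) (nd (lf 0) (lf 16386))) (nd (lf 0) (nd (lf 0) (lf 23614138556699547549698))))) (lf 0)) (nd (nd (nd (lf 0) (nd (lf 0) (nd (lf 0) (lf 20482)))) (nd (nd (lf 0) (nd (lf 0) (lf 274911481858))) (nd (lf 0) (nd (lf 0) (lf 343630954498))))) (lf 0))))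

def p277 : Tr :=
  (nd (nd (nd (nd (nd (nd (lf 0) (nd (lf 0) (lf 278531))) (nd (lf 0) (nd (lf 0) (lf 20482)))) (nd (nd (lf 0) (nd (lf 0) (lf 16386))) (nd (lf 0) (nd (lf 0) (lf 368970927865543802883))))) (lf 0)) (nd (nd (nd (nd (lf 0) (nd (lf 0) (lf 5017568457634953322499))) (nd (lf 0) (nd (lf 0) (lf 20482)))) (nd (nd (lf 0) (nd (lf 0) (lf 4741694242818))) (nd (lf 0) (nd (lf 0) (lf 396179503288904781235008847875))))) (lf 0))) (nd (nd (nd (nd (nd (lf 0) (nd (lf 0) (lf 26390426836995))) (nd (lf 0) (nd (lf 0) (lf 20482)))) (nd (nd (lf 0) (nd (lf 0) (lf 16386))) (nd (lf 0) (nd (lf 0) (lf 23614138556699547549698))))) (lf 0)) (nd (nd (nd (nd (lf 0) (nd (lf 0) (lf 24578))) (nd (lf 0) (nd (lf 0) (lf 20482)))) (nd (nd (lf 0) (nd (lf 0) (lf 274911481858))) (nd (lf 0) (nd (lf 0) (lf 343630954498))))) (lf 0))))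

def p278 : Tr :=
  (nd (nd (nd (nd (nd (nd (lf 0) (nd (lf 0) (lf 17055748))) (nd (lf 0) (nd (lf 0) (lf 16386)))) (nd (nd (lf 0) (nd (lf 0) (lf 278531))) (nd (lf 0) (nd (lf 0) (lf 1209073412707723442929668))))) (lf 0)) (nd (nd (nd (nd (lf 0) (nd (lf 0) (lf 16386))) (nd (lf 0) (nd (lf 0) (lf 16386)))) (nd (nd (lf 0) (nd (lf 0) (lf 278531))) (nd (lf 0) (nd (lf 0) (lf 1209073429895087328083971))))) (lf 0))) (nd (nd (nd (nd (lf 0) (nd (lf 0) (nd (lf 0) (lf 16386)))) (nd (nd (lf 0) (nd (lf 0) (lf 278531))) (nd (lf 0) (nd (lf 0) (lf 17594333806595))))) (lf 0)) (nd (nd (nd (lf 0) (nd (lf 0) (nd (lf 0) (lf 16386)))) (nd (lf 0) (nd (lf 0) (nd (lf 0) (lf 16386))))) (lf 0))))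

def p279 : Tr :=
  (nd (nd (nd (nd (nd (nd (lf 0) (nd (lf 0) (lf 16386))) (nd (lf 0) (nd (lf 0) (lf 1327107)))) (nd (nd (lf 0) (nd (lf 0) (lf 540675))) (nd (lf 0) (nd (lf 0) (lf 1344066148098025703986587634017887828810039579292604037224106859035597898164837362944541873223965333913235631976046439972868))))) (nd (nd (nd (lf 0) (nd (lf 0) (lf 16386))) (nd (lf 0) (nd (lf 0) (lf 24578)))) (nd (nd (lf 0) (nd (lf 0) (lf 307866478067715))) (nd (lf 0) (nd (lf 0) (lf 8564183226118260232945487018072261747416252418)))))) (lf 0)) (nd (nd (nd (nd (nd (lf 0) (nd (lf 0) (lf 16386))) (nd (lf 0) (nd (lf 0) (lf 24578)))) (nd (nd (lf 0) (nd (lf 0) (lf 2559666291228675))) (nd (lf 0) (nd (lf 0) (lf 8564183564988327480087370622977566026093838340))))) (nd (nd (nd (lf 0) (nd (lf 0) (lf 16386))) (nd (lf 0) (nd (lf 0) (lf 24578)))) (nd (nd (lf 0) (nd (lf 0) (lf 303740154302466))) (nd (lf 0) (nd (lf 0) (lf 7976017097312064949254086204143452162)))))) (lf 0)))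

def p280 : Tr :=
  (nd (nd (nd (nd (nd (nd (lf 0) (nd (lf 0) (lf 4672974770178))) (nd (lf 0) (nd (lf 0) (lf 20482)))) (nd (nd (lf 0) (nd (lf 0) (lf 282627))) (nd (lf 0) (nd (lf 0) (lf 103856080872232722532261962194374660))))) (nd (nd (nd (lf 0) (nd (lf 0) (lf 4672974770178))) (nd (lf 0) (nd (lf 0) (lf 20482)))) (nd (nd (lf 0) (nd (lf 0) (lf 4741694242818))) (nd (lf 0) (nd (lf 0) (lf 396179503288904781235008847875)))))) (lf 0)) (nd (nd (nd (nd (lf 0) (nd (lf 0) (nd (lf 0) (lf 20482)))) (nd (nd (lf 0) (nd (lf 0) (lf 274911481858))) (nd (lf 0) (nd (lf 0) (lf 343630954498))))) (nd (nd (lf 0) (nd (lf 0) (nd (lf 0) (lf 20482)))) (nd (nd (lf 0) (nd (lf 0) (lf 274911481858))) (nd (lf 0) (nd (lf 0) (lf 343630954498)))))) (lf 0)))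

def p281 : Tr :=
  (nd (nd (nd (nd (nd (nd (lf 0) (nd (lf 0) (lf 16386))) (nd (lf 0) (nd (lf 0) (lf 9139740753922)))) (nd (nd (lf 0) (nd (lf 0) (lf 540675))) (nd (lf 0) (nd (lf 0) (lf 46343991370308328707822015806884555770052612))))) (nd (nd (nd (lf 0) (nd (lf 0) (lf 16386))) (lf 0)) (nd (nd (lf 0) (nd (lf 0) (lf 343630954498))) (nd (lf 0) (nd (lf 0) (lf 343630954498)))))) (lf 0)) (nd (nd (nd (nd (nd (lf 0) (nd (lf 0) (lf 16386))) (nd (lf 0) (nd (lf 0) (lf 9139740753922)))) (nd (nd (lf 0) (nd (lf 0) (lf 21992380579843))) (nd (lf 0) (nd (lf 0) (lf 164646932288291206875695824898))))) (nd (nd (nd (lf 0) (nd (lf 0) (lf 16386))) (lf 0)) (nd (nd (lf 0) (nd (lf 0) (lf 343630954498))) (nd (lf 0) (nd (lf 0) (lf 343630954498)))))) (lf 0)))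

def p282 : Tr :=
  (nd (nd (nd (nd (nd (nd (lf 0) (nd (lf 0) (lf 278531))) (nd (lf 0) (nd (lf 0) (lf 540675)))) (nd (nd (lf 0) (nd (lf 0) (lf 16386))) (nd (lf 0) (nd (lf 0) (lf 9739934931708505505795))))) (nd (nd (nd (lf 0) (nd (lf 0) (lf 278531))) (lf 0)) (nd (nd (lf 0) (nd (lf 0) (lf 16386))) (nd (lf 0) (nd (lf 0) (lf 17594333806595)))))) (lf 0)) (nd (nd (nd (nd (lf 0) (nd (lf 0) (nd (lf 0) (lf 540675)))) (nd (nd (lf 0) (nd (lf 0) (lf 16386))) (nd (lf 0) (nd (lf 0) (lf 9071021277186))))) (nd (lf 0) (nd (nd (lf 0) (nd (lf 0) (lf 16386))) (nd (lf 0) (nd (lf 0) (lf 16386)))))) (lf 0)))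

def p283 : Tr :=
  (nd (nd (nd (nd (nd (nd (lf 0) (nd (lf 0) (lf 1593347))) (nd (lf 0) (nd (lf 0) (lf 544771)))) (nd (nd (lf 0) (nd (lf 0) (lf 20482))) (nd (lf 0) (nd (lf 0) (lf 116066329181140887961354242))))) (nd (nd (nd (lf 0) (nd (lf 0) (lf 1593347))) (nd (lf 0) (nd (lf 0) (lf 24578)))) (nd (nd (lf 0) (nd (lf 0) (lf 20482))) (nd (lf 0) (nd (lf 0) (lf 7428244779327439055022473218)))))) (nd (nd (nd (nd (lf 0) (nd (lf 0) (lf 2121731))) (nd (lf 0) (nd (lf 0) (lf 24578)))) (nd (nd (lf 0) (nd (lf 0) (lf 21992380579843))) (nd (lf 0) (nd (lf 0) (lf 548107748159252958725592956913762554297088229380))))) (nd (nd (nd (lf 0) (nd (lf 0) (lf 16386))) (nd (lf 0) (nd (lf 0) (lf 24578)))) (nd (nd (lf 0) (nd (lf 0) (lf 303740154302466))) (nd (lf 0) (nd (lf 0) (lf 510465094233038788110893080837628116994))))))) (lf 0))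

def p284 : Tr :=
  (nd (nd (nd (nd (nd (nd (lf 0) (nd (lf 0) (lf 16386))) (nd (lf 0) (nd (lf 0) (lf 548867)))) (nd (nd (lf 0) (nd (lf 0) (lf 24578))) (nd (lf 0) (nd (lf 0) (lf 2591951131271305812011663362))))) (nd (nd (nd (lf 0) (nd (lf 0) (lf 16386))) (nd (lf 0) (nd (lf 0) (lf 9139740758018)))) (nd (nd (lf 0) (nd (lf 0) (lf 24578))) (nd (lf 0) (nd (lf 0) (lf 412350431234)))))) (nd (nd (nd (nd (lf 0) (nd (lf 0) (lf 16386))) (nd (lf 0) (nd (lf 0) (lf 9887508875843588870146)))) (nd (nd (lf 0) (nd (lf 0) (lf 26390427090947))) (nd (lf 0) (nd (lf 0) (lf 165884872401363563445433155586))))) (nd (nd (nd (lf 0) (nd (lf 0) (lf 16386))) (nd (lf 0) (nd (lf 0) (lf 20482)))) (nd (nd (lf 0) (nd (lf 0) (lf 412350431234))) (nd (lf 0) (nd (lf 0) (lf 412350431234))))))) (lf 0))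

def p285 : Tr :=
  (nd (nd (nd (nd (nd (nd (lf 0) (nd (lf 0) (lf 16386))) (nd (lf 0) (nd (lf 0) (lf 544771)))) (nd (nd (lf 0) (nd (lf 0) (lf 20482))) (nd (lf 0) (nd (lf 0) (lf 2572608317004550240609517570))))) (nd (nd (nd (lf 0) (nd (lf 0) (lf 16386))) (lf 0)) (nd (nd (lf 0) (nd (lf 0) (lf 20482))) (nd (lf 0) (nd (lf 0) (lf 343630954498)))))) (nd (nd (nd (nd (lf 0) (nd (lf 0) (lf 16386))) (nd (lf 0) (nd (lf 0) (lf 9139740753922)))) (nd (nd (lf 0) (nd (lf 0) (lf 21992380579843))) (nd (lf 0) (nd (lf 0) (lf 164646932288291206875695824898))))) (nd (nd (nd (lf 0) (nd (lf 0) (lf 16386))) (lf 0)) (nd (nd (lf 0) (nd (lf 0) (lf 343630954498))) (nd (lf 0) (nd (lf 0) (lf 343630954498))))))) (lf 0))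

def p286 : Tr :=
  (nd (nd (nd (nd (nd (nd (lf 0) (nd (lf 0) (lf 16386))) (nd (lf 0) (nd (lf 0) (lf 34095108)))) (nd (nd (lf 0) (nd (lf 0) (lf 540675))) (nd (lf 0) (nd (lf 0) (lf 614202862744898289811458))))) (nd (nd (nd (lf 0) (nd (lf 0) (lf 16386))) (lf 0)) (nd (nd (lf 0) (nd (lf 0) (lf 540675))) (nd (lf 0) (nd (lf 0) (lf 9071021277186)))))) (nd (nd (nd (nd (lf 0) (nd (lf 0) (lf 16386))) (nd (lf 0) (nd (lf 0) (lf 16386)))) (nd (nd (lf 0) (nd (lf 0) (lf 540675))) (nd (lf 0) (nd (lf 0) (lf 623355835629344351862788))))) (nd (nd (nd (lf 0) (nd (lf 0) (lf 16386))) (lf 0)) (nd (lf 0) (nd (lf 0) (nd (lf 0) (lf 16386))))))) (lf 0))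

def p287 : Tr :=
  (nd (nd (nd (nd (nd (nd (lf 0) (nd (lf 0) (lf 20482))) (nd (lf 0) (nd (lf 0) (lf 2417999250899701097578500)))) (nd (nd (lf 0) (nd (lf 0) (lf 544771))) (nd (lf 0) (nd (lf 0) (lf 60663171851339812738869229935323394324928013841458471794012034723843))))) (nd (nd (nd (lf 0) (nd (lf 0) (lf 20482))) (lf 0)) (nd (nd (lf 0) (nd (lf 0) (lf 442757895637069484034))) (nd (lf 0) (nd (lf 0) (lf 7428244850808572271927513090)))))) (nd (nd (nd (nd (lf 0) (nd (lf 0) (lf 81858271526927765506))) (nd (lf 0) (nd (lf 0) (lf 32770)))) (nd (nd (lf 0) (nd (lf 0) (lf 5312716367212352913411))) (nd (lf 0) (nd (lf 0) (lf 53923185153946779370771622169093275660909292360289350544942309064708))))) (nd (nd (nd (lf 0) (nd (lf 0) (lf 16386))) (lf 0)) (nd (lf 0) (nd (lf 0) (nd (lf 0) (lf 16386))))))) (nd (nd (nd (nd (nd (lf 0) (nd (lf 0) (lf 20482))) (nd (lf 0) (nd (lf 0) (lf 35186520121347)))) (nd (nd (lf 0) (nd (lf 0) (lf 28674))) (nd (lf 0) (nd (lf 0) (lf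 765676874563611659823256481036457496580))))) (nd (nd (nd (lf 0) (nd (lf 0) (lf 20482))) (lf 0)) (nd (nd (lf 0) (nd (lf 0) (lf 412350435330))) (nd (lf 0) (nd (lf 0) (lf 412350435330)))))) (nd (nd (nd (nd (lf 0) (nd (lf 0) (lf 36866))) (nd (lf 0) (nd (lf 0) (lf 32770)))) (nd (nd (lf 0) (nd (lf 0) (lf 481069924354))) (nd (lf 0) (nd (lf 0) (lf 549789396994))))) (lf 0))))

def p288 : Tr :=
  (nd (nd (nd (nd (nd (nd (lf 0) (nd (lf 0) (lf 24578))) (nd (lf 0) (nd (lf 0) (lf 552963)))) (nd (nd (lf 0) (nd (lf 0) (lf 548867))) (nd (lf 0) (nd (lf 0) (lf 72089953640377172730427102620992943263806167749373048450900043861316454834566733835750799449284610))))) (nd (nd (nd (lf 0) (nd (lf 0) (lf 20482))) (lf 0)) (nd (nd (lf 0) (nd (lf 0) (lf 28674))) (nd (lf 0) (nd (lf 0) (lf 30788473352195)))))) (nd (nd (nd (nd (lf 0) (nd (lf 0) (lf 24578))) (nd (lf 0) (nd (lf 0) (lf 1433766384398339)))) (nd (nd (lf 0) (nd (lf 0) (lf 5386503343507191119875))) (nd (lf 0) (nd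 (lf 0) (lf 65136584760526110192416739325795032898920278149002889829251471402381101522946))))) (nd (nd (nd (lf 0) (nd (lf 0) (lf 4879133196290))) (lf 0)) (nd (nd (lf 0) (nd (lf 0) (lf 481069907970))) (nd (lf 0) (nd (lf 0) (lf 516544867740019605506))))))) (nd (nd (nd (nd (nd (lf 0) (nd (lf 0) (lf 24578))) (nd (lf 0) (nd (lf 0) (lf 552963)))) (nd (nd (lf 0) (nd (lf 0) (lf 28674))) (nd (lf 0) (nd (lf 0) (lf 2611293945538061520852770818))))) (nd (nd (nd (lf 0) (nd (lf 0) (lf 20482))) (lf 0)) (nd (nd (lf 0) (nd (lf 0) (lf 28674))) (nd (lf 0) (nd (lf 0) (lf 481069912066)))))) (nd (nd (nd (nd (lf 0) (nd (lf 0) (lf 24578))) (nd (lf 0) (nd (lf 0) (lf 39584566636547)))) (nd (nd (lf 0) (nd (lf 0) (lf 303877593264130))) (nd (lf 0) (nd (lf 0) (lf 765676874642839794376868207773385515010))))) (nd (lf 0) (nd (nd (lf 0) (nd (lf 0) (lf 28674))) (nd (lf 0) (nd (lf 0) (lf 28674))))))))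

def p289 : Tr :=
  (nd (nd (nd (nd (nd (nd (lf 0) (nd (lf 0) (lf 282627))) (nd (lf 0) (nd (lf 0) (lf 26390427090947)))) (nd (nd (lf 0) (nd (lf 0) (lf 20482))) (nd (lf 0) (nd (lf 0) (lf 475407670451748629801406320643))))) (nd (nd (nd (lf 0) (nd (lf 0) (lf 278531))) (lf 0)) (nd (nd (lf 0) (nd (lf 0) (lf 16386))) (nd (lf 0) (nd (lf 0) (lf 17594333806595)))))) (nd (nd (nd (nd (lf 0) (nd (lf 0) (lf 4741694251010))) (nd (lf 0) (nd (lf 0) (lf 24578)))) (nd (nd (lf 0) (nd (lf 0) (lf 4810413723650))) (nd (lf 0) (nd (lf 0) (lf 475407665876956099521437519875))))) (lf 0))) (nd (nd (nd (nd (lf 0) (nd (lf 0) (nd (lf 0) (lf 26390427090947)))) (nd (nd (lf 0) (nd (lf 0) (lf 20482))) (nd (lf 0) (nd (lf 0) (lf 442757895637069484034))))) (nd (lf 0) (nd (nd (lf 0) (nd (lf 0) (lf 16386))) (nd (lf 0) (nd (lf 0) (lf 16386)))))) (nd (nd (nd (lf 0) (nd (lf 0) (nd (lf 0) (lf 24578)))) (nd (nd (lf 0) (nd (lf 0) (lf 343630962690))) (nd (lf 0) (nd (lf 0) (lf 412350435330)))))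 (lf 0))))

def p290 : Tr :=
  (nd (nd (nd (nd (nd (nd (lf 0) (nd (lf 0) (lf 286723))) (nd (lf 0) (nd (lf 0) (lf 2115767795714568827191300)))) (nd (nd (lf 0) (nd (lf 0) (lf 24578))) (nd (lf 0) (nd (lf 0) (lf 156116108188107638518086544878677076545396739))))) (nd (nd (nd (lf 0) (nd (lf 0) (lf 4741694242818))) (lf 0)) (nd (nd (lf 0) (nd (lf 0) (lf 21992380579843))) (nd (lf 0) (nd (lf 0) (lf 396179507937484274957176291330)))))) (nd (nd (nd (nd (lf 0) (nd (lf 0) (lf 80705350022320914434))) (nd (lf 0) (nd (lf 0) (lf 28674)))) (nd (nd (lf 0) (nd (lf 0) (lf 5238929386519468195843))) (nd (lf 0) (nd (lf 0) (lf 47183198487061039707398107652625734479639640744721480230340223582212))))) (nd (nd (nd (lf 0) (nd (lf 0) (lf 16386))) (lf 0)) (nd (lf 0) (nd (lf 0) (nd (lf 0) (lf 16386))))))) (nd (nd (nd (nd (nd (lf 0) (nd (lf 0) (lf 35186519867395))) (nd (lf 0) (nd (lf 0) (lf 30788473606147)))) (nd (nd (lf 0) (nd (lf 0) (lf 24578))) (nd (lf 0) (nd (lf 0) (lf 516544872000627171330)))))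 (nd (lf 0) (nd (nd (lf 0) (nd (lf 0) (lf 20482))) (nd (lf 0) (nd (lf 0) (lf 20482)))))) (nd (nd (nd (nd (lf 0) (nd (lf 0) (lf 32770))) (nd (lf 0) (nd (lf 0) (lf 28674)))) (nd (nd (lf 0) (nd (lf 0) (lf 412350443522))) (nd (lf 0) (nd (lf 0) (lf 481069916162))))) (lf 0))))

def p291 : Tr :=
  (nd (nd (nd (nd (nd (nd (lf 0) (nd (lf 0) (lf 307617976235653653872642))) (nd (lf 0) (nd (lf 0) (lf 548867)))) (nd (nd (lf 0) (nd (lf 0) (lf 24578))) (nd (lf 0) (nd (lf 0) (lf 730795431555370150187957024923331153595493011458))))) (nd (nd (nd (lf 0) (nd (lf 0) (lf 4879133196290))) (nd (lf 0) (nd (lf 0) (lf 32770)))) (nd (nd (lf 0) (nd (lf 0) (lf 24578))) (nd (lf 0) (nd (lf 0) (lf 680606282447082899570737556674888880130)))))) (nd (nd (nd (nd (lf 0) (nd (lf 0) (lf 16386))) (nd (lf 0) (nd (lf 0) (lf 664118824659023056898)))) (nd (nd (lf 0) (nd (lf 0) (lf 5386503339109144608771))) (nd (lf 0) (nd (lf 0) (lf 60663171820832519039717111640536297660931088449943506695746864300036)))))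 (nd (nd (nd (lf 0) (nd (lf 0) (lf 16386))) (nd (lf 0) (nd (lf 0) (lf 20482)))) (nd (nd (lf 0) (nd (lf 0) (lf 412350431234))) (nd (lf 0) (nd (lf 0) (lf 412350431234))))))) (nd (nd (nd (nd (lf 0) (nd (lf 0) (nd (lf 0) (lf 32770)))) (nd (nd (lf 0) (nd (lf 0) (lf 84164114742299885570))) (nd (lf 0) (nd (lf 0) (lf 11142065406810073960976248834))))) (nd (nd (lf 0) (nd (lf 0) (nd (lf 0) (lf 32770)))) (nd (nd (lf 0) (nd (lf 0) (lf 481069924354))) (nd (lf 0) (nd (lf 0) (lf 549789396994)))))) (nd (nd (nd (lf 0) (nd (lf 0) (nd (lf 0) (lf 36866)))) (nd (lf 0) (nd (lf 0) (nd (lf 0) (lf 36866))))) (lf 0))))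

def p292 : Tr :=
  (nd (nd (nd (nd (nd (nd (lf 0) (nd (lf 0) (lf 24578))) (nd (lf 0) (nd (lf 0) (lf 552963)))) (nd (nd (lf 0) (nd (lf 0) (lf 548867))) (nd (lf 0) (nd (lf 0) (lf 1165382499590749796050216279606747965805362909788897128038975940504322914200598685964014591660535415345155))))) (nd (nd (nd (lf 0) (nd (lf 0) (lf 24578))) (nd (lf 0) (nd (lf 0) (lf 40962)))) (nd (nd (lf 0) (nd (lf 0) (lf 28674))) (nd (lf 0) (nd (lf 0) (lf 703193594354365764312497424016406927663106)))))) (nd (nd (nd (nd (lf 0) (nd (lf 0) (lf 84164114536141471746))) (nd (lf 0) (nd (lf 0) (lf 811692777317418946562)))) (nd (nd (lf 0) (nd (lf 0) (lf 5534077296096867532803))) (nd (lf 0) (nd (lf 0) (lf 79610595915401259203602147111201005722726984343638629215098676717355423776772))))) (nd (nd (nd (lf 0) (nd (lf 0) (lf 16386))) (nd (lf 0) (nd (lf 0) (lf 20482)))) (nd (nd (lf 0) (nd (lf 0) (lf 481069907970))) (nd (lf 0) (nd (lf 0) (lf 481069907970))))))) (nd (nd (nd (nd (nd (lf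 0) (nd (lf 0) (lf 24578))) (nd (lf 0) (nd (lf 0) (lf 40962)))) (nd (nd (lf 0) (nd (lf 0) (lf 36866))) (nd (lf 0) (nd (lf 0) (lf 267619844711038655777888088619189300930043908))))) (nd (nd (nd (lf 0) (nd (lf 0) (lf 24578))) (nd (lf 0) (nd (lf 0) (lf 40962)))) (nd (nd (lf 0) (nd (lf 0) (lf 303877593268226))) (nd (lf 0) (nd (lf 0) (lf 13292929080490414070555747298834407426)))))) (nd (nd (nd (nd (lf 0) (nd (lf 0) (lf 49154))) (nd (lf 0) (nd (lf 0) (lf 45058)))) (nd (nd (lf 0) (nd (lf 0) (lf 618508890114))) (nd (lf 0) (nd (lf 0) (lf 755947835394))))) (lf 0))))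

def p293 : Tr :=
  (nd (nd (nd (nd (nd (nd (lf 0) (nd (lf 0) (lf 307396615306562980827138))) (nd (lf 0) (nd (lf 0) (lf 20482)))) (nd (nd (lf 0) (nd (lf 0) (lf 282627))) (nd (lf 0) (nd (lf 0) (lf 111514617709242674444276858131285388107726851))))) (nd (nd (nd (lf 0) (nd (lf 0) (lf 4672974770178))) (nd (lf 0) (nd (lf 0) (lf 20482)))) (nd (nd (lf 0) (nd (lf 0) (lf 4741694242818))) (nd (lf 0) (nd (lf 0) (lf 396179503288904781235008847875)))))) (nd (nd (nd (nd (lf 0) (nd (lf 0) (lf 24578))) (nd (lf 0) (nd (lf 0) (lf 24578)))) (nd (nd (lf 0) (nd (lf 0) (lf 286723))) (nd (lf 0) (nd (lf 0) (lf 1813536339711198008467459))))) (lf 0))) (nd (nd (nd (nd (lf 0) (nd (lf 0) (nd (lf 0) (lf 20482)))) (nd (nd (lf 0) (nd (lf 0) (lf 80705350022320902146))) (nd (lf 0) (nd (lf 0) (lf 7428245067593004045605814274))))) (nd (nd (lf 0) (nd (lf 0) (nd (lf 0) (lf 20482)))) (nd (nd (lf 0) (nd (lf 0) (lf 274911481858))) (nd (lf 0) (nd (lf 0) (lf 343630954498)))))) (nd (nd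 (nd (lf 0) (nd (lf 0) (nd (lf 0) (lf 24578)))) (nd (lf 0) (nd (lf 0) (nd (lf 0) (lf 24578))))) (lf 0))))

def p294 : Tr :=
  (nd (nd (nd (nd (nd (nd (lf 0) (nd (lf 0) (lf 20482))) (nd (lf 0) (nd (lf 0) (lf 632800568041067270656002)))) (nd (nd (lf 0) (nd (lf 0) (lf 544771))) (nd (lf 0) (nd (lf 0) (lf 46692440513406382244025369160462099225792516))))) (nd (nd (nd (lf 0) (nd (lf 0) (lf 20482))) (lf 0)) (nd (nd (lf 0) (nd (lf 0) (lf 442757895637069484034))) (nd (lf 0) (nd (lf 0) (lf 7428244850808572271927513090)))))) (nd (nd (nd (nd (lf 0) (nd (lf 0) (lf 16386))) (nd (lf 0) (nd (lf 0) (lf 16386)))) (nd (nd (lf 0) (nd (lf 0) (lf 540675))) (nd (lf 0) (nd (lf 0) (lf 623355835629344351862788))))) (nd (nd (nd (lf 0) (nd (lf 0) (lf 16386))) (lf 0)) (nd (lf 0) (nd (lf 0) (nd (lf 0) (lf 16386))))))) (nd (nd (nd (nd (nd (lf 0) (nd (lf 0) (lf 20482))) (nd (lf 0) (nd (lf 0) (lf 9208460234754)))) (nd (nd (lf 0) (nd (lf 0) (lf 26390427095043))) (nd (lf 0) (nd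 (lf 0) (lf 165884872401363563514152636418))))) (nd (nd (nd (lf 0) (nd (lf 0) (lf 20482))) (lf 0)) (nd (nd (lf 0) (nd (lf 0) (lf 412350435330))) (nd (lf 0) (nd (lf 0) (lf 412350435330)))))) (lf 0)))

def p295 : Tr :=
  (nd (nd (nd (nd (nd (nd (lf 0) (nd (lf 0) (lf 282627))) (nd (lf 0) (nd (lf 0) (lf 544771)))) (nd (nd (lf 0) (nd (lf 0) (lf 20482))) (nd (lf 0) (nd (lf 0) (lf 71021960121422071215483681904727458140708699853911060774151992016862428969619134271667711145955331))))) (nd (nd (nd (lf 0) (nd (lf 0) (lf 282627))) (nd (lf 0) (nd (lf 0) (lf 28674)))) (nd (nd (lf 0) (nd (lf 0) (lf 20482))) (nd (lf 0) (nd (lf 0) (lf 516544884853266731011)))))) (nd (nd (nd (nd (lf 0) (nd (lf 0) (lf 303468432617475))) (nd (lf 0) (nd (lf 0) (lf 28674)))) (nd (nd (lf 0) (nd (lf 0) (lf 5386503334711098097667))) (nd (lf 0) (nd (lf 0) (lf 4806231635651659668383209227839881480434055952708029384494961372308273503800310639689215808913412))))) (nd (nd (nd (lf 0) (nd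 (lf 0) (lf 4741694242818))) (nd (lf 0) (nd (lf 0) (lf 28674)))) (nd (nd (lf 0) (nd (lf 0) (lf 303740154302466))) (nd (lf 0) (nd (lf 0) (lf 595535685958206772618105151672436146178))))))) (nd (nd (nd (nd (lf 0) (nd (lf 0) (nd (lf 0) (lf 544771)))) (nd (nd (lf 0) (nd (lf 0) (lf 20482))) (nd (lf 0) (nd (lf 0) (lf 9139740758018))))) (nd (nd (lf 0) (nd (lf 0) (nd (lf 0) (lf 32770)))) (nd (nd (lf 0) (nd (lf 0) (lf 20482))) (nd (lf 0) (nd (lf 0) (lf 549789388802)))))) (nd (nd (nd (lf 0) (nd (lf 0) (nd (lf 0) (lf 39584566628355)))) (nd (nd (lf 0) (nd (lf 0) (lf 343630974978))) (nd (lf 0) (nd (lf 0) (lf 664118824590303580162))))) (nd (lf 0) (nd (nd (lf 0) (nd (lf 0) (lf 20482))) (nd (lf 0) (nd (lf 0) (lf 20482))))))))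

def p296 : Tr :=
  (nd (nd (nd (nd (nd (nd (lf 0) (nd (lf 0) (lf 307544189259358815666178))) (nd (lf 0) (nd (lf 0) (lf 548867)))) (nd (nd (lf 0) (nd (lf 0) (lf 24578))) (nd (lf 0) (nd (lf 0) (lf 46692440595823949975776695789755321282478082))))) (nd (nd (nd (lf 0) (nd (lf 0) (lf 4879133196290))) (nd (lf 0) (nd (lf 0) (lf 9139740758018)))) (nd (nd (lf 0) (nd (lf 0) (lf 24578))) (nd (lf 0) (nd (lf 0) (lf 442757891445181399042)))))) (nd (nd (nd (nd (lf 0) (nd (lf 0) (lf 16386))) (nd (lf 0) (nd (lf 0) (lf 590331848364184850434)))) (nd (nd (lf 0) (nd (lf 0) (lf 5312716362814306402307))) (nd (lf 0) (nd (lf 0) (lf 53923185153946779376434940981761385191053947940690920619793269145604))))) (nd (nd (nd (lf 0) (nd (lf 0) (lf 16386))) (nd (lf 0) (nd (lf 0) (lf 20482)))) (nd (nd (lf 0) (nd (lf 0) (lf 412350431234))) (nd (lf 0) (nd (lf 0) (lf 412350431234))))))) (nd (nd (nd (nd (lf 0) (nd (lf 0) (nd (lf 0) (lf 35186520125443)))) (nd (nd (lf 0) (nd (lf 0)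 (lf 4947852685314))) (nd (lf 0) (nd (lf 0) (lf 633863995701638216828481204226))))) (nd (lf 0) (nd (nd (lf 0) (nd (lf 0) (lf 28674))) (nd (lf 0) (nd (lf 0) (lf 28674)))))) (nd (nd (nd (lf 0) (nd (lf 0) (nd (lf 0) (lf 32770)))) (nd (lf 0) (nd (lf 0) (nd (lf 0) (lf 32770))))) (lf 0))))

def p297 : Tr :=
  (nd (nd (nd (nd (nd (nd (lf 0) (nd (lf 0) (lf 4810413719554))) (nd (lf 0) (nd (lf 0) (lf 544771)))) (nd (nd (lf 0) (nd (lf 0) (lf 20482))) (nd (lf 0) (nd (lf 0) (lf 164646932288291202615088267266))))) (nd (nd (nd (lf 0) (nd (lf 0) (lf 4810413719554))) (lf 0)) (nd (nd (lf 0) (nd (lf 0) (lf 20482))) (nd (lf 0) (nd (lf 0) (lf 368970915081623715842)))))) (nd (nd (nd (nd (lf 0) (nd (lf 0) (lf 16386))) (nd (lf 0) (nd (lf 0) (lf 9139740753922)))) (nd (nd (lf 0) (nd (lf 0) (lf 21992380579843))) (nd (lf 0) (nd (lf 0) (lf 164646932288291206875695824898))))) (nd (nd (nd (lf 0) (nd (lf 0) (lf 16386))) (lf 0)) (nd (nd (lf 0) (nd (lf 0) (lf 343630954498)))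 (nd (lf 0) (nd (lf 0) (lf 343630954498))))))) (nd (nd (nd (nd (lf 0) (nd (lf 0) (nd (lf 0) (lf 548867)))) (nd (nd (lf 0) (nd (lf 0) (lf 24578))) (nd (lf 0) (nd (lf 0) (lf 9208460238850))))) (nd (lf 0) (nd (nd (lf 0) (nd (lf 0) (lf 24578))) (nd (lf 0) (nd (lf 0) (lf 24578)))))) (lf 0)))

def p298 : Tr :=
  (nd (nd (nd (nd (nd (nd (lf 0) (nd (lf 0) (lf 282627))) (nd (lf 0) (nd (lf 0) (lf 544771)))) (nd (nd (lf 0) (nd (lf 0) (lf 20482))) (nd (lf 0) (nd (lf 0) (lf 4545405447771012557790955633205513907331312958285824562041324760830928122660049613530811450486181891))))) (nd (nd (nd (lf 0) (nd (lf 0) (lf 282627))) (lf 0)) (nd (nd (lf 0) (nd (lf 0) (lf 20482))) (nd (lf 0) (nd (lf 0) (lf 21992380321795)))))) (nd (nd (nd (nd (lf 0) (nd (lf 0) (lf 4741694242818))) (nd (lf 0) (nd (lf 0) (lf 26390427095043)))) (nd (nd (lf 0) (nd (lf 0) (lf 21992380579843))) (nd (lf 0) (nd (lf 0) (lf 40443211844800876974013474308702434049505200365788508732539642855428)))))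 (nd (nd (nd (lf 0) (nd (lf 0) (lf 4741694242818))) (lf 0)) (nd (nd (lf 0) (nd (lf 0) (lf 343630954498))) (nd (lf 0) (nd (lf 0) (lf 368970915012904239106))))))) (nd (nd (nd (nd (lf 0) (nd (lf 0) (nd (lf 0) (lf 544771)))) (nd (nd (lf 0) (nd (lf 0) (lf 20482))) (nd (lf 0) (nd (lf 0) (lf 9139740758018))))) (nd (lf 0) (nd (nd (lf 0) (nd (lf 0) (lf 20482))) (nd (lf 0) (nd (lf 0) (lf 20482)))))) (nd (nd (nd (lf 0) (nd (lf 0) (nd (lf 0) (lf 544771)))) (nd (nd (lf 0) (nd (lf 0) (lf 20482))) (nd (lf 0) (nd (lf 0) (lf 9139740758018))))) (nd (lf 0) (nd (nd (lf 0) (nd (lf 0) (lf 20482))) (nd (lf 0) (nd (lf 0) (lf 20482))))))))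

def p299 : Tr :=
  (nd (nd (nd (nd (nd (nd (lf 0) (nd (lf 0) (lf 282627))) (nd (lf 0) (nd (lf 0) (lf 544771)))) (nd (nd (lf 0) (nd (lf 0) (lf 20482))) (nd (lf 0) (nd (lf 0) (lf 4545405447771012557790955633205513907331312958285824562041324760830928122660049613530811450486181891))))) (nd (nd (nd (lf 0) (nd (lf 0) (lf 282627))) (lf 0)) (nd (nd (lf 0) (nd (lf 0) (lf 20482))) (nd (lf 0) (nd (lf 0) (lf 21992380321795)))))) (nd (nd (nd (nd (lf 0) (nd (lf 0) (lf 4741694242818))) (nd (lf 0) (nd (lf 0) (lf 26390427095043)))) (nd (nd (lf 0) (nd (lf 0) (lf 5165142405826583478275))) (nd (lf 0) (nd (lf 0) (lf 43425568028213386675197268932808891333736950651147555540320945738033872257028))))) (nd (nd (nd (lf 0) (nd (lf 0) (lf 4741694242818))) (lf 0)) (nd (nd (lf 0) (nd (lf 0) (lf 20482))) (nd (lf 0) (nd (lf 0) (lf 368970915012904239106))))))) (nd (nd (nd (nd (lf 0) (nd (lf 0) (nd (lf 0) (lf 544771)))) (nd (nd (lf 0) (nd (lf 0) (lf 20482))) (nd (lf 0) (nd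 (lf 0) (lf 9139740758018))))) (nd (lf 0) (nd (nd (lf 0) (nd (lf 0) (lf 20482))) (nd (lf 0) (nd (lf 0) (lf 20482)))))) (nd (nd (nd (lf 0) (nd (lf 0) (nd (lf 0) (lf 26390427095043)))) (nd (nd (lf 0) (nd (lf 0) (lf 343630962690))) (nd (lf 0) (nd (lf 0) (lf 442757895705788960770))))) (nd (lf 0) (nd (nd (lf 0) (nd (lf 0) (lf 20482))) (nd (lf 0) (nd (lf 0) (lf 20482))))))))

def p300 : Tr :=
  (nd (nd (nd (nd (nd (nd (lf 0) (nd (lf 0) (lf 16386))) (nd (lf 0) (nd (lf 0) (lf 2251937287258116)))) (nd (nd (lf 0) (nd (lf 0) (lf 540675))) (nd (lf 0) (nd (lf 0) (lf 50219879657544337970414498750801649162026980525709461843971))))) (nd (nd (nd (lf 0) (nd (lf 0) (lf 16386))) (lf 0)) (nd (nd (lf 0) (nd (lf 0) (lf 412350431234))) (nd (lf 0) (nd (lf 0) (lf 412350431234)))))) (nd (nd (nd (nd (lf 0) (nd (lf 0) (lf 81858271595647242242))) (nd (lf 0) (nd (lf 0) (lf 32770)))) (nd (nd (lf 0) (nd (lf 0) (lf 4947852685314))) (nd (lf 0) (nd (lf 0) (lf 730795431140589975678017485218112443836465696770)))))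 (lf 0))) (nd (nd (nd (nd (nd (lf 0) (nd (lf 0) (lf 16386))) (nd (lf 0) (nd (lf 0) (lf 35186520121347)))) (nd (nd (lf 0) (nd (lf 0) (lf 28674))) (nd (lf 0) (nd (lf 0) (lf 765676874563611659823256199561480781828))))) (nd (nd (nd (lf 0) (nd (lf 0) (lf 16386))) (lf 0)) (nd (nd (lf 0) (nd (lf 0) (lf 412350431234))) (nd (lf 0) (nd (lf 0) (lf 412350431234)))))) (nd (nd (nd (nd (lf 0) (nd (lf 0) (lf 36866))) (nd (lf 0) (nd (lf 0) (lf 32770)))) (nd (nd (lf 0) (nd (lf 0) (lf 481069924354))) (nd (lf 0) (nd (lf 0) (lf 549789396994))))) (lf 0))))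

def p301 : Tr :=
  (nd (nd (nd (nd (nd (nd (lf 0) (nd (lf 0) (lf 20482))) (nd (lf 0) (nd (lf 0) (lf 154751952021547947926503434)))) (nd (nd (lf 0) (nd (lf 0) (lf 544771))) (nd (lf 0) (nd (lf 0) (lf 784685619649130280787726542981275768080578751410158456834))))) (nd (nd (nd (lf 0) (nd (lf 0) (lf 16386))) (lf 0)) (nd (nd (lf 0) (nd (lf 0) (lf 412350431234))) (nd (lf 0) (nd (lf 0) (lf 412350431234)))))) (nd (nd (nd (nd (lf 0) (nd (lf 0) (lf 20482))) (nd (lf 0) (nd (lf 0) (lf 1331203)))) (nd (nd (lf 0) (nd (lf 0) (lf 4947852685314))) (nd (lf 0) (nd (lf 0) (lf 730795431140589975674399490852452839938257342466))))) (lf 0))) (nd (nd (nd (nd (nd (lf 0) (nd (lf 0) (lf 20482))) (nd (lf 0) (nd (lf 0) (lf 35186520121347)))) (nd (nd (lf 0) (nd (lf 0) (lf 28674))) (nd (lf 0) (nd (lf 0) (lf 680606282833377043957412547703538728964))))) (nd (nd (nd (lf 0) (nd (lf 0) (lf 16386))) (lf 0)) (nd (nd (lf 0) (nd (lf 0) (lf 412350431234))) (nd (lf 0) (nd (lf 0) (lf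 412350431234)))))) (nd (nd (nd (nd (lf 0) (nd (lf 0) (lf 20482))) (nd (lf 0) (nd (lf 0) (lf 32770)))) (nd (nd (lf 0) (nd (lf 0) (lf 303808873787394))) (nd (lf 0) (nd (lf 0) (lf 10634473088901239510481377538152091650))))) (lf 0))))

def p302 : Tr :=
  (nd (nd (nd (nd (nd (nd (lf 0) (nd (lf 0) (lf 16386))) (nd (lf 0) (nd (lf 0) (lf 1327107)))) (nd (nd (lf 0) (nd (lf 0) (lf 540675))) (nd (lf 0) (nd (lf 0) (lf 19558736657399016075960119121033011920932467113271285204599442357487553428236810799202335773460160426649235775491))))) (nd (nd (nd (lf 0) (nd (lf 0) (lf 16386))) (nd (lf 0) (nd (lf 0) (lf 28674)))) (nd (nd (lf 0) (nd (lf 0) (lf 312264524578819))) (nd (lf 0) (nd (lf 0) (lf 9991430918844989301457255111149712935911178242)))))) (nd (nd (nd (nd (lf 0) (nd (lf 0) (lf 1818701463777576564588546))) (nd (lf 0) (nd (lf 0) (lf 32770)))) (nd (nd (lf 0) (nd (lf 0) (lf 4947852681218))) (nd (lf 0) (nd (lf 0) (lf 242445857690099323840301270341689011911585347649429507)))))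 (lf 0))) (nd (nd (nd (nd (nd (lf 0) (nd (lf 0) (lf 16386))) (nd (lf 0) (nd (lf 0) (lf 28674)))) (nd (nd (lf 0) (nd (lf 0) (lf 24578))) (nd (lf 0) (nd (lf 0) (lf 43558803693660141155403727288307045384196))))) (nd (nd (nd (lf 0) (nd (lf 0) (lf 16386))) (nd (lf 0) (nd (lf 0) (lf 28674)))) (nd (nd (lf 0) (nd (lf 0) (lf 303740154302466))) (nd (lf 0) (nd (lf 0) (lf 9305245093096980822157893264423796738)))))) (nd (nd (nd (nd (lf 0) (nd (lf 0) (lf 32770))) (nd (lf 0) (nd (lf 0) (lf 32770)))) (nd (nd (lf 0) (nd (lf 0) (lf 26390429204483))) (nd (lf 0) (nd (lf 0) (lf 44530271281154))))) (lf 0))))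

def p303 : Tr :=
  (nd (nd (nd (nd (nd (nd (lf 0) (nd (lf 0) (lf 4879133196290))) (nd (lf 0) (nd (lf 0) (lf 548867)))) (nd (nd (lf 0) (nd (lf 0) (lf 24578))) (nd (lf 0) (nd (lf 0) (lf 13164840132947303289771823220168039196258632478039430351932112898))))) (nd (nd (nd (lf 0) (nd (lf 0) (lf 4879133196290))) (nd (lf 0) (nd (lf 0) (lf 32770)))) (nd (nd (lf 0) (nd (lf 0) (lf 24578))) (nd (lf 0) (nd (lf 0) (lf 680606282447082899570737556674888880130)))))) (nd (nd (nd (nd (lf 0) (nd (lf 0) (lf 16386))) (nd (lf 0) (nd (lf 0) (lf 664118824659023056898)))) (nd (nd (lf 0) (nd (lf 0) (lf 26390427090947))) (nd (lf 0) (nd (lf 0) (lf 822139283888551582575687642705958236014686781444))))) (nd (nd (nd (lf 0) (nd (lf 0) (lf 16386))) (nd (lf 0) (nd (lf 0) (lf 20482)))) (nd (nd (lf 0) (nd (lf 0) (lf 412350431234))) (nd (lf 0) (nd (lf 0) (lf 412350431234))))))) (nd (nd (nd (nd (lf 0) (nd (lf 0) (nd (lf 0) (lf 32770)))) (nd (nd (lf 0) (nd (lf 0) (lf 481069924354)))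 (nd (lf 0) (nd (lf 0) (lf 549789396994))))) (nd (nd (lf 0) (nd (lf 0) (nd (lf 0) (lf 32770)))) (nd (nd (lf 0) (nd (lf 0) (lf 481069924354))) (nd (lf 0) (nd (lf 0) (lf 549789396994)))))) (lf 0)))

def p304 : Tr :=
  (nd (nd (nd (nd (nd (nd (lf 0) (nd (lf 0) (lf 282627))) (nd (lf 0) (nd (lf 0) (lf 544771)))) (nd (nd (lf 0) (nd (lf 0) (lf 20482))) (nd (lf 0) (nd (lf 0) (lf 4545405447771012557790955633205513907331312958285824562041324760830928122660049613530811450486181891))))) (nd (nd (nd (lf 0) (nd (lf 0) (lf 282627))) (lf 0)) (nd (nd (lf 0) (nd (lf 0) (lf 20482))) (nd (lf 0) (nd (lf 0) (lf 21992380321795)))))) (nd (nd (nd (nd (lf 0) (nd (lf 0) (lf 4741694242818))) (nd (lf 0) (nd (lf 0) (lf 26390427095043)))) (nd (nd (lf 0) (nd (lf 0) (lf 5165142405826583478275))) (nd (lf 0) (nd (lf 0) (lf 43425568028213386675197268932808891333736950651147555540320945738033872257028))))) (nd (nd (nd (lf 0) (nd (lf 0) (lf 4741694242818))) (lf 0)) (nd (nd (lf 0)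 (nd (lf 0) (lf 343630954498))) (nd (lf 0) (nd (lf 0) (lf 368970915012904239106))))))) (nd (nd (nd (nd (lf 0) (nd (lf 0) (nd (lf 0) (lf 544771)))) (nd (nd (lf 0) (nd (lf 0) (lf 20482))) (nd (lf 0) (nd (lf 0) (lf 9139740758018))))) (nd (lf 0) (nd (nd (lf 0) (nd (lf 0) (lf 20482))) (nd (lf 0) (nd (lf 0) (lf 20482)))))) (nd (nd (nd (lf 0) (nd (lf 0) (nd (lf 0) (lf 26390427095043)))) (nd (nd (lf 0) (nd (lf 0) (lf 20482))) (nd (lf 0) (nd (lf 0) (lf 442757895705788960770))))) (nd (lf 0) (nd (nd (lf 0) (nd (lf 0) (lf 20482))) (nd (lf 0) (nd (lf 0) (lf 20482))))))))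

def p305 : Tr :=
  (nd (nd (nd (nd (nd (nd (lf 0) (nd (lf 0) (lf 4810413719554))) (nd (lf 0) (nd (lf 0) (lf 544771)))) (nd (nd (lf 0) (nd (lf 0) (lf 20482))) (nd (lf 0) (nd (lf 0) (lf 971393782325128933813566968606394379436469886080117937239519459577892771527223427074))))) (nd (nd (nd (lf 0) (nd (lf 0) (lf 4810413719554))) (nd (lf 0) (nd (lf 0) (lf 28674)))) (nd (nd (lf 0) (nd (lf 0) (lf 20482))) (nd (lf 0) (nd (lf 0) (lf 680606282447082899496950580311331192834)))))) (nd (nd (nd (nd (lf 0) (nd (lf 0) (lf 2125827))) (nd (lf 0) (nd (lf 0) (lf 28674)))) (nd (nd (lf 0) (nd (lf 0) (lf 21992380579843))) (nd (lf 0) (nd (lf 0) (lf 639451605936952261848338679094890444803520610308))))) (nd (nd (nd (lf 0) (nd (lf 0) (lf 16386))) (nd (lf 0) (nd (lf 0) (lf 28674)))) (nd (nd (lf 0) (nd (lf 0) (lf 303740154302466))) (nd (lf 0) (nd (lf 0) (lf 595535685963292746789850566762365468674))))))) (nd (nd (nd (nd (lf 0) (nd (lf 0) (nd (lf 0) (lf 32770)))) (nd (nd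 (lf 0) (nd (lf 0) (lf 412350447618))) (nd (lf 0) (nd (lf 0) (lf 549789392898))))) (nd (nd (lf 0) (nd (lf 0) (nd (lf 0) (lf 32770)))) (nd (nd (lf 0) (nd (lf 0) (lf 412350447618))) (nd (lf 0) (nd (lf 0) (lf 549789392898)))))) (lf 0)))

def p306 : Tr :=
  (nd (nd (nd (nd (nd (nd (lf 0) (nd (lf 0) (lf 282627))) (nd (lf 0) (nd (lf 0) (lf 544771)))) (nd (nd (lf 0) (nd (lf 0) (lf 20482))) (nd (lf 0) (nd (lf 0) (lf 4545405447771012557790955633205513907331312958285824562041324760830928122660049613530811450486181891))))) (nd (nd (nd (lf 0) (nd (lf 0) (lf 282627))) (lf 0)) (nd (nd (lf 0) (nd (lf 0) (lf 20482))) (nd (lf 0) (nd (lf 0) (lf 21992380321795)))))) (nd (nd (nd (nd (lf 0) (nd (lf 0) (lf 4741694242818))) (nd (lf 0) (nd (lf 0) (lf 26390427095043)))) (nd (nd (lf 0) (nd (lf 0) (lf 4810413723650))) (nd (lf 0) (nd (lf 0) (lf 40443211820175300049690811077690045820440055512799668069209219284994))))) (nd (nd (nd (lf 0) (nd (lf 0) (lf 282627))) (lf 0))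 (nd (nd (lf 0) (nd (lf 0) (lf 20482))) (nd (lf 0) (nd (lf 0) (lf 21992380321795))))))) (nd (nd (nd (nd (lf 0) (nd (lf 0) (nd (lf 0) (lf 544771)))) (nd (nd (lf 0) (nd (lf 0) (lf 20482))) (nd (lf 0) (nd (lf 0) (lf 9139740758018))))) (nd (lf 0) (nd (nd (lf 0) (nd (lf 0) (lf 20482))) (nd (lf 0) (nd (lf 0) (lf 20482)))))) (nd (nd (nd (lf 0) (nd (lf 0) (nd (lf 0) (lf 26390427095043)))) (nd (nd (lf 0) (nd (lf 0) (lf 343630962690))) (nd (lf 0) (nd (lf 0) (lf 442757895705788960770))))) (nd (lf 0) (nd (nd (lf 0) (nd (lf 0) (lf 20482))) (nd (lf 0) (nd (lf 0) (lf 20482))))))))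

def p307 : Tr :=
  (nd (nd (nd (nd (nd (nd (lf 0) (nd (lf 0) (lf 20482))) (nd (lf 0) (nd (lf 0) (lf 548867)))) (nd (nd (lf 0) (nd (lf 0) (lf 544771))) (nd (lf 0) (nd (lf 0) (lf 80084325262424844646137581435303955731760863124435014963750590810275274247903884117466376705313353674021386972581892))))) (nd (nd (nd (lf 0) (nd (lf 0) (lf 20482))) (nd (lf 0) (nd (lf 0) (lf 32770)))) (nd (nd (lf 0) (nd (lf 0) (lf 24578))) (nd (lf 0) (nd (lf 0) (lf 703023453165834692679850513263626297561090)))))) (nd (nd (nd (nd (lf 0) (nd (lf 0) (lf 16386))) (nd (lf 0) (nd (lf 0) (lf 2125360137263322197147650)))) (nd (nd (lf 0) (nd (lf 0) (lf 26390427090947))) (nd (lf 0) (nd (lf 0) (lf 168388378356437650831905025157966598431182831900704772))))) (nd (nd (nd (lf 0) (nd (lf 0) (lf 16386))) (nd (lf 0) (nd (lf 0) (lf 16386)))) (nd (nd (lf 0) (nd (lf 0) (lf 26390427615235))) (nd (lf 0) (nd (lf 0) (lf 26390427615235))))))) (nd (nd (nd (nd (nd (lf 0) (nd (lf 0) (lf 20482)))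 (nd (lf 0) (nd (lf 0) (lf 32770)))) (nd (nd (lf 0) (nd (lf 0) (lf 2568462384254979))) (nd (lf 0) (nd (lf 0) (lf 11418679120541440843877980841765836332991008772))))) (nd (nd (nd (lf 0) (nd (lf 0) (lf 20482))) (nd (lf 0) (nd (lf 0) (lf 32770)))) (nd (nd (lf 0) (nd (lf 0) (lf 303808873787394))) (nd (lf 0) (nd (lf 0) (lf 10634473088901239510481377538152091650)))))) (lf 0)))

def p308 : Tr :=
  (nd (nd (nd (nd (nd (nd (lf 0) (nd (lf 0) (lf 20482))) (nd (lf 0) (nd (lf 0) (lf 552963)))) (nd (nd (lf 0) (nd (lf 0) (lf 544771))) (nd (lf 0) (nd (lf 0) (lf 67139001462180729143195839646981104335854010168381128602974990993590983208495884475064322))))) (nd (nd (nd (lf 0) (nd (lf 0) (lf 20482))) (nd (lf 0) (nd (lf 0) (lf 36866)))) (nd (nd (lf 0) (nd (lf 0) (lf 28674))) (nd (lf 0) (nd (lf 0) (lf 664118846239036174339)))))) (nd (nd (nd (nd (lf 0) (nd (lf 0) (lf 24578))) (nd (lf 0) (nd (lf 0) (lf 36866)))) (nd (nd (lf 0) (nd (lf 0) (lf 5607864272391705739267)))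 (nd (lf 0) (nd (lf 0) (lf 3829476427628034958430734421627474557398295842015089625853438740352463584060530690))))) (nd (nd (nd (lf 0) (nd (lf 0) (lf 4879133196290))) (nd (lf 0) (nd (lf 0) (lf 36866)))) (nd (nd (lf 0) (nd (lf 0) (lf 303740154310658))) (nd (lf 0) (nd (lf 0) (lf 765676869418676004497366408115435618306))))))) (nd (nd (nd (nd (nd (lf 0) (nd (lf 0) (lf 20482))) (nd (lf 0) (nd (lf 0) (lf 552963)))) (nd (nd (lf 0) (nd (lf 0) (lf 28674))) (nd (lf 0) (nd (lf 0) (lf 2611293945538061452133294082))))) (nd (nd (nd (lf 0) (nd (lf 0) (lf 20482))) (nd (lf 0) (nd (lf 0) (lf 40962)))) (nd (nd (lf 0) (nd (lf 0) (lf 28674))) (nd (lf 0) (nd (lf 0) (lf 12682699981698650114)))))) (nd (nd (nd (nd (lf 0) (nd (lf 0) (lf 24578))) (nd (lf 0) (nd (lf 0) (lf 52778706169859)))) (nd (nd (lf 0) (nd (lf 0) (lf 303877593264130))) (nd (lf 0) (nd (lf 0) (lf 1020888649833543641974399163347211673602))))) (nd (lf 0) (nd (nd (lf 0) (nd (lf 0) (lf 28674))) (nd (lf 0)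 (nd (lf 0) (lf 28674))))))))

def p309 : Tr :=
  (nd (nd (nd (nd (nd (nd (lf 0) (nd (lf 0) (lf 282627))) (nd (lf 0) (nd (lf 0) (lf 24578)))) (nd (nd (lf 0) (nd (lf 0) (lf 20482))) (nd (lf 0) (nd (lf 0) (lf 44982611965284696986429411839883290354143235))))) (nd (nd (nd (lf 0) (nd (lf 0) (lf 4672974774274))) (nd (lf 0) (nd (lf 0) (lf 24578)))) (nd (nd (lf 0) (nd (lf 0) (lf 4810413719554))) (nd (lf 0) (nd (lf 0) (lf 475407665876956095123391004675)))))) (nd (nd (nd (nd (lf 0) (nd (lf 0) (lf 4741694255106))) (nd (lf 0) (nd (lf 0) (lf 28674)))) (nd (nd (lf 0) (nd (lf 0) (lf 4879133200386))) (nd (lf 0) (nd (lf 0) (lf 554635828465007413409819676675))))) (lf 0))) (nd (nd (nd (nd (lf 0) (nd (lf 0) (nd (lf 0) (lf 24578)))) (nd (nd (lf 0) (nd (lf 0) (lf 20482))) (nd (lf 0) (nd (lf 0) (lf 8666185180665360684062625794))))) (nd (nd (lf 0) (nd (lf 0) (nd (lf 0) (lf 24578)))) (nd (nd (lf 0) (nd (lf 0) (lf 274911485954))) (nd (lf 0) (nd (lf 0) (lf 412350431234))))))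 (nd (nd (nd (lf 0) (nd (lf 0) (nd (lf 0) (lf 28674)))) (nd (nd (lf 0) (nd (lf 0) (lf 343630966786))) (nd (lf 0) (nd (lf 0) (lf 481069912066))))) (lf 0))))

def p310 : Tr :=
  (nd (nd (nd (nd (nd (nd (lf 0) (nd (lf 0) (lf 294915))) (nd (lf 0) (nd (lf 0) (lf 548867)))) (nd (nd (lf 0) (nd (lf 0) (lf 32770))) (nd (lf 0) (nd (lf 0) (lf 11399521605197454864271734918338935291907))))) (nd (nd (nd (lf 0) (nd (lf 0) (lf 4879133196290))) (nd (lf 0) (nd (lf 0) (lf 9139740758018)))) (nd (nd (lf 0) (nd (lf 0) (lf 24578))) (nd (lf 0) (nd (lf 0) (lf 442757891445181399042)))))) (nd (nd (nd (nd (lf 0) (nd (lf 0) (lf 83011193031534616578))) (nd (lf 0) (nd (lf 0) (lf 664118824659023056898)))) (nd (nd (lf 0) (nd (lf 0) (lf 5386503339109144608771))) (nd (lf 0) (nd (lf 0) (lf 65136584760526110192220579896921076588655080450547672707387885610802981912580))))) (nd (nd (nd (lf 0) (nd (lf 0) (lf 16386))) (nd (lf 0) (nd (lf 0) (lf 20482)))) (nd (nd (lf 0) (nd (lf 0) (lf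 412350431234))) (nd (lf 0) (nd (lf 0) (lf 412350431234))))))) (nd (nd (nd (nd (nd (lf 0) (nd (lf 0) (lf 43982612897795))) (nd (lf 0) (nd (lf 0) (lf 39584566636547)))) (nd (nd (lf 0) (nd (lf 0) (lf 32770))) (nd (lf 0) (nd (lf 0) (lf 664118824727742545922))))) (nd (lf 0) (nd (nd (lf 0) (nd (lf 0) (lf 28674))) (nd (lf 0) (nd (lf 0) (lf 28674)))))) (nd (nd (nd (nd (lf 0) (nd (lf 0) (lf 40962))) (nd (lf 0) (nd (lf 0) (lf 36866)))) (nd (nd (lf 0) (nd (lf 0) (lf 549789405186))) (nd (lf 0) (nd (lf 0) (lf 618508877826))))) (lf 0))))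

def p311 : Tr :=
  (nd (nd (nd (nd (nd (nd (lf 0) (nd (lf 0) (lf 20482))) (nd (lf 0) (nd (lf 0) (lf 548867)))) (nd (nd (lf 0) (nd (lf 0) (lf 544771))) (nd (lf 0) (nd (lf 0) (lf 178117525466247391297610336979907006468))))) (nd (nd (nd (lf 0) (nd (lf 0) (lf 20482))) (lf 0)) (nd (nd (lf 0) (nd (lf 0) (lf 24578))) (nd (lf 0) (nd (lf 0) (lf 2553265505043637678421069826)))))) (nd (nd (nd (nd (lf 0) (nd (lf 0) (lf 16386))) (nd (lf 0) (nd (lf 0) (lf 9208460230658)))) (nd (nd (lf 0) (nd (lf 0) (lf 26390427090947))) (nd (lf 0) (nd (lf 0) (lf 165884872401363563445433155586))))) (nd (nd (nd (lf 0) (nd (lf 0) (lf 16386))) (lf 0)) (nd (nd (lf 0) (nd (lf 0) (lf 412350431234))) (nd (lf 0) (nd (lf 0) (lf 412350431234))))))) (nd (nd (nd (nd (nd (lf 0) (nd (lf 0) (lf 20482))) (nd (lf 0) (nd (lf 0) (lf 9277179711490)))) (nd (nd (lf 0) (nd (lf 0) (lf 30788473606147))) (nd (lf 0) (nd (lf 0) (lf 167122812514435920083889967106))))) (nd (nd (nd (lf 0) (nd (lf 0) (lf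 20482))) (lf 0)) (nd (nd (lf 0) (nd (lf 0) (lf 481069912066))) (nd (lf 0) (nd (lf 0) (lf 481069912066)))))) (lf 0)))

def p312 : Tr :=
  (lf 0)

def p313 : Tr :=
  (nd (nd (nd (nd (nd (nd (lf 0) (nd (lf 0) (lf 286723))) (nd (lf 0) (nd (lf 0) (lf 548867)))) (nd (nd (lf 0) (nd (lf 0) (lf 24578))) (nd (lf 0) (nd (lf 0) (lf 71555956880899622118404394695055747527620151393284535729594471060081193627676519414223920565608451))))) (nd (nd (nd (lf 0) (nd (lf 0) (lf 286723))) (nd (lf 0) (nd (lf 0) (lf 28674)))) (nd (nd (lf 0) (nd (lf 0) (lf 24578))) (nd (lf 0) (nd (lf 0) (lf 609701857208232564776963)))))) (nd (nd (nd (nd (lf 0) (nd (lf 0) (lf 4810413719554))) (nd (lf 0) (nd (lf 0) (lf 590331848364184850434)))) (nd (nd (lf 0) (nd (lf 0) (lf 5312716362814306402307))) (nd (lf 0) (nd (lf 0) (lf 57899579183088535686578836147088820467808854544238512048031736844586314121220))))) (nd (nd (nd (lf 0) (nd (lf 0) (lf 4810413719554))) (nd (lf 0) (nd (lf 0) (lf 20482))))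 (nd (nd (lf 0) (nd (lf 0) (lf 412350431234))) (nd (lf 0) (nd (lf 0) (lf 442757891376461922306))))))) (nd (nd (nd (nd (lf 0) (nd (lf 0) (nd (lf 0) (lf 548867)))) (nd (nd (lf 0) (nd (lf 0) (lf 24578))) (nd (lf 0) (nd (lf 0) (lf 9208460238850))))) (nd (nd (lf 0) (nd (lf 0) (nd (lf 0) (lf 28674)))) (nd (nd (lf 0) (nd (lf 0) (lf 24578))) (nd (lf 0) (nd (lf 0) (lf 481069916162)))))) (nd (nd (nd (lf 0) (nd (lf 0) (nd (lf 0) (lf 35186520121347)))) (nd (nd (lf 0) (nd (lf 0) (lf 412350447618))) (nd (lf 0) (nd (lf 0) (lf 590331848364184854530))))) (nd (lf 0) (nd (nd (lf 0) (nd (lf 0) (lf 24578))) (nd (lf 0) (nd (lf 0) (lf 24578))))))))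

def p314 : Tr :=
  (nd (nd (nd (nd (nd (nd (lf 0) (nd (lf 0) (lf 16386))) (nd (lf 0) (nd (lf 0) (lf 1327107)))) (nd (nd (lf 0) (nd (lf 0) (lf 540675))) (nd (lf 0) (nd (lf 0) (lf 305605260411843680916689480815272380179298845101464364756077589923335319223539619155600962197864388458029535234))))) (nd (nd (nd (lf 0) (nd (lf 0) (lf 16386))) (nd (lf 0) (nd (lf 0) (lf 32770)))) (nd (nd (lf 0) (nd (lf 0) (lf 316662571089923))) (nd (lf 0) (nd (lf 0) (lf 11418678611571718369969023205380085629012951042)))))) (nd (nd (nd (nd (lf 0) (nd (lf 0) (lf 20482))) (nd (lf 0) (nd (lf 0) (lf 1331203)))) (nd (nd (lf 0) (nd (lf 0) (lf 5016572162050))) (nd (lf 0) (nd (lf 0) (lf 822139283475100636057914708770124335727033470978))))) (lf 0))) (nd (nd (nd (nd (nd (lf 0) (nd (lf 0) (lf 16386))) (nd (lf 0) (nd (lf 0) (lf 32770)))) (nd (nd (lf 0) (nd (lf 0) (lf 28674))) (nd (lf 0) (nd (lf 0) (lf 186932838016180914200058019042054146))))) (nd (nd (nd (lf 0) (nd (lf 0) (lf 16386)))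 (nd (lf 0) (nd (lf 0) (lf 32770)))) (nd (nd (lf 0) (nd (lf 0) (lf 303740154306562))) (nd (lf 0) (nd (lf 0) (lf 10634473088881896696214621898030465026)))))) (nd (nd (nd (nd (lf 0) (nd (lf 0) (lf 20482))) (nd (lf 0) (nd (lf 0) (lf 36866)))) (nd (nd (lf 0) (nd (lf 0) (lf 303808873787394))) (nd (lf 0) (nd (lf 0) (lf 11963701084686155383385184598432436226))))) (lf 0))))

def p315 : Tr :=
  (nd (nd (nd (nd (nd (nd (lf 0) (nd (lf 0) (lf 20482))) (nd (lf 0) (nd (lf 0) (lf 548867)))) (nd (nd (lf 0) (nd (lf 0) (lf 544771))) (nd (lf 0) (nd (lf 0) (lf 71555956880899621972955392194914549032928966361294528616397871624649853375583453519761443482001411))))) (nd (nd (nd (lf 0) (nd (lf 0) (lf 20482))) (lf 0)) (nd (nd (lf 0) (nd (lf 0) (lf 24578))) (nd (lf 0) (nd (lf 0) (lf 26390426836995)))))) (nd (nd (nd (nd (lf 0) (nd (lf 0) (lf 80705350022320914434))) (nd (lf 0) (nd (lf 0) (lf 30788473610243)))) (nd (nd (lf 0) (nd (lf 0) (lf 5238929386519468195843))) (nd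 (lf 0) (nd (lf 0) (lf 50662573605650961180937092397256564346962628637929351398120321044108936757252))))) (nd (nd (nd (lf 0) (nd (lf 0) (lf 4810413719554))) (lf 0)) (nd (nd (lf 0) (nd (lf 0) (lf 412350431234))) (nd (lf 0) (nd (lf 0) (lf 442757891376461922306))))))) (nd (nd (nd (nd (nd (lf 0) (nd (lf 0) (lf 20482))) (nd (lf 0) (nd (lf 0) (lf 548867)))) (nd (nd (lf 0) (nd (lf 0) (lf 24578))) (nd (lf 0) (nd (lf 0) (lf 10616631833687268887474700046340))))) (nd (nd (nd (lf 0) (nd (lf 0) (lf 20482))) (lf 0)) (nd (nd (lf 0) (nd (lf 0) (lf 24578))) (nd (lf 0) (nd (lf 0) (lf 412350435330)))))) (nd (nd (nd (nd (lf 0) (nd (lf 0) (lf 32770))) (nd (lf 0) (nd (lf 0) (lf 30788473610243)))) (nd (nd (lf 0) (nd (lf 0) (lf 412350443522))) (nd (lf 0) (nd (lf 0) (lf 516544872069346648066))))) (nd (lf 0) (nd (nd (lf 0) (nd (lf 0) (lf 24578))) (nd (lf 0) (nd (lf 0) (lf 24578))))))))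

def p316 : Tr :=
  (nd (nd (nd (nd (nd (nd (lf 0) (nd (lf 0) (lf 20482))) (nd (lf 0) (nd (lf 0) (lf 548867)))) (nd (nd (lf 0) (nd (lf 0) (lf 544771))) (nd (lf 0) (nd (lf 0) (lf 1251773199486586305296840084222179873554644322346366331218096620341301053707197260284903688125148501989006525353988))))) (nd (nd (nd (lf 0) (nd (lf 0) (lf 20482))) (nd (lf 0) (nd (lf 0) (lf 32770)))) (nd (nd (lf 0) (nd (lf 0) (lf 24578))) (nd (lf 0) (nd (lf 0) (lf 680606302642835812825448201990682202114)))))) (nd (nd (nd (nd (lf 0) (nd (lf 0) (lf 2129923))) (nd (lf 0) (nd (lf 0) (lf 32770)))) (nd (nd (lf 0) (nd (lf 0) (lf 26390427090947))) (nd (lf 0) (nd (lf 0) (lf 730795463714651889489638059702745118465973567492))))) (nd (nd (nd (lf 0) (nd (lf 0) (lf 16386))) (nd (lf 0) (nd (lf 0) (lf 32770)))) (nd (nd (lf 0) (nd (lf 0) (lf 303740154306562))) (nd (lf 0) (nd (lf 0) (lf 680606277693546705469960974260429144066))))))) (nd (nd (nd (nd (nd (lf 0) (nd (lf 0) (lf 20482)))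 (nd (lf 0) (nd (lf 0) (lf 36866)))) (nd (nd (lf 0) (nd (lf 0) (lf 2572860430766083))) (nd (lf 0) (nd (lf 0) (lf 12845926898317992455170882677058983327315808260))))) (nd (nd (nd (lf 0) (nd (lf 0) (lf 20482))) (nd (lf 0) (nd (lf 0) (lf 36866)))) (nd (nd (lf 0) (nd (lf 0) (lf 303808873787394))) (nd (lf 0) (nd (lf 0) (lf 11963701084686155383385184598432436226)))))) (lf 0)))

def p317 : Tr :=
  (nd (nd (nd (nd (nd (nd (lf 0) (nd (lf 0) (lf 24578))) (nd (lf 0) (nd (lf 0) (lf 552963)))) (nd (nd (lf 0) (nd (lf 0) (lf 548867))) (nd (lf 0) (nd (lf 0) (lf 16391357778852717075975546788813746175836951803598106345939685181800191061016675639298))))) (nd (nd (nd (lf 0) (nd (lf 0) (lf 16386))) (nd (lf 0) (nd (lf 0) (lf 36866)))) (nd (nd (lf 0) (nd (lf 0) (lf 540675))) (nd (lf 0) (nd (lf 0) (lf 10376856972484952066)))))) (nd (nd (nd (nd (lf 0) (nd (lf 0) (lf 24578))) (nd (lf 0) (nd (lf 0) (lf 36866)))) (nd (nd (lf 0) (nd (lf 0) (lf 540675))) (nd (lf 0) (nd (lf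 0) (lf 16858199422723373210523783121172081749926985034489151492))))) (nd (nd (nd (lf 0) (nd (lf 0) (lf 16386))) (nd (lf 0) (nd (lf 0) (lf 36866)))) (nd (nd (lf 0) (nd (lf 0) (lf 481069907970))) (nd (lf 0) (nd (lf 0) (lf 10376856972484952066))))))) (nd (nd (nd (nd (nd (lf 0) (nd (lf 0) (lf 24578))) (nd (lf 0) (nd (lf 0) (lf 552963)))) (nd (nd (lf 0) (nd (lf 0) (lf 32770))) (nd (lf 0) (nd (lf 0) (lf 2611293945538061520852770818))))) (nd (nd (nd (lf 0) (nd (lf 0) (lf 16386))) (nd (lf 0) (nd (lf 0) (lf 40962)))) (nd (nd (lf 0) (nd (lf 0) (lf 28674))) (nd (lf 0) (nd (lf 0) (lf 11529778477091799042)))))) (nd (nd (nd (nd (lf 0) (nd (lf 0) (lf 24578))) (nd (lf 0) (nd (lf 0) (lf 811692777317418946562)))) (nd (nd (lf 0) (nd (lf 0) (lf 35186520113155))) (nd (lf 0) (nd (lf 0) (lf 1004826988639985044151985263574254871316433223684))))) (nd (nd (nd (lf 0) (nd (lf 0) (lf 16386))) (nd (lf 0) (nd (lf 0) (lf 20482)))) (nd (nd (lf 0) (nd (lf 0) (lf 481069907970)))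 (nd (lf 0) (nd (lf 0) (lf 481069907970))))))))

def p318 : Tr :=
  (nd (nd (nd (nd (nd (nd (lf 0) (nd (lf 0) (lf 24578))) (nd (lf 0) (nd (lf 0) (lf 552963)))) (nd (nd (lf 0) (nd (lf 0) (lf 548867))) (nd (lf 0) (nd (lf 0) (lf 179446753541260474407143878051653521411))))) (nd (nd (nd (lf 0) (nd (lf 0) (lf 24578))) (nd (lf 0) (nd (lf 0) (lf 9139740758018)))) (nd (nd (lf 0) (nd (lf 0) (lf 28674))) (nd (lf 0) (nd (lf 0) (lf 2553265506196559183027920898)))))) (nd (nd (nd (nd (lf 0) (nd (lf 0) (lf 84164114536141467650))) (nd (lf 0) (nd (lf 0) (lf 737905801022580740098)))) (nd (nd (lf 0) (nd (lf 0) (lf 5460290319802029326339))) (nd (lf 0) (nd (lf 0) (lf 72373590337963684697960403361368749601880758437329468565187260916878046412804))))) (nd (nd (nd (lf 0) (nd (lf 0) (lf 16386))) (nd (lf 0) (nd (lf 0) (lf 20482)))) (nd (nd (lf 0) (nd (lf 0) (lf 481069907970))) (nd (lf 0) (nd (lf 0) (lf 481069907970))))))) (nd (nd (nd (nd (nd (lf 0) (nd (lf 0) (lf 24578)))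 (nd (lf 0) (nd (lf 0) (lf 43982613151747)))) (nd (nd (lf 0) (nd (lf 0) (lf 36866))) (nd (lf 0) (nd (lf 0) (lf 935818058182537226028205707153696645124))))) (nd (nd (nd (lf 0) (nd (lf 0) (lf 24578))) (lf 0)) (nd (nd (lf 0) (nd (lf 0) (lf 549789392898))) (nd (lf 0) (nd (lf 0) (lf 549789392898)))))) (nd (nd (nd (nd (lf 0) (nd (lf 0) (lf 45058))) (nd (lf 0) (nd (lf 0) (lf 40962)))) (nd (nd (lf 0) (nd (lf 0) (lf 618508886018))) (nd (lf 0) (nd (lf 0) (lf 687228358658))))) (lf 0))))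

def p319 : Tr :=
  (nd (nd (nd (nd (nd (nd (lf 0) (nd (lf 0) (lf 16386))) (nd (lf 0) (nd (lf 0) (lf 34095108)))) (nd (nd (lf 0) (nd (lf 0) (lf 540675))) (nd (lf 0) (nd (lf 0) (lf 18206677169345769202145352719611355899093718996890580080029260780648061746440696529436813837791901270018))))) (nd (nd (nd (lf 0) (nd (lf 0) (lf 16386))) (lf 0)) (nd (nd (lf 0) (nd (lf 0) (lf 540675))) (nd (lf 0) (nd (lf 0) (lf 9071021277186)))))) (nd (nd (nd (nd (lf 0) (nd (lf 0) (lf 16386))) (nd (lf 0) (nd (lf 0) (lf 154492326385878581250)))) (nd (nd (lf 0) (nd (lf 0) (lf 540675))) (nd (lf 0) (nd (lf 0) (lf 679464436165804650972401967316996))))) (nd (nd (nd (lf 0) (nd (lf 0) (lf 16386))) (lf 0)) (nd (nd (lf 0) (nd (lf 0) (lf 412350435330))) (nd (lf 0) (nd (lf 0) (lf 412350431234))))))) (nd (nd (nd (nd (nd (lf 0) (nd (lf 0) (lf 16386))) (nd (lf 0) (nd (lf 0) (lf 37999328048463876)))) (nd (nd (lf 0) (nd (lf 0) (lf 30788473602051))) (nd (lf 0) (nd (lf 0) (lf 11484592201448589656274305261599520210946)))))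 (nd (nd (nd (lf 0) (nd (lf 0) (lf 16386))) (lf 0)) (nd (nd (lf 0) (nd (lf 0) (lf 30788473602051))) (nd (lf 0) (nd (lf 0) (lf 516544871931907686402)))))) (nd (nd (nd (nd (lf 0) (nd (lf 0) (lf 16386))) (nd (lf 0) (nd (lf 0) (lf 16386)))) (nd (nd (lf 0) (nd (lf 0) (lf 540675))) (nd (lf 0) (nd (lf 0) (lf 623355835629344351862788))))) (nd (nd (nd (lf 0) (nd (lf 0) (lf 16386))) (lf 0)) (nd (lf 0) (nd (lf 0) (nd (lf 0) (lf 16386))))))))

def p320 : Tr :=
  (nd (nd (nd (nd (nd (nd (lf 0) (nd (lf 0) (lf 16386))) (nd (lf 0) (nd (lf 0) (lf 34095108)))) (nd (nd (lf 0) (nd (lf 0) (lf 540675))) (nd (lf 0) (nd (lf 0) (lf 69452961614020420845643881256953802582267275281795601333011319007421281728605692350171856139993090))))) (nd (nd (nd (lf 0) (nd (lf 0) (lf 16386))) (nd (lf 0) (nd (lf 0) (lf 40962)))) (nd (nd (lf 0) (nd (lf 0) (lf 540675))) (nd (lf 0) (nd (lf 0) (lf 609923218119797673836546)))))) (nd (nd (nd (nd (lf 0) (nd (lf 0) (lf 16386))) (nd (lf 0) (nd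 (lf 0) (lf 811692777317418950658)))) (nd (nd (lf 0) (nd (lf 0) (lf 540675))) (nd (lf 0) (nd (lf 0) (lf 13603387782514863770480870065266613504842700475682568926935971807236))))) (nd (nd (nd (lf 0) (nd (lf 0) (lf 16386))) (nd (lf 0) (nd (lf 0) (lf 24578)))) (nd (nd (lf 0) (nd (lf 0) (lf 481069912066))) (nd (lf 0) (nd (lf 0) (lf 481069907970))))))) (nd (nd (nd (nd (nd (lf 0) (nd (lf 0) (lf 16386))) (nd (lf 0) (nd (lf 0) (lf 40962)))) (nd (nd (lf 0) (nd (lf 0) (lf 36866))) (nd (lf 0) (nd (lf 0) (lf 17127670061506473969784837526253300352989806598))))) (nd (nd (nd (lf 0) (nd (lf 0) (lf 16386))) (nd (lf 0) (nd (lf 0) (lf 40962)))) (nd (nd (lf 0) (nd (lf 0) (lf 35186520113155))) (nd (lf 0) (nd (lf 0) (lf 12380005446095458290324488194)))))) (nd (nd (nd (nd (lf 0) (nd (lf 0) (lf 16386))) (nd (lf 0) (nd (lf 0) (lf 45058)))) (nd (nd (lf 0) (nd (lf 0) (lf 39584566624259))) (nd (lf 0) (nd (lf 0) (lf 935818093045347164795973258183461847044))))) (nd (nd (nd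 (lf 0) (nd (lf 0) (lf 16386))) (lf 0)) (nd (lf 0) (nd (lf 0) (nd (lf 0) (lf 16386))))))))

def p321 : Tr :=
  (nd (nd (nd (nd (nd (nd (lf 0) (nd (lf 0) (lf 307544189259221376712706))) (nd (lf 0) (nd (lf 0) (lf 28674)))) (nd (nd (lf 0) (nd (lf 0) (lf 24578))) (nd (lf 0) (nd (lf 0) (lf 47183198487061039707398107625496191714506044622569617588569124651018))))) (nd (nd (nd (lf 0) (nd (lf 0) (lf 4741694242818))) (nd (lf 0) (nd (lf 0) (lf 28674)))) (nd (nd (lf 0) (nd (lf 0) (lf 5238929382121421684739))) (nd (lf 0) (nd (lf 0) (lf 686605904586919346291660733509069783160588490494193975298)))))) (nd (nd (nd (nd (lf 0) (nd (lf 0) (lf 16386))) (nd (lf 0) (nd (lf 0) (lf 32770)))) (nd (nd (lf 0) (nd (lf 0) (lf 5312716362814306402307))) (nd (lf 0) (nd (lf 0) (lf 50219879629040862778920328396976699857203548605234631163908))))) (nd (nd (nd (lf 0) (nd (lf 0) (lf 16386))) (lf 0)) (nd (lf 0) (nd (lf 0) (nd (lf 0) (lf 16386))))))) (nd (nd (nd (nd (lf 0) (nd (lf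 0) (nd (lf 0) (lf 28674)))) (nd (nd (lf 0) (nd (lf 0) (lf 83011193100254081026))) (nd (lf 0) (nd (lf 0) (lf 9904125293737717322519433218))))) (nd (nd (lf 0) (nd (lf 0) (nd (lf 0) (lf 28674)))) (nd (nd (lf 0) (nd (lf 0) (lf 343630966786))) (nd (lf 0) (nd (lf 0) (lf 481069912066)))))) (nd (nd (nd (lf 0) (nd (lf 0) (nd (lf 0) (lf 32770)))) (nd (lf 0) (nd (lf 0) (nd (lf 0) (lf 32770))))) (lf 0))))

def p322 : Tr :=
  (nd (nd (nd (nd (nd (nd (lf 0) (nd (lf 0) (lf 282627))) (nd (lf 0) (nd (lf 0) (lf 544771)))) (nd (nd (lf 0) (nd (lf 0) (lf 20482))) (nd (lf 0) (nd (lf 0) (lf 4545405447771012557790955633205513907331312958285824562041324760830928122660049613530811450486181891))))) (nd (nd (nd (lf 0) (nd (lf 0) (lf 282627))) (lf 0)) (nd (nd (lf 0) (nd (lf 0) (lf 20482))) (nd (lf 0) (nd (lf 0) (lf 21992380321795)))))) (nd (nd (nd (nd (lf 0) (nd (lf 0) (lf 4741694242818))) (nd (lf 0) (nd (lf 0) (lf 9139740753922)))) (nd (nd (lf 0) (nd (lf 0) (lf 21992380579843)))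 (nd (lf 0) (nd (lf 0) (lf 12148799289773974578427432754394424094277168021508))))) (nd (nd (nd (lf 0) (nd (lf 0) (lf 4741694242818))) (lf 0)) (nd (nd (lf 0) (nd (lf 0) (lf 20482))) (nd (lf 0) (nd (lf 0) (lf 368970915012904239106))))))) (nd (nd (nd (nd (lf 0) (nd (lf 0) (nd (lf 0) (lf 544771)))) (nd (nd (lf 0) (nd (lf 0) (lf 20482))) (nd (lf 0) (nd (lf 0) (lf 9139740758018))))) (nd (lf 0) (nd (nd (lf 0) (nd (lf 0) (lf 20482))) (nd (lf 0) (nd (lf 0) (lf 20482)))))) (nd (nd (nd (lf 0) (nd (lf 0) (nd (lf 0) (lf 544771)))) (nd (nd (lf 0) (nd (lf 0) (lf 20482))) (nd (lf 0) (nd (lf 0) (lf 9139740758018))))) (nd (lf 0) (nd (nd (lf 0) (nd (lf 0) (lf 20482))) (nd (lf 0) (nd (lf 0) (lf 20482))))))))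

def p323 : Tr :=
  (nd (nd (nd (nd (nd (nd (lf 0) (nd (lf 0) (lf 16386))) (nd (lf 0) (nd (lf 0) (lf 544771)))) (nd (nd (lf 0) (nd (lf 0) (lf 540675))) (nd (lf 0) (nd (lf 0) (lf 1033505544856094522070067233041160877545802653777586244398723272097281660784215173644290))))) (nd (nd (nd (lf 0) (nd (lf 0) (lf 16386))) (nd (lf 0) (nd (lf 0) (lf 24578)))) (nd (nd (lf 0) (nd (lf 0) (lf 20482))) (nd (lf 0) (nd (lf 0) (lf 9525438597305307512834)))))) (nd (nd (nd (nd (lf 0) (nd (lf 0) (lf 16386))) (nd (lf 0) (nd (lf 0) (lf 1424970291367939)))) (nd (nd (lf 0) (nd (lf 0) (lf 540675))) (nd (lf 0) (nd (lf 0) (lf 3319532657296629105194099505464200149837901133306895466836279300))))) (nd (nd (nd (lf 0) (nd (lf 0) (lf 16386))) (lf 0)) (nd (nd (lf 0) (nd (lf 0) (lf 343630954498))) (nd (lf 0) (nd (lf 0) (lf 343630954498))))))) (nd (nd (nd (nd (nd (lf 0) (nd (lf 0) (lf 16386))) (nd (lf 0) (nd (lf 0) (lf 544771)))) (nd (nd (lf 0) (nd (lf 0) (lf 20482))) (nd (lf 0)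 (nd (lf 0) (lf 2572608317004550240609517570))))) (nd (nd (nd (lf 0) (nd (lf 0) (lf 16386))) (nd (lf 0) (nd (lf 0) (lf 24578)))) (nd (nd (lf 0) (nd (lf 0) (lf 20482))) (nd (lf 0) (nd (lf 0) (lf 6918092321225457666)))))) (nd (nd (nd (nd (lf 0) (nd (lf 0) (lf 16386))) (nd (lf 0) (nd (lf 0) (lf 30788473606147)))) (nd (nd (lf 0) (nd (lf 0) (lf 21992380579843))) (nd (lf 0) (nd (lf 0) (lf 639451579137118120999390021837661600712940339204))))) (nd (nd (nd (lf 0) (nd (lf 0) (lf 16386))) (lf 0)) (nd (nd (lf 0) (nd (lf 0) (lf 343630954498))) (nd (lf 0) (nd (lf 0) (lf 343630954498))))))))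

def p324 : Tr :=
  (nd (nd (nd (nd (nd (nd (lf 0) (nd (lf 0) (lf 278531))) (nd (lf 0) (nd (lf 0) (lf 540675)))) (nd (nd (lf 0) (nd (lf 0) (lf 16386))) (nd (lf 0) (nd (lf 0) (lf 4511229655164449309312766165936496676555172069448799292633185737684265629283938937552191593352806403))))) (nd (nd (nd (lf 0) (nd (lf 0) (lf 278531))) (nd (lf 0) (nd (lf 0) (lf 20482)))) (nd (nd (lf 0) (nd (lf 0) (lf 16386))) (nd (lf 0) (nd (lf 0) (lf 609554283246846795333635)))))) (nd (nd (nd (nd (lf 0) (nd (lf 0) (lf 4672974774274))) (nd (lf 0) (nd (lf 0) (lf 26390427090947)))) (nd (nd (lf 0) (nd (lf 0) (lf 4810413719554))) (nd (lf 0) (nd (lf 0) (lf 510465099214451459303466621095010123779))))) (nd (nd (nd (lf 0) (nd (lf 0) (lf 278531))) (lf 0)) (nd (nd (lf 0) (nd (lf 0) (lf 16386))) (nd (lf 0) (nd (lf 0) (lf 17594333806595))))))) (nd (nd (nd (nd (lf 0) (nd (lf 0) (nd (lf 0) (lf 540675)))) (nd (nd (lf 0) (nd (lf 0) (lf 16386))) (nd (lf 0) (nd (lf 0) (lf 9071021277186)))))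 (nd (nd (lf 0) (nd (lf 0) (nd (lf 0) (lf 20482)))) (nd (nd (lf 0) (nd (lf 0) (lf 16386))) (nd (lf 0) (nd (lf 0) (lf 343630954498)))))) (nd (nd (nd (lf 0) (nd (lf 0) (nd (lf 0) (lf 26390427090947)))) (nd (nd (lf 0) (nd (lf 0) (lf 274911485954))) (nd (lf 0) (nd (lf 0) (lf 442757895637069479938))))) (nd (lf 0) (nd (nd (lf 0) (nd (lf 0) (lf 16386))) (nd (lf 0) (nd (lf 0) (lf 16386))))))))

def p325 : Tr :=
  (nd (nd (nd (nd (nd (nd (lf 0) (nd (lf 0) (lf 16386))) (nd (lf 0) (nd (lf 0) (lf 544771)))) (nd (nd (lf 0) (nd (lf 0) (lf 540675))) (nd (lf 0) (nd (lf 0) (lf 16148524145613482916036310252281347056471954689500465337900227170163822374606489010178))))) (nd (nd (nd (lf 0) (nd (lf 0) (lf 16386))) (nd (lf 0) (nd (lf 0) (lf 24578)))) (nd (nd (lf 0) (nd (lf 0) (lf 20482))) (nd (lf 0) (nd (lf 0) (lf 6918092321225457666)))))) (nd (nd (nd (nd (lf 0) (nd (lf 0) (lf 16386))) (nd (lf 0) (nd (lf 0) (lf 24578)))) (nd (nd (lf 0) (nd (lf 0) (lf 540675))) (nd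 (lf 0) (nd (lf 0) (lf 12260712800058804395865466182940892731176690430698340356))))) (nd (nd (nd (lf 0) (nd (lf 0) (lf 16386))) (nd (lf 0) (nd (lf 0) (lf 24578)))) (nd (nd (lf 0) (nd (lf 0) (lf 343630954498))) (nd (lf 0) (nd (lf 0) (lf 6918092321225457666))))))) (nd (nd (nd (nd (nd (lf 0) (nd (lf 0) (lf 16386))) (nd (lf 0) (nd (lf 0) (lf 544771)))) (nd (nd (lf 0) (nd (lf 0) (lf 20482))) (nd (lf 0) (nd (lf 0) (lf 2572608317004550240609517570))))) (nd (nd (nd (lf 0) (nd (lf 0) (lf 16386))) (nd (lf 0) (nd (lf 0) (lf 28674)))) (nd (nd (lf 0) (nd (lf 0) (lf 20482))) (nd (lf 0) (nd (lf 0) (lf 8071013825832304642)))))) (nd (nd (nd (nd (lf 0) (nd (lf 0) (lf 16386))) (nd (lf 0) (nd (lf 0) (lf 35186520117251)))) (nd (nd (lf 0) (nd (lf 0) (lf 21992380579843))) (nd (lf 0) (nd (lf 0) (lf 730795431470299553387120323882429289441436123140))))) (nd (nd (nd (lf 0) (nd (lf 0) (lf 16386))) (lf 0)) (nd (nd (lf 0) (nd (lf 0) (lf 343630954498))) (nd (lf 0) (nd (lf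 0) (lf 343630954498))))))))

def p326 : Tr :=
  (nd (nd (nd (nd (nd (nd (lf 0) (nd (lf 0) (lf 20482))) (nd (lf 0) (nd (lf 0) (lf 32770)))) (nd (nd (lf 0) (nd (lf 0) (lf 544771))) (nd (lf 0) (nd (lf 0) (lf 16297283428542497825567681495191589368188252238955567527594313500670657982493691092442046466))))) (nd (nd (nd (lf 0) (nd (lf 0) (lf 20482))) (nd (lf 0) (nd (lf 0) (lf 32770)))) (nd (nd (lf 0) (nd (lf 0) (lf 28674))) (nd (lf 0) (nd (lf 0) (lf 590331869944197967875)))))) (nd (nd (nd (nd (lf 0) (nd (lf 0) (lf 24578))) (nd (lf 0) (nd (lf 0) (lf 32770)))) (nd (nd (lf 0) (nd (lf 0) (lf 294915))) (nd (lf 0) (nd (lf 0) (lf 2879584064065055842858200177971343571411820546))))) (nd (nd (nd (lf 0) (nd (lf 0) (lf 81858271526927765506))) (nd (lf 0) (nd (lf 0) (lf 32770)))) (nd (nd (lf 0) (nd (lf 0) (lf 4947852685314))) (nd (lf 0) (nd (lf 0) (lf 730795431140589975678017485218112443836465692674))))))) (nd (nd (nd (nd (nd (lf 0) (nd (lf 0) (lf 20482))) (nd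 (lf 0) (nd (lf 0) (lf 32770)))) (nd (nd (lf 0) (nd (lf 0) (lf 28674))) (nd (lf 0) (nd (lf 0) (lf 154751957714652099485130754))))) (nd (nd (nd (lf 0) (nd (lf 0) (lf 20482))) (nd (lf 0) (nd (lf 0) (lf 32770)))) (nd (nd (lf 0) (nd (lf 0) (lf 28674))) (nd (lf 0) (nd (lf 0) (lf 9223935467878109186)))))) (nd (nd (nd (nd (lf 0) (nd (lf 0) (lf 24578))) (nd (lf 0) (nd (lf 0) (lf 32770)))) (nd (nd (lf 0) (nd (lf 0) (lf 481069924354))) (nd (lf 0) (nd (lf 0) (lf 9223935467878113282))))) (nd (nd (nd (lf 0) (nd (lf 0) (lf 36866))) (nd (lf 0) (nd (lf 0) (lf 32770)))) (nd (nd (lf 0) (nd (lf 0) (lf 481069924354))) (nd (lf 0) (nd (lf 0) (lf 549789396994))))))))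

def p327 : Tr :=
  (nd (nd (nd (nd (nd (nd (lf 0) (nd (lf 0) (lf 282627))) (nd (lf 0) (nd (lf 0) (lf 24578)))) (nd (nd (lf 0) (nd (lf 0) (lf 20482))) (nd (lf 0) (nd (lf 0) (lf 53758251517958352551238813797549018073176776139161065760739727707597986031582007695843369833452567547907))))) (nd (nd (nd (lf 0) (nd (lf 0) (lf 18322266060505091))) (nd (lf 0) (nd (lf 0) (lf 24578)))) (nd (nd (lf 0) (nd (lf 0) (lf 4810413719554))) (nd (lf 0) (nd (lf 0) (lf 32669766035347545417325270376956815491075)))))) (nd (nd (nd (nd (lf 0) (nd (lf 0) (lf 79552428723872489474))) (nd (lf 0) (nd (lf 0) (lf 24578)))) (nd (nd (lf 0) (nd (lf 0) (lf 286723))) (nd (lf 0) (nd (lf 0) (lf 1947269817291785382837016871587843))))) (nd (nd (nd (lf 0) (nd (lf 0) (lf 24578))) (nd (lf 0) (nd (lf 0) (lf 24578)))) (nd (nd (lf 0) (nd (lf 0) (lf 286723))) (nd (lf 0) (nd (lf 0) (lf 1813536339711198008467459))))))) (nd (nd (nd (nd (lf 0) (nd (lf 0) (nd (lf 0) (lf 24578)))) (nd (nd (lf 0)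 (nd (lf 0) (lf 20482))) (nd (lf 0) (nd (lf 0) (lf 26390426836995))))) (nd (nd (lf 0) (nd (lf 0) (nd (lf 0) (lf 24578)))) (nd (nd (lf 0) (nd (lf 0) (lf 4810413719554))) (nd (lf 0) (nd (lf 0) (lf 442757891376461922306)))))) (nd (nd (nd (lf 0) (nd (lf 0) (nd (lf 0) (lf 24578)))) (nd (nd (lf 0) (nd (lf 0) (lf 343630966786))) (nd (lf 0) (nd (lf 0) (lf 412350435330))))) (nd (nd (lf 0) (nd (lf 0) (nd (lf 0) (lf 24578)))) (nd (lf 0) (nd (lf 0) (nd (lf 0) (lf 24578))))))))

def p328 : Tr :=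
  (nd (nd (nd (nd (nd (nd (lf 0) (nd (lf 0) (lf 294915))) (nd (lf 0) (nd (lf 0) (lf 548867)))) (nd (nd (lf 0) (nd (lf 0) (lf 32770))) (nd (lf 0) (nd (lf 0) (lf 178117525466247391297609246130137497603))))) (nd (nd (nd (lf 0) (nd (lf 0) (lf 4879133196290))) (nd (lf 0) (nd (lf 0) (lf 36866)))) (nd (nd (lf 0) (nd (lf 0) (lf 24578))) (nd (lf 0) (nd (lf 0) (lf 765676874178555455475866588807730057218)))))) (nd (nd (nd (nd (lf 0) (nd (lf 0) (lf 83011193031534620674))) (nd (lf 0) (nd (lf 0) (lf 737905800953861263362)))) (nd (nd (lf 0) (nd (lf 0) (lf 5460290315403982815235))) (nd (lf 0) (nd (lf 0) (lf 72373590337963684697862323646753332709501306356856833357299301411280359276548))))) (nd (nd (nd (lf 0) (nd (lf 0) (lf 16386))) (nd (lf 0) (nd (lf 0) (lf 20482)))) (nd (nd (lf 0) (nd (lf 0) (lf 412350431234))) (nd (lf 0) (nd (lf 0) (lf 412350431234))))))) (nd (nd (nd (nd (nd (lf 0) (nd (lf 0) (lf 48380659412995))) (nd (lf 0) (nd (lf 0) (lf 36866)))) (nd (nd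 (lf 0) (nd (lf 0) (lf 32770))) (nd (lf 0) (nd (lf 0) (lf 12380005519882430599433060354))))) (nd (nd (lf 0) (nd (lf 0) (nd (lf 0) (lf 36866)))) (nd (nd (lf 0) (nd (lf 0) (lf 481069928450))) (nd (lf 0) (nd (lf 0) (lf 618508873730)))))) (nd (nd (nd (nd (lf 0) (nd (lf 0) (lf 45058))) (nd (lf 0) (nd (lf 0) (lf 40962)))) (nd (nd (lf 0) (nd (lf 0) (lf 549789409282))) (nd (lf 0) (nd (lf 0) (lf 687228354562))))) (lf 0))))

def p329 : Tr :=
  (nd (nd (nd (nd (nd (nd (lf 0) (nd (lf 0) (lf 286723))) (nd (lf 0) (nd (lf 0) (lf 28674)))) (nd (nd (lf 0) (nd (lf 0) (lf 24578))) (nd (lf 0) (nd (lf 0) (lf 912655829170636719243850251704399529250970742960848846078366327775046327343479257409289216003))))) (nd (nd (nd (lf 0) (nd (lf 0) (lf 286723))) (nd (lf 0) (nd (lf 0) (lf 28674)))) (nd (nd (lf 0) (nd (lf 0) (lf 24578))) (nd (lf 0) (nd (lf 0) (lf 516544889251313246211)))))) (nd (nd (nd (nd (lf 0) (nd (lf 0) (lf 4810413723650))) (nd (lf 0) (nd (lf 0) (lf 28674))))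 (nd (nd (lf 0) (nd (lf 0) (lf 290819))) (nd (lf 0) (nd (lf 0) (lf 62717228359678020679745277884531293596038791408847598134092632803816261086398195691517342289107503038468))))) (nd (nd (nd (lf 0) (nd (lf 0) (lf 4810413719554))) (nd (lf 0) (nd (lf 0) (lf 28674)))) (nd (nd (lf 0) (nd (lf 0) (lf 4879133204482))) (nd (lf 0) (nd (lf 0) (lf 639451578806079315293264327187368591409232756738))))))) (nd (nd (nd (nd (lf 0) (nd (lf 0) (nd (lf 0) (lf 28674)))) (nd (nd (lf 0) (nd (lf 0) (lf 24578))) (nd (lf 0) (nd (lf 0) (lf 481069916162))))) (nd (nd (lf 0) (nd (lf 0) (nd (lf 0) (lf 28674)))) (nd (nd (lf 0) (nd (lf 0) (lf 24578))) (nd (lf 0) (nd (lf 0) (lf 516544867740019613698)))))) (nd (nd (nd (lf 0) (nd (lf 0) (nd (lf 0) (lf 28674)))) (nd (nd (lf 0) (nd (lf 0) (lf 412350447618))) (nd (lf 0) (nd (lf 0) (lf 481069916162))))) (nd (nd (lf 0) (nd (lf 0) (nd (lf 0) (lf 28674)))) (nd (nd (lf 0) (nd (lf 0) (lf 24578))) (nd (lf 0) (nd (lf 0) (lf 481069916162))))))))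

def p330 : Tr :=
  (nd (nd (nd (nd (nd (nd (lf 0) (nd (lf 0) (lf 24578))) (nd (lf 0) (nd (lf 0) (lf 552963)))) (nd (nd (lf 0) (nd (lf 0) (lf 548867))) (nd (lf 0) (nd (lf 0) (lf 179446753541260474407143878051653521411))))) (nd (nd (nd (lf 0) (nd (lf 0) (lf 24578))) (nd (lf 0) (nd (lf 0) (lf 40962)))) (nd (nd (lf 0) (nd (lf 0) (lf 28674))) (nd (lf 0) (nd (lf 0) (lf 45004390038679408915966642438527620808204290)))))) (nd (nd (nd (nd (lf 0) (nd (lf 0) (lf 84164114536141471746))) (nd (lf 0) (nd (lf 0) (lf 811692777317418946562)))) (nd (nd (lf 0) (nd (lf 0) (lf 5534077296096867532803))) (nd (lf 0) (nd (lf 0) (lf 79610595915401259203602147111201005722726984343638629215098676717355423776772))))) (nd (nd (nd (lf 0) (nd (lf 0) (lf 16386))) (nd (lf 0) (nd (lf 0) (lf 20482)))) (nd (nd (lf 0) (nd (lf 0) (lf 481069907970))) (nd (lf 0) (nd (lf 0) (lf 481069907970))))))) (nd (nd (nd (nd (nd (lf 0) (nd (lf 0) (lf 24578))) (nd (lf 0) (nd (lf 0) (lf 40962))))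 (nd (nd (lf 0) (nd (lf 0) (lf 36866))) (nd (lf 0) (nd (lf 0) (lf 65336876150155921820779225141508565393412))))) (nd (nd (nd (lf 0) (nd (lf 0) (lf 24578))) (nd (lf 0) (nd (lf 0) (lf 40962)))) (nd (nd (lf 0) (nd (lf 0) (lf 9223935674036543490))) (nd (lf 0) (nd (lf 0) (lf 11529778545811283970)))))) (nd (nd (nd (nd (lf 0) (nd (lf 0) (lf 49154))) (nd (lf 0) (nd (lf 0) (lf 45058)))) (nd (nd (lf 0) (nd (lf 0) (lf 618508890114))) (nd (lf 0) (nd (lf 0) (lf 755947835394))))) (lf 0))))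

def p331 : Tr :=
  (nd (nd (nd (nd (nd (nd (lf 0) (nd (lf 0) (lf 24578))) (nd (lf 0) (nd (lf 0) (lf 552963)))) (nd (nd (lf 0) (nd (lf 0) (lf 540675))) (nd (lf 0) (nd (lf 0) (lf 4296896078609059615756696618854578927982221111617866066152798206700538694660840950853550082))))) (nd (nd (nd (lf 0) (nd (lf 0) (lf 16386))) (lf 0)) (nd (nd (lf 0) (nd (lf 0) (lf 28674))) (nd (lf 0) (nd (lf 0) (lf 481069907970)))))) (nd (nd (nd (nd (lf 0) (nd (lf 0) (lf 16386))) (nd (lf 0) (nd (lf 0) (lf 35186520125443)))) (nd (nd (lf 0) (nd (lf 0) (lf 540675))) (nd (lf 0) (nd (lf 0) (lf 282428783216605253727117979946272882381556431756817248369057259326100164775676252605798367546749501444))))) (nd (nd (nd (lf 0) (nd (lf 0) (lf 16386))) (lf 0)) (nd (nd (lf 0) (nd (lf 0) (lf 481069912066))) (nd (lf 0) (nd (lf 0) (lf 481069907970))))))) (nd (nd (nd (nd (nd (lf 0) (nd (lf 0) (lf 24578))) (nd (lf 0) (nd (lf 0) (lf 552963)))) (nd (nd (lf 0) (nd (lf 0) (lf 28674))) (nd (lf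 0) (nd (lf 0) (lf 2611293945538061383413809154))))) (nd (nd (nd (lf 0) (nd (lf 0) (lf 16386))) (lf 0)) (nd (nd (lf 0) (nd (lf 0) (lf 28674))) (nd (lf 0) (nd (lf 0) (lf 481069907970)))))) (nd (nd (nd (nd (lf 0) (nd (lf 0) (lf 16386))) (nd (lf 0) (nd (lf 0) (lf 35186520125443)))) (nd (nd (lf 0) (nd (lf 0) (lf 30788473602051))) (nd (lf 0) (nd (lf 0) (lf 730795431640440746988794357439951805130945871876))))) (nd (nd (nd (lf 0) (nd (lf 0) (lf 16386))) (lf 0)) (nd (nd (lf 0) (nd (lf 0) (lf 28674))) (nd (lf 0) (nd (lf 0) (lf 481069907970))))))))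

def p332 : Tr :=
  (nd (nd (nd (nd (nd (nd (lf 0) (nd (lf 0) (lf 16386))) (nd (lf 0) (nd (lf 0) (lf 28674)))) (nd (nd (lf 0) (nd (lf 0) (lf 540675))) (nd (lf 0) (nd (lf 0) (lf 3481505695993945004439736372773740880016215297549624809564080535030545066253021308014594))))) (nd (nd (nd (lf 0) (nd (lf 0) (lf 16386))) (nd (lf 0) (nd (lf 0) (lf 28674)))) (nd (nd (lf 0) (nd (lf 0) (lf 24578))) (nd (lf 0) (nd (lf 0) (lf 516544889251313246211)))))) (nd (nd (nd (nd (lf 0) (nd (lf 0) (lf 20482))) (nd (lf 0) (nd (lf 0) (lf 28674)))) (nd (nd (lf 0) (nd (lf 0) (lf 290819))) (nd (lf 0) (nd (lf 0) (lf 11793349078721626794688632879232689023141195829250))))) (nd (nd (nd (lf 0) (nd (lf 0) (lf 1818701463777576564588546))) (nd (lf 0) (nd (lf 0) (lf 28674)))) (nd (nd (lf 0) (nd (lf 0) (lf 4879133204482))) (nd (lf 0) (nd (lf 0) (lf 2619193666795145393317016301975788750436712581455875))))))) (nd (nd (nd (nd (nd (lf 0) (nd (lf 0) (lf 16386))) (nd (lf 0) (nd (lf 0) (lf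 28674)))) (nd (nd (lf 0) (nd (lf 0) (lf 24578))) (nd (lf 0) (nd (lf 0) (lf 135409143447896459363504130))))) (nd (nd (nd (lf 0) (nd (lf 0) (lf 16386))) (nd (lf 0) (nd (lf 0) (lf 28674)))) (nd (nd (lf 0) (nd (lf 0) (lf 24578))) (nd (lf 0) (nd (lf 0) (lf 8071013894551781378)))))) (nd (nd (nd (nd (lf 0) (nd (lf 0) (lf 20482))) (nd (lf 0) (nd (lf 0) (lf 28674)))) (nd (nd (lf 0) (nd (lf 0) (lf 412350443522))) (nd (lf 0) (nd (lf 0) (lf 8071013894551785474))))) (nd (nd (nd (lf 0) (nd (lf 0) (lf 32770))) (nd (lf 0) (nd (lf 0) (lf 28674)))) (nd (nd (lf 0) (nd (lf 0) (lf 412350443522))) (nd (lf 0) (nd (lf 0) (lf 481069916162))))))))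

def p333 : Tr :=
  (nd (nd (nd (nd (nd (nd (lf 0) (nd (lf 0) (lf 16386))) (nd (lf 0) (nd (lf 0) (lf 548867)))) (nd (nd (lf 0) (nd (lf 0) (lf 540675))) (nd (lf 0) (nd (lf 0) (lf 16269940958614596991660211220851480905328959168114223986526847840778043262028484722690))))) (nd (nd (nd (lf 0) (nd (lf 0) (lf 16386))) (nd (lf 0) (nd (lf 0) (lf 28674)))) (nd (nd (lf 0) (nd (lf 0) (lf 24578))) (nd (lf 0) (nd (lf 0) (lf 8071013894551781378)))))) (nd (nd (nd (nd (lf 0) (nd (lf 0) (lf 16386))) (nd (lf 0) (nd (lf 0) (lf 28674)))) (nd (nd (lf 0) (nd (lf 0) (lf 540675))) (nd (lf 0) (nd (lf 0) (lf 44143535551861978179087825685263099211279741960201269952516))))) (nd (nd (nd (lf 0) (nd (lf 0) (lf 16386))) (nd (lf 0) (nd (lf 0) (lf 28674)))) (nd (nd (lf 0) (nd (lf 0) (lf 412350431234))) (nd (lf 0) (nd (lf 0) (lf 8071013894551781378))))))) (nd (nd (nd (nd (nd (lf 0) (nd (lf 0) (lf 16386))) (nd (lf 0) (nd (lf 0) (lf 548867)))) (nd (nd (lf 0) (nd (lf 0) (lf 24578)))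 (nd (lf 0) (nd (lf 0) (lf 2591951131271305812011663362))))) (nd (nd (nd (lf 0) (nd (lf 0) (lf 16386))) (nd (lf 0) (nd (lf 0) (lf 32770)))) (nd (nd (lf 0) (nd (lf 0) (lf 24578))) (nd (lf 0) (nd (lf 0) (lf 9223935399158628354)))))) (nd (nd (nd (nd (lf 0) (nd (lf 0) (lf 16386))) (nd (lf 0) (nd (lf 0) (lf 2125433924239617035358210)))) (nd (nd (lf 0) (nd (lf 0) (lf 26390427090947))) (nd (lf 0) (nd (lf 0) (lf 2631159755671671475680903748399995234641371938181124))))) (nd (nd (nd (lf 0) (nd (lf 0) (lf 16386))) (nd (lf 0) (nd (lf 0) (lf 20482)))) (nd (nd (lf 0) (nd (lf 0) (lf 412350431234))) (nd (lf 0) (nd (lf 0) (lf 412350431234))))))))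

def p334 : Tr :=
  (nd (nd (nd (nd (nd (nd (lf 0) (nd (lf 0) (lf 24578))) (nd (lf 0) (nd (lf 0) (lf 49154)))) (nd (nd (lf 0) (nd (lf 0) (lf 548867))) (nd (lf 0) (nd (lf 0) (lf 26248078255421483998563651442223099092652146273129797841178507219323834001842623920925123670731698179))))) (nd (nd (nd (lf 0) (nd (lf 0) (lf 24578))) (nd (lf 0) (nd (lf 0) (lf 49154)))) (nd (nd (lf 0) (nd (lf 0) (lf 28674))) (nd (lf 0) (nd (lf 0) (lf 136243870575211858396486968875132344546123778)))))) (nd (nd (nd (nd (lf 0) (nd (lf 0) (lf 86469957545355173890))) (nd (lf 0) (nd (lf 0) (lf 49154)))) (nd (nd (lf 0) (nd (lf 0) (lf 311299))) (nd (lf 0) (nd (lf 0) (lf 86847601492838833703457187697724770524589187409297331390957864022417171038212))))) (nd (nd (nd (lf 0) (nd (lf 0) (lf 16386))) (nd (lf 0) (nd (lf 0) (lf 49154)))) (nd (nd (lf 0) (nd (lf 0) (lf 5222730592258))) (nd (lf 0) (nd (lf 0) (lf 1020888649372973122836118673085912072194))))))) (nd (nd (nd (nd (nd (lf 0)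 (nd (lf 0) (lf 24578))) (nd (lf 0) (nd (lf 0) (lf 49154)))) (nd (nd (lf 0) (nd (lf 0) (lf 45058))) (nd (lf 0) (nd (lf 0) (lf 60849705049936895183985725431812))))) (nd (nd (nd (lf 0) (nd (lf 0) (lf 24578))) (nd (lf 0) (nd (lf 0) (lf 49154)))) (nd (nd (lf 0) (nd (lf 0) (lf 5222730600450))) (nd (lf 0) (nd (lf 0) (lf 249240391884541527285292097337319426)))))) (nd (nd (nd (nd (lf 0) (nd (lf 0) (lf 57346))) (nd (lf 0) (nd (lf 0) (lf 49154)))) (nd (nd (lf 0) (nd (lf 0) (lf 755947851778))) (nd (lf 0) (nd (lf 0) (lf 824667320322))))) (nd (nd (lf 0) (nd (lf 0) (nd (lf 0) (lf 49154)))) (nd (lf 0) (nd (lf 0) (nd (lf 0) (lf 49154))))))))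

def p335 : Tr :=
  (nd (nd (nd (nd (nd (nd (lf 0) (nd (lf 0) (lf 278531))) (nd (lf 0) (nd (lf 0) (lf 540675)))) (nd (nd (lf 0) (nd (lf 0) (lf 16386))) (nd (lf 0) (nd (lf 0) (lf 4511229655164449309312766165936496676555172069448799292633185737684265629283938937552191593352806403))))) (nd (nd (nd (lf 0) (nd (lf 0) (lf 278531))) (lf 0)) (nd (nd (lf 0) (nd (lf 0) (lf 16386))) (nd (lf 0) (nd (lf 0) (lf 17594333806595)))))) (nd (nd (nd (nd (lf 0) (nd (lf 0) (lf 4672974770178))) (nd (lf 0) (nd (lf 0) (lf 21992380579843)))) (nd (nd (lf 0) (nd (lf 0) (lf 4741694242818))) (nd (lf 0) (nd (lf 0) (lf 29232887944771711654511886936654613359473868423171))))) (nd (nd (nd (lf 0) (nd (lf 0) (lf 278531))) (lf 0)) (nd (nd (lf 0) (nd (lf 0) (lf 16386))) (nd (lf 0) (nd (lf 0) (lf 17594333806595))))))) (nd (nd (nd (nd (lf 0) (nd (lf 0) (nd (lf 0) (lf 540675)))) (nd (nd (lf 0) (nd (lf 0) (lf 16386))) (nd (lf 0) (nd (lf 0) (lf 9071021277186))))) (nd (lf 0) (nd (nd (lf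 0) (nd (lf 0) (lf 16386))) (nd (lf 0) (nd (lf 0) (lf 16386)))))) (nd (nd (nd (lf 0) (nd (lf 0) (nd (lf 0) (lf 21992380579843)))) (nd (nd (lf 0) (nd (lf 0) (lf 16386))) (nd (lf 0) (nd (lf 0) (lf 368970919342231273474))))) (nd (lf 0) (nd (nd (lf 0) (nd (lf 0) (lf 16386))) (nd (lf 0) (nd (lf 0) (lf 16386))))))))

def p336 : Tr :=
  (nd (nd (nd (nd (nd (nd (lf 0) (nd (lf 0) (lf 20482))) (nd (lf 0) (nd (lf 0) (lf 2417999250899701097578500)))) (nd (nd (lf 0) (nd (lf 0) (lf 544771))) (nd (lf 0) (nd (lf 0) (lf 1130049557405164504741754327030629215437800933597743249862285357483513944943414531544490924152803676956110735175873744900))))) (nd (nd (nd (lf 0) (nd (lf 0) (lf 20482))) (lf 0)) (nd (nd (lf 0) (nd (lf 0) (lf 442757895637069484034))) (nd (lf 0) (nd (lf 0) (lf 7428244850808572271927513090)))))) (nd (nd (nd (nd (lf 0) (nd (lf 0) (lf 16386))) (nd (lf 0) (nd (lf 0) (lf 32770)))) (nd (nd (lf 0) (nd (lf 0) (lf 5312716367212352913411))) (nd (lf 0) (nd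 (lf 0) (lf 50219879629040862778920328402047302258116466211221443985412))))) (nd (nd (nd (lf 0) (nd (lf 0) (lf 16386))) (lf 0)) (nd (lf 0) (nd (lf 0) (nd (lf 0) (lf 16386))))))) (nd (nd (nd (nd (nd (lf 0) (nd (lf 0) (lf 20482))) (nd (lf 0) (nd (lf 0) (lf 35186520121347)))) (nd (nd (lf 0) (nd (lf 0) (lf 5312716362814306406403))) (nd (lf 0) (nd (lf 0) (lf 784685619649130275513349850636127504235034840745952956420))))) (nd (nd (nd (lf 0) (nd (lf 0) (lf 20482))) (lf 0)) (nd (nd (lf 0) (nd (lf 0) (lf 412350435330))) (nd (lf 0) (nd (lf 0) (lf 412350435330)))))) (nd (nd (nd (lf 0) (nd (lf 0) (nd (lf 0) (lf 32770)))) (nd (lf 0) (nd (lf 0) (nd (lf 0) (lf 32770))))) (lf 0))))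

def p337 : Tr :=
  (nd (nd (nd (nd (nd (nd (lf 0) (nd (lf 0) (lf 20482))) (nd (lf 0) (nd (lf 0) (lf 32770)))) (nd (nd (lf 0) (nd (lf 0) (lf 544771))) (nd (lf 0) (nd (lf 0) (lf 3978828962046508258195234740037009124934505641951580255107906255348518602011141184970754))))) (nd (nd (nd (lf 0) (nd (lf 0) (lf 20482))) (nd (lf 0) (nd (lf 0) (lf 32770)))) (nd (nd (lf 0) (nd (lf 0) (lf 28674))) (nd (lf 0) (nd (lf 0) (lf 590331869944197967875)))))) (nd (nd (nd (nd (lf 0) (nd (lf 0) (lf 24578))) (nd (lf 0) (nd (lf 0) (lf 32770)))) (nd (nd (lf 0) (nd (lf 0) (lf 294915))) (nd (lf 0) (nd (lf 0) (lf 2879584064065055842858200177971343571411820546))))) (nd (nd (nd (lf 0) (nd (lf 0) (lf 4879133196290))) (nd (lf 0) (nd (lf 0) (lf 32770)))) (nd (nd (lf 0) (nd (lf 0) (lf 4947852685314))) (nd (lf 0) (nd (lf 0) (lf 730795431140589975678017485218112443836465692674))))))) (nd (nd (nd (nd (nd (lf 0) (nd (lf 0) (lf 20482))) (nd (lf 0) (nd (lf 0) (lf 32770)))) (nd (nd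 (lf 0) (nd (lf 0) (lf 28674))) (nd (lf 0) (nd (lf 0) (lf 154751957714652099485130754))))) (nd (nd (nd (lf 0) (nd (lf 0) (lf 20482))) (nd (lf 0) (nd (lf 0) (lf 32770)))) (nd (nd (lf 0) (nd (lf 0) (lf 28674))) (nd (lf 0) (nd (lf 0) (lf 9223935467878109186)))))) (nd (nd (nd (nd (lf 0) (nd (lf 0) (lf 24578))) (nd (lf 0) (nd (lf 0) (lf 32770)))) (nd (nd (lf 0) (nd (lf 0) (lf 481069924354))) (nd (lf 0) (nd (lf 0) (lf 9223935467878113282))))) (nd (nd (lf 0) (nd (lf 0) (nd (lf 0) (lf 32770)))) (nd (nd (lf 0) (nd (lf 0) (lf 481069924354))) (nd (lf 0) (nd (lf 0) (lf 549789396994))))))))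

def p338 : Tr :=
  (nd (nd (nd (nd (nd (nd (lf 0) (nd (lf 0) (lf 20482))) (nd (lf 0) (nd (lf 0) (lf 548867)))) (nd (nd (lf 0) (nd (lf 0) (lf 544771))) (nd (lf 0) (nd (lf 0) (lf 4579581240377575806269145100474531138107453847122849831449463783977590616036160289509431307619557379))))) (nd (nd (nd (lf 0) (nd (lf 0) (lf 20482))) (lf 0)) (nd (nd (lf 0) (nd (lf 0) (lf 24578))) (nd (lf 0) (nd (lf 0) (lf 26390426836995)))))) (nd (nd (nd (nd (lf 0) (nd (lf 0) (lf 4810413719554))) (nd (lf 0) (nd (lf 0) (lf 9208460230658)))) (nd (nd (lf 0) (nd (lf 0) (lf 26390427090947))) (nd (lf 0) (nd (lf 0) (lf 178117525466247372701039108165067620354))))) (nd (nd (nd (lf 0) (nd (lf 0) (lf 4810413719554))) (lf 0)) (nd (nd (lf 0) (nd (lf 0) (lf 412350431234))) (nd (lf 0) (nd (lf 0) (lf 442757891376461922306))))))) (nd (nd (nd (nd (nd (lf 0) (nd (lf 0) (lf 20482))) (nd (lf 0) (nd (lf 0) (lf 548867)))) (nd (nd (lf 0) (nd (lf 0) (lf 24578))) (nd (lf 0) (nd (lf 0) (lf 10616631833687268887474700046340)))))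 (nd (nd (nd (lf 0) (nd (lf 0) (lf 20482))) (lf 0)) (nd (nd (lf 0) (nd (lf 0) (lf 24578))) (nd (lf 0) (nd (lf 0) (lf 412350435330)))))) (nd (nd (nd (lf 0) (nd (lf 0) (nd (lf 0) (lf 548867)))) (nd (nd (lf 0) (nd (lf 0) (lf 24578))) (nd (lf 0) (nd (lf 0) (lf 9208460238850))))) (nd (lf 0) (nd (nd (lf 0) (nd (lf 0) (lf 24578))) (nd (lf 0) (nd (lf 0) (lf 24578))))))))

def p339 : Tr :=
  (nd (nd (nd (nd (nd (nd (lf 0) (nd (lf 0) (lf 20482))) (nd (lf 0) (nd (lf 0) (lf 28674)))) (nd (nd (lf 0) (nd (lf 0) (lf 544771))) (nd (lf 0) (nd (lf 0) (lf 222816364543612480284143127857519416321037779043175987812101154241954958027174056596627459))))) (nd (nd (nd (lf 0) (nd (lf 0) (lf 20482))) (nd (lf 0) (nd (lf 0) (lf 28674)))) (nd (nd (lf 0) (nd (lf 0) (lf 24578))) (nd (lf 0) (nd (lf 0) (lf 516544889251313246211)))))) (nd (nd (nd (nd (lf 0) (nd (lf 0) (lf 307866478866435))) (nd (lf 0) (nd (lf 0) (lf 28674)))) (nd (nd (lf 0) (nd (lf 0) (lf 290819))) (nd (lf 0)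 (nd (lf 0) (lf 193262381003002018641502648835731340754237376810784060388132713763717124))))) (nd (nd (nd (lf 0) (nd (lf 0) (lf 4810413719554))) (nd (lf 0) (nd (lf 0) (lf 28674)))) (nd (nd (lf 0) (nd (lf 0) (lf 4879133204482))) (nd (lf 0) (nd (lf 0) (lf 639451578806079315293264327187368591409232756738))))))) (nd (nd (nd (nd (nd (lf 0) (nd (lf 0) (lf 20482))) (nd (lf 0) (nd (lf 0) (lf 28674)))) (nd (nd (lf 0) (nd (lf 0) (lf 24578))) (nd (lf 0) (nd (lf 0) (lf 2271788448000340222485370698747908))))) (nd (nd (nd (lf 0) (nd (lf 0) (lf 20482))) (nd (lf 0) (nd (lf 0) (lf 28674)))) (nd (nd (lf 0) (nd (lf 0) (lf 24578))) (nd (lf 0) (nd (lf 0) (lf 8071013894551785474)))))) (nd (nd (nd (lf 0) (nd (lf 0) (nd (lf 0) (lf 28674)))) (nd (nd (lf 0) (nd (lf 0) (lf 412350443522))) (nd (lf 0) (nd (lf 0) (lf 481069916162))))) (nd (nd (lf 0) (nd (lf 0) (nd (lf 0) (lf 28674)))) (nd (nd (lf 0) (nd (lf 0) (lf 412350443522))) (nd (lf 0) (nd (lf 0) (lf 481069916162))))))))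

def p340 : Tr :=
  (nd (nd (nd (nd (nd (nd (lf 0) (nd (lf 0) (lf 24578))) (nd (lf 0) (nd (lf 0) (lf 552963)))) (nd (nd (lf 0) (nd (lf 0) (lf 548867))) (nd (lf 0) (nd (lf 0) (lf 80084475569159101150966874338381930775461432780775468378897736629944829923749532576202451655894319423020472191180804))))) (nd (nd (nd (lf 0) (nd (lf 0) (lf 24578))) (nd (lf 0) (nd (lf 0) (lf 36866)))) (nd (nd (lf 0) (nd (lf 0) (lf 28674))) (nd (lf 0) (nd (lf 0) (lf 703108523762635529696630427443044378763266)))))) (nd (nd (nd (nd (lf 0) (nd (lf 0) (lf 16386))) (nd (lf 0) (nd (lf 0) (lf 737905801022580740098)))) (nd (nd (lf 0) (nd (lf 0) (lf 5460290319802029326339))) (nd (lf 0) (nd (lf 0) (lf 67403158487718258703090626151644391568266561662153778066415768059908))))) (nd (nd (nd (lf 0) (nd (lf 0) (lf 16386))) (nd (lf 0) (nd (lf 0) (lf 20482)))) (nd (nd (lf 0) (nd (lf 0) (lf 481069907970))) (nd (lf 0) (nd (lf 0) (lf 481069907970))))))) (nd (nd (nd (nd (nd (lf 0) (nd (lf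 0) (lf 24578))) (nd (lf 0) (nd (lf 0) (lf 36866)))) (nd (nd (lf 0) (nd (lf 0) (lf 5460290324200075845635))) (nd (lf 0) (nd (lf 0) (lf 1053174395199969196838625452651196896761672892447704908925038518276))))) (nd (nd (nd (lf 0) (nd (lf 0) (lf 24578))) (nd (lf 0) (nd (lf 0) (lf 36866)))) (nd (nd (lf 0) (nd (lf 0) (lf 303877593268226))) (nd (lf 0) (nd (lf 0) (lf 11963701084705498197651940238554062850)))))) (nd (nd (nd (lf 0) (nd (lf 0) (nd (lf 0) (lf 40962)))) (nd (lf 0) (nd (lf 0) (nd (lf 0) (lf 40962))))) (lf 0))))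

def p341 : Tr :=
  (nd (nd (nd (nd (nd (nd (lf 0) (nd (lf 0) (lf 20482))) (nd (lf 0) (nd (lf 0) (lf 1331203)))) (nd (nd (lf 0) (nd (lf 0) (lf 544771))) (nd (lf 0) (nd (lf 0) (lf 19558736666357995578668126772177432331475125668614546003554048937754726576227883497309414787715213349983306936323))))) (nd (nd (nd (lf 0) (nd (lf 0) (lf 20482))) (nd (lf 0) (nd (lf 0) (lf 32770)))) (nd (nd (lf 0) (nd (lf 0) (lf 5312716362814306402307))) (nd (lf 0) (nd (lf 0) (lf 12260712800058804389384845800043139613575085108699877378)))))) (nd (nd (nd (nd (lf 0) (nd (lf 0) (lf 81858271526927769602))) (nd (lf 0) (nd (lf 0) (lf 36866)))) (nd (nd (lf 0) (nd (lf 0) (lf 5386503343507191119875))) (nd (lf 0) (nd (lf 0) (lf 60663171820832519034145136680116298971443928555720860657766457950212))))) (nd (nd (nd (lf 0) (nd (lf 0) (lf 16386))) (lf 0)) (nd (lf 0) (nd (lf 0) (nd (lf 0) (lf 16386))))))) (nd (nd (nd (nd (nd (lf 0) (nd (lf 0) (lf 20482))) (nd (lf 0) (nd (lf 0) (lf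 32770)))) (nd (nd (lf 0) (nd (lf 0) (lf 28674))) (nd (lf 0) (nd (lf 0) (lf 223018351655521259468659877737321795292778500))))) (nd (nd (nd (lf 0) (nd (lf 0) (lf 20482))) (nd (lf 0) (nd (lf 0) (lf 32770)))) (nd (nd (lf 0) (nd (lf 0) (lf 303808873783298))) (nd (lf 0) (nd (lf 0) (lf 10634473088901239509328455964825767938)))))) (nd (nd (nd (nd (lf 0) (nd (lf 0) (lf 40962))) (nd (lf 0) (nd (lf 0) (lf 36866)))) (nd (nd (lf 0) (nd (lf 0) (lf 481069928450))) (nd (lf 0) (nd (lf 0) (lf 618508873730))))) (lf 0))))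

def p342 : Tr :=
  (nd (nd (nd (nd (nd (nd (lf 0) (nd (lf 0) (lf 24578))) (nd (lf 0) (nd (lf 0) (lf 34095108)))) (nd (nd (lf 0) (nd (lf 0) (lf 548867))) (nd (lf 0) (nd (lf 0) (lf 4973475494151636532553296252904324808309122975511033943214711360118883143094664224063490))))) (nd (nd (nd (lf 0) (nd (lf 0) (lf 24578))) (nd (lf 0) (nd (lf 0) (lf 45058)))) (nd (nd (lf 0) (nd (lf 0) (lf 540675))) (nd (lf 0) (nd (lf 0) (lf 737905800816422305794)))))) (nd (nd (nd (nd (lf 0) (nd (lf 0) (lf 16386))) (nd (lf 0) (nd (lf 0) (lf 40962)))) (nd (nd (lf 0) (nd (lf 0) (lf 540675))) (nd (lf 0) (nd (lf 0) (lf 197931400585524912360354101549812034110293717553603166212))))) (nd (nd (nd (lf 0) (nd (lf 0) (lf 16386))) (nd (lf 0) (nd (lf 0) (lf 40962)))) (nd (nd (lf 0) (nd (lf 0) (lf 5085291638786))) (nd (lf 0) (nd (lf 0) (lf 14273173997025176506992559392687909579329126402))))))) (nd (nd (nd (nd (nd (lf 0) (nd (lf 0) (lf 24578))) (nd (lf 0) (nd (lf 0) (lf 45058)))) (nd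 (nd (lf 0) (nd (lf 0) (lf 36866))) (nd (lf 0) (nd (lf 0) (lf 12380004941080646241765834754))))) (nd (nd (nd (lf 0) (nd (lf 0) (lf 24578))) (nd (lf 0) (nd (lf 0) (lf 45058)))) (nd (nd (lf 0) (nd (lf 0) (lf 5460290324200075837443))) (nd (lf 0) (nd (lf 0) (lf 13292929086564945774306336456006713346)))))) (nd (nd (nd (nd (lf 0) (nd (lf 0) (lf 16386))) (nd (lf 0) (nd (lf 0) (lf 40962)))) (nd (nd (lf 0) (nd (lf 0) (lf 39584566624259))) (nd (lf 0) (nd (lf 0) (lf 17127670061506473969785153554719568223409815556))))) (nd (nd (nd (lf 0) (nd (lf 0) (lf 16386))) (nd (lf 0) (nd (lf 0) (lf 40962)))) (nd (lf 0) (nd (lf 0) (nd (lf 0) (lf 687228338178))))))))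

def p343 : Tr :=
  (nd (nd (nd (nd (nd (nd (lf 0) (nd (lf 0) (lf 282627))) (nd (lf 0) (nd (lf 0) (lf 544771)))) (nd (nd (lf 0) (nd (lf 0) (lf 20482))) (nd (lf 0) (nd (lf 0) (lf 4545405447771012557790955633205513907331312958285824562041324760830928122660049613530811450486181891))))) (nd (nd (nd (lf 0) (nd (lf 0) (lf 282627))) (lf 0)) (nd (nd (lf 0) (nd (lf 0) (lf 20482))) (nd (lf 0) (nd (lf 0) (lf 21992380321795)))))) (nd (nd (nd (nd (lf 0) (nd (lf 0) (lf 4741694242818))) (nd (lf 0) (nd (lf 0) (lf 26390427095043)))) (nd (nd (lf 0) (nd (lf 0) (lf 5165142405826583478275))) (nd (lf 0) (nd (lf 0) (lf 43425568028213386675197268932808891333736950651147555540320945738033872257028))))) (nd (nd (nd (lf 0) (nd (lf 0) (lf 4741694242818))) (lf 0)) (nd (nd (lf 0) (nd (lf 0) (lf 20482))) (nd (lf 0) (nd (lf 0) (lf 368970915012904239106))))))) (nd (nd (nd (nd (lf 0) (nd (lf 0) (nd (lf 0) (lf 544771)))) (nd (nd (lf 0) (nd (lf 0) (lf 20482))) (nd (lf 0) (nd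 (lf 0) (lf 9139740758018))))) (nd (lf 0) (nd (nd (lf 0) (nd (lf 0) (lf 20482))) (nd (lf 0) (nd (lf 0) (lf 20482)))))) (nd (nd (nd (lf 0) (nd (lf 0) (nd (lf 0) (lf 26390427095043)))) (nd (nd (lf 0) (nd (lf 0) (lf 20482))) (nd (lf 0) (nd (lf 0) (lf 442757895705788960770))))) (nd (lf 0) (nd (nd (lf 0) (nd (lf 0) (lf 20482))) (nd (lf 0) (nd (lf 0) (lf 20482))))))))

def p344 : Tr :=
  (nd (nd (nd (nd (nd (nd (lf 0) (nd (lf 0) (lf 16386))) (nd (lf 0) (nd (lf 0) (lf 548867)))) (nd (nd (lf 0) (nd (lf 0) (lf 540675))) (nd (lf 0) (nd (lf 0) (lf 971393789562135805223445981452815435260003544856028311286071368190566514961644797954))))) (nd (nd (nd (lf 0) (nd (lf 0) (lf 16386))) (nd (lf 0) (nd (lf 0) (lf 32770)))) (nd (nd (lf 0) (nd (lf 0) (lf 24578))) (nd (lf 0) (nd (lf 0) (lf 9223935399158628354)))))) (nd (nd (nd (nd (lf 0) (nd (lf 0) (lf 16386))) (nd (lf 0) (nd (lf 0) (lf 32770)))) (nd (nd (lf 0) (nd (lf 0) (lf 540675))) (nd (lf 0) (nd (lf 0) (lf 3827623754172199355484104970472667427666681876893852067221411285704063056108601348)))))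 (nd (nd (nd (lf 0) (nd (lf 0) (lf 16386))) (nd (lf 0) (nd (lf 0) (lf 32770)))) (nd (nd (lf 0) (nd (lf 0) (lf 4947852681218))) (nd (lf 0) (nd (lf 0) (lf 11418678611571718369969023205380085629012951042))))))) (nd (nd (nd (nd (nd (lf 0) (nd (lf 0) (lf 16386))) (nd (lf 0) (nd (lf 0) (lf 548867)))) (nd (nd (lf 0) (nd (lf 0) (lf 24578))) (nd (lf 0) (nd (lf 0) (lf 154751956561730526158798850))))) (nd (nd (nd (lf 0) (nd (lf 0) (lf 16386))) (nd (lf 0) (nd (lf 0) (lf 32770)))) (nd (nd (lf 0) (nd (lf 0) (lf 24578))) (nd (lf 0) (nd (lf 0) (lf 9904124860204042682753892354)))))) (nd (nd (nd (nd (lf 0) (nd (lf 0) (lf 16386))) (nd (lf 0) (nd (lf 0) (lf 32770)))) (nd (nd (lf 0) (nd (lf 0) (lf 26390427090947))) (nd (lf 0) (nd (lf 0) (lf 11418679120541440843877976119399071988369080324))))) (nd (nd (nd (lf 0) (nd (lf 0) (lf 16386))) (nd (lf 0) (nd (lf 0) (lf 32770)))) (nd (nd (lf 0) (nd (lf 0) (lf 6918092527383887874))) (nd (lf 0) (nd (lf 0) (lf 9223935399158628354))))))))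

def p345 : Tr :=
  (nd (nd (nd (nd (nd (nd (lf 0) (nd (lf 0) (lf 278531))) (nd (lf 0) (nd (lf 0) (lf 24578)))) (nd (nd (lf 0) (nd (lf 0) (lf 16386))) (nd (lf 0) (nd (lf 0) (lf 782285518914553577651368887714891833799709512414364226876104569285052094763166336704053526531))))) (nd (nd (nd (lf 0) (nd (lf 0) (lf 278531))) (nd (lf 0) (nd (lf 0) (lf 24578)))) (nd (nd (lf 0) (nd (lf 0) (lf 16386))) (nd (lf 0) (nd (lf 0) (lf 442757904160382009347)))))) (nd (nd (nd (nd (lf 0) (nd (lf 0) (lf 78399507219265642498))) (nd (lf 0) (nd (lf 0) (lf 24578)))) (nd (nd (lf 0) (nd (lf 0) (lf 286723))) (nd (lf 0) (nd (lf 0) (lf 1947269817291785382837016871587843))))) (nd (nd (nd (lf 0) (nd (lf 0) (lf 4672974774274))) (nd (lf 0) (nd (lf 0) (lf 24578)))) (nd (nd (lf 0) (nd (lf 0) (lf 4810413719554))) (nd (lf 0) (nd (lf 0) (lf 32669766334984818393499324863126144565251))))))) (nd (nd (nd (nd (lf 0) (nd (lf 0) (nd (lf 0) (lf 24578)))) (nd (nd (lf 0) (nd (lf 0) (lf 16386)))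 (nd (lf 0) (nd (lf 0) (lf 412350431234))))) (nd (nd (lf 0) (nd (lf 0) (nd (lf 0) (lf 24578)))) (nd (nd (lf 0) (nd (lf 0) (lf 16386))) (nd (lf 0) (nd (lf 0) (lf 442757891376461922306)))))) (nd (nd (nd (lf 0) (nd (lf 0) (nd (lf 0) (lf 24578)))) (nd (nd (lf 0) (nd (lf 0) (lf 274911490050))) (nd (lf 0) (nd (lf 0) (lf 412350431234))))) (nd (nd (lf 0) (nd (lf 0) (nd (lf 0) (lf 24578)))) (nd (nd (lf 0) (nd (lf 0) (lf 16386))) (nd (lf 0) (nd (lf 0) (lf 412350431234))))))))

def p346 : Tr :=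
  (nd (nd (nd (nd (nd (nd (lf 0) (nd (lf 0) (lf 16386))) (nd (lf 0) (nd (lf 0) (lf 548867)))) (nd (nd (lf 0) (nd (lf 0) (lf 540675))) (nd (lf 0) (nd (lf 0) (lf 4265067391449190495786392223531874956663189313488872564817291340360211908844691512400822274))))) (nd (nd (nd (lf 0) (nd (lf 0) (lf 16386))) (lf 0)) (nd (nd (lf 0) (nd (lf 0) (lf 24578))) (nd (lf 0) (nd (lf 0) (lf 412350431234)))))) (nd (nd (nd (nd (lf 0) (nd (lf 0) (lf 16386))) (nd (lf 0) (nd (lf 0) (lf 154492326385878581250)))) (nd (nd (lf 0) (nd (lf 0) (lf 540675))) (nd (lf 0) (nd (lf 0) (lf 684535038566717568578388780138500))))) (nd (nd (nd (lf 0) (nd (lf 0) (lf 16386))) (lf 0)) (nd (nd (lf 0) (nd (lf 0) (lf 412350435330))) (nd (lf 0) (nd (lf 0) (lf 412350431234))))))) (nd (nd (nd (nd (nd (lf 0) (nd (lf 0) (lf 16386))) (nd (lf 0) (nd (lf 0) (lf 548867)))) (nd (nd (lf 0) (nd (lf 0) (lf 24578))) (nd (lf 0) (nd (lf 0) (lf 2591951131271305812011663362))))) (nd (nd (nd (lf 0) (nd (lf 0)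 (lf 16386))) (lf 0)) (nd (nd (lf 0) (nd (lf 0) (lf 24578))) (nd (lf 0) (nd (lf 0) (lf 412350431234)))))) (nd (nd (nd (nd (lf 0) (nd (lf 0) (lf 16386))) (nd (lf 0) (nd (lf 0) (lf 9208460230658)))) (nd (nd (lf 0) (nd (lf 0) (lf 26390427090947))) (nd (lf 0) (nd (lf 0) (lf 11399521629839831852866503740735212765188))))) (nd (nd (nd (lf 0) (nd (lf 0) (lf 16386))) (lf 0)) (nd (nd (lf 0) (nd (lf 0) (lf 24578))) (nd (lf 0) (nd (lf 0) (lf 412350431234))))))))

def p347 : Tr :=
  (nd (nd (nd (nd (nd (nd (lf 0) (nd (lf 0) (lf 16386))) (nd (lf 0) (nd (lf 0) (lf 544771)))) (nd (nd (lf 0) (nd (lf 0) (lf 540675))) (nd (lf 0) (nd (lf 0) (lf 849976976561021729599545012882681586402999066242269662659450697576345627539649085442))))) (nd (nd (nd (lf 0) (nd (lf 0) (lf 16386))) (nd (lf 0) (nd (lf 0) (lf 28674)))) (nd (nd (lf 0) (nd (lf 0) (lf 20482))) (nd (lf 0) (nd (lf 0) (lf 8071013825832304642)))))) (nd (nd (nd (nd (lf 0) (nd (lf 0) (lf 16386))) (nd (lf 0) (nd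 (lf 0) (lf 28674)))) (nd (nd (lf 0) (nd (lf 0) (lf 540675))) (nd (lf 0) (nd (lf 0) (lf 44988056483165573206651374036119610848722948))))) (nd (nd (nd (lf 0) (nd (lf 0) (lf 16386))) (nd (lf 0) (nd (lf 0) (lf 28674)))) (nd (nd (lf 0) (nd (lf 0) (lf 4879133200386))) (nd (lf 0) (nd (lf 0) (lf 9991430918844989301457255112302634440518025218))))))) (nd (nd (nd (nd (nd (lf 0) (nd (lf 0) (lf 16386))) (nd (lf 0) (nd (lf 0) (lf 544771)))) (nd (nd (lf 0) (nd (lf 0) (lf 20482))) (nd (lf 0) (nd (lf 0) (lf 135409142294974954756653058))))) (nd (nd (nd (lf 0) (nd (lf 0) (lf 16386))) (nd (lf 0) (nd (lf 0) (lf 28674)))) (nd (nd (lf 0) (nd (lf 0) (lf 20482))) (nd (lf 0) (nd (lf 0) (lf 8666184819765740834528444418)))))) (nd (nd (nd (nd (lf 0) (nd (lf 0) (lf 16386))) (nd (lf 0) (nd (lf 0) (lf 28674)))) (nd (nd (lf 0) (nd (lf 0) (lf 21992380579843))) (nd (lf 0) (nd (lf 0) (lf 11418679035470838972438558427720208156801384452))))) (nd (nd (nd (lf 0) (nd (lf 0) (lf 16386)))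 (nd (lf 0) (nd (lf 0) (lf 28674)))) (nd (nd (lf 0) (nd (lf 0) (lf 343630954498))) (nd (lf 0) (nd (lf 0) (lf 8071013825832304642))))))))

def p348 : Tr :=
  (nd (nd (nd (nd (nd (nd (lf 0) (nd (lf 0) (lf 16386))) (nd (lf 0) (nd (lf 0) (lf 34095108)))) (nd (nd (lf 0) (nd (lf 0) (lf 540675))) (nd (lf 0) (nd (lf 0) (lf 18206677169345769202145352719611355899093718996890580080029260780648061746440696529436813837791901270018))))) (nd (nd (nd (lf 0) (nd (lf 0) (lf 16386))) (lf 0)) (nd (nd (lf 0) (nd (lf 0) (lf 540675))) (nd (lf 0) (nd (lf 0) (lf 9071021277186)))))) (nd (nd (nd (nd (lf 0) (nd (lf 0) (lf 16386))) (nd (lf 0) (nd (lf 0) (lf 24578)))) (nd (nd (lf 0) (nd (lf 0) (lf 540675))) (nd (lf 0) (nd (lf 0) (lf 41893321988726038236978000131276802))))) (nd (nd (nd (lf 0) (nd (lf 0) (lf 16386))) (lf 0)) (nd (lf 0) (nd (lf 0) (nd (lf 0) (lf 16386))))))) (nd (nd (nd (nd (nd (lf 0) (nd (lf 0) (lf 16386))) (nd (lf 0) (nd (lf 0) (lf 1813536340810911533514756))))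 (nd (nd (lf 0) (nd (lf 0) (lf 5165142405826583478275))) (nd (lf 0) (nd (lf 0) (lf 588526190326952654249650191282383022352013806445250232322))))) (nd (nd (nd (lf 0) (nd (lf 0) (lf 16386))) (lf 0)) (nd (nd (lf 0) (nd (lf 0) (lf 21992380579843))) (nd (lf 0) (nd (lf 0) (lf 368970919342231273474)))))) (nd (nd (nd (nd (lf 0) (nd (lf 0) (lf 16386))) (nd (lf 0) (nd (lf 0) (lf 24578)))) (nd (nd (lf 0) (nd (lf 0) (lf 540675))) (nd (lf 0) (nd (lf 0) (lf 30426090908911912025815027040260))))) (nd (nd (nd (lf 0) (nd (lf 0) (lf 16386))) (lf 0)) (nd (lf 0) (nd (lf 0) (nd (lf 0) (lf 16386))))))))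

def p349 : Tr :=
  (nd (nd (nd (nd (nd (nd (lf 0) (nd (lf 0) (lf 16386))) (nd (lf 0) (nd (lf 0) (lf 548867)))) (nd (nd (lf 0) (nd (lf 0) (lf 540675))) (nd (lf 0) (nd (lf 0) (lf 66641677991393601632122317976370218701306871504787854599400719274086253364511790822604802))))) (nd (nd (nd (lf 0) (nd (lf 0) (lf 16386))) (nd (lf 0) (nd (lf 0) (lf 28674)))) (nd (nd (lf 0) (nd (lf 0) (lf 24578))) (nd (lf 0) (nd (lf 0) (lf 9526591518878633836546)))))) (nd (nd (nd (nd (lf 0) (nd (lf 0) (lf 16386))) (nd (lf 0) (nd (lf 0) (lf 9887508875843588870146)))) (nd (nd (lf 0) (nd (lf 0) (lf 540675))) (nd (lf 0) (nd (lf 0) (lf 729569383031802651484285963577402224820228))))) (nd (nd (nd (lf 0) (nd (lf 0) (lf 16386))) (nd (lf 0) (nd (lf 0) (lf 20482)))) (nd (nd (lf 0) (nd (lf 0) (lf 412350431234))) (nd (lf 0) (nd (lf 0) (lf 412350431234))))))) (nd (nd (nd (nd (nd (lf 0) (nd (lf 0) (lf 16386))) (nd (lf 0) (nd (lf 0) (lf 548867)))) (nd (nd (lf 0) (nd (lf 0) (lf 24578)))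 (nd (lf 0) (nd (lf 0) (lf 2591951131271305812011663362))))) (nd (nd (nd (lf 0) (nd (lf 0) (lf 16386))) (nd (lf 0) (nd (lf 0) (lf 28674)))) (nd (nd (lf 0) (nd (lf 0) (lf 24578))) (nd (lf 0) (nd (lf 0) (lf 8071013894551781378)))))) (nd (nd (nd (nd (lf 0) (nd (lf 0) (lf 16386))) (nd (lf 0) (nd (lf 0) (lf 9887508875843588870146)))) (nd (nd (lf 0) (nd (lf 0) (lf 26390427090947))) (nd (lf 0) (nd (lf 0) (lf 165884872401363563445433155586))))) (nd (nd (nd (lf 0) (nd (lf 0) (lf 16386))) (nd (lf 0) (nd (lf 0) (lf 20482)))) (nd (nd (lf 0) (nd (lf 0) (lf 412350431234))) (nd (lf 0) (nd (lf 0) (lf 412350431234))))))))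

def p350 : Tr :=
  (nd (nd (nd (nd (nd (nd (lf 0) (nd (lf 0) (lf 307470402282995257982978))) (nd (lf 0) (nd (lf 0) (lf 544771)))) (nd (nd (lf 0) (nd (lf 0) (lf 20482))) (nd (lf 0) (nd (lf 0) (lf 46343991431327721554748658222719479303913474))))) (nd (nd (nd (lf 0) (nd (lf 0) (lf 4810413719554))) (lf 0)) (nd (nd (lf 0) (nd (lf 0) (lf 20482))) (nd (lf 0) (nd (lf 0) (lf 368970915081623715842)))))) (nd (nd (nd (nd (lf 0) (nd (lf 0) (lf 16386))) (nd (lf 0) (nd (lf 0) (lf 30788473606147)))) (nd (nd (lf 0) (nd (lf 0) (lf 5238929382121421684739))) (nd (lf 0) (nd (lf 0) (lf 47183198487061039713061426470653291283718474728480649249124365385732))))) (nd (nd (nd (lf 0) (nd (lf 0) (lf 16386))) (lf 0)) (nd (nd (lf 0) (nd (lf 0) (lf 343630954498))) (nd (lf 0) (nd (lf 0) (lf 343630954498))))))) (nd (nd (nd (nd (lf 0) (nd (lf 0) (nd (lf 0) (lf 30788473610243)))) (nd (nd (lf 0) (nd (lf 0) (lf 4879133204482))) (nd (lf 0) (nd (lf 0) (lf 554635833113586902871379566594)))))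 (nd (lf 0) (nd (nd (lf 0) (nd (lf 0) (lf 24578))) (nd (lf 0) (nd (lf 0) (lf 24578)))))) (nd (nd (nd (lf 0) (nd (lf 0) (nd (lf 0) (lf 28674)))) (nd (lf 0) (nd (lf 0) (nd (lf 0) (lf 28674))))) (lf 0))))

def p351 : Tr :=
  (nd (nd (nd (nd (nd (nd (lf 0) (nd (lf 0) (lf 20482))) (nd (lf 0) (nd (lf 0) (lf 548867)))) (nd (nd (lf 0) (nd (lf 0) (lf 544771))) (nd (lf 0) (nd (lf 0) (lf 2783086335410115489025161515311071235))))) (nd (nd (nd (lf 0) (nd (lf 0) (lf 20482))) (lf 0)) (nd (nd (lf 0) (nd (lf 0) (lf 24578))) (nd (lf 0) (nd (lf 0) (lf 2553265505043637678421069826)))))) (nd (nd (nd (nd (lf 0) (nd (lf 0) (lf 83011193031534616578))) (nd (lf 0) (nd (lf 0) (lf 39584566632451)))) (nd (nd (lf 0) (nd (lf 0) (lf 5386503339109144608771))) (nd (lf 0) (nd (lf 0) (lf 65136584760526110192220579896921076588655080450547672707387885610802981912580))))) (nd (nd (nd (lf 0) (nd (lf 0) (lf 16386))) (lf 0)) (nd (nd (lf 0) (nd (lf 0) (lf 412350431234))) (nd (lf 0) (nd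 (lf 0) (lf 412350431234))))))) (nd (nd (nd (nd (nd (lf 0) (nd (lf 0) (lf 20482))) (nd (lf 0) (nd (lf 0) (lf 39584566636547)))) (nd (nd (lf 0) (nd (lf 0) (lf 32770))) (nd (lf 0) (nd (lf 0) (lf 850747466373074442925730953357588713476))))) (nd (nd (nd (lf 0) (nd (lf 0) (lf 20482))) (lf 0)) (nd (nd (lf 0) (nd (lf 0) (lf 481069912066))) (nd (lf 0) (nd (lf 0) (lf 481069912066)))))) (nd (nd (nd (nd (lf 0) (nd (lf 0) (lf 40962))) (nd (lf 0) (nd (lf 0) (lf 36866)))) (nd (nd (lf 0) (nd (lf 0) (lf 549789405186))) (nd (lf 0) (nd (lf 0) (lf 618508877826))))) (lf 0))))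

def p352 : Tr :=
  (nd (nd (nd (nd (nd (nd (lf 0) (nd (lf 0) (lf 24578))) (nd (lf 0) (nd (lf 0) (lf 552963)))) (nd (nd (lf 0) (nd (lf 0) (lf 548867))) (nd (lf 0) (nd (lf 0) (lf 80084475569159101150966874338381930775461432780775468378897736629944829923749532576202451655894319423020472191180804))))) (nd (nd (nd (lf 0) (nd (lf 0) (lf 24578))) (nd (lf 0) (nd (lf 0) (lf 36866)))) (nd (nd (lf 0) (nd (lf 0) (lf 28674))) (nd (lf 0) (nd (lf 0) (lf 703108523762635529696630427443044378763266)))))) (nd (nd (nd (nd (lf 0) (nd (lf 0) (lf 16386))) (nd (lf 0) (nd (lf 0) (lf 9961295852138427076610)))) (nd (nd (lf 0) (nd (lf 0) (lf 30788473602051))) (nd (lf 0) (nd (lf 0) (lf 167122812514435920015170486274))))) (nd (nd (nd (lf 0) (nd (lf 0) (lf 16386))) (nd (lf 0) (nd (lf 0) (lf 20482)))) (nd (nd (lf 0) (nd (lf 0) (lf 481069907970))) (nd (lf 0) (nd (lf 0) (lf 481069907970))))))) (nd (nd (nd (nd (nd (lf 0) (nd (lf 0) (lf 24578))) (nd (lf 0) (nd (lf 0) (lf 36866))))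 (nd (nd (lf 0) (nd (lf 0) (lf 2572860430770179))) (nd (lf 0) (nd (lf 0) (lf 12845926898317997525773288312343353658750558212))))) (nd (nd (nd (lf 0) (nd (lf 0) (lf 24578))) (nd (lf 0) (nd (lf 0) (lf 36866)))) (nd (nd (lf 0) (nd (lf 0) (lf 303877593268226))) (nd (lf 0) (nd (lf 0) (lf 11963701084705498197651940238554062850)))))) (lf 0)))

def p353 : Tr :=
  (nd (nd (nd (nd (nd (nd (lf 0) (nd (lf 0) (lf 16386))) (nd (lf 0) (nd (lf 0) (lf 548867)))) (nd (nd (lf 0) (nd (lf 0) (lf 540675))) (nd (lf 0) (nd (lf 0) (lf 971393789562135805223445981452815435260003544856028311286071368190566514961644797954))))) (nd (nd (nd (lf 0) (nd (lf 0) (lf 16386))) (nd (lf 0) (nd (lf 0) (lf 32770)))) (nd (nd (lf 0) (nd (lf 0) (lf 24578))) (nd (lf 0) (nd (lf 0) (lf 9223935399158628354)))))) (nd (nd (nd (nd (lf 0) (nd (lf 0) (lf 16386))) (nd (lf 0) (nd (lf 0) (lf 32770)))) (nd (nd (lf 0) (nd (lf 0) (lf 540675))) (nd (lf 0) (nd (lf 0) (lf 2879584064065045701653398352136967089134518276)))))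 (nd (nd (nd (lf 0) (nd (lf 0) (lf 16386))) (nd (lf 0) (nd (lf 0) (lf 32770)))) (nd (nd (lf 0) (nd (lf 0) (lf 4947852681218))) (nd (lf 0) (nd (lf 0) (lf 11418678611571718369969023205380085697732427778))))))) (nd (nd (nd (nd (nd (lf 0) (nd (lf 0) (lf 16386))) (nd (lf 0) (nd (lf 0) (lf 548867)))) (nd (nd (lf 0) (nd (lf 0) (lf 24578))) (nd (lf 0) (nd (lf 0) (lf 154751956561730526158798850))))) (nd (nd (nd (lf 0) (nd (lf 0) (lf 16386))) (nd (lf 0) (nd (lf 0) (lf 32770)))) (nd (nd (lf 0) (nd (lf 0) (lf 24578))) (nd (lf 0) (nd (lf 0) (lf 9904124860204042682753892354)))))) (nd (nd (nd (nd (lf 0) (nd (lf 0) (lf 16386))) (nd (lf 0) (nd (lf 0) (lf 32770)))) (nd (nd (lf 0) (nd (lf 0) (lf 26390427090947))) (nd (lf 0) (nd (lf 0) (lf 11418679120541440843877976119399071988369080324))))) (nd (nd (nd (lf 0) (nd (lf 0) (lf 16386))) (nd (lf 0) (nd (lf 0) (lf 32770)))) (nd (nd (lf 0) (nd (lf 0) (lf 412350447618))) (nd (lf 0) (nd (lf 0) (lf 9223935399158628354))))))))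

def p354 : Tr :=
  (nd (nd (nd (nd (nd (nd (lf 0) (nd (lf 0) (lf 17063940))) (nd (lf 0) (nd (lf 0) (lf 24578)))) (nd (nd (lf 0) (nd (lf 0) (lf 286723))) (nd (lf 0) (nd (lf 0) (lf 220193798217557412049874181314760778026046872683554836899381550638925954101073097919940255219453448622989316))))) (nd (nd (nd (lf 0) (nd (lf 0) (lf 307396615306631700299778))) (nd (lf 0) (nd (lf 0) (lf 24578)))) (nd (nd (lf 0) (nd (lf 0) (lf 5165142405826583478275))) (nd (lf 0) (nd (lf 0) (lf 588526184572289973419973294770740880795511710973002006530)))))) (nd (nd (nd (nd (lf 0) (nd (lf 0) (lf 16386))) (nd (lf 0) (nd (lf 0) (lf 24578)))) (nd (nd (lf 0) (nd (lf 0) (lf 286723))) (nd (lf 0) (nd (lf 0) (lf 112897777903961738664546435787806983731036164))))) (nd (nd (nd (lf 0) (nd (lf 0) (lf 16386))) (nd (lf 0) (nd (lf 0) (lf 24578)))) (nd (nd (lf 0) (nd (lf 0) (lf 286723))) (nd (lf 0) (nd (lf 0) (lf 30426090895184146606828388630530))))))) (nd (nd (nd (nd (lf 0) (nd (lf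 0) (nd (lf 0) (lf 24578)))) (nd (nd (lf 0) (nd (lf 0) (lf 286723))) (nd (lf 0) (nd (lf 0) (lf 26390426836995))))) (nd (nd (lf 0) (nd (lf 0) (nd (lf 0) (lf 24578)))) (nd (nd (lf 0) (nd (lf 0) (lf 4810413723650))) (nd (lf 0) (nd (lf 0) (lf 442757891376461926402)))))) (nd (nd (nd (lf 0) (nd (lf 0) (nd (lf 0) (lf 24578)))) (nd (lf 0) (nd (lf 0) (nd (lf 0) (lf 24578))))) (nd (nd (lf 0) (nd (lf 0) (nd (lf 0) (lf 24578)))) (nd (lf 0) (nd (lf 0) (nd (lf 0) (lf 24578))))))))

def p355 : Tr :=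
  (nd (nd (nd (nd (nd (nd (lf 0) (nd (lf 0) (lf 16386))) (nd (lf 0) (nd (lf 0) (lf 24578)))) (nd (nd (lf 0) (nd (lf 0) (lf 540675))) (nd (lf 0) (nd (lf 0) (lf 12223211233039899650802638870570895913361100608092853715026963721062697711273058037255131139))))) (nd (nd (nd (lf 0) (nd (lf 0) (lf 16386))) (nd (lf 0) (nd (lf 0) (lf 24578)))) (nd (nd (lf 0) (nd (lf 0) (lf 20482))) (nd (lf 0) (nd (lf 0) (lf 442757908558428524547)))))) (nd (nd (nd (nd (lf 0) (nd (lf 0) (lf 5091355438327838044163))) (nd (lf 0) (nd (lf 0) (lf 24578)))) (nd (nd (lf 0) (nd (lf 0) (lf 286723))) (nd (lf 0) (nd (lf 0) (lf 1947269817291785382837016871587843))))) (nd (nd (nd (lf 0) (nd (lf 0) (lf 5091355438327838044163))) (nd (lf 0) (nd (lf 0) (lf 24578)))) (nd (nd (lf 0) (nd (lf 0) (lf 4810413723650))) (nd (lf 0) (nd (lf 0) (lf 475407665876956099521437519875))))))) (nd (nd (nd (nd (nd (lf 0) (nd (lf 0) (lf 16386))) (nd (lf 0) (nd (lf 0) (lf 24578)))) (nd (nd (lf 0) (nd (lf 0)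 (lf 20482))) (nd (lf 0) (nd (lf 0) (lf 475407684325953077089657176068))))) (nd (nd (nd (lf 0) (nd (lf 0) (lf 16386))) (nd (lf 0) (nd (lf 0) (lf 24578)))) (nd (nd (lf 0) (nd (lf 0) (lf 20482))) (nd (lf 0) (nd (lf 0) (lf 6918092321225457666)))))) (nd (nd (nd (nd (lf 0) (nd (lf 0) (lf 28674))) (nd (lf 0) (nd (lf 0) (lf 24578)))) (nd (nd (lf 0) (nd (lf 0) (lf 343630962690))) (nd (lf 0) (nd (lf 0) (lf 412350435330))))) (nd (nd (nd (lf 0) (nd (lf 0) (lf 28674))) (nd (lf 0) (nd (lf 0) (lf 24578)))) (nd (nd (lf 0) (nd (lf 0) (lf 343630962690))) (nd (lf 0) (nd (lf 0) (lf 412350435330))))))))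

def p356 : Tr :=
  (nd (nd (nd (nd (nd (nd (lf 0) (nd (lf 0) (lf 307396615306631700299778))) (nd (lf 0) (nd (lf 0) (lf 1813536340810911533514756)))) (nd (nd (lf 0) (nd (lf 0) (lf 5165142405826583478275))) (nd (lf 0) (nd (lf 0) (lf 43425568054546294065344663010159775390187844757995696855544281920910651310082))))) (nd (nd (nd (lf 0) (nd (lf 0) (lf 4741694242818))) (lf 0)) (nd (nd (lf 0) (nd (lf 0) (lf 21992380579843))) (nd (lf 0) (nd (lf 0) (lf 396179507937484274957176291330)))))) (nd (nd (nd (nd (lf 0) (nd (lf 0) (lf 16386))) (nd (lf 0) (nd (lf 0) (lf 24578)))) (nd (nd (lf 0) (nd (lf 0) (lf 307866477543427))) (nd (lf 0) (nd (lf 0) (lf 2245049247627545210505261747977585898606759854489604))))) (nd (nd (nd (lf 0) (nd (lf 0) (lf 16386))) (lf 0)) (nd (lf 0) (nd (lf 0) (nd (lf 0) (lf 16386))))))) (nd (nd (nd (nd (lf 0) (nd (lf 0) (nd (lf 0) (lf 26390427095043)))) (nd (nd (lf 0) (nd (lf 0) (lf 4810413723650))) (nd (lf 0) (nd (lf 0) (lf 475407670525535588914277928962)))))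 (nd (lf 0) (nd (nd (lf 0) (nd (lf 0) (lf 20482))) (nd (lf 0) (nd (lf 0) (lf 20482)))))) (nd (nd (nd (lf 0) (nd (lf 0) (nd (lf 0) (lf 24578)))) (nd (lf 0) (nd (lf 0) (nd (lf 0) (lf 24578))))) (lf 0))))

def p357 : Tr :=
  (nd (nd (nd (nd (nd (nd (lf 0) (nd (lf 0) (lf 290819))) (nd (lf 0) (nd (lf 0) (lf 2417999250618226120867844)))) (nd (nd (lf 0) (nd (lf 0) (lf 28674))) (nd (lf 0) (nd (lf 0) (lf 178416853386643332262023176068935822910713859))))) (nd (nd (nd (lf 0) (nd (lf 0) (lf 4741694242818))) (lf 0)) (nd (nd (lf 0) (nd (lf 0) (lf 21992380579843))) (nd (lf 0) (nd (lf 0) (lf 396179507937484274957176291330)))))) (nd (nd (nd (nd (lf 0) (nd (lf 0) (lf 4879133196290))) (nd (lf 0) (nd (lf 0) (lf 32770)))) (nd (nd (lf 0) (nd (lf 0) (lf 5312716367212352913411))) (nd (lf 0) (nd (lf 0) (lf 53923185153946779370771622169093275660909292360289350544942309064708))))) (nd (nd (nd (lf 0) (nd (lf 0) (lf 16386))) (lf 0)) (nd (lf 0) (nd (lf 0) (nd (lf 0) (lf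 16386))))))) (nd (nd (nd (nd (lf 0) (nd (lf 0) (nd (lf 0) (lf 35186520117251)))) (nd (nd (lf 0) (nd (lf 0) (lf 28674))) (nd (lf 0) (nd (lf 0) (lf 590331848295465381890))))) (nd (lf 0) (nd (nd (lf 0) (nd (lf 0) (lf 20482))) (nd (lf 0) (nd (lf 0) (lf 20482)))))) (nd (nd (nd (lf 0) (nd (lf 0) (nd (lf 0) (lf 32770)))) (nd (nd (lf 0) (nd (lf 0) (lf 481069924354))) (nd (lf 0) (nd (lf 0) (lf 549789396994))))) (lf 0))))

def p358 : Tr :=
  (nd (nd (nd (nd (nd (nd (lf 0) (nd (lf 0) (lf 16386))) (nd (lf 0) (nd (lf 0) (lf 1327107)))) (nd (nd (lf 0) (nd (lf 0) (lf 540675))) (nd (lf 0) (nd (lf 0) (lf 19558736657399016075960119121033011920932467113271285204599442357487553428236810799202335773460160426649235775491))))) (nd (nd (nd (lf 0) (nd (lf 0) (lf 16386))) (nd (lf 0) (nd (lf 0) (lf 28674)))) (nd (nd (lf 0) (nd (lf 0) (lf 312264524578819))) (nd (lf 0) (nd (lf 0) (lf 9991430918844989301457255111149712935911178242)))))) (nd (nd (nd (nd (lf 0) (nd (lf 0)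 (lf 5165142423418769281027))) (nd (lf 0) (nd (lf 0) (lf 32770)))) (nd (nd (lf 0) (nd (lf 0) (lf 4947852681218))) (nd (lf 0) (nd (lf 0) (lf 633863991053058731696248348675))))) (lf 0))) (nd (nd (nd (nd (nd (lf 0) (nd (lf 0) (lf 16386))) (nd (lf 0) (nd (lf 0) (lf 28674)))) (nd (nd (lf 0) (nd (lf 0) (lf 24578))) (nd (lf 0) (nd (lf 0) (lf 200717605127762561314045772296247304985788420))))) (nd (nd (nd (lf 0) (nd (lf 0) (lf 16386))) (nd (lf 0) (nd (lf 0) (lf 28674)))) (nd (nd (lf 0) (nd (lf 0) (lf 303740154302466))) (nd (lf 0) (nd (lf 0) (lf 9305245093096980822157893264423796738)))))) (nd (nd (nd (nd (lf 0) (nd (lf 0) (lf 36866))) (nd (lf 0) (nd (lf 0) (lf 32770)))) (nd (nd (lf 0) (nd (lf 0) (lf 412350447618))) (nd (lf 0) (nd (lf 0) (lf 549789392898))))) (lf 0))))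

def p359 : Tr :=
  (nd (nd (nd (nd (nd (nd (lf 0) (nd (lf 0) (lf 294915))) (nd (lf 0) (nd (lf 0) (lf 548867)))) (nd (nd (lf 0) (nd (lf 0) (lf 32770))) (nd (lf 0) (nd (lf 0) (lf 178117525466247391297609246130137497603))))) (nd (nd (nd (lf 0) (nd (lf 0) (lf 4879133196290))) (nd (lf 0) (nd (lf 0) (lf 36866)))) (nd (nd (lf 0) (nd (lf 0) (lf 24578))) (nd (lf 0) (nd (lf 0) (lf 765676874178555455475866588807730057218)))))) (nd (nd (nd (nd (lf 0) (nd (lf 0) (lf 4947852673026))) (nd (lf 0) (nd (lf 0) (lf 737905800953861263362)))) (nd (nd (lf 0) (nd (lf 0) (lf 5460290315403982815235))) (nd (lf 0) (nd (lf 0) (lf 72373590337963684697862323646753332709501306356856833357299301411280359276548))))) (nd (nd (nd (lf 0) (nd (lf 0) (lf 16386))) (nd (lf 0) (nd (lf 0) (lf 20482)))) (nd (nd (lf 0) (nd (lf 0) (lf 412350431234))) (nd (lf 0) (nd (lf 0) (lf 412350431234))))))) (nd (nd (nd (nd (lf 0) (nd (lf 0) (nd (lf 0) (lf 36866)))) (nd (nd (lf 0) (nd (lf 0) (lf 32770)))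 (nd (lf 0) (nd (lf 0) (lf 12380005519882430599433060354))))) (nd (nd (lf 0) (nd (lf 0) (nd (lf 0) (lf 36866)))) (nd (nd (lf 0) (nd (lf 0) (lf 481069928450))) (nd (lf 0) (nd (lf 0) (lf 618508873730)))))) (nd (nd (nd (lf 0) (nd (lf 0) (nd (lf 0) (lf 40962)))) (nd (nd (lf 0) (nd (lf 0) (lf 549789409282))) (nd (lf 0) (nd (lf 0) (lf 687228354562))))) (lf 0))))

def p360 : Tr :=
  (nd (nd (nd (nd (nd (nd (lf 0) (nd (lf 0) (lf 299011))) (nd (lf 0) (nd (lf 0) (lf 40962)))) (nd (nd (lf 0) (nd (lf 0) (lf 36866))) (nd (lf 0) (nd (lf 0) (lf 89594169528790383155824082137413548613394386136213456558558019616099611391554816062121491737978163466243))))) (nd (nd (nd (lf 0) (nd (lf 0) (lf 307691763212017211555842))) (nd (lf 0) (nd (lf 0) (lf 40962)))) (nd (nd (lf 0) (nd (lf 0) (lf 24578))) (nd (lf 0) (nd (lf 0) (lf 913483136136662428303785414133727461544913031170)))))) (nd (nd (nd (nd (lf 0) (nd (lf 0) (lf 5016572149762))) (nd (lf 0) (nd (lf 0) (lf 40962))))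 (nd (nd (lf 0) (nd (lf 0) (lf 303107))) (nd (lf 0) (nd (lf 0) (lf 1130837349030682573312149074515813556440669239025057743812398500194036498436))))) (nd (nd (nd (lf 0) (nd (lf 0) (lf 16386))) (nd (lf 0) (nd (lf 0) (lf 40962)))) (nd (nd (lf 0) (nd (lf 0) (lf 5085291634690))) (nd (lf 0) (nd (lf 0) (lf 850747465910028011023554765742296547330))))))) (nd (nd (nd (nd (lf 0) (nd (lf 0) (nd (lf 0) (lf 40962)))) (nd (nd (lf 0) (nd (lf 0) (lf 36866))) (nd (lf 0) (nd (lf 0) (lf 43982612897795))))) (nd (nd (lf 0) (nd (lf 0) (nd (lf 0) (lf 40962)))) (nd (nd (lf 0) (nd (lf 0) (lf 5085291642882))) (nd (lf 0) (nd (lf 0) (lf 737905796830692671490)))))) (nd (nd (nd (lf 0) (nd (lf 0) (nd (lf 0) (lf 40962)))) (nd (nd (lf 0) (nd (lf 0) (lf 618508890114))) (nd (lf 0) (nd (lf 0) (lf 687228358658))))) (nd (nd (lf 0) (nd (lf 0) (nd (lf 0) (lf 40962)))) (nd (lf 0) (nd (lf 0) (nd (lf 0) (lf 40962))))))))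

def p361 : Tr :=
  (nd (nd (nd (nd (nd (nd (lf 0) (nd (lf 0) (lf 16386))) (nd (lf 0) (nd (lf 0) (lf 34095108)))) (nd (nd (lf 0) (nd (lf 0) (lf 540675))) (nd (lf 0) (nd (lf 0) (lf 284479330771027643783521136243927435923339359326415348463909386907354083022322141744760425053752934402))))) (nd (nd (nd (lf 0) (nd (lf 0) (lf 16386))) (lf 0)) (nd (nd (lf 0) (nd (lf 0) (lf 540675))) (nd (lf 0) (nd (lf 0) (lf 9071021277186)))))) (nd (nd (nd (nd (lf 0) (nd (lf 0) (lf 16386))) (nd (lf 0) (nd (lf 0) (lf 39584566632451)))) (nd (nd (lf 0) (nd (lf 0) (lf 540675))) (nd (lf 0) (nd (lf 0) (lf 13600096773400221358396537826156300273209593463510662635978123395076))))) (nd (nd (nd (lf 0) (nd (lf 0) (lf 16386))) (lf 0)) (nd (nd (lf 0) (nd (lf 0) (lf 412350435330))) (nd (lf 0) (nd (lf 0) (lf 412350431234))))))) (nd (nd (nd (nd (nd (lf 0) (nd (lf 0) (lf 16386))) (nd (lf 0) (nd (lf 0) (lf 2720230706084833367965700)))) (nd (nd (lf 0) (nd (lf 0) (lf 32770))) (nd (lf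 0) (nd (lf 0) (lf 913483136306803586572175747727299609991208517634))))) (nd (nd (nd (lf 0) (nd (lf 0) (lf 16386))) (lf 0)) (nd (nd (lf 0) (nd (lf 0) (lf 30788473602051))) (nd (lf 0) (nd (lf 0) (lf 516544871931907686402)))))) (nd (nd (nd (nd (lf 0) (nd (lf 0) (lf 16386))) (nd (lf 0) (nd (lf 0) (lf 36866)))) (nd (nd (lf 0) (nd (lf 0) (lf 35186520113155))) (nd (lf 0) (nd (lf 0) (lf 765676904514275532151368348480764919812))))) (nd (nd (nd (lf 0) (nd (lf 0) (lf 16386))) (lf 0)) (nd (lf 0) (nd (lf 0) (nd (lf 0) (lf 16386))))))))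

def p362 : Tr :=
  (nd (nd (nd (nd (nd (nd (lf 0) (nd (lf 0) (lf 290819))) (nd (lf 0) (nd (lf 0) (lf 544771)))) (nd (nd (lf 0) (nd (lf 0) (lf 28674))) (nd (lf 0) (nd (lf 0) (lf 176788297391234308188074614208621473795))))) (nd (nd (nd (lf 0) (nd (lf 0) (lf 4810413719554))) (lf 0)) (nd (nd (lf 0) (nd (lf 0) (lf 20482))) (nd (lf 0) (nd (lf 0) (lf 368970915081623715842)))))) (nd (nd (nd (nd (lf 0) (nd (lf 0) (lf 4879133196290))) (nd (lf 0) (nd (lf 0) (lf 35186520117251)))) (nd (nd (lf 0) (nd (lf 0) (lf 5312716358416259891203))) (nd (lf 0) (nd (lf 0) (lf 57899579183088535686480756432473403575429402463765876849588510304727917412356))))) (nd (nd (nd (lf 0) (nd (lf 0) (lf 16386))) (lf 0)) (nd (nd (lf 0) (nd (lf 0) (lf 343630954498))) (nd (lf 0) (nd (lf 0) (lf 343630954498))))))) (nd (nd (nd (nd (lf 0) (nd (lf 0) (nd (lf 0) (lf 35186520121347)))) (nd (nd (lf 0) (nd (lf 0) (lf 28674))) (nd (lf 0) (nd (lf 0) (lf 590331848364184858626))))) (nd (lf 0)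 (nd (nd (lf 0) (nd (lf 0) (lf 24578))) (nd (lf 0) (nd (lf 0) (lf 24578)))))) (nd (nd (nd (lf 0) (nd (lf 0) (nd (lf 0) (lf 32770)))) (nd (nd (lf 0) (nd (lf 0) (lf 481069924354))) (nd (lf 0) (nd (lf 0) (lf 549789396994))))) (lf 0))))

def p363 : Tr :=
  (nd (nd (nd (nd (nd (nd (lf 0) (nd (lf 0) (lf 286216687730690))) (nd (lf 0) (nd (lf 0) (lf 1407512356601860)))) (nd (nd (lf 0) (nd (lf 0) (lf 303468431032323))) (nd (lf 0) (nd (lf 0) (lf 1870904828808394171425618784156972137701347701047298))))) (nd (nd (nd (lf 0) (nd (lf 0) (lf 16386))) (lf 0)) (nd (nd (lf 0) (nd (lf 0) (lf 540675))) (nd (lf 0) (nd (lf 0) (lf 9071021277186)))))) (nd (nd (nd (nd (lf 0) (nd (lf 0) (lf 16386))) (nd (lf 0) (nd (lf 0) (lf 20482)))) (nd (nd (lf 0) (nd (lf 0) (lf 303468431032323))) (nd (lf 0) (nd (lf 0) (lf 1870904828465389545569312812985890534249946019282948))))) (nd (nd (nd (lf 0) (nd (lf 0) (lf 16386))) (lf 0)) (nd (lf 0) (nd (lf 0) (nd (lf 0) (lf 16386))))))) (nd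 (nd (nd (nd (lf 0) (nd (lf 0) (nd (lf 0) (lf 20482)))) (nd (nd (lf 0) (nd (lf 0) (lf 282627))) (nd (lf 0) (nd (lf 0) (lf 21992380321795))))) (lf 0)) (nd (nd (nd (lf 0) (nd (lf 0) (nd (lf 0) (lf 20482)))) (nd (lf 0) (nd (lf 0) (nd (lf 0) (lf 20482))))) (lf 0))))

def p364 : Tr :=
  (nd (nd (nd (nd (nd (nd (lf 0) (nd (lf 0) (lf 16386))) (nd (lf 0) (nd (lf 0) (lf 1970462310547460)))) (nd (nd (lf 0) (nd (lf 0) (lf 540675))) (nd (lf 0) (nd (lf 0) (lf 43942777916311650651810579459525674331700252558523256561667))))) (nd (nd (nd (lf 0) (nd (lf 0) (lf 16386))) (lf 0)) (nd (nd (lf 0) (nd (lf 0) (lf 343630954498))) (nd (lf 0) (nd (lf 0) (lf 343630954498)))))) (nd (nd (nd (nd (lf 0) (nd (lf 0) (lf 5165142419020722765827))) (nd (lf 0) (nd (lf 0) (lf 28674)))) (nd (nd (lf 0) (nd (lf 0) (lf 4879133204482))) (nd (lf 0) (nd (lf 0) (lf 554635828465007417807866191875))))) (lf 0))) (nd (nd (nd (nd (nd (lf 0) (nd (lf 0) (lf 16386))) (nd (lf 0) (nd (lf 0) (lf 30788473606147))))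 (nd (nd (lf 0) (nd (lf 0) (lf 24578))) (nd (lf 0) (nd (lf 0) (lf 680606282754148876720781727240349564932))))) (nd (nd (nd (lf 0) (nd (lf 0) (lf 16386))) (lf 0)) (nd (nd (lf 0) (nd (lf 0) (lf 343630954498))) (nd (lf 0) (nd (lf 0) (lf 343630954498)))))) (nd (nd (nd (nd (lf 0) (nd (lf 0) (lf 32770))) (nd (lf 0) (nd (lf 0) (lf 28674)))) (nd (nd (lf 0) (nd (lf 0) (lf 412350443522))) (nd (lf 0) (nd (lf 0) (lf 481069916162))))) (lf 0))))

def p365 : Tr :=
  (nd (nd (nd (nd (nd (nd (lf 0) (nd (lf 0) (lf 4879133196290))) (nd (lf 0) (nd (lf 0) (lf 548867)))) (nd (nd (lf 0) (nd (lf 0) (lf 24578))) (nd (lf 0) (nd (lf 0) (lf 13164840132947303289771822964956264005554784659147545893591334914))))) (nd (nd (nd (lf 0) (nd (lf 0) (lf 4879133196290))) (nd (lf 0) (nd (lf 0) (lf 32770)))) (nd (nd (lf 0) (nd (lf 0) (lf 24578))) (nd (lf 0) (nd (lf 0) (lf 680606282447082899570737556674888880130)))))) (nd (nd (nd (nd (lf 0) (nd (lf 0) (lf 16386))) (nd (lf 0) (nd (lf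 0) (lf 9887508875843588870146)))) (nd (nd (lf 0) (nd (lf 0) (lf 26390427090947))) (nd (lf 0) (nd (lf 0) (lf 165884872401363563445433155586))))) (nd (nd (nd (lf 0) (nd (lf 0) (lf 16386))) (nd (lf 0) (nd (lf 0) (lf 20482)))) (nd (nd (lf 0) (nd (lf 0) (lf 412350431234))) (nd (lf 0) (nd (lf 0) (lf 412350431234))))))) (nd (nd (nd (nd (lf 0) (nd (lf 0) (nd (lf 0) (lf 32770)))) (nd (nd (lf 0) (nd (lf 0) (lf 481069924354))) (nd (lf 0) (nd (lf 0) (lf 549789396994))))) (nd (nd (lf 0) (nd (lf 0) (nd (lf 0) (lf 32770)))) (nd (nd (lf 0) (nd (lf 0) (lf 481069924354))) (nd (lf 0) (nd (lf 0) (lf 549789396994)))))) (lf 0)))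

def p366 : Tr :=
  (nd (nd (nd (nd (nd (nd (lf 0) (nd (lf 0) (lf 290819))) (nd (lf 0) (nd (lf 0) (lf 544771)))) (nd (nd (lf 0) (nd (lf 0) (lf 28674))) (nd (lf 0) (nd (lf 0) (lf 10634473399566165648371948517557825539))))) (nd (nd (nd (lf 0) (nd (lf 0) (lf 4810413719554))) (nd (lf 0) (nd (lf 0) (lf 32770)))) (nd (nd (lf 0) (nd (lf 0) (lf 20482))) (nd (lf 0) (nd (lf 0) (lf 765676874178555455402079612444172369922)))))) (nd (nd (nd (nd (lf 0) (nd (lf 0) (lf 4879133196290))) (nd (lf 0) (nd (lf 0) (lf 32770)))) (nd (nd (lf 0) (nd (lf 0) (lf 5460290311005936304131))) (nd (lf 0) (nd (lf 0) (lf 83441068666244654140844311375727676731120667921079742386629957656638374521753954907247929212932))))) (nd (nd (nd (lf 0) (nd (lf 0) (lf 16386))) (nd (lf 0) (nd (lf 0) (lf 32770)))) (nd (nd (lf 0) (nd (lf 0) (lf 303740154302466))) (nd (lf 0) (nd (lf 0) (lf 680606277693546705468808052687102820354))))))) (nd (nd (nd (nd (lf 0) (nd (lf 0) (nd (lf 0) (lf 36866))))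 (nd (nd (lf 0) (nd (lf 0) (lf 28674))) (nd (lf 0) (nd (lf 0) (lf 12380005519882430599433056258))))) (nd (nd (lf 0) (nd (lf 0) (nd (lf 0) (lf 36866)))) (nd (nd (lf 0) (nd (lf 0) (lf 412350451714))) (nd (lf 0) (nd (lf 0) (lf 618508869634)))))) (nd (nd (nd (lf 0) (nd (lf 0) (nd (lf 0) (lf 40962)))) (nd (nd (lf 0) (nd (lf 0) (lf 481069932546))) (nd (lf 0) (nd (lf 0) (lf 687228350466))))) (lf 0))))

def p367 : Tr :=
  (nd (nd (nd (nd (nd (nd (lf 0) (nd (lf 0) (lf 286354126684162))) (nd (lf 0) (nd (lf 0) (lf 548867)))) (nd (nd (lf 0) (nd (lf 0) (lf 24578))) (nd (lf 0) (nd (lf 0) (lf 10616631833687267766316486905858))))) (nd (nd (nd (lf 0) (nd (lf 0) (lf 16386))) (nd (lf 0) (nd (lf 0) (lf 9139740758018)))) (nd (nd (lf 0) (nd (lf 0) (lf 24578))) (nd (lf 0) (nd (lf 0) (lf 412350431234)))))) (nd (nd (nd (nd (lf 0) (nd (lf 0) (lf 16386))) (nd (lf 0) (nd (lf 0) (lf 516544872069346643970)))) (nd (nd (lf 0) (nd (lf 0) (lf 5238929386519468195843))) (nd (lf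 0) (nd (lf 0) (lf 47183198487061039713152770322986472721176807431438334543839673991172))))) (nd (nd (nd (lf 0) (nd (lf 0) (lf 16386))) (nd (lf 0) (nd (lf 0) (lf 20482)))) (nd (nd (lf 0) (nd (lf 0) (lf 412350431234))) (nd (lf 0) (nd (lf 0) (lf 412350431234))))))) (nd (nd (nd (nd (lf 0) (nd (lf 0) (nd (lf 0) (lf 28674)))) (nd (nd (lf 0) (nd (lf 0) (lf 290819))) (nd (lf 0) (nd (lf 0) (lf 30788473352195))))) (lf 0)) (nd (nd (nd (lf 0) (nd (lf 0) (nd (lf 0) (lf 28674)))) (nd (lf 0) (nd (lf 0) (nd (lf 0) (lf 28674))))) (lf 0))))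

def p368 : Tr :=
  (nd (nd (nd (nd (nd (nd (lf 0) (nd (lf 0) (lf 20482))) (nd (lf 0) (nd (lf 0) (lf 552963)))) (nd (nd (lf 0) (nd (lf 0) (lf 544771))) (nd (lf 0) (nd (lf 0) (lf 43810242563784295509556876099477506))))) (nd (nd (nd (lf 0) (nd (lf 0) (lf 20482))) (lf 0)) (nd (nd (lf 0) (nd (lf 0) (lf 28674))) (nd (lf 0) (nd (lf 0) (lf 2553265506196559183027916802)))))) (nd (nd (nd (nd (lf 0) (nd (lf 0) (lf 24578))) (nd (lf 0) (nd (lf 0) (lf 43982613147651)))) (nd (nd (lf 0) (nd (lf 0) (lf 5460290319802029326339))) (nd (lf 0) (nd (lf 0) (lf 72373590337963684697960403360920528280413317821456465773500676558452290510850))))) (nd (nd (nd (lf 0) (nd (lf 0) (lf 16386))) (lf 0)) (nd (nd (lf 0) (nd (lf 0) (lf 481069907970))) (nd (lf 0) (nd (lf 0) (lf 481069907970))))))) (nd (nd (nd (nd (nd (lf 0) (nd (lf 0) (lf 20482))) (nd (lf 0) (nd (lf 0) (lf 43982613151747)))) (nd (nd (lf 0) (nd (lf 0) (lf 36866))) (nd (lf 0) (nd (lf 0) (lf 850747466452302610162361773820777877508)))))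 (nd (nd (nd (lf 0) (nd (lf 0) (lf 20482))) (lf 0)) (nd (nd (lf 0) (nd (lf 0) (lf 549789388802))) (nd (lf 0) (nd (lf 0) (lf 549789388802)))))) (nd (nd (nd (nd (lf 0) (nd (lf 0) (lf 24578))) (nd (lf 0) (nd (lf 0) (lf 40962)))) (nd (nd (lf 0) (nd (lf 0) (lf 303877593272322))) (nd (lf 0) (nd (lf 0) (lf 13292929080490414071708668872160731138))))) (lf 0))))

def p369 : Tr :=
  (nd (nd (nd (nd (nd (nd (lf 0) (nd (lf 0) (lf 282627))) (nd (lf 0) (nd (lf 0) (lf 1688987333312516)))) (nd (nd (lf 0) (nd (lf 0) (lf 20482))) (nd (lf 0) (nd (lf 0) (lf 35496693300671856760277136855043))))) (nd (nd (nd (lf 0) (nd (lf 0) (lf 16386))) (lf 0)) (nd (nd (lf 0) (nd (lf 0) (lf 540675))) (nd (lf 0) (nd (lf 0) (lf 9071021277186)))))) (nd (nd (nd (nd (lf 0) (nd (lf 0) (lf 79552428517714063362))) (nd (lf 0) (nd (lf 0) (lf 24578)))) (nd (nd (lf 0) (nd (lf 0) (lf 5165142405826583478275))) (nd (lf 0) (nd (lf 0) (lf 40443211820175300044024593136158193298369989129153609915738138099716)))))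 (nd (nd (nd (lf 0) (nd (lf 0) (lf 16386))) (lf 0)) (nd (lf 0) (nd (lf 0) (nd (lf 0) (lf 16386))))))) (nd (nd (nd (nd (nd (lf 0) (nd (lf 0) (lf 30788473352195))) (nd (lf 0) (nd (lf 0) (lf 24578)))) (nd (nd (lf 0) (nd (lf 0) (lf 20482))) (nd (lf 0) (nd (lf 0) (lf 28336505039637912244226))))) (lf 0)) (nd (nd (nd (nd (lf 0) (nd (lf 0) (lf 28674))) (nd (lf 0) (nd (lf 0) (lf 24578)))) (nd (nd (lf 0) (nd (lf 0) (lf 343630962690))) (nd (lf 0) (nd (lf 0) (lf 412350435330))))) (lf 0))))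

def p370 : Tr :=
  (nd (nd (nd (nd (nd (nd (lf 0) (nd (lf 0) (lf 20482))) (nd (lf 0) (nd (lf 0) (lf 552963)))) (nd (nd (lf 0) (nd (lf 0) (lf 544771))) (nd (lf 0) (nd (lf 0) (lf 284621341182180872481866456024015796035203408461215478043774539035953959751558806501379205811740368898))))) (nd (nd (nd (lf 0) (nd (lf 0) (lf 20482))) (nd (lf 0) (nd (lf 0) (lf 40962)))) (nd (nd (lf 0) (nd (lf 0) (lf 28674))) (nd (lf 0) (nd (lf 0) (lf 850747491173907445472358954702592823298)))))) (nd (nd (nd (nd (lf 0) (nd (lf 0) (lf 24578))) (nd (lf 0) (nd (lf 0) (lf 40962)))) (nd (nd (lf 0) (nd (lf 0) (lf 5607864272391705739267))) (nd (lf 0) (nd (lf 0) (lf 59835569181681306239215172189045370774113659003175615781921572822872040371412994))))) (nd (nd (nd (lf 0) (nd (lf 0) (lf 16386))) (nd (lf 0) (nd (lf 0) (lf 40962)))) (nd (nd (lf 0) (nd (lf 0) (lf 303740154310658))) (nd (lf 0) (nd (lf 0) (lf 850747461154054622829028867683230171138))))))) (nd (nd (nd (nd (nd (lf 0)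 (nd (lf 0) (lf 20482))) (nd (lf 0) (nd (lf 0) (lf 45058)))) (nd (nd (lf 0) (nd (lf 0) (lf 36866))) (nd (lf 0) (nd (lf 0) (lf 249240404032419111172517595524915202))))) (nd (nd (nd (lf 0) (nd (lf 0) (lf 20482))) (nd (lf 0) (nd (lf 0) (lf 45058)))) (nd (nd (lf 0) (nd (lf 0) (lf 303808873791490))) (nd (lf 0) (nd (lf 0) (lf 14622157076255987130345720292319449090)))))) (nd (nd (nd (nd (lf 0) (nd (lf 0) (lf 24578))) (nd (lf 0) (nd (lf 0) (lf 49154)))) (nd (nd (lf 0) (nd (lf 0) (lf 303877593272322))) (nd (lf 0) (nd (lf 0) (lf 15951385072060245817516282992721420290))))) (lf 0))))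

def p371 : Tr :=
  (nd (nd (nd (nd (nd (nd (lf 0) (nd (lf 0) (lf 290819))) (nd (lf 0) (nd (lf 0) (lf 548867)))) (nd (nd (lf 0) (nd (lf 0) (lf 28674))) (nd (lf 0) (nd (lf 0) (lf 178117525466247391297609241732090982403))))) (nd (nd (nd (lf 0) (nd (lf 0) (lf 16386))) (nd (lf 0) (nd (lf 0) (lf 9139740758018)))) (nd (nd (lf 0) (nd (lf 0) (lf 24578))) (nd (lf 0) (nd (lf 0) (lf 412350431234)))))) (nd (nd (nd (nd (lf 0) (nd (lf 0) (lf 81858271526927765506))) (nd (lf 0) (nd (lf 0) (lf 590331848364184850434)))) (nd (nd (lf 0) (nd (lf 0) (lf 5312716362814306402307))) (nd (lf 0) (nd (lf 0) (lf 57899579183088535686578836147088820467808854544238512052754103327455959334916))))) (nd (nd (nd (lf 0) (nd (lf 0) (lf 16386))) (nd (lf 0) (nd (lf 0) (lf 20482)))) (nd (nd (lf 0) (nd (lf 0) (lf 412350431234))) (nd (lf 0) (nd (lf 0) (lf 412350431234))))))) (nd (nd (nd (nd (nd (lf 0) (nd (lf 0) (lf 39584566382595))) (nd (lf 0) (nd (lf 0) (lf 32770)))) (nd (nd (lf 0)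 (nd (lf 0) (lf 28674))) (nd (lf 0) (nd (lf 0) (lf 37781238005514641633282))))) (lf 0)) (nd (nd (nd (nd (lf 0) (nd (lf 0) (lf 36866))) (nd (lf 0) (nd (lf 0) (lf 32770)))) (nd (nd (lf 0) (nd (lf 0) (lf 481069924354))) (nd (lf 0) (nd (lf 0) (lf 549789396994))))) (lf 0))))

def p372 : Tr :=
  (nd (nd (nd (nd (nd (nd (lf 0) (nd (lf 0) (lf 20482))) (nd (lf 0) (nd (lf 0) (lf 548867)))) (nd (nd (lf 0) (nd (lf 0) (lf 544771))) (nd (lf 0) (nd (lf 0) (lf 2596307001658772677002896540192770))))) (nd (nd (nd (lf 0) (nd (lf 0) (lf 1597443))) (nd (lf 0) (nd (lf 0) (lf 32770)))) (nd (nd (lf 0) (nd (lf 0) (lf 24578))) (nd (lf 0) (nd (lf 0) (lf 9904124860204042682753892354)))))) (nd (nd (nd (nd (lf 0) (nd (lf 0) (lf 20482))) (nd (lf 0) (nd (lf 0) (lf 32770)))) (nd (nd (lf 0) (nd (lf 0) (lf 5386503339109144608771))) (nd (lf 0) (nd (lf 0) (lf 59813858164942569465102995947272233892950662171811961862870632422804390670258178))))) (nd (nd (nd (lf 0) (nd (lf 0) (lf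 16386))) (nd (lf 0) (nd (lf 0) (lf 32770)))) (nd (nd (lf 0) (nd (lf 0) (lf 303740154306562))) (nd (lf 0) (nd (lf 0) (lf 680606277693546705469960974260429144066))))))) (nd (nd (nd (nd (nd (lf 0) (nd (lf 0) (lf 20482))) (nd (lf 0) (nd (lf 0) (lf 1863683)))) (nd (nd (lf 0) (nd (lf 0) (lf 28674))) (nd (lf 0) (nd (lf 0) (lf 713092153501553600322223493122))))) (lf 0)) (nd (nd (nd (nd (lf 0) (nd (lf 0) (lf 20482))) (nd (lf 0) (nd (lf 0) (lf 36866)))) (nd (nd (lf 0) (nd (lf 0) (lf 303808873787394))) (nd (lf 0) (nd (lf 0) (lf 11963701084686155383385184598432436226))))) (lf 0))))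

def p373 : Tr :=
  (nd (nd (nd (nd (nd (nd (lf 0) (nd (lf 0) (lf 20482))) (nd (lf 0) (nd (lf 0) (lf 28674)))) (nd (nd (lf 0) (nd (lf 0) (lf 24578))) (nd (lf 0) (nd (lf 0) (lf 14260247330791198738185160182881242644546417858763263219974473871485098864741863397020160002))))) (nd (nd (nd (lf 0) (nd (lf 0) (lf 286723))) (nd (lf 0) (nd (lf 0) (lf 28674)))) (nd (nd (lf 0) (nd (lf 0) (lf 24578))) (nd (lf 0) (nd (lf 0) (lf 516544889251313246211)))))) (nd (nd (nd (nd (lf 0) (nd (lf 0) (lf 20482))) (nd (lf 0) (nd (lf 0) (lf 28674)))) (nd (nd (lf 0) (nd (lf 0) (lf 290819))) (nd (lf 0) (nd (lf 0) (lf 2879235614921323731269208047089244584305250306))))) (nd (nd (nd (lf 0) (nd (lf 0) (lf 4810413719554))) (nd (lf 0) (nd (lf 0) (lf 28674)))) (nd (nd (lf 0) (nd (lf 0) (lf 4879133204482))) (nd (lf 0) (nd (lf 0) (lf 639451578806079315293264327187368591409232756738))))))) (nd (nd (nd (nd (nd (lf 0) (nd (lf 0) (lf 20482))) (nd (lf 0) (nd (lf 0) (lf 28674)))) (nd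 (nd (lf 0) (nd (lf 0) (lf 24578))) (nd (lf 0) (nd (lf 0) (lf 135409143447896528082980866))))) (nd (nd (lf 0) (nd (lf 0) (nd (lf 0) (lf 28674)))) (nd (nd (lf 0) (nd (lf 0) (lf 24578))) (nd (lf 0) (nd (lf 0) (lf 516544867740019613698)))))) (nd (nd (nd (nd (lf 0) (nd (lf 0) (lf 20482))) (nd (lf 0) (nd (lf 0) (lf 28674)))) (nd (nd (lf 0) (nd (lf 0) (lf 412350443522))) (nd (lf 0) (nd (lf 0) (lf 8071013894551785474))))) (nd (nd (lf 0) (nd (lf 0) (nd (lf 0) (lf 28674)))) (nd (nd (lf 0) (nd (lf 0) (lf 412350443522))) (nd (lf 0) (nd (lf 0) (lf 481069916162))))))))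

def p374 : Tr :=
  (nd (nd (nd (nd (nd (nd (lf 0) (nd (lf 0) (lf 16386))) (nd (lf 0) (nd (lf 0) (lf 544771)))) (nd (nd (lf 0) (nd (lf 0) (lf 540675))) (nd (lf 0) (nd (lf 0) (lf 66144354754520646497126372416615926431069564730089192582352255736591233585047670697771010))))) (nd (nd (nd (lf 0) (nd (lf 0) (lf 16386))) (nd (lf 0) (nd (lf 0) (lf 24578)))) (nd (nd (lf 0) (nd (lf 0) (lf 20482))) (nd (lf 0) (nd (lf 0) (lf 6918092321225457666)))))) (nd (nd (nd (nd (lf 0) (nd (lf 0) (lf 16386))) (nd (lf 0) (nd (lf 0) (lf 24578)))) (nd (nd (lf 0) (nd (lf 0) (lf 540675))) (nd (lf 0) (nd (lf 0) (lf 10728217259170614792308588532649047829285302947008757764))))) (nd (nd (nd (lf 0) (nd (lf 0) (lf 16386))) (nd (lf 0) (nd (lf 0) (lf 24578)))) (nd (nd (lf 0) (nd (lf 0) (lf 343630954498))) (nd (lf 0) (nd (lf 0) (lf 6918092321225457666))))))) (nd (nd (nd (nd (nd (lf 0) (nd (lf 0) (lf 16386))) (nd (lf 0) (nd (lf 0) (lf 544771)))) (nd (nd (lf 0) (nd (lf 0) (lf 20482)))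 (nd (lf 0) (nd (lf 0) (lf 2572608317004550240609517570))))) (nd (nd (nd (lf 0) (nd (lf 0) (lf 16386))) (lf 0)) (nd (nd (lf 0) (nd (lf 0) (lf 20482))) (nd (lf 0) (nd (lf 0) (lf 343630954498)))))) (nd (nd (nd (nd (lf 0) (nd (lf 0) (lf 16386))) (nd (lf 0) (nd (lf 0) (lf 30788473606147)))) (nd (nd (lf 0) (nd (lf 0) (lf 21992380579843))) (nd (lf 0) (nd (lf 0) (lf 639451579137118120999390021837661600712940339204))))) (nd (nd (nd (lf 0) (nd (lf 0) (lf 16386))) (lf 0)) (nd (nd (lf 0) (nd (lf 0) (lf 343630954498))) (nd (lf 0) (nd (lf 0) (lf 343630954498))))))))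

def p375 : Tr :=
  (nd (nd (nd (nd (lf 0) (nd (lf 0) (nd (lf 0) (nd (lf 0) (lf 131073))))) (nd (lf 0) (nd (lf 0) (nd (lf 0) (nd (lf 0) (lf 131073)))))) (nd (nd (lf 0) (nd (lf 0) (nd (lf 0) (nd (lf 0) (lf 131073))))) (nd (lf 0) (nd (lf 0) (nd (lf 0) (nd (lf 0) (lf 131073))))))) (nd (nd (nd (lf 0) (nd (lf 0) (nd (lf 0) (nd (lf 0) (lf 131073))))) (nd (lf 0) (nd (lf 0) (nd (lf 0) (nd (lf 0) (lf 131073)))))) (nd (nd (lf 0) (nd (lf 0) (nd (lf 0) (nd (lf 0) (lf 131073))))) (nd (lf 0) (nd (lf 0) (nd (lf 0) (nd (lf 0) (lf 131073))))))))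

def p376 : Tr :=
  (lf 0)

def p377 : Tr :=
  (nd (nd (nd (nd (lf 0) (nd (lf 0) (nd (lf 0) (nd (lf 0) (lf 3187591119606514425047753226969508493798889364523099897886))))) (lf 0)) (nd (nd (lf 0) (nd (lf 0) (nd (lf 0) (nd (lf 0) (lf 16386))))) (lf 0))) (nd (nd (nd (lf 0) (nd (lf 0) (nd (lf 0) (nd (lf 0) (lf 3187591119606514425047753226969508493798889364523099897886))))) (lf 0)) (nd (nd (lf 0) (nd (lf 0) (nd (lf 0) (nd (lf 0) (lf 16386))))) (lf 0))))

def p378 : Tr :=
  (nd (nd (nd (nd (lf 0) (nd (lf 0) (nd (lf 0) (nd (lf 0) (lf 3287203329854141058618745411375577659665774207264136904734))))) (nd (lf 0) (nd (lf 0) (nd (lf 0) (nd (lf 0) (lf 3287203329854141058618745411375577659665774207264136904734)))))) (nd (nd (lf 0) (nd (lf 0) (nd (lf 0) (nd (lf 0) (lf 16386))))) (nd (lf 0) (nd (lf 0) (nd (lf 0) (nd (lf 0) (lf 16386))))))) (lf 0))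

def p379 : Tr :=
  (nd (nd (nd (nd (lf 0) (nd (lf 0) (nd (lf 0) (nd (lf 0) (lf 131073))))) (nd (lf 0) (nd (lf 0) (nd (lf 0) (nd (lf 0) (lf 131073)))))) (nd (nd (lf 0) (nd (lf 0) (nd (lf 0) (nd (lf 0) (lf 131073))))) (nd (lf 0) (nd (lf 0) (nd (lf 0) (nd (lf 0) (lf 131073))))))) (lf 0))

def p380 : Tr :=
  (nd (nd (nd (nd (lf 0) (nd (lf 0) (nd (lf 0) (nd (lf 0) (lf 131073))))) (nd (lf 0) (nd (lf 0) (nd (lf 0) (nd (lf 0) (lf 131073)))))) (nd (nd (lf 0) (nd (lf 0) (nd (lf 0) (nd (lf 0) (lf 131073))))) (nd (lf 0) (nd (lf 0) (nd (lf 0) (nd (lf 0) (lf 131073))))))) (nd (nd (nd (lf 0) (nd (lf 0) (nd (lf 0) (nd (lf 0) (lf 135169))))) (nd (lf 0) (nd (lf 0) (nd (lf 0) (nd (lf 0) (lf 135169)))))) (lf 0)))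

def p381 : Tr :=
  (nd (nd (nd (nd (lf 0) (nd (lf 0) (nd (lf 0) (nd (lf 0) (lf 131073))))) (lf 0)) (nd (nd (lf 0) (nd (lf 0) (nd (lf 0) (nd (lf 0) (lf 131073))))) (lf 0))) (nd (nd (nd (lf 0) (nd (lf 0) (nd (lf 0) (nd (lf 0) (lf 131073))))) (lf 0)) (nd (nd (lf 0) (nd (lf 0) (nd (lf 0) (nd (lf 0) (lf 131073))))) (lf 0))))

def p382 : Tr :=
  (nd (nd (nd (nd (lf 0) (nd (lf 0) (nd (lf 0) (nd (lf 0) (lf 131073))))) (nd (lf 0) (nd (lf 0) (nd (lf 0) (nd (lf 0) (lf 131073)))))) (nd (nd (lf 0) (nd (lf 0) (nd (lf 0) (nd (lf 0) (lf 135169))))) (lf 0))) (nd (nd (nd (lf 0) (nd (lf 0) (nd (lf 0) (nd (lf 0) (lf 131073))))) (nd (lf 0) (nd (lf 0) (nd (lf 0) (nd (lf 0) (lf 131073)))))) (nd (nd (lf 0) (nd (lf 0) (nd (lf 0) (nd (lf 0) (lf 135169))))) (lf 0))))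

def p383 : Tr :=
  (nd (nd (nd (nd (lf 0) (nd (lf 0) (nd (lf 0) (nd (lf 0) (lf 135169))))) (nd (lf 0) (nd (lf 0) (nd (lf 0) (nd (lf 0) (lf 554188803)))))) (nd (nd (lf 0) (nd (lf 0) (nd (lf 0) (nd (lf 0) (lf 135169))))) (nd (lf 0) (nd (lf 0) (nd (lf 0) (nd (lf 0) (lf 16386))))))) (nd (nd (nd (lf 0) (nd (lf 0) (nd (lf 0) (nd (lf 0) (lf 135169))))) (nd (lf 0) (nd (lf 0) (nd (lf 0) (nd (lf 0) (lf 554188803)))))) (nd (nd (lf 0) (nd (lf 0) (nd (lf 0) (nd (lf 0) (lf 135169))))) (nd (lf 0) (nd (lf 0) (nd (lf 0) (nd (lf 0) (lf 16386))))))))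

def p384 : Tr :=
  (nd (nd (nd (nd (lf 0) (nd (lf 0) (nd (lf 0) (nd (lf 0) (lf 135169))))) (nd (lf 0) (nd (lf 0) (nd (lf 0) (nd (lf 0) (lf 135169)))))) (nd (nd (lf 0) (nd (lf 0) (nd (lf 0) (nd (lf 0) (lf 9152335913959431))))) (nd (lf 0) (nd (lf 0) (nd (lf 0) (nd (lf 0) (lf 9152335913959431))))))) (nd (nd (nd (lf 0) (nd (lf 0) (nd (lf 0) (nd (lf 0) (lf 135169))))) (nd (lf 0) (nd (lf 0) (nd (lf 0) (nd (lf 0) (lf 135169)))))) (lf 0)))

def p385 : Tr :=
  (nd (nd (nd (nd (lf 0) (nd (lf 0) (nd (lf 0) (nd (lf 0) (lf 9147937867710471))))) (nd (lf 0) (nd (lf 0) (nd (lf 0) (nd (lf 0) (lf 9147937867710471)))))) (nd (nd (lf 0) (nd (lf 0) (nd (lf 0) (nd (lf 0) (lf 9147937867710471))))) (lf 0))) (nd (nd (nd (lf 0) (nd (lf 0) (nd (lf 0) (nd (lf 0) (lf 9147937867710471))))) (nd (lf 0) (nd (lf 0) (nd (lf 0) (nd (lf 0) (lf 9147937867710471)))))) (nd (nd (lf 0) (nd (lf 0) (nd (lf 0) (nd (lf 0) (lf 9147937867710471))))) (lf 0))))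

def p386 : Tr :=
  (nd (nd (nd (nd (lf 0) (nd (lf 0) (nd (lf 0) (nd (lf 0) (lf 553926659))))) (nd (lf 0) (nd (lf 0) (nd (lf 0) (nd (lf 0) (lf 553926659)))))) (nd (nd (lf 0) (nd (lf 0) (nd (lf 0) (nd (lf 0) (lf 9293347206221826))))) (nd (lf 0) (nd (lf 0) (nd (lf 0) (nd (lf 0) (lf 9293347206221826))))))) (lf 0))

def p387 : Tr :=
  (nd (nd (nd (nd (lf 0) (nd (lf 0) (nd (lf 0) (nd (lf 0) (lf 139265))))) (nd (lf 0) (nd (lf 0) (nd (lf 0) (nd (lf 0) (lf 139265)))))) (nd (nd (lf 0) (nd (lf 0) (nd (lf 0) (nd (lf 0) (lf 585468023516184584))))) (nd (lf 0) (nd (lf 0) (nd (lf 0) (nd (lf 0) (lf 16386))))))) (nd (nd (nd (lf 0) (nd (lf 0) (nd (lf 0) (nd (lf 0) (lf 139265))))) (nd (lf 0) (nd (lf 0) (nd (lf 0) (nd (lf 0) (lf 139265)))))) (nd (nd (lf 0) (nd (lf 0) (nd (lf 0) (nd (lf 0) (lf 638940911542978404395008008))))) (nd (lf 0) (nd (lf 0) (nd (lf 0) (nd (lf 0) (lf 16386))))))))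

def p388 : Tr :=
  (nd (nd (nd (nd (lf 0) (nd (lf 0) (nd (lf 0) (nd (lf 0) (lf 139265))))) (nd (lf 0) (nd (lf 0) (nd (lf 0) (nd (lf 0) (lf 139265)))))) (nd (nd (lf 0) (nd (lf 0) (nd (lf 0) (nd (lf 0) (lf 603763897018896392))))) (nd (lf 0) (nd (lf 0) (nd (lf 0) (nd (lf 0) (lf 648286548050417974967025667))))))) (nd (nd (nd (lf 0) (nd (lf 0) (nd (lf 0) (nd (lf 0) (lf 139265))))) (nd (lf 0) (nd (lf 0) (nd (lf 0) (nd (lf 0) (lf 139265)))))) (nd (nd (lf 0) (nd (lf 0) (nd (lf 0) (nd (lf 0) (lf 20482))))) (nd (lf 0) (nd (lf 0) (nd (lf 0) (nd (lf 0) (lf 20482))))))))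

def p389 : Tr :=
  (nd (nd (nd (nd (lf 0) (nd (lf 0) (nd (lf 0) (nd (lf 0) (lf 554192899))))) (lf 0)) (nd (nd (lf 0) (nd (lf 0) (nd (lf 0) (nd (lf 0) (lf 9297813972205570))))) (lf 0))) (nd (nd (nd (lf 0) (nd (lf 0) (nd (lf 0) (nd (lf 0) (lf 554192899))))) (lf 0)) (nd (nd (lf 0) (nd (lf 0) (nd (lf 0) (nd (lf 0) (lf 9297813972205570))))) (lf 0))))

def p390 : Tr :=
  (nd (nd (nd (nd (lf 0) (nd (lf 0) (nd (lf 0) (nd (lf 0) (lf 2576153540512632945328181755919))))) (nd (lf 0) (nd (lf 0) (nd (lf 0) (nd (lf 0) (lf 2576153540512632945328181755919)))))) (nd (nd (lf 0) (nd (lf 0) (nd (lf 0) (nd (lf 0) (lf 2576153540512632945328181755919))))) (nd (lf 0) (nd (lf 0) (nd (lf 0) (nd (lf 0) (lf 2576153540512632945328181755919))))))) (lf 0))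

def p391 : Tr :=
  (nd (nd (nd (nd (lf 0) (nd (lf 0) (nd (lf 0) (nd (lf 0) (lf 10871372844281426435367736957485073))))) (lf 0)) (nd (nd (lf 0) (nd (lf 0) (nd (lf 0) (nd (lf 0) (lf 10871372844281426435367736957485073))))) (lf 0))) (nd (nd (nd (lf 0) (nd (lf 0) (nd (lf 0) (nd (lf 0) (lf 2654143763061398878941665050639))))) (lf 0)) (nd (nd (lf 0) (nd (lf 0) (nd (lf 0) (nd (lf 0) (lf 2654143763061398878941665050639))))) (lf 0))))

def p392 : Tr :=
  (nd (nd (nd (nd (lf 0) (nd (lf 0) (nd (lf 0) (nd (lf 0) (lf 135169))))) (nd (lf 0) (nd (lf 0) (nd (lf 0) (nd (lf 0) (lf 135169)))))) (nd (nd (lf 0) (nd (lf 0) (nd (lf 0) (nd (lf 0) (lf 9147937867710471))))) (lf 0))) (nd (nd (nd (lf 0) (nd (lf 0) (nd (lf 0) (nd (lf 0) (lf 135169))))) (nd (lf 0) (nd (lf 0) (nd (lf 0) (nd (lf 0) (lf 135169)))))) (nd (nd (lf 0) (nd (lf 0) (nd (lf 0) (nd (lf 0) (lf 9147937867710471))))) (lf 0))))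

def p393 : Tr :=
  (nd (nd (nd (nd (lf 0) (nd (lf 0) (nd (lf 0) (nd (lf 0) (lf 554192899))))) (nd (lf 0) (nd (lf 0) (nd (lf 0) (nd (lf 0) (lf 9071021277186)))))) (nd (nd (lf 0) (nd (lf 0) (nd (lf 0) (nd (lf 0) (lf 9983451733720170722508802))))) (nd (lf 0) (nd (lf 0) (nd (lf 0) (nd (lf 0) (lf 16386))))))) (nd (nd (nd (lf 0) (nd (lf 0) (nd (lf 0) (nd (lf 0) (lf 554192899))))) (nd (lf 0) (nd (lf 0) (nd (lf 0) (nd (lf 0) (lf 9071021277186)))))) (nd (nd (lf 0) (nd (lf 0) (nd (lf 0) (nd (lf 0) (lf 9983451733720170722508802))))) (nd (lf 0) (nd (lf 0) (nd (lf 0) (nd (lf 0) (lf 16386))))))))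

def p394 : Tr :=
  (nd (nd (nd (nd (lf 0) (nd (lf 0) (nd (lf 0) (nd (lf 0) (lf 135169))))) (nd (lf 0) (nd (lf 0) (nd (lf 0) (nd (lf 0) (lf 135169)))))) (nd (nd (lf 0) (nd (lf 0) (nd (lf 0) (nd (lf 0) (lf 135169))))) (nd (lf 0) (nd (lf 0) (nd (lf 0) (nd (lf 0) (lf 135169))))))) (nd (nd (nd (lf 0) (nd (lf 0) (nd (lf 0) (nd (lf 0) (lf 553926659))))) (nd (lf 0) (nd (lf 0) (nd (lf 0) (nd (lf 0) (lf 553926659)))))) (nd (nd (lf 0) (nd (lf 0) (nd (lf 0) (nd (lf 0) (lf 16386))))) (nd (lf 0) (nd (lf 0) (nd (lf 0) (nd (lf 0) (lf 16386))))))))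

def p395 : Tr :=
  (nd (nd (nd (nd (lf 0) (nd (lf 0) (nd (lf 0) (nd (lf 0) (lf 9152335913959431))))) (nd (lf 0) (nd (lf 0) (nd (lf 0) (nd (lf 0) (lf 9152335913959431)))))) (nd (nd (lf 0) (nd (lf 0) (nd (lf 0) (nd (lf 0) (lf 9152335913959431))))) (nd (lf 0) (nd (lf 0) (nd (lf 0) (nd (lf 0) (lf 9152335913959431))))))) (nd (nd (nd (lf 0) (nd (lf 0) (nd (lf 0) (nd (lf 0) (lf 9152335913959431))))) (nd (lf 0) (nd (lf 0) (nd (lf 0) (nd (lf 0) (lf 9152335913959431)))))) (lf 0)))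

def p396 : Tr :=
  (nd (nd (nd (nd (lf 0) (nd (lf 0) (nd (lf 0) (nd (lf 0) (lf 553926659))))) (nd (lf 0) (nd (lf 0) (nd (lf 0) (nd (lf 0) (lf 553926659)))))) (nd (nd (lf 0) (nd (lf 0) (nd (lf 0) (nd (lf 0) (lf 9978655580273927598133251))))) (nd (lf 0) (nd (lf 0) (nd (lf 0) (nd (lf 0) (lf 9978655580273927598133251))))))) (nd (nd (nd (lf 0) (nd (lf 0) (nd (lf 0) (nd (lf 0) (lf 21992380321795))))) (nd (lf 0) (nd (lf 0) (nd (lf 0) (nd (lf 0) (lf 21992380321795)))))) (nd (nd (lf 0) (nd (lf 0) (nd (lf 0) (nd (lf 0) (lf 20482))))) (nd (lf 0) (nd (lf 0) (nd (lf 0) (nd (lf 0) (lf 20482))))))))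

def p397 : Tr :=
  (nd (nd (nd (nd (lf 0) (nd (lf 0) (nd (lf 0) (nd (lf 0) (lf 135169))))) (nd (lf 0) (nd (lf 0) (nd (lf 0) (nd (lf 0) (lf 135169)))))) (nd (nd (lf 0) (nd (lf 0) (nd (lf 0) (nd (lf 0) (lf 139265))))) (nd (lf 0) (nd (lf 0) (nd (lf 0) (nd (lf 0) (lf 16386))))))) (nd (nd (nd (lf 0) (nd (lf 0) (nd (lf 0) (nd (lf 0) (lf 135169))))) (nd (lf 0) (nd (lf 0) (nd (lf 0) (nd (lf 0) (lf 135169)))))) (nd (nd (lf 0) (nd (lf 0) (nd (lf 0) (nd (lf 0) (lf 139265))))) (nd (lf 0) (nd (lf 0) (nd (lf 0) (nd (lf 0) (lf 16386))))))))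

def p398 : Tr :=
  (nd (nd (nd (nd (lf 0) (nd (lf 0) (nd (lf 0) (nd (lf 0) (lf 135169))))) (nd (lf 0) (nd (lf 0) (nd (lf 0) (nd (lf 0) (lf 135169)))))) (nd (nd (lf 0) (nd (lf 0) (nd (lf 0) (nd (lf 0) (lf 135169))))) (nd (lf 0) (nd (lf 0) (nd (lf 0) (nd (lf 0) (lf 135169))))))) (nd (nd (nd (lf 0) (nd (lf 0) (nd (lf 0) (nd (lf 0) (lf 139265))))) (nd (lf 0) (nd (lf 0) (nd (lf 0) (nd (lf 0) (lf 139265)))))) (nd (nd (lf 0) (nd (lf 0) (nd (lf 0) (nd (lf 0) (lf 16386))))) (nd (lf 0) (nd (lf 0) (nd (lf 0) (nd (lf 0) (lf 16386))))))))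

def p399 : Tr :=
  (nd (nd (nd (nd (lf 0) (nd (lf 0) (nd (lf 0) (nd (lf 0) (lf 135169))))) (nd (lf 0) (nd (lf 0) (nd (lf 0) (nd (lf 0) (lf 9071021277186)))))) (nd (nd (lf 0) (nd (lf 0) (nd (lf 0) (nd (lf 0) (lf 135169))))) (nd (lf 0) (nd (lf 0) (nd (lf 0) (nd (lf 0) (lf 16386))))))) (nd (nd (nd (lf 0) (nd (lf 0) (nd (lf 0) (nd (lf 0) (lf 135169))))) (nd (lf 0) (nd (lf 0) (nd (lf 0) (nd (lf 0) (lf 9071021277186)))))) (nd (nd (lf 0) (nd (lf 0) (nd (lf 0) (nd (lf 0) (lf 135169))))) (nd (lf 0) (nd (lf 0) (nd (lf 0) (nd (lf 0) (lf 16386))))))))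

def p400 : Tr :=
  (nd (nd (nd (nd (lf 0) (nd (lf 0) (nd (lf 0) (nd (lf 0) (lf 135169))))) (nd (lf 0) (nd (lf 0) (nd (lf 0) (nd (lf 0) (lf 135169)))))) (nd (nd (lf 0) (nd (lf 0) (nd (lf 0) (nd (lf 0) (lf 135169))))) (nd (lf 0) (nd (lf 0) (nd (lf 0) (nd (lf 0) (lf 135169))))))) (nd (nd (nd (lf 0) (nd (lf 0) (nd (lf 0) (nd (lf 0) (lf 17594333806595))))) (nd (lf 0) (nd (lf 0) (nd (lf 0) (nd (lf 0) (lf 17594333806595)))))) (nd (nd (lf 0) (nd (lf 0) (nd (lf 0) (nd (lf 0) (lf 16386))))) (nd (lf 0) (nd (lf 0) (nd (lf 0) (nd (lf 0) (lf 16386))))))))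

def p401 : Tr :=
  (nd (nd (nd (nd (lf 0) (nd (lf 0) (nd (lf 0) (nd (lf 0) (lf 153476929692825521766411))))) (nd (lf 0) (nd (lf 0) (nd (lf 0) (nd (lf 0) (lf 153476929692825521766411)))))) (nd (nd (lf 0) (nd (lf 0) (nd (lf 0) (nd (lf 0) (lf 153476929692825521766411))))) (nd (lf 0) (nd (lf 0) (nd (lf 0) (nd (lf 0) (lf 153476929692825521766411))))))) (nd (nd (nd (lf 0) (nd (lf 0) (nd (lf 0) (nd (lf 0) (lf 158273083156388051959819))))) (lf 0)) (nd (nd (lf 0) (nd (lf 0) (nd (lf 0) (nd (lf 0) (lf 158273083156388051959819))))) (lf 0))))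

def p402 : Tr :=
  (nd (nd (nd (nd (lf 0) (nd (lf 0) (nd (lf 0) (nd (lf 0) (lf 131073))))) (nd (lf 0) (nd (lf 0) (nd (lf 0) (nd (lf 0) (lf 131073)))))) (nd (nd (lf 0) (nd (lf 0) (nd (lf 0) (nd (lf 0) (lf 135169))))) (lf 0))) (nd (nd (nd (lf 0) (nd (lf 0) (nd (lf 0) (nd (lf 0) (lf 131073))))) (nd (lf 0) (nd (lf 0) (nd (lf 0) (nd (lf 0) (lf 131073)))))) (lf 0)))

def p403 : Tr :=
  (nd (nd (nd (nd (lf 0) (nd (lf 0) (nd (lf 0) (nd (lf 0) (lf 135169))))) (nd (lf 0) (nd (lf 0) (nd (lf 0) (nd (lf 0) (lf 135169)))))) (nd (nd (lf 0) (nd (lf 0) (nd (lf 0) (nd (lf 0) (lf 9152335913959431))))) (lf 0))) (nd (nd (nd (lf 0) (nd (lf 0) (nd (lf 0) (nd (lf 0) (lf 135169))))) (nd (lf 0) (nd (lf 0) (nd (lf 0) (nd (lf 0) (lf 135169)))))) (lf 0)))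

def p404 : Tr :=
  (nd (nd (nd (nd (lf 0) (nd (lf 0) (nd (lf 0) (nd (lf 0) (lf 135169))))) (nd (lf 0) (nd (lf 0) (nd (lf 0) (nd (lf 0) (lf 135169)))))) (nd (nd (lf 0) (nd (lf 0) (nd (lf 0) (nd (lf 0) (lf 9147937867710471))))) (lf 0))) (nd (nd (nd (lf 0) (nd (lf 0) (nd (lf 0) (nd (lf 0) (lf 135169))))) (nd (lf 0) (nd (lf 0) (nd (lf 0) (nd (lf 0) (lf 135169)))))) (lf 0)))

def p405 : Tr :=
  (nd (nd (nd (nd (lf 0) (nd (lf 0) (nd (lf 0) (nd (lf 0) (lf 139265))))) (nd (lf 0) (nd (lf 0) (nd (lf 0) (nd (lf 0) (lf 139265)))))) (nd (nd (lf 0) (nd (lf 0) (nd (lf 0) (nd (lf 0) (lf 638940911542978404395008008))))) (nd (lf 0) (nd (lf 0) (nd (lf 0) (nd (lf 0) (lf 16386))))))) (nd (nd (nd (lf 0) (nd (lf 0) (nd (lf 0) (nd (lf 0) (lf 139265))))) (nd (lf 0) (nd (lf 0) (nd (lf 0) (nd (lf 0) (lf 139265)))))) (lf 0)))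

def p406 : Tr :=
  (nd (nd (nd (nd (lf 0) (nd (lf 0) (nd (lf 0) (nd (lf 0) (lf 554192899))))) (lf 0)) (nd (nd (lf 0) (nd (lf 0) (nd (lf 0) (nd (lf 0) (lf 9297813972205570))))) (lf 0))) (lf 0))

def p407 : Tr :=
  (nd (nd (nd (nd (lf 0) (nd (lf 0) (nd (lf 0) (nd (lf 0) (lf 46385555755208980190913327197915474153689595928))))) (lf 0)) (nd (nd (lf 0) (nd (lf 0) (nd (lf 0) (nd (lf 0) (lf 16386))))) (lf 0))) (lf 0))

def p408 : Tr :=
  (nd (nd (nd (nd (lf 0) (nd (lf 0) (nd (lf 0) (nd (lf 0) (lf 553926659))))) (lf 0)) (nd (nd (lf 0) (nd (lf 0) (nd (lf 0) (nd (lf 0) (lf 9293347206221826))))) (lf 0))) (lf 0))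

def p409 : Tr :=
  (nd (nd (nd (nd (lf 0) (nd (lf 0) (nd (lf 0) (nd (lf 0) (lf 139265))))) (nd (lf 0) (nd (lf 0) (nd (lf 0) (nd (lf 0) (lf 139265)))))) (nd (nd (lf 0) (nd (lf 0) (nd (lf 0) (nd (lf 0) (lf 648286548050417974967025667))))) (lf 0))) (nd (nd (nd (lf 0) (nd (lf 0) (nd (lf 0) (nd (lf 0) (lf 139265))))) (nd (lf 0) (nd (lf 0) (nd (lf 0) (nd (lf 0) (lf 139265)))))) (nd (nd (lf 0) (nd (lf 0) (nd (lf 0) (nd (lf 0) (lf 20482))))) (lf 0))))

def p410 : Tr :=
  (nd (nd (nd (nd (lf 0) (nd (lf 0) (nd (lf 0) (nd (lf 0) (lf 47835104194442698770126231995172240708281843736))))) (lf 0)) (nd (nd (lf 0) (nd (lf 0) (nd (lf 0) (nd (lf 0) (lf 16386))))) (lf 0))) (lf 0))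

def p411 : Tr :=
  (nd (nd (nd (nd (lf 0) (nd (lf 0) (nd (lf 0) (nd (lf 0) (lf 131073))))) (nd (lf 0) (nd (lf 0) (nd (lf 0) (nd (lf 0) (lf 131073)))))) (lf 0)) (nd (nd (nd (lf 0) (nd (lf 0) (nd (lf 0) (nd (lf 0) (lf 131073))))) (nd (lf 0) (nd (lf 0) (nd (lf 0) (nd (lf 0) (lf 131073)))))) (lf 0)))

def p412 : Tr :=
  (nd (nd (nd (nd (lf 0) (nd (lf 0) (nd (lf 0) (nd (lf 0) (lf 131073))))) (nd (lf 0) (nd (lf 0) (nd (lf 0) (nd (lf 0) (lf 131073)))))) (nd (nd (lf 0) (nd (lf 0) (nd (lf 0) (nd (lf 0) (lf 131073))))) (nd (lf 0) (nd (lf 0) (nd (lf 0) (nd (lf 0) (lf 131073))))))) (nd (nd (nd (lf 0) (nd (lf 0) (nd (lf 0) (nd (lf 0) (lf 135169))))) (nd (lf 0) (nd (lf 0) (nd (lf 0) (nd (lf 0) (lf 135169)))))) (nd (nd (lf 0) (nd (lf 0) (nd (lf 0) (nd (lf 0) (lf 139265))))) (lf 0))))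

def p413 : Tr :=
  (nd (nd (nd (nd (lf 0) (nd (lf 0) (nd (lf 0) (nd (lf 0) (lf 135169))))) (nd (lf 0) (nd (lf 0) (nd (lf 0) (nd (lf 0) (lf 135169)))))) (nd (nd (lf 0) (nd (lf 0) (nd (lf 0) (nd (lf 0) (lf 139265))))) (nd (lf 0) (nd (lf 0) (nd (lf 0) (nd (lf 0) (lf 16386))))))) (nd (nd (nd (lf 0) (nd (lf 0) (nd (lf 0) (nd (lf 0) (lf 135169))))) (nd (lf 0) (nd (lf 0) (nd (lf 0) (nd (lf 0) (lf 135169)))))) (nd (nd (lf 0) (nd (lf 0) (nd (lf 0) (nd (lf 0) (lf 139265))))) (lf 0))))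

def p414 : Tr :=
  (nd (nd (nd (nd (lf 0) (nd (lf 0) (nd (lf 0) (nd (lf 0) (lf 131073))))) (lf 0)) (nd (nd (lf 0) (nd (lf 0) (nd (lf 0) (nd (lf 0) (lf 131073))))) (lf 0))) (lf 0))

def p415 : Tr :=
  (nd (nd (nd (nd (lf 0) (nd (lf 0) (nd (lf 0) (nd (lf 0) (lf 135169))))) (nd (lf 0) (nd (lf 0) (nd (lf 0) (nd (lf 0) (lf 135169)))))) (nd (nd (lf 0) (nd (lf 0) (nd (lf 0) (nd (lf 0) (lf 139265))))) (lf 0))) (nd (nd (nd (lf 0) (nd (lf 0) (nd (lf 0) (nd (lf 0) (lf 135169))))) (nd (lf 0) (nd (lf 0) (nd (lf 0) (nd (lf 0) (lf 135169)))))) (nd (nd (lf 0) (nd (lf 0) (nd (lf 0) (nd (lf 0) (lf 16386))))) (lf 0))))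

def p416 : Tr :=
  (nd (nd (nd (nd (lf 0) (nd (lf 0) (nd (lf 0) (nd (lf 0) (lf 135169))))) (nd (lf 0) (nd (lf 0) (nd (lf 0) (nd (lf 0) (lf 135169)))))) (nd (nd (lf 0) (nd (lf 0) (nd (lf 0) (nd (lf 0) (lf 139265))))) (nd (lf 0) (nd (lf 0) (nd (lf 0) (nd (lf 0) (lf 16386))))))) (nd (nd (nd (lf 0) (nd (lf 0) (nd (lf 0) (nd (lf 0) (lf 135169))))) (nd (lf 0) (nd (lf 0) (nd (lf 0) (nd (lf 0) (lf 135169)))))) (lf 0)))

def p417 : Tr :=
  (nd (nd (nd (nd (lf 0) (nd (lf 0) (nd (lf 0) (nd (lf 0) (lf 135169))))) (nd (lf 0) (nd (lf 0) (nd (lf 0) (nd (lf 0) (lf 135169)))))) (nd (nd (lf 0) (nd (lf 0) (nd (lf 0) (nd (lf 0) (lf 135169))))) (nd (lf 0) (nd (lf 0) (nd (lf 0) (nd (lf 0) (lf 135169))))))) (nd (nd (nd (lf 0) (nd (lf 0) (nd (lf 0) (nd (lf 0) (lf 139265))))) (nd (lf 0) (nd (lf 0) (nd (lf 0) (nd (lf 0) (lf 139265)))))) (nd (nd (lf 0) (nd (lf 0) (nd (lf 0) (nd (lf 0) (lf 16386))))) (lf 0))))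

def p418 : Tr :=
  (nd (nd (nd (nd (lf 0) (nd (lf 0) (nd (lf 0) (nd (lf 0) (lf 135169))))) (nd (lf 0) (nd (lf 0) (nd (lf 0) (nd (lf 0) (lf 135169)))))) (nd (nd (lf 0) (nd (lf 0) (nd (lf 0) (nd (lf 0) (lf 135169))))) (nd (lf 0) (nd (lf 0) (nd (lf 0) (nd (lf 0) (lf 135169))))))) (nd (nd (nd (lf 0) (nd (lf 0) (nd (lf 0) (nd (lf 0) (lf 139265))))) (nd (lf 0) (nd (lf 0) (nd (lf 0) (nd (lf 0) (lf 139265)))))) (nd (nd (lf 0) (nd (lf 0) (nd (lf 0) (nd (lf 0) (lf 9147937867710471))))) (lf 0))))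

def p419 : Tr :=
  (nd (nd (nd (nd (lf 0) (nd (lf 0) (nd (lf 0) (nd (lf 0) (lf 135169))))) (nd (lf 0) (nd (lf 0) (nd (lf 0) (nd (lf 0) (lf 135169)))))) (nd (nd (lf 0) (nd (lf 0) (nd (lf 0) (nd (lf 0) (lf 139265))))) (nd (lf 0) (nd (lf 0) (nd (lf 0) (nd (lf 0) (lf 9152335913959431))))))) (nd (nd (nd (lf 0) (nd (lf 0) (nd (lf 0) (nd (lf 0) (lf 135169))))) (nd (lf 0) (nd (lf 0) (nd (lf 0) (nd (lf 0) (lf 135169)))))) (nd (nd (lf 0) (nd (lf 0) (nd (lf 0) (nd (lf 0) (lf 139265))))) (lf 0))))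

def p420 : Tr :=
  (nd (nd (nd (nd (lf 0) (nd (lf 0) (nd (lf 0) (nd (lf 0) (lf 139265))))) (nd (lf 0) (nd (lf 0) (nd (lf 0) (nd (lf 0) (lf 139265)))))) (nd (nd (lf 0) (nd (lf 0) (nd (lf 0) (nd (lf 0) (lf 9016338995494914))))) (lf 0))) (nd (nd (nd (lf 0) (nd (lf 0) (nd (lf 0) (nd (lf 0) (lf 139265))))) (nd (lf 0) (nd (lf 0) (nd (lf 0) (nd (lf 0) (lf 139265)))))) (nd (nd (lf 0) (nd (lf 0) (nd (lf 0) (nd (lf 0) (lf 16386))))) (lf 0))))

def p421 : Tr :=
  (nd (nd (nd (nd (lf 0) (nd (lf 0) (nd (lf 0) (nd (lf 0) (lf 135169))))) (nd (lf 0) (nd (lf 0) (nd (lf 0) (nd (lf 0) (lf 135169)))))) (nd (nd (lf 0) (nd (lf 0) (nd (lf 0) (nd (lf 0) (lf 16386))))) (lf 0))) (nd (nd (nd (lf 0) (nd (lf 0) (nd (lf 0) (nd (lf 0) (lf 135169))))) (nd (lf 0) (nd (lf 0) (nd (lf 0) (nd (lf 0) (lf 135169)))))) (lf 0)))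

def p422 : Tr :=
  (nd (nd (nd (nd (lf 0) (nd (lf 0) (nd (lf 0) (nd (lf 0) (lf 139265))))) (nd (lf 0) (nd (lf 0) (nd (lf 0) (nd (lf 0) (lf 139265)))))) (nd (nd (lf 0) (nd (lf 0) (nd (lf 0) (nd (lf 0) (lf 9293415925694466))))) (nd (lf 0) (nd (lf 0) (nd (lf 0) (nd (lf 0) (lf 16386))))))) (nd (nd (nd (lf 0) (nd (lf 0) (nd (lf 0) (nd (lf 0) (lf 139265))))) (nd (lf 0) (nd (lf 0) (nd (lf 0) (nd (lf 0) (lf 139265)))))) (lf 0)))

def p423 : Tr :=
  (nd (nd (nd (nd (lf 0) (nd (lf 0) (nd (lf 0) (nd (lf 0) (lf 139265))))) (nd (lf 0) (nd (lf 0) (nd (lf 0) (nd (lf 0) (lf 139265)))))) (nd (nd (lf 0) (nd (lf 0) (nd (lf 0) (nd (lf 0) (lf 576764221271326723))))) (lf 0))) (nd (nd (nd (lf 0) (nd (lf 0) (nd (lf 0) (nd (lf 0) (lf 139265))))) (nd (lf 0) (nd (lf 0) (nd (lf 0) (nd (lf 0) (lf 139265)))))) (lf 0)))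

def p424 : Tr :=
  (nd (nd (nd (nd (lf 0) (nd (lf 0) (nd (lf 0) (nd (lf 0) (lf 135169))))) (nd (lf 0) (nd (lf 0) (nd (lf 0) (nd (lf 0) (lf 135169)))))) (nd (nd (lf 0) (nd (lf 0) (nd (lf 0) (nd (lf 0) (lf 16386))))) (lf 0))) (nd (nd (nd (lf 0) (nd (lf 0) (nd (lf 0) (nd (lf 0) (lf 135169))))) (nd (lf 0) (nd (lf 0) (nd (lf 0) (nd (lf 0) (lf 135169)))))) (lf 0)))

def p425 : Tr :=
  (nd (nd (nd (nd (lf 0) (nd (lf 0) (nd (lf 0) (nd (lf 0) (lf 131073))))) (nd (lf 0) (nd (lf 0) (nd (lf 0) (nd (lf 0) (lf 131073)))))) (nd (nd (lf 0) (nd (lf 0) (nd (lf 0) (nd (lf 0) (lf 131073))))) (nd (lf 0) (nd (lf 0) (nd (lf 0) (nd (lf 0) (lf 131073))))))) (nd (nd (nd (lf 0) (nd (lf 0) (nd (lf 0) (nd (lf 0) (lf 135169))))) (lf 0)) (nd (nd (lf 0) (nd (lf 0) (nd (lf 0) (nd (lf 0) (lf 135169))))) (lf 0))))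

def p426 : Tr :=
  (nd (nd (nd (nd (lf 0) (nd (lf 0) (nd (lf 0) (nd (lf 0) (lf 135169))))) (nd (lf 0) (nd (lf 0) (nd (lf 0) (nd (lf 0) (lf 135169)))))) (nd (nd (lf 0) (nd (lf 0) (nd (lf 0) (nd (lf 0) (lf 135169))))) (nd (lf 0) (nd (lf 0) (nd (lf 0) (nd (lf 0) (lf 135169))))))) (nd (nd (nd (lf 0) (nd (lf 0) (nd (lf 0) (nd (lf 0) (lf 34393833476))))) (lf 0)) (nd (nd (lf 0) (nd (lf 0) (nd (lf 0) (nd (lf 0) (lf 16386))))) (lf 0))))

def p427 : Tr :=
  (nd (nd (nd (nd (lf 0) (nd (lf 0) (nd (lf 0) (nd (lf 0) (lf 135169))))) (nd (lf 0) (nd (lf 0) (nd (lf 0) (nd (lf 0) (lf 34376794116)))))) (nd (nd (lf 0) (nd (lf 0) (nd (lf 0) (nd (lf 0) (lf 135169))))) (nd (lf 0) (nd (lf 0) (nd (lf 0) (nd (lf 0) (lf 16386))))))) (nd (nd (nd (lf 0) (nd (lf 0) (nd (lf 0) (nd (lf 0) (lf 135169))))) (lf 0)) (nd (nd (lf 0) (nd (lf 0) (nd (lf 0) (nd (lf 0) (lf 135169))))) (lf 0))))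

def pT : Tr :=
  (nd (nd (nd (nd (nd (nd (nd (nd (nd p0 p256) (nd p128 p384)) (nd (nd p64 p320) (nd p192 (lf 0)))) (nd (nd (nd p32 p288) (nd p160 p416)) (nd (nd p96 p352) (nd p224 (lf 0))))) (nd (nd (nd (nd p16 p272) (nd p144 p400)) (nd (nd p80 p336) (nd p208 (lf 0)))) (nd (nd (nd p48 p304) (nd p176 (lf 0))) (nd (nd p112 p368) (nd p240 (lf 0)))))) (nd (nd (nd (nd (nd p8 p264) (nd p136 p392)) (nd (nd p72 p328) (nd p200 (lf 0)))) (nd (nd (nd p40 p296) (nd p168 p424)) (nd (nd p104 p360) (nd p232 (lf 0))))) (nd (nd (nd (nd p24 p280) (nd p152 p408)) (nd (nd p88 p344) (nd p216 (lf 0)))) (nd (nd (nd p56 p312) (nd p184 (lf 0))) (nd (nd p120 p376) (nd p248 (lf 0))))))) (nd (nd (nd (nd (nd (nd p4 p260) (nd p132 p388)) (nd (nd p68 p324) (nd p196 (lf 0)))) (nd (nd (nd p36 p292) (nd p164 p420)) (nd (nd p100 p356) (nd p228 (lf 0))))) (nd (nd (nd (nd p20 p276) (nd p148 p404)) (nd (nd p84 p340) (nd p212 (lf 0)))) (nd (nd (nd p52 p308) (nd p180 (lf 0))) (nd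 (nd p116 p372) (nd p244 (lf 0)))))) (nd (nd (nd (nd (nd p12 p268) (nd p140 p396)) (nd (nd p76 p332) (nd p204 (lf 0)))) (nd (nd (nd p44 p300) (nd p172 (lf 0))) (nd (nd p108 p364) (nd p236 (lf 0))))) (nd (nd (nd (nd p28 p284) (nd p156 p412)) (nd (nd p92 p348) (nd p220 (lf 0)))) (nd (nd (nd p60 p316) (nd p188 (lf 0))) (nd (nd p124 p380) (nd p252 (lf 0)))))))) (nd (nd (nd (nd (nd (nd (nd p2 p258) (nd p130 p386)) (nd (nd p66 p322) (nd p194 (lf 0)))) (nd (nd (nd p34 p290) (nd p162 p418)) (nd (nd p98 p354) (nd p226 (lf 0))))) (nd (nd (nd (nd p18 p274) (nd p146 p402)) (nd (nd p82 p338) (nd p210 (lf 0)))) (nd (nd (nd p50 p306) (nd p178 (lf 0))) (nd (nd p114 p370) (nd p242 (lf 0)))))) (nd (nd (nd (nd (nd p10 p266) (nd p138 p394)) (nd (nd p74 p330) (nd p202 (lf 0)))) (nd (nd (nd p42 p298) (nd p170 p426)) (nd (nd p106 p362) (nd p234 (lf 0))))) (nd (nd (nd (nd p26 p282) (nd p154 p410)) (nd (nd p90 p346) (nd p218 (lf 0)))) (nd (nd (nd p58 p314) (nd p186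 (lf 0))) (nd (nd p122 p378) (nd p250 (lf 0))))))) (nd (nd (nd (nd (nd (nd p6 p262) (nd p134 p390)) (nd (nd p70 p326) (nd p198 (lf 0)))) (nd (nd (nd p38 p294) (nd p166 p422)) (nd (nd p102 p358) (nd p230 (lf 0))))) (nd (nd (nd (nd p22 p278) (nd p150 p406)) (nd (nd p86 p342) (nd p214 (lf 0)))) (nd (nd (nd p54 p310) (nd p182 (lf 0))) (nd (nd p118 p374) (nd p246 (lf 0)))))) (nd (nd (nd (nd (nd p14 p270) (nd p142 p398)) (nd (nd p78 p334) (nd p206 (lf 0)))) (nd (nd (nd p46 p302) (nd p174 (lf 0))) (nd (nd p110 p366) (nd p238 (lf 0))))) (nd (nd (nd (nd p30 p286) (nd p158 p414)) (nd (nd p94 p350) (nd p222 (lf 0)))) (nd (nd (nd p62 p318) (nd p190 (lf 0))) (nd (nd p126 p382) (nd p254 (lf 0))))))))) (nd (nd (nd (nd (nd (nd (nd (nd p1 p257) (nd p129 p385)) (nd (nd p65 p321) (nd p193 (lf 0)))) (nd (nd (nd p33 p289) (nd p161 p417)) (nd (nd p97 p353) (nd p225 (lf 0))))) (nd (nd (nd (nd p17 p273) (nd p145 p401)) (nd (nd p81 p337) (nd p209 (lf 0)))) (nd (nd (nd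 p49 p305) (nd p177 (lf 0))) (nd (nd p113 p369) (nd p241 (lf 0)))))) (nd (nd (nd (nd (nd p9 p265) (nd p137 p393)) (nd (nd p73 p329) (nd p201 (lf 0)))) (nd (nd (nd p41 p297) (nd p169 p425)) (nd (nd p105 p361) (nd p233 (lf 0))))) (nd (nd (nd (nd p25 p281) (nd p153 p409)) (nd (nd p89 p345) (nd p217 (lf 0)))) (nd (nd (nd p57 p313) (nd p185 (lf 0))) (nd (nd p121 p377) (nd p249 (lf 0))))))) (nd (nd (nd (nd (nd (nd p5 p261) (nd p133 p389)) (nd (nd p69 p325) (nd p197 (lf 0)))) (nd (nd (nd p37 p293) (nd p165 p421)) (nd (nd p101 p357) (nd p229 (lf 0))))) (nd (nd (nd (nd p21 p277) (nd p149 p405)) (nd (nd p85 p341) (nd p213 (lf 0)))) (nd (nd (nd p53 p309) (nd p181 (lf 0))) (nd (nd p117 p373) (nd p245 (lf 0)))))) (nd (nd (nd (nd (nd p13 p269) (nd p141 p397)) (nd (nd p77 p333) (nd p205 (lf 0)))) (nd (nd (nd p45 p301) (nd p173 (lf 0))) (nd (nd p109 p365) (nd p237 (lf 0))))) (nd (nd (nd (nd p29 p285) (nd p157 p413)) (nd (nd p93 p349) (nd p221 (lf 0)))) (nd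 (nd (nd p61 p317) (nd p189 (lf 0))) (nd (nd p125 p381) (nd p253 (lf 0)))))))) (nd (nd (nd (nd (nd (nd (nd p3 p259) (nd p131 p387)) (nd (nd p67 p323) (nd p195 (lf 0)))) (nd (nd (nd p35 p291) (nd p163 p419)) (nd (nd p99 p355) (nd p227 (lf 0))))) (nd (nd (nd (nd p19 p275) (nd p147 p403)) (nd (nd p83 p339) (nd p211 (lf 0)))) (nd (nd (nd p51 p307) (nd p179 (lf 0))) (nd (nd p115 p371) (nd p243 (lf 0)))))) (nd (nd (nd (nd (nd p11 p267) (nd p139 p395)) (nd (nd p75 p331) (nd p203 (lf 0)))) (nd (nd (nd p43 p299) (nd p171 p427)) (nd (nd p107 p363) (nd p235 (lf 0))))) (nd (nd (nd (nd p27 p283) (nd p155 p411)) (nd (nd p91 p347) (nd p219 (lf 0)))) (nd (nd (nd p59 p315) (nd p187 (lf 0))) (nd (nd p123 p379) (nd p251 (lf 0))))))) (nd (nd (nd (nd (nd (nd p7 p263) (nd p135 p391)) (nd (nd p71 p327) (nd p199 (lf 0)))) (nd (nd (nd p39 p295) (nd p167 p423)) (nd (nd p103 p359) (nd p231 (lf 0))))) (nd (nd (nd (nd p23 p279) (nd p151 p407)) (nd (nd p87 p343) (nd p215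 (lf 0)))) (nd (nd (nd p55 p311) (nd p183 (lf 0))) (nd (nd p119 p375) (nd p247 (lf 0)))))) (nd (nd (nd (nd (nd p15 p271) (nd p143 p399)) (nd (nd p79 p335) (nd p207 (lf 0)))) (nd (nd (nd p47 p303) (nd p175 (lf 0))) (nd (nd p111 p367) (nd p239 (lf 0))))) (nd (nd (nd (nd p31 p287) (nd p159 p415)) (nd (nd p95 p351) (nd p223 (lf 0)))) (nd (nd (nd p63 p319) (nd p191 (lf 0))) (nd (nd p127 p383) (nd p255 (lf 0))))))))))

/-- the programs for the state `s` and the letter number `l` -/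
noncomputable def pg (s l : ℕ) : ℕ := get pT (Nat.add s (Nat.mul 512 l))

end MP82a8ee.Three
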