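import Pool.Agent.Lib.MP_82a8ee_lc.Three.Chk
import Pool.Agent.Lib.MP_82a8ee_lc.Three.TabP

set_option autoImplicit false

namespace MP82a8ee.Three

/-! The kernel check of the table of excursions. -/

/-- all excursions of all states reached from the state `s` have correct programs -/
noncomputable def chkS (s : ℕ) : Bool :=
  allLt 128 fun l => ifb (Nat.beq (dl s l) 242) true (runs s l (el (dl s l)) (pg s l))

theorem chkS_all : allLt 428 chkS = true := by decide +kernel

theorem el_zero : el 0 = [] := by decide +kernel

theorem el_dead : el 242 = [] := by decide +kernel

theorem win_all : nthK (el 375) 0 (fun e => ifb (Nat.beq (ek e) 3) (Nat.beq (eJ e) 0) false) =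
    true := by decide +kernel

end MP82a8ee.Three
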