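import Pool.Agent.Lib.MP_82a8ee_lc.Three.Model
import Pool.Agent.Lib.MP_82a8ee_lc.Three.Chk

set_option autoImplicit false

namespace MP82a8ee.Three

/-- the functions `mu` and `md` cover all vertical moves -/
theorem ver_spec (K : ℕ → ℕ → Bool) (c : Fin 8) (r : Fin 3) (c' : Fin 8) (r' : Fin 3)
    (h : ver c r c' r' = true) (hm : mu true c.val r.val K = true)
    (hd : md true c.val r.val K = true) : K c'.val r'.val = true := by
  have key : mu true c.val r.val K = K c'.val r'.val ∨
      md true c.val r.val K = K c'.val r'.val := by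
    have hc : c = 0 ∨ c = 1 ∨ c = 2 ∨ c = 3 ∨ c = 4 ∨ c = 5 ∨ c = 6 ∨ c = 7 :=
      (by decide : ∀ c : Fin 8, c = 0 ∨ c = 1 ∨ c = 2 ∨ c = 3 ∨ c = 4 ∨ c = 5 ∨ c = 6 ∨ c = 7) c
    have hr : r = 0 ∨ r = 1 ∨ r = 2 := (by decide : ∀ r : Fin 3, r = 0 ∨ r = 1 ∨ r = 2) r
    clear hm hd
    rcases hr with rfl | rfl | rfl
    · rcases hc with rfl | rfl | rfl | rfl | rfl | rfl | rfl | rfl
      · rcases (by decide : ∀ c' r', ver 0 0 c' r' = true →
            (c' = 0 ∧ r' = 1)) c' r' h with ⟨rfl, rfl⟩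
        · right; rfl
      · rcases (by decide : ∀ c' r', ver 1 0 c' r' = true →
            (c' = 1 ∧ r' = 1)) c' r' h with ⟨rfl, rfl⟩
        · right; rfl
      · rcases (by decide : ∀ c' r', ver 2 0 c' r' = true →
            (c' = 4 ∧ r' = 1)) c' r' h with ⟨rfl, rfl⟩
        · right; rfl
      · rcases (by decide : ∀ c' r', ver 3 0 c' r' = true →
            (c' = 5 ∧ r' = 1)) c' r' h with ⟨rfl, rfl⟩
        · right; rfl
      · rcases (by decide : ∀ c' r', ver 4 0 c' r' = true →
            (c' = 4 ∧ r' = 1)) c' r' h with ⟨rfl, rfl⟩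
        · right; rfl
      · rcases (by decide : ∀ c' r', ver 5 0 c' r' = true →
            (c' = 5 ∧ r' = 1)) c' r' h with ⟨rfl, rfl⟩
        · right; rfl
      · exact absurd h ((by decide : ∀ c' r', ¬ ver 6 0 c' r' = true) c' r')
      · exact absurd h ((by decide : ∀ c' r', ¬ ver 7 0 c' r' = true) c' r')
    · rcases hc with rfl | rfl | rfl | rfl | rfl | rfl | rfl | rfl
      · rcases (by decide : ∀ c' r', ver 0 1 c' r' = true →
            (c' = 0 ∧ r' = 0) ∨ (c' = 0 ∧ r' = 2)) c' r' h with ⟨rfl, rfl⟩ | ⟨rfl, rfl⟩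
        · left; rfl
        · right; rfl
      · rcases (by decide : ∀ c' r', ver 1 1 c' r' = true →
            (c' = 1 ∧ r' = 2)) c' r' h with ⟨rfl, rfl⟩
        · right; rfl
      · rcases (by decide : ∀ c' r', ver 2 1 c' r' = true →
            (c' = 2 ∧ r' = 0) ∨ (c' = 2 ∧ r' = 2)) c' r' h with ⟨rfl, rfl⟩ | ⟨rfl, rfl⟩
        · left; rfl
        · right; rfl
      · rcases (by decide : ∀ c' r', ver 3 1 c' r' = true →
            (c' = 3 ∧ r' = 2)) c' r' h with ⟨rfl, rfl⟩
        · right; rfl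
      · rcases (by decide : ∀ c' r', ver 4 1 c' r' = true →
            (c' = 4 ∧ r' = 0)) c' r' h with ⟨rfl, rfl⟩
        · left; rfl
      · exact absurd h ((by decide : ∀ c' r', ¬ ver 5 1 c' r' = true) c' r')
      · rcases (by decide : ∀ c' r', ver 6 1 c' r' = true →
            (c' = 6 ∧ r' = 0)) c' r' h with ⟨rfl, rfl⟩
        · left; rfl
      · exact absurd h ((by decide : ∀ c' r', ¬ ver 7 1 c' r' = true) c' r')
    · rcases hc with rfl | rfl | rfl | rfl | rfl | rfl | rfl | rfl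
      · rcases (by decide : ∀ c' r', ver 0 2 c' r' = true →
            (c' = 0 ∧ r' = 1)) c' r' h with ⟨rfl, rfl⟩
        · left; rfl
      · rcases (by decide : ∀ c' r', ver 1 2 c' r' = true →
            (c' = 1 ∧ r' = 1)) c' r' h with ⟨rfl, rfl⟩
        · left; rfl
      · rcases (by decide : ∀ c' r', ver 2 2 c' r' = true →
            (c' = 1 ∧ r' = 1)) c' r' h with ⟨rfl, rfl⟩
        · left; rfl
      · exact absurd h ((by decide : ∀ c' r', ¬ ver 3 2 c' r' = true) c' r')
      · rcases (by decide : ∀ c' r', ver 4 2 c' r' = true →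
            (c' = 4 ∧ r' = 1)) c' r' h with ⟨rfl, rfl⟩
        · left; rfl
      · rcases (by decide : ∀ c' r', ver 5 2 c' r' = true →
            (c' = 5 ∧ r' = 1)) c' r' h with ⟨rfl, rfl⟩
        · left; rfl
      · rcases (by decide : ∀ c' r', ver 6 2 c' r' = true →
            (c' = 5 ∧ r' = 1)) c' r' h with ⟨rfl, rfl⟩
        · left; rfl
      · exact absurd h ((by decide : ∀ c' r', ¬ ver 7 2 c' r' = true) c' r')
  rcases key with h1 | h1
  · rw [← h1]; exact hm
  · rw [← h1]; exact hd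

end MP82a8ee.Three
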