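import Pool.Agent.Lib.MP_82a8ee_lc.Three.Facts
import Pool.Agent.Lib.MP_82a8ee_lc.Three.CertC
import Pool.Agent.Lib.MP_82a8ee_lc.Three.Ver

set_option autoImplicit false

namespace MP82a8ee.Three

/-! Completeness: solvable words are accepted. -/

theorem beq_false {x y : ℕ} (h : x ≠ y) : Nat.beq x y = false := by
  cases hh : Nat.beq x y with
  | false => rfl
  | true => exact absurd (Nat.eq_of_beq_eq_true hh) h

theorem beq_self (x : ℕ) : Nat.beq x x = true := by
  cases hh : Nat.beq x x with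
  | true => rfl
  | false => exact absurd rfl (Nat.ne_of_beq_eq_false hh)

theorem tbt_zero (y : ℕ) : tbt 0 y = false := by
  show Nat.beq (1 &&& (0 >>> y)) 1 = false
  rw [Nat.zero_shiftRight]
  rfl

theorem le_dead (y : ℕ) : le 242 y = true := rfl

theorem le_refl (x : ℕ) : le x x = true := by
  unfold le
  rw [beq_self]
  cases Nat.beq x 242 <;> rfl

theorem le_cases {x y : ℕ} (h : le x y = true) : x = 242 ∨ x = y ∨ tbt (get leT x) y = true := by
  unfold le at h
  rcases ifb_cases h with ⟨h1, _⟩ | ⟨_, h⟩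
  · exact Or.inl (Nat.eq_of_beq_eq_true h1)
  rcases ifb_cases h with ⟨h1, _⟩ | ⟨_, h⟩
  · exact Or.inr (Or.inl (Nat.eq_of_beq_eq_true h1))
  · exact Or.inr (Or.inr h)

theorem le_top {x : ℕ} (h : le 375 x = true) : x = 375 := by
  rcases le_cases h with h1 | h1 | h1
  · omega
  · exact h1.symm
  · rw [Nat.eq_of_beq_eq_true ck_top, tbt_zero] at h1
    exact absurd h1 (by simp)

theorem le_step {x y : ℕ} (hx : x < 428) (hy : y < 428) (h : le x y = true) (t : Fin 4)
    (c : Fin 8) : le (dl x (ln 3 t.val c.val)) (dl y (ln 3 t.val c.val)) = true := by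
  rcases le_cases h with h1 | h1 | h1
  · rw [h1, dl_dead (ln_lt 3 le_rfl _ _)]
    exact le_dead _
  · rw [h1]; exact le_refl _
  · obtain ⟨l, hl, e⟩ := ln_free t c
    rw [e]
    have h2 := allLt_spec ckL x hx
    rcases ifb_cases h2 with ⟨h3, _⟩ | ⟨_, h3⟩
    · rw [Nat.eq_of_beq_eq_true h3, tbt_zero] at h1
      exact absurd h1 (by simp)
    · exact allLt_spec (ifb_imp (allLt_spec h3 y hy) h1) l hl

theorem le_fold (L : List Lt) : ∀ x y, x < 428 → y < 428 → le x y = true →
    le (L.foldl (fun q l => dl q (ln 3 l.2.val l.1.val)) x)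
      (L.foldl (fun q l => dl q (ln 3 l.2.val l.1.val)) y) = true := by
  induction L with
  | nil => intro x y _ _ h; exact h
  | cons l L ih =>
    intro x y hx hy h
    exact ih _ _ (dl_lt hx (ln_lt 3 le_rfl _ _)) (dl_lt hy (ln_lt 3 le_rfl _ _))
      (le_step hx hy h l.2 l.1)

theorem pairs_spec {R : ℕ → ℕ → ℕ} {p : ℕ → ℕ → ℕ → ℕ → ℕ → Bool} (h : pairs R p = true)
    (r : Fin 3) {x y : ℕ} (hx : x < 428) (hy : y < 428) (hR : tbt (R r.val x) y = true)
    (t : Fin 4) (c : Fin 8) (hc : bit c r = false) : p r.val x y t.val c.val = true := by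
  have h1 := allLt_spec (allLt_spec h r.val r.isLt) x hx
  rcases ifb_cases h1 with ⟨h2, _⟩ | ⟨_, h2⟩
  · rw [Nat.eq_of_beq_eq_true h2, tbt_zero] at hR
    exact absurd hR (by simp)
  · have h3 := ifb_imp (allLt_spec h2 y hy) hR
    exact ifb_imp' (allLt_spec (allLt_spec h3 t.val t.isLt) c.val c.isLt) hc

theorem qtcr_spec {p : ℕ → ℕ → ℕ → ℕ → Bool} (h : qtcr p = true) {q : ℕ} (hq : q < 242)
    (t : Fin 4) (c : Fin 8) (r : Fin 3) (hc : bit c r = false) : p q t.val c.val r.val = true :=
  ifb_imp' (allLt_spec (allLt_spec (allLt_spec (allLt_spec h q hq) t.val t.isLt) c.val c.isLt)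
    r.val r.isLt) hc

theorem rel_A {q : ℕ} (hq : q < 242) (t : Fin 4) (c : Fin 8) (r : Fin 3) (hc : bit c r = false) :
    tbt (relA r.val (dl q (ln r.val t.val c.val))) (dl q (ln 3 t.val c.val)) = true :=
  qtcr_spec ckA hq t c r hc

theorem rel_I {q : ℕ} (hq : q < 242) (t : Fin 4) (c : Fin 8) (r : Fin 3) (hc : bit c r = false) :
    tbt (relI r.val (dl q (ln 3 t.val c.val))) (dl q (ln 3 t.val (sb c r).val)) = true :=
  qtcr_spec ckI hq t c r hc

theorem rel_K (r : Fin 3) {x y : ℕ} (hx : x < 428) (hy : y < 428)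
    (hR : tbt (relI r.val x) y = true) (t : Fin 4) (b : Fin 8) (hb : bit b r = false) :
    tbt (relK r.val (dl x (ln 3 t.val (sb b r).val))) (dl y (ln r.val t.val b.val)) = true :=
  pairs_spec ckI2 r hx hy hR t b hb

theorem rel_B (r : Fin 3) {x y : ℕ} (hx : x < 428) (hy : y < 428)
    (hR : tbt (relA r.val x) y = true) (t : Fin 4) (b : Fin 8) (hb : bit b r = false) :
    tbt (relB r.val (dl x (ln 3 t.val (sb b r).val))) (dl y (ln r.val t.val b.val)) = true :=
  (ifb_and (pairs_spec ckA2 r hx hy hR t b hb)).2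

theorem walk_eq (r : Fin 3) {x y : ℕ} (hx : x < 428) (hy : y < 428)
    (hR : tbt (relA r.val x) y = true) (t : Fin 4) (b : Fin 8) (hb : bit b r = false) :
    dl y (ln r.val t.val b.val) = dl x (ln 3 t.val b.val) :=
  Nat.eq_of_beq_eq_true (ifb_and (pairs_spec ckA2 r hx hy hR t b hb)).1

theorem le_K (r : Fin 3) {x y : ℕ} (hx : x < 428) (hy : y < 428)
    (hR : tbt (relK r.val x) y = true) (t : Fin 4) (a : Fin 8) (ha : bit a r = false) :
    le (dl y (ln 3 t.val a.val)) (dl x (ln r.val t.val a.val)) = true :=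
  pairs_spec ckK r hx hy hR t a ha

theorem le_B (r : Fin 3) {x y : ℕ} (hx : x < 428) (hy : y < 428)
    (hR : tbt (relB r.val x) y = true) (t : Fin 4) (c : Fin 8) (hc : bit c r = false) :
    le (dl y (ln 3 t.val (sb c r).val)) (dl x (ln 3 t.val c.val)) = true :=
  pairs_spec ckB r hx hy hR t c hc

theorem dd3 (t : Fin 4) (c : Fin 8) : dl 242 (ln 3 t.val c.val) = 242 :=
  dl_dead (ln_lt 3 le_rfl _ _)

theorem ddr (r : Fin 3) (t : Fin 4) (c : Fin 8) : dl 242 (ln r.val t.val c.val) = 242 :=
  dl_dead (ln_lt _ (by omega) _ _)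

/-- a move does not make the state larger -/
theorem le_move {s s' : Z} (h : Stp0 s s') (hs : bit s.a.1 s.r = false) :
    le (val s') (val s) = true := by
  have rl : ∀ r : Fin 3, r.val ≤ 3 := fun r => by omega
  cases h with
  | ver y a a' t r r' v h =>
    have hq := sf_lt v
    have b1 : dl (sf v) (ln r'.val t.val a'.val) < 428 := dl_lt (by omega) (ln_lt _ (rl _) _ _)
    have b2 : dl (sf v) (ln r.val t.val a.val) < 428 := dl_lt (by omega) (ln_lt _ (rl _) _ _)
    refine le_fold y _ _ b1 b2 ?_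
    show le (dl (sf v) (ln r'.val t.val a'.val)) (dl (sf v) (ln r.val t.val a.val)) = true
    rcases Nat.lt_or_ge (sf v) 242 with h1 | h1
    · have h2 := qtcr_spec ckV h1 t a r hs
      obtain ⟨h3, h4⟩ := ifb_and h2
      exact ver_spec (fun c' r' => le (dl (sf v) (ln r' t.val c'))
        (dl (sf v) (ln r.val t.val a.val))) a r a' r' h h3 h4
    · have : sf v = 242 := by omega
      rw [this, dl_dead (ln_lt _ (rl _) _ _), dl_dead (ln_lt _ (rl _) _ _)]
      exact le_refl _
  | rw y a r b v h =>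
    obtain ⟨a, ta⟩ := a
    obtain ⟨b, tb⟩ := b
    have hq := sf_lt v
    have hs' : bit a r = false := hs
    have h' : bit b r = false := h
    have e : val ⟨(a, ta) :: y, (b, tb), r, v⟩ = val ⟨y, (a, ta), r, (b, tb) :: v⟩ := by
      show List.foldl (fun q (l : Lt) => dl q (ln 3 l.2.val l.1.val))
          (dl (dl (sf v) (ln r.val tb.val b.val)) (ln 3 ta.val a.val)) y =
        List.foldl (fun q (l : Lt) => dl q (ln 3 l.2.val l.1.val))
          (dl (dl (sf v) (ln 3 tb.val b.val)) (ln r.val ta.val a.val)) y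
      rcases Nat.lt_or_ge (sf v) 242 with h1 | h1
      · have := walk_eq r (dl_lt (by omega) (ln_lt _ (rl r) tb b))
          (dl_lt (by omega) (ln_lt 3 le_rfl tb b)) (rel_A h1 tb b r h') ta a hs'
        rw [this]
      · have : sf v = 242 := by omega
        simp only [this, dd3, ddr]
    rw [e]
    exact le_refl _
  | rp y a r b c t t' v hb hc =>
    obtain ⟨a, ta⟩ := a
    have hq := sf_lt v
    have hs' : bit a r = false := hs
    have L := ln_lt
    rw [fl_sb c r hc]
    show le (List.foldl (fun q (l : Lt) => dl q (ln 3 l.2.val l.1.val))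
          (dl (dl (dl (sf v) (ln 3 t'.val (sb c r).val)) (ln r.val t.val (fl b r).val))
            (ln 3 ta.val a.val)) y)
        (List.foldl (fun q (l : Lt) => dl q (ln 3 l.2.val l.1.val))
          (dl (dl (dl (sf v) (ln 3 t'.val c.val)) (ln 3 t.val b.val)) (ln r.val ta.val a.val)) y) =
        true
    have b1 : dl (sf v) (ln 3 t'.val (sb c r).val) < 428 := dl_lt (by omega) (L 3 le_rfl _ _)
    have b2 : dl (sf v) (ln 3 t'.val c.val) < 428 := dl_lt (by omega) (L 3 le_rfl _ _)
    have b3 : dl (dl (sf v) (ln 3 t'.val (sb c r).val)) (ln r.val t.val (fl b r).val) < 428 :=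
      dl_lt b1 (L _ (rl _) _ _)
    have b4 : dl (dl (sf v) (ln 3 t'.val c.val)) (ln 3 t.val b.val) < 428 :=
      dl_lt b2 (L 3 le_rfl _ _)
    refine le_fold y _ _ (dl_lt b3 (L 3 le_rfl _ _)) (dl_lt b4 (L _ (rl _) _ _)) ?_
    rcases Nat.lt_or_ge (sf v) 242 with h1 | h1
    · have h2 := rel_I h1 t' c r hc
      have hfb : bit (fl b r) r = false := by rw [bit_fl, if_pos rfl, hb]; rfl
      have h3 := rel_K r b2 b1 h2 t (fl b r) hfb
      rw [sb_fl b r hb] at h3
      exact le_K r b4 b3 h3 ta a hs'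
    · have : sf v = 242 := by omega
      simp only [this, dd3, ddr]
      exact le_dead _
  | lw y a r b v h =>
    obtain ⟨a, ta⟩ := a
    obtain ⟨b, tb⟩ := b
    have hq := sf_lt v
    have hs' : bit a r = false := hs
    have h' : bit b r = false := h
    have e : val ⟨y, (b, tb), r, (a, ta) :: v⟩ = val ⟨(b, tb) :: y, (a, ta), r, v⟩ := by
      show List.foldl (fun q (l : Lt) => dl q (ln 3 l.2.val l.1.val))
          (dl (dl (sf v) (ln 3 ta.val a.val)) (ln r.val tb.val b.val)) y =
        List.foldl (fun q (l : Lt) => dl q (ln 3 l.2.val l.1.val))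
          (dl (dl (sf v) (ln r.val ta.val a.val)) (ln 3 tb.val b.val)) y
      rcases Nat.lt_or_ge (sf v) 242 with h1 | h1
      · have := walk_eq r (dl_lt (by omega) (ln_lt _ (rl r) ta a))
          (dl_lt (by omega) (ln_lt 3 le_rfl ta a)) (rel_A h1 ta a r hs') tb b h'
        rw [this]
      · have : sf v = 242 := by omega
        simp only [this, dd3, ddr]
    rw [e]
    exact le_refl _
  | lp y a r b c t t' v hb hc =>
    obtain ⟨a, ta⟩ := a
    have hq := sf_lt v
    have hs' : bit a r = false := hs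
    have L := ln_lt
    rw [fl_sb c r hc]
    show le (List.foldl (fun q (l : Lt) => dl q (ln 3 l.2.val l.1.val))
          (dl (dl (dl (sf v) (ln 3 ta.val a.val)) (ln r.val t.val (fl b r).val))
            (ln 3 t'.val (sb c r).val)) y)
        (List.foldl (fun q (l : Lt) => dl q (ln 3 l.2.val l.1.val))
          (dl (dl (dl (sf v) (ln r.val ta.val a.val)) (ln 3 t.val b.val)) (ln 3 t'.val c.val)) y) =
        true
    have b1 : dl (sf v) (ln 3 ta.val a.val) < 428 := dl_lt (by omega) (L 3 le_rfl _ _)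
    have b2 : dl (sf v) (ln r.val ta.val a.val) < 428 := dl_lt (by omega) (L _ (rl _) _ _)
    have b3 : dl (dl (sf v) (ln 3 ta.val a.val)) (ln r.val t.val (fl b r).val) < 428 :=
      dl_lt b1 (L _ (rl _) _ _)
    have b4 : dl (dl (sf v) (ln r.val ta.val a.val)) (ln 3 t.val b.val) < 428 :=
      dl_lt b2 (L 3 le_rfl _ _)
    refine le_fold y _ _ (dl_lt b3 (L 3 le_rfl _ _)) (dl_lt b4 (L 3 le_rfl _ _)) ?_
    rcases Nat.lt_or_ge (sf v) 242 with h1 | h1
    · have h2 := rel_A h1 ta a r hs'
      have hfb : bit (fl b r) r = false := by rw [bit_fl, if_pos rfl, hb]; rfl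
      have h3 := rel_B r b2 b1 h2 t (fl b r) hfb
      rw [sb_fl b r hb] at h3
      exact le_B r b4 b3 h3 t' c hc
    · have : sf v = 242 := by omega
      simp only [this, dd3, ddr]
      exact le_dead _

/-- number of targets -/
def cnt (s : Z) : ℕ :=
  (s.y.countP fun l => decide (l.2 ≠ 3)) + (if s.a.2 ≠ 3 then 1 else 0) +
    s.v.countP fun l => decide (l.2 ≠ 3)

theorem Stp0.cnt {s s' : Z} (h : Stp0 s s') : cnt s' = cnt s := by
  cases h with
  | ver y a a' t r r' v h => rfl
  | rw y a r b v h =>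
    unfold Three.cnt
    simp only [List.countP_cons]
    simp only [decide_eq_true_eq]
    omega
  | rp y a r b c t t' v hb hc =>
    unfold Three.cnt
    simp only [List.countP_cons]
    simp only [decide_eq_true_eq]
    omega
  | lw y a r b v h =>
    unfold Three.cnt
    simp only [List.countP_cons]
    simp only [decide_eq_true_eq]
    omega
  | lp y a r b c t t' v hb hc =>
    unfold Three.cnt
    simp only [List.countP_cons]
    simp only [decide_eq_true_eq]
    omega

theorem sf_none (v : List Lt) (h : ∀ l ∈ v, l.2 = 3) : sf v < 88 := by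
  induction v with
  | nil => show (0 : ℕ) < 88; omega
  | cons l v ih =>
    have h1 := ih (fun l' hl => h l' (List.mem_cons.2 (Or.inr hl)))
    have h2 : l.2 = 3 := h l (List.mem_cons.2 (Or.inl rfl))
    show dl (sf v) (ln 3 l.2.val l.1.val) < 88
    rw [h2]
    exact Nat.lt_succ_of_le (Nat.le_of_ble_eq_true
      (allLt_spec (allLt_spec ck_none _ h1) l.1.val l.1.isLt))

theorem fold_375 (y : List Lt) (h : ∀ l ∈ y, l.2 = 3) :
    y.foldl (fun q l => dl q (ln 3 l.2.val l.1.val)) 375 = 375 := by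
  induction y with
  | nil => rfl
  | cons l y ih =>
    have h2 : l.2 = 3 := h l (List.mem_cons.2 (Or.inl rfl))
    have h3 : dl 375 (ln 3 l.2.val l.1.val) = 375 := by
      rw [h2]
      exact Nat.eq_of_beq_eq_true (allLt_spec ck_stay375 l.1.val l.1.isLt)
    rw [List.foldl_cons, h3]
    exact ih (fun l' hl => h l' (List.mem_cons.2 (Or.inr hl)))

theorem val_end {s : Z} (hs : bit s.a.1 s.r = false) (hc : cnt s = 1) (ht : s.a.2.val = s.r.val) :
    val s = 375 := by
  obtain ⟨y, ⟨a, t⟩, r, v⟩ := s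
  have ht' : t.val = r.val := ht
  have h3 : t ≠ 3 := by
    intro hh
    have := r.isLt
    rw [hh] at ht'
    have e : ((3 : Fin 4) : ℕ) = 3 := rfl
    omega
  unfold cnt at hc
  simp only [ne_eq, h3, not_false_eq_true, if_true] at hc
  have hy : (y.countP fun l => decide (¬ l.2 = 3)) = 0 := by omega
  have hv : (v.countP fun l => decide (¬ l.2 = 3)) = 0 := by omega
  rw [List.countP_eq_zero] at hy hv
  have hv' : ∀ l ∈ v, l.2 = 3 := fun l hl => by
    have := hv l hl
    simpa using this
  have hy' : ∀ l ∈ y, l.2 = 3 := fun l hl => by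
    have := hy l hl
    simpa using this
  show y.foldl (fun q l => dl q (ln 3 l.2.val l.1.val)) (dl (sf v) (ln r.val t.val a.val)) = 375
  have h5 : dl (sf v) (ln r.val t.val a.val) = 375 := by
    rw [ht']
    exact Nat.eq_of_beq_eq_true (ifb_imp' (allLt_spec (allLt_spec (allLt_spec ck_base _
      (sf_none v hv')) a.val a.isLt) r.val r.isLt) hs)
  rw [h5]
  exact fold_375 y hy'

/-- solvable words are accepted -/
theorem val_of_win {s s' : Z} (h : Relation.ReflTransGen Stp0 s s')
    (hs : bit s.a.1 s.r = false) (hc : cnt s = 1) (ht : s'.a.2.val = s'.r.val) : val s = 375 := by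
  induction h using Relation.ReflTransGen.head_induction_on with
  | refl => exact val_end hs hc ht
  | head h1 _ ih =>
    have h2 := ih (h1.free hs) (by rw [h1.cnt]; exact hc)
    have h3 := le_move h1 hs
    rw [h2] at h3
    exact le_top h3

end MP82a8ee.Three
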