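import Pool.Agent.Lib.MP_82a8ee_lc.Three.Facts
import Pool.Agent.Lib.MP_82a8ee_lc.Three.CertS

set_option autoImplicit false

namespace MP82a8ee.Three

/-! Every excursion of the table can be carried out; accepted words are solvable. -/

theorem runs_spec (s l : ℕ) (gs : List ℕ) : ∀ n, runs s l gs n = true →
    ∀ g ∈ gs, ∃ p, run s l g p = true := by
  induction gs with
  | nil => intro n _ g hg; simp at hg
  | cons g0 gs ih =>
    intro n h g hg
    have h' : ifb (run s l g0 (Nat.land (Nat.shiftRight n 12)
          (Nat.sub (Nat.shiftLeft 1 (Nat.mul 6 (Nat.land n 4095))) 1)))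
        (runs s l gs (Nat.shiftRight n (Nat.add 12 (Nat.mul 6 (Nat.land n 4095))))) false = true := h
    obtain ⟨h1, h2⟩ := ifb_and h'
    rcases List.mem_cons.1 hg with rfl | h3
    · exact ⟨_, h1⟩
    · exact ih _ h2 g h3

theorem run_all {s l g : ℕ} (hs : s < 428) (hl : l < 128) (hd : dl s l ≠ 242)
    (hg : g ∈ el (dl s l)) : ∃ p, run s l g p = true := by
  have h := allLt_spec (allLt_spec chkS_all s hs) l hl
  have h1 : Nat.beq (dl s l) 242 = false := by
    cases hh : Nat.beq (dl s l) 242 with
    | false => rfl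
    | true => exact absurd (Nat.eq_of_beq_eq_true hh) hd
  exact runs_spec s l _ _ (ifb_imp' h h1) g hg

theorem tb_ln (t : Fin 4) (c : Fin 8) (i : Fin 3) (r : Fin 4) :
    tbt (ln r.val t.val c.val) i.val = bit c i := by
  revert t c i r; decide +kernel

theorem lor_ln (t : Fin 4) (c : Fin 8) (i : Fin 3) :
    Nat.lor (ln 3 t.val c.val) (Nat.shiftLeft 1 i.val) = ln 3 t.val (sb c i).val := by
  revert t c i; decide +kernel

theorem land_ln (t : Fin 4) (c : Fin 8) (r : Fin 4) :
    Nat.land (ln r.val t.val c.val) 7 = c.val := by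
  revert t c r; decide +kernel

theorem tgt_ln (t : Fin 4) (c : Fin 8) (r : Fin 4) :
    Nat.land (Nat.shiftRight (ln r.val t.val c.val) 3) 3 = t.val := by
  revert t c r; decide +kernel

theorem rob_ln (t : Fin 4) (c : Fin 8) (r : Fin 4) :
    Nat.shiftRight (ln r.val t.val c.val) 5 = r.val := by
  revert t c r; decide +kernel

theorem ble_ln (t : Fin 4) (c : Fin 8) : Nat.ble 96 (ln 3 t.val c.val) = true := by
  revert t c; decide +kernel

theorem ble_ln' (t : Fin 4) (c : Fin 8) (r : Fin 3) :
    Nat.ble 96 (ln r.val t.val c.val) = false := by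
  revert t c r; decide +kernel

/-- words without the robot: one more column -/
theorem sem_cons {n : ℕ} (hE : ∀ v : List Lt, v.length = n → ∀ e ∈ el (sf v), Sem v e)
    (v : List Lt) (hv : v.length = n) (t : Fin 4) (c : Fin 8) (g p : ℕ) (hs : sf v ≤ 241)
    (h : run (sf v) (ln 3 t.val c.val) g p = true) : Sem ((c, t) :: v) g := by
  intro hi
  have ei3 : (Ie g).val = ei g := Ie_val hi
  have tb := tb_ln t c (Ie g) 3
  have la := land_ln t c 3
  have tg := tgt_ln t c 3
  have lo := lor_ln t c (Ie g)
  have h3 : ((3 : Fin 4) : ℕ) = 3 := rfl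
  rw [h3] at tb la tg
  rw [ei3] at tb lo
  unfold run at h
  rw [la, tg, tb, ble_ln, lo] at h
  rcases ifb_cases h with ⟨h1, h⟩ | ⟨h1, h⟩
  · have k4 : ek g = 4 := Nat.eq_of_beq_eq_true h1
    obtain ⟨h2, h⟩ := ifb_nand h
    refine ⟨fun x z _ _ => ⟨fun hh => by omega, fun hh => by omega⟩, fun _ => ?_⟩
    exact ⟨c, t, v, rfl, h2, memL_spec h⟩
  · have k4 : ek g ≠ 4 := by
      intro hh
      rw [hh] at h1
      exact absurd h1 (by decide)
    refine ⟨?_, fun hh => absurd hh k4⟩
    intro x z hz hX
    have h' := ifb_imp' (b := !true) (by exact h : ifb (!true) true _ = true) rfl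
    rcases ifb_cases h with ⟨_, h⟩ | ⟨h2, _⟩
    swap
    · exact absurd h2 (by simp)
    rcases ifb_cases h with ⟨_, h⟩ | ⟨h2, _⟩
    swap
    · exfalso
      have : Nat.ble (sf v) 241 = true := Nat.ble_eq_true_of_le hs
      rw [this] at h2
      exact absurd h2 (by simp)
    rcases ifb_cases h with ⟨h2, h⟩ | ⟨h2, h⟩
    · -- the entry pushes a block
      obtain ⟨e, he, h⟩ := nthK_spec h
      obtain ⟨h4, h⟩ := ifb_and h
      obtain ⟨h5, h⟩ := ifb_and h
      have f1 : ek e = 4 := Nat.eq_of_beq_eq_true h4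
      have f2 : ei e = ei g := Nat.eq_of_beq_eq_true h5
      have f3 : Ie e = Ie g := by
        apply Fin.ext
        rw [Ie_val (by omega), Ie_val hi, f2]
      obtain ⟨b, t', v', e1, e2, e3⟩ := (hE v hv e he (by omega)).2 f1
      rw [f3] at e2 e3
      have st : Stp0 ⟨x, z, Ie g, (c, t) :: v⟩
          ⟨z :: x, (fl c (Ie g), t), Ie g, (fl b (Ie g), t') :: v'⟩ := by
        rw [e1]
        exact Stp0.rp x z (Ie g) c b t t' v' h2 e2
      rw [fl_sb b _ e2] at st
      rw [List.length_cons, hv]
      refine Good.of_run st.run ?_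
      have hx : bit (fl c (Ie g)) (Ie g) = false := by
        rw [bit_fl, if_pos rfl, h2]; rfl
      have h6 : chk (ek g) (eJ g) (eo g) t.val 24 (Nat.shiftRight p 6) (fl c (Ie g)).val
          (Ie g).val (0 : Fin 8).val (eo e) = true := by
        rw [← ei3] at h
        exact h
      have := exec hE g t (z :: x) hX 24 _ (fl c (Ie g)) (Ie g) 0 (eo e) h6 hx
        (fun i hi => absurd hi (by revert i; decide)) ((sb b (Ie g), t') :: v')
        (by rw [List.length_cons, ← hv, e1, List.length_cons]) e3
      rw [addJ_zero] at this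
      exact this
    · -- the entry is a walk
      have st : Stp0 ⟨x, z, Ie g, (c, t) :: v⟩ ⟨z :: x, (c, t), Ie g, v⟩ :=
        Stp0.rw x z (Ie g) (c, t) v h2
      rw [List.length_cons, hv]
      refine Good.of_run st.run ?_
      have h6 : chk (ek g) (eJ g) (eo g) t.val 24 p c.val (Ie g).val (0 : Fin 8).val
          [sf v] = true := by
        rw [← ei3] at h
        exact h
      have := exec hE g t (z :: x) hX 24 _ c (Ie g) 0 [sf v] h6 h2
        (fun i hi => absurd hi (by revert i; decide)) v hv (List.mem_cons.2 (Or.inl rfl))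
      rw [addJ_zero] at this
      exact this

/-- every excursion of the table can be carried out -/
theorem sem_all : ∀ (n : ℕ) (v : List Lt), v.length = n → ∀ e ∈ el (sf v), Sem v e := by
  intro n
  induction n with
  | zero =>
    intro v hv e he
    have : v = [] := List.length_eq_zero_iff.1 hv
    subst this
    have h : e ∈ el 0 := he
    rw [el_zero] at h
    simp at h
  | succ n ih =>
    intro v hv e he
    cases v with
    | nil => simp at hv
    | cons l v =>
      obtain ⟨c, t⟩ := l
      have he' : e ∈ el (dl (sf v) (ln 3 t.val c.val)) := he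
      have hlt := sf_lt v
      have hd : dl (sf v) (ln 3 t.val c.val) ≠ 242 := by
        intro hh
        rw [hh, el_dead] at he'
        simp at he'
      have hs : sf v ≤ 241 := by
        by_contra hh
        have : sf v = 242 := by omega
        rw [this] at hd
        exact hd (dl_dead (ln_lt 3 le_rfl _ _))
      obtain ⟨p, hp⟩ := run_all (by omega) (ln_lt 3 le_rfl t c) hd he'
      exact sem_cons ih v (by simpa using hv) t c e p hs hp

/-- the meaning of an excursion for a word with the robot -/
theorem in_all (a : Lt) (r : Fin 3) (v : List Lt) (y : List Lt) :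
    ∀ g ∈ el (val ⟨y, a, r, v⟩), ∀ X, ok X (Je g) →
      Good (y.length + v.length + 1) g X ⟨y ++ X, a, r, v⟩ := by
  induction y using List.reverseRecOn with
  | nil =>
    intro g hg X hX
    obtain ⟨c, t⟩ := a
    have hg' : g ∈ el (dl (sf v) (ln r.val t.val c.val)) := hg
    have hlt := sf_lt v
    have hd : dl (sf v) (ln r.val t.val c.val) ≠ 242 := by
      intro hh
      rw [hh, el_dead] at hg'
      simp at hg'
    have hb : bit c r = false := by
      by_contra hh
      exact hd (dl_block hlt r t c (by simpa using hh))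
    obtain ⟨p, hp⟩ := run_all (by omega) (ln_lt _ (by omega) t c) hd hg'
    have r4 : (r.castSucc : Fin 4).val = r.val := rfl
    have la := land_ln t c r.castSucc
    have tg := tgt_ln t c r.castSucc
    have ro := rob_ln t c r.castSucc
    rw [r4] at la tg ro
    unfold run at hp
    rw [la, tg, ro, ble_ln'] at hp
    rcases ifb_cases hp with ⟨h1, hp⟩ | ⟨h1, hp⟩
    · have k4 : ek g = 4 := Nat.eq_of_beq_eq_true h1
      exact ⟨fun hh => by omega, fun hh => by omega⟩
    · rcases ifb_cases hp with ⟨h2, _⟩ | ⟨_, hp⟩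
      · exact absurd h2 (by simp)
      have := exec (sem_all v.length) g t X hX 24 _ c r 0 [sf v] hp hb
        (fun i hi => absurd hi (by revert i; decide)) v rfl (List.mem_cons.2 (Or.inl rfl))
      rw [addJ_zero] at this
      have hl : ([] : List Lt).length + v.length + 1 = v.length + 1 := by simp
      rw [hl]
      exact this
  | append_singleton y l ih =>
    intro g hg X hX
    obtain ⟨c, t⟩ := l
    have hval : val ⟨y ++ [(c, t)], a, r, v⟩ = dl (val ⟨y, a, r, v⟩) (ln 3 t.val c.val) := by
      unfold val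
      rw [List.foldl_append]
      rfl
    rw [hval] at hg
    have hd : dl (val ⟨y, a, r, v⟩) (ln 3 t.val c.val) ≠ 242 := by
      intro hh
      rw [hh, el_dead] at hg
      simp at hg
    have hv1 := val_lt ⟨y, a, r, v⟩
    have hv2 := val_ge ⟨y, a, r, v⟩
    have hs : ¬ (val ⟨y, a, r, v⟩ ≤ 241) := by omega
    obtain ⟨p, hp⟩ := run_all hv1 (ln_lt 3 le_rfl t c) hd hg
    have la := land_ln t c 3
    have tg := tgt_ln t c 3
    have h3 : ((3 : Fin 4) : ℕ) = 3 := rfl
    rw [h3] at la tg
    unfold run at hp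
    rw [la, tg, ble_ln] at hp
    have hb : Nat.ble (val ⟨y, a, r, v⟩) 241 = false := by
      cases hh : Nat.ble (val ⟨y, a, r, v⟩) 241 with
      | false => rfl
      | true => exact absurd (Nat.le_of_ble_eq_true hh) hs
    rw [hb] at hp
    have hlen : (y ++ [(c, t)]).length + v.length + 1 = (y.length + v.length + 1) + 1 := by
      rw [List.length_append, List.length_singleton]; omega
    have happ : (y ++ [(c, t)]) ++ X = y ++ (c, t) :: X := by simp
    rw [hlen, happ]
    rcases ifb_cases hp with ⟨h1, hp⟩ | ⟨h1, hp⟩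
    · have k4 : ek g = 4 := Nat.eq_of_beq_eq_true h1
      exact ⟨fun hh => by omega, fun hh => by omega⟩
    rcases ifb_cases hp with ⟨_, hp⟩ | ⟨h2, _⟩
    swap
    · exact absurd h2 (by simp)
    rcases ifb_cases hp with ⟨h2, _⟩ | ⟨_, hp⟩
    · exact absurd h2 (by simp)
    rcases ifb_cases hp with ⟨_, hp⟩ | ⟨_, hp⟩
    · obtain ⟨e, he, h⟩ := nthK_spec hp
      obtain ⟨h1, h⟩ := ifb_and h
      obtain ⟨h3, h⟩ := ifb_and h
      have f1 : ek e = 3 := Nat.eq_of_beq_eq_true h1
      have f3 : ek g = 3 := Nat.eq_of_beq_eq_true h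
      have := (ih e he ((c, t) :: X) (fun i hi => land_disj (Je e) c h3 i hi)).2 f1
      exact ⟨fun hh => by omega, fun _ => this⟩
    · obtain ⟨e, he, h⟩ := nthK_spec hp
      have key := ex_sound (n := y.length + v.length + 1) (g := g) (t := t) hX
        (fun c' r' J' os' => chk (ek g) (eJ g) (eo g) t.val 24 (Nat.shiftRight p 6) c' r' J' os')
        (fun c' r' J' os' => exec (sem_all (y.length + v.length + 1)) g t X hX 24 _ c' r' J' os')
        c 0 (fun i hi => absurd hi (by revert i; decide)) e h ⟨y ++ (c, t) :: X, a, r, v⟩ ?_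
      · exact key
      · rw [addJ_zero]
        intro hok
        exact ih e he ((c, t) :: X) hok

/-- accepted words are solvable -/
theorem win_of_val {s : Z} (h : val s = 375) : Win s := by
  obtain ⟨y, a, r, v⟩ := s
  obtain ⟨e, he, h1⟩ := nthK_spec win_all
  obtain ⟨h2, h3⟩ := ifb_and h1
  have f1 : ek e = 3 := Nat.eq_of_beq_eq_true h2
  have f2 : eJ e = 0 := Nat.eq_of_beq_eq_true h3
  rw [← h] at he
  have hJ : Je e = 0 := Fin.ext f2
  have := (in_all a r v y e he [] hJ).2 f1
  rw [List.append_nil] at this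
  exact this

end MP82a8ee.Three
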