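import Pool.Agent.Lib.MP_82a8ee_lc.Three.Sound
import Pool.Agent.Lib.MP_82a8ee_lc.Three.CertD

set_option autoImplicit false

namespace MP82a8ee.Three

/-! Consequences of the kernel checks of the transition table. -/

theorem ln_eq (r t c : ℕ) : ln r t c = 32 * r + (8 * t + c) := rfl

theorem ln_free (t : Fin 4) (c : Fin 8) : ∃ l, l < 32 ∧ ln 3 t.val c.val = Nat.add 96 l :=
  ⟨8 * t.val + c.val, by omega, rfl⟩

theorem ln_rob (r : Fin 3) (t : Fin 4) (c : Fin 8) : ln r.val t.val c.val < 96 := by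
  rw [ln_eq]; omega

theorem ln_lt (r : ℕ) (hr : r ≤ 3) (t : Fin 4) (c : Fin 8) : ln r t.val c.val < 128 := by
  rw [ln_eq]; omega

theorem dl_lt {q l : ℕ} (hq : q < 428) (hl : l < 128) : dl q l < 428 :=
  Nat.lt_succ_of_le (Nat.le_of_ble_eq_true (allLt_spec (allLt_spec ck_lt q hq) l hl))

theorem dl_free {q : ℕ} (hq : q < 243) (t : Fin 4) (c : Fin 8) : dl q (ln 3 t.val c.val) < 243 := by
  obtain ⟨l, hl, e⟩ := ln_free t c
  rw [e]
  exact Nat.lt_succ_of_le (Nat.le_of_ble_eq_true (allLt_spec (allLt_spec ck_free q hq) l hl))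

theorem dl_in {q : ℕ} (hq : q < 243) (r : Fin 3) (t : Fin 4) (c : Fin 8) :
    242 ≤ dl q (ln r.val t.val c.val) :=
  Nat.le_of_ble_eq_true (allLt_spec (allLt_spec ck_in q hq) _ (ln_rob r t c))

theorem dl_stay {q : ℕ} (hq : q < 428) (hq' : 242 ≤ q) (t : Fin 4) (c : Fin 8) :
    242 ≤ dl q (ln 3 t.val c.val) := by
  obtain ⟨l, hl, e⟩ := ln_free t c
  rw [e]
  have h := allLt_spec ck_stay q hq
  have h1 : Nat.ble q 241 = false := by
    cases hh : Nat.ble q 241 with
    | false => rfl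
    | true => exact absurd (Nat.le_of_ble_eq_true hh) (by omega)
  exact Nat.le_of_ble_eq_true (allLt_spec (ifb_imp' h h1) l hl)

theorem dl_dead {l : ℕ} (hl : l < 128) : dl 242 l = 242 :=
  Nat.eq_of_beq_eq_true (allLt_spec ck_dead l hl)

theorem dl_block {q : ℕ} (hq : q < 243) (r : Fin 3) (t : Fin 4) (c : Fin 8)
    (h : bit c r = true) : dl q (ln r.val t.val c.val) = 242 := by
  have h1 := allLt_spec (allLt_spec (allLt_spec (allLt_spec ck_block q hq) t.val t.isLt)
    c.val c.isLt) r.val r.isLt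
  exact Nat.eq_of_beq_eq_true (ifb_imp h1 h)

theorem sf_lt (v : List Lt) : sf v < 243 := by
  induction v with
  | nil => show (0 : ℕ) < 243; omega
  | cons l v ih => exact dl_free ih l.2 l.1

/-- the state of a word with the robot -/
noncomputable def val (s : Z) : ℕ :=
  s.y.foldl (fun q l => dl q (ln 3 l.2.val l.1.val)) (dl (sf s.v) (ln s.r.val s.a.2.val s.a.1.val))

theorem fold_lt (y : List Lt) : ∀ q, q < 428 →
    y.foldl (fun q l => dl q (ln 3 l.2.val l.1.val)) q < 428 := by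
  induction y with
  | nil => intro q hq; exact hq
  | cons l y ih => intro q hq; exact ih _ (dl_lt hq (ln_lt 3 le_rfl _ _))

theorem fold_ge (y : List Lt) : ∀ q, q < 428 → 242 ≤ q →
    242 ≤ y.foldl (fun q l => dl q (ln 3 l.2.val l.1.val)) q := by
  induction y with
  | nil => intro q _ hq; exact hq
  | cons l y ih => intro q hq hq'; exact ih _ (dl_lt hq (ln_lt 3 le_rfl _ _)) (dl_stay hq hq' _ _)

theorem fold_dead (y : List Lt) :
    y.foldl (fun q l => dl q (ln 3 l.2.val l.1.val)) 242 = 242 := by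
  induction y with
  | nil => rfl
  | cons l y ih => rw [List.foldl_cons, dl_dead (ln_lt 3 le_rfl _ _)]; exact ih

theorem val_lt (s : Z) : val s < 428 :=
  fold_lt _ _ (dl_lt (by have := sf_lt s.v; omega) (ln_lt _ (by omega) _ _))

theorem val_ge (s : Z) : 242 ≤ val s :=
  fold_ge _ _ (dl_lt (by have := sf_lt s.v; omega) (ln_lt _ (by omega) _ _))
    (dl_in (sf_lt _) _ _ _)

end MP82a8ee.Three
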