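import Pool.Agent.Lib.MP_82a8ee_lc.Defs
import Pool.Agent.Lib.MP_82a8ee_lc.Split

set_option autoImplicit false

namespace MP82a8ee.Three

/-- The contents of a column of a board with `m` rows: for each cell three bits (holds a block,
holds the robot, is the target). -/
abbrev Col (m : ℕ) := Fin m → Bool × Bool × Bool

/-- The cells (row, column) of the board encoded by the word `w` whose bit chosen by `f` is set. -/
def cells {m : ℕ} (f : Bool × Bool × Bool → Bool) (w : List (Col m)) : Set (ℤ × ℤ) :=
  {c | ∃ (i : Fin m) (j : ℕ) (a : Col m), w[j]? = some a ∧ c = ((i.val : ℤ), (j : ℤ)) ∧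
    f (a i) = true}

/-- The solvable instances of PUSH-1 on boards with `m` rows, written column by column: the words
in which exactly one cell holds the robot, exactly one cell is the target, the cell of the robot
holds no block, and the target can be reached. -/
def solvableWords (m : ℕ) : Language (Col m) :=
  {w | ∃ p q : ℤ × ℤ, cells (fun s => s.2.1) w = {p} ∧ cells (fun s => s.2.2) w = {q} ∧
    p ∉ cells (fun s => s.1) w ∧ Solvable m w.length (cells (fun s => s.1) w) p q}

theorem cells_board {m : ℕ} (f : Bool × Bool × Bool → Bool) (w : List (Col m)) :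
    cells f w ⊆ board m w.length := by
  rintro c ⟨i, j, a, h1, rfl, _⟩
  have hj : j < w.length := by
    rw [List.getElem?_eq_some_iff] at h1
    exact h1.1
  show 0 ≤ (i.val : ℤ) ∧ (i.val : ℤ) < (m : ℤ) ∧ 0 ≤ (j : ℤ) ∧ (j : ℤ) < (w.length : ℤ)
  have := i.isLt
  omega

/-- no bit chosen by `f` is set in the word -/
def noneB {m : ℕ} (f : Bool × Bool × Bool → Bool) : List (Col m) → Bool
  | [] => true
  | a :: z => decide (∀ i, f (a i) = false) && noneB f z

theorem noneB_iff {m : ℕ} (f : Bool × Bool × Bool → Bool) (w : List (Col m)) :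
    noneB f w = true ↔ ∀ a ∈ w, ∀ i, f (a i) = false := by
  induction w with
  | nil => simp [noneB]
  | cons c z ih =>
    rw [noneB, Bool.and_eq_true, decide_eq_true_eq, ih]
    simp only [List.mem_cons, forall_eq_or_imp]

/-- a word with exactly one cell chosen by `f` splits at the column of this cell -/
theorem unique_split {m : ℕ} {f : Bool × Bool × Bool → Bool} {w : List (Col m)} {p : ℤ × ℤ}
    (hp : cells f w = {p}) : ∃ (u : List (Col m)) (a : Col m) (v : List (Col m)) (i : Fin m),
      w = u ++ a :: v ∧ (∀ b ∈ u, ∀ i', f (b i') = false) ∧ (∀ b ∈ v, ∀ i', f (b i') = false) ∧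
      f (a i) = true ∧ (∀ i', i' ≠ i → f (a i') = false) ∧ p = ((i.val : ℤ), (u.length : ℤ)) := by
  have hmem : p ∈ cells f w := by rw [hp]; rfl
  obtain ⟨i, j, a, h1, h2, h3⟩ := hmem
  have hj : j < w.length := by
    rw [List.getElem?_eq_some_iff] at h1
    exact h1.1
  have ha : w[j] = a := by
    rw [List.getElem?_eq_getElem hj] at h1
    exact Option.some.inj h1
  have huniq : ∀ (i' : Fin m) (j' : ℕ) (a' : Col m), w[j']? = some a' → f (a' i') = true →
      i' = i ∧ j' = j := by
    intro i' j' a' h1' h3'
    have : ((i'.val : ℤ), (j' : ℤ)) ∈ cells f w := ⟨i', j', a', h1', rfl, h3'⟩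
    rw [hp, Set.mem_singleton_iff, h2, Prod.ext_iff] at this
    simp only at this
    exact ⟨Fin.ext (by omega), by omega⟩
  refine ⟨w.take j, a, w.drop (j + 1), i, ?_, ?_, ?_, h3, ?_, ?_⟩
  · rw [← ha, List.getElem_cons_drop, List.take_append_drop]
  · intro b hb i'
    rw [List.mem_iff_getElem?] at hb
    obtain ⟨k, hk⟩ := hb
    by_contra hne
    have hkj : k < j := by
      by_contra hh
      rw [List.getElem?_eq_none (by rw [List.length_take]; omega)] at hk
      exact absurd hk (by simp)
    rw [List.getElem?_take_of_lt hkj] at hk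
    have := huniq i' k b hk (by simpa using hne)
    omega
  · intro b hb i'
    rw [List.mem_iff_getElem?] at hb
    obtain ⟨k, hk⟩ := hb
    by_contra hne
    rw [List.getElem?_drop] at hk
    have := huniq i' _ b hk (by simpa using hne)
    omega
  · intro i' hi'
    by_contra hne
    exact hi' (huniq i' j a h1 (by simpa using hne)).1
  · rw [h2, List.length_take, Nat.min_eq_left hj.le]

/-- the converse -/
theorem unique_of_split {m : ℕ} {f : Bool × Bool × Bool → Bool} {u : List (Col m)} {a : Col m}
    {v : List (Col m)} {i : Fin m} (h1 : ∀ b ∈ u, ∀ i', f (b i') = false)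
    (h4 : ∀ b ∈ v, ∀ i', f (b i') = false) (h2 : f (a i) = true)
    (h3 : ∀ i', i' ≠ i → f (a i') = false) :
    cells f (u ++ a :: v) = {((i.val : ℤ), (u.length : ℤ))} := by
  ext c
  rw [Set.mem_singleton_iff]
  constructor
  · rintro ⟨i', j', a', e1, rfl, e3⟩
    rcases lt_trichotomy j' u.length with hlt | heq | hgt
    · rw [List.getElem?_append_left hlt] at e1
      have := h1 a' (List.mem_of_getElem? e1) i'
      rw [this] at e3
      exact absurd e3 (by simp)
    · subst heq
      rw [List.getElem?_append_right le_rfl, Nat.sub_self, List.getElem?_cons_zero] at e1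
      have := Option.some.inj e1
      subst this
      by_cases h : i' = i
      · rw [h]
      · rw [h3 i' h] at e3; exact absurd e3 (by simp)
    · rw [List.getElem?_append_right hgt.le,
        show j' - u.length = (j' - u.length - 1) + 1 by omega, List.getElem?_cons_succ] at e1
      have := h4 a' (List.mem_of_getElem? e1) i'
      rw [this] at e3
      exact absurd e3 (by simp)
  · rintro rfl
    refine ⟨i, u.length, a, ?_, rfl, h2⟩
    rw [List.getElem?_append_right le_rfl, Nat.sub_self, List.getElem?_cons_zero]

/-- the words with exactly one cell chosen by `f` form a regular language -/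
theorem unique_regular {m : ℕ} (f : Bool × Bool × Bool → Bool) :
    Language.IsRegular {w : List (Col m) | ∃ p, cells f w = {p}} := by
  refine regular_split' (noneB f) (fun c b => decide (∀ i, f (c i) = false) && b)
    (fun _ _ => rfl)
    (fun t a t' => t = true ∧ (∃ i : Fin m, f (a i) = true ∧ ∀ i', i' ≠ i → f (a i') = false) ∧
      t' = true) _ ?_
  intro w
  constructor
  · rintro ⟨p, hp⟩
    obtain ⟨u, a, v, i, h0, h1, h2, h3, h4, _⟩ := unique_split hp
    refine ⟨u, a, v, h0, ?_, ⟨i, h3, h4⟩, (noneB_iff f v).2 h2⟩
    rw [noneB_iff]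
    intro b hb
    exact h1 b (List.mem_reverse.1 hb)
  · rintro ⟨u, a, v, rfl, h1, ⟨i, h2, h3⟩, h4⟩
    rw [noneB_iff] at h1 h4
    exact ⟨_, unique_of_split (fun b hb => h1 b (List.mem_reverse.2 hb)) h4 h2 h3⟩

/-- the words for which a fold with finitely many values has a given value form a regular
language -/
theorem fold_regular {α : Type} (N : ℕ) (δ : α → ℕ → ℕ) (q0 : ℕ) (h0 : q0 < N)
    (hδ : ∀ a q, q < N → δ a q < N) (x : ℕ) :
    Language.IsRegular ({w : List α | w.foldr δ q0 = x} : Language α) := by
  apply Language.IsRegular.of_reverse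
  let M : DFA α (Fin N) :=
    { step := fun q a => ⟨δ a q.val, hδ a q.val q.isLt⟩
      start := ⟨q0, h0⟩
      accept := {q | q.val = x} }
  refine ⟨Fin N, inferInstance, M, ?_⟩
  have key : ∀ (w : List α) (q : Fin N), (M.evalFrom q w).val =
      w.foldl (fun q a => δ a q) q.val := by
    intro w
    induction w with
    | nil => intro q; rfl
    | cons a w ih => intro q; exact ih _
  ext w
  rw [DFA.mem_accepts, Language.mem_reverse]
  show (M.evalFrom M.start w).val = x ↔ w.reverse.foldr δ q0 = x
  rw [key, List.foldr_reverse]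

end MP82a8ee.Three
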