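import Pool.Agent.Lib.MP_82a8ee_lc.Three.Edges
import Pool.Agent.Lib.MP_82a8ee_lc.Three.Compl
import Pool.Agent.Lib.MP_82a8ee_lc.Three.Bridge
import Pool.Agent.Lib.MP_82a8ee_lc.Three.Words

set_option autoImplicit false

namespace MP82a8ee.Three

/-! The language of the solvable instances on boards with three rows. -/

theorem Stp.wd_length {s s' : Z} (h : Stp s s') : (wd s').length = (wd s).length := by
  rw [Three.wd_length, Three.wd_length]
  cases h with
  | of h =>
    cases h with
    | ver y a a' t r r' v h => rfl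
    | rw y a r b v h => simp only [List.length_cons]; omega
    | rp y a r b c t t' v hb hc => simp only [List.length_cons]; omega
    | lw y a r b v h => simp only [List.length_cons]; omega
    | lp y a r b c t t' v hb hc => simp only [List.length_cons]; omega
  | wk y z z' t a r v h => rfl

/-- the targets do not move -/
theorem Stp.tgt {s s' : Z} (h : Stp s s') : (wd s').map Prod.snd = (wd s).map Prod.snd := by
  unfold wd
  cases h with
  | of h =>
    cases h with
    | ver y a a' t r r' v h => simp
    | rw y a r b v h => simp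
    | rp y a r b c t t' v hb hc => simp
    | lw y a r b v h => simp
    | lp y a r b c t t' v hb hc => simp
  | wk y z z' t a r v h => simp

theorem Run.tgt {s s' : Z} (h : Run s s') : (wd s').map Prod.snd = (wd s).map Prod.snd := by
  induction h with
  | refl => rfl
  | tail _ h2 ih => rw [h2.tgt, ih]

theorem run_of_run0 {s s' : Z} (h : Relation.ReflTransGen Stp0 s s') : Run s s' := by
  induction h with
  | refl => exact Relation.ReflTransGen.refl
  | tail _ h2 ih => exact Relation.ReflTransGen.tail ih (Stp.of h2)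

theorem wk_sub (y : List Lt) (z z' : Fin 8) (t : Fin 4) (a : Lt) (r : Fin 3) (v : List Lt)
    (h : ∀ i, bit z i = true → bit z' i = true) :
    bl (wd ⟨(z, t) :: y, a, r, v⟩) ⊆ bl (wd ⟨(z', t) :: y, a, r, v⟩) := by
  have e : ∀ z, wd ⟨(z, t) :: y, a, r, v⟩ = wd ⟨y, (z, t), r, a :: v⟩ := by
    intro z; unfold wd; simp
  rw [e, e]
  rintro c ⟨i, j, h1, rfl⟩
  rw [mem_bl]
  rcases Nat.lt_or_ge j y.length with hj | hj
  · rw [wd_left ⟨y, _, r, _⟩ i j hj] at h1 ⊢
    exact h1
  · rcases Nat.lt_or_ge y.length j with hj' | hj'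
    · obtain ⟨k, rfl⟩ : ∃ k, j = y.length + 1 + k := ⟨j - (y.length + 1), by omega⟩
      rw [wd_right ⟨y, _, r, _⟩] at h1 ⊢
      exact h1
    · have : j = y.length := by omega
      subst this
      rw [wd_at ⟨y, _, r, _⟩] at h1 ⊢
      exact h i h1

/-- runs give routes on the board, from every smaller set of blocks -/
theorem route_of_run {s s' : Z} (h : Run s s') : ∀ B, B ⊆ bl (wd s) →
    ∃ (l : List Dir) (B' : Set (ℤ × ℤ)), Route 3 (wd s).length l ⟨B, cell s.r s.y.length⟩
      ⟨B', cell s'.r s'.y.length⟩ := by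
  induction h using Relation.ReflTransGen.head_induction_on with
  | refl => intro B _; exact ⟨[], B, Route.nil _⟩
  | @head a c h1 _ ih =>
    intro B hB
    have hlen := h1.wd_length
    cases h1 with
    | of h0 =>
      obtain ⟨d, hd⟩ := move_of h0
      obtain ⟨C', hC, hm⟩ := move_mono hd B hB
      obtain ⟨l, B', hr⟩ := ih C' hC
      rw [hlen] at hr
      exact ⟨d :: l, B', Route.cons hm hr⟩
    | wk y z z' t a r v h =>
      obtain ⟨l, B', hr⟩ := ih B (hB.trans (wk_sub y z z' t a r v h))
      rw [hlen] at hr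
      exact ⟨l, B', hr⟩

/-- routes on the board give runs -/
theorem run_of_route {n : ℕ} {l : List Dir} {p q : Position} (h : Route 3 n l p q) :
    ∀ s : Z, p = P s → n = (wd s).length →
      ∃ s', Relation.ReflTransGen Stp0 s s' ∧ q = P s' := by
  induction h with
  | nil p => intro s hs _; exact ⟨s, Relation.ReflTransGen.refl, hs⟩
  | cons h1 _ ih =>
    intro s hs hn
    subst hs
    obtain ⟨s1, h2, h3⟩ := of_move hn h1
    obtain ⟨s', h4, h5⟩ := ih s1 h3 (by rw [hn, (Stp.of h2).wd_length])
    exact ⟨s', Relation.ReflTransGen.head h2 h4, h5⟩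

/-! the letters -/

theorem num8 (a b c : Bool) : (if a then 1 else 0) + (if b then 2 else 0) + (if c then 4 else 0) <
    8 := by
  revert a b c; decide

/-- the blocks of a column as a number -/
def bk (a : Col 3) : Fin 8 :=
  ⟨(if (a 0).1 then 1 else 0) + (if (a 1).1 then 2 else 0) + (if (a 2).1 then 4 else 0),
    num8 _ _ _⟩

/-- the first row with the bit `f` (3: none) -/
def fst3 (f : Bool × Bool × Bool → Bool) (a : Col 3) : Fin 4 :=
  if f (a 0) then 0 else if f (a 1) then 1 else if f (a 2) then 2 else 3

theorem bit_bk (a : Col 3) (i : Fin 3) : bit (bk a) i = (a i).1 := by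
  have key : ∀ (x y z : Bool) (h), bit ⟨(if x then 1 else 0) + (if y then 2 else 0) +
      (if z then 4 else 0), h⟩ i = if i = 0 then x else if i = 1 then y else z := by
    revert i; decide
  unfold bk
  rw [key]
  have hi : i = 0 ∨ i = 1 ∨ i = 2 := (by decide : ∀ i : Fin 3, i = 0 ∨ i = 1 ∨ i = 2) i
  rcases hi with rfl | rfl | rfl <;> rfl

theorem fst3_none {f : Bool × Bool × Bool → Bool} {a : Col 3} (h : ∀ i, f (a i) = false) :
    fst3 f a = 3 := by
  unfold fst3
  simp [h]

theorem fst3_some {f : Bool × Bool × Bool → Bool} {a : Col 3} {i : Fin 3} (h : f (a i) = true)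
    (h' : ∀ i', i' ≠ i → f (a i') = false) : fst3 f a = i.castSucc := by
  unfold fst3
  have hi : i = 0 ∨ i = 1 ∨ i = 2 := (by decide : ∀ i : Fin 3, i = 0 ∨ i = 1 ∨ i = 2) i
  rcases hi with rfl | rfl | rfl
  · rw [if_pos h]; rfl
  · rw [if_neg (by rw [h' 0 (by decide)]; simp), if_pos h]; rfl
  · rw [if_neg (by rw [h' 0 (by decide)]; simp), if_neg (by rw [h' 1 (by decide)]; simp),
      if_pos h]
    rfl

theorem fst3_true {f : Bool × Bool × Bool → Bool} {a : Col 3} {i : Fin 3}
    (h : (fst3 f a).val = i.val) : f (a i) = true := by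
  unfold fst3 at h
  have hi : i = 0 ∨ i = 1 ∨ i = 2 := (by decide : ∀ i : Fin 3, i = 0 ∨ i = 1 ∨ i = 2) i
  by_cases h0 : f (a 0) = true
  · rw [if_pos h0] at h
    rcases hi with rfl | rfl | rfl
    · exact h0
    · exact absurd h (by decide)
    · exact absurd h (by decide)
  rw [if_neg h0] at h
  by_cases h1 : f (a 1) = true
  · rw [if_pos h1] at h
    rcases hi with rfl | rfl | rfl
    · exact absurd h (by decide)
    · exact h1
    · exact absurd h (by decide)
  rw [if_neg h1] at h
  by_cases h2 : f (a 2) = true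
  · rw [if_pos h2] at h
    rcases hi with rfl | rfl | rfl
    · exact absurd h (by decide)
    · exact absurd h (by decide)
    · exact h2
  rw [if_neg h2] at h
  rcases hi with rfl | rfl | rfl <;> exact absurd h (by decide)

/-- the letter of a column without the robot -/
def cv (a : Col 3) : Lt := (bk a, fst3 (fun s => s.2.2) a)

/-- the transition of the automaton for a column -/
noncomputable def st (a : Col 3) (q : ℕ) : ℕ :=
  dl q (ln (fst3 (fun s => s.2.1) a).val (cv a).2.val (cv a).1.val)

theorem st_lt (a : Col 3) (q : ℕ) (h : q < 428) : st a q < 428 :=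
  dl_lt h (ln_lt _ (by omega) _ _)

theorem hasB_map (w : List (Col 3)) (i : Fin 3) : ∀ j, hasB (w.map cv) j i = true ↔
    ∃ a, w[j]? = some a ∧ (a i).1 = true := by
  induction w with
  | nil => intro j; simp [hasB]
  | cons b w ih =>
    intro j
    cases j with
    | zero =>
      show bit (bk b) i = true ↔ _
      rw [bit_bk]
      simp
    | succ j =>
      show hasB (w.map cv) j i = true ↔ _
      rw [ih j]
      simp

theorem bl_map (w : List (Col 3)) : bl (w.map cv) = cells (fun s => s.1) w := by
  ext c
  constructor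
  · rintro ⟨i, j, h, rfl⟩
    obtain ⟨a, h1, h2⟩ := (hasB_map w i j).1 h
    exact ⟨i, j, a, h1, rfl, h2⟩
  · rintro ⟨i, j, a, h1, rfl, h2⟩
    exact ⟨i, j, (hasB_map w i j).2 ⟨a, h1, h2⟩, rfl⟩

theorem foldr_free (v : List (Col 3)) (h : ∀ b ∈ v, ∀ i, (b i).2.1 = false) :
    v.foldr st 0 = sf (v.map cv) := by
  induction v with
  | nil => rfl
  | cons b v ih =>
    rw [List.foldr_cons, ih (fun b' hb => h b' (List.mem_cons.2 (Or.inr hb)))]
    have : fst3 (fun s => s.2.1) b = 3 := fst3_none (h b (List.mem_cons.2 (Or.inl rfl)))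
    unfold st
    rw [this]
    rfl

theorem foldr_left (u : List (Col 3)) (h : ∀ b ∈ u, ∀ i, (b i).2.1 = false) (q : ℕ) :
    u.foldr st q = (u.map cv).reverse.foldl (fun q l => dl q (ln 3 l.2.val l.1.val)) q := by
  induction u with
  | nil => rfl
  | cons b u ih =>
    rw [List.foldr_cons, ih (fun b' hb => h b' (List.mem_cons.2 (Or.inr hb)))]
    have : fst3 (fun s => s.2.1) b = 3 := fst3_none (h b (List.mem_cons.2 (Or.inl rfl)))
    rw [List.map_cons, List.reverse_cons, List.foldl_append]
    unfold st
    rw [this]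
    rfl

theorem cnt_wd (s : Z) : cnt s = (wd s).countP fun l => decide (l.2 ≠ 3) := by
  unfold cnt wd
  rw [List.countP_append, List.countP_cons, List.countP_reverse]
  simp only [decide_eq_true_eq]
  omega

theorem mid_get {w : List (Col 3)} {u : List (Col 3)} {a : Col 3} {v : List (Col 3)}
    (h : w = u ++ a :: v) : w[u.length]? = some a := by
  rw [h, List.getElem?_append_right le_rfl, Nat.sub_self, List.getElem?_cons_zero]

/-- the automaton decides the solvability of the instances -/
theorem mem_iff (w : List (Col 3)) : w ∈ solvableWords 3 ↔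
    ((∃ p, cells (fun s => s.2.1) w = {p}) ∧ (∃ q, cells (fun s => s.2.2) w = {q})) ∧
      w.foldr st 0 = 375 := by
  -- the facts common to both directions
  have key : ∀ p q : ℤ × ℤ, cells (fun s => s.2.1) w = {p} → cells (fun s => s.2.2) w = {q} →
      ∃ s : Z, wd s = w.map cv ∧ p = cell s.r s.y.length ∧ w.foldr st 0 = val s ∧ cnt s = 1 ∧
        (p ∉ cells (fun s => s.1) w ↔ bit s.a.1 s.r = false) ∧
        (∀ s' : Z, (wd s').map Prod.snd = (wd s).map Prod.snd →
          (s'.a.2.val = s'.r.val ↔ q = cell s'.r s'.y.length)) := by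
    intro p q hp hq
    obtain ⟨u, a, v, r, e, h1, h2, h3, h4, h5⟩ := unique_split hp
    obtain ⟨u', a', v', r', e', h1', h2', h3', h4', h5'⟩ := unique_split hq
    have hw : wd ⟨(u.map cv).reverse, cv a, r, v.map cv⟩ = w.map cv := by
      unfold wd
      rw [List.reverse_reverse, e, List.map_append, List.map_cons]
    have hp' : p = cell r ((u.map cv).reverse).length := by
      rw [List.length_reverse, List.length_map]; exact h5
    refine ⟨⟨(u.map cv).reverse, cv a, r, v.map cv⟩, hw, hp', ?_, ?_, ?_, ?_⟩
    · rw [e, List.foldr_append, List.foldr_cons, foldr_free v h2, foldr_left u h1]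
      unfold val st
      rw [fst3_some h3 h4]
      rfl
    · rw [cnt_wd, hw, e', List.map_append, List.map_cons, List.countP_append, List.countP_cons]
      have z1 : (u'.map cv).countP (fun l => decide (l.2 ≠ 3)) = 0 := by
        rw [List.countP_eq_zero]
        intro l hl
        obtain ⟨b, hb, rfl⟩ := List.mem_map.1 hl
        have : (cv b).2 = 3 := fst3_none (f := fun s => s.2.2) (a := b) (h1' b hb)
        simp [this]
      have z2 : (v'.map cv).countP (fun l => decide (l.2 ≠ 3)) = 0 := by
        rw [List.countP_eq_zero]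
        intro l hl
        obtain ⟨b, hb, rfl⟩ := List.mem_map.1 hl
        have : (cv b).2 = 3 := fst3_none (f := fun s => s.2.2) (a := b) (h2' b hb)
        simp [this]
      have z3 : (cv a').2 = r'.castSucc :=
      fst3_some (f := fun s => s.2.2) (a := a') h3' h4'
      have z4 : decide ((cv a').2 ≠ 3) = true := by
        rw [z3, decide_eq_true_eq]
        intro hh
        have := congrArg Fin.val hh
        have h6 : (r'.castSucc).val = r'.val := rfl
        have h7 : ((3 : Fin 4) : ℕ) = 3 := rfl
        have := r'.isLt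
        omega
      rw [z1, z2, z4]
      rfl
    · show p ∉ cells (fun s => s.1) w ↔ bit (cv a).1 r = false
      rw [← bl_map, ← hw, hp', mem_bl, wd_at ⟨(u.map cv).reverse, cv a, r, v.map cv⟩]
      show ¬ bit (cv a).1 r = true ↔ bit (cv a).1 r = false
      rw [Bool.not_eq_true]
    · intro s' hs'
      rw [hw] at hs'
      have hget : ((wd s').map Prod.snd)[s'.y.length]? = some s'.a.2 := by
        unfold wd
        rw [List.map_append, List.map_cons, List.getElem?_append_right (by simp)]
        simp
      rw [hs', List.map_map, List.getElem?_map] at hget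
      obtain ⟨b, hb, hb2⟩ := Option.map_eq_some_iff.1 hget
      have hb3 : fst3 (fun s => s.2.2) b = s'.a.2 := hb2
      constructor
      · intro h
        have h6 : (fst3 (fun s => s.2.2) b).val = s'.r.val := by rw [hb3]; exact h
        have h7 : cell s'.r s'.y.length ∈ cells (fun s => s.2.2) w :=
          ⟨s'.r, s'.y.length, b, hb, rfl, fst3_true h6⟩
        rw [hq] at h7
        exact h7.symm
      · intro h
        have h6 : cell r' u'.length = cell s'.r s'.y.length := by rw [← h]; exact h5'.symm
        obtain ⟨h7, h8⟩ := cell_inj.1 h6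
        have h9 := mid_get e'
        rw [h8, hb] at h9
        have h10 := Option.some.inj h9
        rw [← hb3, h10, fst3_some h3' h4', h7]
        rfl
  constructor
  · rintro ⟨p, q, hp, hq, hb, l, B', hr⟩
    refine ⟨⟨⟨p, hp⟩, ⟨q, hq⟩⟩, ?_⟩
    obtain ⟨s, h1, h2, h3, h4, h5, h6⟩ := key p q hp hq
    rw [h3]
    have hP : (⟨cells (fun s => s.1) w, p⟩ : Position) = P s := by
      unfold P; rw [h1, bl_map, ← h2]
    obtain ⟨s', h7, h8⟩ := run_of_route hr s hP (by rw [h1, List.length_map])
    have h9 : q = cell s'.r s'.y.length := congrArg Position.robot h8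
    exact val_of_win h7 (h5.1 hb) h4 ((h6 s' (run_of_run0 h7).tgt).2 h9)
  · rintro ⟨⟨⟨p, hp⟩, ⟨q, hq⟩⟩, hf⟩
    obtain ⟨s, h1, h2, h3, h4, h5, h6⟩ := key p q hp hq
    rw [h3] at hf
    have hb : bit s.a.1 s.r = false := by
      by_contra hh
      have hh' : bit s.a.1 s.r = true := by simpa using hh
      have : val s = 242 := by
        unfold val
        rw [dl_block (sf_lt _) _ _ _ hh', fold_dead]
      omega
    obtain ⟨s', h7, h8⟩ := win_of_val hf
    obtain ⟨l, B', hr⟩ := route_of_run h7 (bl (wd s)) (subset_refl _)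
    have h9 := (h6 s' h7.tgt).1 h8
    refine ⟨p, q, hp, hq, h5.2 hb, l, B', ?_⟩
    rw [h1, bl_map, List.length_map, ← h2, ← h9] at hr
    exact hr

theorem three_regular : (solvableWords 3).IsRegular := by
  have h1 := (unique_regular (m := 3) (fun s => s.2.1)).inf (unique_regular (fun s => s.2.2))
  have h2 := h1.inf (fold_regular 428 st 0 (by omega) (fun a q h => st_lt a q h) 375)
  have e : solvableWords 3 = ({w : List (Col 3) | ∃ p, cells (fun s => s.2.1) w = {p}} ⊓
      {w : List (Col 3) | ∃ p, cells (fun s => s.2.2) w = {p}} : Language (Col 3)) ⊓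
      ({w : List (Col 3) | w.foldr st 0 = 375} : Language (Col 3)) := by
    ext w
    exact mem_iff w
  rw [e]
  exact h2

end MP82a8ee.Three
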