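import Pool.Agent.Lib.MP_82a8ee_lc.Three.Base

set_option autoImplicit false

namespace MP82a8ee.Three

/-! elementary lemmas on the Boolean functions -/

theorem ifb_cases {b x y : Bool} (h : ifb b x y = true) :
    (b = true ∧ x = true) ∨ (b = false ∧ y = true) := by
  cases b
  · exact Or.inr ⟨rfl, h⟩
  · exact Or.inl ⟨rfl, h⟩

theorem ifb_and {b x : Bool} (h : ifb b x false = true) : b = true ∧ x = true := by
  cases b
  · exact absurd h (by simp [ifb])
  · exact ⟨rfl, h⟩

theorem ifb_nand {b x : Bool} (h : ifb b false x = true) : b = false ∧ x = true := by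
  cases b
  · exact ⟨rfl, h⟩
  · exact absurd h (by simp [ifb])

theorem ifb_imp {b x : Bool} (h : ifb b x true = true) (hb : b = true) : x = true := by
  subst hb; exact h

theorem ifb_imp' {b x : Bool} (h : ifb b true x = true) (hb : b = false) : x = true := by
  subst hb; exact h

theorem allLt_spec {n : ℕ} {p : ℕ → Bool} (h : allLt n p = true) : ∀ i, i < n → p i = true := by
  induction n with
  | zero => intro i hi; omega
  | succ n ih =>
    have h' : ifb (p n) (allLt n p) false = true := h
    obtain ⟨h1, h2⟩ := ifb_and h'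
    intro i hi
    rcases Nat.lt_succ_iff_lt_or_eq.1 hi with h3 | rfl
    · exact ih h2 i h3
    · exact h1

theorem allL_spec {l : List ℕ} {p : ℕ → Bool} (h : allL l p = true) : ∀ x ∈ l, p x = true := by
  induction l with
  | nil => intro x hx; simp at hx
  | cons y l ih =>
    have h' : ifb (p y) (allL l p) false = true := h
    obtain ⟨h1, h2⟩ := ifb_and h'
    intro x hx
    rcases List.mem_cons.1 hx with rfl | h3
    · exact h1
    · exact ih h2 x h3

theorem memL_spec {x : ℕ} {l : List ℕ} (h : memL x l = true) : x ∈ l := by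
  induction l with
  | nil => exact absurd h (by simp [memL])
  | cons y l ih =>
    have h' : ifb (Nat.beq x y) true (memL x l) = true := h
    rcases ifb_cases h' with ⟨h1, _⟩ | ⟨_, h2⟩
    · exact List.mem_cons.2 (Or.inl (Nat.eq_of_beq_eq_true h1))
    · exact List.mem_cons.2 (Or.inr (ih h2))

theorem nthK_spec {l : List ℕ} {i : ℕ} {K : ℕ → Bool} (h : nthK l i K = true) :
    ∃ x ∈ l, K x = true := by
  induction l generalizing i with
  | nil => exact absurd h (by simp [nthK])
  | cons y l ih =>
    cases i with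
    | zero => exact ⟨y, List.mem_cons.2 (Or.inl rfl), h⟩
    | succ j =>
      obtain ⟨x, h1, h2⟩ := ih (i := j) h
      exact ⟨x, List.mem_cons.2 (Or.inr h1), h2⟩

/-! columns -/

/-- A column without the robot: the blocks (three bits) and the row of the target (3: none). -/
abbrev Lt := Fin 8 × Fin 4

def bit (a : Fin 8) (i : Fin 3) : Bool := tbt a.val i.val

theorem lor8 (a b : Fin 8) : Nat.lor a.val b.val < 8 := by
  revert a b; decide

def bor (a b : Fin 8) : Fin 8 := ⟨Nat.lor a.val b.val, lor8 a b⟩

theorem sb8 (a : Fin 8) (i : Fin 3) : Nat.lor a.val (Nat.shiftLeft 1 i.val) < 8 := by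
  revert a i; decide

theorem fl8 (a : Fin 8) (i : Fin 3) : Nat.xor a.val (Nat.shiftLeft 1 i.val) < 8 := by
  revert a i; decide

/-- set the bit `i` -/
def sb (a : Fin 8) (i : Fin 3) : Fin 8 := ⟨Nat.lor a.val (Nat.shiftLeft 1 i.val), sb8 a i⟩

/-- flip the bit `i` -/
def fl (a : Fin 8) (i : Fin 3) : Fin 8 := ⟨Nat.xor a.val (Nat.shiftLeft 1 i.val), fl8 a i⟩

theorem bit_bor (a b : Fin 8) (i : Fin 3) : bit (bor a b) i = (bit a i || bit b i) := by
  revert a b i; decide

theorem bit_sb (a : Fin 8) (i j : Fin 3) : bit (sb a i) j = (decide (j = i) || bit a j) := by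
  revert a i j; decide

theorem bit_fl (a : Fin 8) (i j : Fin 3) :
    bit (fl a i) j = (if j = i then !bit a j else bit a j) := by
  revert a i j; decide

theorem fl_sb (a : Fin 8) (i : Fin 3) (h : bit a i = false) : fl a i = sb a i := by
  revert a i; decide

theorem sb_fl (a : Fin 8) (i : Fin 3) (h : bit a i = true) : sb (fl a i) i = a := by
  revert a i; decide

theorem bor_zero (a : Fin 8) : bor a 0 = a := by revert a; decide

theorem fl_bor (z J : Fin 8) (k : Fin 3) (h : bit (bor z J) k = false) :
    fl (bor z J) k = bor z (sb J k) := by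
  revert z J k; decide

theorem land_disj (a b : Fin 8) (h : Nat.beq (Nat.land a.val b.val) 0 = true) (i : Fin 3)
    (h2 : bit b i = true) : bit a i = false := by
  revert a b i; decide

/-- the vertical moves inside one column -/
def ver (a : Fin 8) (r : Fin 3) (a' : Fin 8) (r' : Fin 3) : Bool :=
  ((r.val + 1 == r'.val || r'.val + 1 == r.val) && !bit a r' && a' == a) ||
  (r' == 1 && r != 1 && bit a 1 && !bit a r.rev && a' == fl (fl a 1) r.rev)

/-- A position in the coordinates of the robot: the columns to the left (nearest first), the column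
of the robot, its row, the columns to the right. -/
structure Z where
  y : List Lt
  a : Lt
  r : Fin 3
  v : List Lt

/-- the moves -/
inductive Stp0 : Z → Z → Prop
  | ver (y : List Lt) (a a' : Fin 8) (t : Fin 4) (r r' : Fin 3) (v : List Lt)
      (h : ver a r a' r' = true) : Stp0 ⟨y, (a, t), r, v⟩ ⟨y, (a', t), r', v⟩
  | rw (y : List Lt) (a : Lt) (r : Fin 3) (b : Lt) (v : List Lt) (h : bit b.1 r = false) :
      Stp0 ⟨y, a, r, b :: v⟩ ⟨a :: y, b, r, v⟩
  | rp (y : List Lt) (a : Lt) (r : Fin 3) (b c : Fin 8) (t t' : Fin 4) (v : List Lt)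
      (hb : bit b r = true) (hc : bit c r = false) :
      Stp0 ⟨y, a, r, (b, t) :: (c, t') :: v⟩ ⟨a :: y, (fl b r, t), r, (fl c r, t') :: v⟩
  | lw (y : List Lt) (a : Lt) (r : Fin 3) (b : Lt) (v : List Lt) (h : bit b.1 r = false) :
      Stp0 ⟨b :: y, a, r, v⟩ ⟨y, b, r, a :: v⟩
  | lp (y : List Lt) (a : Lt) (r : Fin 3) (b c : Fin 8) (t t' : Fin 4) (v : List Lt)
      (hb : bit b r = true) (hc : bit c r = false) :
      Stp0 ⟨(b, t) :: (c, t') :: y, a, r, v⟩ ⟨(fl c r, t') :: y, (fl b r, t), r, a :: v⟩

/-- the moves, and the addition of blocks in the column to the left of the robot -/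
inductive Stp : Z → Z → Prop
  | of {s s' : Z} (h : Stp0 s s') : Stp s s'
  | wk (y : List Lt) (z z' : Fin 8) (t : Fin 4) (a : Lt) (r : Fin 3) (v : List Lt)
      (h : ∀ i, bit z i = true → bit z' i = true) :
      Stp ⟨(z, t) :: y, a, r, v⟩ ⟨(z', t) :: y, a, r, v⟩

def Run : Z → Z → Prop := Relation.ReflTransGen Stp

/-- the robot can reach a target (if columns may get additional blocks on the way) -/
def Win (s : Z) : Prop := ∃ s', Run s s' ∧ s'.a.2.val = s'.r.val

theorem Win.of_run {s s' : Z} (h : Run s s') (h' : Win s') : Win s := by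
  obtain ⟨u, h1, h2⟩ := h'
  exact ⟨u, Relation.ReflTransGen.trans h h1, h2⟩

theorem Stp0.run {s s' : Z} (h : Stp0 s s') : Run s s' := Relation.ReflTransGen.single (Stp.of h)

theorem ver_free (a : Fin 8) (r : Fin 3) (a' : Fin 8) (r' : Fin 3) (h : ver a r a' r' = true)
    (h2 : bit a r = false) : bit a' r' = false := by
  revert a r a' r'; decide +kernel

/-- the robot never stands on a block -/
theorem Stp0.free {s s' : Z} (h : Stp0 s s') (hs : bit s.a.1 s.r = false) :
    bit s'.a.1 s'.r = false := by
  cases h with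
  | ver y a a' t r r' v h => exact ver_free a r a' r' h hs
  | rw y a r b v h => exact h
  | rp y a r b c t t' v hb hc => show bit (fl b r) r = false; rw [bit_fl, if_pos rfl, hb]; rfl
  | lw y a r b v h => exact h
  | lp y a r b c t t' v hb hc => show bit (fl b r) r = false; rw [bit_fl, if_pos rfl, hb]; rfl

end MP82a8ee.Three
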