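import Pool.Agent.Lib.MP_82a8ee_lc.Three.Main

set_option autoImplicit false

namespace MP82a8ee.Three

/-! Boards with fewer rows: the missing rows are filled with blocks. -/

/-- the column with three rows, the missing cells filled with blocks -/
def emb {m : ℕ} (a : Col m) : Col 3 := fun i =>
  if h : i.val < m then a ⟨i.val, h⟩ else (true, false, false)

/-- the filled cells -/
def fill (m n : ℕ) : Set (ℤ × ℤ) := board 3 n \ board m n

theorem board_mono {m n : ℕ} (hm : m ≤ 3) : board m n ⊆ board 3 n := by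
  rintro c ⟨h1, h2, h3, h4⟩
  exact ⟨h1, by push_cast at h2 ⊢; omega, h3, h4⟩

theorem insert_fill {m n : ℕ} {B : Set (ℤ × ℤ)} {x y : ℤ × ℤ} (hy : y ∉ fill m n) :
    insert x ((B ∪ fill m n) \ {y}) = insert x (B \ {y}) ∪ fill m n := by
  ext c
  simp only [Set.mem_insert_iff, Set.mem_sdiff, Set.mem_union, Set.mem_singleton_iff]
  constructor
  · rintro (h | ⟨h | h, h'⟩)
    · exact Or.inl (Or.inl h)
    · exact Or.inl (Or.inr ⟨h, h'⟩)
    · exact Or.inr h
  · rintro ((h | ⟨h, h'⟩) | h)
    · exact Or.inl h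
    · exact Or.inr ⟨Or.inl h, h'⟩
    · exact Or.inr ⟨Or.inr h, fun hh => hy (hh ▸ h)⟩

theorem route_fill {m n : ℕ} (hm : m ≤ 3) {l : List Dir} {s t : Position}
    (h : Route m n l s t) :
    Route 3 n l ⟨s.blocks ∪ fill m n, s.robot⟩ ⟨t.blocks ∪ fill m n, t.robot⟩ := by
  induction h with
  | nil s => exact Route.nil _
  | @cons d l s t u h1 _ ih =>
    refine Route.cons ?_ ih
    cases h1 with
    | walk B p hb hf =>
      refine Move.walk _ p (board_mono hm hb) ?_
      rintro (h | h)
      · exact hf h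
      · exact h.2 hb
    | @push B p hb hB hb' hf =>
      have hy : p + d.vec ∉ fill m n := fun h => h.2 hb
      show Move 3 n d ⟨B ∪ fill m n, p⟩
        ⟨insert (p + d.vec + d.vec) (B \ {p + d.vec}) ∪ fill m n, p + d.vec⟩
      rw [← insert_fill hy]
      refine Move.push _ p (board_mono hm hb) (Or.inl hB) (board_mono hm hb') ?_
      rintro (h | h)
      · exact hf h
      · exact h.2 hb'

theorem mid_board {m n : ℕ} {p : ℤ × ℤ} {d : Dir} (h1 : p ∈ board m n)
    (h2 : p + d.vec + d.vec ∈ board m n) : p + d.vec ∈ board m n := by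
  obtain ⟨x, y⟩ := p
  cases d <;>
    simp only [board, Dir.vec, Set.mem_ofPred_eq, Prod.mk_add_mk] at h1 h2 ⊢ <;> omega

theorem route_unfill {m n : ℕ} {l : List Dir} {s t : Position} (h : Route 3 n l s t) :
    ∀ B, s.blocks = B ∪ fill m n → s.robot ∈ board m n →
      ∃ B', t.blocks = B' ∪ fill m n ∧ Route m n l ⟨B, s.robot⟩ ⟨B', t.robot⟩ := by
  induction h with
  | nil s => intro B hB _; exact ⟨B, hB, Route.nil _⟩
  | @cons d l s t u h1 _ ih =>
    intro B hB hp
    cases h1 with
    | walk C p hb hf =>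
      have hB' : C = B ∪ fill m n := hB
      subst hB'
      have hb' : p + d.vec ∈ board m n := by
        by_contra hh
        exact hf (Or.inr ⟨hb, hh⟩)
      obtain ⟨B', h2, h3⟩ := ih B rfl hb'
      exact ⟨B', h2, Route.cons (Move.walk B p hb' (fun hh => hf (Or.inl hh))) h3⟩
    | push C p hb hC hb2 hf =>
      have hB' : C = B ∪ fill m n := hB
      subst hB'
      have hb2' : p + d.vec + d.vec ∈ board m n := by
        by_contra hh
        exact hf (Or.inr ⟨hb2, hh⟩)
      have hb' := mid_board hp hb2'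
      have hy : p + d.vec ∉ fill m n := fun h => h.2 hb'
      have hBp : p + d.vec ∈ B := by
        rcases hC with h | h
        · exact h
        · exact absurd h hy
      obtain ⟨B', h2, h3⟩ := ih (insert (p + d.vec + d.vec) (B \ {p + d.vec}))
        (insert_fill hy) hb'
      exact ⟨B', h2, Route.cons (Move.push B p hb' hBp hb2' (fun hh => hf (Or.inl hh))) h3⟩

theorem solvable_fill {m n : ℕ} (hm : m ≤ 3) {B : Set (ℤ × ℤ)} {p q : ℤ × ℤ}
    (hp : p ∈ board m n) : Solvable m n B p q ↔ Solvable 3 n (B ∪ fill m n) p q := by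
  constructor
  · rintro ⟨l, B', h⟩
    exact ⟨l, _, route_fill hm h⟩
  · rintro ⟨l, B', h⟩
    obtain ⟨B'', _, h2⟩ := route_unfill h B rfl hp
    exact ⟨l, _, h2⟩

theorem cells_emb {m : ℕ} (hm : m ≤ 3) (f : Bool × Bool × Bool → Bool) (w : List (Col m)) :
    cells f (w.map emb) = cells f w ∪ {c | f (true, false, false) = true ∧
      c ∈ fill m w.length} := by
  ext c
  constructor
  · rintro ⟨i, j, a, h1, rfl, h3⟩
    rw [List.getElem?_map] at h1
    obtain ⟨b, hb, rfl⟩ := Option.map_eq_some_iff.1 h1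
    have hj : j < w.length := by
      rw [List.getElem?_eq_some_iff] at hb
      exact hb.1
    unfold emb at h3
    by_cases hi : i.val < m
    · rw [dif_pos hi] at h3
      exact Or.inl ⟨⟨i.val, hi⟩, j, b, hb, rfl, h3⟩
    · rw [dif_neg hi] at h3
      refine Or.inr ⟨h3, ?_, ?_⟩
      · have := i.isLt
        exact ⟨by show (0 : ℤ) ≤ (i.val : ℤ); omega,
          by show (i.val : ℤ) < ((3 : ℕ) : ℤ); omega,
          by show (0 : ℤ) ≤ (j : ℤ); omega, by show (j : ℤ) < (w.length : ℤ); omega⟩
      · rintro ⟨_, h4, _⟩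
        have h5 : (i.val : ℤ) < (m : ℤ) := h4
        omega
  · rintro (⟨i, j, b, hb, rfl, h3⟩ | ⟨h1, h2, h3⟩)
    · have hi3 : i.val < 3 := lt_of_lt_of_le i.isLt hm
      refine ⟨⟨i.val, hi3⟩, j, emb b, ?_, rfl, ?_⟩
      · rw [List.getElem?_map, hb]; rfl
      · unfold emb
        rw [dif_pos i.isLt]
        exact h3
    · obtain ⟨x, y⟩ := c
      obtain ⟨k1, k2, k3, k4⟩ := h2
      simp only at k1 k2 k3 k4
      obtain ⟨i, rfl⟩ := Int.eq_ofNat_of_zero_le k1
      obtain ⟨j, rfl⟩ := Int.eq_ofNat_of_zero_le k3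
      have hi : i < 3 := by omega
      have hj : j < w.length := by omega
      refine ⟨⟨i, hi⟩, j, emb w[j], ?_, rfl, ?_⟩
      · rw [List.getElem?_map, List.getElem?_eq_getElem hj]; rfl
      · unfold emb
        have : ¬ i < m := by
          intro hh
          exact h3 ⟨k1, by simp only; omega, k3, k4⟩
        rw [dif_neg this]
        exact h1

theorem mem_emb {m : ℕ} (hm : m ≤ 3) (w : List (Col m)) :
    w ∈ solvableWords m ↔ w.map emb ∈ solvableWords 3 := by
  have e1 : cells (fun s => s.2.1) (w.map emb) = cells (fun s => s.2.1) w := by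
    rw [cells_emb hm]; simp
  have e2 : cells (fun s => s.2.2) (w.map emb) = cells (fun s => s.2.2) w := by
    rw [cells_emb hm]; simp
  have e3 : cells (fun s => s.1) (w.map emb) = cells (fun s => s.1) w ∪ fill m w.length := by
    rw [cells_emb hm]; simp
  show (∃ p q : ℤ × ℤ, _) ↔ (∃ p q : ℤ × ℤ, _)
  rw [e1, e2, e3, List.length_map]
  refine exists_congr fun p => exists_congr fun q => and_congr_right fun hp =>
    and_congr_right fun _ => ?_
  have hpb : p ∈ board m w.length := cells_board (fun s => s.2.1) w (by rw [hp]; rfl)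
  rw [← solvable_fill hm hpb]
  refine and_congr_left fun _ => ?_
  constructor
  · rintro h (h' | h')
    · exact h h'
    · exact h'.2 hpb
  · exact fun h h' => h (Or.inl h')

/-- PUSH-1 on boards with at most three rows is a regular language -/
theorem rows_regular (m : ℕ) (hm : m ≤ 3) : (solvableWords m).IsRegular := by
  obtain ⟨σ, _, M, hM⟩ := three_regular
  refine ⟨σ, inferInstance, M.comap emb, ?_⟩
  rw [DFA.accepts_comap, hM]
  ext w
  exact (mem_emb hm w).symm

end MP82a8ee.Three
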