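import Pool.Agent.Lib.MP_82a8ee_lc.Three.Model
import Pool.Agent.Lib.MP_82a8ee_lc.Three.Chk

set_option autoImplicit false

namespace MP82a8ee.Three

/-! Soundness of the checker of programs. -/

/-- the state of a word without the robot -/
noncomputable def sf : List Lt → ℕ
  | [] => 0
  | l :: v => dl (sf v) (ln 3 l.2.val l.1.val)

/-- the blocks `J` can be added to the first column -/
def ok (X : List Lt) (J : Fin 8) : Prop :=
  match X with
  | [] => J = 0
  | z :: _ => ∀ i, bit z.1 i = true → bit J i = false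

/-- add the blocks `J` to the first column -/
def addJ (X : List Lt) (J : Fin 8) : List Lt :=
  match X with
  | [] => []
  | z :: x => (bor z.1 J, z.2) :: x

theorem addJ_zero (X : List Lt) : addJ X 0 = X := by
  cases X with
  | nil => rfl
  | cons z x => show (bor z.1 0, z.2) :: x = z :: x; rw [bor_zero]

theorem eJ8 (e : ℕ) : eJ e < 8 := by
  show Nat.land (Nat.shiftRight e 2) 7 < 8
  exact Nat.lt_succ_of_le Nat.and_le_right

/-- the blocks pushed out by an excursion -/
def Je (e : ℕ) : Fin 8 := ⟨eJ e, eJ8 e⟩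

/-- the row of the exit -/
def Ke (e : ℕ) : Fin 3 := ⟨ek e % 3, Nat.mod_lt _ (by omega)⟩

/-- the row of the entry -/
def Ie (e : ℕ) : Fin 3 := ⟨ei e % 3, Nat.mod_lt _ (by omega)⟩

/-- from `s`, with the columns `X` to the left, the robot can carry out the excursion `e` -/
def Good (n : ℕ) (e : ℕ) (X : List Lt) (s : Z) : Prop :=
  (ek e ≤ 2 → ∃ (a : Lt) (v : List Lt), v.length + 1 = n ∧ sf (a :: v) ∈ eo e ∧
    bit a.1 (Ke e) = false ∧ Run s ⟨addJ X (Je e), a, Ke e, v⟩) ∧ (ek e = 3 → Win s)

theorem Good.of_run {n e : ℕ} {X : List Lt} {s s' : Z} (h : Run s s') (h' : Good n e X s') :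
    Good n e X s := by
  refine ⟨fun he => ?_, fun he => Win.of_run h (h'.2 he)⟩
  obtain ⟨a, v, h1, h2, h3, h4⟩ := h'.1 he
  exact ⟨a, v, h1, h2, h3, Relation.ReflTransGen.trans h h4⟩

/-- the meaning of the excursion `e` for the word `v` without the robot -/
def Sem (v : List Lt) (e : ℕ) : Prop :=
  ei e ≤ 2 →
    (∀ (x : List Lt) (z : Lt), bit z.1 (Ie e) = false → ok (z :: x) (Je e) →
      Good v.length e (z :: x) ⟨x, z, Ie e, v⟩) ∧
    (ek e = 4 → ∃ (b : Fin 8) (t : Fin 4) (v' : List Lt), v = (b, t) :: v' ∧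
      bit b (Ie e) = false ∧ sf ((sb b (Ie e), t) :: v') ∈ eo e)

theorem mu_spec (c : Fin 8) (r : Fin 3) (K : ℕ → ℕ → Bool)
    (h : mu false c.val r.val K = true) :
    ∃ (c' : Fin 8) (r' : Fin 3), ver c r c' r' = true ∧ K c'.val r'.val = true := by
  have key : ∀ (c : Fin 8) (r : Fin 3), (mu false c.val r.val K = false) ∨
      ∃ (c' : Fin 8) (r' : Fin 3), ver c r c' r' = true ∧
        mu false c.val r.val K = K c'.val r'.val := by
    intro c r
    have hc : c = 0 ∨ c = 1 ∨ c = 2 ∨ c = 3 ∨ c = 4 ∨ c = 5 ∨ c = 6 ∨ c = 7 := by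
      revert c; decide
    have hr : r = 0 ∨ r = 1 ∨ r = 2 := by revert r; decide
    rcases hr with rfl | rfl | rfl
    · left; rfl
    · rcases hc with rfl | rfl | rfl | rfl | rfl | rfl | rfl | rfl
      · right; exact ⟨0, 0, by decide, rfl⟩
      · left; rfl
      · right; exact ⟨2, 0, by decide, rfl⟩
      · left; rfl
      · right; exact ⟨4, 0, by decide, rfl⟩
      · left; rfl
      · right; exact ⟨6, 0, by decide, rfl⟩
      · left; rfl
    · rcases hc with rfl | rfl | rfl | rfl | rfl | rfl | rfl | rfl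
      · right; exact ⟨0, 1, by decide, rfl⟩
      · right; exact ⟨1, 1, by decide, rfl⟩
      · right; exact ⟨1, 1, by decide, rfl⟩
      · left; rfl
      · right; exact ⟨4, 1, by decide, rfl⟩
      · right; exact ⟨5, 1, by decide, rfl⟩
      · right; exact ⟨5, 1, by decide, rfl⟩
      · left; rfl
  rcases key c r with h1 | ⟨c', r', h1, h2⟩
  · rw [h1] at h; exact absurd h (by simp)
  · rw [h2] at h; exact ⟨c', r', h1, h⟩

theorem md_spec (c : Fin 8) (r : Fin 3) (K : ℕ → ℕ → Bool)
    (h : md false c.val r.val K = true) :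
    ∃ (c' : Fin 8) (r' : Fin 3), ver c r c' r' = true ∧ K c'.val r'.val = true := by
  have key : ∀ (c : Fin 8) (r : Fin 3), (md false c.val r.val K = false) ∨
      ∃ (c' : Fin 8) (r' : Fin 3), ver c r c' r' = true ∧
        md false c.val r.val K = K c'.val r'.val := by
    intro c r
    have hc : c = 0 ∨ c = 1 ∨ c = 2 ∨ c = 3 ∨ c = 4 ∨ c = 5 ∨ c = 6 ∨ c = 7 := by
      revert c; decide
    have hr : r = 0 ∨ r = 1 ∨ r = 2 := by revert r; decide
    rcases hr with rfl | rfl | rfl
    · rcases hc with rfl | rfl | rfl | rfl | rfl | rfl | rfl | rfl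
      · right; exact ⟨0, 1, by decide, rfl⟩
      · right; exact ⟨1, 1, by decide, rfl⟩
      · right; exact ⟨4, 1, by decide, rfl⟩
      · right; exact ⟨5, 1, by decide, rfl⟩
      · right; exact ⟨4, 1, by decide, rfl⟩
      · right; exact ⟨5, 1, by decide, rfl⟩
      · left; rfl
      · left; rfl
    · rcases hc with rfl | rfl | rfl | rfl | rfl | rfl | rfl | rfl
      · right; exact ⟨0, 2, by decide, rfl⟩
      · right; exact ⟨1, 2, by decide, rfl⟩
      · right; exact ⟨2, 2, by decide, rfl⟩
      · right; exact ⟨3, 2, by decide, rfl⟩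
      · left; rfl
      · left; rfl
      · left; rfl
      · left; rfl
    · left; rfl
  rcases key c r with h1 | ⟨c', r', h1, h2⟩
  · rw [h1] at h; exact absurd h (by simp)
  · rw [h2] at h; exact ⟨c', r', h1, h⟩

/-- adding more blocks on the left -/
theorem run_weak {X : List Lt} {J J' : Fin 8} (h : ∀ i, bit J i = true → bit J' i = true)
    (a : Lt) (r : Fin 3) (v : List Lt) : Run ⟨addJ X J, a, r, v⟩ ⟨addJ X J', a, r, v⟩ := by
  cases X with
  | nil => exact Relation.ReflTransGen.refl
  | cons z x =>
    refine Relation.ReflTransGen.single (Stp.wk x (bor z.1 J) (bor z.1 J') z.2 a r v ?_)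
    intro i hi
    rw [bit_bor] at hi ⊢
    rcases Bool.or_eq_true_iff.1 hi with h1 | h1
    · rw [h1]; rfl
    · rw [h i h1]; simp

theorem Ke_val {e : ℕ} (h : ek e ≤ 2) : (Ke e).val = ek e := Nat.mod_eq_of_lt (by omega)

theorem Ie_val {e : ℕ} (h : ei e ≤ 2) : (Ie e).val = ei e := Nat.mod_eq_of_lt (by omega)

/-- the step out of the right part into the column `c` -/
theorem ex_sound {n : ℕ} {g : ℕ} {t : Fin 4} {X : List Lt} (hX : ok X (Je g))
    (K : ℕ → ℕ → ℕ → List ℕ → Bool)
    (hK : ∀ (c : Fin 8) (r : Fin 3) (J : Fin 8) (os : List ℕ),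
      K c.val r.val J.val os = true → bit c r = false →
      (∀ i, bit J i = true → bit (Je g) i = true) → ∀ v : List Lt, v.length = n → sf v ∈ os →
      Good (n + 1) g X ⟨addJ X J, (c, t), r, v⟩)
    (c J : Fin 8) (hJ : ∀ i, bit J i = true → bit (Je g) i = true) (e : ℕ)
    (h : ex c.val J.val (eJ g) e K = true) (s : Z)
    (hs : ok ((c, t) :: addJ X J) (Je e) → Good n e ((c, t) :: addJ X J) s) :
    Good (n + 1) g X s := by
  unfold ex at h
  obtain ⟨h1, h⟩ := ifb_and h
  obtain ⟨h2, h⟩ := ifb_and h
  have hk : ek e ≤ 2 := Nat.le_of_ble_eq_true h2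
  have hok : ok ((c, t) :: addJ X J) (Je e) := fun i hi => land_disj (Je e) c h1 i hi
  obtain ⟨a, v, hv, ho, ha, hr⟩ := (hs hok).1 hk
  have hlen : (a :: v).length = n := by rw [List.length_cons]; exact hv
  have e1 : (Ke e).val = ek e := Ke_val hk
  rw [← e1] at h
  rcases ifb_cases h with ⟨h3, h⟩ | ⟨h3, h⟩
  · obtain ⟨h4, h⟩ := ifb_nand h
    obtain ⟨h5, h⟩ := ifb_and h
    have h3' : bit (bor c (Je e)) (Ke e) = true := h3
    have h4' : bit J (Ke e) = false := h4
    have h5' : bit (Je g) (Ke e) = true := h5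
    cases X with
    | nil =>
      have : Je g = 0 := hX
      rw [this] at h5'
      exfalso
      revert h5'
      generalize Ke e = k
      revert k; decide
    | cons z x =>
      have h6 : bit z.1 (Ke e) = false := by
        by_contra hh
        have := hX (Ke e) (by simpa using hh)
        rw [h5'] at this
        exact absurd this (by simp)
      have h7 : bit (bor z.1 J) (Ke e) = false := by rw [bit_bor, h6, h4']; rfl
      have st : Stp0 ⟨(bor c (Je e), t) :: (bor z.1 J, z.2) :: x, a, Ke e, v⟩
          ⟨(fl (bor z.1 J) (Ke e), z.2) :: x, (fl (bor c (Je e)) (Ke e), t), Ke e, a :: v⟩ :=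
        Stp0.lp x a (Ke e) (bor c (Je e)) (bor z.1 J) t z.2 v h3' h7
      rw [fl_bor _ _ _ h7] at st
      refine Good.of_run (Relation.ReflTransGen.trans hr st.run) ?_
      refine hK (fl (bor c (Je e)) (Ke e)) (Ke e) (sb J (Ke e)) _ h ?_ ?_ (a :: v) hlen ho
      · rw [bit_fl, if_pos rfl, h3']; rfl
      · intro i hi
        rw [bit_sb] at hi
        rcases Bool.or_eq_true_iff.1 hi with h8 | h8
        · have : i = Ke e := by simpa using h8
          rw [this]; exact h5'
        · exact hJ i h8
  · have h3' : bit (bor c (Je e)) (Ke e) = false := h3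
    have st : Stp0 ⟨(bor c (Je e), t) :: addJ X J, a, Ke e, v⟩
        ⟨addJ X J, (bor c (Je e), t), Ke e, a :: v⟩ :=
      Stp0.lw (addJ X J) a (Ke e) (bor c (Je e), t) v h3'
    refine Good.of_run (Relation.ReflTransGen.trans hr st.run) ?_
    exact hK (bor c (Je e)) (Ke e) J _ h h3' hJ (a :: v) hlen ho

/-- one unfolding of the checker -/
theorem chk_succ (gk gJ : ℕ) (gO : List ℕ) (t f n c r J : ℕ) (os : List ℕ) :
    chk gk gJ gO t (f + 1) n c r J os =
      ifb (Nat.beq (Nat.land n 63) 0) (leaf gk gO t c r os)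
      (ifb (Nat.beq (Nat.land n 63) 1)
        (mu false c r fun c' r' => chk gk gJ gO t f (Nat.shiftRight n 6) c' r' J os)
      (ifb (Nat.beq (Nat.land n 63) 2)
        (md false c r fun c' r' => chk gk gJ gO t f (Nat.shiftRight n 6) c' r' J os)
      (List.rec (motive := fun _ => Bool) true (fun q os' _ =>
        ifb (Nat.beq (Nat.land n 63) 3)
          (ifb (chk gk gJ gO t f (Nat.land (Nat.shiftRight n 18)
              (Nat.sub (Nat.shiftLeft 1 (Nat.mul 6 (Nat.land (Nat.shiftRight n 6) 4095))) 1))
              c r J [q])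
            (chk gk gJ gO t f (Nat.shiftRight n
              (Nat.add 18 (Nat.mul 6 (Nat.land (Nat.shiftRight n 6) 4095)))) c r J os') false)
        (List.rec (motive := fun _ => Bool)
          (ifb (Nat.ble 32 (Nat.land n 63))
            (nthK (el q) (Nat.sub (Nat.land n 63) 32) fun e =>
              ifb (Nat.beq (ek e) 3) (ifb (Nat.beq (ei e) r)
                (ifb (Nat.beq (Nat.land (eJ e) c) 0) (Nat.beq gk 3) false) false) false)
            (nthK (el q) (Nat.sub (Nat.land n 63) 4) fun e =>
              ifb (Nat.beq (ei e) r)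
                (ex c J gJ e fun c' r' J' os'' =>
                  chk gk gJ gO t f (Nat.shiftRight n 6) c' r' J' os'') false))
          (fun _ _ _ => false) os')) os))) := rfl

/-- soundness of the checker of programs -/
theorem exec {n : ℕ} (hE : ∀ v : List Lt, v.length = n → ∀ e ∈ el (sf v), Sem v e) (g : ℕ)
    (t : Fin 4) (X : List Lt) (hX : ok X (Je g)) :
    ∀ (f p : ℕ) (c : Fin 8) (r : Fin 3) (J : Fin 8) (os : List ℕ),
      chk (ek g) (eJ g) (eo g) t.val f p c.val r.val J.val os = true → bit c r = false →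
      (∀ i, bit J i = true → bit (Je g) i = true) → ∀ v : List Lt, v.length = n → sf v ∈ os →
      Good (n + 1) g X ⟨addJ X J, (c, t), r, v⟩ := by
  intro f
  induction f with
  | zero => intro p c r J os h; exact absurd h (by simp [chk])
  | succ f ih =>
    intro p c r J os h hb hJ v hv hq
    rw [chk_succ] at h
    rcases ifb_cases h with ⟨_, h⟩ | ⟨_, h⟩
    · -- the end of the program
      unfold leaf at h
      rcases ifb_cases h with ⟨h1, h⟩ | ⟨h1, h⟩
      · have e1 : ek g = 3 := Nat.eq_of_beq_eq_true h1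
        have e2 : t.val = r.val := Nat.eq_of_beq_eq_true h
        refine ⟨fun hh => by omega, fun _ => ⟨_, Relation.ReflTransGen.refl, e2⟩⟩
      · obtain ⟨h2, h⟩ := ifb_and h
        have e2 : r.val = ek g := Nat.eq_of_beq_eq_true h2
        have e3 : Ke g = r := by
          apply Fin.ext
          rw [Ke_val (by omega), e2]
        refine ⟨fun _ => ⟨(c, t), v, by rw [hv], ?_, ?_, ?_⟩, fun hh => by omega⟩
        · exact memL_spec (allL_spec h _ hq)
        · rw [e3]; exact hb
        · rw [e3]; exact run_weak hJ _ _ _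
    rcases ifb_cases h with ⟨_, h⟩ | ⟨_, h⟩
    · -- up
      obtain ⟨c', r', h1, h2⟩ := mu_spec c r _ h
      have st : Stp0 ⟨addJ X J, (c, t), r, v⟩ ⟨addJ X J, (c', t), r', v⟩ :=
        Stp0.ver _ _ _ _ _ _ _ h1
      exact Good.of_run st.run (ih _ c' r' J os h2 (st.free hb) hJ v hv hq)
    rcases ifb_cases h with ⟨_, h⟩ | ⟨_, h⟩
    · -- down
      obtain ⟨c', r', h1, h2⟩ := md_spec c r _ h
      have st : Stp0 ⟨addJ X J, (c, t), r, v⟩ ⟨addJ X J, (c', t), r', v⟩ :=
        Stp0.ver _ _ _ _ _ _ _ h1
      exact Good.of_run st.run (ih _ c' r' J os h2 (st.free hb) hJ v hv hq)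
    cases os with
    | nil => simp at hq
    | cons q os' =>
      rcases ifb_cases h with ⟨_, h⟩ | ⟨_, h⟩
      · -- branching
        obtain ⟨h1, h2⟩ := ifb_and h
        rcases List.mem_cons.1 hq with h3 | h3
        · exact ih _ c r J [q] h1 hb hJ v hv (by rw [h3]; exact List.mem_cons.2 (Or.inl rfl))
        · exact ih _ c r J os' h2 hb hJ v hv h3
      · cases os' with
        | cons q' os'' => exact absurd h (by simp)
        | nil =>
          have e1 : sf v = q := by simpa using hq
          rcases ifb_cases h with ⟨_, h⟩ | ⟨_, h⟩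
          · -- a winning excursion
            obtain ⟨e, he, h⟩ := nthK_spec h
            obtain ⟨h1, h⟩ := ifb_and h
            obtain ⟨h2, h⟩ := ifb_and h
            obtain ⟨h3, h⟩ := ifb_and h
            have f1 : ek e = 3 := Nat.eq_of_beq_eq_true h1
            have f2 : ei e = r.val := Nat.eq_of_beq_eq_true h2
            have f3 : ek g = 3 := Nat.eq_of_beq_eq_true h
            have f4 : ei e ≤ 2 := by rw [f2]; omega
            have f5 : Ie e = r := by
              apply Fin.ext
              rw [Ie_val f4, f2]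
            rw [← e1] at he
            have := ((hE v hv e he f4).1 (addJ X J) (c, t) (by rw [f5]; exact hb)
              (fun i hi => land_disj (Je e) c h3 i hi)).2 f1
            rw [f5] at this
            exact ⟨fun hh => by omega, fun _ => this⟩
          · -- an excursion
            obtain ⟨e, he, h⟩ := nthK_spec h
            obtain ⟨h2, h⟩ := ifb_and h
            have f2 : ei e = r.val := Nat.eq_of_beq_eq_true h2
            have f4 : ei e ≤ 2 := by rw [f2]; omega
            have f5 : Ie e = r := by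
              apply Fin.ext
              rw [Ie_val f4, f2]
            rw [← e1] at he
            refine ex_sound hX _ (fun c' r' J' os' => ih _ c' r' J' os') c J hJ e h _ ?_
            intro hok
            have := (hE v hv e he f4).1 (addJ X J) (c, t) (by rw [f5]; exact hb) hok
            rw [f5, hv] at this
            exact this

end MP82a8ee.Three
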